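import Pool.Agent.Work.MP_4c212b_al.AsmDown

/-!
# Block INIT (assembly)
-/

set_option autoImplicit false

open Subgroup
open scoped commutatorElement TensorProduct

namespace Pool.FH

theorem commutator_ne_bot_of_nontriv {S : Sys} {q : ℕ} [Fact q.Prime] (M : Mod S q)
    {H : Subgroup S.Γ} (h : ∃ x ∈ H.map S.pr, ∃ w, M.ρ x w ≠ w) : ⁅Op q S.G, H⁆ ≠ ⊥ := by
  intro hb
  obtain ⟨_, ⟨x, hx, rfl⟩, w, hw⟩ := h
  apply hw
  obtain ⟨a, rfl⟩ := M.f_surj w
  have hc : x * a * x⁻¹ = a := by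
    have h1 : ⁅(a : S.Γ), x⁆ ∈ ⁅Op q S.G, H⁆ := commutator_mem_commutator a.2 hx
    rw [hb, mem_bot, commutatorElement_eq_one_iff_mul_comm] at h1
    rw [← h1, mul_inv_cancel_right]
  have := M.f_equiv x a a hc.symm
  exact this.symm

theorem Op_ne_bot_of_commutator {S : Sys} {q : ℕ} {H : Subgroup S.Γ} (h : ⁅Op q S.G, H⁆ ≠ ⊥) :
    Op q S.G ≠ ⊥ := by
  rintro h0
  apply h
  rw [h0, commutator_bot_left]

theorem Sys.pr_mem_B (S : Sys) {k : ℕ} {y : S.Γ} (h : y ∈ S.B k) : S.pr y ∈ S.next.B k :=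
  ⟨y, h, rfl⟩

theorem Sys.B_comm (S : Sys) {k : ℕ} {y : S.Γ} (h : y ∈ S.B k) : S.φ * y = y * S.φ :=
  (mem_fx.1 (S.hBC k h)).2

theorem Sys.B_mem_G (S : Sys) {k : ℕ} {y : S.Γ} (h : y ∈ S.B k) : y ∈ S.G :=
  (mem_fx.1 (S.hBC k h)).1

theorem Sys.Op_normalized (S : Sys) (q : ℕ) [Fact q.Prime] (g : S.Γ) : Nz g (Op q S.G) :=
  Op_nz q (Nz.of_normal g S.G)

theorem stmt_INIT (hT : Stmt_TRANS) (hF : Stmt_FAITH) (hR : Stmt_REPR) (hG : Stmt_GETM)
    (hQ : Stmt_QLS) : Stmt_INIT := by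
  intro S κ q r y hq hr hrq hy hyn hB3 hne
  obtain ⟨n, hn⟩ := hyn
  have fq : Fact q.Prime := ⟨hq⟩
  have fr : Fact r.Prime := ⟨hr⟩
  -- names
  obtain ⟨S1, hS1⟩ : ∃ S1, S1 = S.next := ⟨_, rfl⟩
  have hy1B := S.pr_mem_B hy
  have hy2B := S.next.pr_mem_B hy1B
  have hy3B := S.next.next.pr_mem_B hy2B
  set y1 := S.pr y with hy1
  set y2 := S.next.pr y1 with hy2
  set y3 := S.next.next.pr y2 with hy3
  have hn1 : y1 ^ q ^ n = 1 := by rw [hy1, ← map_pow, hn, map_one]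
  have hn2 : y2 ^ q ^ n = 1 := by rw [hy2, ← map_pow, hn1, map_one]
  have hn3 : y3 ^ q ^ n = 1 := by rw [hy3, ← map_pow, hn2, map_one]
  -- T
  have hC : ∀ x ∈ fx (Op r S.next.next.next.G) S.next.next.next.φ, x * y3 = y3 * x := by
    intro x hx
    rw [mem_fx] at hx
    have h1 := hT S.next.next.next κ r q x y3 hr hq hrq hx.1 hx.2 (Sys.B_mem_G _ hy3B)
      (Sys.B_comm _ hy3B) ⟨n, hn3⟩ (Sys.pr_mem_B _ hy3B)
    rw [hB3] at h1
    exact commutatorElement_eq_one_iff_mul_comm.1 ((mem_bot).1 h1)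
  obtain ⟨x0, hx0, hx0y⟩ := hne
  have hOpne : Op r S.next.next.next.G ≠ ⊥ := by
    intro h0
    rw [h0, mem_bot] at hx0
    apply hx0y
    rw [hx0]; simp
  have hpr : S.p ≠ r := S.next.next.next.ne_p_of_isPGroup hr (Op_isP r _) (Op_le r _) hOpne
  obtain ⟨R, hRT, hR1, hRφ, hRy, hRcφ, hRcy⟩ := exists_stable (p := S.p) (q := q) (r := r) hpr
    (Ne.symm hrq) (Op_isP r S.next.next.next.G) (n := 1) (m := n) (φ := S.next.next.next.φ)
    (y := y3) (by rw [pow_one]; exact S.next.next.next.hφ) hn3 (Sys.B_comm _ hy3B)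
    (Sys.Op_normalized _ r _) (Sys.Op_normalized _ r _) hC ⟨x0, hx0, fun h => hx0y h.symm⟩
  have hRG : R ≤ S.next.next.next.G := hRT.trans (Op_le r _)
  have hRP : IsPGroup r R := (Op_isP r _).to_le hRT
  have hy3ne : y3 ≠ 1 := by
    intro h; apply hx0y
    rw [h]; simp
  have hy2ne : y2 ≠ 1 := by
    intro h; apply hy3ne; rw [hy3, h, map_one]
  have hy1ne : y1 ≠ 1 := by
    intro h; apply hy2ne; rw [hy2, h, map_one]
  obtain ⟨H2, hH2G, hH2R, hH2P, hH2φ, hH2c, hH2q, hH2v⟩ := hG S.next.next q r y2 R hq hr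
    (Ne.symm hrq) (Sys.B_mem_G _ hy2B) (Sys.B_comm _ hy2B) ⟨n, hn2⟩ hy2ne hRG hR1 hRP hRφ hRy
    hRcφ hRcy
  obtain ⟨Mq⟩ := hR S.next.next q
  by_cases ha : ∃ x ∈ R, ∃ w, Mq.ρ x w ≠ w
  · -- case (a)
    right
    rw [← hH2R] at ha
    have hYne := commutator_ne_bot_of_nontriv Mq ha
    have hOq := Op_ne_bot_of_commutator hYne
    have hYH := hH2q hOq
    have hYle : ⁅Op q S.next.next.G, H2⁆ ≤ Op q S.next.next.G :=
      comm_le_left (fun g _ => Sys.Op_normalized _ q g)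
    obtain ⟨t, ft, htq, htG, hM⟩ := hF S.next q _ hq hYle hYne
    obtain ⟨Mt⟩ := hR S.next t
    refine hQ S.next κ q r q t _ H2 y2 Mt hy2B hYH hYle hH2G htq htq ?_ (hM Mt)
      (fun h => absurd rfl h)
    rintro rfl; exact S.next.cop htG
  · -- case (b)
    push Not at ha
    have hcent : ∀ x ∈ H2, ∀ z ∈ Op q S.next.next.G, x * z = z * x :=
      Mq.faith r hr hrq H2 hH2P (fun x hx v => ha _ (by rw [← hH2R]; exact ⟨x, hx, rfl⟩) v)
    obtain ⟨hyH2, hcH2, hYHv⟩ := hH2v (fun x hx h hh => (hcent h hh x hx).symm)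
    obtain ⟨v, fv, hvr, hvG, hMv⟩ := hF S.next.next r R hr hRT hR1
    have hvq : v ≠ q := by
      rintro rfl
      obtain ⟨x, hx, w, hw⟩ := hMv Mq
      exact hw (ha x hx w)
    obtain ⟨Mv⟩ := hR S.next.next v
    have hnv := hMv Mv
    rw [← hH2R] at hnv
    have hYne := commutator_ne_bot_of_nontriv Mv hnv
    have hOv := Op_ne_bot_of_commutator hYne
    have hYH := hYHv v fv.out hvr hvq hOv
    have hYle : ⁅Op v S.next.next.G, H2⁆ ≤ Op v S.next.next.G :=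
      comm_le_left (fun g _ => Sys.Op_normalized _ v g)
    have hW : ∀ x ∈ fx H2 S.next.next.φ, ∀ w ∈ ⁅Op v S.next.next.G, H2⁆,
        ⁅x, y2⁆ * w = w * ⁅x, y2⁆ := by
      intro x hx w hw
      rw [mem_fx] at hx
      have h1 : ⁅x, y2⁆ ∈ H2 := by
        rw [commutatorElement_def]
        have := hyH2 x⁻¹ (inv_mem hx.1)
        have h2 := mul_mem hx.1 this
        simpa [mul_assoc] using h2
      have h2 : S.next.next.pr x ∈ fx (Op r S.next.next.next.G) S.next.next.next.φ := by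
        rw [mem_fx]
        refine ⟨hRT ?_, ?_⟩
        · rw [← hH2R]; exact ⟨x, hx.1, rfl⟩
        · rw [Sys.next_φ, ← map_mul, hx.2, map_mul]
      have h3 := hC _ h2
      have h4 : ⁅x, y2⁆ ∈ Ft S.next.next.G := by
        rw [← Sys.ker_pr, MonoidHom.mem_ker, map_commutatorElement,
          commutatorElement_eq_one_iff_mul_comm]
        exact h3
      obtain ⟨m, hm⟩ := hH2P ⟨_, h1⟩
      have h5 : ⁅x, y2⁆ ^ r ^ m = 1 := congrArg Subtype.val hm
      have h6 := mem_Op_of_mem_Ft h4 h5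
      exact Op_comm (Ne.symm hvr) h6 (hYle hw)
    obtain ⟨t, ft, htv, htG, hM⟩ := hF S.next v _ fv.out hYle hYne
    by_cases htq : t = q
    · -- case (b1)
      left
      subst htq
      obtain ⟨Mt⟩ := hR S.next t
      have hH2ne : ∃ x ∈ H2, ∃ w, Mt.ρ x w ≠ w := by
        by_contra hcon
        push Not at hcon
        obtain ⟨x, hx, w, hw⟩ := hM Mt
        apply hw
        have key : ⁅Op v S.next.next.G, H2⁆ ≤ (Mt.ρ).ker := by
          rw [commutator_le]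
          intro a _ h hh
          rw [MonoidHom.mem_ker]
          have h1 : Mt.ρ h = 1 := by
            ext w; exact hcon h hh w
          have h2 : Mt.ρ h⁻¹ = 1 := by
            ext w; exact hcon h⁻¹ (inv_mem hh) w
          rw [commutatorElement_def, map_mul, map_mul, map_mul, h1, h2, mul_one, mul_one,
            ← map_mul, mul_inv_cancel, map_one]
        have h1 := key hx
        rw [MonoidHom.mem_ker] at h1
        rw [h1]; rfl
      have hH21 : H2 ≠ ⊥ := by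
        rintro h0
        apply hR1
        rw [← hH2R, h0, Subgroup.map_bot]
      obtain ⟨H1, hH1G, hH1R, hH1P, hH1φ, hH1c, hH1q, -⟩ := hG S.next t r y1 H2 hq hr
        (Ne.symm hrq) (Sys.B_mem_G _ hy1B) (Sys.B_comm _ hy1B) ⟨n, hn1⟩ hy1ne hH2G hH21 hH2P
        hH2φ hyH2 hH2c hcH2
      rw [← hH1R] at hH2ne
      have hY1ne := commutator_ne_bot_of_nontriv Mt hH2ne
      have hO1 := Op_ne_bot_of_commutator hY1ne
      have hYH1 := hH1q hO1
      have hY1le : ⁅Op t S.next.G, H1⁆ ≤ Op t S.next.G :=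
        comm_le_left (fun g _ => Sys.Op_normalized _ t g)
      obtain ⟨t', ft', ht'q, ht'G, hM'⟩ := hF S t _ hq hY1le hY1ne
      obtain ⟨Mt'⟩ := hR S t'
      refine hQ S κ t r t t' _ H1 y1 Mt' hy1B hYH1 hY1le hH1G ht'q ht'q ?_ (hM' Mt')
        (fun h => absurd rfl h)
      rintro rfl; exact S.cop ht'G
    · -- case (b2)
      right
      obtain ⟨Mt⟩ := hR S.next t
      refine hQ S.next κ v r q t _ H2 y2 Mt hy2B hYH hYle hH2G htv htq ?_ (hM Mt)
        (fun _ => ⟨hyH2, hW⟩)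
      rintro rfl; exact S.next.cop htG

end Pool.FH
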