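import Pool.Agent.Work.MP_4c212b_al.Interface

/-!
# Block CH: one step of the chain (from `C_G(φ)` to `G`)
-/

set_option autoImplicit false

open Subgroup
open scoped commutatorElement TensorProduct

namespace Pool.FH

namespace CH

/-- The iterated projection. -/
noncomputable def prn (S : Sys) : (n : ℕ) → S.Γ →* (S.lev n).Γ
  | 0 => MonoidHom.id _
  | n + 1 => (S.lev n).pr.comp (prn S n)

theorem prn_succ (S : Sys) (n : ℕ) (x : S.Γ) : prn S (n + 1) x = (S.lev n).pr (prn S n x) := rfl

theorem lev_p (S : Sys) (n : ℕ) : (S.lev n).p = S.p := by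
  induction n with
  | zero => rfl
  | succ n ih => exact ih

theorem lev_G (S : Sys) (n : ℕ) : (S.lev n).G = S.G.map (prn S n) := by
  induction n with
  | zero => exact (Subgroup.map_id _).symm
  | succ n ih =>
    change ((S.lev n).G).map (S.lev n).pr = S.G.map ((S.lev n).pr.comp (prn S n))
    rw [ih, Subgroup.map_map]

theorem lev_φ (S : Sys) (n : ℕ) : (S.lev n).φ = prn S n S.φ := by
  induction n with
  | zero => rfl
  | succ n ih =>
    change (S.lev n).pr (S.lev n).φ = (S.lev n).pr (prn S n S.φ)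
    rw [ih]

theorem lev_B (S : Sys) (n k : ℕ) : (S.lev n).B k = (S.B k).map (prn S n) := by
  induction n with
  | zero => exact (Subgroup.map_id _).symm
  | succ n ih =>
    change ((S.lev n).B k).map (S.lev n).pr = (S.B k).map ((S.lev n).pr.comp (prn S n))
    rw [ih, Subgroup.map_map]

theorem lev_fx (S : Sys) (n : ℕ) : fx (S.lev n).G (S.lev n).φ ≤ (fx S.G S.φ).map (prn S n) := by
  induction n with
  | zero => exact (Subgroup.map_id _).ge
  | succ n ih =>
    intro c hc
    change c ∈ fx (S.lev n).next.G (S.lev n).next.φ at hc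
    obtain ⟨⟨c, hc1, rfl⟩, hc2⟩ := mem_fx.1 hc
    obtain ⟨x, hx, h⟩ := fx_lift (S.lev n).pr (S.lev n).hφ (c := c)
      (by rw [Sys.ker_pr]; exact (S.lev n).cop_of_le (Ft_le _)) hc2
    rw [Sys.ker_pr] at hx
    have hx' : (S.lev n).pr x = 1 := by
      rw [← MonoidHom.mem_ker, Sys.ker_pr]; exact hx
    have h1 : c * x ∈ fx (S.lev n).G (S.lev n).φ :=
      mem_fx.2 ⟨(S.lev n).G.mul_mem hc1 (Ft_le _ hx), h⟩
    obtain ⟨d, hd, hd'⟩ := ih h1
    refine ⟨d, hd, ?_⟩
    rw [prn_succ, hd', map_mul, hx', mul_one]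
    rfl

theorem prn_ker_mono (S : Sys) (n : ℕ) : (prn S n).ker ≤ (prn S (n + 1)).ker := by
  intro x hx
  rw [MonoidHom.mem_ker] at hx ⊢
  rw [prn_succ, hx, map_one]
  rfl

section

variable {G : Type} [Group G] [Finite G] (φ : MulAut G)

/-- the ambient group -/
abbrev Gam : Type := G ⋊[(zpowers φ).subtype] (zpowers φ)

instance : Finite (Gam φ) := by
  have h1 : Finite (MulAut G) := inferInstance
  exact Finite.of_equiv (G × zpowers φ) SemidirectProduct.equivProd.symm

def ph : Gam φ := SemidirectProduct.inr ⟨φ, mem_zpowers φ⟩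

theorem ph_conj (g : G) : ph φ * SemidirectProduct.inl g * (ph φ)⁻¹ =
    (SemidirectProduct.inl (φ g) : Gam φ) := by
  have := SemidirectProduct.inl_aut (φ := (zpowers φ).subtype) ⟨φ, mem_zpowers φ⟩ g
  rw [ph, ← map_inv]
  exact this.symm

theorem inl_comm_iff (g : G) : ph φ * (SemidirectProduct.inl g : Gam φ) =
    SemidirectProduct.inl g * ph φ ↔ φ g = g := by
  rw [← mul_inv_eq_iff_eq_mul, ph_conj]
  constructor
  · intro h; exact SemidirectProduct.inl_injective h
  · intro h; rw [h]

end

end CH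

/-- Block CH. -/
theorem stmt_CH (hL1 : Stmt_L1) (hL2 : Stmt_L2) : Stmt_CH := by
  intro p m hp
  obtain ⟨b, hb⟩ := hL2 p m
  refine ⟨b, ?_⟩
  intro k G _ _ φ hG hpG hφ ⟨s, hs0, hsn, hsm, hsc, hsi⟩
  have : Fact p.Prime := ⟨hp⟩
  let C := fixAut ({φ} : Set (MulAut G))
  let inl : G →* CH.Gam φ := SemidirectProduct.inl
  have hinj : Function.Injective inl := SemidirectProduct.inl_injective
  let B : ℕ → Subgroup (CH.Gam φ) := fun i => ((s (min i k)).map C.subtype).map inl
  have hmemC : ∀ g : G, g ∈ C ↔ φ g = g := by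
    intro g
    constructor
    · intro h; exact h φ rfl
    · intro h σ hσ
      rw [Set.mem_singleton_iff.1 hσ]; exact h
  let S : Sys :=
    { Γ := CH.Gam φ
      p := p
      G := inl.range
      hG := by
        change (SemidirectProduct.inl (φ := (zpowers φ).subtype)).range.Normal
        rw [SemidirectProduct.range_inl_eq_ker_rightHom]
        infer_instance
      sol := Group.isSolvable_of_surjective (f := inl.rangeRestrict) inl.rangeRestrict_surjective
      cop := by
        rw [← Nat.card_congr (MonoidHom.ofInjective hinj).toEquiv]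
        exact hpG
      φ := CH.ph φ
      hφ := by
        rw [CH.ph, ← map_pow]
        have : (⟨φ, mem_zpowers φ⟩ : zpowers φ) ^ p = 1 := Subtype.ext (by simpa using hφ)
        rw [this, map_one]
      B := B
      hB0 := by
        change ((s (min 0 k)).map C.subtype).map inl = ⊥
        rw [Nat.zero_min, hs0, Subgroup.map_bot, Subgroup.map_bot]
      hBC := by
        rintro i _ ⟨_, ⟨⟨x, hx⟩, _, rfl⟩, rfl⟩
        rw [mem_fx]
        exact ⟨⟨x, rfl⟩, (CH.inl_comm_iff φ x).2 ((hmemC x).1 hx)⟩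
      hBm := by
        intro i
        apply Subgroup.map_mono
        apply Subgroup.map_mono
        have hmono : Monotone s := monotone_nat_of_le_succ hsm
        exact hmono (by omega)
      hBn := by
        rintro i c hc _ ⟨_, ⟨x, hx, rfl⟩, rfl⟩
        obtain ⟨⟨c, rfl⟩, hc2⟩ := mem_fx.1 hc
        have hcC : c ∈ C := (hmemC c).2 ((CH.inl_comm_iff φ c).1 hc2)
        have hn := (hsn (min i k)).conj_mem x hx ⟨c, hcC⟩
        exact ⟨_, ⟨_, hn, rfl⟩, by simp⟩
      hBF := by
        rintro i a d ha hd had _ ⟨_, ⟨x, hx, rfl⟩, rfl⟩ _ ⟨_, ⟨y, hy, rfl⟩, rfl⟩ ⟨n, hn⟩ ⟨n', hn'⟩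
        have hxn : x ^ a ^ n = 1 := by
          apply Subtype.ext
          apply hinj
          simpa using hn
        have hyn : y ^ d ^ n' = 1 := by
          apply Subtype.ext
          apply hinj
          simpa using hn'
        refine ⟨_, ⟨⁅x, y⁆, ?_, rfl⟩, by simp⟩
        by_cases hik : i < k
        · have e1 : min (i + 1) k = i + 1 := by omega
          have e2 : min i k = i := by omega
          rw [e1] at hx hy
          rw [e2]
          exact hsc i hik a d ha hd had x hx y hy ⟨n, hxn⟩ ⟨n', hyn⟩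
        · have e1 : min (i + 1) k = k := by omega
          have e2 : min i k = k := by omega
          rw [e1] at hx hy
          rw [e2]
          rw [commutatorElement_def]
          exact mul_mem (mul_mem (mul_mem hx hy) (inv_mem hx)) (inv_mem hy) }
  -- the fixed points at level `k + 3`
  have hcard : Nat.card (fx (S.lev (k + 3)).G (S.lev (k + 3)).φ) ≤ m := by
    have h1 := CH.lev_fx S (k + 3)
    have h2 : (S.lev (k + 3)).B k = ⊥ := hL1 S k
    rw [CH.lev_B] at h2
    let f : C →* (S.lev (k + 3)).Γ := (CH.prn S (k + 3)).comp (inl.comp C.subtype)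
    have hker : s k ≤ f.ker := by
      intro x hx
      rw [MonoidHom.mem_ker]
      have h3 : CH.prn S (k + 3) (inl (x : G)) ∈ (S.B k).map (CH.prn S (k + 3)) := by
        refine ⟨inl (x : G), ?_, rfl⟩
        change inl (x : G) ∈ ((s (min k k)).map C.subtype).map inl
        rw [min_self]
        exact ⟨_, ⟨x, hx, rfl⟩, rfl⟩
      rw [h2, mem_bot] at h3
      exact h3
    have hfx : fx (S.lev (k + 3)).G (S.lev (k + 3)).φ ≤ f.range := by
      intro c hc
      obtain ⟨d, hd, rfl⟩ := h1 hc
      obtain ⟨⟨d, rfl⟩, hd2⟩ := mem_fx.1 hd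
      exact ⟨⟨d, (hmemC d).2 ((CH.inl_comm_iff φ d).1 hd2)⟩, rfl⟩
    calc Nat.card (fx (S.lev (k + 3)).G (S.lev (k + 3)).φ) ≤ Nat.card f.range :=
          Subgroup.card_le_of_le hfx
      _ = f.ker.index := (index_ker f).symm
      _ ≤ (s k).index := index_antitone hker
      _ ≤ m := hsi
  have hnext := hb (S.lev (k + 3)) (CH.lev_p S (k + 3)) hcard
  refine ⟨fun i => ((CH.prn S i).ker).comap inl, ?_, ?_, ?_, ?_, ?_⟩
  · rw [eq_bot_iff]
    intro x hx
    have h1 : inl x = 1 := hx
    rw [mem_bot]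
    exact hinj (by rw [h1, map_one])
  · intro i
    infer_instance
  · intro i
    exact Subgroup.comap_mono (CH.prn_ker_mono S i)
  · intro i _ a d ha hd had x hx y hy ⟨n, hn⟩ ⟨n', hn'⟩
    have : Fact a.Prime := ⟨ha⟩
    have : Fact d.Prime := ⟨hd⟩
    have h1 : ∀ z, z ∈ ((CH.prn S (i + 1)).ker).comap inl →
        CH.prn S i (inl z) ∈ Ft (S.lev i).G := by
      intro z hz
      have hz' : (S.lev i).pr (CH.prn S i (inl z)) = 1 := hz
      rwa [← MonoidHom.mem_ker, Sys.ker_pr] at hz'
    have h2 := mem_Op_of_mem_Ft (t := a) (n := n) (h1 x hx) (by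
      rw [← map_pow, ← map_pow, hn, map_one, map_one])
    have h3 := mem_Op_of_mem_Ft (t := d) (n := n') (h1 y hy) (by
      rw [← map_pow, ← map_pow, hn', map_one, map_one])
    have h4 := Op_comm had h2 h3
    change CH.prn S i (inl ⁅x, y⁆) = 1
    rw [map_commutatorElement, map_commutatorElement, commutatorElement_eq_one_iff_mul_comm]
    exact h4
  · have h1 : ((CH.prn S (k + 4)).ker).comap inl = ((CH.prn S (k + 4)).comp inl).ker :=
      MonoidHom.comap_ker _ _
    change (((CH.prn S (k + 4)).ker).comap inl).index ≤ b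
    rw [h1, index_ker]
    have h2 : ((CH.prn S (k + 4)).comp inl).range = (S.lev (k + 3)).next.G := by
      change _ = (S.lev (k + 4)).G
      rw [CH.lev_G, MonoidHom.range_comp]
    rw [h2]
    exact hnext

end Pool.FH
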