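import Pool.Agent.Work.MP_4c212b_al.P

/-!
# Block EX
-/

set_option autoImplicit false

open Subgroup Module
open scoped commutatorElement TensorProduct

namespace Pool.FH

namespace EXb

variable {k E V : Type} [Field k] [Group E] [Finite E] [AddCommGroup V] [Module k V]

omit [Finite E] in
/-- Schur's lemma -/
theorem schur [IsAlgClosed k] [FiniteDimensional k V] {ρ : Representation k E V} {A : Set E}
    {W : Submodule k V} (hW : Irr ρ A W) {x : E} (hx : Inv ρ x W)
    (hc : ∀ g ∈ A, ∀ w ∈ W, ρ x (ρ g w) = ρ g (ρ x w)) : Scal ρ x W := by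
  obtain ⟨hW0, hWA, hWm⟩ := hW
  have hnt : Nontrivial W := Submodule.nontrivial_iff_ne_bot.2 hW0
  obtain ⟨c, hcc⟩ := Module.End.exists_eigenvalue ((ρ x).restrict hx)
  obtain ⟨w, hw⟩ := hcc.exists_hasEigenvector
  have hw1 : ρ x (w : V) = c • (w : V) := by
    have := congrArg Subtype.val hw.apply_eq_smul
    exact this
  have hw0 : (w : V) ≠ 0 := fun h => hw.2 (Subtype.ext h)
  have h1 : W ⊓ End.eigenspace (ρ x) c = W := by
    apply hWm _ inf_le_left
    · intro h
      apply hw0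
      rw [← Submodule.mem_bot k, ← h]
      exact ⟨w.2, End.mem_eigenspace_iff.2 hw1⟩
    · rintro g hg v ⟨hv, hv'⟩
      refine ⟨hWA g hg v hv, ?_⟩
      rw [SetLike.mem_coe, End.mem_eigenspace_iff] at hv' ⊢
      rw [hc g hg v hv, hv', map_smul]
  refine ⟨c, fun w hw => ?_⟩
  have h2 : w ∈ W ⊓ End.eigenspace (ρ x) c := by rw [h1]; exact hw
  exact End.mem_eigenspace_iff.1 h2.2

/-- the kernel on `W` -/
def krn (ρ : Representation k E V) (W : Submodule k V) : Subgroup E :=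
  PP.ofMul {g | ∀ w ∈ W, ρ g w = w} (fun w _ => by simp) (fun a ha b hb w hw => by
    rw [map_mul, Module.End.mul_apply, hb w hw, ha w hw])

theorem mem_krn {ρ : Representation k E V} {W : Submodule k V} {g : E} :
    g ∈ krn ρ W ↔ ∀ w ∈ W, ρ g w = w := Iff.rfl

theorem krn_nz {ρ : Representation k E V} {W : Submodule k V} {g : E} (hg : Inv ρ g W) :
    Nz g (krn ρ W) := by
  intro x hx w hw
  have h1 : ρ g⁻¹ w ∈ W := hg.inv w hw
  rw [map_mul, map_mul, Module.End.mul_apply, Module.End.mul_apply, hx _ h1, rho_apply_inv]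

theorem comm_of_krn {ρ : Representation k E V} {W : Submodule k V} {x g : E}
    (hx : Inv ρ x W) (hg : Inv ρ g W) (h : ⁅x, g⁆ ∈ krn ρ W) {w : V} (hw : w ∈ W) :
    ρ x (ρ g w) = ρ g (ρ x w) := by
  have h1 := h (ρ g (ρ x w)) (hg _ (hx _ hw))
  have h2 : ρ ⁅x, g⁆ (ρ g (ρ x w)) = ρ x (ρ g w) := by
    rw [← Module.End.mul_apply, ← Module.End.mul_apply, ← map_mul, ← map_mul,
      ← Module.End.mul_apply, ← map_mul]
    congr 2
    rw [commutatorElement_def]; group
  rw [← h2, h1]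

theorem krn_of_comm {ρ : Representation k E V} {W : Submodule k V} {x g : E}
    (hx : Inv ρ x W) (hg : Inv ρ g W) (h : ∀ w ∈ W, ρ x (ρ g w) = ρ g (ρ x w)) :
    ⁅x, g⁆ ∈ krn ρ W := by
  intro w hw
  have h1 := h (ρ x⁻¹ (ρ g⁻¹ w)) (hx.inv _ (hg.inv _ hw))
  rw [rho_apply_inv, rho_apply_inv] at h1
  rw [commutatorElement_def, map_mul, map_mul, map_mul, Module.End.mul_apply,
    Module.End.mul_apply, Module.End.mul_apply]
  have h2 : ρ x (ρ g (ρ x⁻¹ (ρ g⁻¹ w))) = w := h1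
  exact h2

omit [Finite E] in
theorem mem_zpowers_of_coprime {φ : E} {p : ℕ} (hp : p.Prime) (hφ : φ ^ p = 1) {m : ℤ}
    (hm : ¬ (p : ℤ) ∣ m) : φ ∈ zpowers (φ ^ m) := by
  have h1 : IsCoprime (p : ℤ) m :=
    (Int.prime_iff_natAbs_prime.2 (by simpa using hp)).coprime_iff_not_dvd.2 hm
  obtain ⟨a, b, hab⟩ := h1
  refine ⟨b, ?_⟩
  change (φ ^ m) ^ b = φ
  have h2 : φ ^ (a * p + b * m) = (φ ^ m) ^ b := by
    rw [zpow_add, mul_comm a, zpow_mul, zpow_natCast, hφ, one_zpow, one_mul, mul_comm b, zpow_mul]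
  rw [← h2, hab, zpow_one]

/-- dimension count -/
theorem finrank_count [FiniteDimensional k V] (W C : Submodule k V) (n m : ℕ)
    (h1 : n ≤ finrank k W) (h2 : finrank k (W ⊓ C : Submodule k V) ≤ m) :
    n + finrank k C ≤ finrank k V + m := by
  have h3 := Submodule.finrank_sup_add_finrank_inf_eq W C
  have h4 := Submodule.finrank_le (W ⊔ C)
  omega

/-- Case B : arithmetic -/
theorem arithB {p e d a m0 m1 : ℕ} (hp : p = 2 ^ e + 1) (he : 0 < e) (hd : Odd d) (hd1 : d ≠ 1)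
    (hda : d = (p - 1) * a + m0) (hm0 : m0 = a + 1 ∨ m0 + 1 = a) (hm1 : m1 = m0 ∨ m1 = a) :
    2 * e + 1 + m1 ≤ d := by
  have h1 : p - 1 = 2 ^ e := by rw [hp, Nat.add_sub_cancel]
  rw [h1] at hda
  clear h1 hp
  obtain ⟨e', rfl⟩ : ∃ e', e = e' + 1 := ⟨e - 1, by omega⟩
  have h2 : e' + 2 ≤ 2 ^ (e' + 1) := by
    have := Nat.lt_two_pow_self (n := e' + 1)
    omega
  have hpow : 2 ^ (e' + 1) = 2 * 2 ^ e' := by rw [pow_succ]; ring
  -- `a` is even and positive
  have ha : Even a := by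
    by_contra hodd
    rw [Nat.not_even_iff_odd] at hodd
    have h3 : Even m0 := by
      rcases hm0 with h | h
      · rw [h]; exact hodd.add_one
      · rw [← h] at hodd
        rcases Nat.even_or_odd m0 with h' | h'
        · exact h'
        · exact absurd hodd (by rw [Nat.not_odd_iff_even]; exact h'.add_one)
    have h4 : Even d := by
      rw [hda, hpow, mul_assoc]
      exact (even_two_mul _).add h3
    exact (Nat.not_odd_iff_even.2 h4) hd
  have ha0 : a ≠ 0 := by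
    rintro rfl
    rcases hm0 with h | h
    · apply hd1; rw [hda, h]; simp
    · omega
  have ha2 : 2 ≤ a := by
    obtain ⟨b, hb⟩ := ha
    omega
  have h5 : 2 ^ (e' + 1) * 2 ≤ 2 ^ (e' + 1) * a := Nat.mul_le_mul_left _ ha2
  -- d - m1 ≥ (p-1) a - 1
  obtain ⟨b, rfl⟩ : ∃ b, a = b + 2 := ⟨a - 2, by omega⟩
  have h6 : 2 ^ (e' + 1) * (b + 2) = 2 ^ (e' + 1) * b + 2 ^ (e' + 1) * 2 := by ring
  rcases hm1 with h | h <;> rcases hm0 with h' | h' <;> omega

theorem caseB (hVL : Stmt_VL) (hNUM : Stmt_NUM) [IsAlgClosed k] [FiniteDimensional k V]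
    {ρ : Representation k E V} {p u e : ℕ} {φ : E} {Q : Subgroup E} (hp : p.Prime)
    (hu : u.Prime) (hu2 : u ≠ 2) (hpu : p ≠ u) (hpe : p = 2 ^ e + 1) (he : 0 < e)
    (hpk : (p : k) ≠ 0) (huk : (u : k) ≠ 0) (hφ : φ ^ p = 1) (hQ : IsPGroup u Q) (nQ : Nz φ Q)
    (hQφ : Q ≤ cm Q φ)
    (hmin : ∀ X ≤ Q, Nz φ X → X ≠ Q → ∀ c ∈ cm X φ, ∀ v, ρ c v = v)
    (hnab : ∃ x ∈ Q, ∃ y ∈ Q, ∃ v, ρ ⁅x, y⁆ v ≠ v) :
    2 * e + 1 + finrank k (End.eigenspace (ρ φ) 1) ≤ finrank k V := by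
  classical
  have hpf : Fact p.Prime := ⟨hp⟩
  have huf : Fact u.Prime := ⟨hu⟩
  have hQcard : ¬ p ∣ Nat.card Q := not_dvd_card_of_isPGroup hpu hQ
  -- elements of proper `φ`-invariant subgroups commute with `φ` on `V`
  have hminc : ∀ X ≤ Q, Nz φ X → X ≠ Q → ∀ x ∈ X, ∀ v, ρ x (ρ φ v) = ρ φ (ρ x v) := by
    intro X hX hXφ hXQ x hx v
    exact comm_of_krn (W := ⊤) (fun w _ => trivial) (fun w _ => trivial)
      (fun w _ => hmin X hX hXφ hXQ _ (comm_mem_cm hx) w) trivial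
  obtain ⟨x0, hx0, y0, hy0, v0, hv0⟩ := hnab
  -- the derived group
  let D : Subgroup E := closure {g | ∃ a ∈ Q, ∃ b ∈ Q, g = ⁅a, b⁆}
  have hDQ : D ≤ Q := by
    rw [closure_le]
    rintro _ ⟨a, ha, b, hb, rfl⟩
    exact Q.mul_mem (Q.mul_mem (Q.mul_mem ha hb) (Q.inv_mem ha)) (Q.inv_mem hb)
  have hDn : ∀ g, Nz g Q → Nz g D := by
    intro g hg
    apply Nz.closure
    rintro _ ⟨a, ha, b, hb, rfl⟩
    apply Subgroup.subset_closure
    refine ⟨g * a * g⁻¹, hg a ha, g * b * g⁻¹, hg b hb, ?_⟩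
    simp only [commutatorElement_def]; group
  have hDcard : (Nat.card D : k) ≠ 0 := card_ne_zero_of_isPGroup (hQ.to_le hDQ) huk
  have hker : LinearMap.ker (sm ρ D) ≠ ⊥ := by
    intro h
    obtain ⟨a, _, b, _, ha, hb, hab⟩ := sm_decomp (W := ⊤) hDcard (fun g _ w _ => trivial)
      (w := v0) trivial
    have hb0 : b = 0 := by
      rw [← Submodule.mem_bot k, ← h]; exact hb
    apply hv0
    rw [hab, hb0, add_zero]
    exact ha _ (Subgroup.subset_closure ⟨x0, hx0, y0, hy0, rfl⟩)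
  have hkerI : ∀ g, Nz g Q → Inv ρ g (LinearMap.ker (sm ρ D)) := by
    intro g hg w hw
    rw [LinearMap.mem_ker] at hw ⊢
    rw [← sm_comm (hDn g hg), hw, map_zero]
  obtain ⟨M, hMk, hM⟩ := exists_irr (ρ := ρ) ((Q : Set E) ∪ {φ}) hker (by
    rintro g (hg | hg)
    · exact hkerI g (Nz.of_mem hg)
    · rw [Set.mem_singleton_iff] at hg; subst hg; exact hkerI g nQ)
  have hM0 := hM.1
  have hMQ : InvS ρ Q M := fun g hg => hM.2.1 g (Or.inl hg)
  have hMφ : Inv ρ φ M := hM.2.1 φ (Or.inr rfl)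
  -- the derived group is not trivial on `M`
  have hDM : ¬ ∀ a ∈ Q, ∀ b ∈ Q, ∀ w ∈ M, ρ ⁅a, b⁆ w = w := by
    intro h
    apply hM0
    rw [eq_bot_iff]
    intro w hw
    have h1 : D ≤ krn ρ M := by
      rw [closure_le]
      rintro _ ⟨a, ha, b, hb, rfl⟩
      exact h a ha b hb
    rw [Submodule.mem_bot]
    exact eq_zero_of_fixed hDcard (fun x hx => h1 hx w hw) (hMk hw)
  -- scalars
  let S1 : Subgroup E := PP.ofMul {x | x ∈ Q ∧ Scal ρ x M} ⟨Q.one_mem, 1, fun w _ => by simp⟩ (by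
    rintro a ⟨ha, c, hc⟩ b ⟨hb, c', hc'⟩
    refine ⟨Q.mul_mem ha hb, c * c', fun w hw => ?_⟩
    rw [map_mul, Module.End.mul_apply, hc' w hw, map_smul, hc w hw, smul_smul, mul_comm])
  have hS1Q : S1 ≤ Q := fun x hx => hx.1
  have hS1n : ∀ g, Nz g Q → Inv ρ g M → Nz g S1 := by
    rintro g hg hgM x ⟨hx, c, hc⟩
    refine ⟨hg x hx, c, fun w hw => ?_⟩
    rw [map_mul, map_mul, Module.End.mul_apply, Module.End.mul_apply,
      hc _ (hgM.inv w hw), map_smul, rho_apply_inv]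
  have hS1 : S1 ≠ Q := by
    intro h
    apply hDM
    intro a ha b hb
    rw [← h] at ha hb
    obtain ⟨haQ, c, hc⟩ := ha
    obtain ⟨hbQ, c', hc'⟩ := hb
    refine krn_of_comm (hMQ a haQ) (hMQ b hbQ) fun w hw => ?_
    rw [hc' w hw, map_smul, hc w hw, map_smul, hc' w hw, smul_comm]
  -- the Frattini subgroup acts by scalars
  have hQ0 : Q ≠ ⊥ := by
    rintro rfl
    rw [mem_bot] at hx0 hy0
    subst hx0 hy0
    apply hv0; simp
  have hPhiQ : Phi u Q ≠ Q := fun h => Phi_ne hQ hQ0 h.ge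
  have hPhic := hminc (Phi u Q) Phi_le (Phi_nz nQ) hPhiQ
  have hQC : Q ≤ PP.CC (Phi u Q) (krn ρ ⊤) := by
    refine hQφ.trans (PP.cm_le_of_mem ⟨Phi_nz nQ, fun x hx => ?_⟩ fun g hg =>
      PP.CC_nz (Phi_nz (Nz.of_mem hg)) (krn_nz (fun w _ => trivial)))
    exact krn_of_comm (fun w _ => trivial) (fun w _ => trivial)
      (fun w _ => (hPhic x hx w).symm)
  have hPhiS : ∀ x ∈ Phi u Q, Scal ρ x M := by
    intro x hx
    apply schur hM (hMQ x (Phi_le hx))
    rintro g (hg | hg) w hw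
    · exact (comm_of_krn (W := ⊤) (fun w _ => trivial) (fun w _ => trivial)
        ((hQC hg).2 x hx) trivial).symm
    · rw [Set.mem_singleton_iff] at hg; subst hg; exact hPhic x hx w
  have hcommS : ∀ x ∈ Q, ∀ y ∈ Q, Scal ρ ⁅x, y⁆ M := fun x hx y hy =>
    hPhiS _ (Subgroup.subset_closure (Or.inl ⟨x, hx, y, hy, rfl⟩))
  -- the radical
  have hrad : ∀ x ∈ Q, (∀ y ∈ Q, ∀ w ∈ M, ρ ⁅x, y⁆ w = w) → Scal ρ x M := by
    let R : Subgroup E := PP.ofMul {x | x ∈ Q ∧ ∀ y ∈ Q, ⁅x, y⁆ ∈ krn ρ M}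
      ⟨Q.one_mem, fun y _ => by rw [commutatorElement_one_left]; exact one_mem _⟩ (by
        rintro a ⟨ha, ha'⟩ b ⟨hb, hb'⟩
        refine ⟨Q.mul_mem ha hb, fun y hy => ?_⟩
        have h1 : ⁅a * b, y⁆ = a * ⁅b, y⁆ * a⁻¹ * ⁅a, y⁆ := by
          simp only [commutatorElement_def]; group
        rw [h1]
        exact mul_mem (krn_nz (hMQ a ha) _ (hb' y hy)) (ha' y hy))
    have hR : R ≠ Q := by
      intro h
      apply hDM
      intro a ha b hb
      rw [← h] at ha
      exact ha.2 b hb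
    have hRφ : Nz φ R := by
      rintro x ⟨hx, hx'⟩
      refine ⟨nQ x hx, fun y hy => ?_⟩
      have h1 := krn_nz hMφ _ (hx' _ (nQ.inv y hy))
      have h2 : φ * ⁅x, φ⁻¹ * y * φ⁻¹⁻¹⁆ * φ⁻¹ = ⁅φ * x * φ⁻¹, y⁆ := by
        simp only [commutatorElement_def]; group
      rwa [h2] at h1
    have hRc := hminc R (fun x hx => hx.1) hRφ hR
    intro x hx hx'
    have hxR : x ∈ R := ⟨hx, hx'⟩
    apply schur hM (hMQ x hx)
    rintro g (hg | hg) w hw
    · exact comm_of_krn (hMQ x hx) (hMQ g hg) (hxR.2 g hg) hw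
    · rw [Set.mem_singleton_iff] at hg; subst hg; exact hRc x hxR w
  -- fixed point freeness
  have hfpf : ∀ i, 0 < i → i < p → ∀ x ∈ Q, Scal ρ ⁅φ ^ i, x⁆ M → Scal ρ x M := by
    intro i hi hip x hx hsc
    have hzp : zpowers (φ ^ i) = zpowers φ := by
      apply le_antisymm
      · rw [zpowers_le]; exact pow_mem (mem_zpowers φ) i
      · rw [zpowers_le]
        have h1 : ¬ (p : ℤ) ∣ (i : ℤ) := by
          rw [Int.natCast_dvd_natCast]
          intro h
          exact absurd (Nat.le_of_dvd hi h) (by omega)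
        have h2 := mem_zpowers_of_coprime hp hφ h1
        rwa [zpow_natCast] at h2
    have hn : Nz (φ ^ i) Q := nQ.pow i
    have h1 : x ∈ S1 := by
      apply fx_abelian (p := p) (Q := Q) (M := S1) (φ := φ ^ i) (n := 1)
      · rw [pow_one, ← pow_mul, mul_comm, pow_mul, hφ, one_pow]
      · exact hQcard
      · exact hn
      · exact hS1Q
      · exact (hS1n φ nQ hMφ).pow i
      · intro a ha b hb
        exact ⟨Q.mul_mem (Q.mul_mem (Q.mul_mem ha hb) (Q.inv_mem ha)) (Q.inv_mem hb),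
          hcommS a ha b hb⟩
      · unfold cm
        rw [hzp]
        exact hQφ.trans le_sup_left
      · exact hx
      · refine ⟨?_, hsc⟩
        rw [commutatorElement_def]
        exact Q.mul_mem (hn x hx) (Q.inv_mem hx)
    exact h1.2
  -- apply VL
  have hQk : (Nat.card Q : k) ≠ 0 := card_ne_zero_of_isPGroup hQ huk
  obtain ⟨_, hcard, hsum, hsq⟩ := hVL k E V ρ Q φ 1 p M hp.pos hpk hQk one_ne_zero nQ hMQ hMφ hM
    hcommS hrad (fun w _ => by rw [hφ]; simp) hfpf
  rw [one_smul] at hsum hsq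
  set d := finrank k M with hd
  have hcardS : Nat.card {x : E // x ∈ Q ∧ Scal ρ x M} = Nat.card S1 := rfl
  have hdodd : Odd d := by
    have h1 : Odd (Nat.card Q) := by
      obtain ⟨n, hn⟩ := (IsPGroup.iff_card).1 hQ
      rw [hn]
      exact (hu.odd_of_ne_two hu2).pow
    exact h1.of_dvd_nat (by rw [hcard]; exact (dvd_pow_self d two_ne_zero).mul_right _)
  have hd1 : d ≠ 1 := by
    intro h
    rw [h, one_pow, one_mul, hcardS] at hcard
    exact hS1 (Subgroup.eq_of_le_of_card_ge hS1Q hcard.le)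
  have hcardN : (Polynomial.nthRootsFinset p (1 : k)).card = p := by
    have : NeZero (p : k) := ⟨hpk⟩
    obtain ⟨ζ, hζ⟩ := HasEnoughRootsOfUnity.exists_primitiveRoot k p
    exact hζ.card_nthRootsFinset
  obtain ⟨i0, hi0, a, ha, hai⟩ := hNUM k (Polynomial.nthRootsFinset p (1 : k))
    (fun ψ => finrank k (M ⊓ End.eigenspace (ρ φ) ψ : Submodule k V)) d
    ⟨1, Polynomial.one_mem_nthRootsFinset hp.pos⟩ hsum (by rw [hcardN]; exact hsq)
  have hda : d = (p - 1) * a + finrank k (M ⊓ End.eigenspace (ρ φ) i0 : Submodule k V) := by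
    rw [← hsum, ← Finset.add_sum_erase _ _ hi0, Finset.sum_congr rfl (fun i hi => ha i
      (Finset.mem_of_mem_erase hi) (Finset.ne_of_mem_erase hi)), Finset.sum_const,
      Finset.card_erase_of_mem hi0, hcardN, smul_eq_mul, add_comm]
  have hm1 : finrank k (M ⊓ End.eigenspace (ρ φ) 1 : Submodule k V) =
      finrank k (M ⊓ End.eigenspace (ρ φ) i0 : Submodule k V) ∨
      finrank k (M ⊓ End.eigenspace (ρ φ) 1 : Submodule k V) = a := by
    by_cases h : (1 : k) = i0
    · left; rw [h]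
    · right; exact ha 1 (Polynomial.one_mem_nthRootsFinset hp.pos) h
  have hfin := arithB hpe he hdodd hd1 hda hai hm1
  have h3 := Submodule.finrank_sup_add_finrank_inf_eq M (End.eigenspace (ρ φ) 1)
  have h4 := Submodule.finrank_le (M ⊔ End.eigenspace (ρ φ) 1)
  omega

theorem caseA [IsAlgClosed k] [FiniteDimensional k V]
    {ρ : Representation k E V} {p u : ℕ} {φ : E} {Q : Subgroup E} (b : V →ₗ[k] V →ₗ[k] k)
    (hb0 : ∀ x, (∀ y, b x y = 0) → x = 0) (hbi : ∀ h ∈ Q, ∀ x y, b (ρ h x) (ρ h y) = b x y)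
    (hp : p.Prime) (hu : u.Prime) (hp2 : p ≠ 2) (h2k : (2 : k) = 0)
    (huk : (u : k) ≠ 0) (hφ : φ ^ p = 1) (hQ : IsPGroup u Q) (nQ : Nz φ Q)
    (hQφ : Q ≤ cm Q φ) (hab : ∀ x ∈ Q, ∀ y ∈ Q, ∀ v, ρ x (ρ y v) = ρ y (ρ x v))
    (hnt : ∃ c ∈ Q, ∃ v, ρ c v ≠ v) :
    2 * (p - 1) + finrank k (End.eigenspace (ρ φ) 1) ≤ finrank k V := by
  classical
  have hpf : Fact p.Prime := ⟨hp⟩
  have huf : Fact u.Prime := ⟨hu⟩
  have hQk : (Nat.card Q : k) ≠ 0 := card_ne_zero_of_isPGroup hQ huk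
  have hsup := wts_sup (ρ := ρ) (X := Q) (W := ⊤) hQk (fun g _ w _ => trivial)
    (fun x hx y hy w _ => hab x hx y hy w)
  obtain ⟨U, hU, hmov⟩ : ∃ U ∈ wts ρ Q ⊤, U.map (ρ φ) ≠ U := by
    by_contra hcon
    push Not at hcon
    have h1 := comm_of_wts_fixed (ρ := ρ) (W := ⊤) nQ (fun w _ => trivial) hsup hcon
    obtain ⟨c, hc, v, hv⟩ := hnt
    apply hv
    have h2 : cm Q φ ≤ krn ρ ⊤ := cm_le_of' nQ fun x hx =>
      krn_of_comm (fun w _ => trivial) (fun w _ => trivial) (fun w hw => h1 x hx w hw)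
    exact h2 (hQφ hc) v trivial
  obtain ⟨hU0, χ, hχ⟩ := id hU
  obtain ⟨u0, hu0U, hu0⟩ := Submodule.exists_mem_ne_zero_of_ne_bot hU0
  have hu0x : ∀ x ∈ Q, ρ x u0 = χ x • u0 := by
    intro x hx
    rw [hχ] at hu0U
    exact hu0U.2 x hx
  obtain ⟨U', hU', w', hw'U, hw'b⟩ : ∃ U' ∈ wts ρ Q ⊤, ∃ w' ∈ U', b u0 w' ≠ 0 := by
    by_contra hcon
    push Not at hcon
    apply hu0
    apply hb0
    intro y
    have h1 : sSup (wts ρ Q ⊤) ≤ LinearMap.ker (b u0) := sSup_le fun U' hU' w hw =>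
      LinearMap.mem_ker.2 (hcon U' hU' w hw)
    rw [hsup] at h1
    exact h1 trivial
  obtain ⟨hU'0, χ', hχ'⟩ := id hU'
  have hw'0 : w' ≠ 0 := by
    rintro rfl
    apply hw'b; simp
  have hw'x : ∀ x ∈ Q, ρ x w' = χ' x • w' := by
    intro x hx
    rw [hχ'] at hw'U
    exact hw'U.2 x hx
  have hχχ' : ∀ x ∈ Q, χ x * χ' x = 1 := by
    intro x hx
    have h1 := hbi x hx u0 w'
    rw [hu0x x hx, hw'x x hx] at h1
    simp only [map_smul, LinearMap.smul_apply, smul_eq_mul] at h1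
    have h2 : (χ x * χ' x - 1) * b u0 w' = 0 := by linear_combination h1
    rcases mul_eq_zero.1 h2 with h | h
    · exact sub_eq_zero.1 h
    · exact absurd h hw'b
  have hχ0 : ∀ x ∈ Q, χ x ≠ 0 := fun x hx h => by
    have := hχχ' x hx
    rw [h, zero_mul] at this
    exact zero_ne_one this
  have hχ'e : ∀ x ∈ Q, χ' x = (χ x)⁻¹ := fun x hx =>
    eq_inv_of_mul_eq_one_right (hχχ' x hx)
  have conj : ∀ (x g : E) (v : V), ρ x (ρ g v) = ρ g (ρ (g⁻¹ * x * g) v) := by
    intro x g v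
    rw [← Module.End.mul_apply, ← Module.End.mul_apply, ← map_mul, ← map_mul]
    congr 2; group
  have nQi : ∀ g, Nz g Q → ∀ x ∈ Q, g⁻¹ * x * g ∈ Q := by
    intro g hg x hx
    simpa using hg.inv x hx
  -- the stabiliser of the character
  let St : Subgroup E := PP.ofMul {g | Nz g Q ∧ ∀ y ∈ Q, χ (g⁻¹ * y * g) = χ y}
    ⟨Nz.one Q, fun y _ => by simp⟩ (by
      rintro a ⟨ha, ha'⟩ c ⟨hc, hc'⟩
      refine ⟨ha.mul hc, fun y hy => ?_⟩
      rw [← ha' y hy, ← hc' _ (nQi a ha y hy)]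
      congr 1; group)
  have mem_St : ∀ {g}, g ∈ St ↔ Nz g Q ∧ ∀ y ∈ Q, χ (g⁻¹ * y * g) = χ y := fun {g} => Iff.rfl
  have hφSt : φ ∉ St := by
    rintro ⟨_, h⟩
    apply hmov
    have hin : ρ φ u0 ∈ U := by
      rw [hχ]
      refine ⟨trivial, fun x hx => ?_⟩
      rw [conj, hu0x _ (nQi φ nQ x hx), map_smul, h x hx]
    have hin2 : ρ φ u0 ∈ U.map (ρ φ) := Submodule.mem_map_of_mem hu0U
    have hne : ρ φ u0 ≠ 0 := by
      intro h0
      apply hu0
      rw [← rho_inv_apply (ρ := ρ) φ u0, h0, map_zero]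
    exact wts_eq_of_mem (wts_map (W := ⊤) nQ (fun w _ => trivial) hU) hU hne hin2 hin
  have key1 : ∀ i i' : ZMod p, (∀ x ∈ Q, χ ((φ ^ i.val)⁻¹ * x * φ ^ i.val) =
      χ ((φ ^ i'.val)⁻¹ * x * φ ^ i'.val)) → i = i' := by
    intro i i' h
    by_contra hne
    apply hφSt
    have h1 : (φ ^ i'.val)⁻¹ * φ ^ i.val ∈ St := by
      refine ⟨(nQ.pow _).inv.mul (nQ.pow _), fun y hy => ?_⟩
      have h2 := h (φ ^ i'.val * y * (φ ^ i'.val)⁻¹) (nQ.pow i'.val y hy)
      have h3 : (φ ^ i'.val)⁻¹ * (φ ^ i'.val * y * (φ ^ i'.val)⁻¹) * φ ^ i'.val = y := by group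
      rw [h3] at h2
      rw [← h2]
      congr 1; group
    have h4 : (φ ^ i'.val)⁻¹ * φ ^ i.val = φ ^ ((i.val : ℤ) - (i'.val : ℤ)) := by
      rw [← zpow_natCast, ← zpow_natCast, ← zpow_neg, ← zpow_add]
      congr 1; ring
    rw [h4] at h1
    have h5 : ¬ (p : ℤ) ∣ (i.val : ℤ) - (i'.val : ℤ) := by
      intro h6
      apply hne
      have h7 := (ZMod.intCast_eq_intCast_iff_dvd_sub (i'.val : ℤ) (i.val : ℤ) p).2 h6
      simpa using h7.symm
    exact (zpowers_le.2 h1) (mem_zpowers_of_coprime hp hφ h5)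
  have key2 : ∀ i i' : ZMod p, ¬ (∀ x ∈ Q, χ ((φ ^ i.val)⁻¹ * x * φ ^ i.val) =
      (χ ((φ ^ i'.val)⁻¹ * x * φ ^ i'.val))⁻¹) := by
    intro i i' h
    set g := (φ ^ i'.val)⁻¹ * φ ^ i.val with hg
    have hgn : Nz g Q := (nQ.pow _).inv.mul (nQ.pow _)
    have h1 : ∀ y ∈ Q, χ (g⁻¹ * y * g) = (χ y)⁻¹ := by
      intro y hy
      have h2 := h (φ ^ i'.val * y * (φ ^ i'.val)⁻¹) (nQ.pow i'.val y hy)
      have h3 : (φ ^ i'.val)⁻¹ * (φ ^ i'.val * y * (φ ^ i'.val)⁻¹) * φ ^ i'.val = y := by group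
      rw [h3] at h2
      rw [← h2, hg]
      congr 1; group
    have h2 : g * g ∈ St := by
      refine ⟨hgn.mul hgn, fun y hy => ?_⟩
      have h3 := h1 _ (nQi g hgn y hy)
      rw [h1 y hy, inv_inv] at h3
      rw [← h3]
      congr 1; group
    have h4 : g ^ p = 1 := by
      have h5 : g = φ ^ ((i.val : ℤ) - (i'.val : ℤ)) := by
        rw [hg, ← zpow_natCast, ← zpow_natCast, ← zpow_neg, ← zpow_add]
        congr 1; ring
      rw [h5, ← zpow_natCast, ← zpow_mul, mul_comm, zpow_mul, zpow_natCast, hφ, one_zpow]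
    have h5 : g ∈ St := by
      obtain ⟨m, hm⟩ := hp.odd_of_ne_two hp2
      have h6 : (g * g) ^ (m + 1) = g := by
        rw [← pow_two, ← pow_mul]
        have h7 : 2 * (m + 1) = p + 1 := by omega
        rw [h7, pow_succ, h4, one_mul]
      rw [← h6]
      exact pow_mem h2 _
    apply hφSt
    have h6 : ∀ y ∈ Q, χ y = 1 := by
      intro y hy
      have h7 := h5.2 y hy
      rw [h1 y hy] at h7
      have h8 : χ y * χ y = 1 := by
        nth_rewrite 1 [← h7]
        exact inv_mul_cancel₀ (hχ0 y hy)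
      have h9 : (χ y - 1) * (χ y - 1) = 0 := by linear_combination h8 + (1 - χ y) * h2k
      have h10 := mul_self_eq_zero.1 h9
      exact sub_eq_zero.1 h10
    refine ⟨nQ, fun y hy => ?_⟩
    rw [h6 y hy, h6 _ (nQi φ nQ y hy)]
  -- the vectors
  let v : Bool × ZMod p → V := fun q => ρ (φ ^ q.2.val) (cond q.1 w' u0)
  let UU : Bool × ZMod p → Submodule k V := fun q => (cond q.1 U' U).map (ρ (φ ^ q.2.val))
  let ψ : Bool × ZMod p → E → k := fun q x =>
    cond q.1 (χ ((φ ^ q.2.val)⁻¹ * x * φ ^ q.2.val))⁻¹ (χ ((φ ^ q.2.val)⁻¹ * x * φ ^ q.2.val))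
  have hv0 : ∀ q, v q ≠ 0 := by
    intro q h0
    have h1 : cond q.1 w' u0 = 0 := by
      rw [← rho_inv_apply (ρ := ρ) (φ ^ q.2.val) (cond q.1 w' u0)]
      change ρ (φ ^ q.2.val)⁻¹ (v q) = 0
      rw [h0, map_zero]
    obtain ⟨j, i⟩ := q
    cases j
    · exact hu0 h1
    · exact hw'0 h1
  have hvψ : ∀ q, ∀ x ∈ Q, ρ x (v q) = ψ q x • v q := by
    rintro ⟨j, i⟩ x hx
    have hx' := nQi _ (nQ.pow i.val) x hx
    cases j
    · change ρ x (ρ (φ ^ i.val) u0) = _
      rw [conj, hu0x _ hx', map_smul]; rfl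
    · change ρ x (ρ (φ ^ i.val) w') = _
      rw [conj, hw'x _ hx', map_smul, hχ'e _ hx']; rfl
  have hUUw : ∀ q, UU q ∈ wts ρ Q ⊤ := by
    rintro ⟨j, i⟩
    cases j
    · exact wts_map (W := ⊤) (nQ.pow _) (fun w _ => trivial) hU
    · exact wts_map (W := ⊤) (nQ.pow _) (fun w _ => trivial) hU'
  have hvU : ∀ q, v q ∈ UU q := by
    rintro ⟨j, i⟩
    cases j
    · exact Submodule.mem_map_of_mem hu0U
    · exact Submodule.mem_map_of_mem hw'U
  have hinj : ∀ q q', UU q = UU q' → q = q' := by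
    intro q q' h
    have hψ : ∀ x ∈ Q, ψ q x = ψ q' x := by
      intro x hx
      obtain ⟨_, θ, hθ⟩ := hUUw q
      have h1 : v q ∈ wsp ρ Q ⊤ θ := by rw [← hθ]; exact hvU q
      have h2 : v q' ∈ wsp ρ Q ⊤ θ := by rw [← hθ, h]; exact hvU q'
      have h3 := h1.2 x hx
      have h4 := h2.2 x hx
      rw [hvψ q x hx] at h3
      rw [hvψ q' x hx] at h4
      rw [smul_left_injective k (hv0 q) h3, smul_left_injective k (hv0 q') h4]
    obtain ⟨j, i⟩ := q
    obtain ⟨j', i'⟩ := q'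
    cases j <;> cases j'
    · rw [key1 i i' hψ]
    · exact absurd hψ (key2 i i')
    · exact absurd (fun x hx => (hψ x hx).symm) (key2 i' i)
    · rw [key1 i i' (fun x hx => inv_injective (hψ x hx))]
  have hlin : ∀ c : Bool × ZMod p → k, ∑ q, c q • v q = 0 → ∀ q, c q = 0 := by
    intro c hc q
    have h1 := wts_sum_eq_zero (ρ := ρ) (s := Finset.univ) (U := UU) (v := fun q => c q • v q)
      (fun i _ => hUUw i) (fun i _ j _ h => hinj i j h)
      (fun i _ => Submodule.smul_mem _ _ (hvU i)) hc q (Finset.mem_univ q)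
    exact (smul_eq_zero.1 h1).resolve_right (hv0 q)
  -- the subspace
  let L : (Bool × ZMod p → k) →ₗ[k] V := Fintype.linearCombination k v
  have hL : ∀ c, L c = ∑ q, c q • v q := fun c => Fintype.linearCombination_apply k v c
  have hLinj : Function.Injective L := by
    rw [← LinearMap.ker_eq_bot, LinearMap.ker_eq_bot']
    intro c hc
    funext q
    exact hlin c (by rw [← hL]; exact hc) q
  let π : (Bool × ZMod p → k) →ₗ[k] (Bool → k) := LinearMap.funLeft k k (fun j => (j, 0))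
  have hπ : ∀ c j, π c j = c (j, 0) := fun c j => rfl
  have hK0 : 2 * (p - 1) ≤ finrank k (LinearMap.ker π) := by
    have h1 := LinearMap.finrank_range_add_finrank_ker π
    have h2 := Submodule.finrank_le (LinearMap.range π)
    rw [Module.finrank_pi, Fintype.card_prod, Fintype.card_bool, ZMod.card] at h1
    rw [Module.finrank_pi, Fintype.card_bool] at h2
    omega
  have hW : 2 * (p - 1) ≤ finrank k ((LinearMap.ker π).map L) := by
    rw [← (Submodule.equivMapOfInjective L hLinj (LinearMap.ker π)).finrank_eq]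
    exact hK0
  have hφv : ∀ q : Bool × ZMod p, ρ φ (v q) = v (q.1, q.2 + 1) := by
    rintro ⟨j, i⟩
    change ρ φ (ρ (φ ^ i.val) (cond j w' u0)) = ρ (φ ^ (i + 1).val) (cond j w' u0)
    rw [← Module.End.mul_apply, ← map_mul, ← pow_succ']
    have h1 : (i + 1).val = (i.val + 1) % p := by
      have : Fact (1 < p) := ⟨hp.one_lt⟩
      rw [ZMod.val_add, ZMod.val_one]
    rw [h1, ← pow_eq_pow_mod _ hφ]
  have hdisj : (LinearMap.ker π).map L ⊓ End.eigenspace (ρ φ) 1 = ⊥ := by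
    rw [eq_bot_iff]
    rintro z ⟨⟨c, hc, rfl⟩, hz⟩
    rw [SetLike.mem_coe, End.mem_eigenspace_iff, one_smul] at hz
    have hc0 : ∀ j, c (j, 0) = 0 := by
      intro j
      rw [← hπ c j]
      have : π c = 0 := hc
      rw [this]; rfl
    have h1 : ρ φ (L c) = L (fun q => c (q.1, q.2 - 1)) := by
      rw [hL, hL, map_sum]
      refine Fintype.sum_equiv ((Equiv.refl Bool).prodCongr (Equiv.addRight (1 : ZMod p))) _ _ ?_
      rintro ⟨j, i⟩
      simp only [map_smul, hφv, Equiv.prodCongr_apply, Equiv.coe_refl, Prod.map_apply, id_eq,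
        Equiv.coe_addRight, add_sub_cancel_right]
    rw [hz] at h1
    have h2 := hLinj h1
    have h3 : ∀ n : ℕ, ∀ j, c (j, (n : ZMod p)) = 0 := by
      intro n
      induction n with
      | zero => intro j; rw [Nat.cast_zero]; exact hc0 j
      | succ n ih =>
        intro j
        have h4 := congrFun h2 (j, ((n + 1 : ℕ) : ZMod p))
        rw [h4]
        simp only [Nat.cast_add, Nat.cast_one, add_sub_cancel_right]
        exact ih j
    have h5 : c = 0 := by
      funext ⟨j, i⟩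
      have h6 := h3 i.val j
      rw [ZMod.natCast_val, ZMod.cast_id] at h6
      exact h6
    rw [h5, map_zero]
    exact Submodule.zero_mem _
  have h3 := finrank_count ((LinearMap.ker π).map L) (End.eigenspace (ρ φ) 1) _ 0 hW
    (by rw [hdisj, finrank_bot])
  omega

/-- the base change of a nondegenerate form is nondegenerate -/
theorem bform_nondeg (K : Type) [Field K] {F T : Type} [Field F] [Algebra F K] [AddCommGroup T]
    [Module F T] [FiniteDimensional F T] (B : T →ₗ[F] T →ₗ[F] F)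
    (hB : ∀ x, (∀ y, B x y = 0) → x = 0) (x : K ⊗[F] T)
    (hx : ∀ y, LinearMap.BilinForm.baseChange K B x y = 0) : x = 0 := by
  classical
  -- `B` as an isomorphism onto the dual
  have hinj : Function.Injective B := by
    rw [← LinearMap.ker_eq_bot, LinearMap.ker_eq_bot']
    intro m hm
    exact hB m fun y => by rw [hm]; rfl
  let bs := Module.finBasis F T
  -- the flipped map is injective, too
  have hBf : Function.Injective B.flip := by
    have h1 : Function.Surjective B := by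
      have h2 : finrank F T = finrank F (T →ₗ[F] F) := (Subspace.dual_finrank_eq).symm
      exact (LinearMap.injective_iff_surjective_of_finrank_eq_finrank h2).1 hinj
    rw [← LinearMap.ker_eq_bot, LinearMap.ker_eq_bot']
    intro m hm
    rw [← Module.forall_dual_apply_eq_zero_iff F m]
    intro f
    obtain ⟨t, ht⟩ := h1 f
    rw [← ht]
    have := LinearMap.congr_fun hm t
    simpa using this
  have hBfs : Function.Surjective B.flip := by
    have h2 : finrank F T = finrank F (T →ₗ[F] F) := (Subspace.dual_finrank_eq).symm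
    exact (LinearMap.injective_iff_surjective_of_finrank_eq_finrank h2).1 hBf
  -- coordinates
  let bK := bs.baseChange K
  apply bK.ext_elem
  intro i
  rw [map_zero, Finsupp.zero_apply]
  obtain ⟨d, hd⟩ := hBfs (bs.coord i)
  have h1 : ∀ z : K ⊗[F] T, LinearMap.BilinForm.baseChange K B z (1 ⊗ₜ d) = bK.repr z i := by
    intro z
    induction z using TensorProduct.induction_on with
    | zero => simp
    | tmul a t =>
      rw [LinearMap.BilinForm.baseChange_tmul]
      have h2 : B t d = bs.repr t i := by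
        have := LinearMap.congr_fun hd t
        simpa using this
      rw [h2, mul_one]
      simp [bK, Algebra.smul_def, mul_comm]
    | add a b ha hb => rw [map_add, LinearMap.add_apply, ha, hb, map_add, Finsupp.add_apply]
  rw [← h1]
  exact hx _

end EXb

open EXb in
/-- **EX** -/
theorem stmt_EX (hVL : Stmt_VL) (hNUM : Stmt_NUM) : Stmt_EX := by
  intro E T _ _ _ _ _ ρ B p u e φ H hp hu hu2 hpu hpe he _ hBnd _ hBH hφ hH nH hHφ hnt hfin
  classical
  have hpf : Fact p.Prime := ⟨hp⟩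
  have huf : Fact u.Prime := ⟨hu⟩
  have : FiniteDimensional (ZMod 2) T := Module.Finite.of_finite
  let K := AlgebraicClosure (ZMod 2)
  let R : Representation K E (K ⊗[ZMod 2] T) := bc K ρ
  have h2k : (2 : K) = 0 := by
    have h1 : (2 : ZMod 2) = 0 := rfl
    have h2 := congrArg (algebraMap (ZMod 2) K) h1
    rw [map_zero, map_ofNat] at h2
    exact h2
  have hpk : (p : K) = 1 := by
    rw [hpe]; push_cast; rw [h2k, zero_pow he.ne', zero_add]
  have huk : (u : K) ≠ 0 := by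
    obtain ⟨m, hm⟩ := hu.odd_of_ne_two hu2
    rw [hm, Nat.cast_add, Nat.cast_mul, Nat.cast_ofNat, Nat.cast_one, h2k, zero_mul, zero_add]
    exact one_ne_zero
  have hp2 : p ≠ 2 := by
    rintro rfl
    rw [Nat.cast_ofNat, h2k] at hpk
    exact zero_ne_one hpk
  -- minimal subgroup
  let A : Set (Subgroup E) := {X | X ≤ H ∧ Nz φ X ∧ ∃ c ∈ cm X φ, ∃ v, R c v ≠ v}
  have hA : A.Nonempty := by
    obtain ⟨c, hc, v, hv⟩ := bc_nontriv K hnt
    exact ⟨H, le_rfl, nH, c, hHφ hc, v, hv⟩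
  obtain ⟨Q, ⟨hQH, nQ, hQn⟩, hQmin⟩ := A.toFinite.exists_minimal hA
  have hQu : IsPGroup u Q := hH.to_le hQH
  have hQcard : ¬ p ∣ Nat.card Q := not_dvd_card_of_isPGroup hpu hQu
  have hQφ : Q ≤ cm Q φ := by
    apply hQmin
    · refine ⟨(cm_le nQ).trans hQH, cm_nz_self Q φ, ?_⟩
      rw [cm_cm (n := 1) (by rwa [pow_one]) hQcard nQ]
      exact hQn
    · exact cm_le nQ
  have hmin : ∀ X ≤ Q, Nz φ X → X ≠ Q → ∀ c ∈ cm X φ, ∀ v, R c v = v := by
    intro X hX nX hXQ c hc v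
    by_contra hne
    exact hXQ (le_antisymm hX (hQmin ⟨hX.trans hQH, nX, c, hc, v, hne⟩ hX))
  -- dimensions
  have hdimV : finrank K (K ⊗[ZMod 2] T) = finrank (ZMod 2) T := Module.finrank_baseChange
  have hdimC : finrank (ZMod 2) (End.eigenspace (ρ φ) 1) ≤
      finrank K (End.eigenspace (R φ) 1) := by
    let S := End.eigenspace (ρ φ) 1
    let j : K ⊗[ZMod 2] S →ₗ[K] K ⊗[ZMod 2] T := LinearMap.baseChange K S.subtype
    have hj : Function.Injective j :=
      Module.Flat.lTensor_preserves_injective_linearMap (M := K) S.subtype S.injective_subtype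
    have h1 : finrank K (LinearMap.range j) = finrank (ZMod 2) S := by
      rw [LinearMap.finrank_range_of_inj hj]; exact Module.finrank_baseChange
    have h2 : LinearMap.range j ≤ End.eigenspace (R φ) 1 := by
      rintro _ ⟨z, rfl⟩
      rw [End.mem_eigenspace_iff, one_smul]
      induction z using TensorProduct.induction_on with
      | zero => simp
      | tmul a t =>
        change R φ (a ⊗ₜ (t : T)) = a ⊗ₜ (t : T)
        have h3 := End.mem_eigenspace_iff.1 t.2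
        rw [one_smul] at h3
        change bc K ρ φ (a ⊗ₜ (t : T)) = a ⊗ₜ (t : T)
        rw [bc_tmul, h3]
      | add a b ha hb => rw [map_add, map_add, ha, hb]
    rw [← h1]
    exact Submodule.finrank_mono h2
  by_cases hab : ∀ x ∈ Q, ∀ y ∈ Q, ∀ v, R x (R y v) = R y (R x v)
  · have hbi : ∀ h ∈ Q, ∀ x y, LinearMap.BilinForm.baseChange K B (R h x) (R h y) =
        LinearMap.BilinForm.baseChange K B x y := by
      intro h hh x y
      induction x using TensorProduct.induction_on with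
      | zero => simp
      | tmul a t =>
        induction y using TensorProduct.induction_on with
        | zero => simp
        | tmul a' t' =>
          change LinearMap.BilinForm.baseChange K B (bc K ρ h (a ⊗ₜ t)) (bc K ρ h (a' ⊗ₜ t')) = _
          rw [bc_tmul, bc_tmul, LinearMap.BilinForm.baseChange_tmul,
            LinearMap.BilinForm.baseChange_tmul, hBH h (hQH hh)]
        | add a b ha hb => rw [map_add, map_add, map_add, ha, hb]
      | add a b ha hb =>
        rw [map_add, map_add, map_add, LinearMap.add_apply, LinearMap.add_apply, ha, hb]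
    have hnt' : ∃ c ∈ Q, ∃ v, R c v ≠ v := by
      obtain ⟨c, hc, v, hv⟩ := hQn
      exact ⟨c, cm_le nQ hc, v, hv⟩
    have h1 := caseA (ρ := R) (LinearMap.BilinForm.baseChange K B)
      (fun x hx => bform_nondeg K B hBnd x hx) hbi hp hu hp2 h2k huk hφ hQu nQ hQφ hab hnt'
    have h3 : e < 2 ^ e := Nat.lt_two_pow_self
    have h4 : p - 1 = 2 ^ e := by rw [hpe, Nat.add_sub_cancel]
    rw [h4] at h1
    omega
  · push Not at hab
    obtain ⟨x, hx, y, hy, v, hv⟩ := hab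
    have h1 := caseB (ρ := R) hVL hNUM hp hu hu2 hpu hpe he (by rw [hpk]; exact one_ne_zero) huk
      hφ hQu nQ hQφ hmin ⟨x, hx, y, hy, R y (R x v), fun h => hv (by
        rw [← h, ← Module.End.mul_apply, ← Module.End.mul_apply, ← map_mul, ← map_mul,
          ← Module.End.mul_apply, ← map_mul]
        congr 2
        rw [commutatorElement_def]; group)⟩
    omega

end Pool.FH
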