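import Pool.Agent.Work.MP_4c212b_al.Interface

/-!
# MP_4c212b_al : block EXC

An elementary proof: an involution `y` of `GL(T)`, `T` over `F_2`, with `dim [T, y] ≤ 2` that acts
on an `r`-group `R = [R, y] = [R, φ] ≠ 1`, `r ≥ 5`, `φ ^ 3 = 1`, cannot exist.
-/

set_option autoImplicit false

open Subgroup
open scoped commutatorElement

namespace Pool.FH.EXCaux

variable {T : Type} [AddCommGroup T] [Module (ZMod 2) T] [Finite T]

abbrev GLn (T : Type) [AddCommGroup T] [Module (ZMod 2) T] := (Module.End (ZMod 2) T)ˣ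

instance : Finite (Module.End (ZMod 2) T) :=
  Finite.of_injective (fun f => (f : T → T)) DFunLike.coe_injective

instance : Finite (GLn T) := inferInstanceAs (Finite (Module.End (ZMod 2) T)ˣ)

theorem card_GL (U : Submodule (ZMod 2) T) :
    Nat.card (GLn U) = ∏ i : Fin (Module.finrank (ZMod 2) U),
      (2 ^ (Module.finrank (ZMod 2) U) - 2 ^ (i : ℕ)) := by
  classical
  have : Fact (Nat.Prime 2) := ⟨Nat.prime_two⟩
  have b := Module.finBasis (ZMod 2) U
  have e := Units.mapEquiv (LinearMap.toMatrixAlgEquiv b).toMulEquiv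
  rw [Nat.card_congr e.toEquiv]
  have h := Matrix.card_GL_field (𝔽 := ZMod 2) (Module.finrank (ZMod 2) U)
  rw [ZMod.card] at h
  exact h

/-- The subgroup of elements with `[T, g] ≤ U` -/
def stab (U : Submodule (ZMod 2) T) : Subgroup (GLn T) where
  carrier := {g | ∀ t : T, (g : Module.End (ZMod 2) T) t - t ∈ U}
  mul_mem' := by
    intro a b ha hb t
    have h1 := ha ((b : Module.End (ZMod 2) T) t)
    have h2 := hb t
    have h3 := U.add_mem h1 h2
    simpa using h3
  one_mem' := by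
    intro t
    simp
  inv_mem' := by
    intro a ha t
    have h1 := ha (((a⁻¹ : GLn T) : Module.End (ZMod 2) T) t)
    have h2 : (a : Module.End (ZMod 2) T) (((a⁻¹ : GLn T) : Module.End (ZMod 2) T) t) = t := by
      rw [← Module.End.mul_apply, ← Units.val_mul, mul_inv_cancel, Units.val_one,
        Module.End.one_apply]
    rw [h2] at h1
    have h3 := U.neg_mem h1
    rwa [neg_sub] at h3

omit [Finite T] in
theorem two_smul_zero (t : T) : t + t = 0 := by
  have : (2 : ZMod 2) • t = 0 := by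
    have h : (2 : ZMod 2) = 0 := by decide
    rw [h, zero_smul]
  rwa [two_smul] at this

omit [Finite T] in
theorem card_dvd {r : ℕ} [Fact r.Prime] (h2 : r ≠ 2) {D : Subgroup (GLn T)} (hD : IsPGroup r D)
    {U : Submodule (ZMod 2) T} (h : D ≤ stab U) : Nat.card D ∣ Nat.card (GLn U) := by
  classical
  have hU : ∀ d : D, ∀ u ∈ U, ((d : GLn T) : Module.End (ZMod 2) T) u ∈ U := by
    intro d u hu
    have h1 := U.add_mem (h d.2 u) hu
    simpa using h1
  let F : D →* Module.End (ZMod 2) U :=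
    { toFun := fun d => ((d : GLn T) : Module.End (ZMod 2) T).restrict (hU d)
      map_one' := by
        ext u
        simp
      map_mul' := by
        intro a b
        ext u
        simp }
  refine card_dvd_of_injective F.toHomUnits ?_
  rw [injective_iff_map_eq_one]
  intro d hd
  have h1 : F d = 1 := by
    have := congrArg Units.val hd
    simpa using this
  have h3 : ∀ u ∈ U, ((d : GLn T) : Module.End (ZMod 2) T) u = u := by
    intro u hu
    have h4 := congrArg (fun f => ((f : Module.End (ZMod 2) U) ⟨u, hu⟩ : T)) h1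
    simpa [F] using h4
  -- `d ^ 2 = 1`
  have h5 : (d : GLn T) ^ 2 = 1 := by
    apply Units.ext
    rw [Units.val_pow_eq_pow_val, Units.val_one]
    ext t
    rw [pow_two, Module.End.mul_apply, Module.End.one_apply]
    have h6 := h3 _ (h d.2 t)
    rw [map_sub] at h6
    have h7 := two_smul_zero (((d : GLn T) : Module.End (ZMod 2) T) t)
    have h8 : ((d : GLn T) : Module.End (ZMod 2) T) (((d : GLn T) : Module.End (ZMod 2) T) t) =
      ((d : GLn T) : Module.End (ZMod 2) T) t + ((d : GLn T) : Module.End (ZMod 2) T) t - t := by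
      rw [sub_eq_iff_eq_add] at h6
      rw [h6]; abel
    rw [h8, h7]
    have h9 := two_smul_zero t
    rw [zero_sub]
    exact (eq_neg_of_add_eq_zero_left h9).symm
  obtain ⟨n, hn⟩ := hD d
  have h10 : d ^ 2 = 1 := Subtype.ext (by simpa using h5)
  have h11 : orderOf d ∣ 2 := orderOf_dvd_of_pow_eq_one h10
  have h12 : orderOf d ∣ r ^ n := orderOf_dvd_of_pow_eq_one hn
  have h13 : Nat.Coprime 2 (r ^ n) := by
    apply Nat.Coprime.pow_right
    exact ((Nat.coprime_primes Nat.prime_two Fact.out).2 (Ne.symm h2))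
  have h14 : orderOf d = 1 := Nat.dvd_one.1 (h13 ▸ Nat.dvd_gcd h11 h12)
  exact orderOf_eq_one_iff.1 h14

theorem prod4 (m : ℕ) (hm : m ≤ 4) : (∏ i : Fin m, (2 ^ m - 2 ^ (i : ℕ))) ∣ 20160 := by
  interval_cases m <;> decide

theorem prod6 (m : ℕ) (hm : m ≤ 6) : ¬ 25 ∣ (∏ i : Fin m, (2 ^ m - 2 ^ (i : ℕ))) := by
  interval_cases m <;> decide

omit [Finite T] in
/-- conjugates of `y` -/
theorem comm_mem_stab {y g : GLn T} :
    ⁅g, y⁆ ∈ stab (LinearMap.range ((y : Module.End (ZMod 2) T) - 1) ⊔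
      (LinearMap.range ((y : Module.End (ZMod 2) T) - 1)).map (g : Module.End (ZMod 2) T)) := by
  set L := LinearMap.range ((y : Module.End (ZMod 2) T) - 1)
  have h1 : y ∈ stab (L ⊔ L.map (g : Module.End (ZMod 2) T)) := by
    intro t
    exact (le_sup_left : L ≤ _) ⟨t, by simp⟩
  have h2 : g * y * g⁻¹ ∈ stab (L ⊔ L.map (g : Module.End (ZMod 2) T)) := by
    intro t
    refine (le_sup_right : L.map (g : Module.End (ZMod 2) T) ≤ _)
      ⟨(y : Module.End (ZMod 2) T) (((g⁻¹ : GLn T) : Module.End (ZMod 2) T) t) -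
        ((g⁻¹ : GLn T) : Module.End (ZMod 2) T) t, ⟨((g⁻¹ : GLn T) : Module.End (ZMod 2) T) t,
        by simp⟩, ?_⟩
    have h3 : (g : Module.End (ZMod 2) T) (((g⁻¹ : GLn T) : Module.End (ZMod 2) T) t) = t := by
      rw [← Module.End.mul_apply, ← Units.val_mul, mul_inv_cancel, Units.val_one,
        Module.End.one_apply]
    rw [map_sub, h3]
    simp
  rw [commutatorElement_def]
  exact mul_mem h2 (inv_mem h1)

omit [Finite T] in
theorem stab_mono {U U' : Submodule (ZMod 2) T} (h : U ≤ U') : stab U ≤ stab U' :=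
  fun _ hg t => h (hg t)

theorem prod2 (m : ℕ) (hm : m ≤ 2) : Nat.gcd 7 (∏ i : Fin m, (2 ^ m - 2 ^ (i : ℕ))) = 1 := by
  interval_cases m <;> decide

theorem fix_of_small {a : Module.End (ZMod 2) T} (ha : a ^ 7 = 1) {A : Submodule (ZMod 2) T}
    (hA : ∀ v ∈ A, a v ∈ A) (hf : Module.finrank (ZMod 2) A ≤ 2) : ∀ v ∈ A, a v = v := by
  let a' : Module.End (ZMod 2) A := a.restrict hA
  have h1 : ∀ (n : ℕ) (v : A), (((a' ^ n) v : A) : T) = (a ^ n) (v : T) := by
    intro n
    induction n with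
    | zero => intro v; simp
    | succ n ih =>
      intro v
      rw [pow_succ', pow_succ', Module.End.mul_apply, Module.End.mul_apply, ← ih]
      rfl
  have h2 : a' ^ 7 = 1 := by
    ext v
    rw [h1, ha]; simp
  let u : GLn A := ⟨a', a' ^ 6, by rw [← pow_succ', h2], by rw [← pow_succ, h2]⟩
  have h3 : u ^ 7 = 1 := by
    apply Units.ext
    rw [Units.val_pow_eq_pow_val, Units.val_one]
    exact h2
  have h4 : orderOf u ∣ 7 := orderOf_dvd_of_pow_eq_one h3
  have h5 : orderOf u ∣ Nat.card (GLn A) := orderOf_dvd_natCard u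
  rw [card_GL] at h5
  have h6 := Nat.dvd_gcd h4 h5
  rw [prod2 _ hf] at h6
  have h7 : u = 1 := orderOf_eq_one_iff.1 (Nat.dvd_one.1 h6)
  intro v hv
  have h8 : a' ⟨v, hv⟩ = ⟨v, hv⟩ := by
    have := congrArg Units.val h7
    change a' = 1 at this
    rw [this]; rfl
  exact congrArg Subtype.val h8

/-- exclusion of `r = 7` -/
theorem no7 {x y : GLn T} (hx : x ^ 7 = 1) (hinv : y⁻¹ * x * y = x⁻¹)
    {U : Submodule (ZMod 2) T} (hU : Module.finrank (ZMod 2) U ≤ 4) (h : x ∈ stab U) : x = 1 := by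
  classical
  set a : Module.End (ZMod 2) T := (x : Module.End (ZMod 2) T) with ha
  set Y : Module.End (ZMod 2) T := (y : Module.End (ZMod 2) T) with hY
  have ha7 : a ^ 7 = 1 := by
    rw [ha, ← Units.val_pow_eq_pow_val, hx, Units.val_one]
  have htwo : ∀ f : Module.End (ZMod 2) T, f + f = 0 := by
    intro f
    ext t
    simpa using two_smul_zero (f t)
  -- commutation
  have hc : a * Y = Y * a ^ 6 := by
    have h1 : x * y = y * x ^ 6 := by
      have h2 : x⁻¹ = x ^ 6 := by
        rw [inv_eq_iff_mul_eq_one, ← pow_succ', hx]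
      rw [← h2, ← hinv]; group
    have := congrArg Units.val h1
    simpa using this
  have hc2 : a ^ 2 * Y = Y * a ^ 5 := by
    calc a ^ 2 * Y = a * (a * Y) := by rw [pow_two, mul_assoc]
      _ = (a * Y) * a ^ 6 := by rw [hc, ← mul_assoc, hc]
      _ = Y * (a ^ 7 * a ^ 5) := by rw [hc, mul_assoc, ← pow_add, ← pow_add]
      _ = Y * a ^ 5 := by rw [ha7, one_mul]
  have hc3 : a ^ 3 * Y = Y * a ^ 4 := by
    calc a ^ 3 * Y = a ^ 2 * (a * Y) := by rw [pow_succ, mul_assoc]
      _ = (a ^ 2 * Y) * a ^ 6 := by rw [hc, mul_assoc]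
      _ = Y * (a ^ 7 * a ^ 4) := by rw [hc2]; rw [mul_assoc, ← pow_add, ← pow_add]
      _ = Y * a ^ 4 := by rw [ha7, one_mul]
  have e1 : (a ^ 3 + a ^ 2 + 1) * Y = Y * a ^ 4 * (a ^ 3 + a + 1) := by
    have : Y * a ^ 4 * (a ^ 3 + a + 1) = Y * (a ^ 7 + a ^ 5 + a ^ 4) := by noncomm_ring
    rw [this, add_mul, add_mul, hc3, hc2, ha7]
    noncomm_ring
  have e2 : (a ^ 3 + a + 1) * Y = Y * a ^ 4 * (a ^ 3 + a ^ 2 + 1) := by
    have : Y * a ^ 4 * (a ^ 3 + a ^ 2 + 1) = Y * (a ^ 7 + a ^ 6 + a ^ 4) := by noncomm_ring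
    rw [this, add_mul, add_mul, hc3, hc, ha7]
    noncomm_ring
  let A : Submodule (ZMod 2) T := LinearMap.ker (a ^ 3 + a + 1)
  let B : Submodule (ZMod 2) T := LinearMap.ker (a ^ 3 + a ^ 2 + 1)
  have hAd : A = LinearMap.ker (a ^ 3 + a + 1) := rfl
  have hBd : B = LinearMap.ker (a ^ 3 + a ^ 2 + 1) := rfl
  have hA : ∀ v, v ∈ A ↔ (a ^ 3) v + a v + v = 0 := fun v => by
    rw [hAd, LinearMap.mem_ker]; simp
  have hB : ∀ v, v ∈ B ↔ (a ^ 3) v + (a ^ 2) v + v = 0 := fun v => by
    rw [hBd, LinearMap.mem_ker]; simp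
  have hYinj : Function.Injective Y := by
    intro s t hst
    have h1 : ∀ s, ((y⁻¹ : GLn T) : Module.End (ZMod 2) T) (Y s) = s := by
      intro s
      rw [← Module.End.mul_apply, hY, ← Units.val_mul, inv_mul_cancel, Units.val_one,
        Module.End.one_apply]
    rw [← h1 s, ← h1 t, hst]
  have hAB : A.map Y ≤ B := by
    rintro _ ⟨v, hv, rfl⟩
    rw [hBd, LinearMap.mem_ker, ← Module.End.mul_apply, e1, Module.End.mul_apply]
    have : (a ^ 3 + a + 1 : Module.End (ZMod 2) T) v = 0 := hv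
    rw [this, map_zero]
  have hBA : B.map Y ≤ A := by
    rintro _ ⟨v, hv, rfl⟩
    rw [hAd, LinearMap.mem_ker, ← Module.End.mul_apply, e2, Module.End.mul_apply]
    have : (a ^ 3 + a ^ 2 + 1 : Module.End (ZMod 2) T) v = 0 := hv
    rw [this, map_zero]
  have hf1 : Module.finrank (ZMod 2) A ≤ Module.finrank (ZMod 2) B := by
    rw [(Submodule.equivMapOfInjective Y hYinj A).finrank_eq]
    exact Submodule.finrank_mono hAB
  have hf2 : Module.finrank (ZMod 2) B ≤ Module.finrank (ZMod 2) A := by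
    rw [(Submodule.equivMapOfInjective Y hYinj B).finrank_eq]
    exact Submodule.finrank_mono hBA
  -- no fixed vectors
  have hdisj : A ⊓ B = ⊥ := by
    rw [eq_bot_iff]
    rintro v ⟨h1, h2⟩
    have h1' := (hA v).1 h1
    have h2' := (hB v).1 h2
    have h3 : a v = (a ^ 2) v := by
      have : (a ^ 3) v + a v + v = (a ^ 3) v + (a ^ 2) v + v := by rw [h1', h2']
      simpa using this
    have h4 : (a ^ 6) (a v) = (a ^ 6) ((a ^ 2) v) := by rw [h3]
    rw [← Module.End.mul_apply, ← Module.End.mul_apply, ← pow_succ, ← pow_add, ha7,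
      show 6 + 2 = 7 + 1 from rfl, pow_add, ha7, one_mul, pow_one, Module.End.one_apply] at h4
    have h5 : (a ^ 3) v = v := by
      rw [pow_succ, pow_two, Module.End.mul_apply, Module.End.mul_apply, ← h4, ← h4, ← h4]
    rw [h5, ← h4, two_smul_zero, zero_add] at h1'
    exact h1'
  have hfix : ∀ v, a v - v ∈ U := fun v => h v
  have hpw : ∀ n : ℕ, ∀ v, (a ^ n) v - v ∈ U := by
    intro n
    induction n with
    | zero => intro v; simp
    | succ n ih =>
      intro v
      have h1 := U.add_mem (ih (a v)) (hfix v)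
      rw [pow_succ, Module.End.mul_apply]
      simpa using h1
  have hneg : ∀ v : T, -v = v := fun v => by
    have := two_smul_zero v
    exact (neg_eq_of_add_eq_zero_left this)
  have hAU : A ≤ U := by
    intro v hv
    have h1 := (hA v).1 hv
    have h2 := U.add_mem (hpw 3 v) (hfix v)
    have h3 : (a ^ 3) v - v + (a v - v) = v := by
      have h4 : (a ^ 3) v - v + (a v - v) = ((a ^ 3) v + a v + v) - (v + v) - v := by abel
      rw [h4, h1, two_smul_zero, sub_zero, zero_sub, hneg]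
    rwa [h3] at h2
  have hBU : B ≤ U := by
    intro v hv
    have h1 := (hB v).1 hv
    have h2 := U.add_mem (hpw 3 v) (hpw 2 v)
    have h3 : (a ^ 3) v - v + ((a ^ 2) v - v) = v := by
      have h4 : (a ^ 3) v - v + ((a ^ 2) v - v) = ((a ^ 3) v + (a ^ 2) v + v) - (v + v) - v := by
        abel
      rw [h4, h1, two_smul_zero, sub_zero, zero_sub, hneg]
    rwa [h3] at h2
  have hsum : Module.finrank (ZMod 2) A + Module.finrank (ZMod 2) B ≤ 4 := by
    have h1 := Submodule.finrank_sup_add_finrank_inf_eq A B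
    rw [hdisj, finrank_bot, add_zero] at h1
    rw [← h1]
    exact (Submodule.finrank_mono (sup_le hAU hBU)).trans hU
  have hAinv : ∀ v ∈ A, a v ∈ A := by
    intro v hv
    rw [hAd, LinearMap.mem_ker, ← Module.End.mul_apply,
      show (a ^ 3 + a + 1) * a = a * (a ^ 3 + a + 1) by noncomm_ring, Module.End.mul_apply]
    have : (a ^ 3 + a + 1 : Module.End (ZMod 2) T) v = 0 := hv
    rw [this, map_zero]
  have hBinv : ∀ v ∈ B, a v ∈ B := by
    intro v hv
    rw [hBd, LinearMap.mem_ker, ← Module.End.mul_apply,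
      show (a ^ 3 + a ^ 2 + 1) * a = a * (a ^ 3 + a ^ 2 + 1) by noncomm_ring, Module.End.mul_apply]
    have : (a ^ 3 + a ^ 2 + 1 : Module.End (ZMod 2) T) v = 0 := hv
    rw [this, map_zero]
  have hpf : ∀ v, a v = v → ∀ n : ℕ, (a ^ n) v = v := by
    intro v hv n
    induction n with
    | zero => simp
    | succ n ih => rw [pow_succ, Module.End.mul_apply, hv, ih]
  have hA0 : ∀ v ∈ A, v = 0 := by
    intro v hv
    have h1 := fix_of_small ha7 hAinv (by omega) v hv
    have h2 := (hA v).1 hv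
    rw [hpf v h1, h1, two_smul_zero, zero_add] at h2
    exact h2
  have hB0 : ∀ v ∈ B, v = 0 := by
    intro v hv
    have h1 := fix_of_small ha7 hBinv (by omega) v hv
    have h2 := (hB v).1 hv
    rw [hpf v h1, hpf v h1, two_smul_zero, zero_add] at h2
    exact h2
  -- `Σ a^i` is injective
  have hprod : (a ^ 3 + a + 1) * ((a ^ 3 + a ^ 2 + 1) * (a - 1)) = 0 := by
    have h1 : (a ^ 3 + a + 1) * ((a ^ 3 + a ^ 2 + 1) * (a - 1)) =
      (a ^ 7 - 1) + (a ^ 4 + a ^ 4) - (a ^ 3 + a ^ 3) := by noncomm_ring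
    rw [h1, ha7, htwo, htwo]; simp
  have hone : a = 1 := by
    ext v
    have h1 : (a ^ 3 + a + 1 : Module.End (ZMod 2) T)
        ((a ^ 3 + a ^ 2 + 1 : Module.End (ZMod 2) T) ((a - 1) v)) = 0 := by
      rw [← Module.End.mul_apply, ← Module.End.mul_apply, mul_assoc, hprod]; rfl
    have h2 := hA0 _ (show (a ^ 3 + a ^ 2 + 1 : Module.End (ZMod 2) T) ((a - 1) v) ∈ A from h1)
    have h3 := hB0 _ (show (a - 1) v ∈ B from h2)
    rw [LinearMap.sub_apply, Module.End.one_apply, sub_eq_zero] at h3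
    rw [h3, Module.End.one_apply]
  exact Units.ext hone

theorem finrank_sup_le (U U' : Submodule (ZMod 2) T) :
    Module.finrank (ZMod 2) ((U ⊔ U' : Submodule (ZMod 2) T)) ≤
      Module.finrank (ZMod 2) U + Module.finrank (ZMod 2) U' := by
  have h1 := Submodule.finrank_sup_add_finrank_inf_eq U U'
  omega

theorem core {r : ℕ} (hr : r.Prime) (h2 : r ≠ 2) (h3 : r ≠ 3) {φ y : GLn T} {R : Subgroup (GLn T)}
    (hφ : φ ^ 3 = 1) (hy : y ^ 2 = 1) (hR : IsPGroup r R) (nφ : Nz φ R) (ny : Nz y R)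
    (hRφ : R ≤ cm R φ) (hRy : R ≤ cm R y) (hne : R ≠ ⊥) :
    2 < Module.finrank (ZMod 2) (LinearMap.range ((y : Module.End (ZMod 2) T) - 1)) := by
  classical
  by_contra hcon
  push Not at hcon
  have hrf : Fact r.Prime := ⟨hr⟩
  set L := LinearMap.range ((y : Module.End (ZMod 2) T) - 1) with hL
  have hyi : y⁻¹ = y := by
    rw [inv_eq_iff_mul_eq_one, ← pow_two, hy]
  have hmem : ∀ g ∈ R, ⁅g, y⁆ ∈ R := by
    intro g hg
    have h1 : ⁅g, y⁆ = g * (y * g⁻¹ * y⁻¹) := by rw [commutatorElement_def]; group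
    rw [h1]
    exact R.mul_mem hg (ny _ (R.inv_mem hg))
  have hinv : ∀ g : GLn T, y⁻¹ * ⁅g, y⁆ * y = ⁅g, y⁆⁻¹ := by
    intro g
    rw [commutatorElement_def]
    have : y⁻¹ * (g * y * g⁻¹ * y⁻¹) * y = y⁻¹ * g * y * g⁻¹ := by group
    rw [this]
    simp only [mul_inv_rev, inv_inv]
    rw [hyi]
    group
  have hLg : ∀ g : GLn T, Module.finrank (ZMod 2) (L.map (g : Module.End (ZMod 2) T)) ≤ 2 :=
    fun g => (Submodule.finrank_map_le _ _).trans hcon
  have hU1 : ∀ g : GLn T, Module.finrank (ZMod 2)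
      ((L ⊔ L.map (g : Module.End (ZMod 2) T) : Submodule (ZMod 2) T)) ≤ 4 := by
    intro g
    have h1 := finrank_sup_le L (L.map (g : Module.End (ZMod 2) T))
    have h2 := hLg g
    omega
  have hsub : ∀ D : Subgroup (GLn T), D ≤ R → IsPGroup r D := fun D hD => hR.to_le hD
  have hex : ∃ g0 ∈ R, ⁅g0, y⁆ ≠ 1 := by
    by_contra hno
    push Not at hno
    apply hne
    rw [eq_bot_iff]
    refine hRy.trans (cm_le_of' ny ?_)
    intro x hx
    rw [hno x hx]
    exact one_mem _
  obtain ⟨g0, hg0, hx0⟩ := hex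
  -- the order of `⁅g, y⁆` divides `20160`
  have hord : ∀ g ∈ R, Nat.card (zpowers ⁅g, y⁆) ∣ 20160 := by
    intro g hg
    have h1 : zpowers ⁅g, y⁆ ≤ stab (L ⊔ L.map (g : Module.End (ZMod 2) T)) := by
      rw [zpowers_le]; exact comm_mem_stab
    have h3 := card_dvd h2 (hsub (zpowers ⁅g, y⁆) (by rw [zpowers_le]; exact hmem g hg)) h1
    rw [card_GL] at h3
    exact h3.trans (prod4 _ (hU1 g))
  have hpow : ∀ g ∈ R, ∃ a, Nat.card (zpowers ⁅g, y⁆) = r ^ a := by
    intro g hg
    exact (IsPGroup.iff_card).1 (hsub (zpowers ⁅g, y⁆) (by rw [zpowers_le]; exact hmem g hg))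
  have hr57 : r = 5 ∨ r = 7 := by
    obtain ⟨a, ha⟩ := hpow g0 hg0
    have ha0 : a ≠ 0 := by
      rintro rfl
      rw [pow_zero, Nat.card_zpowers] at ha
      exact hx0 (orderOf_eq_one_iff.1 ha)
    have h1 : r ∣ 20160 := ((dvd_pow_self r ha0).trans (ha ▸ dvd_refl _)).trans (hord g0 hg0)
    have h4 : r ∣ 2 ^ 6 * (3 ^ 2 * (5 * 7)) := by
      have : (20160 : ℕ) = 2 ^ 6 * (3 ^ 2 * (5 * 7)) := by norm_num
      rwa [this] at h1
    rcases (Nat.Prime.dvd_mul hr).1 h4 with h | h
    · exact absurd ((Nat.prime_dvd_prime_iff_eq hr Nat.prime_two).1 (hr.dvd_of_dvd_pow h)) h2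
    · rcases (Nat.Prime.dvd_mul hr).1 h with h | h
      · exact absurd ((Nat.prime_dvd_prime_iff_eq hr Nat.prime_three).1 (hr.dvd_of_dvd_pow h)) h3
      · rcases (Nat.Prime.dvd_mul hr).1 h with h | h
        · exact Or.inl ((Nat.prime_dvd_prime_iff_eq hr Nat.prime_five).1 h)
        · exact Or.inr ((Nat.prime_dvd_prime_iff_eq hr (by norm_num)).1 h)
  rcases hr57 with rfl | rfl
  · -- `r = 5`
    have hx5 : Nat.card (zpowers ⁅g0, y⁆) = 5 := by
      obtain ⟨a, ha⟩ := hpow g0 hg0
      have h1 := hord g0 hg0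
      rw [ha] at h1
      have ha0 : a ≠ 0 := by
        rintro rfl
        rw [pow_zero, Nat.card_zpowers] at ha
        exact hx0 (orderOf_eq_one_iff.1 ha)
      have ha1 : a < 2 := by
        by_contra hc
        push Not at hc
        have h4 : 5 ^ 2 ∣ 20160 := (pow_dvd_pow 5 hc).trans h1
        revert h4; decide
      have : a = 1 := by omega
      rw [ha, this, pow_one]
    have hall : ∀ g ∈ R, ⁅g, y⁆ ∈ zpowers ⁅g0, y⁆ := by
      intro g hg
      set D : Subgroup (GLn T) := closure {⁅g0, y⁆, ⁅g, y⁆} with hD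
      have hDR : D ≤ R := by
        rw [hD, closure_le]
        rintro x (rfl | rfl)
        · exact hmem g0 hg0
        · exact hmem g hg
      set U : Submodule (ZMod 2) T := (L ⊔ L.map (g0 : Module.End (ZMod 2) T)) ⊔
        L.map (g : Module.End (ZMod 2) T) with hU
      have hDs : D ≤ stab U := by
        rw [hD, closure_le]
        rintro x (rfl | rfl)
        · exact stab_mono le_sup_left comm_mem_stab
        · exact stab_mono (sup_le (le_sup_left.trans le_sup_left) le_sup_right) comm_mem_stab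
      have hUf : Module.finrank (ZMod 2) U ≤ 6 := by
        have h1 := finrank_sup_le (L ⊔ L.map (g0 : Module.End (ZMod 2) T))
          (L.map (g : Module.End (ZMod 2) T))
        have h3 := hU1 g0
        have h4 := hLg g
        rw [← hU] at h1
        exact h1.trans (by omega)
      have h1 := card_dvd h2 (hsub D hDR) hDs
      rw [card_GL] at h1
      obtain ⟨a, ha⟩ := (IsPGroup.iff_card).1 (hsub D hDR)
      have ha1 : a < 2 := by
        by_contra hc
        push Not at hc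
        apply prod6 _ hUf
        refine dvd_trans ?_ h1
        rw [ha]
        exact pow_dvd_pow 5 hc
      have h5 : zpowers ⁅g0, y⁆ ≤ D := by
        rw [zpowers_le]; exact subset_closure (by simp)
      have h6 : Nat.card D ≤ Nat.card (zpowers ⁅g0, y⁆) := by
        rw [hx5, ha]
        have : a = 0 ∨ a = 1 := by omega
        rcases this with rfl | rfl <;> norm_num
      have h7 : zpowers ⁅g0, y⁆ = D := Subgroup.eq_of_le_of_card_ge h5 h6
      rw [h7]
      exact subset_closure (by simp)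
    have hRC : R ≤ zpowers ⁅g0, y⁆ := hRy.trans (cm_le_of' ny hall)
    set x := ⁅g0, y⁆ with hx
    have hxR : x ∈ R := hmem g0 hg0
    have hxo : orderOf x = 5 := by rw [← Nat.card_zpowers]; exact hx5
    obtain ⟨j, hj⟩ := mem_zpowers_iff.1 (hRC (nφ x hxR))
    have hconj : ∀ n : ℤ, φ * x ^ n * φ⁻¹ = (x ^ n) ^ j := by
      intro n
      have h1 : φ * x ^ n * φ⁻¹ = (φ * x * φ⁻¹) ^ n := (conj_zpow).symm
      rw [h1, ← hj, ← zpow_mul, ← zpow_mul, mul_comm]
    have h33 : x = x ^ (j * j * j) := by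
      have h1 : φ * (φ * (φ * x ^ (1 : ℤ) * φ⁻¹) * φ⁻¹) * φ⁻¹ = x ^ (j * j * j) := by
        rw [hconj, ← zpow_mul, hconj, ← zpow_mul, hconj, ← zpow_mul]
        congr 1; ring
      rw [← h1, zpow_one]
      have h4 : φ * (φ * (φ * x * φ⁻¹) * φ⁻¹) * φ⁻¹ = φ ^ 3 * x * (φ ^ 3)⁻¹ := by
        rw [pow_succ, pow_two]; group
      rw [h4, hφ]; simp
    have h5 : (5 : ℤ) ∣ (j * j * j - 1) := by
      have h6 : x ^ (j * j * j - 1) = 1 := by
        rw [zpow_sub, zpow_one, ← h33, mul_inv_cancel]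
      have := orderOf_dvd_iff_zpow_eq_one.2 h6
      rwa [hxo] at this
    have h6 : (5 : ℤ) ∣ j - 1 := by
      have h7 : j % 5 = 0 ∨ j % 5 = 1 ∨ j % 5 = 2 ∨ j % 5 = 3 ∨ j % 5 = 4 := by omega
      have h8 : (j * j * j - 1) % 5 = 0 := Int.emod_eq_zero_of_dvd h5
      have h9 : (j * j * j) % 5 = ((j % 5) * (j % 5) * (j % 5)) % 5 := by
        simp [Int.mul_emod]
      rcases h7 with h | h | h | h | h <;> rw [h] at h9 <;> omega
    have h7 : φ * x * φ⁻¹ = x := by
      rw [← hj]
      have h8 : x ^ (j - 1) = 1 := orderOf_dvd_iff_zpow_eq_one.1 (by rw [hxo]; exact h6)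
      have h9 : x ^ j = x ^ (j - 1) * x := by rw [zpow_sub_one, inv_mul_cancel_right]
      rw [h9, h8, one_mul]
    apply hne
    rw [eq_bot_iff]
    refine hRφ.trans (cm_le_of' nφ ?_)
    intro w hw
    obtain ⟨n, rfl⟩ := mem_zpowers_iff.1 (hRC hw)
    have h8 : φ * x ^ n * φ⁻¹ = x ^ n := by
      have h1 : φ * x ^ n * φ⁻¹ = (φ * x * φ⁻¹) ^ n := (conj_zpow).symm
      rw [h1, h7]
    rw [mem_bot, commutatorElement_eq_one_iff_mul_comm]
    have := mul_inv_eq_iff_eq_mul.1 h8
    exact this.symm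
  · -- `r = 7`
    obtain ⟨a, ha⟩ := hpow g0 hg0
    have h1 := hord g0 hg0
    rw [ha] at h1
    have ha1 : a < 2 := by
      by_contra hc
      push Not at hc
      have h4 : 7 ^ 2 ∣ 20160 := (pow_dvd_pow 7 hc).trans h1
      revert h4; decide
    have h5 : Nat.card (zpowers ⁅g0, y⁆) ∣ 7 := by
      rw [ha]
      have : a = 0 ∨ a = 1 := by omega
      rcases this with rfl | rfl <;> norm_num
    rw [Nat.card_zpowers] at h5
    exact hx0 (no7 (orderOf_dvd_iff_pow_eq_one.1 h5) (hinv g0) (hU1 g0) comm_mem_stab)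

end Pool.FH.EXCaux

namespace Pool.FH

open EXCaux

theorem stmt_EXC : Stmt_EXC := by
  intro E T _ _ _ _ _ ρ r φ y Y H hyh hYt hHn hy2
  classical
  let f : E →* GLn T := (ρ : E →* Module.End (ZMod 2) T).toHomUnits
  have hf : ∀ g : E, ((f g : GLn T) : Module.End (ZMod 2) T) = ρ g := fun g => rfl
  have hYk : Y.map f = ⊥ := by
    rw [eq_bot_iff]
    rintro _ ⟨w, hw, rfl⟩
    rw [mem_bot]
    apply Units.ext
    rw [hf, Units.val_one]
    ext t
    exact hYt w hw t
  have hM : (Y ⊔ H).map f = H.map f := by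
    rw [Subgroup.map_sup, hYk, bot_sup_eq]
  have h1 := core (T := T) (r := r) hyh.hr (fun h => hyh.hvr h.symm) (fun h => hyh.hpr h.symm)
    (φ := f φ) (y := f y) (R := H.map f)
    (by rw [← map_pow, hyh.hφ, map_one])
    (by
      rw [← map_pow]
      apply Units.ext
      rw [hf, Units.val_one]
      ext t
      exact hy2 t)
    (hyh.hH.map f)
    (by
      rintro _ ⟨h, hh, rfl⟩
      exact ⟨φ * h * φ⁻¹, hyh.nφH h hh, by simp⟩)
    (by
      rw [← hM]
      rintro _ ⟨h, hh, rfl⟩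
      exact ⟨y * h * y⁻¹, hyh.nyM h hh, by simp⟩)
    (by
      have h2 := Subgroup.map_mono (f := f) hyh.hHφ
      rw [cm, Subgroup.map_commutator, MonoidHom.map_zpowers] at h2
      exact h2)
    (by
      have h2 := Subgroup.map_mono (f := f) hyh.hHy
      rw [Subgroup.map_sup, hYk, sup_bot_eq, cm, Subgroup.map_commutator, MonoidHom.map_zpowers,
        hM] at h2
      exact h2)
    (by
      obtain ⟨h, hh, x, hx⟩ := hHn
      intro h0
      have h2 : f h ∈ H.map f := ⟨h, hh, rfl⟩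
      rw [h0, mem_bot] at h2
      apply hx
      have h3 := congrArg (fun u : GLn T => (u : Module.End (ZMod 2) T) x) h2
      simpa [hf] using h3)
  exact h1

end Pool.FH
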