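import Pool.Agent.Work.MP_4c212b_al.Interface

/-!
# Block FAITH
-/

set_option autoImplicit false

open Subgroup
open scoped commutatorElement

namespace Pool.FH

/-- **FAITH** -/
theorem stmt_FAITH : Stmt_FAITH := by
  intro S t Y htp hYt hY1
  classical
  by_contra hcon
  push Not at hcon
  have ht : Fact t.Prime := ⟨htp⟩
  choose M hM using hcon
  -- the kernel
  let Ker : S.next.Γ → Prop := fun z => ∀ (s : ℕ) (hs : Fact s.Prime) (h1 : s ≠ t)
    (h2 : s ∣ Nat.card S.G) (v : (M s hs h1 h2).V), (M s hs h1 h2).ρ z v = v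
  have ker_one : Ker 1 := by intro s hs h1 h2 v; simp
  have ker_mul : ∀ a b, Ker a → Ker b → Ker (a * b) := by
    intro a b ha hb s hs h1 h2 v
    rw [map_mul, Module.End.mul_apply, hb, ha]
  have ker_inv : ∀ a, Ker a → Ker a⁻¹ := by
    intro a ha s hs h1 h2 v
    have h : (M s hs h1 h2).ρ a⁻¹ ((M s hs h1 h2).ρ a v) = v := by
      rw [← Module.End.mul_apply, ← map_mul, inv_mul_cancel, map_one, Module.End.one_apply]
    rwa [ha s hs h1 h2 v] at h
  have ker_conj : ∀ g a, Ker a → Ker (g * a * g⁻¹) := by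
    intro g a ha s hs h1 h2 v
    rw [map_mul, map_mul, Module.End.mul_apply, Module.End.mul_apply, ha,
      ← Module.End.mul_apply, ← map_mul, mul_inv_cancel, map_one, Module.End.one_apply]
  have ker_pow : ∀ a, Ker a → ∀ n : ℤ, Ker (a ^ n) := by
    intro a ha n s hs h1 h2 v
    have h3 : a ∈ (⟨⟨⟨{x | Ker x}, fun {a b} ha hb => ker_mul a b ha hb⟩, ker_one⟩,
      fun {a} ha => ker_inv a ha⟩ : Subgroup S.next.Γ) := ha
    exact (Subgroup.zpow_mem _ h3 n) s hs h1 h2 v
  have hOpn : ∀ g z : S.next.Γ, z ∈ Op t S.next.G → g * z * g⁻¹ ∈ Op t S.next.G := by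
    intro g z hz
    exact Op_nz t (Nz.of_normal g S.next.G) z hz
  -- the subgroup C
  let C : Subgroup S.Γ :=
    { carrier := {g | (S.pr g ∈ Op t S.next.G ∧ Ker (S.pr g)) ∧
        ∀ s : ℕ, s.Prime → s ≠ t → ∀ x ∈ Op s S.G, g * x = x * g}
      one_mem' := ⟨⟨by rw [map_one]; exact one_mem _, by rw [map_one]; exact ker_one⟩,
        fun s _ _ x _ => by simp⟩
      mul_mem' := by
        rintro a b ⟨⟨ha, ha'⟩, ha2⟩ ⟨⟨hb, hb'⟩, hb2⟩
        refine ⟨⟨by rw [map_mul]; exact mul_mem ha hb, by rw [map_mul]; exact ker_mul _ _ ha' hb'⟩,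
          fun s hs hst x hx => ?_⟩
        rw [mul_assoc, hb2 s hs hst x hx, ← mul_assoc, ha2 s hs hst x hx, mul_assoc]
      inv_mem' := by
        rintro a ⟨⟨ha, ha'⟩, ha2⟩
        refine ⟨⟨by rw [map_inv]; exact inv_mem ha, by rw [map_inv]; exact ker_inv _ ha'⟩,
          fun s hs hst x hx => ?_⟩
        have h : Commute a x := ha2 s hs hst x hx
        exact h.inv_left.eq }
  have mem_C : ∀ g, g ∈ C ↔ (S.pr g ∈ Op t S.next.G ∧ Ker (S.pr g)) ∧
        ∀ s : ℕ, s.Prime → s ≠ t → ∀ x ∈ Op s S.G, g * x = x * g := fun g => Iff.rfl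
  have hprG : ∀ g : S.Γ, S.pr g ∈ S.next.G → g ∈ S.G := by
    intro g hg
    rw [S.next_G] at hg
    obtain ⟨x, hx, hxg⟩ := hg
    have h1 : x⁻¹ * g ∈ S.pr.ker := by
      rw [MonoidHom.mem_ker, map_mul, map_inv, hxg, inv_mul_cancel]
    rw [S.ker_pr] at h1
    have h2 := S.G.mul_mem hx (Ft_le S.G h1)
    simpa using h2
  have hCG : C ≤ S.G := fun g hg => hprG g (Op_le t _ hg.1.1)
  -- `t`-elements of the preimage of `K0` are in `C`
  have htel : ∀ g : S.Γ, S.pr g ∈ Op t S.next.G → Ker (S.pr g) → (∃ n : ℕ, g ^ t ^ n = 1) →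
      g ∈ C := by
    rintro g hg hg' ⟨n, hn⟩
    refine ⟨⟨hg, hg'⟩, fun s hs hst x hx => ?_⟩
    have hsf : Fact s.Prime := ⟨hs⟩
    by_cases hdvd : s ∣ Nat.card S.G
    · apply (M s hsf hst hdvd).faith t htp (Ne.symm hst) (zpowers g) (isPGroup_zpowers hn) _ g
        (mem_zpowers g) x hx
      rintro _ ⟨k, rfl⟩ v
      have h1 := ker_pow _ hg' k s hsf hst hdvd v
      rwa [← map_zpow] at h1
    · -- `Op s G` is trivial
      have h1 : x = 1 := by
        by_contra hx1
        apply hdvd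
        obtain ⟨k, hk⟩ := (Op_isP s S.G) ⟨x, hx⟩
        have hk' : x ^ s ^ k = 1 := congrArg Subtype.val hk
        have h2 : orderOf x ∣ s ^ k := orderOf_dvd_of_pow_eq_one hk'
        obtain ⟨j, hj, hj'⟩ := (Nat.dvd_prime_pow hs).1 h2
        have hj0 : j ≠ 0 := by
          rintro rfl
          rw [pow_zero, orderOf_eq_one_iff] at hj'
          exact hx1 hj'
        have h3 : s ∣ orderOf x := by rw [hj']; exact dvd_pow_self s hj0
        have h4 : orderOf x ∣ Nat.card S.G := by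
          have h5 := orderOf_dvd_natCard (⟨x, Op_le s _ hx⟩ : S.G)
          rwa [Subgroup.orderOf_mk] at h5
        exact h3.trans h4
      rw [h1]; simp
  -- elements of order prime to `t` in `C`
  have htel' : ∀ s : ℕ, s.Prime → s ≠ t → ∀ g ∈ C, (∃ n : ℕ, g ^ s ^ n = 1) → g ∈ Op s S.G := by
    rintro s hs hst g hg ⟨n, hn⟩
    have hsf : Fact s.Prime := ⟨hs⟩
    have h1 : S.pr g = 1 := by
      have h2 : (S.pr g) ^ s ^ n = 1 := by rw [← map_pow, hn, map_one]
      exact eq_one_of_isPGroup (p := s) (t := t) hst (Op_isP t S.next.G)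
        (isPGroup_zpowers h2) (mem_zpowers _) hg.1.1
    have h2 : g ∈ Ft S.G := by rw [← S.ker_pr]; exact h1
    exact mem_Op_of_mem_Ft h2 hn
  have hCF : C ≤ Ft S.G := by
    apply le_Ft_of_comm hCG
    · intro h hh g hg
      refine ⟨⟨?_, ?_⟩, fun s hs hst x hx => ?_⟩
      · rw [map_mul, map_mul, map_inv]; exact hOpn _ _ hg.1.1
      · rw [map_mul, map_mul, map_inv]; exact ker_conj _ _ hg.1.2
      · have hsf : Fact s.Prime := ⟨hs⟩
        have h1 : h⁻¹ * x * h ∈ Op s S.G := by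
          simpa using Op_nz s (Nz.of_normal h⁻¹ S.G) x hx
        have h2 := hg.2 s hs hst _ h1
        have h3 : h * g * h⁻¹ * x = h * (g * (h⁻¹ * x * h)) * h⁻¹ := by group
        rw [h3, h2]; group
    · intro s s' hs hs' hss x hx y hy hxs hys
      by_cases h1 : s = t
      · subst h1
        exact hx.2 s' hs' (Ne.symm hss) y (htel' s' hs' (Ne.symm hss) y hy hys)
      · have h2 := htel' s hs h1 x hx hxs
        by_cases h3 : s' = t
        · exact (hy.2 s hs h1 x h2).symm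
        · have h4 := htel' s' hs' h3 y hy hys
          have : Fact s.Prime := ⟨hs⟩
          have : Fact s'.Prime := ⟨hs'⟩
          exact Op_comm hss h2 h4
  -- conclusion
  apply hY1
  rw [eq_bot_iff]
  intro y hy
  obtain ⟨g, hg⟩ := S.pr_surjective y
  obtain ⟨n, hn⟩ := (Op_isP t S.next.G) ⟨y, hYt hy⟩
  have hn' : y ^ t ^ n = 1 := congrArg Subtype.val hn
  obtain ⟨u, hu, b, hb⟩ := lift_pelt S.pr htp (x := g) (a := n) (by rw [hg]; exact hn')
  have h1 : g ^ u ∈ C := by
    apply htel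
    · rw [hu, hg]; exact hYt hy
    · rw [hu, hg]
      intro s hs h1 h2 v
      exact hM s hs h1 h2 y hy v
    · exact ⟨b, hb⟩
  have h2 := hCF h1
  rw [← S.ker_pr, MonoidHom.mem_ker, hu, hg] at h2
  rw [h2]; exact one_mem _

end Pool.FH
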