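import Pool.Agent.Work.MP_4c212b_al.Interface

/-!
# Block FIN: the final assembly
-/

set_option autoImplicit false

open Subgroup
open scoped commutatorElement TensorProduct

namespace Pool.FH

namespace FIN

theorem NS_equiv {X Y : Type} [Group X] [Group Y] (e : X ≃* Y) {k m : ℕ} (h : NS X k m) :
    NS Y k m := by
  obtain ⟨s, h0, h1, h2, h3, h4⟩ := h
  refine ⟨fun i => (s i).comap e.symm.toMonoidHom, ?_, ?_, ?_, ?_, ?_⟩
  · rw [eq_bot_iff]
    intro x hx
    change e.symm x ∈ s 0 at hx
    rw [h0, mem_bot] at hx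
    rw [mem_bot]
    simpa using hx
  · intro i
    exact (h1 i).comap _
  · intro i
    exact Subgroup.comap_mono (h2 i)
  · intro i hi a b ha hb hab x hx y hy ⟨n, hn⟩ ⟨n', hn'⟩
    change e.symm ⁅x, y⁆ ∈ s i
    rw [map_commutatorElement]
    exact h3 i hi a b ha hb hab _ hx _ hy ⟨n, by rw [← map_pow, hn, map_one]⟩
      ⟨n', by rw [← map_pow, hn', map_one]⟩
  · rw [index_comap_of_surjective _ e.symm.surjective]
    exact h4

theorem NS_mono {X : Type} [Group X] {k m m' : ℕ} (h : NS X k m) (hm : m ≤ m') : NS X k m' := by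
  obtain ⟨s, h0, h1, h2, h3, h4⟩ := h
  exact ⟨s, h0, h1, h2, h3, h4.trans hm⟩

theorem exists_prime_index {A : Type} [Group A] [Finite A] (hA : Group.IsSolvable A)
    (h : 1 < Nat.card A) : ∃ M : Subgroup A, M.Normal ∧ M.index.Prime := by
  have hnt : Nontrivial A := Finite.one_lt_card_iff_nontrivial.1 h
  have hlt : commutator A < ⊤ := Group.IsSolvable.commutator_lt_top_of_nontrivial A
  obtain ⟨M, hM, hDM⟩ := (eq_top_or_exists_le_coatom (commutator A)).resolve_left hlt.ne
  have hMn : M.Normal := by
    constructor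
    intro m hm g
    have h1 : ⁅g, m⁆ ∈ M := hDM (commutator_mem_commutator (mem_top g) (mem_top m))
    have h2 : g * m * g⁻¹ = ⁅g, m⁆ * m := by rw [commutatorElement_def]; group
    rw [h2]
    exact mul_mem h1 hm
  refine ⟨M, hMn, ?_⟩
  have hcomm : IsMulCommutative (A ⧸ M) := ⟨⟨by
    intro x y
    obtain ⟨x, rfl⟩ := QuotientGroup.mk'_surjective M x
    obtain ⟨y, rfl⟩ := QuotientGroup.mk'_surjective M y
    rw [← commutatorElement_eq_one_iff_mul_comm, ← map_commutatorElement]
    exact (QuotientGroup.eq_one_iff _).2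
      (hDM (commutator_mem_commutator (mem_top x) (mem_top y)))⟩⟩
  have hsimple : IsSimpleGroup (A ⧸ M) := by
    have hnt2 : Nontrivial (A ⧸ M) := by
      rw [← Finite.one_lt_card_iff_nontrivial]
      have h1 : Nat.card (A ⧸ M) = M.index := rfl
      rw [h1]
      exact one_lt_index_of_ne_top hM.1
    refine ⟨fun H _ => ?_⟩
    have h1 : M ≤ H.comap (QuotientGroup.mk' M) := by
      intro x hx
      change QuotientGroup.mk' M x ∈ H
      rw [(QuotientGroup.eq_one_iff x).2 hx |> (fun h => (h : QuotientGroup.mk' M x = 1))]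
      exact one_mem H
    have hsurj := QuotientGroup.mk'_surjective M
    rcases eq_or_lt_of_le h1 with h2 | h2
    · left
      rw [eq_bot_iff]
      intro x hx
      obtain ⟨x, rfl⟩ := hsurj x
      have : x ∈ M := by rw [h2]; exact hx
      rw [mem_bot]
      exact (QuotientGroup.eq_one_iff x).2 this
    · right
      have h3 := hM.2 _ h2
      rw [eq_top_iff]
      intro x _
      obtain ⟨x, rfl⟩ := hsurj x
      have : x ∈ H.comap (QuotientGroup.mk' M) := by rw [h3]; exact mem_top x
      exact this
  exact Group.is_simple_iff_prime_card.1 hsimple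

section Chain

variable {G : Type} [Group G]

theorem mem_fixAut {A : Set (MulAut G)} {g : G} : g ∈ fixAut A ↔ ∀ σ ∈ A, σ g = g := Iff.rfl

/-- restriction of `a` to a subgroup invariant under `a` and `a⁻¹` -/
def restr (a : MulAut G) (K : Subgroup G) (h1 : ∀ x ∈ K, a x ∈ K) (h2 : ∀ x ∈ K, a⁻¹ x ∈ K) :
    MulAut K where
  toFun x := ⟨a x, h1 x x.2⟩
  invFun x := ⟨a⁻¹ x, h2 x x.2⟩
  left_inv x := Subtype.ext (by
    change a⁻¹ (a x) = x
    simp)
  right_inv x := Subtype.ext (by
    change a (a⁻¹ x) = x
    simp)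
  map_mul' x y := Subtype.ext (by
    change a (x * y) = a x * a y
    simp)

theorem restr_apply (a : MulAut G) (K : Subgroup G) (h1 : ∀ x ∈ K, a x ∈ K)
    (h2 : ∀ x ∈ K, a⁻¹ x ∈ K) (x : K) : (restr a K h1 h2 x : G) = a x := rfl

theorem restr_pow_apply (a : MulAut G) (K : Subgroup G) (h1 : ∀ x ∈ K, a x ∈ K)
    (h2 : ∀ x ∈ K, a⁻¹ x ∈ K) (n : ℕ) (x : K) : (((restr a K h1 h2) ^ n) x : G) = (a ^ n) x := by
  induction n generalizing x with
  | zero => simp
  | succ n ih =>
    rw [pow_succ, pow_succ, MulAut.mul_apply, MulAut.mul_apply, ih, restr_apply]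

end Chain

theorem chain (hCH : Stmt_CH) : ∀ n m : ℕ, ∃ b : ℕ, ∀ (k : ℕ) (G : Type) [Group G] [Finite G]
    (A : Subgroup (MulAut G)), Group.IsSolvable G → Group.IsSolvable A → Nat.card A = n →
    Nat.Coprime n (Nat.card G) → NS (fixAut (A : Set (MulAut G))) k m →
    NS G (k + 4 * n.primeFactorsList.length) b := by
  intro n
  induction n using Nat.strong_induction_on with
  | _ n ih =>
  intro m
  rcases Nat.lt_or_ge 1 n with hn | hn
  · -- induction step
    choose b1 hb1 using hCH
    choose b2 hb2 using ih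
    let b : ℕ := ∑ p ∈ n.primeFactors.attach,
      b2 (n / p.1) (Nat.div_lt_self (by omega) (Nat.prime_of_mem_primeFactors p.2).one_lt)
        (b1 p.1 m (Nat.prime_of_mem_primeFactors p.2))
    refine ⟨b, ?_⟩
    intro k G _ _ A hG hA hAn hcop hNS
    obtain ⟨M, hM, hMp⟩ := exists_prime_index hA (by rw [hAn]; exact hn)
    set p := M.index with hp
    have hcard : Nat.card M * p = n := by rw [← hAn, hp]; exact Subgroup.card_mul_index M
    have hpn : p ∣ n := Dvd.intro_left _ hcard
    have hpmem : p ∈ n.primeFactors := Nat.mem_primeFactors.2 ⟨hMp, hpn, by omega⟩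
    have hcardM : Nat.card M = n / p := by
      rw [← hcard, Nat.mul_div_cancel _ hMp.pos]
    -- the subgroup `A1`
    let A1 : Subgroup (MulAut G) := M.map A.subtype
    have hA1A : A1 ≤ A := by
      rintro _ ⟨x, _, rfl⟩; exact x.2
    have hA1card : Nat.card A1 = n / p := by
      rw [← hcardM]
      exact (Nat.card_congr (M.equivMapOfInjective _ A.subtype_injective).toEquiv).symm
    have hA1conj : ∀ a ∈ A, ∀ σ ∈ A1, a * σ * a⁻¹ ∈ A1 := by
      rintro a ha _ ⟨σ, hσ, rfl⟩
      exact ⟨_, hM.conj_mem σ hσ ⟨a, ha⟩, rfl⟩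
    have hA1sol : Group.IsSolvable A1 := by
      have h1 : Group.IsSolvable M := inferInstance
      exact Group.isSolvable_of_surjective (f := (M.equivMapOfInjective _
        A.subtype_injective).toMonoidHom) (M.equivMapOfInjective _ A.subtype_injective).surjective
    set G1 : Subgroup G := fixAut (A1 : Set (MulAut G)) with hG1
    have hinv : ∀ a ∈ A, ∀ x ∈ G1, a x ∈ G1 := by
      intro a ha x hx σ hσ
      have h1 := hA1conj a⁻¹ (inv_mem ha) σ hσ
      rw [inv_inv] at h1
      have h2 := hx _ h1
      have h3 := congrArg a h2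
      simpa [MulAut.mul_apply] using h3
    -- an element outside `M`
    obtain ⟨⟨a, haA⟩, haM⟩ : ∃ a : A, a ∉ M := by
      by_contra hcon
      push Not at hcon
      have : M = ⊤ := eq_top_iff.2 fun x _ => hcon x
      rw [this, index_top] at hp
      exact hMp.one_lt.ne' hp
    let φ : MulAut G1 := restr a G1 (hinv a haA) (hinv a⁻¹ (inv_mem haA))
    have hφ : φ ^ p = 1 := by
      ext x
      rw [restr_pow_apply]
      change (a ^ p) (x : G) = x
      apply x.2
      have h1 : (⟨a, haA⟩ : A) ^ p ∈ M := by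
        rw [hp]
        have := hM
        exact M.pow_index_mem _
      exact ⟨_, h1, by simp⟩
    have hAgen : ∀ x : G, x ∈ G1 → a x = x → x ∈ fixAut (A : Set (MulAut G)) := by
      intro x hx hax σ hσ
      -- the stabiliser
      let K : Subgroup A :=
        { carrier := {τ | (τ : MulAut G) x = x}
          mul_mem' := by
            intro τ τ' h h'
            change ((τ : MulAut G) * τ') x = x
            rw [MulAut.mul_apply]
            rw [show (τ' : MulAut G) x = x from h', show (τ : MulAut G) x = x from h]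
          one_mem' := by
            change ((1 : A) : MulAut G) x = x
            simp
          inv_mem' := by
            intro τ h
            change ((τ⁻¹ : A) : MulAut G) x = x
            rw [Subgroup.coe_inv]
            have h1 : ((τ : MulAut G)⁻¹) ((τ : MulAut G) x) = x := by simp
            rw [show (τ : MulAut G) x = x from h] at h1
            exact h1 }
      have hMK : M ≤ K := by
        intro τ hτ
        exact hx _ ⟨τ, hτ, rfl⟩
      have haK : (⟨a, haA⟩ : A) ∈ K := hax
      have hKtop : K = ⊤ := by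
        have h1 : K.index ∣ p := index_dvd_of_le hMK
        rcases (Nat.dvd_prime hMp).1 h1 with h2 | h2
        · exact index_eq_one.1 h2
        · exfalso
          apply haM
          have h3 : M = K := by
            apply eq_of_le_of_card_ge hMK
            have e1 := Subgroup.card_mul_index M
            have e2 := Subgroup.card_mul_index K
            rw [h2, ← e1, ← hp] at e2
            exact (Nat.eq_of_mul_eq_mul_right hMp.pos e2).le
          rw [h3]; exact haK
      have : (⟨σ, hσ⟩ : A) ∈ K := by rw [hKtop]; exact mem_top _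
      exact this
    let e : fixAut (A : Set (MulAut G)) ≃* fixAut ({φ} : Set (MulAut G1)) :=
      { toFun := fun x => ⟨⟨x, fun σ hσ => x.2 σ (hA1A hσ)⟩, by
          intro σ hσ
          rw [Set.mem_singleton_iff.1 hσ]
          exact Subtype.ext (x.2 a haA)⟩
        invFun := fun y => ⟨(y : G1), hAgen _ (y : G1).2 (congrArg Subtype.val (y.2 φ rfl))⟩
        left_inv := fun x => rfl
        right_inv := fun y => rfl
        map_mul' := fun x y => rfl }
    have hsol1 : Group.IsSolvable G1 := inferInstance
    have hcard1 : Nat.card G1 ∣ Nat.card G := Subgroup.card_subgroup_dvd_card G1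
    have hpG : ¬ p ∣ Nat.card G1 := by
      intro h
      have h1 : p ∣ Nat.card G := h.trans hcard1
      have h2 := Nat.eq_one_of_dvd_coprimes hcop hpn h1
      exact hMp.one_lt.ne' h2
    have hstep := hb1 p m hMp k G1 φ hsol1 hpG hφ (NS_equiv e hNS)
    have hlt : n / p < n := Nat.div_lt_self (by omega) hMp.one_lt
    have hstep2 := hb2 (n / p) hlt (b1 p m hMp) (k + 4) G A1 hG hA1sol hA1card
      (hcop.coprime_dvd_left (Nat.div_dvd_of_dvd hpn)) hstep
    have hlen : n.primeFactorsList.length = (n / p).primeFactorsList.length + 1 := by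
      have h1 : n = p * (n / p) := (Nat.mul_div_cancel' hpn).symm
      have h2 : n / p ≠ 0 := by
        intro h0; rw [h0, mul_zero] at h1; omega
      conv_lhs => rw [h1]
      rw [(Nat.perm_primeFactorsList_mul hMp.ne_zero h2).length_eq, List.length_append,
        Nat.primeFactorsList_prime hMp, List.length_singleton, add_comm]
    have hle : b2 (n / p) hlt (b1 p m hMp) ≤ b := by
      have := Finset.single_le_sum (f := fun p : {x // x ∈ n.primeFactors} =>
        b2 (n / p.1) (Nat.div_lt_self (by omega) (Nat.prime_of_mem_primeFactors p.2).one_lt)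
        (b1 p.1 m (Nat.prime_of_mem_primeFactors p.2))) (fun _ _ => Nat.zero_le _)
        (Finset.mem_attach n.primeFactors ⟨p, hpmem⟩)
      exact this
    have e1 : k + 4 * n.primeFactorsList.length = k + 4 + 4 * (n / p).primeFactorsList.length := by
      rw [hlen]; ring
    rw [e1]
    exact NS_mono hstep2 hle
  · refine ⟨m, ?_⟩
    intro k G _ _ A _ _ hAn _ hNS
    have hpos : 0 < Nat.card A := Nat.card_pos
    have hn1 : n = 1 := by omega
    subst hn1
    have hAbot : A = ⊥ := Subgroup.card_eq_one.1 hAn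
    have htop : fixAut (A : Set (MulAut G)) = ⊤ := by
      rw [eq_top_iff]
      intro x _ σ hσ
      rw [hAbot] at hσ
      rw [show σ = 1 from hσ]
      rfl
    rw [htop] at hNS
    have h1 : k + 4 * (1 : ℕ).primeFactorsList.length = k := by simp
    rw [h1]
    exact NS_equiv Subgroup.topEquiv hNS

/-- A finite group whose elements of coprime prime power orders commute is nilpotent. -/
theorem nilpotent_of_comm {X : Type} [Group X] [Finite X]
    (h : ∀ a b : ℕ, a.Prime → b.Prime → a ≠ b → ∀ x y : X, (∃ n : ℕ, x ^ a ^ n = 1) →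
      (∃ n : ℕ, y ^ b ^ n = 1) → x * y = y * x) : Group.IsNilpotent X := by
  apply (Group.isNilpotent_of_finite_tfae.out 0 3).2
  intro p hp P
  rw [← normalizer_eq_top_iff, ← index_eq_one]
  by_contra hne
  obtain ⟨q, hq, hqd⟩ := Nat.exists_prime_and_dvd hne
  have : Fact q.Prime := ⟨hq⟩
  by_cases hqp : q = p
  · subst hqp
    have h1 : (normalizer ((P : Subgroup X) : Set X)).index ∣ (P : Subgroup X).index :=
      index_dvd_of_le le_normalizer
    exact P.not_dvd_index (hqd.trans h1)
  · let Q : Sylow q X := default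
    have hle : (Q : Subgroup X) ≤ normalizer ((P : Subgroup X) : Set X) := by
      intro x hx
      obtain ⟨n, hn⟩ := Q.isPGroup' ⟨x, hx⟩
      have hxn : x ^ q ^ n = 1 := congrArg Subtype.val hn
      have hc : ∀ y ∈ (P : Subgroup X), x * y = y * x := by
        intro y hy
        obtain ⟨n', hn'⟩ := P.isPGroup' ⟨y, hy⟩
        exact h q p hq hp.out hqp x y ⟨n, hxn⟩ ⟨n', congrArg Subtype.val hn'⟩
      rw [mem_normalizer_iff]
      intro y
      constructor
      · intro hy
        rw [hc y hy, mul_inv_cancel_right]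
        exact hy
      · intro hy
        have h1 := hc _ hy
        have h2 : x * (x * y * x⁻¹) * x⁻¹ = x * y * x⁻¹ := by rw [h1, mul_inv_cancel_right]
        have h3 : x * y * x⁻¹ = y := by
          have h4 := congrArg (fun w => x⁻¹ * w * x) h2
          have h5 : x⁻¹ * (x * (x * y * x⁻¹) * x⁻¹) * x = x * y * x⁻¹ := by group
          have h6 : x⁻¹ * (x * y * x⁻¹) * x = y := by group
          rw [h5, h6] at h4
          exact h4
        rw [h3] at hy
        exact hy
    have h1 : (normalizer ((P : Subgroup X) : Set X)).index ∣ (Q : Subgroup X).index :=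
      index_dvd_of_le hle
    exact Q.not_dvd_index (hqd.trans h1)

end FIN

/-- Block FIN. -/
theorem stmt_FIN (hS1 : Stmt_S1) (hCH : Stmt_CH) : Stmt_FIN := by
  classical
  choose μ hμ using hS1
  choose b hb using FIN.chain hCH
  refine ⟨4, 2, fun n r => b n (μ r), ?_⟩
  intro G _ hfin hG A hA hcop l r hl hr
  set C := fixAut (A : Set (MulAut G)) with hC
  have hrC : ∀ K : Subgroup C, ∃ S : Finset C, S.card ≤ r ∧ closure (S : Set C) = K := by
    intro K
    obtain ⟨S, hS, hSK⟩ := hr (K.map C.subtype) (by
      rintro _ ⟨x, _, rfl⟩ σ hσ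
      exact x.2 σ hσ)
    have hSC : ∀ x ∈ S, x ∈ C := by
      intro x hx
      have h1 : x ∈ closure (S : Set G) := subset_closure hx
      rw [hSK] at h1
      obtain ⟨y, _, rfl⟩ := h1
      exact y.2
    refine ⟨S.attach.image (fun x => ⟨x.1, hSC x.1 x.2⟩), ?_, ?_⟩
    · exact Finset.card_image_le.trans (by rw [Finset.card_attach]; exact hS)
    · apply Subgroup.map_injective C.subtype_injective
      rw [MonoidHom.map_closure, ← hSK]
      congr 1
      ext x
      constructor
      · rintro ⟨y, hy, rfl⟩
        obtain ⟨z, _, rfl⟩ := Finset.mem_image.1 (Finset.mem_coe.1 hy)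
        exact z.2
      · intro hx
        exact ⟨⟨x, hSC x hx⟩, Finset.mem_coe.2 (Finset.mem_image.2
          ⟨⟨x, hx⟩, Finset.mem_attach _ _, rfl⟩), rfl⟩
  have hG' : Group.IsSolvable G := hG
  have hCsol : Group.IsSolvable C := inferInstance
  have h1 := hμ r C hCsol hrC
  obtain ⟨s, hs0, hsn, hsm, hsc, hsi⟩ := hb (Nat.card A) (μ r) 2 G A hG hA rfl hcop h1
  have hlen : 2 + 4 * (Nat.card A).primeFactorsList.length = 4 * l + 2 := by rw [hl]; ring
  rw [hlen] at hsc hsi
  refine ⟨s (4 * l + 2), hsn _, ⟨s, hs0, rfl, ?_⟩, ?_⟩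
  · intro i hi
    refine ⟨hsn i, hsm i, ?_⟩
    have hn := hsn i
    -- the quotient is nilpotent
    have hnil : Group.IsNilpotent ((s (i + 1)).map (QuotientGroup.mk' (s i))) := by
      apply FIN.nilpotent_of_comm
      rintro a b ha hb hab ⟨_, x, hx, rfl⟩ ⟨_, y, hy, rfl⟩ ⟨n, hn1⟩ ⟨n', hn2⟩
      have : Fact a.Prime := ⟨ha⟩
      have : Fact b.Prime := ⟨hb⟩
      have hx1 : (QuotientGroup.mk' (s i) x) ^ a ^ n = 1 := congrArg Subtype.val hn1
      have hy1 : (QuotientGroup.mk' (s i) y) ^ b ^ n' = 1 := congrArg Subtype.val hn2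
      obtain ⟨u, hu, hu'⟩ := lift_pelt _ ha hx1
      obtain ⟨v, hv, hv'⟩ := lift_pelt _ hb hy1
      have h2 := hsc i hi a b ha hb hab _ (pow_mem hx u) _ (pow_mem hy v) hu' hv'
      apply Subtype.ext
      change QuotientGroup.mk' (s i) x * QuotientGroup.mk' (s i) y =
        QuotientGroup.mk' (s i) y * QuotientGroup.mk' (s i) x
      rw [← commutatorElement_eq_one_iff_mul_comm, ← hu, ← hv, ← map_commutatorElement]
      exact (QuotientGroup.eq_one_iff _).2 h2
    obtain ⟨m, hm⟩ := (isNilpotent_iff_lowerCentralSeries _).1 hnil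
    refine ⟨m, ?_⟩
    intro t ht0 ht
    have htj : ∀ j, t j = (s (i + 1)).lowerCentralSeries j := by
      intro j
      induction j with
      | zero => exact ht0
      | succ j ihj => rw [ht, ihj, Subgroup.lowerCentralSeries_succ]
    rw [htj]
    rw [← map_lowerCentralSeries, Subgroup.map_eq_bot_iff, QuotientGroup.ker_mk'] at hm
    exact hm
  · intro H hNH
    set N := s (4 * l + 2) with hN
    have hidx : N.relIndex H ≤ b (Nat.card A) (μ r) := by
      have : N.relIndex H ≤ N.index := Nat.le_of_dvd (Nat.pos_of_ne_zero index_ne_zero_of_finite)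
        (relIndex_dvd_index_of_normal N H)
      exact this.trans hsi
    have : Fintype (H ⧸ N.subgroupOf H) := Fintype.ofFinite _
    refine ⟨Finset.univ.image (fun c : H ⧸ N.subgroupOf H => ((Quotient.out c : H) : G)), ?_, ?_⟩
    · refine Finset.card_image_le.trans ?_
      rw [Finset.card_univ, ← Nat.card_eq_fintype_card]
      exact hidx
    · apply le_antisymm
      · apply sup_le _ hNH
        rw [closure_le]
        intro x hx
        simp only [Finset.coe_image, Finset.coe_univ, Set.image_univ, Set.mem_range] at hx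
        obtain ⟨c, rfl⟩ := hx
        exact (Quotient.out c : H).2
      · intro x hx
        let c : H ⧸ N.subgroupOf H := QuotientGroup.mk ⟨x, hx⟩
        have h2 : (QuotientGroup.mk (Quotient.out c : H) : H ⧸ N.subgroupOf H) =
            QuotientGroup.mk ⟨x, hx⟩ := Quotient.out_eq c
        rw [QuotientGroup.eq, mem_subgroupOf] at h2
        have h3 : x = ((Quotient.out c : H) : G) * (((Quotient.out c : H) : G)⁻¹ * x) := by group
        rw [h3]
        refine mul_mem (mem_sup_left (subset_closure ?_)) (mem_sup_right h2)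
        simp only [Finset.coe_image, Finset.coe_univ, Set.image_univ, Set.mem_range]
        exact ⟨c, rfl⟩

end Pool.FH
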