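import Pool.Agent.Work.MP_4c212b_al.Interface

/-!
# Block FINDR
-/

set_option autoImplicit false

open Subgroup
open scoped commutatorElement

namespace Pool.FH

theorem stmt_FINDR : Stmt_FINDR := by
  intro S q y hq hyG hyq hyF
  classical
  have hqf : Fact q.Prime := ⟨hq⟩
  by_contra hcon
  push Not at hcon
  obtain ⟨h1, h2⟩ := hcon
  -- the normal subgroup `N`
  let N : Subgroup S.Γ :=
    { carrier := {g | g ∈ S.G ∧ ∀ r : ℕ, r.Prime → r ≠ q → ∀ x ∈ Op r S.G, g * x = x * g}
      mul_mem' := by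
        rintro a b ⟨ha, ha2⟩ ⟨hb, hb2⟩
        refine ⟨S.G.mul_mem ha hb, fun r hr hrq x hx => ?_⟩
        rw [mul_assoc, hb2 r hr hrq x hx, ← mul_assoc, ha2 r hr hrq x hx, mul_assoc]
      one_mem' := ⟨S.G.one_mem, fun r hr hrq x hx => by simp⟩
      inv_mem' := by
        rintro a ⟨ha, ha2⟩
        refine ⟨S.G.inv_mem ha, fun r hr hrq x hx => ?_⟩
        have h := ha2 r hr hrq x hx
        rw [inv_mul_eq_iff_eq_mul, ← mul_assoc, h, mul_assoc, mul_inv_cancel, mul_one] }
  have hNG : N ≤ S.G := fun g hg => hg.1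
  have hyN : y ∈ N := ⟨hyG, fun r hr hrq x hx => h1 r hr hrq x hx⟩
  have hNn : ∀ g : S.Γ, Nz g N := by
    rintro g x ⟨hx, hx2⟩
    refine ⟨Nz.of_normal g S.G x hx, fun r hr hrq w hw => ?_⟩
    have : Fact r.Prime := ⟨hr⟩
    have h3 : g⁻¹ * w * g⁻¹⁻¹ ∈ Op r S.G := Op_nz r (Nz.of_normal g⁻¹ S.G) w hw
    have h4 := hx2 r hr hrq _ h3
    calc g * x * g⁻¹ * w = g * (x * (g⁻¹ * w * g⁻¹⁻¹)) * g⁻¹ := by group
      _ = g * (g⁻¹ * w * g⁻¹⁻¹ * x) * g⁻¹ := by rw [h4]
      _ = w * (g * x * g⁻¹) := by group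
  set M : Subgroup S.next.Γ := N.map S.pr with hM
  have hMG : M ≤ S.next.G := by
    rintro _ ⟨x, hx, rfl⟩
    exact ⟨x, hNG hx, rfl⟩
  have hMn : ∀ g : S.Γ, Nz (S.pr g) M := by
    rintro g _ ⟨x, hx, rfl⟩
    exact ⟨g * x * g⁻¹, hNn g x hx, by simp⟩
  have hMn' : NzS S.next.G M := by
    rintro _ ⟨g, hg, rfl⟩
    exact hMn g
  -- `O_q(M) = 1`
  have hOq : ∀ k ∈ Op q M, k = 1 := by
    intro k hk
    have hqM := Op_le q M hk
    obtain ⟨g, hg, rfl⟩ := hqM
    let K : Subgroup S.Γ := N ⊓ (Op q M).comap S.pr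
    have hK : K ≤ Ft S.G := by
      have hsol := S.sol
      apply le_Ft_of_comm (show K ≤ S.G from inf_le_left.trans hNG)
      · rintro c hc x ⟨hx, hx2⟩
        refine ⟨hNn c x hx, ?_⟩
        change S.pr x ∈ Op q M at hx2
        change S.pr (c * x * c⁻¹) ∈ Op q M
        have := Op_nz q (hMn c) _ hx2
        simpa using this
      · -- elements of coprime prime power orders commute
        have key : ∀ s : ℕ, s.Prime → s ≠ q → ∀ x ∈ K, (∃ a : ℕ, x ^ s ^ a = 1) →
            x ∈ Op s S.G := by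
          rintro s hs hsq x ⟨hx, hx2⟩ ⟨a, ha⟩
          have hsf : Fact s.Prime := ⟨hs⟩
          change S.pr x ∈ Op q M at hx2
          have h5 : S.pr x = 1 := by
            have hP : IsPGroup s (zpowers (S.pr x)) :=
              isPGroup_zpowers (n := a) (by rw [← map_pow, ha, map_one])
            exact eq_one_of_isPGroup hsq (Op_isP q M) hP (mem_zpowers _) hx2
          have h6 : x ∈ Ft S.G := by
            rw [← S.ker_pr]; exact h5
          exact mem_Op_of_mem_Ft h6 ha
        intro s t hs ht hst x hx z hz hxs hzt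
        by_cases hsq : s = q
        · have htq : t ≠ q := fun h => hst (hsq.trans h.symm)
          exact hx.1.2 t ht htq z (key t ht htq z hz hzt)
        · exact (hz.1.2 s hs hsq x (key s hs hsq x hx hxs)).symm
    have h7 : g ∈ K := ⟨hg, hk⟩
    have h8 := hK h7
    rw [← S.ker_pr] at h8
    exact h8
  -- `pr y` centralises the Fitting subgroup of `M`
  have hcent : ∀ z ∈ Ft M, S.pr y * z = z * S.pr y := by
    have hle : Ft M ≤ centralizer {S.pr y} := by
      apply iSup₂_le
      intro r hr x hx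
      have hrf : Fact r.Prime := ⟨hr⟩
      rw [mem_centralizer_iff]
      intro w hw
      rw [Set.mem_singleton_iff] at hw
      subst hw
      by_cases hrq : r = q
      · subst hrq
        rw [hOq x hx]; simp
      · exact h2 r hr hrq x (Op_le_Op hMG hMn' hx)
    intro z hz
    have := hle hz
    rw [mem_centralizer_iff] at this
    exact this _ (Set.mem_singleton _)
  have hsolM : Group.IsSolvable M := by
    have := S.next.sol
    exact Group.isSolvable_of_isSolvable_injective (f := Subgroup.inclusion hMG)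
      (Subgroup.inclusion_injective hMG)
  have h9 : S.pr y ∈ Ft M := cent_Ft hsolM ⟨y, hyN, rfl⟩ hcent
  obtain ⟨n, hn⟩ := hyq
  have h10 : S.pr y ∈ Op q M := mem_Op_of_mem_Ft (n := n) h9 (by rw [← map_pow, hn, map_one])
  have h11 := hOq _ h10
  apply hyF
  rw [← S.ker_pr]
  exact h11

end Pool.FH
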