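import Pool.Agent.Work.MP_4c212b_al.LIFT

/-!
# Block GETM (helper3): lifting a stable `r`-group to the previous level
-/

set_option autoImplicit false

open Subgroup
open scoped commutatorElement TensorProduct

namespace Pool.FH

namespace GetAux

theorem map_cm {E F : Type} [Group E] [Group F] (f : E →* F) (Q : Subgroup E) (φ : E) :
    (cm Q φ).map f = cm (Q.map f) (f φ) := by
  rw [cm, map_commutator, MonoidHom.map_zpowers]; rfl

theorem map_nz {E F : Type} [Group E] [Group F] (f : E →* F) {g : E} {H : Subgroup E}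
    (h : Nz g H) : Nz (f g) (H.map f) := by
  rintro _ ⟨x, hx, rfl⟩
  exact ⟨g * x * g⁻¹, h x hx, by simp⟩

theorem comap_nz {E F : Type} [Group E] [Group F] (f : E →* F) {g : E} {H : Subgroup F}
    (h : Nz (f g) H) : Nz g (H.comap f) := by
  intro x hx
  rw [mem_comap] at hx ⊢
  simpa using h _ hx

theorem getK {E F : Type} [Group E] [Finite E] [Group F] [Finite F] (f : E →* F) {p q r : ℕ}
    [Fact p.Prime] [Fact q.Prime] [Fact r.Prime] (hqr : q ≠ r) (L N : Subgroup E) [L.Normal]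
    (hLf : L ≤ f.ker) (hLN : L ≤ N) {φ y : E} (hφ : φ ^ p = 1) {n : ℕ}
    (hy : y ^ q ^ n = 1) (hc : φ * y = y * φ) (hN : ¬ p ∣ Nat.card N) (hNφ : Nz φ N)
    (hNy : Nz y N) (R : Subgroup F) (hNR : N.map f = R) (hR : IsPGroup r R)
    (hRφ : cm R (f φ) = R) (hRy : cm R (f y) = R)
    (hqL : ∀ x ∈ f.ker, ∀ a : ℕ, x ^ q ^ a = 1 → x ∈ L) :
    ∃ K : Subgroup E, L ≤ K ∧ K ≤ N ∧ Nz φ K ∧ Nz y K ∧ K.map f = R ∧ K ≤ cm K φ ⊔ L ∧
      K ≤ cm K y ⊔ L ∧ IsPGroup r (K.map (QuotientGroup.mk' L)) := by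
  set A : Set (Subgroup E) := {K | L ≤ K ∧ K ≤ N ∧ Nz φ K ∧ Nz y K ∧ K.map f = R} with hA
  have hne : A.Nonempty := ⟨N, hLN, le_rfl, hNφ, hNy, hNR⟩
  obtain ⟨K, hK⟩ := A.toFinite.exists_minimal hne
  obtain ⟨hLK, hKN, hKφ, hKy, hKR⟩ := hK.1
  have hmin : ∀ K' : Subgroup E, K' ∈ A → K' ≤ K → K ≤ K' := fun K' h1 h2 => hK.2 h1 h2
  set m := QuotientGroup.mk' L with hm
  have hker : m.ker = L := QuotientGroup.ker_mk' L
  have hmap0 : L.map f = ⊥ := by
    rw [eq_bot_iff]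
    rintro _ ⟨x, hx, rfl⟩
    exact hLf hx
  let g : E ⧸ L →* F := QuotientGroup.lift L f hLf
  have hgm : g.comp m = f := by
    ext x; rfl
  refine ⟨K, hLK, hKN, hKφ, hKy, hKR, ?_, ?_, ?_⟩
  · apply hmin
    · refine ⟨le_sup_right, sup_le ((cm_le hKφ).trans hKN) hLN, ?_, ?_, ?_⟩
      · exact (cm_nz_self K φ).sup (Nz.of_normal φ L)
      · exact (cm_nz hKy hc.symm).sup (Nz.of_normal y L)
      · rw [Subgroup.map_sup, map_cm, hKR, hmap0, sup_bot_eq, hRφ]
    · exact sup_le (cm_le hKφ) hLK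
  · apply hmin
    · refine ⟨le_sup_right, sup_le ((cm_le hKy).trans hKN) hLN, ?_, ?_, ?_⟩
      · exact (cm_nz hKφ hc).sup (Nz.of_normal φ L)
      · exact (cm_nz_self K y).sup (Nz.of_normal y L)
      · rw [Subgroup.map_sup, map_cm, hKR, hmap0, sup_bot_eq, hRy]
    · exact sup_le (cm_le hKy) hLK
  · have hq : ¬ q ∣ Nat.card (K.map m) := by
      intro h
      obtain ⟨⟨x, hx⟩, hxo⟩ := exists_prime_orderOf_dvd_card' q h
      obtain ⟨x, hx1, rfl⟩ := hx
      have hxq : (m x) ^ q ^ 1 = 1 := by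
        rw [pow_one]
        have := pow_orderOf_eq_one (⟨m x, mem_map_of_mem m hx1⟩ : ↥(K.map m))
        have h2 : orderOf (⟨m x, mem_map_of_mem m hx1⟩ : ↥(K.map m)) = q := hxo
        rw [h2] at this
        exact congrArg Subtype.val this
      obtain ⟨u, hu, b, hb⟩ := lift_pelt m (Fact.out : q.Prime) hxq
      have h3 : x ^ u ∈ K := K.pow_mem hx1 u
      have h4 : f (x ^ u) ∈ R := by rw [← hKR]; exact mem_map_of_mem f h3
      have h5 : f (x ^ u) = 1 := by
        apply eq_one_of_isPGroup hqr hR (isPGroup_zpowers (p := q) (n := b) _)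
          (mem_zpowers _) h4
        rw [← map_pow, hb, map_one]
      have h6 : x ^ u ∈ L := hqL _ (MonoidHom.mem_ker.2 h5) b hb
      have h7 : m x = 1 := by
        rw [← hu]
        rw [← MonoidHom.mem_ker, hker]; exact h6
      have h8 : orderOf (⟨m x, mem_map_of_mem m hx1⟩ : ↥(K.map m)) = q := hxo
      have h9 : (⟨m x, mem_map_of_mem m hx1⟩ : ↥(K.map m)) = 1 := Subtype.ext h7
      rw [h9, orderOf_one] at h8
      exact (Fact.out : q.Prime).one_lt.ne h8
    have hp : ¬ p ∣ Nat.card (K.map m) := fun h =>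
      hN ((h.trans (card_map_dvd _ _)).trans (card_dvd_of_le hKN))
    obtain ⟨R', hR'K, hR'p, hR'φ, hR'y, hR'i⟩ := exists_sylow_inv2 (p := p) (q := q) (r := r)
      (N := K.map m) (φ := m φ) (y := m y) (n := 1) (m := n)
      (by rw [pow_one, ← map_pow, hφ, map_one]) (by rw [← map_pow, hy, map_one])
      (by rw [← map_mul, hc, map_mul]) hp hq (map_nz m hKφ) (map_nz m hKy)
    have h1 : (R'.comap m).map m = R' :=
      map_comap_eq_self_of_surjective (QuotientGroup.mk'_surjective L) R'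
    have h2 : (K.map m).map g = R := by rw [Subgroup.map_map, hgm, hKR]
    have h3 : R'.map g = R := LiftAux.map_sylow_eq g hR'i hR h2 hR'K
    have h4 : R'.comap m ≤ K := by
      calc R'.comap m ≤ (K.map m).comap m := comap_mono hR'K
        _ = K := comap_map_eq_self (by rw [hker]; exact hLK)
    have h5 : K ≤ R'.comap m := by
      apply hmin _ _ h4
      refine ⟨?_, h4.trans hKN, comap_nz m hR'φ, comap_nz m hR'y, ?_⟩
      · intro x hx
        rw [mem_comap]
        have : m x = 1 := by rw [← MonoidHom.mem_ker, hker]; exact hx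
        rw [this]; exact R'.one_mem
      · rw [← hgm, ← Subgroup.map_map, h1, h3]
    have h6 : K.map m ≤ R' := by
      rw [← h1]; exact map_mono h5
    exact hR'p.to_le h6

/-- The group `M = [L, H] H`. -/
theorem getM {E F : Type} [Group E] [Finite E] [Group F] (f : E →* F) {p q r : ℕ}
    [Fact p.Prime] [Fact q.Prime] [Fact r.Prime] (hqr : q ≠ r) (L K : Subgroup E) [L.Normal]
    (hL : IsPGroup q L) (hLK : L ≤ K) {φ y : E} (hφ : φ ^ p = 1)
    (hK : ¬ p ∣ Nat.card K) (hKφ : Nz φ K)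
    (hKy : Nz y K) (R : Subgroup F) (hKR : K.map f = R) (hR : IsPGroup r R)
    (h1 : K ≤ cm K φ ⊔ L) (h2 : K ≤ cm K y ⊔ L) (h3 : IsPGroup r (K.map (QuotientGroup.mk' L))) :
    ∃ H : Subgroup E, H ≤ K ∧ H.map f = R ∧ IsPGroup r H ∧ Nz φ H ∧ cm H φ = H ∧
      Nz y (⁅L, H⁆ ⊔ H) ∧ Nz y ⁅L, H⁆ ∧ H ≤ cm (⁅L, H⁆ ⊔ H) y ⊔ ⁅L, H⁆ := by
  set m := QuotientGroup.mk' L with hm
  have hker : m.ker = L := QuotientGroup.ker_mk' L
  obtain ⟨H, hHK, hHp, hHφ, hHi⟩ := exists_sylow_inv1 (p := p) (r := r) (N := K) (φ := φ) (n := 1)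
    (by rw [pow_one, hφ]) hK hKφ
  have hHm : H.map m = K.map m := LiftAux.map_sylow_eq m hHi h3 rfl hHK
  have hHR : H.map f = R := LiftAux.map_sylow_eq f hHi hR hKR hHK
  have hLH : ∀ x ∈ L, x ∈ H → x = 1 := fun x hx hx' =>
    eq_one_of_isPGroup hqr hHp hL hx hx'
  have hmL : ∀ a b : E, m a = m b → a⁻¹ * b ∈ L := by
    intro a b h
    rw [← hker, MonoidHom.mem_ker, map_mul, map_inv, h, inv_mul_cancel]
  have hLbot : L.map m = ⊥ := by
    rw [eq_bot_iff]
    rintro _ ⟨x, hx, rfl⟩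
    rw [mem_bot, ← MonoidHom.mem_ker, hker]
    exact hx
  have hcφ : (cm K φ).map m = K.map m := by
    apply le_antisymm (map_mono (cm_le hKφ))
    calc K.map m ≤ (cm K φ ⊔ L).map m := map_mono h1
      _ = (cm K φ).map m := by rw [Subgroup.map_sup, hLbot, sup_bot_eq]
  have hcy : (cm K y).map m = K.map m := by
    apply le_antisymm (map_mono (cm_le hKy))
    calc K.map m ≤ (cm K y ⊔ L).map m := map_mono h2
      _ = (cm K y).map m := by rw [Subgroup.map_sup, hLbot, sup_bot_eq]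
  have hH1 : cm H φ = H := by
    apply le_antisymm (cm_le hHφ)
    intro x hx
    have h4 : m x ∈ (cm H φ).map m := by
      rw [map_cm, hHm, ← map_cm, hcφ]
      exact mem_map_of_mem m (hHK hx)
    obtain ⟨z, hz, hzx⟩ := h4
    have h5 := hLH _ (hmL z x hzx) (H.mul_mem (H.inv_mem (cm_le hHφ hz)) hx)
    have h6 : x = z := by
      rw [inv_mul_eq_one] at h5; exact h5.symm
    rw [h6]; exact hz
  have hNLH : NzS H L := fun g _ => Nz.of_normal g L
  set Y := ⁅L, H⁆ with hY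
  have hYL : Y ≤ L := comm_le_left hNLH
  have hHY : NzS H Y := comm_nzS_right L H
  have hLY : NzS L Y := comm_nzS_left L H
  set M := Y ⊔ H with hM
  have hMK : M ≤ K := sup_le (hYL.trans hLK) hHK
  have hLM : NzS L M := by
    intro l hl
    rw [hM, ← Subgroup.closure_eq Y, ← Subgroup.closure_eq H, ← Subgroup.closure_union]
    apply Nz.closure
    rw [Subgroup.closure_union, Subgroup.closure_eq, Subgroup.closure_eq]
    rintro x (hx | hx)
    · exact mem_sup_left (hLY l hl x hx)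
    · have h4 : l * x * l⁻¹ = ⁅l, x⁆ * x := by rw [commutatorElement_def]; group
      rw [h4]
      exact (Y ⊔ H).mul_mem (mem_sup_left (commutator_mem_commutator hl hx)) (mem_sup_right hx)
  have hHM : NzS H M := fun h hh => (hHY h hh).sup (Nz.of_mem hh)
  -- `K = L H`
  have hKLH : ∀ x ∈ K, ∃ l ∈ L, ∃ h ∈ H, x = l * h := by
    intro x hx
    have h4 : m x ∈ H.map m := by rw [hHm]; exact mem_map_of_mem m hx
    obtain ⟨h, hh, hhx⟩ := h4
    refine ⟨x * h⁻¹, ?_, h, hh, by group⟩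
    rw [← hker, MonoidHom.mem_ker, map_mul, map_inv, hhx, mul_inv_cancel]
  -- `r`-elements of `K` lie in `M`
  have hrM : ∀ x ∈ K, ∀ a : ℕ, x ^ r ^ a = 1 → x ∈ M := by
    intro x hx a ha
    obtain ⟨l, hl, h, hh, rfl⟩ := hKLH x hx
    -- `x = l h`, modulo `M` it is `l`
    have hLM' : NzS L M := hLM
    have h5 : l * h = (l * h * l⁻¹) * l := by group
    have h6 : l * h * l⁻¹ ∈ M := hLM l hl h (mem_sup_right hh)
    obtain ⟨b, hb⟩ := hL ⟨l, hl⟩
    have hb' : l ^ q ^ b = 1 := congrArg Subtype.val hb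
    obtain ⟨n', hn', hne'⟩ := mul_pow_mem hLM' h6 hl (q ^ b)
    rw [← h5, hb', mul_one] at hne'
    have hcop : Nat.Coprime (q ^ b) (orderOf (l * h)) := by
      apply Nat.Coprime.coprime_dvd_right (orderOf_dvd_of_pow_eq_one ha)
      exact Nat.Coprime.pow _ _ ((Nat.coprime_primes Fact.out Fact.out).2 hqr)
    obtain ⟨k, hk⟩ := exists_pow_eq_self_of_coprime hcop
    rw [← hk, hne']
    exact Subgroup.pow_mem _ hn' k
  have hconj : ∀ h ∈ H, y * h * y⁻¹ ∈ M := by
    intro h hh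
    obtain ⟨a, ha⟩ := hHp ⟨h, hh⟩
    have ha' : h ^ r ^ a = 1 := congrArg Subtype.val ha
    apply hrM _ (hKy h (hHK hh)) a
    rw [conj_pow, ha']; simp
  have hyM : Nz y M := by
    rw [hM, ← Subgroup.closure_eq H, hY, Subgroup.commutator_def, ← Subgroup.closure_union]
    apply Nz.closure
    have hMM : closure ({g | ∃ g₁ ∈ L, ∃ g₂ ∈ H, ⁅g₁, g₂⁆ = g} ∪ (H : Set E)) = M := by
      rw [Subgroup.closure_union, Subgroup.closure_eq, ← Subgroup.commutator_def]
    rintro x (⟨l, hl, h, hh, rfl⟩ | hx)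
    · rw [hMM]
      have h4 : y * ⁅l, h⁆ * y⁻¹ = (y * (l * h * l⁻¹) * y⁻¹) * (y * h⁻¹ * y⁻¹) := by
        rw [commutatorElement_def]; group
      rw [h4]
      refine M.mul_mem ?_ (hconj _ (H.inv_mem hh))
      obtain ⟨a, ha⟩ := hHp ⟨h, hh⟩
      have ha' : h ^ r ^ a = 1 := congrArg Subtype.val ha
      apply hrM _ (hKy _ (hMK (hLM l hl h (mem_sup_right hh)))) a
      rw [conj_pow, conj_pow, ha']; simp
    · rw [hMM]; exact hconj x hx
  have hML : ∀ x ∈ M, x ∈ L → x ∈ Y := by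
    intro x hx hxL
    obtain ⟨w, hw, h, hh, rfl⟩ := mem_sup_of_nz hHY hx
    have h4 : h ∈ L := by
      have := L.mul_mem (L.inv_mem (hYL hw)) hxL
      simpa using this
    rw [hLH h h4 hh, mul_one]; exact hw
  have hyY : Nz y Y := by
    intro x hx
    exact hML _ (hyM x (mem_sup_left hx)) (Nz.of_normal y L x (hYL hx))
  refine ⟨H, hHK, hHR, hHp, hHφ, hH1, hyM, hyY, ?_⟩
  have hMm : M.map m = K.map m := by
    apply le_antisymm (map_mono hMK)
    rw [← hHm]; exact map_mono le_sup_right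
  intro x hx
  have h4 : m x ∈ (cm M y).map m := by
    rw [map_cm, hMm, ← map_cm, hcy]
    exact mem_map_of_mem m (hHK hx)
  obtain ⟨z, hz, hzx⟩ := h4
  have h5 := hML (z⁻¹ * x) (M.mul_mem (M.inv_mem (cm_le hyM hz)) (mem_sup_right hx)) (hmL z x hzx)
  have h6 : x = z * (z⁻¹ * x) := by group
  rw [h6]
  exact (cm M y ⊔ Y).mul_mem (mem_sup_left hz) (mem_sup_right h5)

theorem dvd_card_of_ne_bot {E : Type} [Group E] [Finite E] {t : ℕ} [Fact t.Prime]
    {Y : Subgroup E} (hY : IsPGroup t Y) (hne : Y ≠ ⊥) : t ∣ Nat.card Y := by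
  obtain ⟨k, hk⟩ := (IsPGroup.iff_card).1 hY
  rw [hk]
  apply dvd_pow_self
  rintro rfl
  rw [pow_zero] at hk
  exact hne (Subgroup.card_eq_one.1 hk)

end GetAux

open GetAux in
theorem stmt_GETM : Stmt_GETM := by
  intro S q r y R hq hr hqr hyG hφy hyn hy1 hRG hRb hRp hRφ hRy hcφ hcy
  have : Fact q.Prime := ⟨hq⟩
  have : Fact r.Prime := ⟨hr⟩
  obtain ⟨n, hn⟩ := hyn
  have hpq : S.p ≠ q := by
    intro h
    have h1 : IsPGroup q (zpowers y) := isPGroup_zpowers hn
    have h2 : zpowers y ≤ S.G := by rwa [zpowers_le]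
    have h3 : zpowers y ≠ ⊥ := by rwa [Ne, zpowers_eq_bot]
    apply S.cop_of_le h2
    rw [h]; exact dvd_card_of_ne_bot h1 h3
  have hpr : S.p ≠ r := by
    intro h
    apply S.next.cop_of_le hRG
    rw [S.next_p, h]; exact dvd_card_of_ne_bot hRp hRb
  set L := Op q S.G with hL
  have hLn : L.Normal := ⟨fun x hx g => Op_nz q (Nz.of_normal g S.G) x hx⟩
  have hLp : IsPGroup q L := Op_isP q S.G
  have hLf : L ≤ S.pr.ker := by rw [S.ker_pr]; exact Op_le_Ft q S.G
  set N := R.comap S.pr with hNdef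
  have hNG : N ≤ S.G := by
    intro x hx
    have h1 : S.pr x ∈ S.next.G := hRG hx
    rw [S.next_G] at h1
    obtain ⟨z, hz, hzx⟩ := h1
    have h2 : z⁻¹ * x ∈ S.pr.ker := by
      rw [MonoidHom.mem_ker, map_mul, map_inv, hzx, inv_mul_cancel]
    rw [S.ker_pr] at h2
    have h3 : x = z * (z⁻¹ * x) := by group
    rw [h3]; exact S.G.mul_mem hz (Ft_le _ h2)
  have hLN : L ≤ N := by
    intro x hx
    have h1 : S.pr x = 1 := hLf hx
    rw [hNdef, mem_comap, h1]; exact R.one_mem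
  have hNR : N.map S.pr = R := map_comap_eq_self_of_surjective S.pr_surjective R
  obtain ⟨K, hLK, hKN, hKφ, hKy, hKR, hK1, hK2, hK3⟩ := getK S.pr (p := S.p) (q := q) (r := r) hqr L N
    hLf hLN S.hφ hn hφy (S.cop_of_le hNG) (comap_nz S.pr hRφ) (comap_nz S.pr hRy) R hNR hRp hcφ hcy
    (by
      intro x hx a ha
      rw [S.ker_pr] at hx
      exact mem_Op_of_mem_Ft hx ha)
  obtain ⟨H, hHK, hHR, hHp, hHφ, hHc, hyM, hyY, hHy⟩ := getM S.pr (p := S.p) hqr L K hLp hLK S.hφ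
    (S.cop_of_le (hKN.trans hNG)) hKφ hKy R hKR hRp hK1 hK2 hK3
  have hHG : H ≤ S.G := hHK.trans (hKN.trans hNG)
  have hrL : ∀ v : ℕ, v.Prime → v ≠ r → ¬ r ∣ Nat.card (Op v S.G) := by
    intro v hv hvr
    have : Fact v.Prime := ⟨hv⟩
    exact not_dvd_card_of_isPGroup (Ne.symm hvr) (Op_isP v S.G)
  have hHO : ∀ v : ℕ, v.Prime → NzS H (Op v S.G) := by
    intro v hv g hg
    have : Fact v.Prime := ⟨hv⟩
    exact Op_nz v (Nz.of_normal g S.G)
  refine ⟨H, hHG, hHR, hHp, hHφ, hHc, ?_, ?_⟩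
  · intro hO
    exact {
      hp := S.hp.out
      hv := hq
      hr := hr
      hq := hq
      hpv := hpq
      hpr := hpr
      hpq := hpq
      hvr := hqr
      hqr := hqr
      hφ := S.hφ
      hy := ⟨n, hn⟩
      hc := hφy
      hY := hLp.to_le (comm_le_left (hHO q hq))
      hH := hHp
      nφY := comm_nz (Nz.of_normal _ L) hHφ
      nφH := hHφ
      nHY := comm_nzS_right _ _
      nyY := hyY
      nyM := hyM
      hYH := (cp_comm2 hHp (hrL q hq hqr) (hHO q hq)).ge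
      hHφ := hHc.ge
      hHy := hHy }
  · intro hcen
    have hbot : ⁅L, H⁆ = ⊥ := by
      rw [eq_bot_iff, commutator_le]
      intro x hx h hh
      rw [mem_bot, commutatorElement_def, hcen x hx h hh]; group
    rw [hbot, bot_sup_eq, sup_bot_eq] at hHy
    rw [hbot, bot_sup_eq] at hyM
    have hcy' : cm H y = H := le_antisymm (cm_le hyM) hHy
    refine ⟨hyM, hcy', ?_⟩
    intro v hv hvr hvq hO
    have : Fact v.Prime := ⟨hv⟩
    have hpv : S.p ≠ v := by
      intro h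
      apply S.cop_of_le (Op_le v S.G)
      rw [h]; exact dvd_card_of_ne_bot (Op_isP v S.G) hO
    exact {
      hp := S.hp.out
      hv := hv
      hr := hr
      hq := hq
      hpv := hpv
      hpr := hpr
      hpq := hpq
      hvr := hvr
      hqr := hqr
      hφ := S.hφ
      hy := ⟨n, hn⟩
      hc := hφy
      hY := (Op_isP v S.G).to_le (comm_le_left (hHO v hv))
      hH := hHp
      nφY := comm_nz (Op_nz v (Nz.of_normal _ S.G)) hHφ
      nφH := hHφ
      nHY := comm_nzS_right _ _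
      nyY := comm_nz (Op_nz v (Nz.of_normal _ S.G)) hyM
      nyM := (comm_nz (Op_nz v (Nz.of_normal _ S.G)) hyM).sup hyM
      hYH := (cp_comm2 hHp (hrL v hv hvr) (hHO v hv)).ge
      hHφ := hHc.ge
      hHy := by
        refine le_trans ?_ le_sup_left
        calc H ≤ cm H y := hHy
          _ ≤ cm (⁅Op v S.G, H⁆ ⊔ H) y := cm_mono le_sup_right }

end Pool.FH
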