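import Pool.Agent.Work.MP_4c212b_al.Interface

/-!
# Block ISO (Chevalley-Warning)
-/

set_option autoImplicit false

namespace Pool.FH

theorem stmt_ISO : Stmt_ISO := by
  intro v _ T _ _ _ B F p hp hp2 hdim hB hF hFp
  classical
  have hskew : ∀ x y, B x y = - B y x := by
    intro x y
    have h := hB (x + y)
    simp only [map_add, LinearMap.add_apply, hB] at h
    rw [zero_add, add_zero] at h
    rw [add_comm] at h
    exact eq_neg_of_add_eq_zero_left h
  have hpow : ∀ (i : ℕ) (x y : T), B ((F ^ i) x) ((F ^ i) y) = B x y := by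
    intro i
    induction i with
    | zero => intro x y; simp
    | succ i ih =>
      intro x y
      rw [pow_succ', Module.End.mul_apply, Module.End.mul_apply, hF, ih]
  set n := Module.finrank (ZMod v) T with hn
  let b : Module.Basis (Fin n) (ZMod v) T := Module.finBasis (ZMod v) T
  let f : ℕ → MvPolynomial (Fin n) (ZMod v) := fun i =>
    ∑ j, ∑ k, MvPolynomial.C (B (b j) ((F ^ (i + 1)) (b k))) * (MvPolynomial.X j * MvPolynomial.X k)
  have hdeg : ∀ i, (f i).totalDegree ≤ 2 := by
    intro i
    apply MvPolynomial.totalDegree_finsetSum_le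
    intro j _
    apply MvPolynomial.totalDegree_finsetSum_le
    intro k _
    refine (MvPolynomial.totalDegree_mul _ _).trans ?_
    rw [MvPolynomial.totalDegree_C, zero_add]
    refine (MvPolynomial.totalDegree_mul _ _).trans ?_
    rw [MvPolynomial.totalDegree_X, MvPolynomial.totalDegree_X]
  have heval : ∀ (i : ℕ) (x : Fin n → ZMod v),
      MvPolynomial.eval x (f i) = B (∑ j, x j • b j) ((F ^ (i + 1)) (∑ k, x k • b k)) := by
    intro i x
    simp only [f, map_sum, map_mul, MvPolynomial.eval_C, MvPolynomial.eval_X, map_smul,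
      LinearMap.sum_apply, LinearMap.smul_apply, smul_eq_mul]
    rw [Finset.sum_comm]
    apply Finset.sum_congr rfl
    intro j _
    rw [Finset.mul_sum]
    apply Finset.sum_congr rfl
    intro k _
    ring
  have hodd : p % 2 = 1 := (Nat.Prime.eq_two_or_odd hp).resolve_left hp2
  have hsum : ∑ i ∈ Finset.range ((p - 1) / 2), (f i).totalDegree < Fintype.card (Fin n) := by
    rw [Fintype.card_fin]
    calc ∑ i ∈ Finset.range ((p - 1) / 2), (f i).totalDegree
        ≤ ∑ i ∈ Finset.range ((p - 1) / 2), 2 := Finset.sum_le_sum fun i _ => hdeg i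
      _ = (p - 1) / 2 * 2 := by rw [Finset.sum_const, Finset.card_range, smul_eq_mul]
      _ < n := by have := hp.two_le; omega
  have hdvd := char_dvd_card_solutions_of_sum_lt v hsum
  have hv2 : 2 ≤ v := (Fact.out : v.Prime).two_le
  set Sol := {x : Fin n → ZMod v //
    ∀ i ∈ Finset.range ((p - 1) / 2), MvPolynomial.eval x (f i) = 0} with hSol
  have hz : (0 : Fin n → ZMod v) ∈ {x : Fin n → ZMod v |
      ∀ i ∈ Finset.range ((p - 1) / 2), MvPolynomial.eval x (f i) = 0} := by
    intro i _
    rw [heval]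
    simp
  have hcard : 1 < Fintype.card Sol := by
    have hpos : 0 < Fintype.card Sol := Fintype.card_pos_iff.2 ⟨⟨0, hz⟩⟩
    exact lt_of_lt_of_le hv2 (Nat.le_of_dvd hpos hdvd)
  obtain ⟨x, hx⟩ := Fintype.exists_ne_of_one_lt_card hcard (⟨0, hz⟩ : Sol)
  have hx0 : x.1 ≠ 0 := fun h => hx (Subtype.ext h)
  set w := ∑ j, x.1 j • b j with hw
  have hw0 : w ≠ 0 := by
    intro h
    apply hx0
    funext j
    exact Fintype.linearIndependent_iff.1 b.linearIndependent x.1 h j
  have hsmall : ∀ i, 0 < i → i ≤ (p - 1) / 2 → B w ((F ^ i) w) = 0 := by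
    intro i h1 h2
    obtain ⟨k, rfl⟩ : ∃ k, i = k + 1 := ⟨i - 1, by omega⟩
    have h3 := x.2 k (Finset.mem_range.2 (by omega))
    rw [heval] at h3
    exact h3
  have hlt : ∀ i, i < p → B w ((F ^ i) w) = 0 := by
    intro i hi
    rcases Nat.eq_zero_or_pos i with rfl | hpos
    · simp [hB]
    · by_cases h : i ≤ (p - 1) / 2
      · exact hsmall i hpos h
      · have h1 := hsmall (p - i) (by omega) (by omega)
        have h2 := hpow i w ((F ^ (p - i)) w)
        have h3 : (F ^ i) ((F ^ (p - i)) w) = w := by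
          rw [← Module.End.mul_apply, ← pow_add, Nat.add_sub_cancel' hi.le, hFp]
        rw [h3, h1] at h2
        rw [hskew, h2, neg_zero]
  refine ⟨w, hw0, fun i => ?_⟩
  have hmod : (F ^ i) w = (F ^ (i % p)) w := by
    conv_lhs => rw [← Nat.mod_add_div i p]
    rw [pow_add, Module.End.mul_apply]
    congr 1
    generalize i / p = q
    induction q with
    | zero => simp
    | succ q ih =>
      rw [Nat.mul_succ, pow_add, Module.End.mul_apply, hFp, ih]
  rw [hmod]
  exact hlt _ (Nat.mod_lt _ hp.pos)

end Pool.FH
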