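import Pool.Agent.Work.MP_4c212b_al.L2b

/-!
# MP_4c212b_al : block L2, part C (a family of modules)
-/

set_option autoImplicit false

open Subgroup
open scoped commutatorElement TensorProduct Pointwise

namespace Pool.FH.L2aux

theorem relIndex_family {E : Type} [Group E] [Finite E] {ι : Type} {s : ι → ℕ}
    (hs : Function.Injective s) {P : Subgroup E} {Kg : ι → Subgroup E} {B : ℕ} (hB : 1 ≤ B)
    (hKgi : ∀ i, (Kg i).relIndex P ≤ B) (n : ℕ) :
    ∃ K ≤ P, (∀ i, s i < n → K ≤ Kg i) ∧ K.relIndex P ≤ B ^ n := by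
  classical
  induction n with
  | zero => exact ⟨P, le_rfl, fun i hi => absurd hi (by omega), by rw [relIndex_self]; simp⟩
  | succ n ih =>
    obtain ⟨K, hK, h1, h2⟩ := ih
    by_cases hn : ∃ i, s i = n
    · obtain ⟨i, hi⟩ := hn
      refine ⟨K ⊓ Kg i, inf_le_left.trans hK, ?_, ?_⟩
      · intro j hj
        rcases Nat.lt_succ_iff_lt_or_eq.1 hj with h3 | h3
        · exact inf_le_left.trans (h1 j h3)
        · have : j = i := hs (h3.trans hi.symm)
          subst this
          exact inf_le_right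
      · calc (K ⊓ Kg i).relIndex P ≤ K.relIndex P * (Kg i).relIndex P := relIndex_inf_le
          _ ≤ B ^ n * B := Nat.mul_le_mul h2 (hKgi i)
          _ = B ^ (n + 1) := (pow_succ B n).symm
    · refine ⟨K, hK, ?_, h2.trans (Nat.pow_le_pow_right hB (Nat.le_succ n))⟩
      intro j hj
      rcases Nat.lt_succ_iff_lt_or_eq.1 hj with h3 | h3
      · exact h1 j h3
      · exact absurd ⟨j, h3⟩ hn

/-- the restriction of a representation to an invariant subspace -/
noncomputable def resRep {k E V : Type} [Field k] [Group E] [AddCommGroup V] [Module k V]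
    (ρ : Representation k E V) (D : Subgroup E) (W : Submodule k V) (h : InvS ρ D W) :
    Representation k D W where
  toFun g := (ρ (g : E)).restrict (h g.1 g.2)
  map_one' := by
    ext v
    simp
  map_mul' a b := by
    ext v
    simp

theorem resRep_apply {k E V : Type} [Field k] [Group E] [AddCommGroup V] [Module k V]
    (ρ : Representation k E V) (D : Subgroup E) (W : Submodule k V) (h : InvS ρ D W) (g : D)
    (v : W) : ((resRep ρ D W h g v : W) : V) = ρ (g : E) (v : V) := rfl

theorem famB (hDB : Stmt_DB) (hVE : Stmt_VE) (p m : ℕ) (hp : p.Prime) : ∃ b1 : ℕ,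
    ∀ (E : Type) [Group E] [Finite E] (q : ℕ) (φ : E) (P : Subgroup E) (ι : Type) (s : ι → ℕ)
      [∀ i, Fact (s i).Prime] (V : ι → Type) [∀ i, AddCommGroup (V i)]
      [∀ i, Module (ZMod (s i)) (V i)] [∀ i, Finite (V i)]
      (ρ : ∀ i, Representation (ZMod (s i)) E (V i)), q.Prime → p ≠ q → (∀ i, s i ≠ p) →
      (∀ i, s i ≠ q) → Function.Injective s → φ ^ p = 1 → IsPGroup q P → Nz φ P →
      P ≤ cm P φ → Nat.card (fx P φ) ≤ m → (∀ i, Nat.card {v : V i // ρ i φ v = v} ≤ m) →
      (∀ x ∈ P, (∀ i v, ρ i x v = v) → x = 1) → Nat.card P ≤ b1 := by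
  classical
  obtain ⟨bV, hbV⟩ := hVE p m hp
  refine ⟨bV * ((m ^ (2 * p)).factorial) ^ (m + 1), ?_⟩
  intro E _ _ q φ P ι s _ V _ _ _ ρ hq hpq hsp hsq hs hφ hP nφ hPφ hfx hfV hfaith
  have hqF : Fact q.Prime := ⟨hq⟩
  choose Ve Vg hinv hsup hfix Kg hKgP hKgt hKgi hKgm using fun i =>
    modB hDB (ρ i) hp hq hpq (hsp i) (hsq i) hφ hP nφ hPφ (hfV i)
  obtain ⟨K0, hK0P, hK0, hK0i⟩ := relIndex_family hs (Nat.one_le_iff_ne_zero.2
    (Nat.factorial_ne_zero _)) hKgi (m + 1)
  have hK0' : ∀ i, K0 ≤ Kg i := by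
    intro i
    by_cases h : s i < m + 1
    · exact hK0 i h
    · rw [hKgm i (by omega)]; exact hK0P
  set D : Subgroup E := P ⊔ zpowers φ with hDdef
  have hPD : P ≤ D := le_sup_left
  have hφD : φ ∈ D := (le_sup_right : zpowers φ ≤ D) (mem_zpowers φ)
  let ρe : ∀ i, Representation (ZMod (s i)) D (Ve i) := fun i => resRep (ρ i) D (Ve i) (hinv i)
  let φD : D := ⟨φ, hφD⟩
  let PD : Subgroup D := P.subgroupOf D
  have hPDmap : PD.map D.subtype = P := by
    rw [subgroupOf_map_subtype, inf_eq_left.2 hPD]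
  have hVEapp := hbV D q φD PD ι (fun i => AlgebraicClosure (ZMod (s i)))
    (fun i => AlgebraicClosure (ZMod (s i)) ⊗[ZMod (s i)] (Ve i))
    (fun i => bc (AlgebraicClosure (ZMod (s i))) (ρe i)) hq hpq
    (by
      intro i h0
      have : (p : ZMod (s i)) ≠ 0 := by
        rw [Ne, ZMod.natCast_eq_zero_iff]
        exact fun h => hsp i ((Nat.prime_dvd_prime_iff_eq Fact.out hp).1 h)
      apply this
      apply (algebraMap (ZMod (s i)) (AlgebraicClosure (ZMod (s i)))).injective
      rw [map_natCast, map_zero, h0])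
    (by
      intro i h0
      have : (q : ZMod (s i)) ≠ 0 := by
        rw [Ne, ZMod.natCast_eq_zero_iff]
        exact fun h => hsq i ((Nat.prime_dvd_prime_iff_eq Fact.out hq).1 h)
      apply this
      apply (algebraMap (ZMod (s i)) (AlgebraicClosure (ZMod (s i)))).injective
      rw [map_natCast, map_zero, h0])
    (Subtype.ext (by simpa [φD] using hφ))
    (by
      intro x
      obtain ⟨n, hn⟩ := hP ⟨(x : D).1, x.2⟩
      refine ⟨n, Subtype.ext (Subtype.ext ?_)⟩
      simpa using congrArg Subtype.val hn)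
    (by
      intro x hx
      exact nφ x.1 hx)
    (by
      intro x hx
      have h1 : (x : E) ∈ cm P φ := hPφ hx
      have h2 : cm P φ = (cm PD φD).map D.subtype := by
        rw [cm, cm, Subgroup.map_commutator, hPDmap, MonoidHom.map_zpowers]; rfl
      rw [h2] at h1
      obtain ⟨y, hy, hyx⟩ := h1
      have : y = x := Subtype.ext hyx
      rwa [← this])
    (by
      refine le_trans ?_ hfx
      apply Nat.card_le_card_of_injective (fun x : fx PD φD => (⟨((x : D) : E), by
        obtain ⟨h1, h2⟩ := mem_fx.1 x.2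
        exact mem_fx.2 ⟨h1, congrArg Subtype.val h2⟩⟩ : fx P φ))
      intro a b hab
      exact Subtype.ext (Subtype.ext (congrArg (fun z : fx P φ => (z : E)) hab)))
    (by
      intro i w hw
      set K := AlgebraicClosure (ZMod (s i))
      have hpK : (p : K) ≠ 0 := by
        intro h0
        have : (p : ZMod (s i)) ≠ 0 := by
          rw [Ne, ZMod.natCast_eq_zero_iff]
          exact fun h => hsp i ((Nat.prime_dvd_prime_iff_eq Fact.out hp).1 h)
        apply this
        apply (algebraMap (ZMod (s i)) K).injective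
        rw [map_natCast, map_zero, h0]
      have h2 : ∀ j : ℕ, bc K (ρe i) (φD ^ j) w = w := by
        intro j
        induction j with
        | zero => simp
        | succ j ih => rw [pow_succ, map_mul, Module.End.mul_apply, hw, ih]
      have h3 : ∑ j ∈ Finset.range p, bc K (ρe i) (φD ^ j) w = (p : K) • w := by
        rw [Finset.sum_congr rfl (fun j _ => h2 j), Finset.sum_const, Finset.card_range,
          ← Nat.cast_smul_eq_nsmul K]
      have h4 : ∀ u : K ⊗[ZMod (s i)] (Ve i),
          ∑ j ∈ Finset.range p, bc K (ρe i) (φD ^ j) u = 0 := by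
        intro u
        induction u using TensorProduct.induction_on with
        | zero => simp
        | tmul c v =>
          rw [bc_sum]
          have h5 : ∑ j ∈ Finset.range p, (ρe i) (φD ^ j) v = 0 := by
            apply Subtype.ext
            rw [AddSubmonoidClass.coe_finsetSum]
            exact hfix i v.1 v.2
          rw [h5, TensorProduct.tmul_zero]
        | add a b ha hb =>
          simp only [map_add]
          rw [Finset.sum_add_distrib, ha, hb, add_zero]
      rw [h4] at h3
      exact (smul_eq_zero.1 h3.symm).resolve_left hpK)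
  -- the kernel on the `Ve i`
  let Ke : Subgroup E := P ⊓ ⨅ i, ptw (ρ i) (Ve i)
  have hKeP : Ke ≤ P := inf_le_left
  have hKe : ∀ x, x ∈ Ke ↔ x ∈ P ∧ ∀ i, ∀ v ∈ Ve i, ρ i x v = v := by
    intro x
    change x ∈ P ⊓ ⨅ i, ptw (ρ i) (Ve i) ↔ _
    rw [mem_inf, mem_iInf]
    rfl
  have hcard1 : Nat.card PD = Nat.card P := by
    exact Nat.card_congr (subgroupOfEquivOfLe hPD).toEquiv
  have hcard2 : Nat.card {x : D // x ∈ PD ∧ ∀ i v,
      bc (AlgebraicClosure (ZMod (s i))) (ρe i) x v = v} ≤ Nat.card Ke := by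
    apply Nat.card_le_card_of_injective (fun x : {x : D // x ∈ PD ∧ ∀ i v,
      bc (AlgebraicClosure (ZMod (s i))) (ρe i) x v = v} => (⟨((x : D) : E), by
        rw [hKe]
        refine ⟨x.2.1, fun i v hv => ?_⟩
        have h1 := x.2.2 i (1 ⊗ₜ ⟨v, hv⟩)
        rw [bc_tmul] at h1
        have h2 := Module.Flat.tensorProduct_mk_injective (ZMod (s i)) (Ve i)
          (AlgebraicClosure (ZMod (s i))) h1
        exact congrArg Subtype.val h2⟩ : Ke))
    intro a b hab
    exact Subtype.ext (Subtype.ext (congrArg (fun z : Ke => (z : E)) hab))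
  have hKei : Ke.relIndex P ≤ bV := by
    have h1 : Nat.card Ke * Ke.relIndex P = Nat.card P := by
      rw [← relIndex_bot_left Ke, relIndex_mul_relIndex _ _ _ bot_le hKeP, relIndex_bot_left]
    have h2 : Nat.card P ≤ bV * Nat.card Ke := by
      rw [← hcard1]
      exact hVEapp.trans (Nat.mul_le_mul_left _ hcard2)
    have h3 : 0 < Nat.card Ke := Nat.card_pos
    have h4 : Nat.card Ke * Ke.relIndex P ≤ Nat.card Ke * bV := by
      rw [h1, mul_comm]; exact h2
    exact Nat.le_of_mul_le_mul_left h4 h3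
  have hbot : Ke ⊓ K0 = ⊥ := by
    rw [eq_bot_iff]
    rintro x ⟨h1, h2⟩
    obtain ⟨hxP, hxe⟩ := (hKe x).1 h1
    rw [mem_bot]
    apply hfaith x hxP
    intro i v
    have h3 : v ∈ Ve i ⊔ Vg i := by rw [hsup i]; exact Submodule.mem_top
    obtain ⟨a, ha, b, hb, rfl⟩ := Submodule.mem_sup.1 h3
    rw [map_add, hxe i a ha, hKgt i x (hK0' i h2) b hb]
  calc Nat.card P = (Ke ⊓ K0).relIndex P := by rw [hbot, relIndex_bot_left]
    _ ≤ Ke.relIndex P * K0.relIndex P := relIndex_inf_le
    _ ≤ _ := Nat.mul_le_mul hKei hK0i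

end Pool.FH.L2aux
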