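import Pool.Agent.Work.MP_4c212b_al.L2a
import Pool.Agent.Work.MP_4c212b_al.L2c

/-!
# MP_4c212b_al : block L2 (bound for the order)
-/

set_option autoImplicit false

open Subgroup
open scoped commutatorElement TensorProduct Pointwise

namespace Pool.FH.L2aux

theorem card_fix_mod (S : Sys) {s : ℕ} [Fact s.Prime] (M : Mod S s) :
    Nat.card {v : M.V // M.ρ S.next.φ v = v} ≤ Nat.card (fx S.G S.φ) := by
  classical
  have hOG : Op s S.G ≤ S.G := Op_le s S.G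
  have h1 : M.f 1 = 0 := by
    have := M.f_mul 1 1
    rw [mul_one] at this
    simpa using this
  let fh : ↥(Op s S.G) →* Multiplicative M.V :=
    { toFun := fun x => Multiplicative.ofAdd (M.f x)
      map_one' := by rw [h1]; rfl
      map_mul' := by intro a b; rw [M.f_mul]; rfl }
  have hfh : ∀ x, fh x = Multiplicative.ofAdd (M.f x) := fun _ => rfl
  let N : Subgroup S.Γ := fh.ker.map (Op s S.G).subtype
  have hN : ∀ z : ↥(Op s S.G), (z : S.Γ) ∈ N ↔ M.f z = 0 := by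
    intro z
    constructor
    · rintro ⟨w, hw, hwz⟩
      have : w = z := Subtype.ext hwz
      subst this
      exact hw
    · intro h
      exact ⟨z, h, rfl⟩
  have hNle : N ≤ Op s S.G := by
    rintro _ ⟨w, _, rfl⟩
    exact w.2
  have hφO : Nz S.φ (Op s S.G) := Op_nz s (Nz.of_normal _ _)
  have hNφ : Nz S.φ N := by
    rintro _ ⟨w, hw, rfl⟩
    have h2 := hφO w.1 w.2
    refine (hN ⟨_, h2⟩).2 ?_
    rw [M.f_equiv S.φ w ⟨_, h2⟩ rfl]
    have h3 : M.f w = 0 := hw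
    rw [h3, map_zero]
  have key : ∀ v : M.V, M.ρ S.next.φ v = v → ∃ x : ↥(Op s S.G), S.φ * x = x * S.φ ∧
      M.f x = v := by
    intro v hv
    obtain ⟨x, rfl⟩ := M.f_surj v
    have h2 := hφO x.1 x.2
    have h3 : M.f ⟨_, h2⟩ = M.f x := by
      rw [M.f_equiv S.φ x ⟨_, h2⟩ rfl, ← S.next_φ, hv]
    have h4 : (x : S.Γ)⁻¹ * (S.φ * x * S.φ⁻¹) ∈ N := by
      have h5 : (x : S.Γ)⁻¹ * (S.φ * x * S.φ⁻¹) = ((x⁻¹ * ⟨_, h2⟩ : ↥(Op s S.G)) : S.Γ) := rfl
      rw [h5, hN]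
      have h6 : fh (x⁻¹ * ⟨_, h2⟩) = 1 := by
        rw [map_mul, map_inv, hfh, hfh, h3, inv_mul_cancel]
      exact h6
    obtain ⟨n, hn, h5⟩ := cp_fix1 S.hφ (S.cop_of_le (hNle.trans hOG)) hNφ h4
    refine ⟨x * ⟨n, hNle hn⟩, h5, ?_⟩
    rw [M.f_mul, (hN ⟨n, hNle hn⟩).1 hn, add_zero]
  have hsub : Nat.card (fx (Op s S.G) S.φ) ≤ Nat.card (fx S.G S.φ) :=
    Subgroup.card_le_of_le (fx_mono hOG)
  refine le_trans ?_ hsub
  apply Nat.card_le_card_of_surjective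
    (fun x : fx (Op s S.G) S.φ => (⟨M.f ⟨x.1, fx_le x.2⟩, by
      have h2 := (mem_fx.1 x.2).2
      have h3 := M.f_equiv S.φ ⟨x.1, fx_le x.2⟩ ⟨x.1, fx_le x.2⟩ (by
        change (x : S.Γ) = S.φ * x * S.φ⁻¹
        rw [h2]; group)
      exact h3.symm⟩ : {v : M.V // M.ρ S.next.φ v = v}))
  rintro ⟨v, hv⟩
  obtain ⟨x, hx, rfl⟩ := key v hv
  exact ⟨⟨x.1, mem_fx.2 ⟨x.2, hx⟩⟩, rfl⟩

theorem card_Op_le (hDB : Stmt_DB) (hVE : Stmt_VE) (hFAITH : Stmt_FAITH) (hREPR : Stmt_REPR)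
    (p m : ℕ) (hp : p.Prime) : ∃ b2 : ℕ, ∀ S : Sys, S.p = p → Nat.card (fx S.G S.φ) ≤ m →
      ∀ q : ℕ, q.Prime → Nat.card (Op q S.next.G) ≤ b2 := by
  classical
  obtain ⟨b1, hb1⟩ := famB hDB hVE p m hp
  refine ⟨b1 * m + 1, ?_⟩
  intro S hSp hm q hq
  have hqF : Fact q.Prime := ⟨hq⟩
  set Q := Op q S.next.G with hQ
  have hQG : Q ≤ S.next.G := Op_le q _
  have hQp : ¬ S.next.p ∣ Nat.card Q := S.next.cop_of_le hQG
  have hnφ : Nz S.next.φ Q := Op_nz q (Nz.of_normal _ _)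
  obtain ⟨a, ha⟩ := (IsPGroup.iff_card).1 (Op_isP q S.next.G)
  rw [← hQ] at ha
  by_cases hqp : p = q
  · have ha0 : a = 0 := by
      by_contra hne
      apply hQp
      rw [ha, S.next_p, hSp, hqp]
      exact dvd_pow_self q hne
    rw [ha, ha0, pow_zero]
    omega
  have hP : Nat.card (cm Q S.next.φ) ≤ b1 := by
    have hcc : cm (cm Q S.next.φ) S.next.φ = cm Q S.next.φ :=
      cm_cm (p := S.next.p) (n := 1) (by rw [pow_one]; exact S.next.hφ) hQp hnφ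
    let M : ∀ i : {s : ℕ // s.Prime ∧ s ∣ Nat.card S.G ∧ s ≠ q},
        haveI : Fact i.1.Prime := ⟨i.2.1⟩
        Mod S i.1 := fun i =>
      haveI : Fact i.1.Prime := ⟨i.2.1⟩
      Classical.choice (hREPR S i.1)
    have hF : ∀ i : {s : ℕ // s.Prime ∧ s ∣ Nat.card S.G ∧ s ≠ q}, Fact i.1.Prime :=
      fun i => ⟨i.2.1⟩
    refine hb1 S.next.Γ q S.next.φ (cm Q S.next.φ) {s : ℕ // s.Prime ∧ s ∣ Nat.card S.G ∧ s ≠ q}
      (fun i => i.1) (fun i => (M i).V) (fun i => (M i).ρ) hq hqp ?_ (fun i => i.2.2.2)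
      Subtype.val_injective ?_ ?_ (cm_nz_self _ _) ?_ ?_ ?_ ?_
    · intro i h
      apply S.cop
      have h2 : (i.1 : ℕ) = S.p := by rw [hSp]; exact h
      rw [← h2]
      exact i.2.2.1
    · have := S.next.hφ
      rwa [S.next_p, hSp] at this
    · exact (Op_isP q S.next.G).to_le (cm_le hnφ)
    · rw [hcc]
    · refine le_trans (Subgroup.card_le_of_le (fx_mono ((cm_le hnφ).trans hQG))) ?_
      exact (card_fx_next S).trans hm
    · intro i
      exact (card_fix_mod S (M i)).trans hm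
    · by_contra hcon
      push Not at hcon
      obtain ⟨x, hx, htr, hx1⟩ := hcon
      let Y : Subgroup S.next.Γ := zpowers x
      have hY : Y ≤ Op q S.next.G := by
        rw [zpowers_le]
        exact cm_le hnφ hx
      have hY1 : Y ≠ ⊥ := by
        intro h0
        exact hx1 (zpowers_eq_bot.1 h0)
      obtain ⟨s, hs, hsq, hsG, hall⟩ := hFAITH S q Y hq hY hY1
      obtain ⟨y, hy, v, hv⟩ := hall (M ⟨s, hs.out, hsG, hsq⟩)
      apply hv
      have h1 : Y ≤ ptw (M ⟨s, hs.out, hsG, hsq⟩).ρ ⊤ := by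
        rw [zpowers_le]
        intro w _
        exact htr ⟨s, hs.out, hsG, hsq⟩ w
      exact h1 hy v Submodule.mem_top
  have hfx : Nat.card (fx Q S.next.φ) ≤ m :=
    (Subgroup.card_le_of_le (fx_mono hQG)).trans ((card_fx_next S).trans hm)
  have h1 := card_le_cm (p := S.next.p) S.next.hφ hQp hnφ
  calc Nat.card Q ≤ _ := h1
    _ ≤ b1 * m := Nat.mul_le_mul hP hfx
    _ ≤ b1 * m + 1 := Nat.le_succ _

end Pool.FH.L2aux

namespace Pool.FH

open L2aux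

theorem stmt_L2 (hDB : Stmt_DB) (hVE : Stmt_VE) (hFAITH : Stmt_FAITH) (hREPR : Stmt_REPR) :
    Stmt_L2 := by
  intro p m
  by_cases hp : p.Prime
  swap
  · exact ⟨0, fun S hS => absurd (hS ▸ S.hp.out) hp⟩
  obtain ⟨b2, hb2⟩ := card_Op_le hDB hVE hFAITH hREPR p m hp
  refine ⟨b2 ^ (b2 + 1) * (b2 ^ (b2 + 1)).factorial, ?_⟩
  intro S hS hm
  have h1 : Nat.card (Ft S.next.G) ≤ b2 ^ (b2 + 1) := card_Ft_le (hb2 S hS hm)
  have h2 : Nat.card S.next.G ≤ Nat.card (Ft S.next.G) * (Nat.card (Ft S.next.G)).factorial := by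
    apply card_le_of_cent
    · intro g hg
      exact Ft_nz (Nz.of_mem hg)
    · intro x hx h
      exact cent_Ft S.next.sol hx h
  exact h2.trans (Nat.mul_le_mul h1 (Nat.factorial_le h1))

end Pool.FH
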