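import Pool.Agent.Work.MP_4c212b_al.QMOD

/-!
# Block LIFT: lifting a `p`-invariant configuration to the previous level
-/

set_option autoImplicit false

open Subgroup
open scoped commutatorElement TensorProduct

namespace Pool.FH

namespace LiftAux

/-- A `t`-group is the image of a Sylow subgroup of any preimage. -/
theorem map_sylow_eq {E E' : Type} [Group E] [Finite E] [Group E'] (f : E →* E') {t : ℕ}
    [Fact t.Prime] {R L : Subgroup E} {X : Subgroup E'} (hR : ¬ t ∣ R.relIndex L)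
    (hX : IsPGroup t X) (hL : L.map f = X) (hRL : R ≤ L) : R.map f = X := by
  subst hL
  apply le_antisymm (map_mono hRL)
  let g := f.subgroupMap L
  have hg : Function.Surjective g := f.subgroupMap_surjective L
  let K := (R.subgroupOf L).map g
  have h1 : K.index ∣ R.relIndex L := index_map_dvd _ hg
  have h2 : ¬ t ∣ K.index := fun h => hR (h.trans h1)
  have : Finite (L.map f) := Finite.of_surjective g hg
  obtain ⟨k, hk⟩ := (IsPGroup.iff_card).1 hX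
  have h3 : K.index ∣ t ^ k := by
    rw [← hk]; exact K.index_dvd_card
  obtain ⟨j, -, hj⟩ := (Nat.dvd_prime_pow Fact.out).1 h3
  have hj0 : j = 0 := by
    by_contra h0
    apply h2
    rw [hj]
    exact dvd_pow_self t h0
  rw [hj0, pow_zero, index_eq_one] at hj
  intro x hx
  have h4 : (⟨x, hx⟩ : L.map f) ∈ K := by rw [hj]; trivial
  obtain ⟨r, hr, hr'⟩ := h4
  exact ⟨r, hr, congrArg Subtype.val hr'⟩

/-- A complement of a normal `s`-subgroup `N` of `P`, containing a given `p`-element. -/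
theorem exists_compl_elt {E : Type} [Group E] [Finite E] {p s n : ℕ} [Fact p.Prime] [Fact s.Prime]
    (hps : p ≠ s) {P N : Subgroup E} (hNP : N ≤ P) (hN : IsPGroup s N) (hn : NzS P N)
    (hind : ¬ s ∣ N.relIndex P) {φ : E} (hφ : φ ^ p ^ n = 1) (hφP : φ ∈ P) :
    ∃ H ≤ P, φ ∈ H ∧ ¬ s ∣ Nat.card H ∧ ∀ x ∈ P, ∃ h ∈ H, ∃ m ∈ N, x = h * m := by
  classical
  let N' : Subgroup P := N.subgroupOf P
  have hNn : N'.Normal := by
    constructor
    intro m hm g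
    rw [mem_subgroupOf] at hm ⊢
    exact hn g g.2 m hm
  have hcard : Nat.card N' = Nat.card N := by
    exact Nat.card_congr (subgroupOfEquivOfLe hNP).toEquiv
  obtain ⟨k, hk⟩ := (IsPGroup.iff_card).1 hN
  have hcop : Nat.Coprime (Nat.card N') N'.index := by
    rw [hcard, hk]
    apply Nat.Coprime.pow_left
    exact (Nat.Prime.coprime_iff_not_dvd Fact.out).2 hind
  obtain ⟨H0, hH0⟩ := exists_left_complement'_of_coprime hcop
  -- a conjugate contains `φ`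
  let φ' : P := ⟨φ, hφP⟩
  have hφ' : φ' ^ p ^ n = 1 := Subtype.ext hφ
  have hq : ¬ p ∣ Nat.card (P ⧸ H0) := by
    have h1 : Nat.card (P ⧸ H0) = Nat.card N' := by
      have h2 := hH0.symm.index_eq_card
      rw [← h2]; rfl
    rw [h1, hcard, hk]
    intro h
    have h1 := (Fact.out : p.Prime).dvd_of_dvd_pow h
    exact hps ((Nat.prime_dvd_prime_iff_eq Fact.out Fact.out).1 h1)
  obtain ⟨a, ha⟩ := (isPGroup_zpowers hφ').nonempty_fixed_point_of_prime_not_dvd_card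
    (P ⧸ H0) hq
  obtain ⟨g, rfl⟩ := QuotientGroup.mk_surjective a
  have ha1 : φ' • (QuotientGroup.mk g : P ⧸ H0) = QuotientGroup.mk g :=
    ha ⟨φ', mem_zpowers φ'⟩
  have ha2 : g⁻¹ * φ' * g ∈ H0 := by
    have h1 : (QuotientGroup.mk (φ' * g) : P ⧸ H0) = QuotientGroup.mk g := ha1
    rw [eq_comm, QuotientGroup.eq] at h1
    rwa [← mul_assoc] at h1
  let H : Subgroup E := (H0.map (MulAut.conj g).toMonoidHom).map P.subtype
  refine ⟨H, ?_, ?_, ?_, ?_⟩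
  · rintro _ ⟨x, -, rfl⟩
    exact x.2
  · refine ⟨φ', ⟨g⁻¹ * φ' * g, ha2, ?_⟩, rfl⟩
    simp [mul_assoc]
  · have h1 : Nat.card H = Nat.card H0 := by
      have h2 : Nat.card H = Nat.card (H0.map (MulAut.conj g).toMonoidHom) :=
        (Nat.card_congr ((H0.map (MulAut.conj g).toMonoidHom).equivMapOfInjective P.subtype
          P.subtype_injective).toEquiv).symm
      have h3 : Nat.card H0 = Nat.card (H0.map (MulAut.conj g).toMonoidHom) :=
        Nat.card_congr (H0.equivMapOfInjective (MulAut.conj g).toMonoidHom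
          (MulAut.conj g).injective).toEquiv
      rw [h2, h3]
    rw [h1, ← hH0.index_eq_card]
    exact hind
  · intro x hx
    have h1 : g⁻¹ * ⟨x, hx⟩ * g ∈ H0 ⊔ N' := by rw [hH0.sup_eq_top]; trivial
    rw [mem_sup_of_normal_right] at h1
    obtain ⟨h, hh, m, hm, hhm⟩ := h1
    refine ⟨_, ⟨g * h * g⁻¹, ⟨h, hh, by simp⟩, rfl⟩, g * m * g⁻¹, hn g g.2 m hm, ?_⟩
    have h2 : (⟨x, hx⟩ : P) = g * (h * m) * g⁻¹ := by rw [hhm]; group
    have h3 := congrArg (fun z : P => (z : E)) h2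
    simp only [coe_mul, coe_inv] at h3
    rw [h3]
    simp only [Subgroup.subtype_apply, coe_mul, coe_inv]
    group

theorem pelt_eq_one {E : Type} [Group E] [Finite E] {s b : ℕ} [Fact s.Prime] {P : Subgroup E}
    (h : ¬ s ∣ Nat.card P) {x : E} (hx : x ∈ P) (hb : x ^ s ^ b = 1) : x = 1 := by
  have h1 : orderOf x ∣ Nat.card P := by
    have := orderOf_dvd_natCard (⟨x, hx⟩ : P)
    rwa [← Subgroup.orderOf_coe] at this
  obtain ⟨j, -, hj⟩ := (Nat.dvd_prime_pow Fact.out).1 (orderOf_dvd_of_pow_eq_one hb)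
  have hj0 : j = 0 := by
    by_contra h0
    exact h ((hj ▸ dvd_pow_self s h0).trans h1)
  rw [hj0, pow_zero] at hj
  exact orderOf_eq_one_iff.1 hj

/-- A minimal `H`-invariant subgroup covering a subspace. -/
theorem min_cover {E : Type} [Group E] [Finite E] {s : ℕ} [Fact s.Prime] {Y0 H : Subgroup E}
    (hH : ¬ s ∣ Nat.card H) (hHY : NzS H Y0) {V : Type} [AddCommGroup V] [Module (ZMod s) V]
    (f : ↥Y0 → V) (hf : ∀ x y, f (x * y) = f x + f y) (hs : Function.Surjective f)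
    (hk : ∀ h ∈ H, ∀ y y' : ↥Y0, (y' : E) = h * y * h⁻¹ → f y = 0 → f y' = 0)
    (U : Submodule (ZMod s) V)
    (hU : ∀ h ∈ H, ∀ y y' : ↥Y0, (y' : E) = h * y * h⁻¹ → f y ∈ U → f y' ∈ U) :
    ∃ Y' ≤ Y0, NzS H Y' ∧ (∀ y : ↥Y0, (y : E) ∈ Y' → f y ∈ U) ∧
      (∀ u ∈ U, ∃ y : ↥Y0, (y : E) ∈ Y' ∧ f y = u) ∧
      (∀ y : ↥Y0, (y : E) ∈ Y' → f y = 0 → (y : E) ∈ Phi s Y') := by
  classical
  have f1 : f 1 = 0 := by
    have h := hf 1 1
    rw [mul_one] at h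
    exact left_eq_add.1 h
  have finv : ∀ y, f y⁻¹ = - f y := by
    intro y
    have h := hf y⁻¹ y
    rw [inv_mul_cancel, f1] at h
    exact eq_neg_of_add_eq_zero_left h.symm
  let A : Set (Subgroup E) := {Y' | Y' ≤ Y0 ∧ NzS H Y' ∧ (∀ y : ↥Y0, (y : E) ∈ Y' → f y ∈ U) ∧
      (∀ u ∈ U, ∃ y : ↥Y0, (y : E) ∈ Y' ∧ f y = u)}
  have hne : A.Nonempty := by
    refine ⟨{ carrier := {y | ∃ hy : y ∈ Y0, f ⟨y, hy⟩ ∈ U}
              mul_mem' := ?_
              one_mem' := ?_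
              inv_mem' := ?_ }, ?_, ?_, ?_, ?_⟩
    · rintro a b ⟨ha, ha'⟩ ⟨hb, hb'⟩
      exact ⟨Y0.mul_mem ha hb, by
        have := hf ⟨a, ha⟩ ⟨b, hb⟩
        rw [show (⟨a * b, Y0.mul_mem ha hb⟩ : ↥Y0) = ⟨a, ha⟩ * ⟨b, hb⟩ from rfl, this]
        exact U.add_mem ha' hb'⟩
    · refine ⟨Y0.one_mem, ?_⟩
      rw [show (⟨1, Y0.one_mem⟩ : ↥Y0) = 1 from rfl, f1]
      exact U.zero_mem
    · rintro a ⟨ha, ha'⟩
      refine ⟨Y0.inv_mem ha, ?_⟩
      rw [show (⟨a⁻¹, Y0.inv_mem ha⟩ : ↥Y0) = ⟨a, ha⟩⁻¹ from rfl, finv]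
      exact U.neg_mem ha'
    · rintro y ⟨hy, -⟩
      exact hy
    · rintro h hh y ⟨hy, hy'⟩
      exact ⟨hHY h hh y hy, hU h hh ⟨y, hy⟩ ⟨h * y * h⁻¹, hHY h hh y hy⟩ rfl hy'⟩
    · rintro y ⟨hy, hy'⟩
      exact hy'
    · intro u hu
      obtain ⟨y, rfl⟩ := hs u
      exact ⟨y, ⟨y.2, hu⟩, rfl⟩
  obtain ⟨Y', hY'⟩ := A.toFinite.exists_minimal hne
  obtain ⟨hA1, hA2, hA3, hA4⟩ := hY'.1
  refine ⟨Y', hA1, hA2, hA3, hA4, ?_⟩
  -- the module `Y'/Φ(Y')`
  let E' := ↥(normalizer (Y' : Set E))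
  let X : Subgroup E' := Y'.subgroupOf (normalizer (Y' : Set E))
  let Z : Subgroup E' := (Phi s Y').subgroupOf (normalizer (Y' : Set E))
  have hXn : X.Normal := normal_in_normalizer
  have hnz : ∀ g : E', Nz (g : E) Y' := by
    intro g x hx
    exact (mem_normalizer_iff.1 g.2 x).1 hx
  have hZn : Z.Normal := by
    constructor
    intro m hm g
    rw [mem_subgroupOf] at hm ⊢
    exact Phi_nz (hnz g) m hm
  have hZX : Z ≤ X := fun x hx => (Phi_le : Phi s Y' ≤ Y') hx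
  have hab : ∀ a ∈ X, ∀ b ∈ X, ⁅a, b⁆ ∈ Z := fun a ha b hb =>
    subset_closure (Or.inl ⟨a, ha, b, hb, rfl⟩)
  have hv : ∀ a ∈ X, a ^ s ∈ Z := fun a ha => subset_closure (Or.inr ⟨a, ha, rfl⟩)
  obtain ⟨V', i1, i2, i3, ρ', f', g1, g2, g3, g4⟩ := stmt_QMOD E' s X Z hZX hab hv
  have g1' : f' 1 = 0 := (g3 1).2 Z.one_mem
  have ginv : ∀ y, f' y⁻¹ = - f' y := by
    intro y
    have h := g2 y⁻¹ y
    rw [inv_mul_cancel, g1'] at h
    exact eq_neg_of_add_eq_zero_left h.symm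
  -- embedding of `Y'`
  let em : ∀ y : E, y ∈ Y' → ↥X := fun y hy => ⟨⟨y, le_normalizer hy⟩, hy⟩
  have em_mul : ∀ a b (ha : a ∈ Y') (hb : b ∈ Y'), em (a * b) (Y'.mul_mem ha hb) =
      em a ha * em b hb := fun a b ha hb => rfl
  have em_surj : ∀ x : ↥X, ∃ y, ∃ hy : y ∈ Y', em y hy = x := by
    rintro ⟨⟨y, hy⟩, hy'⟩
    exact ⟨y, hy', rfl⟩
  -- the submodule of the kernel
  let K0 : AddSubgroup V' :=
    { carrier := {v | ∃ y, ∃ hy : y ∈ Y', f' (em y hy) = v ∧ f ⟨y, hA1 hy⟩ = 0}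
      add_mem' := by
        rintro _ _ ⟨a, ha, rfl, ha'⟩ ⟨b, hb, rfl, hb'⟩
        refine ⟨a * b, Y'.mul_mem ha hb, ?_, ?_⟩
        · rw [em_mul a b ha hb, g2]
        · rw [show (⟨a * b, hA1 (Y'.mul_mem ha hb)⟩ : ↥Y0) = ⟨a, hA1 ha⟩ * ⟨b, hA1 hb⟩ from rfl,
            hf, ha', hb', add_zero]
      zero_mem' := ⟨1, Y'.one_mem, g1', f1⟩
      neg_mem' := by
        rintro _ ⟨a, ha, rfl, ha'⟩
        refine ⟨a⁻¹, Y'.inv_mem ha, ginv (em a ha), ?_⟩
        rw [show (⟨a⁻¹, hA1 (Y'.inv_mem ha)⟩ : ↥Y0) = ⟨a, hA1 ha⟩⁻¹ from rfl, finv, ha',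
          neg_zero] }
  let K : Submodule (ZMod s) V' := AddSubgroup.toZModSubmodule s K0
  have hHE : H ≤ normalizer (Y' : Set E) := Nz.le_normalizer hA2
  let P : Subgroup E' := H.subgroupOf (normalizer (Y' : Set E))
  have hPc : (Nat.card P : ZMod s) ≠ 0 := by
    have h1 : Nat.card P = Nat.card H := Nat.card_congr (subgroupOfEquivOfLe hHE).toEquiv
    rw [h1, Ne, ZMod.natCast_eq_zero_iff]
    exact hH
  -- action
  have hact : ∀ (g : E') (hg : (g : E) ∈ H) (y : E) (hy : y ∈ Y'),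
      ρ' g (f' (em y hy)) = f' (em (g * y * (g : E)⁻¹) (hA2 g hg y hy)) := fun g hg y hy =>
    (g4 g (em y hy) (em (g * y * (g : E)⁻¹) (hA2 g hg y hy)) rfl).symm
  have hKinv : InvS ρ' P K := by
    rintro g hg _ ⟨y, hy, rfl, hy'⟩
    rw [hact g hg y hy]
    exact ⟨_, hA2 g hg y hy, rfl, hk g hg ⟨y, hA1 hy⟩ ⟨g * y * (g : E)⁻¹, _⟩ rfl hy'⟩
  obtain ⟨U', -, hU1, hU2, hU3⟩ := exists_compl (ρ := ρ') hPc (W := ⊤) (U := K)
    (fun g _ w _ => Submodule.mem_top) hKinv le_top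
  let W' : Subgroup E :=
    { carrier := {y | ∃ hy : y ∈ Y', f' (em y hy) ∈ U'}
      mul_mem' := by
        rintro a b ⟨ha, ha'⟩ ⟨hb, hb'⟩
        refine ⟨Y'.mul_mem ha hb, ?_⟩
        rw [em_mul a b ha hb, g2]
        exact U'.add_mem ha' hb'
      one_mem' := ⟨Y'.one_mem, by
        rw [show em 1 Y'.one_mem = 1 from rfl, g1']; exact U'.zero_mem⟩
      inv_mem' := by
        rintro a ⟨ha, ha'⟩
        refine ⟨Y'.inv_mem ha, ?_⟩
        rw [show em a⁻¹ (Y'.inv_mem ha) = (em a ha)⁻¹ from rfl, ginv]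
        exact U'.neg_mem ha' }
  have hW'Y : W' ≤ Y' := by
    rintro y ⟨hy, -⟩
    exact hy
  have hW'A : W' ∈ A := by
    refine ⟨hW'Y.trans hA1, ?_, fun y hy => hA3 y (hW'Y hy), ?_⟩
    · rintro h hh y ⟨hy, hy'⟩
      have h1 := hact ⟨h, hHE hh⟩ hh y hy
      have h2 := hU1 ⟨h, hHE hh⟩ hh _ hy'
      rw [h1] at h2
      exact ⟨hA2 h hh y hy, h2⟩
    · intro u hu
      obtain ⟨y, hy, rfl⟩ := hA4 u hu
      have h1 : f' (em y hy) ∈ K ⊔ U' := by rw [hU2]; trivial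
      rw [Submodule.mem_sup] at h1
      obtain ⟨_, ⟨x, hx, rfl, hx'⟩, u', hu', h2⟩ := h1
      refine ⟨⟨x⁻¹ * y, hA1 (Y'.mul_mem (Y'.inv_mem hx) hy)⟩,
        ⟨Y'.mul_mem (Y'.inv_mem hx) hy, ?_⟩, ?_⟩
      · rw [show em (x⁻¹ * y) (Y'.mul_mem (Y'.inv_mem hx) hy) = (em x hx)⁻¹ * em y hy from rfl,
          g2, ginv, ← h2, neg_add_cancel_left]
        exact hu'
      · rw [show (⟨x⁻¹ * y, hA1 (Y'.mul_mem (Y'.inv_mem hx) hy)⟩ : ↥Y0) =
          ⟨x, hA1 hx⟩⁻¹ * y from rfl, hf, finv, hx', neg_zero, zero_add]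
  have hmin : Y' ≤ W' := hY'.2 hW'A hW'Y
  intro y hy hy0
  obtain ⟨hy1, hy2⟩ := hmin hy
  have h1 : f' (em y hy) ∈ K ⊓ U' := ⟨⟨y, hy, rfl, hy0⟩, hy2⟩
  rw [hU3, Submodule.mem_bot, g3] at h1
  exact h1

end LiftAux

open LiftAux in
theorem stmt_LIFT : Stmt_LIFT := by
  intro S s _ M t P1 X U ht hts hsp hφ hcP hP1 hXP hXG hX hNX hU
  have _ : Fact t.Prime := ⟨ht⟩
  have _ : Fact S.p.Prime := S.hp
  let N : Subgroup S.Γ := Op s S.G
  let P : Subgroup S.Γ := P1.comap S.pr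
  have hNF : N ≤ Ft S.G := Op_le_Ft s S.G
  have hker : ∀ x : S.Γ, S.pr x = 1 ↔ x ∈ Ft S.G := by
    intro x
    rw [← S.ker_pr, MonoidHom.mem_ker]
  have hNP : N ≤ P := by
    intro x hx
    rw [mem_comap, (hker x).2 (hNF hx)]
    exact P1.one_mem
  have hNs : IsPGroup s N := Op_isP s S.G
  have hNn : ∀ g, Nz g N := fun g => Op_nz s (Nz.of_normal g S.G)
  have hind : ¬ s ∣ N.relIndex P := by
    intro hd
    let N' : Subgroup P := N.subgroupOf P
    have hN'n : N'.Normal := by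
      constructor
      intro m hm g
      rw [mem_subgroupOf] at hm ⊢
      exact hNn g m hm
    obtain ⟨x, hx⟩ := exists_prime_orderOf_dvd_card' (G := P ⧸ N') s hd
    obtain ⟨x, rfl⟩ := QuotientGroup.mk_surjective x
    have hx1 : ((QuotientGroup.mk' N') x) ^ s ^ 1 = 1 := by
      rw [pow_one]
      have := pow_orderOf_eq_one (QuotientGroup.mk x : P ⧸ N')
      rw [hx] at this
      exact this
    obtain ⟨u, hu, b, hb⟩ := lift_pelt (QuotientGroup.mk' N') Fact.out hx1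
    have h1 : S.pr ((x ^ u : P) : S.Γ) = 1 := by
      apply pelt_eq_one hP1 (x ^ u : P).2 (b := b)
      rw [← map_pow, ← Subgroup.coe_pow, hb, coe_one, map_one]
    have h2 : ((x ^ u : P) : S.Γ) ∈ N :=
      mem_Op_of_mem_Ft ((hker _).1 h1) (n := b) (by rw [← Subgroup.coe_pow, hb, coe_one])
    have h3 : (QuotientGroup.mk' N') (x ^ u) = 1 := (QuotientGroup.eq_one_iff _).2 h2
    rw [hu] at h3
    have h4 : orderOf (QuotientGroup.mk x : P ⧸ N') = 1 := by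
      rw [orderOf_eq_one_iff]; exact h3
    rw [h4] at hx
    exact (Fact.out : s.Prime).one_lt.ne hx
  obtain ⟨H, hHP, hφH, hHs, hHc⟩ := exists_compl_elt (p := S.p) (n := 1) (φ := S.φ) hsp.symm
    hNP hNs (fun g _ => hNn g) hind (by rw [pow_one]; exact S.hφ) hφ
  have hHmap : H.map S.pr = P1 := by
    apply le_antisymm
    · rintro _ ⟨x, hx, rfl⟩
      exact hHP hx
    · intro z hz
      obtain ⟨x, rfl⟩ := S.pr_surjective z
      obtain ⟨h, hh, m, hm, rfl⟩ := hHc x hz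
      refine ⟨h, hh, ?_⟩
      rw [map_mul, (hker m).2 (hNF hm), mul_one]
  -- the Sylow subgroup
  let L : Subgroup S.Γ := H ⊓ X.comap S.pr
  have hXG' : X.comap S.pr ≤ S.G := by
    intro x hx
    obtain ⟨g, hg, hgx⟩ := hXG hx
    have h1 : g⁻¹ * x ∈ Ft S.G := by
      rw [← hker, map_mul, map_inv, inv_mul_eq_one]
      exact hgx
    have h2 := S.G.mul_mem hg (Ft_le _ h1)
    rwa [mul_inv_cancel_left] at h2
  have hLG : L ≤ S.G := inf_le_right.trans hXG'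
  have hLφ : Nz S.φ L := by
    apply Nz.inf (Nz.of_mem hφH)
    intro x hx
    rw [mem_comap] at hx ⊢
    rw [map_mul, map_mul, map_inv]
    exact hNX _ hφ _ hx
  obtain ⟨R, hRL, hR1, hR2, hR3⟩ := exists_sylow_inv1 (p := S.p) (r := t) (n := 1)
    (by rw [pow_one]; exact S.hφ) (S.cop_of_le hLG) hLφ
  have hLX : L.map S.pr = X := by
    apply le_antisymm
    · rintro _ ⟨x, hx, rfl⟩
      exact hx.2
    · intro z hz
      have h1 := hXP hz
      rw [← hHmap] at h1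
      obtain ⟨h, hh, rfl⟩ := h1
      exact ⟨h, ⟨hh, hz⟩, rfl⟩
  have hRX : R.map S.pr = X := map_sylow_eq S.pr hR3 hX hLX hRL
  -- the minimal covering subgroup
  have hHP1 : ∀ h ∈ H, S.pr h ∈ P1 := fun h hh => hHP hh
  obtain ⟨Y', h1, h2, h3, h4, h5⟩ := min_cover (s := s) (Y0 := N) (H := H) hHs
    (fun g _ => hNn g) M.f M.f_mul M.f_surj
    (by
      intro h _ y y' hyy hy
      rw [M.f_equiv h y y' hyy, hy, map_zero]) U
    (by
      intro h hh y y' hyy hy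
      rw [M.f_equiv h y y' hyy]
      exact hU.2.1 _ (hHP1 h hh) _ hy)
  exact ⟨H, R, Y', hφH, hHmap, hRL.trans inf_le_left, hRL.trans hLG, hR1, hR2, hRX, hHs, h1, h2,
    h3, h4, h5⟩

end Pool.FH
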