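import Pool.Agent.Work.MP_4c212b_al.Interface

/-!
# Block NUM
-/

set_option autoImplicit false

namespace Pool.FH

theorem stmt_NUM : Stmt_NUM := by
  intro ι _ s m d hs hd hq
  classical
  obtain ⟨i1, hi1, hmin⟩ := Finset.exists_min_image s m hs
  set v := m i1 with hv
  set x : ι → ℕ := fun i => m i - v with hx
  have hmx : ∀ i ∈ s, m i = x i + v := fun i hi => by
    have := hmin i hi
    simp only [hx]; omega
  set N := s.card with hN
  set S := ∑ i ∈ s, x i with hS
  set Q := ∑ i ∈ s, (x i) ^ 2 with hQ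
  have e1 : d = S + N * v := by
    rw [← hd, Finset.sum_congr rfl hmx, Finset.sum_add_distrib, Finset.sum_const, smul_eq_mul]
  have e2 : ∑ i ∈ s, (m i) ^ 2 = Q + 2 * v * S + N * v ^ 2 := by
    have : ∀ i ∈ s, (m i) ^ 2 = (x i) ^ 2 + 2 * v * x i + v ^ 2 := by
      intro i hi; rw [hmx i hi]; ring
    rw [Finset.sum_congr rfl this, Finset.sum_add_distrib, Finset.sum_add_distrib,
      Finset.sum_const, smul_eq_mul, ← Finset.mul_sum]
  have e3 : N * Q + 1 = S ^ 2 + N := by
    rw [e1, e2] at hq
    have : N * (Q + 2 * v * S + N * v ^ 2) + 1 = N * Q + 1 + (2 * N * v * S + N ^ 2 * v ^ 2) := by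
      ring
    have h2 : (S + N * v) ^ 2 + N = S ^ 2 + N + (2 * N * v * S + N ^ 2 * v ^ 2) := by ring
    rw [this, h2] at hq
    exact Nat.add_right_cancel hq
  set T := s.filter (fun i => x i ≠ 0) with hT
  have hTs : T ⊆ s := Finset.filter_subset _ _
  have hST : S = ∑ i ∈ T, x i := by
    rw [hS, hT, Finset.sum_filter]
    apply Finset.sum_congr rfl
    intro i hi
    split_ifs with h
    · rfl
    · push Not at h; exact h
  have hQT : Q = ∑ i ∈ T, (x i) ^ 2 := by
    rw [hQ, hT, Finset.sum_filter]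
    apply Finset.sum_congr rfl
    intro i hi
    split_ifs with h
    · rfl
    · push Not at h; rw [h]; rfl
  set n := T.card with hn
  have hCS : S ^ 2 ≤ n * Q := by
    rw [hST, hQT]
    exact_mod_cast sq_sum_le_card_mul_sum_sq (s := T) (f := x)
  have hQn : n ≤ Q := by
    rw [hQT, hn, Finset.card_eq_sum_ones]
    apply Finset.sum_le_sum
    intro i hi
    have : x i ≠ 0 := (Finset.mem_filter.1 hi).2
    exact Nat.one_le_iff_ne_zero.2 (pow_ne_zero 2 this)
  have hi1T : i1 ∉ T := by
    intro h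
    have := (Finset.mem_filter.1 h).2
    apply this
    simp only [hx, hv]; omega
  have hnN : n < N := by
    apply Finset.card_lt_card
    refine ⟨hTs, fun h => hi1T (h hi1)⟩
  obtain ⟨c, hc⟩ : ∃ c, N = n + (c + 1) := ⟨N - n - 1, by omega⟩
  -- (c+1) Q <= N - 1
  have h4 : (c + 1) * Q ≤ n + c := by
    have : (n + (c + 1)) * Q + 1 ≤ n * Q + (n + (c + 1)) := by
      rw [← hc, e3]
      exact Nat.add_le_add_right hCS _
    nlinarith
  rcases Nat.eq_zero_or_pos n with h0 | hpos
  · -- all equal
    have hT0 : T = ∅ := Finset.card_eq_zero.1 h0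
    have hQ0 : Q = 0 := by rw [hQT, hT0, Finset.sum_empty]
    have hS0 : S = 0 := by rw [hST, hT0, Finset.sum_empty]
    rw [hQ0, hS0] at e3
    have hN1 : N = 1 := by simpa using e3.symm
    obtain ⟨i0, hi0⟩ := Finset.card_eq_one.1 hN1
    refine ⟨i0, by rw [hi0]; exact Finset.mem_singleton_self _, m i0 + 1, ?_, Or.inr rfl⟩
    intro i hi hne
    rw [hi0, Finset.mem_singleton] at hi
    exact absurd hi hne
  · obtain ⟨k, hk⟩ : ∃ k, n = k + 1 := ⟨n - 1, by omega⟩
    have h5 : Q ≤ n ∧ c * k = 0 := by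
      have h6 : (c + 1) * n ≤ (c + 1) * Q := Nat.mul_le_mul_left _ hQn
      have h7 : (c + 1) * n ≤ n + c := h6.trans h4
      have h8 : c * k = 0 := by
        rw [hk] at h7
        nlinarith
      refine ⟨?_, h8⟩
      have h9 : (c + 1) * Q ≤ (c + 1) * n := by
        calc (c + 1) * Q ≤ n + c := h4
          _ ≤ (c + 1) * n := by
            rw [hk]; nlinarith
      exact Nat.le_of_mul_le_mul_left h9 (Nat.succ_pos c)
    have hQeq : Q = n := le_antisymm h5.1 hQn
    have hone : ∀ i ∈ T, x i = 1 := by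
      have hsum : ∑ i ∈ T, ((x i) ^ 2 - 1) = 0 := by
        have h10 : ∑ i ∈ T, ((x i) ^ 2 - 1) + ∑ i ∈ T, 1 = ∑ i ∈ T, (x i) ^ 2 := by
          rw [← Finset.sum_add_distrib]
          apply Finset.sum_congr rfl
          intro i hi
          have : x i ≠ 0 := (Finset.mem_filter.1 hi).2
          have : 1 ≤ (x i) ^ 2 := Nat.one_le_iff_ne_zero.2 (pow_ne_zero 2 this)
          omega
        rw [← hQT, hQeq, ← Finset.card_eq_sum_ones, ← hn] at h10
        omega
      intro i hi
      have h11 := Finset.sum_eq_zero_iff.1 hsum i hi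
      have h12 : x i ≠ 0 := (Finset.mem_filter.1 hi).2
      have h13 : (x i) ^ 2 ≤ 1 := by omega
      have h14 : x i ≤ 1 := by
        by_contra hcon
        push Not at hcon
        have : 2 ^ 2 ≤ (x i) ^ 2 := Nat.pow_le_pow_left hcon 2
        omega
      omega
    have hzero : ∀ i ∈ s, i ∉ T → x i = 0 := by
      intro i hi hiT
      by_contra h
      exact hiT (Finset.mem_filter.2 ⟨hi, h⟩)
    rcases Nat.mul_eq_zero.1 h5.2 with hc0 | hk0
    · -- one index outside `T`
      refine ⟨i1, hi1, v + 1, ?_, Or.inr rfl⟩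
      intro i hi hne
      have hcard : (s \ T).card = 1 := by
        rw [Finset.card_sdiff_of_subset hTs, ← hN, ← hn, hc, hc0]; omega
      obtain ⟨j, hj⟩ := Finset.card_eq_one.1 hcard
      have hi1j : i1 = j := by
        have : i1 ∈ s \ T := Finset.mem_sdiff.2 ⟨hi1, hi1T⟩
        rw [hj, Finset.mem_singleton] at this; exact this
      have hiT : i ∈ T := by
        by_contra h
        have : i ∈ s \ T := Finset.mem_sdiff.2 ⟨hi, h⟩
        rw [hj, Finset.mem_singleton] at this
        exact hne (this.trans hi1j.symm)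
      rw [hmx i hi, hone i hiT, add_comm]
    · -- `T` is a singleton
      have hT1 : T.card = 1 := by rw [← hn, hk, hk0]
      obtain ⟨j, hj⟩ := Finset.card_eq_one.1 hT1
      have hjT : j ∈ T := by rw [hj]; exact Finset.mem_singleton_self _
      refine ⟨j, hTs hjT, v, ?_, Or.inl ?_⟩
      · intro i hi hne
        rw [hmx i hi, hzero i hi, zero_add]
        intro h
        rw [hj, Finset.mem_singleton] at h
        exact hne h
      · rw [hmx j (hTs hjT), hone j hjT, add_comm]

end Pool.FH
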