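import Pool.Agent.Work.MP_4c212b_al.Interface

/-!
# Block P (Lemma P)
-/

set_option autoImplicit false

open Subgroup
open scoped commutatorElement

namespace Pool.FH

namespace PP

variable {E : Type} [Group E] [Finite E]

/-- A subgroup from closure under multiplication in a finite group. -/
def ofMul (s : Set E) (h1 : (1 : E) ∈ s) (hm : ∀ a ∈ s, ∀ b ∈ s, a * b ∈ s) : Subgroup E where
  carrier := s
  one_mem' := h1
  mul_mem' := fun ha hb => hm _ ha _ hb
  inv_mem' := by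
    intro x hx
    have h : ∀ n : ℕ, x ^ n ∈ s := by
      intro n
      induction n with
      | zero => simpa using h1
      | succ n ih => rw [pow_succ]; exact hm _ ih _ hx
    have h2 : x ^ (orderOf x - 1) = x⁻¹ := by
      have h1 : 0 < orderOf x := orderOf_pos x
      rw [eq_inv_iff_mul_eq_one, ← pow_succ]
      rw [Nat.sub_add_cancel h1, pow_orderOf_eq_one]
    change x⁻¹ ∈ s
    rw [← h2]
    exact h _

/-- Elements normalising `X` and acting trivially on `X/N`. -/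
def CC (X N : Subgroup E) : Subgroup E :=
  ofMul {c | Nz c X ∧ ∀ x ∈ X, ⁅c, x⁆ ∈ N} ⟨Nz.one X, fun x _ => by simp⟩ (by
    rintro a ⟨ha, ha'⟩ b ⟨hb, hb'⟩
    refine ⟨ha.mul hb, fun x hx => ?_⟩
    have h1 := N.mul_mem (ha' _ (hb x hx)) (hb' x hx)
    have h2 : ⁅a, b * x * b⁻¹⁆ * ⁅b, x⁆ = ⁅a * b, x⁆ := by
      simp only [commutatorElement_def]; group
    rwa [h2] at h1)

theorem mem_CC {X N : Subgroup E} {c : E} :
    c ∈ CC X N ↔ Nz c X ∧ ∀ x ∈ X, ⁅c, x⁆ ∈ N := Iff.rfl

theorem CC_nz {X N : Subgroup E} {g : E} (hX : Nz g X) (hN : Nz g N) : Nz g (CC X N) := by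
  rintro c ⟨hc, hc'⟩
  refine ⟨(hX.mul hc).mul hX.inv, fun x hx => ?_⟩
  have h1 : g⁻¹ * x * g ∈ X := by simpa using hX.inv x hx
  have h2 := hN _ (hc' _ h1)
  have h3 : g * ⁅c, g⁻¹ * x * g⁆ * g⁻¹ = ⁅g * c * g⁻¹, x⁆ := by
    simp only [commutatorElement_def]; group
  rwa [h3] at h2

-- MARK -/
omit [Finite E] in
theorem cm_le_of_mem {S C : Subgroup E} {z : E} (hz : z ∈ C) (hS : NzS S C) : cm S z ≤ C := by
  unfold cm
  rw [Subgroup.commutator_le]
  intro s hs w hw
  have hw' : w ∈ C := (zpowers_le.2 hz) hw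
  rw [commutatorElement_def]
  exact C.mul_mem (hS s hs w hw') (C.inv_mem hw')

end PP

open PP in
/-- **P** -/
theorem stmt_P : Stmt_P := by
  intro E _ _ p t u φ Q Y K N0 hQY hN0 hHYP α act act_one act_mul Ω hφΩ hQΩ hYΩ hN0Ω hK
  obtain ⟨hgen, hTP⟩ := hHYP
  have hp : Fact p.Prime := ⟨hQY.hp⟩
  have ht : Fact t.Prime := ⟨hQY.ht⟩
  have hu : Fact u.Prime := ⟨hQY.hu⟩
  have inv_act : ∀ (g : E) (a : α), act g⁻¹ (act g a) = a := by
    intro g a; rw [← act_mul, inv_mul_cancel, act_one]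
  have act_inv : ∀ (g : E) (a : α), act g (act g⁻¹ a) = a := by
    intro g a; rw [← act_mul, mul_inv_cancel, act_one]
  have eq_inv : ∀ (g : E) (a b : α), act g a = b → act g⁻¹ b = a := by
    rintro g a _ rfl; exact inv_act g a
  have hKY : K ≤ Y := fun x hx => (mem_fx.1 (hQY.hK hx)).1
  -- the stabiliser
  let St : α → Subgroup E := fun a =>
    { carrier := {x | x ∈ Y ∧ act x a = a}
      one_mem' := ⟨Y.one_mem, act_one a⟩
      mul_mem' := by
        rintro x y ⟨hx, hx'⟩ ⟨hy, hy'⟩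
        exact ⟨Y.mul_mem hx hy, by rw [act_mul, hy', hx']⟩
      inv_mem' := by
        rintro x ⟨hx, hx'⟩
        exact ⟨Y.inv_mem hx, eq_inv _ _ _ hx'⟩ }
  have mem_St : ∀ {a x}, x ∈ St a ↔ x ∈ Y ∧ act x a = a := fun {a x} => Iff.rfl
  let Ma : α → Subgroup E := fun a => St a ⊔ Phi t Y
  have hPhi : ∀ a, Phi t Y ≤ Ma a := fun a => le_sup_right
  have hSt : ∀ a, St a ≤ Ma a := fun a => le_sup_left
  have hMY : ∀ a, Ma a ≤ Y := fun a => sup_le (fun x hx => hx.1) Phi_le
  -- commutators of Y lie in Phi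
  have hcomm : ∀ a ∈ Y, ∀ b ∈ Y, ⁅a, b⁆ ∈ Phi t Y := fun a ha b hb =>
    subset_closure (Or.inl ⟨a, ha, b, hb, rfl⟩)
  have hnY : ∀ a, NzS Y (Ma a) := by
    intro a y hy x hx
    have h1 := (Ma a).mul_mem (hPhi a (hcomm y hy x (hMY a hx))) hx
    have h2 : ⁅y, x⁆ * x = y * x * y⁻¹ := by simp only [commutatorElement_def]; group
    rwa [h2] at h1
  -- transport
  have hMconj : ∀ (g : E) (a : α), Nz g Y → ∀ x ∈ Ma a, g * x * g⁻¹ ∈ Ma (act g a) := by
    intro g a hg x hx
    have h1 : Ma a ≤ (Ma (act g a)).comap (MulAut.conj g).toMonoidHom := by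
      apply sup_le
      · rintro z ⟨hz, hz'⟩
        refine hSt _ ⟨hg z hz, ?_⟩
        change act (g * z * g⁻¹) (act g a) = act g a
        rw [act_mul, inv_act, act_mul, hz']
      · intro z hz
        exact hPhi _ (Phi_nz hg z hz)
    exact h1 hx
  have hMblock : ∀ (y : E) (a : α), y ∈ Y → Ma (act y a) ≤ Ma a := by
    intro y a hy x hx
    have h1 := hMconj y⁻¹ (act y a) (Nz.of_mem (Y.inv_mem hy)) x hx
    rw [inv_act] at h1
    have h2 := hnY a y hy _ h1
    simpa [mul_assoc] using h2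
  -- main claim
  have main : ∀ b ∈ Ω, K ≤ Ma b := by
    intro b hb
    by_cases hmv : ∃ y ∈ Y, act φ (act y b) ≠ act y b
    · obtain ⟨y, hy, hne⟩ := hmv
      intro x hx
      exact hMblock y b hy (hSt _ ⟨hKY hx, hK _ (hYΩ y hy b hb) hne x hx⟩)
    · push Not at hmv
      have hφb : act φ b = b := by simpa [act_one] using hmv 1 Y.one_mem
      let S : Subgroup E := ofMul {s | s ∈ Q ∧ ∃ y ∈ Y, act s b = act y b}
        ⟨Q.one_mem, 1, Y.one_mem, rfl⟩ (by
          rintro s ⟨hs, y, hy, hsy⟩ s' ⟨hs', y', hy', hsy'⟩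
          refine ⟨Q.mul_mem hs hs', s * y' * s⁻¹ * y, Y.mul_mem (hQY.nQY s hs y' hy') hy, ?_⟩
          rw [act_mul, hsy', act_mul (s * y' * s⁻¹), ← hsy, ← act_mul, ← act_mul]
          congr 1
          group)
      have mem_S : ∀ {s}, s ∈ S ↔ s ∈ Q ∧ ∃ y ∈ Y, act s b = act y b := fun {s} => Iff.rfl
      have hSn : ∀ s ∈ S, Nz s (Ma b) := by
        rintro s ⟨hs, y, hy, hsy⟩ x hx
        have h1 := hMconj s b (hQY.nQY s hs) x hx
        rw [hsy] at h1
        exact hMblock y b hy h1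
      have hφM : Nz φ (Ma b) := by
        intro x hx
        have h1 := hMconj φ b hQY.nY x hx
        rwa [hφb] at h1
      have hφc : ∀ y ∈ Y, ⁅φ, y⁆ ∈ Ma b := by
        intro y hy
        refine hSt b ⟨?_, ?_⟩
        · rw [commutatorElement_def]
          exact Y.mul_mem (hQY.nY y hy) (Y.inv_mem hy)
        · rw [commutatorElement_def, act_mul, act_mul, act_mul]
          have h1 := hmv y⁻¹ (Y.inv_mem hy)
          have h2 := eq_inv _ _ _ h1
          rw [h2, act_inv, hφb]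
      apply hTP S (Ma b) (fun s hs => hs.1)
      · rintro s ⟨hs, y, hy, hsy⟩
        refine ⟨hQY.nQ s hs, φ * y * φ⁻¹, hQY.nY y hy, ?_⟩
        have h2 := eq_inv _ _ _ hφb
        rw [act_mul, act_mul, h2, hsy, act_mul, act_mul, h2]
      · intro n hn
        exact hSt b ⟨hN0 hn, hN0Ω n hn b hb⟩
      · exact hPhi b
      · exact hMY b
      · exact hφc
      · intro c hc
        have h1 : cm S φ ≤ CC Y (Ma b) := by
          apply cm_le_of_mem (mem_CC.2 ⟨hQY.nY, hφc⟩)
          intro s hs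
          exact CC_nz (hQY.nQY s hs.1) (hSn s hs)
        exact (h1 hc).2
      · intro g hg hgS k hk
        -- K lies in the group of `g⁻¹ b`
        have hgi : act g⁻¹ b ∈ Ω := hQΩ _ (Q.inv_mem hg) b hb
        by_cases hmv2 : ∃ y ∈ Y, act φ (act y (act g⁻¹ b)) ≠ act y (act g⁻¹ b)
        · obtain ⟨y, hy, hne⟩ := hmv2
          have h1 : k ∈ Ma (act g⁻¹ b) :=
            hMblock y _ hy (hSt _ ⟨hKY hk, hK _ (hYΩ y hy _ hgi) hne k hk⟩)
          have h2 := hMconj g _ (hQY.nQY g hg) k h1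
          rwa [act_inv] at h2
        · exfalso
          push Not at hmv2
          have h1 : act φ (act g⁻¹ b) = act g⁻¹ b := by
            simpa [act_one] using hmv2 1 Y.one_mem
          have hSp : ¬ p ∣ Nat.card S := fun h =>
            not_dvd_card_of_isPGroup hQY.hpu hQY.hQ (h.trans (card_dvd_of_le (fun s hs => hs.1)))
          have hφS : Nz φ S := by
            rintro s ⟨hs, y, hy, hsy⟩
            refine ⟨hQY.nQ s hs, φ * y * φ⁻¹, hQY.nY y hy, ?_⟩
            have h2 := eq_inv _ _ _ hφb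
            rw [act_mul, act_mul, h2, hsy, act_mul, act_mul, h2]
          obtain ⟨n, hn, hnc⟩ := cp_fix1 hQY.hφ hSp hφS (g := g⁻¹) (by
            refine ⟨Q.mul_mem (Q.inv_mem (Q.inv_mem hg)) (hQY.nQ _ (Q.inv_mem hg)), 1,
              Y.one_mem, ?_⟩
            have h2 := eq_inv _ _ _ hφb
            rw [act_mul, act_mul, act_mul, h2, h1, act_one, inv_act])
          apply hgS n hn (n⁻¹ * g)
          · rw [mem_fx]
            refine ⟨Q.mul_mem (Q.inv_mem hn.1) hg, ?_⟩
            have h3 : n⁻¹ * g = (g⁻¹ * n)⁻¹ := by group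
            rw [h3]
            have h4 : Commute φ (g⁻¹ * n) := hnc
            exact h4.inv_right.eq
          · group
  -- conclusion
  intro y hy a ha
  have h1 : Y ≤ St a ⊔ Phi t Y := by
    apply hgen.trans
    apply sup_le
    · unfold gen
      rw [closure_le]
      rintro _ ⟨g, hg, k, hk, rfl⟩
      have h2 := hMconj g _ (hQY.nQY g hg) k (main (act g⁻¹ a) (hQΩ _ (Q.inv_mem hg) a ha) hk)
      rwa [act_inv] at h2
    · intro n hn
      exact hSt a ⟨hN0 hn, hN0Ω n hn a ha⟩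
  have h2 := Phi_gen hQY.hY (fun x hx => hx.1 : St a ≤ Y) h1
  rw [← h2] at hy
  exact hy.2

end Pool.FH
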