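import Pool.Agent.Work.MP_4c212b_al.NZEx
import Pool.Agent.Work.MP_4c212b_al.P

/-!
# Block NZ
-/

set_option autoImplicit false
set_option linter.unusedSectionVars false
set_option linter.unusedVariables false

open Subgroup
open scoped commutatorElement TensorProduct

namespace Pool.FH

namespace NZAux

open StepAux

section

variable {k E V : Type} [Field k] [Group E] [Finite E] [AddCommGroup V] [Module k V]
variable {ρ : Representation k E V}

theorem zmod2_11 : (1 : ZMod 2) + 1 = 0 := by decide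

theorem gen_mod_kr {Y C N0 : Subgroup E} {W : Submodule k V} (hCY : C ≤ Y) (hYW : InvS ρ Y W)
    (hN0 : Triv ρ N0 W) (h : Y ≤ C ⊔ N0) : Y ≤ C ⊔ kr ρ Y W := by
  let D : Subgroup E :=
    { carrier := {g | ∃ c ∈ C, ∀ w ∈ W, ρ g w = ρ c w}
      mul_mem' := by
        rintro a b ⟨c, hc, ha⟩ ⟨d, hd, hb⟩
        refine ⟨c * d, C.mul_mem hc hd, fun w hw => ?_⟩
        rw [StepAux.rho_mul_apply, StepAux.rho_mul_apply, hb w hw,
          ha _ (hYW d (hCY hd) w hw)]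
      one_mem' := ⟨1, C.one_mem, fun w _ => rfl⟩
      inv_mem' := by
        rintro a ⟨c, hc, ha⟩
        refine ⟨c⁻¹, C.inv_mem hc, fun w hw => ?_⟩
        have h1 := ha _ (hYW _ (Y.inv_mem (hCY hc)) w hw)
        rw [rho_apply_inv] at h1
        conv_lhs => rw [← h1]
        rw [rho_inv_apply] }
  have hD : Y ≤ D := h.trans (sup_le (fun c hc => ⟨c, hc, fun w _ => rfl⟩)
    (fun g hg => ⟨1, C.one_mem, fun w hw => by rw [hN0 g hg w hw, StepAux.rho_one_apply]⟩))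
  intro y hy
  obtain ⟨c, hc, hyc⟩ := hD hy
  have e : y = c * (c⁻¹ * y) := by group
  rw [e]
  refine (C ⊔ kr ρ Y W).mul_mem (le_sup_left (α := Subgroup E) hc)
    (le_sup_right (α := Subgroup E) ⟨Y.mul_mem (Y.inv_mem (hCY hc)) hy, fun w hw => ?_⟩)
  rw [StepAux.rho_mul_apply, hyc w hw, rho_inv_apply]

theorem scal_of_ab [IsAlgClosed k] [FiniteDimensional k V] {p t : ℕ} [Fact p.Prime]
    [Fact t.Prime] {φ : E} {Y H : Subgroup E} {W : Submodule k V} (hφ : φ ^ p = 1)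
    (htk : (t : k) ≠ 0) (hY : IsPGroup t Y) (nφH : Nz φ H) (hHφ : H ≤ cm H φ)
    (irr : Irr ρ ((Y : Set E) ∪ (H : Set E) ∪ {φ}) W)
    (hC : ∀ v ∈ W, ρ φ v = v → sm ρ (cm Y φ) v = 0 → v = 0)
    (hYg : Y ≤ ⁅Y, H⁆ ⊔ kr ρ Y W) {X : Subgroup E} (hXY : X ≤ Y) (nYX : NzS Y X)
    (nHX : NzS H X) (nφX : Nz φ X) (hab : ∀ a ∈ X, ∀ b ∈ X, ⁅a, b⁆ ∈ kr ρ Y W) :
    ∀ x ∈ X, Scal ρ x W := by
  have hYW : InvS ρ Y W := fun g hg => irr.2.1 g (Or.inl (Or.inl hg))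
  have hHW : InvS ρ H W := fun g hg => irr.2.1 g (Or.inl (Or.inr hg))
  have hφW : Inv ρ φ W := irr.2.1 φ (Or.inr rfl)
  have hXc : (Nat.card X : k) ≠ 0 := card_ne_zero_of_isPGroup (hY.to_le hXY) htk
  have hXW : InvS ρ X W := fun g hg => hYW g (hXY hg)
  have hABX : AbOn ρ X W := fun x hx y hy => of_comm_mem_kr (hXW x hx) (hXW y hy) (hab x hx y hy)
  have hsup := wts_sup hXc hXW hABX
  have hfix : ∀ U ∈ wts ρ X W, U.map (ρ φ) = U := by
    intro U hU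
    by_contra hmov
    obtain ⟨v, hvW, hv0, hv1, hv2⟩ := fixed_of_moved hφ hXY hXc nφX hφW hU hmov
    exact hv0 (hC v hvW hv1 hv2)
  let D : Subgroup E :=
    { carrier := {g | ∀ U ∈ wts ρ X W, U.map (ρ g) = U}
      mul_mem' := by
        intro a b ha hb U hU
        rw [map_mul_rho, hb U hU, ha U hU]
      one_mem' := fun U _ => map_one_rho U
      inv_mem' := by
        intro a ha U hU
        exact map_inv_of_fixed (ha U hU) }
  have hHD : H ≤ D := by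
    refine hHφ.trans (cm_le_of' nφH ?_)
    intro h hh U hU
    have h1 := hfix _ (wts_map (nHX _ (H.inv_mem hh)) (hHW _ (H.inv_mem hh)) hU)
    rw [commutatorElement_def, map_mul_rho, map_inv_of_fixed (hfix U hU), map_mul_rho,
      map_mul_rho, h1, ← map_mul_rho, mul_inv_cancel, map_one_rho]
  have hYHD : ⁅Y, H⁆ ≤ D := by
    rw [commutator_le]
    intro y hy h hh U hU
    have h1 := hHD hh _ (wts_map (nYX _ (Y.inv_mem hy)) (hYW _ (Y.inv_mem hy)) hU)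
    rw [commutatorElement_def, map_mul_rho, hHD (H.inv_mem hh) U hU, map_mul_rho,
      map_mul_rho, h1, ← map_mul_rho, mul_inv_cancel, map_one_rho]
  have hYD : Y ≤ D := hYg.trans (sup_le hYHD (fun n hn U hU =>
    map_of_triv fun w hw => hn.2 w (StepAux.wts_le hU hw)))
  obtain ⟨U, hU⟩ : (wts ρ X W).Nonempty := by
    by_contra h
    rw [Set.not_nonempty_iff_eq_empty] at h
    rw [h, sSup_empty] at hsup
    exact irr.1 hsup.symm
  have hUW : U = W := by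
    refine irr.2.2 U (StepAux.wts_le hU) hU.1 ?_
    rintro g ((hg | hg) | hg)
    · exact inv_of_map (hYD hg U hU)
    · exact inv_of_map (hHD hg U hU)
    · rw [Set.mem_singleton_iff] at hg
      subst hg
      exact inv_of_map (hfix U hU)
  intro x hx
  rw [← hUW]; exact wts_scal hU hx

/-- the elements of `Y` commuting with `c` on `W` -/
def cw (ρ : Representation k E V) (Y : Subgroup E) (W : Submodule k V) (hYW : InvS ρ Y W)
    (c : E) : Subgroup E where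
  carrier := {x | x ∈ Y ∧ ∀ w ∈ W, ρ c (ρ x w) = ρ x (ρ c w)}
  mul_mem' := by
    rintro a b ⟨ha, ha'⟩ ⟨hb, hb'⟩
    refine ⟨Y.mul_mem ha hb, fun w hw => ?_⟩
    rw [StepAux.rho_mul_apply, StepAux.rho_mul_apply, ha' _ (hYW b hb w hw), hb' w hw]
  one_mem' := ⟨Y.one_mem, fun w _ => by rw [StepAux.rho_one_apply, StepAux.rho_one_apply]⟩
  inv_mem' := by
    rintro a ⟨ha, ha'⟩
    refine ⟨Y.inv_mem ha, fun w hw => ?_⟩
    have h1 := ha' (ρ a⁻¹ w) (hYW _ (Y.inv_mem ha) w hw)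
    rw [rho_apply_inv] at h1
    rw [h1, rho_inv_apply]

theorem comm_cm {Y X : Subgroup E} {φ c : E} {W : Submodule k V} (hXY : X ≤ Y) (hc : c ∈ Y)
    (hcφ : φ * c = c * φ) (nX : Nz φ X) (hYW : InvS ρ Y W) (hφW : Inv ρ φ W)
    (hs : ∀ x ∈ X, Scal ρ ⁅c, x⁆ W) : cm X φ ≤ cw ρ Y W hYW c := by
  refine cm_le_of' nX ?_
  intro x hx
  have hφx : φ * x * φ⁻¹ ∈ X := nX x hx
  have e : ⁅x, φ⁆ = x * (φ * x * φ⁻¹)⁻¹ := by
    rw [commutatorElement_def]; group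
  refine ⟨comm_mem_self' (hXY hx) (hXY hφx) e, ?_⟩
  obtain ⟨s, hs⟩ := hs x hx
  have P1 : ∀ w ∈ W, ρ c (ρ x w) = s • ρ x (ρ c w) := by
    intro w hw
    rw [← hs _ (hYW x (hXY hx) _ (hYW c hc w hw)), ← StepAux.rho_mul_apply,
      ← StepAux.rho_mul_apply, ← StepAux.rho_mul_apply]
    congr 2
    rw [commutatorElement_def]; group
  have P2 : ∀ w ∈ W, ρ c (ρ (φ * x * φ⁻¹) w) = s • ρ (φ * x * φ⁻¹) (ρ c w) := by
    intro w hw
    have h1 := congrArg (ρ φ) (P1 _ (hφW.inv w hw))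
    rw [map_smul, ← StepAux.rho_mul_apply, ← StepAux.rho_mul_apply, ← StepAux.rho_mul_apply,
      ← StepAux.rho_mul_apply, ← StepAux.rho_mul_apply, ← StepAux.rho_mul_apply] at h1
    rw [← StepAux.rho_mul_apply, ← StepAux.rho_mul_apply]
    have e1 : c * (φ * x * φ⁻¹) = φ * c * x * φ⁻¹ := by
      rw [hcφ]; group
    have e2 : φ * x * φ⁻¹ * c = φ * x * c * φ⁻¹ := by
      have : φ⁻¹ * c = c * φ⁻¹ := by
        rw [inv_mul_eq_iff_eq_mul, ← mul_assoc, hcφ, mul_inv_cancel_right]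
      rw [mul_assoc, this]; group
    rw [e1, e2]
    exact h1
  intro w hw
  have hw' : ρ (φ * x * φ⁻¹)⁻¹ w ∈ W := hYW _ (Y.inv_mem (hXY hφx)) w hw
  have h2 := P2 _ hw'
  rw [rho_apply_inv] at h2
  rw [e, StepAux.rho_mul_apply, StepAux.rho_mul_apply, P1 _ hw', h2, map_smul, rho_inv_apply,
    map_smul]

theorem card_roots [IsAlgClosed k] {p : ℕ} (hp : 0 < p) (hpk : (p : k) ≠ 0) :
    (Polynomial.nthRootsFinset p (1 : k)).card = p := by
  have : NeZero (p : k) := ⟨hpk⟩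
  have : NeZero p := ⟨hp.ne'⟩
  obtain ⟨ζ, hζ⟩ := HasEnoughRootsOfUnity.exists_primitiveRoot k p
  exact hζ.card_nthRootsFinset

/-- the dimension count -/
theorem dimcount (hVL : Stmt_VL) (hNUM : Stmt_NUM) [IsAlgClosed k] [FiniteDimensional k V]
    {p t : ℕ} [hp : Fact p.Prime] [ht : Fact t.Prime] (hpt : p ≠ t) {φ : E} (hφ : φ ^ p = 1)
    (hpk : (p : k) ≠ 0) (htk : (t : k) ≠ 0) {R Z : Subgroup E} (hR : IsPGroup t R)
    (hZR : Z ≤ R) (hRZ : ¬ R ≤ Z) (nφR : Nz φ R) (nφZ : Nz φ Z) (nRZ : NzS R Z)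
    (hRg : R ≤ cm R φ ⊔ Z) (hab : ∀ x ∈ R, ∀ y ∈ R, ⁅x, y⁆ ∈ Z) {W : Submodule k V}
    (hRW : InvS ρ R W) (hφW : Inv ρ φ W) (hZs : ∀ z ∈ Z, Scal ρ z W)
    (hnd : ∀ x ∈ R, (∀ y ∈ R, ∀ w ∈ W, ρ ⁅x, y⁆ w = w) → x ∈ Z) (hW0 : W ≠ ⊥)
    (hC : ∀ v ∈ W, ρ φ v = v → sm ρ (cm R φ) v = 0 → v = 0) :
    ∃ e : ℕ, 0 < e ∧ p = 2 ^ e + 1 ∧ t = 2 ∧ Nat.card R = (2 ^ e) ^ 2 * Nat.card Z := by
  classical
  -- an irreducible subspace
  obtain ⟨M, hMW, irr⟩ := exists_irr (ρ := ρ) ((R : Set E) ∪ {φ}) hW0 (by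
    rintro g (hg | hg)
    · exact hRW g hg
    · rw [Set.mem_singleton_iff] at hg
      subst hg; exact hφW)
  have hRM : InvS ρ R M := fun g hg => irr.2.1 g (Or.inl hg)
  have hφM : Inv ρ φ M := irr.2.1 φ (Or.inr rfl)
  have hcRφ : cm R φ ≤ R := cm_le nφR
  obtain ⟨w0, hw0M, hw0⟩ := Submodule.exists_mem_ne_zero_of_ne_bot irr.1
  -- elements acting as scalars on `M`
  have hsM : ∀ x ∈ R, Scal ρ x M → x ∈ Z := by
    intro x hx hs
    obtain ⟨s, hs⟩ := hs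
    refine hnd x hx fun y hy => ?_
    obtain ⟨c, hc⟩ := hZs _ (hab x hx y hy)
    have h1 : ρ ⁅x, y⁆ w0 = w0 := by
      have hw' : ρ (x⁻¹ * y⁻¹) w0 ∈ M :=
        hRM _ (R.mul_mem (R.inv_mem hx) (R.inv_mem hy)) w0 hw0M
      rw [commutatorElement_def, show x * y * x⁻¹ * y⁻¹ = x * (y * (x⁻¹ * y⁻¹)) by group,
        StepAux.rho_mul_apply, StepAux.rho_mul_apply, hs _ (hRM y hy _ hw'), ← map_smul,
        ← hs _ hw', ← StepAux.rho_mul_apply, ← StepAux.rho_mul_apply,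
        show y * x * (x⁻¹ * y⁻¹) = 1 by group, StepAux.rho_one_apply]
    have h2 := hc w0 (hMW hw0M)
    rw [h1] at h2
    have h3 : (c - 1) • w0 = 0 := by rw [sub_smul, one_smul, ← h2, sub_self]
    have h4 : c = 1 := by
      rcases smul_eq_zero.1 h3 with h5 | h5
      · exact sub_eq_zero.1 h5
      · exact absurd h5 hw0
    intro w hw
    rw [hc w hw, h4, one_smul]
  have hsMi : ∀ x, (x ∈ R ∧ Scal ρ x M) ↔ x ∈ Z := by
    intro x
    refine ⟨fun h => hsM x h.1 h.2, fun h => ⟨hZR h, ?_⟩⟩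
    obtain ⟨c, hc⟩ := hZs x h
    exact ⟨c, fun w hw => hc w (hMW hw)⟩
  -- no fixed vectors of `[R, φ]`
  have hsm : ∀ v ∈ M, sm ρ (cm R φ) v = 0 := by
    let F : Submodule k V :=
      { carrier := {v | v ∈ M ∧ ∀ x ∈ cm R φ, ρ x v = v}
        add_mem' := by
          rintro a b ⟨ha, ha'⟩ ⟨hb, hb'⟩
          exact ⟨M.add_mem ha hb, fun x hx => by rw [map_add, ha' x hx, hb' x hx]⟩
        zero_mem' := ⟨M.zero_mem, fun x _ => map_zero _⟩
        smul_mem' := by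
          rintro c a ⟨ha, ha'⟩
          exact ⟨M.smul_mem c ha, fun x hx => by rw [map_smul, ha' x hx]⟩ }
    have hFinv : ∀ g : E, Nz g (cm R φ) → Inv ρ g M → Inv ρ g F := by
      intro g hg hgM v hv
      refine ⟨hgM v hv.1, fun x hx => ?_⟩
      have h1 : g⁻¹ * x * g ∈ cm R φ := by
        have := hg.inv x hx
        simpa using this
      have h2 := congrArg (ρ g) (hv.2 _ h1)
      rw [← StepAux.rho_mul_apply] at h2
      rw [← StepAux.rho_mul_apply, ← h2]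
      congr 2
      group
    have hF : F = ⊥ := by
      by_contra hF
      have h1 : F = M := by
        refine irr.2.2 F (fun v hv => hv.1) hF ?_
        rintro g (hg | hg)
        · exact hFinv g (cm_nzS R φ g hg) (hRM g hg)
        · rw [Set.mem_singleton_iff] at hg
          subst hg
          exact hFinv g (cm_nz_self R g) hφM
      apply hRZ
      refine hRg.trans (sup_le ?_ le_rfl)
      intro x hx
      refine hsM x (hcRφ hx) ⟨1, fun w hw => ?_⟩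
      rw [← h1] at hw
      rw [one_smul]; exact hw.2 x hx
    intro v hv
    have h1 : sm ρ (cm R φ) v ∈ F :=
      ⟨sm_mem (fun g hg => hRM g (hcRφ hg)) hv, fun x hx => rho_sm hx v⟩
    rw [hF, Submodule.mem_bot] at h1
    exact h1
  have hfix0 : ∀ v ∈ M, ρ φ v = v → v = 0 := fun v hv h => hC v (hMW hv) h (hsm v hv)
  -- use VL
  have hcR : (Nat.card R : k) ≠ 0 := card_ne_zero_of_isPGroup hR htk
  have vl := hVL k E V ρ R φ 1 p M hp.out.pos hpk hcR one_ne_zero nφR hRM hφM irr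
    (fun x hx y hy => ((hsMi _).2 (hab x hx y hy)).2)
    (fun x hx h => by
      refine ((hsMi x).2 (hnd x hx fun y hy => ?_)).2
      obtain ⟨c, hc⟩ := hZs _ (hab x hx y hy)
      have h2 := hc w0 (hMW hw0M)
      rw [h y hy w0 hw0M] at h2
      have h3 : (c - 1) • w0 = 0 := by rw [sub_smul, one_smul, ← h2, sub_self]
      have h4 : c = 1 := by
        rcases smul_eq_zero.1 h3 with h5 | h5
        · exact sub_eq_zero.1 h5
        · exact absurd h5 hw0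
      intro w hw
      rw [hc w hw, h4, one_smul])
    (fun w hw => by rw [hφ, StepAux.rho_one_apply, one_pow, one_smul])
    (fun i hi hip x hx hs => by
      have hiR : Nz (φ ^ i) R := nφR.pow i
      have h1 : ⁅φ ^ i, x⁆ ∈ R := by
        rw [commutatorElement_def]
        exact R.mul_mem (hiR x hx) (R.inv_mem hx)
      have h2 : ⁅φ ^ i, x⁆ ∈ Z := hsM _ h1 hs
      have hcop : Nat.Coprime i p := by
        rw [Nat.coprime_comm, Nat.Prime.coprime_iff_not_dvd hp.out]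
        intro hd
        exact absurd (Nat.le_of_dvd hi hd) (by omega)
      obtain ⟨m, -, hm⟩ := Nat.exists_mul_mod_eq_one_of_coprime hcop hp.out.one_lt
      have h3 : ∀ j : ℕ, ⁅(φ ^ i) ^ j, x⁆ ∈ Z := by
        intro j
        induction j with
        | zero => simp
        | succ j ih =>
          have e : ⁅(φ ^ i) ^ (j + 1), x⁆ = φ ^ i * ⁅(φ ^ i) ^ j, x⁆ * (φ ^ i)⁻¹ * ⁅φ ^ i, x⁆ := by
            rw [pow_succ' (φ ^ i)]; simp only [commutatorElement_def]; group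
          rw [e]
          exact Z.mul_mem ((nφZ.pow i) _ ih) h2
      have h4 := h3 m
      rw [← pow_mul, pow_eq_pow_mod _ hφ, hm, pow_one] at h4
      exact ((hsMi x).2 (fx_abelian (n := 1) (by simpa using hφ)
        (not_dvd_card_of_isPGroup hpt hR) nφR hZR nφZ hab hRg hx h4)).2)
  obtain ⟨-, hcard, hsum, hsq⟩ := vl
  have hcard' : Nat.card {x : E // x ∈ R ∧ Scal ρ x M} = Nat.card Z :=
    Nat.card_congr (Equiv.subtypeEquivRight hsMi)
  rw [hcard'] at hcard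
  have hroots := card_roots (k := k) hp.out.pos hpk
  set s := Polynomial.nthRootsFinset p (1 : k) with hs
  set d := Module.finrank k M with hd
  set m : k → ℕ := fun ψ =>
    Module.finrank k (M ⊓ Module.End.eigenspace ((1 : k) • ρ φ) ψ : Submodule k V) with hm
  have h1s : (1 : k) ∈ s := by
    rw [hs, Polynomial.mem_nthRootsFinset hp.out.pos, one_pow]
  obtain ⟨i0, hi0, a, ha, ha'⟩ := hNUM k s m d ⟨1, h1s⟩ hsum (by rw [hroots]; exact hsq)
  have hm1 : m 1 = 0 := by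
    have : (M ⊓ Module.End.eigenspace ((1 : k) • ρ φ) 1 : Submodule k V) = ⊥ := by
      rw [Submodule.eq_bot_iff]
      rintro v ⟨hv, hv'⟩
      have h1 := Module.End.mem_eigenspace_iff.1 hv'
      rw [one_smul, one_smul] at h1
      exact hfix0 v hv h1
    simp only [hm]
    rw [this, finrank_bot]
  -- `d ≠ 1`
  have hd1 : d ≠ 1 := by
    intro hd1
    apply hRZ
    obtain ⟨v, hv0, hv⟩ := finrank_eq_one_iff'.1 (hd ▸ hd1 : Module.finrank k M = 1)
    intro x hx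
    refine hsM x hx ?_
    obtain ⟨c, hc⟩ := hv ⟨ρ x v, hRM x hx v v.2⟩
    refine ⟨c, fun w hw => ?_⟩
    obtain ⟨c', hc'⟩ := hv ⟨w, hw⟩
    have h1 : c • (v : V) = ρ x v := congrArg Subtype.val hc
    have h2 : c' • (v : V) = w := congrArg Subtype.val hc'
    rw [← h2, map_smul, ← h1, smul_comm]
  have hdp : d = p - 1 := by
    by_cases h10 : i0 = 1
    · rw [h10, hm1] at ha'
      have ha1 : a = 1 := by omega
      rw [← hsum, ← Finset.add_sum_erase s _ h1s]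
      have : ∑ x ∈ s.erase 1, m x = ∑ x ∈ s.erase 1, 1 := by
        refine Finset.sum_congr rfl fun x hx => ?_
        rw [Finset.mem_erase] at hx
        rw [ha x hx.2 (by rw [h10]; exact hx.1), ha1]
      change m 1 + ∑ x ∈ s.erase 1, m x = _
      rw [this, hm1, Finset.sum_const, Finset.card_erase_of_mem h1s, hroots]
      simp
    · exfalso
      have ha0 : a = 0 := by
        rw [← ha 1 h1s (fun h => h10 h.symm), hm1]
      apply hd1
      rw [← hsum, ← Finset.add_sum_erase s _ hi0]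
      have : ∑ x ∈ s.erase i0, m x = 0 := by
        refine Finset.sum_eq_zero fun x hx => ?_
        rw [Finset.mem_erase] at hx
        rw [ha x hx.2 hx.1, ha0]
      change m i0 + ∑ x ∈ s.erase i0, m x = _
      rw [this]
      omega
  -- arithmetic
  obtain ⟨n, hn⟩ := IsPGroup.iff_card.1 hR
  have hdvd : (p - 1) ∣ t ^ n := by
    rw [← hn, hcard, hdp, pow_two, mul_assoc]
    exact dvd_mul_right _ _
  obtain ⟨e, -, he⟩ := (Nat.dvd_prime_pow ht.out).1 hdvd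
  have he0 : 0 < e := by
    rcases Nat.eq_zero_or_pos e with h | h
    · exfalso
      rw [h, pow_zero] at he
      exact hd1 (hdp.trans he)
    · exact h
  have hp2 : p ≠ 2 := by
    intro h
    apply hd1
    rw [hdp, h]
  have hodd : Odd p := hp.out.odd_of_ne_two hp2
  have h2 : 2 ∣ t ^ e := by
    rw [← he]
    obtain ⟨q, hq⟩ := hodd
    exact ⟨q, by omega⟩
  have ht2 : t = 2 := ((Nat.prime_dvd_prime_iff_eq Nat.prime_two ht.out).1
    (Nat.prime_two.dvd_of_dvd_pow h2)).symm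
  subst ht2
  have hp1 := hp.out.one_lt
  exact ⟨e, he0, by omega, rfl, by rw [← he, ← hdp, hcard]⟩

end

end NZAux

open StepAux NZAux in
/-- **NZ** -/
theorem stmt_NZ (hVL : Stmt_VL) (hNUM : Stmt_NUM) (hEX : Stmt_EX) (hQM : Stmt_QMOD) :
    Stmt_NZ := by
  classical
  intro k E V _ _ _ _ _ _ _ ρ p t u φ Y H N0 W0 hp ht hu hpt hpu htu hφ hpk htk hY hH nφY nφH
    nHY hHφ hYW0 hHW0 hφW0 hN0 hYg0 hnt0
  by_contra hno
  have hC0 : ∀ v ∈ W0, ρ φ v = v → sm ρ (cm Y φ) v = 0 → v = 0 := by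
    intro v hv h1 h2
    by_contra h3
    exact hno ⟨v, hv, h3, h1, h2⟩
  have : Fact p.Prime := ⟨hp⟩
  have : Fact t.Prime := ⟨ht⟩
  have : Fact u.Prime := ⟨hu⟩
  have hcY : (Nat.card Y : k) ≠ 0 := card_ne_zero_of_isPGroup hY htk
  -- an irreducible subspace
  set A : Set E := (Y : Set E) ∪ (H : Set E) ∪ {φ} with hA
  have hW1 : W0 ⊓ LinearMap.ker (sm ρ Y) ≠ ⊥ := by
    intro hbot
    apply hnt0
    intro y hy w hw
    have h1 : ρ y w - w ∈ W0 ⊓ LinearMap.ker (sm ρ Y) := by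
      refine ⟨W0.sub_mem (hYW0 y hy w hw) hw, ?_⟩
      rw [SetLike.mem_coe, LinearMap.mem_ker, map_sub, sm_rho hy, sub_self]
    rw [hbot, Submodule.mem_bot, sub_eq_zero] at h1
    exact h1
  have hinv1 : ∀ g : E, Nz g Y → Inv ρ g W0 → Inv ρ g (W0 ⊓ LinearMap.ker (sm ρ Y)) := by
    intro g hg hgW w hw
    refine ⟨hgW w hw.1, ?_⟩
    have h2 : sm ρ Y w = 0 := hw.2
    rw [SetLike.mem_coe, LinearMap.mem_ker, ← sm_comm hg, h2, map_zero]
  obtain ⟨W, hWle, irr⟩ := exists_irr (ρ := ρ) A hW1 (by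
    rintro g ((hg | hg) | hg)
    · exact hinv1 g (Nz.of_mem hg) (hYW0 g hg)
    · exact hinv1 g (nHY g hg) (hHW0 g hg)
    · rw [Set.mem_singleton_iff] at hg
      subst hg
      exact hinv1 _ nφY hφW0)
  have hYW : InvS ρ Y W := fun g hg => irr.2.1 g (Or.inl (Or.inl hg))
  have hHW : InvS ρ H W := fun g hg => irr.2.1 g (Or.inl (Or.inr hg))
  have hφW : Inv ρ φ W := irr.2.1 φ (Or.inr rfl)
  have hWW0 : W ≤ W0 := hWle.trans inf_le_left
  have hC : ∀ v ∈ W, ρ φ v = v → sm ρ (cm Y φ) v = 0 → v = 0 := fun v hv => hC0 v (hWW0 hv)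
  have hnt : ¬ Triv ρ Y W := by
    intro h
    apply irr.1
    rw [Submodule.eq_bot_iff]
    intro w hw
    exact eq_zero_of_fixed hcY (fun x hx => h x hx w hw) (hWle hw).2
  have hYg : Y ≤ ⁅Y, H⁆ ⊔ kr ρ Y W :=
    gen_mod_kr (comm_le_left nHY) hYW (fun g hg w hw => hN0 g hg w (hWW0 hw)) hYg0
  have hYN : NzS Y (kr ρ Y W) := fun g hg => kr_nz (Nz.of_mem hg) (hYW g hg)
  have hHN : NzS H (kr ρ Y W) := fun g hg => kr_nz (nHY g hg) (hHW g hg)
  have hφN : Nz φ (kr ρ Y W) := kr_nz nφY hφW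
  have hscal : ∀ X : Subgroup E, X ≤ Y → NzS Y X → NzS H X → Nz φ X →
      (∀ a ∈ X, ∀ b ∈ X, ⁅a, b⁆ ∈ kr ρ Y W) → ∀ x ∈ X, Scal ρ x W :=
    fun X h1 h2 h3 h4 h5 => scal_of_ab hφ htk hY nφH hHφ irr hC hYg h1 h2 h3 h4 h5
  -- scalars are central modulo the kernel
  have hscom : ∀ x ∈ Y, Scal ρ x W → ∀ y ∈ Y, ⁅x, y⁆ ∈ kr ρ Y W := by
    intro x hx hs y hy
    obtain ⟨c, hc⟩ := hs
    refine comm_mem_kr (comm_mem_self hx hy) (hYW x hx) (hYW y hy) fun w hw => ?_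
    rw [hc w hw, hc _ (hYW y hy w hw), map_smul]
  have hcl : ∀ a ∈ Y, ∀ b ∈ Y, ∀ c ∈ Y, ⁅⁅a, b⁆, c⁆ ∈ kr ρ Y W := by
    refine class_two hY kr_le hYN (A := (H : Set E) ∪ {φ}) ?_ ?_
    · rintro g (hg | hg)
      · exact ⟨nHY g hg, hHN g hg⟩
      · rw [Set.mem_singleton_iff] at hg
        subst hg
        exact ⟨nφY, hφN⟩
    · intro X h1 h2 h3 h4 h5 a ha b hb
      exact hscom a (h2 ha) (hscal X h2 h4 (fun g hg => h3 g (Or.inl hg)) (h3 φ (Or.inr rfl))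
        h5 a ha) b hb
  set Z : Subgroup E := cen Y (kr ρ Y W) hYN with hZ
  have hZY : Z ≤ Y := fun x hx => hx.1
  have h0Z : kr ρ Y W ≤ Z := by
    intro x hx
    refine ⟨hx.1, fun y hy => ?_⟩
    have e : ⁅x, y⁆ = x * (y * x⁻¹ * y⁻¹) := by rw [commutatorElement_def]; group
    rw [e]
    exact (kr ρ Y W).mul_mem hx (hYN y hy _ ((kr ρ Y W).inv_mem hx))
  have nYZ : NzS Y Z := fun g hg => cen_nz (Nz.of_mem hg) (hYN g hg)
  have nHZ : NzS H Z := fun g hg => cen_nz (nHY g hg) (hHN g hg)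
  have nφZ : Nz φ Z := cen_nz nφY hφN
  have hYYZ : ∀ a ∈ Y, ∀ b ∈ Y, ⁅a, b⁆ ∈ Z := fun a ha b hb =>
    ⟨comm_mem_self ha hb, fun c hc => hcl a ha b hb c hc⟩
  have hZs : ∀ x ∈ Z, Scal ρ x W := hscal Z hZY nYZ nHZ nφZ
    (fun a ha b hb => ha.2 b (hZY hb))
  have hsZ : ∀ x ∈ Y, Scal ρ x W → x ∈ Z := fun x hx hs => ⟨hx, hscom x hx hs⟩
  have hYnZ : ¬ Y ≤ Z := by
    intro hYZ
    apply hnt
    have h1 : ⁅Y, H⁆ ≤ kr ρ Y W := by
      rw [commutator_le]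
      intro a ha b hb
      refine comm_mem_kr ?_ (hYW a ha) (hHW b hb) ?_
      · have e : ⁅a, b⁆ = a * (b * a⁻¹ * b⁻¹) := by rw [commutatorElement_def]; group
        rw [e]
        exact Y.mul_mem ha (nHY b hb _ (Y.inv_mem ha))
      · intro w hw
        obtain ⟨c, hc⟩ := hZs a (hYZ ha)
        rw [hc w hw, hc _ (hHW b hb w hw), map_smul]
    intro y hy
    exact ((hYg.trans (sup_le h1 le_rfl)) hy).2
  -- `X1`
  let S : Set (Subgroup E) := {X | Z ≤ X ∧ X ≤ Y ∧ X ≠ Z ∧ NzS H X ∧ Nz φ X}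
  have hSne : S.Nonempty := ⟨Y, hZY, le_rfl, fun h => hYnZ h.le, nHY, nφY⟩
  obtain ⟨X1, hX1⟩ := S.toFinite.exists_minimal hSne
  obtain ⟨hZX, hXY, hXneZ, nHX, nφX⟩ := hX1.1
  have hdich : ∀ X : Subgroup E, Z ≤ X → X ≤ X1 → NzS H X → Nz φ X → X = Z ∨ X = X1 := by
    intro X h1 h2 h3 h4
    by_cases h : X = Z
    · exact Or.inl h
    · exact Or.inr (le_antisymm h2 (hX1.2 ⟨h1, h2.trans hXY, h, h3, h4⟩ h2))
  have hX1nZ : ¬ X1 ≤ Z := fun h => hXneZ (le_antisymm h hZX)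
  have nYX : NzS Y X1 := by
    intro g hg x hx
    have e : g * x * g⁻¹ = ⁅g, x⁆ * x := by rw [commutatorElement_def]; group
    rw [e]
    exact X1.mul_mem (hZX (hYYZ g hg x (hXY hx))) hx
  have hXp : IsPGroup t X1 := hY.to_le hXY
  have hpow : ∀ a ∈ X1, a ^ t ∈ Z := by
    have hPX : Phi t X1 ≤ X1 := Phi_le
    rcases hdich (Phi t X1 ⊔ Z) le_sup_right (sup_le hPX hZX)
      (fun g hg => (Phi_nz (nHX g hg)).sup (nHZ g hg)) ((Phi_nz nφX).sup nφZ) with h | h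
    · intro a ha
      rw [← h]
      exact le_sup_left (α := Subgroup E) (subset_closure (Or.inr ⟨a, ha, rfl⟩))
    · exfalso
      apply hXneZ
      refine (Phi_gen hXp hZX ?_).symm
      rw [sup_comm]; exact h.ge
  have nXN : NzS X1 (kr ρ Y W) := fun g hg => hYN g (hXY hg)
  have hrad : ∀ x ∈ X1, (∀ y ∈ X1, ⁅x, y⁆ ∈ kr ρ Y W) → x ∈ Z := by
    have hle : cen X1 (kr ρ Y W) nXN ≤ X1 := fun x hx => hx.1
    have hZle : Z ≤ cen X1 (kr ρ Y W) nXN := fun x hx => ⟨hZX hx, fun y hy => hx.2 y (hXY hy)⟩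
    rcases hdich (cen X1 (kr ρ Y W) nXN) hZle hle (fun g hg => cen_nz (nHX g hg) (hHN g hg))
      (cen_nz nφX hφN) with h | h
    · intro x hx hy
      rw [← h]; exact ⟨hx, hy⟩
    · exfalso
      apply hX1nZ
      intro x hx
      refine hsZ x (hXY hx) (hscal X1 hXY nYX nHX nφX (fun a ha b hb => ?_) x hx)
      rw [← h] at ha
      exact ha.2 b hb
  -- `H` acts nontrivially on `X1/Z`
  have hHnt : ∃ h ∈ H, ∃ x ∈ X1, ⁅h, x⁆ ∉ Z := by
    by_contra hall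
    apply hX1nZ
    intro x hx
    refine fxS_abelian hH (not_dvd_card_of_isPGroup htu.symm hY) nHY hZY nHZ hYYZ
      (hYg.trans (sup_le_sup_left h0Z _)) (hXY hx) ?_
    intro a ha
    by_contra h
    exact hall ⟨a, ha, x, hx, h⟩
  have hφnt : ∃ x ∈ X1, ⁅φ, x⁆ ∉ Z := by
    by_contra hall
    have hφC : φ ∈ PP.CC X1 Z := by
      refine ⟨nφX, fun x hx => ?_⟩
      by_contra h
      exact hall ⟨x, hx, h⟩
    have hHC : H ≤ PP.CC X1 Z := hHφ.trans (PP.cm_le_of_mem hφC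
      fun g hg => PP.CC_nz (nHX g hg) (nHZ g hg))
    obtain ⟨h, hh, x, hx, hhx⟩ := hHnt
    exact hhx ((hHC hh).2 x hx)
  -- `R`
  set R : Subgroup E := cm X1 φ ⊔ Z with hR
  have hcX : cm X1 φ ≤ X1 := cm_le nφX
  have hRX : R ≤ X1 := sup_le hcX hZX
  have hZR : Z ≤ R := le_sup_right
  have hRZ : ¬ R ≤ Z := by
    intro h
    obtain ⟨x, hx, hx'⟩ := hφnt
    apply hx'
    rw [← commutatorElement_inv]
    exact Z.inv_mem (h (le_sup_left (α := Subgroup E) (comm_mem_cm hx)))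
  have nφR : Nz φ R := (cm_nz_self X1 φ).sup nφZ
  have hpX : ¬ p ∣ Nat.card X1 := not_dvd_card_of_isPGroup hpt hXp
  have hRg : R ≤ cm R φ ⊔ Z := by
    refine sup_le ?_ le_sup_right
    have h1 := cm_cm (n := 1) (by simpa using hφ) hpX nφX
    calc cm X1 φ = cm (cm X1 φ) φ := h1.symm
      _ ≤ cm R φ := cm_mono le_sup_left
      _ ≤ cm R φ ⊔ Z := le_sup_left
  have hRY : R ≤ Y := hRX.trans hXY
  have hnd : ∀ x ∈ R, (∀ y ∈ R, ∀ w ∈ W, ρ ⁅x, y⁆ w = w) → x ∈ Z := by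
    intro x hx h
    refine hrad x (hRX hx) fun y hy => ?_
    obtain ⟨d, hd, c, hc, rfl⟩ := cm_decomp (n := 1) (by simpa using hφ) hpX nφX hy
    have hcX1 := (mem_fx.1 hc).1
    have hdR : d ∈ R := le_sup_left (α := Subgroup E) hd
    have h1 : ⁅x, d⁆ ∈ kr ρ Y W := ⟨comm_mem_self (hRY hx) (hRY hdR), h d hdR⟩
    have h2 : R ≤ cw ρ Y W hYW c := by
      refine sup_le (comm_cm hXY (hXY hcX1) (mem_fx.1 hc).2 nφX hYW hφW
        (fun a ha => hZs _ (hYYZ c (hXY hcX1) a (hXY ha)))) ?_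
      intro z hz
      exact ⟨hZY hz, fun w hw => (of_comm_mem_kr (hYW z (hZY hz)) (hYW c (hXY hcX1))
        (hz.2 c (hXY hcX1)) w hw).symm⟩
    have h3 : ⁅x, c⁆ ∈ kr ρ Y W := comm_mem_kr (comm_mem_self (hRY hx) (hXY hcX1))
      (hYW x (hRY hx)) (hYW c (hXY hcX1)) fun w hw => ((h2 hx).2 w hw).symm
    have e : ⁅x, d * c⁆ = ⁅x, d⁆ * (d * ⁅x, c⁆ * d⁻¹) := by
      simp only [commutatorElement_def]; group
    rw [e]
    exact (kr ρ Y W).mul_mem h1 (hYN d (hRY hdR) _ h3)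
  obtain ⟨e, he0, hpe, ht2, hcard⟩ := dimcount hVL hNUM hpt hφ hpk htk (hY.to_le hRY) hZR hRZ
    nφR nφZ (fun g hg => nYZ g (hRY hg)) hRg (fun x hx y hy => hYYZ x (hRY hx) y (hRY hy))
    (fun g hg => hYW g (hRY hg)) hφW hZs hnd irr.1
    (fun v hv h1 h2 => hC v hv h1 (sm_eq_zero_mono (cm_mono hRY) h2))
  subst ht2
  -- the scalars
  obtain ⟨w0, hw0W, hw0⟩ := Submodule.exists_mem_ne_zero_of_ne_bot irr.1
  have hch : ∀ g : E, ∃ c : k, g ∈ Z → ∀ w ∈ W, ρ g w = c • w := by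
    intro g
    by_cases hg : g ∈ Z
    · obtain ⟨c, hc⟩ := hZs g hg
      exact ⟨c, fun _ => hc⟩
    · exact ⟨0, fun h => absurd h hg⟩
  choose sc hsc using hch
  have huniq : ∀ a b : k, a • w0 = b • w0 → a = b := by
    intro a b h
    have h1 : (a - b) • w0 = 0 := by rw [sub_smul, h, sub_self]
    rcases smul_eq_zero.1 h1 with h2 | h2
    · exact sub_eq_zero.1 h2
    · exact absurd h2 hw0
  have sc_mul : ∀ g ∈ Z, ∀ h ∈ Z, sc (g * h) = sc g * sc h := by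
    intro g hg h hh
    apply huniq
    rw [← hsc _ (Z.mul_mem hg hh) w0 hw0W, StepAux.rho_mul_apply, hsc h hh w0 hw0W, map_smul,
      hsc g hg w0 hw0W, smul_smul, mul_comm]
  have sc_one : ∀ g ∈ Z, (sc g = 1 ↔ g ∈ kr ρ Y W) := by
    intro g hg
    constructor
    · intro h
      refine ⟨hZY hg, fun w hw => ?_⟩
      rw [hsc g hg w hw, h, one_smul]
    · intro h
      apply huniq
      rw [← hsc g hg w0 hw0W, one_smul]
      exact h.2 w0 hw0W
  have sc_conj : ∀ a : E, Inv ρ a W → ∀ g ∈ Z, a * g * a⁻¹ ∈ Z → sc (a * g * a⁻¹) = sc g := by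
    intro a ha g hg hag
    apply huniq
    rw [← hsc _ hag w0 hw0W, StepAux.rho_mul_apply, StepAux.rho_mul_apply,
      hsc g hg _ (ha.inv w0 hw0W), map_smul, rho_apply_inv]
  have hcZ : ∀ x ∈ X1, ∀ y ∈ X1, ⁅x, y⁆ ∈ Z := fun x hx y hy => hYYZ x (hXY hx) y (hXY hy)
  have scl : ∀ x ∈ X1, ∀ x' ∈ X1, ∀ y ∈ X1, sc ⁅x * x', y⁆ = sc ⁅x', y⁆ * sc ⁅x, y⁆ := by
    intro x hx x' hx' y hy
    have e1 : ⁅x * x', y⁆ = (x * ⁅x', y⁆ * x⁻¹) * ⁅x, y⁆ := by
      simp only [commutatorElement_def]; group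
    have h1 : x * ⁅x', y⁆ * x⁻¹ ∈ Z := nYZ x (hXY hx) _ (hcZ x' hx' y hy)
    rw [e1, sc_mul _ h1 _ (hcZ x hx y hy), sc_conj x (hYW x (hXY hx)) _ (hcZ x' hx' y hy) h1]
  have scr : ∀ x ∈ X1, ∀ y ∈ X1, ∀ y' ∈ X1, sc ⁅x, y * y'⁆ = sc ⁅x, y⁆ * sc ⁅x, y'⁆ := by
    intro x hx y hy y' hy'
    have e1 : ⁅x, y * y'⁆ = ⁅x, y⁆ * (y * ⁅x, y'⁆ * y⁻¹) := by
      simp only [commutatorElement_def]; group
    have h1 : y * ⁅x, y'⁆ * y⁻¹ ∈ Z := nYZ y (hXY hy) _ (hcZ x hx y' hy')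
    rw [e1, sc_mul _ (hcZ x hx y hy) _ h1, sc_conj y (hYW y (hXY hy)) _ (hcZ x hx y' hy') h1]
  have sc2 : ∀ x ∈ X1, ∀ y ∈ X1, sc ⁅x, y⁆ = 1 ∨ sc ⁅x, y⁆ = -1 := by
    intro x hx y hy
    have h1 : sc ⁅x * x, y⁆ = 1 := by
      rw [sc_one _ (hcZ _ (X1.mul_mem hx hx) y hy), ← pow_two]
      exact (hpow x hx).2 y (hXY hy)
    rw [scl x hx x hx y hy] at h1
    exact mul_self_eq_one_iff.1 h1
  let δ : E → E → ZMod 2 := fun x y => if sc ⁅x, y⁆ = 1 then 0 else 1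
  have hadd : ∀ a b : k, (a = 1 ∨ a = -1) → (b = 1 ∨ b = -1) →
      (if a * b = 1 then (0 : ZMod 2) else 1) =
        (if a = 1 then (0 : ZMod 2) else 1) + (if b = 1 then (0 : ZMod 2) else 1) := by
    intro a b ha hb
    have h11 : (1 : ZMod 2) + 1 = 0 := zmod2_11
    by_cases h1 : a = 1
    · rw [h1, one_mul]; simp
    · by_cases h2 : b = 1
      · rw [h2, mul_one]; simp
      · have ha' := ha.resolve_left h1
        have hb' := hb.resolve_left h2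
        rw [if_neg h1, if_neg h2, h11, ha', hb']
        simp
  have hδ0 : ∀ x ∈ X1, ∀ y ∈ X1, (δ x y = 0 ↔ ⁅x, y⁆ ∈ kr ρ Y W) := by
    intro x hx y hy
    rw [← sc_one _ (hcZ x hx y hy)]
    change (if sc ⁅x, y⁆ = 1 then (0 : ZMod 2) else 1) = 0 ↔ _
    by_cases h : sc ⁅x, y⁆ = 1
    · simp [h]
    · simp [h]
  refine ex_contra hEX hQM hp hu htu.symm hpu hpe he0 hφ hH nφH hHφ hZX nφX nφZ nHX nHZ
    (fun g hg => nYZ g (hXY hg)) hcZ hpow δ ?_ ?_ ?_ ?_ ?_ ?_ ?_ hcard hHnt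
  · intro x hx x' hx' y hy
    change (if sc ⁅x * x', y⁆ = 1 then (0 : ZMod 2) else 1) = _
    rw [scl x hx x' hx' y hy, hadd _ _ (sc2 x' hx' y hy) (sc2 x hx y hy), add_comm]
  · intro x hx y hy y' hy'
    change (if sc ⁅x, y * y'⁆ = 1 then (0 : ZMod 2) else 1) = _
    rw [scr x hx y hy y' hy', hadd _ _ (sc2 x hx y hy) (sc2 x hx y' hy')]
  · intro x hx
    rw [hδ0 x hx x hx, commutatorElement_self]
    exact (kr ρ Y W).one_mem
  · intro g hg x hx y hy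
    have hgW : Inv ρ g W := by
      rcases hg with hg | rfl
      · exact hHW g hg
      · exact hφW
    have hgZ : Nz g Z := by
      rcases hg with hg | rfl
      · exact nHZ g hg
      · exact nφZ
    have e1 : ⁅g * x * g⁻¹, g * y * g⁻¹⁆ = g * ⁅x, y⁆ * g⁻¹ := by
      simp only [commutatorElement_def]; group
    change (if sc ⁅g * x * g⁻¹, g * y * g⁻¹⁆ = 1 then (0 : ZMod 2) else 1) =
      (if sc ⁅x, y⁆ = 1 then (0 : ZMod 2) else 1)
    rw [e1, sc_conj g hgW _ (hcZ x hx y hy) (hgZ _ (hcZ x hx y hy))]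
  · intro x hx h
    exact hrad x hx fun y hy => (hδ0 x hx y hy).1 (h y hy)
  · intro x hx y hy
    exact (hδ0 x (hZX hx) y hy).2 (hx.2 y (hXY hy))
  · intro x hx y hy
    rw [hδ0 y hy x (hZX hx), ← commutatorElement_inv]
    exact (kr ρ Y W).inv_mem (hx.2 y (hXY hy))

end Pool.FH
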