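import Pool.Agent.Work.MP_4c212b_al.P

/-!
# Block P1
-/

set_option autoImplicit false

open Subgroup
open scoped commutatorElement

namespace Pool.FH

namespace PP

variable {E : Type} [Group E] [Finite E]

/-- The affine argument: `G1/N` abelian, `b` a point fixed by `φ` with stabiliser inside `N`;
`y` fixes all `φ`-moved points `x b`.  Then `φ` or `y` acts trivially on `G1/N`. -/
theorem affine_or {p : ℕ} [Fact p.Prime] {φ y : E} {G1 N : Subgroup E} {α : Type}
    {act : E → α → α} (act_one : ∀ a, act 1 a = a)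
    (act_mul : ∀ g h a, act (g * h) a = act g (act h a)) (hφ : φ ^ p = 1)
    (hcard : ¬ p ∣ Nat.card G1) (hNG : N ≤ G1) (hab : ∀ a ∈ G1, ∀ b ∈ G1, ⁅a, b⁆ ∈ N)
    (nφG : Nz φ G1) (nφN : Nz φ N) (nyG : Nz y G1) {b : α} (hb : act φ b = b)
    (hst : ∀ x ∈ G1, act x b = b → x ∈ N)
    (hmv : ∀ x ∈ G1, act φ (act x b) ≠ act x b → act y (act x b) = act x b) :
    (∀ x ∈ G1, ⁅φ, x⁆ ∈ N) ∨ (∀ x ∈ G1, ⁅y, x⁆ ∈ N) := by
  have inv_act : ∀ (g : E) (a : α), act g⁻¹ (act g a) = a := by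
    intro g a; rw [← act_mul, inv_mul_cancel, act_one]
  have eq_inv : ∀ (g : E) (a b : α), act g a = b → act g⁻¹ b = a := by
    rintro g a _ rfl; exact inv_act g a
  have hN : NzS G1 N := by
    intro a ha x hx
    have h1 := N.mul_mem (hab a ha x (hNG hx)) hx
    have h2 : ⁅a, x⁆ * x = a * x * a⁻¹ := by simp only [commutatorElement_def]; group
    rwa [h2] at h1
  have subl : ∀ z : E, ∃ T : Subgroup E, ∀ x, x ∈ T ↔ x ∈ G1 ∧ ⁅z, x⁆ ∈ N := by
    intro z
    refine ⟨ofMul {x | x ∈ G1 ∧ ⁅z, x⁆ ∈ N} ⟨G1.one_mem, by simp⟩ ?_, fun x => Iff.rfl⟩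
    rintro a ⟨ha, ha'⟩ b ⟨hb, hb'⟩
    refine ⟨G1.mul_mem ha hb, ?_⟩
    have h1 := N.mul_mem ha' (hN a ha _ hb')
    have h2 : ⁅z, a⁆ * (a * ⁅z, b⁆ * a⁻¹) = ⁅z, a * b⁆ := by
      simp only [commutatorElement_def]; group
    rwa [h2] at h1
  obtain ⟨U, hU⟩ := subl φ
  obtain ⟨T, hT⟩ := subl y
  by_cases hall : ∀ x ∈ G1, ⁅φ, x⁆ ∈ N
  · exact Or.inl hall
  right
  push Not at hall
  obtain ⟨x0, hx0, hx0N⟩ := hall
  have hUG : U ≤ G1 := fun x hx => ((hU x).1 hx).1
  have hTG : T ≤ G1 := fun x hx => ((hT x).1 hx).1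
  have hx0U : x0 ∉ U := fun h => hx0N ((hU x0).1 h).2
  have hNU : N ≤ U := by
    intro x hx
    rw [hU]
    refine ⟨hNG hx, ?_⟩
    rw [commutatorElement_def]
    exact N.mul_mem (nφN x hx) (N.inv_mem hx)
  have hUn : ∀ a ∈ G1, ∀ x ∈ U, a * x * a⁻¹ ∈ U := by
    intro a ha x hx
    have h1 := U.mul_mem (hNU (hab a ha x (hUG hx))) hx
    have h2 : ⁅a, x⁆ * x = a * x * a⁻¹ := by simp only [commutatorElement_def]; group
    rwa [h2] at h1
  have hφU : Nz φ U := by
    intro x hx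
    have h1 := (hU x).1 hx
    rw [hU]
    refine ⟨nφG x h1.1, ?_⟩
    have h2 := nφN _ h1.2
    have h3 : φ * ⁅φ, x⁆ * φ⁻¹ = ⁅φ, φ * x * φ⁻¹⁆ := by
      simp only [commutatorElement_def]; group
    rwa [h3] at h2
  -- coprimality
  have hcop : ∀ x ∈ G1, x⁻¹ * (φ * x * φ⁻¹) ∈ U → x ∈ U := by
    intro x hx hxU
    obtain ⟨n, hn, h⟩ := cp_fix1 hφ (fun h => hcard (h.trans (card_dvd_of_le hUG))) hφU hxU
    have h1 : x * n ∈ U := by
      rw [hU]
      refine ⟨G1.mul_mem hx (hUG hn), ?_⟩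
      have h2 : ⁅φ, x * n⁆ = 1 := by
        rw [commutatorElement_eq_one_iff_mul_comm]; exact h
      rw [h2]; exact N.one_mem
    have h2 := U.mul_mem h1 (U.inv_mem hn)
    simpa [mul_assoc] using h2
  -- moved points
  have hmoved : ∀ x ∈ G1, x ∉ U → act y (act x b) = act x b := by
    intro x hx hxU
    apply hmv x hx
    intro h
    apply hxU
    rw [hU]
    refine ⟨hx, ?_⟩
    have h2 : act (x⁻¹ * (φ * x * φ⁻¹)) b = b := by
      rw [act_mul, act_mul, act_mul, eq_inv _ _ _ hb, h, inv_act]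
    have h3 := hst _ (G1.mul_mem (G1.inv_mem hx) (nφG x hx)) h2
    have h4 := hN x hx _ h3
    have h5 : x * (x⁻¹ * (φ * x * φ⁻¹)) * x⁻¹ = ⁅φ, x⁆ := by
      simp only [commutatorElement_def]; group
    rwa [h5] at h4
  have hyb : act y (act x0 b) = act x0 b := hmoved x0 hx0 hx0U
  -- the key fact
  have key : ∀ x ∈ G1, x * x0 ∉ U → x ∈ T := by
    intro x hx hxU
    rw [hT]
    refine ⟨hx, ?_⟩
    have h1 := hmoved _ (G1.mul_mem hx hx0) hxU
    have h2 : act (x0⁻¹ * (x⁻¹ * (y * x * y⁻¹)) * x0) b = b := by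
      rw [act_mul, act_mul, act_mul, act_mul, act_mul, eq_inv _ _ _ hyb, ← act_mul x x0, h1,
        ← act_mul, ← act_mul]
      have h5 : x0⁻¹ * (x⁻¹ * (x * x0)) = 1 := by group
      rw [mul_assoc, h5, act_one]
    have h3 := hst _ (G1.mul_mem (G1.mul_mem (G1.inv_mem hx0)
      (G1.mul_mem (G1.inv_mem hx) (nyG x hx))) hx0) h2
    have h4 := hN (x * x0) (G1.mul_mem hx hx0) _ h3
    have h5 : x * x0 * (x0⁻¹ * (x⁻¹ * (y * x * y⁻¹)) * x0) * (x * x0)⁻¹ = ⁅y, x⁆ := by
      simp only [commutatorElement_def]; group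
    rwa [h5] at h4
  have hUT : U ≤ T := by
    intro x hx
    apply key x (hUG hx)
    intro h
    apply hx0U
    have := U.mul_mem (U.inv_mem hx) h
    simpa using this
  have hx0T : x0 ∈ T := by
    by_cases h2 : x0 * x0 ∈ U
    · -- `φ x0 φ⁻¹ ∈ T`
      have hφx0 : φ * x0 * φ⁻¹ ∉ U := fun h => hx0U (hφU.mem_iff.1 h)
      have h3 : φ * x0 * φ⁻¹ ∈ T := by
        apply key _ (nφG x0 hx0)
        intro h4
        apply hx0U
        apply hcop x0 hx0
        have h5 := U.mul_mem h4 (U.inv_mem h2)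
        have h6 := hUn x0⁻¹ (G1.inv_mem hx0) _ h5
        have h7 : x0⁻¹ * (φ * x0 * φ⁻¹ * x0 * (x0 * x0)⁻¹) * x0⁻¹⁻¹ =
          x0⁻¹ * (φ * x0 * φ⁻¹) := by group
        rwa [h7] at h6
      have h4 : (φ * x0 * φ⁻¹)⁻¹ * x0 ∈ T := by
        apply key _ (G1.mul_mem (G1.inv_mem (nφG x0 hx0)) hx0)
        intro h5
        apply hφx0
        have h6 := U.mul_mem h5 (U.inv_mem h2)
        have h7 : (φ * x0 * φ⁻¹)⁻¹ * x0 * x0 * (x0 * x0)⁻¹ = (φ * x0 * φ⁻¹)⁻¹ := by group
        rw [h7] at h6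
        exact U.inv_mem_iff.1 h6
      have h5 := T.mul_mem h3 h4
      rwa [mul_inv_cancel_left] at h5
    · exact key x0 hx0 h2
  intro x hx
  by_cases hxU : x * x0 ∈ U
  · have h1 := T.mul_mem (hUT hxU) (T.inv_mem hx0T)
    have h2 : x ∈ T := by simpa using h1
    exact ((hT x).1 h2).2
  · exact ((hT x).1 (key x hx hxU)).2

end PP

open PP in
/-- **P1** -/
theorem stmt_P1 : Stmt_P1 := by
  intro E _ _ p v r q φ y Y H hYH α act act_one act_mul Ω hφΩ hyΩ hMΩ hmv
  have hp : Fact p.Prime := ⟨hYH.hp⟩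
  have hv : Fact v.Prime := ⟨hYH.hv⟩
  have hr : Fact r.Prime := ⟨hYH.hr⟩
  have hq : Fact q.Prime := ⟨hYH.hq⟩
  set M : Subgroup E := Y ⊔ H with hM
  have hYM : Y ≤ M := le_sup_left
  have hHM : H ≤ M := le_sup_right
  have inv_act : ∀ (g : E) (a : α), act g⁻¹ (act g a) = a := by
    intro g a; rw [← act_mul, inv_mul_cancel, act_one]
  have act_inv : ∀ (g : E) (a : α), act g (act g⁻¹ a) = a := by
    intro g a; rw [← act_mul, mul_inv_cancel, act_one]
  have eq_inv : ∀ (g : E) (a b : α), act g a = b → act g⁻¹ b = a := by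
    rintro g a _ rfl; exact inv_act g a
  have nφM : Nz φ M := hYH.nφY.sup hYH.nφH
  have nMY : NzS M Y := by
    have h : M ≤ ofMul {g | Nz g Y} (Nz.one Y) (fun a ha b hb => Nz.mul ha hb) :=
      sup_le (fun g hg => Nz.of_mem hg) (fun g hg => hYH.nHY g hg)
    exact fun g hg => h hg
  -- `H ≤ [M, φ]`, `H ≤ [M, y]`
  have hHφ : H ≤ cm M φ := hYH.hHφ.trans (cm_mono hHM)
  have hHy : H ≤ cm M y := le_cm_of_sup hYH.hvr hYH.hY hYH.hH hYH.nHY hYH.nyM hYH.hHy
  -- elements of `M`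
  have hMdec : ∀ x ∈ M, ∃ w ∈ Y, ∃ h ∈ H, x = w * h := by
    intro x hx
    have h : M ≤ ofMul {x | ∃ w ∈ Y, ∃ h ∈ H, x = w * h} ⟨1, Y.one_mem, 1, H.one_mem, by simp⟩
      (by
        rintro _ ⟨w, hw, h, hh, rfl⟩ _ ⟨w', hw', h', hh', rfl⟩
        refine ⟨w * (h * w' * h⁻¹), Y.mul_mem hw (hYH.nHY h hh w' hw'), h * h',
          H.mul_mem hh hh', by group⟩) :=
      sup_le (fun w hw => ⟨w, hw, 1, H.one_mem, by simp⟩)
        (fun h hh => ⟨1, Y.one_mem, h, hh, by simp⟩)
    exact h hx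
  -- general principle
  have gen1 : ∀ C : Subgroup E, NzS M C → H ≤ C → M ≤ C := by
    intro C hC hHC
    refine sup_le ?_ hHC
    refine hYH.hYH.trans ?_
    rw [Subgroup.commutator_le]
    intro w hw h hh
    rw [commutatorElement_def]
    exact C.mul_mem (hC w (hYM hw) h (hHC hh)) (C.inv_mem (hHC hh))
  have gen2 : ∀ C : Subgroup E, NzS M C → φ ∈ C ∨ y ∈ C → M ≤ C := by
    intro C hC h
    apply gen1 C hC
    rcases h with h | h
    · exact hHφ.trans (cm_le_of_mem h hC)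
    · exact hHy.trans (cm_le_of_mem h hC)
  -- reduction to a fixed point
  have red : ∀ b ∈ Ω, act φ b = b → ∀ g ∈ M, act g b = b := by
    intro b hb hφb
    let L : Subgroup E := ofMul {x | x ∈ M ∧ act x b = b} ⟨M.one_mem, act_one b⟩ (by
      rintro x ⟨hx, hx'⟩ z ⟨hz, hz'⟩
      exact ⟨M.mul_mem hx hz, by rw [act_mul, hz', hx']⟩)
    have mem_L : ∀ {x}, x ∈ L ↔ x ∈ M ∧ act x b = b := fun {x} => Iff.rfl
    have hLM : L ≤ M := fun x hx => hx.1
    have hφL : Nz φ L := by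
      rintro x ⟨hx, hx'⟩
      refine ⟨nφM x hx, ?_⟩
      rw [act_mul, act_mul, eq_inv _ _ _ hφb, hx', hφb]
    have hmvb : ∀ x ∈ M, act φ (act x b) ≠ act x b → act y (act x b) = act x b :=
      fun x hx h => hmv _ (hMΩ x hx b hb) h
    by_cases hcase : M ≤ L ⊔ Y
    · -- second step: `Y` is transitive
      let N : Subgroup E := (L ⊓ Y) ⊔ Phi v Y
      have hNY : N ≤ Y := sup_le inf_le_right Phi_le
      have hcomm : ∀ a ∈ Y, ∀ b ∈ Y, ⁅a, b⁆ ∈ N := fun a ha b hb =>
        (le_sup_right : Phi v Y ≤ N) (subset_closure (Or.inl ⟨a, ha, b, hb, rfl⟩))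
      have nYN : NzS Y N := by
        intro a ha x hx
        have h1 := N.mul_mem (hcomm a ha x (hNY hx)) hx
        have h2 : ⁅a, x⁆ * x = a * x * a⁻¹ := by simp only [commutatorElement_def]; group
        rwa [h2] at h1
      have nLN : NzS L N := by
        intro a ha
        exact ((Nz.of_mem ha).inf (nMY a (hLM ha))).sup (Phi_nz (nMY a (hLM ha)))
      have nMN : NzS M N := by
        have h : M ≤ ofMul {g | Nz g N} (Nz.one N) (fun a ha b hb => Nz.mul ha hb) :=
          hcase.trans (sup_le (fun g hg => nLN g hg) (fun g hg => nYN g hg))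
        exact fun g hg => h hg
      have h1 := affine_or (p := p) (φ := φ) (y := y) (G1 := Y) (N := N) (b := b) act_one act_mul
        hYH.hφ (not_dvd_card_of_isPGroup hYH.hpv hYH.hY) hNY hcomm hYH.nφY
        ((hφL.inf hYH.nφY).sup (Phi_nz hYH.nφY)) hYH.nyY hφb
        (fun x hx h => (le_sup_left : L ⊓ Y ≤ N) ⟨⟨hYM hx, h⟩, hx⟩)
        (fun x hx h => hmvb x (hYM hx) h)
      have h2 : M ≤ CC Y N := by
        apply gen2 _ (fun g hg => CC_nz (nMY g hg) (nMN g hg))
        rcases h1 with h1 | h1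
        · exact Or.inl ⟨hYH.nφY, h1⟩
        · exact Or.inr ⟨hYH.nyY, h1⟩
      have h3 : Y ≤ N := by
        refine hYH.hYH.trans ?_
        rw [Subgroup.commutator_le]
        intro w hw h hh
        have h4 := (h2 (hHM hh)).2 w hw
        have h5 : ⁅w, h⁆ = ⁅h, w⁆⁻¹ := by simp only [commutatorElement_def]; group
        rw [h5]
        exact N.inv_mem h4
      have h4 : L ⊓ Y = Y := Phi_gen hYH.hY inf_le_right h3
      have h5 : Y ≤ L := by rw [← h4]; exact inf_le_left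
      have h6 : M ≤ L := hcase.trans (sup_le le_rfl h5)
      exact fun g hg => (h6 hg).2
    · -- first step
      exfalso
      have hHn : ¬ H ≤ L ⊔ Y := fun h => hcase (sup_le le_sup_right h)
      let N : Subgroup E := (L ⊔ Y) ⊔ Phi r H
      have hNM : N ≤ M := sup_le (sup_le hLM hYM) (Phi_le.trans hHM)
      have hYN : Y ≤ N := le_sup_of_le_left le_sup_right
      have hLN : L ≤ N := le_sup_of_le_left le_sup_left
      have hPN : Phi r H ≤ N := le_sup_right
      have hcH : ∀ a ∈ H, ∀ b ∈ H, ⁅a, b⁆ ∈ Phi r H := fun a ha b hb =>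
        subset_closure (Or.inl ⟨a, ha, b, hb, rfl⟩)
      -- `[M, M] ≤ Y Φ(H)`
      let K0 : Subgroup E := Y ⊔ Phi r H
      have hK0N : K0 ≤ N := sup_le hYN hPN
      have hcYM : ∀ w ∈ Y, ∀ x ∈ M, ⁅w, x⁆ ∈ Y := by
        intro w hw x hx
        have h1 := Y.mul_mem hw (nMY x hx _ (Y.inv_mem hw))
        have h2 : w * (x * w⁻¹ * x⁻¹) = ⁅w, x⁆ := by simp only [commutatorElement_def]; group
        rwa [h2] at h1
      have hMM : ∀ a ∈ M, ∀ b ∈ M, ⁅a, b⁆ ∈ K0 := by
        have h : M ≤ CC M K0 := by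
          apply sup_le
          · intro w hw
            exact ⟨Nz.of_mem (hYM hw), fun x hx => (le_sup_left : Y ≤ K0) (hcYM w hw x hx)⟩
          · intro h hh
            refine ⟨Nz.of_mem (hHM hh), fun x hx => ?_⟩
            obtain ⟨w, hw, h', hh', rfl⟩ := hMdec x hx
            have h1 : ⁅h, w⁆ ∈ Y := by
              have h2 := Y.inv_mem (hcYM w hw h (hHM hh))
              have h3 : ⁅w, h⁆⁻¹ = ⁅h, w⁆ := by simp only [commutatorElement_def]; group
              rwa [h3] at h2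
            have h2 : ⁅h, h'⁆ ∈ K0 := (le_sup_right : Phi r H ≤ K0) (hcH h hh h' hh')
            have h3 : ⁅h, w * h'⁆ = ⁅h, w⁆ * (w * ⁅h, h'⁆ * w⁻¹) := by
              simp only [commutatorElement_def]; group
            rw [h3]
            exact K0.mul_mem ((le_sup_left : Y ≤ K0) h1)
              (K0.mul_mem (K0.mul_mem ((le_sup_left : Y ≤ K0) hw) h2)
                (K0.inv_mem ((le_sup_left : Y ≤ K0) hw)))
        exact fun a ha b hb => (h ha).2 b hb
      have nMN : NzS M N := by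
        intro a ha x hx
        have h1 := N.mul_mem (hK0N (hMM a ha x (hNM hx))) hx
        have h2 : ⁅a, x⁆ * x = a * x * a⁻¹ := by simp only [commutatorElement_def]; group
        rwa [h2] at h1
      have hcardM : ¬ p ∣ Nat.card M := by
        -- `M` has order prime to `p`
        intro hdvd
        obtain ⟨x, hx⟩ := exists_prime_orderOf_dvd_card' p hdvd
        obtain ⟨w, hw, h, hh, hxe⟩ := hMdec x.1 x.2
        -- the image of `x` in `M/Y`
        have hord : (x : E) ^ p = 1 := by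
          have h1 := pow_orderOf_eq_one x
          rw [hx] at h1
          exact congrArg Subtype.val h1
        have hpow : ∀ n : ℕ, ∃ w' ∈ Y, (x : E) ^ n = w' * h ^ n := by
          intro n
          induction n with
          | zero => exact ⟨1, Y.one_mem, by simp⟩
          | succ n ih =>
            obtain ⟨w', hw', hn⟩ := ih
            refine ⟨w' * (h ^ n * w * (h ^ n)⁻¹), Y.mul_mem hw'
              ((hYH.nHY h hh).pow n w hw), ?_⟩
            rw [pow_succ, hn, hxe, pow_succ]; group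
        obtain ⟨w', hw', hn⟩ := hpow p
        rw [hord] at hn
        have h1 : h ^ p = w'⁻¹ := eq_inv_of_mul_eq_one_right hn.symm
        have h2 : h ^ p = 1 := eq_one_of_isPGroup hYH.hvr hYH.hH hYH.hY
          (by rw [h1]; exact Y.inv_mem hw') (H.pow_mem hh p)
        have h3 : h = 1 := eq_one_of_isPGroup hYH.hpr hYH.hH
          (isPGroup_zpowers (p := p) (n := 1) (by simpa using h2)) (mem_zpowers h) hh
        have h4 : (x : E) = 1 := eq_one_of_isPGroup hYH.hpv hYH.hY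
          (isPGroup_zpowers (p := p) (n := 1) (by simpa using hord)) (mem_zpowers (x : E))
          (by rw [hxe, h3, mul_one]; exact hw)
        have h5 : x = 1 := Subtype.ext h4
        rw [h5, orderOf_one] at hx
        exact hYH.hp.one_lt.ne hx
      have hφN : Nz φ N := (hφL.sup hYH.nφY).sup (Phi_nz hYH.nφH)
      have h1 := affine_or (p := p) (φ := φ) (y := y) (G1 := M) (N := N) (b := b) act_one act_mul
        hYH.hφ hcardM hNM (fun a ha b hb => hK0N (hMM a ha b hb)) nφM hφN hYH.nyM hφb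
        (fun x hx h => hLN ⟨hx, h⟩)
        (fun x hx h => hmvb x hx h)
      have h2 : H ≤ N := by
        rcases h1 with h1 | h1
        · refine hHφ.trans (cm_le_of' nφM fun x hx => ?_)
          have h5 : ⁅x, φ⁆ = ⁅φ, x⁆⁻¹ := by simp only [commutatorElement_def]; group
          rw [h5]
          exact N.inv_mem (h1 x hx)
        · refine hHy.trans (cm_le_of' hYH.nyM fun x hx => ?_)
          have h5 : ⁅x, y⁆ = ⁅y, x⁆⁻¹ := by simp only [commutatorElement_def]; group
          rw [h5]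
          exact N.inv_mem (h1 x hx)
      -- Dedekind
      apply hHn
      have h3 : H ≤ ((L ⊔ Y) ⊓ H) ⊔ Phi r H := by
        -- every element of `N` is `y h1 f`
        have hYL : ∀ x ∈ L ⊔ Y, ∃ w ∈ Y, ∃ h ∈ (L ⊔ Y) ⊓ H, x = w * h := by
          intro x hx
          obtain ⟨w, hw, h, hh, rfl⟩ := hMdec x ((sup_le hLM hYM) hx)
          refine ⟨w, hw, h, ⟨?_, hh⟩, rfl⟩
          have h5 := (L ⊔ Y).mul_mem ((L ⊔ Y).inv_mem ((le_sup_right : Y ≤ L ⊔ Y) hw)) hx
          simpa using h5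
        have hN2 : ∀ x ∈ N, ∃ w ∈ Y, ∃ h ∈ ((L ⊔ Y) ⊓ H) ⊔ Phi r H, x = w * h := by
          intro x hx
          have h : N ≤ ofMul {x | ∃ w ∈ Y, ∃ h ∈ ((L ⊔ Y) ⊓ H) ⊔ Phi r H, x = w * h}
            ⟨1, Y.one_mem, 1, one_mem _, by simp⟩
            (by
              rintro _ ⟨w, hw, h, hh, rfl⟩ _ ⟨w', hw', h', hh', rfl⟩
              have hh2 : h ∈ H := (sup_le inf_le_right Phi_le :
                ((L ⊔ Y) ⊓ H) ⊔ Phi r H ≤ H) hh
              refine ⟨w * (h * w' * h⁻¹), Y.mul_mem hw (hYH.nHY h hh2 w' hw'), h * h',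
                mul_mem hh hh', by group⟩) := by
            refine sup_le (fun x hx => ?_) (fun f hf => ⟨1, Y.one_mem, f,
              (le_sup_right : Phi r H ≤ _) hf, by simp⟩)
            obtain ⟨w, hw, h, hh, rfl⟩ := hYL x hx
            exact ⟨w, hw, h, (le_sup_left : (L ⊔ Y) ⊓ H ≤ _) hh, rfl⟩
          exact h hx
        intro x hx
        obtain ⟨w, hw, h, hh, hxe⟩ := hN2 x (h2 hx)
        have hh2 : h ∈ H := (sup_le inf_le_right Phi_le : ((L ⊔ Y) ⊓ H) ⊔ Phi r H ≤ H) hh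
        have h5 : w ∈ H := by
          have h6 := H.mul_mem hx (H.inv_mem hh2)
          rw [hxe] at h6
          simpa using h6
        have h6 : w = 1 := eq_one_of_isPGroup hYH.hvr.symm hYH.hY hYH.hH h5 hw
        rw [hxe, h6, one_mul]
        exact hh
      have h4 : (L ⊔ Y) ⊓ H = H := Phi_gen hYH.hH inf_le_right h3
      rw [← h4]; exact inf_le_left
  -- conclusion
  intro g hg a ha
  by_cases hex : ∃ x ∈ M, act φ (act x a) = act x a
  · obtain ⟨x, hx, hxφ⟩ := hex
    have h1 := red (act x a) (hMΩ x hx a ha) hxφ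
    have h2 := h1 x⁻¹ (M.inv_mem hx)
    rw [inv_act] at h2
    have h3 := h1 g hg
    rw [← h2] at h3
    exact h3
  · push Not at hex
    let C : Subgroup E := ofMul {g | ∀ x ∈ M, act g (act x a) = act x a}
      (fun x _ => act_one _) (fun g hg h hh x hx => by rw [act_mul, hh x hx, hg x hx])
    have hC : NzS M C := by
      intro m hm c hc x hx
      have h1 := hc (m⁻¹ * x) (M.mul_mem (M.inv_mem hm) hx)
      rw [act_mul, act_mul, ← act_mul m⁻¹ x, h1, ← act_mul, mul_inv_cancel_left]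
    have h1 : M ≤ C := gen2 C hC (Or.inr fun x hx => hmv _ (hMΩ x hx a ha) (hex x hx))
    have h2 := h1 hg 1 M.one_mem
    rwa [act_one] at h2

end Pool.FH
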