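import Pool.Agent.Work.MP_4c212b_al.STEP

/-!
# Block QL
-/

set_option autoImplicit false
set_option linter.unusedSectionVars false
set_option linter.unusedVariables false

open Subgroup
open scoped commutatorElement TensorProduct

namespace Pool.FH

namespace QLAux

open StepAux

section main

variable {k E V : Type} [Field k] [Group E] [Finite E] [AddCommGroup V] [Module k V]
variable {ρ : Representation k E V}

theorem mem_of_nzS_comm {B P : Subgroup E} (hB : NzS P B) {a b : E} (ha : a ∈ P) (hb : b ∈ B) :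
    ⁅a, b⁆ ∈ B := by
  rw [commutatorElement_def]
  exact B.mul_mem (hB a ha b hb) (B.inv_mem hb)

theorem mem_of_nzS_comm' {B P : Subgroup E} (hB : NzS P B) {a b : E} (ha : a ∈ P) (hb : b ∈ B) :
    ⁅b, a⁆ ∈ B := by
  rw [← commutatorElement_inv]
  exact B.inv_mem (mem_of_nzS_comm hB ha hb)

theorem comm_mem_of_nz {B : Subgroup E} {a b : E} (hB : Nz a B) (hb : b ∈ B) :
    ⁅a, b⁆ ∈ B := by
  rw [commutatorElement_def]
  exact B.mul_mem (hB b hb) (B.inv_mem hb)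

/-- use of the A-criterion -/
theorem useA' {p v r q : ℕ} {φ y : E} {Y H : Subgroup E} (yh : YH p v r q φ y Y H)
    (hvk : (v : k) ≠ 0) {W : Submodule k V} (hYW : InvS ρ Y W) (hφW : Inv ρ φ W)
    (hyW : Inv ρ y W) {X : Subgroup E} (h0 : kr ρ Y W ≤ X) (hXY : X ≤ Y)
    (nφX : Nz φ X) (nyX : Nz y X)
    (hab : ∀ a ∈ X, ∀ b ∈ X, ⁅a, b⁆ ∈ kr ρ Y W) {U : Submodule k V} (hU : U ∈ wts ρ X W)
    (hmov : U.map (ρ φ) ≠ U)
    (h : U.map (ρ y) ≠ U ∨ ∃ u ∈ U, ρ y u ≠ u) : ConcA ρ φ y Y := by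
  have : Fact p.Prime := ⟨yh.hp⟩
  have : Fact v.Prime := ⟨yh.hv⟩
  have : Fact q.Prime := ⟨yh.hq⟩
  obtain ⟨n, hn⟩ := yh.hy
  obtain ⟨w, hwW, hw1, hw2, hw3⟩ := acrit (ρ := ρ) (W := W) (X := X) yh.hpq yh.hφ hn
    yh.hc (card_ne_zero_of_isPGroup (yh.hY.to_le hXY) hvk) nφX nyX hφW hyW hU hmov h
  exact ⟨y, mem_zpowers y, X, kr ρ Y W, hXY, h0, nφX, kr_nz yh.nφY hφW, nyX, kr_nz yh.nyY hyW,
    fun g hg => kr_nz (Nz.of_mem (hXY hg)) (hYW g (hXY hg)), hab, w, hw1,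
    fun m hm => hm.2 w hwW, hw2, y, mem_zpowers y, hw3⟩

/-- Consequence of P1: if conclusion A fails, `M = Y H` fixes all weight spaces of `X`. -/
theorem stepP1 (hP1 : Stmt_P1) {p v r q : ℕ} {φ y : E} {Y H : Subgroup E}
    (yh : YH p v r q φ y Y H)
    (hvk : (v : k) ≠ 0) {W : Submodule k V} (hYW : InvS ρ Y W) (hHW : InvS ρ H W)
    (hφW : Inv ρ φ W) (hyW : Inv ρ y W) (hA : ¬ ConcA ρ φ y Y)
    {X : Subgroup E} (h0 : kr ρ Y W ≤ X) (hXY : X ≤ Y)
    (nYX : NzS Y X) (nHX : NzS H X) (nφX : Nz φ X) (nyX : Nz y X)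
    (hab : ∀ a ∈ X, ∀ b ∈ X, ⁅a, b⁆ ∈ kr ρ Y W) :
    ∀ g ∈ Y ⊔ H, ∀ U ∈ wts ρ X W, U.map (ρ g) = U := by
  have nM : NzS (Y ⊔ H) X := by
    have h1 : Y ⊔ H ≤ normalizer (X : Set E) := sup_le (Nz.le_normalizer nYX) (Nz.le_normalizer nHX)
    intro g hg x hx
    exact (mem_normalizer_iff.1 (h1 hg) x).1 hx
  have hMW : InvS ρ (Y ⊔ H) W := InvS.sup hYW hHW
  have key := hP1 E p v r q φ y Y H yh (Submodule k V)
    (fun g U => U.map (ρ g)) (fun U => StepAux.map_one_rho U)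
    (fun g h U => StepAux.map_mul_rho g h U)
    (wts ρ X W) (fun U hU => wts_map nφX hφW hU) (fun U hU => wts_map nyX hyW hU)
    (fun g hg U hU => wts_map (nM g hg) (hMW g hg) hU)
    (fun U hU hmov => by
      by_contra hx'
      exact hA (useA' yh hvk hYW hφW hyW h0 hXY nφX nyX hab hU hmov (Or.inl hx')))
  intro g hg U hU
  exact key g hg U hU

/-- if `y` is trivial on a subspace invariant under `M`, then `Y` is trivial. -/
theorem triv_of_y {p v r q : ℕ} {φ y : E} {Y H : Subgroup E} (yh : YH p v r q φ y Y H)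
    {U : Submodule k V} (hMU : InvS ρ (Y ⊔ H) U) (hy : ∀ u ∈ U, ρ y u = u) : Triv ρ Y U := by
  have : Fact v.Prime := ⟨yh.hv⟩
  have : Fact r.Prime := ⟨yh.hr⟩
  have hyi : ∀ u ∈ U, ρ y⁻¹ u = u := by
    intro u hu
    conv_lhs => rw [← hy u hu]
    exact rho_inv_apply y u
  have h1 : cm (Y ⊔ H) y ≤ krn ρ U := by
    refine cm_le_of' yh.nyM ?_
    intro m hm
    rw [mem_krn]
    intro u hu
    have hm' : ρ m⁻¹ u ∈ U := hMU _ ((Y ⊔ H).inv_mem hm) u hu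
    rw [commutatorElement_def, Pool.FH.rho_mul_apply, Pool.FH.rho_mul_apply,
      Pool.FH.rho_mul_apply, hyi u hu, hy _ hm', rho_apply_inv]
  have h2 : H ≤ krn ρ U :=
    (le_cm_of_sup yh.hvr yh.hY yh.hH yh.nHY yh.nyM yh.hHy).trans h1
  have h3 : ⁅Y, H⁆ ≤ krn ρ U := by
    rw [commutator_le]
    intro a ha b hb
    rw [mem_krn]
    intro u hu
    have hb' : ∀ u ∈ U, ρ b u = u := mem_krn.1 (h2 hb)
    have hbi : ∀ u ∈ U, ρ b⁻¹ u = u := mem_krn.1 (h2 (H.inv_mem hb))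
    have ha' : ρ a⁻¹ u ∈ U := hMU _ (le_sup_left (α := Subgroup E) (Y.inv_mem ha)) u hu
    rw [commutatorElement_def, Pool.FH.rho_mul_apply, Pool.FH.rho_mul_apply,
      Pool.FH.rho_mul_apply, hbi u hu, hb' _ ha', rho_apply_inv]
  intro g hg u hu
  exact mem_krn.1 (h3 (yh.hYH hg)) u hu

/-- Conclusion B from an element `z` acting on `U` as a scalar `≠ 1`. -/
theorem useB (hNZ : Stmt_NZ) [IsAlgClosed k] [FiniteDimensional k V]
    {p v r q : ℕ} {φ y : E} {Y H : Subgroup E} (yh : YH p v r q φ y Y H)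
    (hpk : (p : k) ≠ 0) (hvk : (v : k) ≠ 0) {W U : Submodule k V} (hUW : U ≤ W)
    (hYU : InvS ρ Y U) (hHU : InvS ρ H U) (hφU : Inv ρ φ U) (hnt : ¬ Triv ρ Y U)
    {z : E} (hzY : z ∈ Y) {s : k} (hs : ∀ u ∈ U, ρ z u = s • u) (hs1 : s ≠ 1) :
    goodB ρ φ Y (kr ρ Y W) z := by
  obtain ⟨w, hwU, hw0, hw1, hw2⟩ := hNZ k E V ρ p v r φ Y H ⊥ U yh.hp yh.hv yh.hr yh.hpv
    yh.hpr yh.hvr yh.hφ hpk hvk yh.hY yh.hH yh.nφY yh.nφH yh.nHY yh.hHφ hYU hHU hφU
    (fun g hg w _ => by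
      rw [mem_bot] at hg
      subst hg
      exact Pool.FH.rho_one_apply w) (yh.hYH.trans le_sup_left) hnt
  refine ⟨w, hw0, hw1, fun m hm => hm.2 w (hUW hwU), hw2, ?_⟩
  have hzU : InvS ρ (zpowers z) U := InvS.zpowers (hYU _ hzY)
  have h3 := hs _ (sm_mem hzU hwU)
  rw [rho_sm (mem_zpowers _)] at h3
  have h4 : (s - 1) • sm ρ (zpowers z) w = 0 := by
    rw [sub_smul, one_smul, ← h3, sub_self]
  rcases smul_eq_zero.1 h4 with h5 | h5
  · exact absurd (sub_eq_zero.1 h5) hs1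
  · exact h5

/-- If `c` commutes with `φ` and all `⁅c, x⁆`, `x ∈ X`, are scalars on `W`, then `c` commutes on
`W` with `[X, φ]`. -/
theorem comm_cm {φ c : E} {X : Subgroup E} {W : Submodule k V} (hXW : InvS ρ X W)
    (hcW : Inv ρ c W) (hφW : Inv ρ φ W) (hφX : Nz φ X) (hcφ : φ * c = c * φ)
    (hscal : ∀ x ∈ X, Scal ρ ⁅c, x⁆ W) :
    ∀ x ∈ cm X φ, ∀ w ∈ W, ρ c (ρ x w) = ρ x (ρ c w) := by
  let D : Subgroup E :=
    { carrier := {x | x ∈ X ∧ ∀ w ∈ W, ρ c (ρ x w) = ρ x (ρ c w)}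
      mul_mem' := by
        rintro a b ⟨ha, ha'⟩ ⟨hb, hb'⟩
        refine ⟨X.mul_mem ha hb, fun w hw => ?_⟩
        rw [Pool.FH.rho_mul_apply, Pool.FH.rho_mul_apply, ha' _ (hXW b hb w hw), hb' w hw]
      one_mem' := ⟨X.one_mem, fun w _ => by
        rw [Pool.FH.rho_one_apply, Pool.FH.rho_one_apply]⟩
      inv_mem' := by
        rintro a ⟨ha, ha'⟩
        refine ⟨X.inv_mem ha, fun w hw => ?_⟩
        have h1 := ha' (ρ a⁻¹ w) (hXW _ (X.inv_mem ha) w hw)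
        rw [rho_apply_inv] at h1
        rw [h1, rho_inv_apply] }
  have hDcm : cm X φ ≤ D := by
    refine cm_le_of' hφX ?_
    intro x hx
    have hφx : φ * x * φ⁻¹ ∈ X := hφX x hx
    have e : ⁅x, φ⁆ = x * (φ * x * φ⁻¹)⁻¹ := by
      rw [commutatorElement_def]; group
    refine ⟨comm_mem_self' hx hφx e, ?_⟩
    obtain ⟨s, hs⟩ := hscal x hx
    have P1 : ∀ w ∈ W, ρ c (ρ x w) = s • ρ x (ρ c w) := by
      intro w hw
      rw [← hs _ (hXW x hx _ (hcW w hw)), ← Pool.FH.rho_mul_apply,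
        ← Pool.FH.rho_mul_apply, ← Pool.FH.rho_mul_apply]
      congr 2
      rw [commutatorElement_def]; group
    have P2 : ∀ w ∈ W, ρ c (ρ (φ * x * φ⁻¹) w) = s • ρ (φ * x * φ⁻¹) (ρ c w) := by
      intro w hw
      have h1 := congrArg (ρ φ) (P1 _ (hφW.inv w hw))
      rw [map_smul, ← Pool.FH.rho_mul_apply, ← Pool.FH.rho_mul_apply, ← Pool.FH.rho_mul_apply,
        ← Pool.FH.rho_mul_apply, ← Pool.FH.rho_mul_apply, ← Pool.FH.rho_mul_apply] at h1
      rw [← Pool.FH.rho_mul_apply, ← Pool.FH.rho_mul_apply]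
      have e1 : c * (φ * x * φ⁻¹) = φ * c * x * φ⁻¹ := by
        rw [hcφ]; group
      have e2 : φ * x * φ⁻¹ * c = φ * x * c * φ⁻¹ := by
        have : φ⁻¹ * c = c * φ⁻¹ := by
          rw [inv_mul_eq_iff_eq_mul, ← mul_assoc, hcφ, mul_inv_cancel_right]
        rw [mul_assoc, this]; group
      rw [e1, e2]
      exact h1
    intro w hw
    have hw' : ρ (φ * x * φ⁻¹)⁻¹ w ∈ W := hXW _ (X.inv_mem hφx) w hw
    have h2 := P2 _ hw'
    rw [rho_apply_inv] at h2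
    rw [e, Pool.FH.rho_mul_apply, Pool.FH.rho_mul_apply, P1 _ hw', h2, map_smul, rho_inv_apply,
      map_smul]
  intro x hx
  exact (hDcm hx).2

end main

end QLAux

open StepAux QLAux in
/-- **QL** -/
theorem stmt_QL (hP1 : Stmt_P1) (hNZ : Stmt_NZ) (hQLQ : Stmt_QLQ) (hQLV : Stmt_QLV) : Stmt_QL := by
  intro k E V _ _ _ _ _ _ _ ρ p v r q φ y Y H B yh hpk hvk hqk hyB hBn hnt0 hvq
  have : Fact p.Prime := ⟨yh.hp⟩
  have : Fact v.Prime := ⟨yh.hv⟩
  have : Fact r.Prime := ⟨yh.hr⟩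
  have : Fact q.Prime := ⟨yh.hq⟩
  by_cases hA : ConcA ρ φ y Y
  · exact Or.inl hA
  right
  have hcY : (Nat.card Y : k) ≠ 0 := card_ne_zero_of_isPGroup yh.hY hvk
  -- an irreducible subspace
  set A : Set E := (Y : Set E) ∪ (H : Set E) ∪ {φ, y} with hAdef
  have hW1 : LinearMap.ker (sm ρ Y) ≠ ⊥ := by
    intro hbot
    obtain ⟨w, hw, x, hx⟩ := hnt0
    apply hx
    have h1 : ρ w x - x ∈ LinearMap.ker (sm ρ Y) := by
      rw [LinearMap.mem_ker, map_sub, sm_rho hw, sub_self]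
    rw [hbot, Submodule.mem_bot, sub_eq_zero] at h1
    exact h1
  have hinv1 : ∀ g : E, Nz g Y → Inv ρ g (LinearMap.ker (sm ρ Y)) := by
    intro g hg w hw
    rw [LinearMap.mem_ker] at hw
    rw [LinearMap.mem_ker, ← sm_comm hg, hw, map_zero]
  obtain ⟨W, hWle, hWne, hWA, hWmin⟩ := exists_irr (ρ := ρ) A hW1 (by
    rintro g ((hg | hg) | hg)
    · exact hinv1 g (Nz.of_mem hg)
    · exact hinv1 g (yh.nHY g hg)
    · rcases hg with hg | hg
      · subst hg; exact hinv1 _ yh.nφY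
      · rw [Set.mem_singleton_iff] at hg
        subst hg; exact hinv1 _ yh.nyY)
  have hYW : InvS ρ Y W := fun g hg => hWA g (Or.inl (Or.inl hg))
  have hHW : InvS ρ H W := fun g hg => hWA g (Or.inl (Or.inr hg))
  have hφW : Inv ρ φ W := hWA φ (Or.inr (Or.inl rfl))
  have hyW : Inv ρ y W := hWA y (Or.inr (Or.inr rfl))
  have hsmW : ∀ w ∈ W, sm ρ Y w = 0 := fun w hw => hWle hw
  have hntU : ∀ U ≤ W, U ≠ ⊥ → ¬ Triv ρ Y U := by
    intro U hUW hU h
    apply hU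
    rw [Submodule.eq_bot_iff]
    intro w hw
    exact eq_zero_of_fixed hcY (fun x hx => h x hx w hw) (hsmW w (hUW hw))
  have hnt : ¬ Triv ρ Y W := hntU W le_rfl hWne
  have hYN : NzS Y (kr ρ Y W) := fun g hg => kr_nz (Nz.of_mem hg) (hYW g hg)
  have hHN : NzS H (kr ρ Y W) := fun g hg => kr_nz (yh.nHY g hg) (hHW g hg)
  have hφN : Nz φ (kr ρ Y W) := kr_nz yh.nφY hφW
  have hyN : Nz y (kr ρ Y W) := kr_nz yh.nyY hyW
  -- step 1
  have step1 : ∀ X : Subgroup E, kr ρ Y W ≤ X → X ≤ Y → NzS Y X → NzS H X → Nz φ X → Nz y X →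
      (∀ a ∈ X, ∀ b ∈ X, ⁅a, b⁆ ∈ kr ρ Y W) → ∀ a ∈ X, ∀ b ∈ Y, ⁅a, b⁆ ∈ kr ρ Y W := by
    intro X h0 hXY nYX nHX nφX nyX hab a ha b hb
    have key := stepP1 hP1 yh hvk hYW hHW hφW hyW hA h0 hXY nYX nHX nφX nyX hab b
      (le_sup_left (α := Subgroup E) hb)
    have hXc : (Nat.card X : k) ≠ 0 := card_ne_zero_of_isPGroup (yh.hY.to_le hXY) hvk
    have hXW : InvS ρ X W := fun g hg => hYW g (hXY hg)
    have hABX : AbOn ρ X W := fun x hx y hy =>
      of_comm_mem_kr (hXW x hx) (hXW y hy) (hab x hx y hy)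
    have h1 := comm_of_wts_fixed (ρ := ρ) (nYX b hb) (hYW b hb) (wts_sup hXc hXW hABX) key a ha
    exact comm_mem_kr (comm_mem_self (hXY ha) hb) (hYW a (hXY ha)) (hYW b hb) h1
  have hcl : ∀ a ∈ Y, ∀ b ∈ Y, ∀ c ∈ Y, ⁅⁅a, b⁆, c⁆ ∈ kr ρ Y W := by
    refine class_two yh.hY kr_le hYN (A := (H : Set E) ∪ {φ, y}) ?_ ?_
    · rintro g (hg | hg | hg)
      · exact ⟨yh.nHY g hg, hHN g hg⟩
      · subst hg
        exact ⟨yh.nφY, hφN⟩
      · rw [Set.mem_singleton_iff] at hg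
        subst hg
        exact ⟨yh.nyY, hyN⟩
    · intro X h1 h2 h3 h4 h5
      exact step1 X h1 h2 h4 (fun g hg => h3 g (Or.inl hg)) (h3 φ (Or.inr (Or.inl rfl)))
        (h3 y (Or.inr (Or.inr rfl))) h5
  set Z : Subgroup E := cen Y (kr ρ Y W) hYN with hZ
  have hZY : Z ≤ Y := fun x hx => hx.1
  have h0Z : kr ρ Y W ≤ Z := by
    intro x hx
    exact ⟨hx.1, fun y hy => mem_of_nzS_comm' hYN hy hx⟩
  have nYZ : NzS Y Z := fun g hg => cen_nz (Nz.of_mem hg) (hYN g hg)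
  have nHZ : NzS H Z := fun g hg => cen_nz (yh.nHY g hg) (hHN g hg)
  have nφZ : Nz φ Z := cen_nz yh.nφY hφN
  have nyZ : Nz y Z := cen_nz yh.nyY hyN
  have hZab : ∀ a ∈ Z, ∀ b ∈ Z, ⁅a, b⁆ ∈ kr ρ Y W := fun a ha b hb => ha.2 b (hZY hb)
  have hZW : InvS ρ Z W := fun g hg => hYW g (hZY hg)
  have hZc : (Nat.card Z : k) ≠ 0 := card_ne_zero_of_isPGroup (yh.hY.to_le hZY) hvk
  have hABZ : AbOn ρ Z W := fun x hx y hy =>
    of_comm_mem_kr (hZW x hx) (hZW y hy) (hZab x hx y hy)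
  have hsup := wts_sup hZc hZW hABZ
  have hMU := stepP1 hP1 yh hvk hYW hHW hφW hyW hA h0Z hZY nYZ nHZ nφZ nyZ hZab
  have hMUi : ∀ U ∈ wts ρ Z W, InvS ρ (Y ⊔ H) U := fun U hU g hg => inv_of_map (hMU g hg U hU)
  -- (i) all weight spaces are fixed by `φ`
  have hUφ : ∀ U ∈ wts ρ Z W, U.map (ρ φ) = U := by
    intro U hU
    by_contra hmov
    have hyU : ∀ u ∈ U, ρ y u = u := by
      intro u hu
      by_contra h
      exact hA (useA' yh hvk hYW hφW hyW h0Z hZY nφZ nyZ hZab hU hmov (Or.inr ⟨u, hu, h⟩))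
    exact hntU U (Pool.FH.wts_le hU) hU.1 (triv_of_y yh (hMUi U hU) hyU)
  have hYle : Y ≤ Y ⊔ H := le_sup_left
  have hHle : H ≤ Y ⊔ H := le_sup_right
  by_cases hUy : ∃ U ∈ wts ρ Z W, U.map (ρ y) ≠ U
  · -- (ii)
    obtain ⟨U, hU, hUy⟩ := hUy
    have hU' : U.map (ρ y) ∈ wts ρ Z W := wts_map nyZ hyW hU
    obtain ⟨z0, hz0, hz0'⟩ : ∃ z0 ∈ fx Z φ, ¬ ∃ c : k, (∀ u ∈ U, ρ z0 u = c • u) ∧
        ∀ u ∈ U.map (ρ y), ρ z0 u = c • u := by
      by_contra hno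
      push Not at hno
      apply hUy
      obtain ⟨hUne, χ, hχ⟩ := hU
      obtain ⟨hUne', χ', hχ'⟩ := hU'
      have hχU : ∀ u ∈ U, ∀ x ∈ Z, ρ x u = χ x • u := by
        intro u hu; rw [hχ] at hu; exact hu.2
      have hχU' : ∀ u ∈ U.map (ρ y), ∀ x ∈ Z, ρ x u = χ' x • u := by
        intro u hu; rw [hχ'] at hu; exact hu.2
      obtain ⟨u0, hu0, hu00⟩ := Submodule.exists_mem_ne_zero_of_ne_bot hUne
      obtain ⟨u1, hu1, hu11⟩ := Submodule.exists_mem_ne_zero_of_ne_bot hUne'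
      rw [hχ', hχ]
      apply wsp_eq
      intro x hx
      obtain ⟨d, hd, c, hc, rfl⟩ := cm_decomp (n := 1) (by simpa using yh.hφ)
        (not_dvd_card_of_isPGroup yh.hpv (yh.hY.to_le hZY)) nφZ hx
      have hcZ := (mem_fx.1 hc).1
      have hdZ : d ∈ Z := cm_le nφZ hd
      obtain ⟨s, hs1, hs2⟩ := hno c hc
      have t1 := cm_triv_of_fixed nφZ hφW ⟨hUne, χ, hχ⟩ (hUφ U ⟨hUne, χ, hχ⟩) d hd
      have t2 := cm_triv_of_fixed nφZ hφW ⟨hUne', χ', hχ'⟩ (hUφ _ ⟨hUne', χ', hχ'⟩) d hd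
      have e1 : χ (d * c) = s := by
        have h1 := hχU u0 hu0 _ hx
        rw [Pool.FH.rho_mul_apply, hs1 u0 hu0, map_smul, t1 u0 hu0] at h1
        exact (smul_left_injective k hu00 h1).symm
      have e2 : χ' (d * c) = s := by
        have h1 := hχU' u1 hu1 _ hx
        rw [Pool.FH.rho_mul_apply, hs2 u1 hu1, map_smul, t2 u1 hu1] at h1
        exact (smul_left_injective k hu11 h1).symm
      rw [e1, e2]
    have hz0φ := (mem_fx.1 hz0).2
    have hz0Z := (mem_fx.1 hz0).1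
    have hz0Y := hZY hz0Z
    obtain ⟨c, hc⟩ := StepAux.wts_scal hU hz0Z
    obtain ⟨c', hc'⟩ := StepAux.wts_scal hU' hz0Z
    have hcc : c ≠ c' := by
      rintro rfl
      exact hz0' ⟨c, hc, hc'⟩
    -- the element `z = [z0, y]`
    have hzZ : ⁅z0, y⁆ ∈ Z := by
      rw [← commutatorElement_inv]
      exact Z.inv_mem (comm_mem_of_nz nyZ hz0Z)
    have hzB : ⁅z0, y⁆ ∈ B := by
      rw [commutatorElement_def]
      exact B.mul_mem (hBn z0 (mem_fx.2 ⟨hz0Y, hz0φ⟩) y hyB) (B.inv_mem hyB)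
    have hzφ : φ * ⁅z0, y⁆ = ⁅z0, y⁆ * φ := by
      have h1 : Commute φ z0 := hz0φ
      have h2 : Commute φ y := yh.hc
      rw [commutatorElement_def]
      exact ((h1.mul_right h2).mul_right h1.inv_right).mul_right h2.inv_right
    have hc0 : c ≠ 0 := by
      rintro rfl
      obtain ⟨u0, hu0, hu00⟩ := Submodule.exists_mem_ne_zero_of_ne_bot hU.1
      apply hu00
      have h1 := hc u0 hu0
      rw [zero_smul] at h1
      have h2 := rho_inv_apply (ρ := ρ) z0 u0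
      rw [h1, map_zero] at h2
      exact h2.symm
    have hci : ∀ u ∈ U, ρ z0⁻¹ u = c⁻¹ • u := by
      intro u hu
      have h1 := rho_inv_apply (ρ := ρ) z0 u
      rw [hc u hu, map_smul] at h1
      rw [← h1, smul_smul, inv_mul_cancel₀ hc0, one_smul, h1]
    have hzs : ∀ u ∈ U.map (ρ y), ρ ⁅z0, y⁆ u = (c' * c⁻¹) • u := by
      rintro _ ⟨u, hu, rfl⟩
      have e : ⁅z0, y⁆ = z0 * (y * (z0⁻¹ * y⁻¹)) := by rw [commutatorElement_def]; group
      have hyu : c⁻¹ • ρ y u ∈ U.map (ρ y) := Submodule.smul_mem _ _ ⟨u, hu, rfl⟩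
      rw [e, Pool.FH.rho_mul_apply, Pool.FH.rho_mul_apply, Pool.FH.rho_mul_apply,
        rho_inv_apply, hci u hu, map_smul, hc' _ hyu, smul_smul]
    have hs1 : c' * c⁻¹ ≠ 1 := by
      intro h
      apply hcc
      rw [mul_inv_eq_one₀ hc0] at h
      exact h.symm
    have hMU' := hMUi _ hU'
    refine ⟨kr ρ Y W, ⁅z0, y⁆, hZY hzZ, hzB, hzφ, kr_le, hφN, hYN, hzZ.2, ?_⟩
    exact useB hNZ yh hpk hvk (Pool.FH.wts_le hU') (fun g hg => hMU' g (hYle hg))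
      (fun g hg => hMU' g (hHle hg)) (inv_of_map (hUφ _ hU'))
      (hntU _ (Pool.FH.wts_le hU') hU'.1) (hZY hzZ) hzs hs1
  · -- (iii)
    push Not at hUy
    have hscal : ∀ x ∈ Z, Scal ρ x W := by
      obtain ⟨U, hU⟩ : ∃ U, U ∈ wts ρ Z W := by
        by_contra hno
        push Not at hno
        apply hWne
        rw [← hsup, sSup_eq_bot]
        intro U hU
        exact absurd hU (hno U)
      have hUW : U = W := by
        refine hWmin U (Pool.FH.wts_le hU) hU.1 ?_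
        rintro g ((hg | hg) | hg)
        · exact hMUi U hU g (hYle hg)
        · exact hMUi U hU g (hHle hg)
        · rcases hg with hg | hg
          · subst hg; exact inv_of_map (hUφ U hU)
          · rw [Set.mem_singleton_iff] at hg
            subst hg; exact inv_of_map (hUy U hU)
      intro x hx
      rw [← hUW]
      exact StepAux.wts_scal hU hx
    have hZiff : ∀ x, x ∈ Z ↔ x ∈ Y ∧ Scal ρ x W := by
      intro x
      constructor
      · intro hx; exact ⟨hZY hx, hscal x hx⟩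
      · rintro ⟨hx, c, hc⟩
        refine ⟨hx, fun b hb => comm_mem_kr (comm_mem_self hx hb) (hYW x hx) (hYW b hb) ?_⟩
        intro w hw
        rw [hc w hw, hc _ (hYW b hb w hw), map_smul]
    have hYnZ : ¬ Y ≤ Z := by
      intro hYZ
      apply hnt
      have h1 : ⁅Y, H⁆ ≤ kr ρ Y W := by
        rw [commutator_le]
        intro a ha b hb
        refine comm_mem_kr (mem_of_nzS_comm' yh.nHY hb ha) (hYW a ha) (hHW b hb) ?_
        intro w hw
        obtain ⟨c, hc⟩ := hscal a (hYZ ha)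
        rw [hc w hw, hc _ (hHW b hb w hw), map_smul]
      intro g hg
      exact (h1 (yh.hYH hg)).2
    -- choice of `X1`
    obtain ⟨X1, ⟨hZX, hXY, hXnZ, nHX, nφX, nyX⟩, hXmin⟩ :
        ∃ X1 : Subgroup E, (Z ≤ X1 ∧ X1 ≤ Y ∧ ¬ X1 ≤ Z ∧ NzS H X1 ∧ Nz φ X1 ∧ Nz y X1) ∧
          ∀ X' : Subgroup E, Z ≤ X' → X' ≤ X1 → NzS H X' → Nz φ X' → Nz y X' →
            X' = Z ∨ X' = X1 := by
      have hne : {X : Subgroup E | Z ≤ X ∧ X ≤ Y ∧ ¬ X ≤ Z ∧ NzS H X ∧ Nz φ X ∧ Nz y X}.Nonempty :=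
        ⟨Y, hZY, le_rfl, hYnZ, yh.nHY, yh.nφY, yh.nyY⟩
      obtain ⟨X1, hX1⟩ := (Set.toFinite _).exists_minimal hne
      refine ⟨X1, hX1.prop, ?_⟩
      intro X' h1 h2 h3 h4 h5
      by_cases h6 : X' ≤ Z
      · exact Or.inl (le_antisymm h6 h1)
      · refine Or.inr (le_antisymm h2 (hX1.le_of_le ⟨h1, h2.trans hX1.prop.2.1, h6, h3, h4, h5⟩ h2))
    have hclZ : ∀ a ∈ Y, ∀ b ∈ Y, ⁅a, b⁆ ∈ Z := fun a ha b hb =>
      ⟨comm_mem_self ha hb, fun c hc => hcl a ha b hb c hc⟩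
    have nYX : NzS Y X1 := by
      intro g hg x hx
      have e : g * x * g⁻¹ = ⁅g, x⁆ * x := by rw [commutatorElement_def]; group
      rw [e]
      exact X1.mul_mem (hZX (hclZ g hg x (hXY hx))) hx
    have hel : ∀ a ∈ X1, a ^ v ∈ Z := by
      have hXv : IsPGroup v X1 := yh.hY.to_le hXY
      have hPhi : Z ⊔ Phi v X1 ≤ X1 := sup_le hZX Phi_le
      rcases hXmin (Z ⊔ Phi v X1) le_sup_left hPhi (fun g hg => (nHZ g hg).sup (Phi_nz (nHX g hg)))
        (nφZ.sup (Phi_nz nφX)) (nyZ.sup (Phi_nz nyX)) with h | h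
      · intro a ha
        rw [← h]
        exact le_sup_right (α := Subgroup E) (subset_closure (Or.inr ⟨a, ha, rfl⟩))
      · exfalso
        exact hXnZ (Phi_gen hXv hZX h.ge).ge
    have hnd : ∀ a ∈ X1, (∀ b ∈ X1, ∀ w ∈ W, ρ ⁅a, b⁆ w = w) → a ∈ Z := by
      have hXN : NzS X1 (kr ρ Y W) := fun g hg => hYN g (hXY hg)
      have hR1 : Z ≤ cen X1 (kr ρ Y W) hXN := fun a ha =>
        ⟨hZX ha, fun b hb => ha.2 b (hXY hb)⟩
      have hR2 : cen X1 (kr ρ Y W) hXN ≤ X1 := fun a ha => ha.1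
      rcases hXmin _ hR1 hR2 (fun g hg => cen_nz (nHX g hg) (hHN g hg)) (cen_nz nφX hφN)
        (cen_nz nyX hyN) with h | h
      · intro a ha hab
        rw [← h]
        exact ⟨ha, fun b hb => ⟨comm_mem_self (hXY ha) (hXY hb), hab b hb⟩⟩
      · exfalso
        apply hXnZ
        have h1 : ∀ a ∈ X1, ∀ b ∈ X1, ⁅a, b⁆ ∈ kr ρ Y W := by
          intro a ha
          rw [← h] at ha
          exact ha.2
        intro a ha
        exact ⟨hXY ha, step1 X1 (h0Z.trans hZX) hXY nYX nHX nφX nyX h1 a ha⟩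
    by_cases h5 : ∀ a ∈ X1, ⁅φ, a⁆ ∈ Z → ⁅y, a⁆ ∈ Z
    · -- (5b)
      exfalso
      apply hA
      have hent : ∃ a ∈ X1, ∃ h ∈ H, ⁅h, a⁆ ∉ Z := by
        by_contra hno
        push Not at hno
        apply hXnZ
        intro a ha
        exact fxS_abelian yh.hH (not_dvd_card_of_isPGroup yh.hvr.symm yh.hY) yh.nHY hZY nHZ hclZ
          (yh.hYH.trans le_sup_left) (hXY ha) (fun h hh => hno a ha h hh)
      have ext : Ext5 ρ p v r q φ y Y H Z X1 W :=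
        { yh := yh, hp := hpk, hv := hvk, hq := hqk, hW := hWne, iY := hYW, iH := hHW,
          iφ := hφW, iy := hyW, hZ := hZiff, hZX := hZX, hXY := hXY, nY := nYX, nH := nHX,
          nφ := nφX, ny := nyX, cl := fun a ha b hb => hclZ a (hXY ha) b hb, el := hel,
          nd := hnd, mn := hXmin, nt := hent, hy0 := h5 }
      by_cases hvq' : v = q
      · subst hvq'
        exact hQLQ k E V ρ p r v φ y Y H Z X1 W ext
      · exact hQLV k E V ρ p v r q φ y Y H Z X1 W ext hvq' (hvq hvq').1 (hvq hvq').2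
    · -- (5a)
      push Not at h5
      obtain ⟨a, ha, haφ, hay⟩ := h5
      have haY := hXY ha
      obtain ⟨n, hn, hnφ⟩ := cp_fix1 (g := a) yh.hφ
        (not_dvd_card_of_isPGroup yh.hpv (yh.hY.to_le hZY)) nφZ (by
          have h1 := nYZ a⁻¹ (Y.inv_mem haY) _ haφ
          have e : a⁻¹ * ⁅φ, a⁆ * a⁻¹⁻¹ = a⁻¹ * (φ * a * φ⁻¹) := by
            rw [commutatorElement_def]; group
          rwa [e] at h1)
      set a' := a * n with ha'
      have ha'X : a' ∈ X1 := X1.mul_mem ha (hZX hn)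
      have ha'Y := hXY ha'X
      have ha'y : ⁅a', y⁆ ∉ Z := by
        intro h
        apply hay
        have h1 : ⁅y, a'⁆ ∈ Z := by
          rw [← commutatorElement_inv]
          exact Z.inv_mem h
        have e : ⁅y, a⁆ = ⁅y, a'⁆ * (a * (⁅y, n⁆)⁻¹ * a⁻¹) := by
          rw [ha']
          simp only [commutatorElement_def]; group
        rw [e]
        exact Z.mul_mem h1 (nYZ a haY _ (Z.inv_mem (comm_mem_of_nz nyZ hn)))
      have hcX : ⁅a', y⁆ ∈ X1 := by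
        rw [← commutatorElement_inv]
        exact X1.inv_mem (comm_mem_of_nz nyX ha'X)
      have hcY' := hXY hcX
      have hcφ : φ * ⁅a', y⁆ = ⁅a', y⁆ * φ := by
        have h1 : Commute φ a' := hnφ
        have h2 : Commute φ y := yh.hc
        rw [commutatorElement_def]
        exact ((h1.mul_right h2).mul_right h1.inv_right).mul_right h2.inv_right
      have hcB : ⁅a', y⁆ ∈ B := by
        rw [commutatorElement_def]
        exact B.mul_mem (hBn a' (mem_fx.2 ⟨ha'Y, hnφ⟩) y hyB) (B.inv_mem hyB)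
      generalize hcdef : ⁅a', y⁆ = c at ha'y hcX hcY' hcφ hcB
      obtain ⟨x, hx, hxc⟩ : ∃ x ∈ fx X1 φ, ⁅c, x⁆ ∉ kr ρ Y W := by
        by_contra hno
        push Not at hno
        apply ha'y
        apply hnd c hcX
        have hcm := comm_cm (ρ := ρ) (φ := φ) (c := c) (X := X1) (W := W)
          (fun g hg => hYW g (hXY hg)) (hYW c hcY') hφW nφX hcφ
          (fun x hx => hscal _ (hclZ c hcY' x (hXY hx)))
        intro b hb
        obtain ⟨d, hd, f, hf, rfl⟩ := cm_decomp (n := 1) (by simpa using yh.hφ)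
          (not_dvd_card_of_isPGroup yh.hpv (yh.hY.to_le hXY)) nφX hb
        have hdY : d ∈ Y := hXY (cm_le nφX hd)
        have hfY : f ∈ Y := hXY (mem_fx.1 hf).1
        have hfc : ∀ w ∈ W, ρ c (ρ f w) = ρ f (ρ c w) :=
          of_comm_mem_kr (hYW c hcY') (hYW f hfY) (hno f hf)
        have hmem : ⁅c, d * f⁆ ∈ kr ρ Y W := by
          refine comm_mem_kr (comm_mem_self hcY' (Y.mul_mem hdY hfY)) (hYW c hcY')
            (hYW _ (Y.mul_mem hdY hfY)) ?_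
          intro w hw
          rw [Pool.FH.rho_mul_apply, Pool.FH.rho_mul_apply, hcm d hd _ (hYW f hfY w hw),
            hfc w hw]
        exact hmem.2
      have hxX := (mem_fx.1 hx).1
      have hxφ := (mem_fx.1 hx).2
      have hxY := hXY hxX
      have hzZ : ⁅c, x⁆ ∈ Z := hclZ c hcY' x hxY
      have hzB : ⁅c, x⁆ ∈ B := mem_of_nzS_comm' hBn (mem_fx.2 ⟨hxY, hxφ⟩) hcB
      have hzφ : φ * ⁅c, x⁆ = ⁅c, x⁆ * φ := by
        have h1 : Commute φ c := hcφ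
        have h2 : Commute φ x := hxφ
        rw [commutatorElement_def]
        exact ((h1.mul_right h2).mul_right h1.inv_right).mul_right h2.inv_right
      obtain ⟨s, hs⟩ := hscal _ hzZ
      have hs1 : s ≠ 1 := by
        rintro rfl
        exact hxc ⟨hZY hzZ, fun w hw => by rw [hs w hw, one_smul]⟩
      exact ⟨kr ρ Y W, ⁅c, x⁆, hZY hzZ, hzB, hzφ, kr_le, hφN, hYN, hzZ.2,
        useB hNZ yh hpk hvk le_rfl hYW hHW hφW hnt (hZY hzZ) hs hs1⟩

end Pool.FH
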