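import Pool.Agent.Work.MP_4c212b_al.Interface

/-!
# Block QLQ, part (a): the case `v = q = 3`, `p = 2`
-/

set_option autoImplicit false

open Subgroup
open scoped commutatorElement

namespace Pool.FH

/-- an `r`-element (`r ≥ 5`) of a group acting on an `F_3`-space with `dim [T, h] ≤ 2` acts
trivially -/
theorem exc3_aux {E T : Type} [Group E] [Finite E] [AddCommGroup T] [Module (ZMod 3) T] [Finite T]
    (ρ : Representation (ZMod 3) E T) {r n : ℕ} (hr : r.Prime) (hr5 : 5 ≤ r) {h : E}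
    (hh : h ^ r ^ n = 1)
    (hle : Module.finrank (ZMod 3) (LinearMap.range (ρ h - 1)) ≤ 2) : ∀ x, ρ h x = x := by
  have : Fact r.Prime := ⟨hr⟩
  have : Fact (Nat.Prime 3) := ⟨Nat.prime_three⟩
  set U : Submodule (ZMod 3) T := LinearMap.range (ρ h - 1) with hU
  have hUh : ∀ u ∈ U, ρ h u ∈ U := by
    rintro _ ⟨t, rfl⟩
    refine ⟨ρ h t, ?_⟩
    simp only [LinearMap.sub_apply, Module.End.one_apply, map_sub]
  have hUg : ∀ g ∈ zpowers h, ∀ u ∈ U, ρ g u ∈ U := by
    intro g hg
    obtain ⟨k, rfl⟩ := exists_pow_of_mem_zpowers hg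
    induction k with
    | zero => intro u hu; simpa using hu
    | succ k ih =>
      intro u hu
      rw [pow_succ', rho_mul_apply]
      exact hUh _ (ih (pow_mem (mem_zpowers h) k) u hu)
  let act : MulAction (zpowers h) U :=
    { smul := fun g u => ⟨ρ (g : E) u, hUg g g.2 u u.2⟩
      one_smul := fun u => Subtype.ext (by
        change ρ ((1 : zpowers h) : E) (u : T) = u
        simp)
      mul_smul := fun a b u => Subtype.ext (by
        change ρ ((a * b : zpowers h) : E) (u : T) = ρ (a : E) (ρ (b : E) u)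
        rw [Subgroup.coe_mul, rho_mul_apply]) }
  have hP : IsPGroup r (zpowers h) := isPGroup_zpowers hh
  have hmod := hP.card_modEq_card_fixedPoints U
  -- the fixed points
  set F : Submodule (ZMod 3) T := U ⊓ LinearMap.ker (ρ h - 1) with hF
  have hfp : Nat.card (MulAction.fixedPoints (zpowers h) U) = Nat.card F := by
    refine Nat.card_congr
      { toFun := fun u => ⟨(u : U), ?_⟩
        invFun := fun f => ⟨⟨f, f.2.1⟩, ?_⟩
        left_inv := fun u => rfl
        right_inv := fun f => rfl }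
    · refine ⟨(u : U).2, ?_⟩
      rw [SetLike.mem_coe, LinearMap.mem_ker, LinearMap.sub_apply, Module.End.one_apply, sub_eq_zero]
      exact congrArg Subtype.val (u.2 ⟨h, mem_zpowers h⟩)
    · rintro ⟨g, hg⟩
      apply Subtype.ext
      change ρ g (f : T) = f
      have hf : ρ h (f : T) = f := by
        have := f.2.2
        rwa [SetLike.mem_coe, LinearMap.mem_ker, LinearMap.sub_apply, Module.End.one_apply,
          sub_eq_zero] at this
      obtain ⟨k, rfl⟩ := exists_pow_of_mem_zpowers hg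
      clear hg
      induction k with
      | zero => simp
      | succ k ih => rw [pow_succ, rho_mul_apply, hf, ih]
  rw [hfp] at hmod
  have c1 : Nat.card U = 3 ^ Module.finrank (ZMod 3) U := by
    rw [Module.natCard_eq_pow_finrank (K := ZMod 3) (V := U)]
    simp
  have c2 : Nat.card F = 3 ^ Module.finrank (ZMod 3) F := by
    rw [Module.natCard_eq_pow_finrank (K := ZMod 3) (V := F)]
    simp
  have hFU : F ≤ U := inf_le_left
  have hrk : Module.finrank (ZMod 3) F ≤ Module.finrank (ZMod 3) U := Submodule.finrank_mono hFU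
  have heq : Module.finrank (ZMod 3) F = Module.finrank (ZMod 3) U := by
    rw [c1, c2] at hmod
    have hdvd := (Nat.modEq_iff_dvd' (Nat.pow_le_pow_right (by omega) hrk)).1 hmod.symm
    generalize Module.finrank (ZMod 3) F = b at *
    generalize Module.finrank (ZMod 3) U = a at *
    have hb : b ≤ 2 := by omega
    interval_cases a <;> interval_cases b <;> simp only [pow_zero, pow_one, Nat.sub_self] at * <;>
      first
        | rfl
        | (exfalso; norm_num at hdvd; have := Nat.le_of_dvd (by omega) hdvd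
           first
             | omega
             | (interval_cases r <;> revert hdvd hr <;> decide))
  have hFeq : F = U := Submodule.eq_of_le_of_finrank_eq hFU heq
  have hsq : ∀ t, ρ h (ρ h t) = ρ h t + (ρ h t - t) := by
    intro t
    have h1 : ρ h t - t ∈ U := ⟨t, by simp⟩
    rw [← hFeq] at h1
    have h2 := h1.2
    rw [SetLike.mem_coe, LinearMap.mem_ker, LinearMap.sub_apply, Module.End.one_apply, map_sub,
      sub_eq_zero, sub_eq_iff_eq_add] at h2
    rw [h2]; abel
  have h3 : ∀ t, ρ (h ^ 3) t = t := by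
    intro t
    have e : ρ (h ^ 3) t = ρ h (ρ h (ρ h t)) := by
      rw [pow_succ, pow_two, rho_mul_apply, rho_mul_apply]
    have h3 : (3 : ZMod 3) • (ρ h t - t) = 0 := by
      rw [show (3 : ZMod 3) = 0 by rfl, zero_smul]
    rw [show (3 : ZMod 3) = 1 + 1 + 1 by rfl, add_smul, add_smul, one_smul] at h3
    rw [e, hsq (ρ h t), hsq t]
    have e2 : ρ h t + (ρ h t - t) + (ρ h t + (ρ h t - t) - ρ h t) =
        t + (ρ h t - t + (ρ h t - t) + (ρ h t - t)) := by abel
    rw [e2, h3, add_zero]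
  have hcop : IsCoprime (3 : ℤ) ((r ^ n : ℕ) : ℤ) := by
    rw [show (3 : ℤ) = ((3 : ℕ) : ℤ) by rfl, Nat.isCoprime_iff_coprime]
    apply Nat.Coprime.pow_right
    exact (Nat.coprime_primes Nat.prime_three hr).2 (by omega)
  obtain ⟨a, b, hab⟩ := hcop
  have h4 : h = (h ^ 3) ^ a := by
    have h5 : h ^ (1 : ℤ) = h := zpow_one h
    rw [← hab, zpow_add, mul_comm b, zpow_mul h ((r ^ n : ℕ) : ℤ), zpow_natCast, hh, one_zpow,
      mul_one, mul_comm a, zpow_mul] at h5
    rw [← zpow_natCast]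
    exact h5.symm
  intro x
  have h6 : h ^ 3 ∈ krn ρ (⊤ : Submodule (ZMod 3) T) := mem_krn.2 fun w _ => h3 w
  have h7 := (krn ρ (⊤ : Submodule (ZMod 3) T)).zpow_mem h6 a
  rw [← h4] at h7
  exact mem_krn.1 h7 x Submodule.mem_top

/-- the exceptional case `v = q = 3`, `p = 2` of QLQ -/
theorem exc3 (E T : Type) [Group E] [Finite E] [AddCommGroup T] [Module (ZMod 3) T] [Finite T]
    (ρ : Representation (ZMod 3) E T) (r : ℕ) (φ y : E) (Y H : Subgroup E)
    (hYH : YH 2 3 r 3 φ y Y H) (hY : ∀ w ∈ Y, ∀ x, ρ w x = x) (hH : ∃ h ∈ H, ∃ x, ρ h x ≠ x) :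
    1 < Module.finrank (ZMod 3) (LinearMap.range (ρ y - 1)) := by
  by_contra hle
  push Not at hle
  have : Fact r.Prime := ⟨hYH.hr⟩
  have : Fact (Nat.Prime 3) := ⟨Nat.prime_three⟩
  have hr5 : 5 ≤ r := by
    have h1 := hYH.hpr
    have h2 := hYH.hvr
    have h3 := hYH.hr.two_le
    by_contra hlt
    have h4 : r = 4 := by omega
    have h5 := hYH.hr
    rw [h4] at h5
    revert h5; decide
  have key : cm (Y ⊔ H) y ≤ krn ρ (⊤ : Submodule (ZMod 3) T) := by
    refine cm_le_of' hYH.nyM ?_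
    intro g hg
    have hmem : ⁅g, y⁆ ∈ Y ⊔ H := by
      have e : ⁅g, y⁆ = g * (y * g⁻¹ * y⁻¹) := by rw [commutatorElement_def]; group
      rw [e]
      exact (Y ⊔ H).mul_mem hg (hYH.nyM _ ((Y ⊔ H).inv_mem hg))
    obtain ⟨w, hw, h, hh, hwh⟩ := mem_sup_of_nz hYH.nHY hmem
    have hρ : ∀ t, ρ ⁅g, y⁆ t = ρ h t := by
      intro t
      rw [hwh, rho_mul_apply, hY w hw]
    obtain ⟨n, hn⟩ := hYH.hH ⟨h, hh⟩
    have hn' : h ^ r ^ n = 1 := by simpa using congrArg Subtype.val hn
    rw [mem_krn]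
    intro t _
    rw [hρ]
    refine exc3_aux ρ hYH.hr hr5 hn' ?_ t
    -- the rank is at most `1 + 1`
    set R := LinearMap.range (ρ y - 1) with hR
    have hle2 : LinearMap.range (ρ h - 1) ≤ R.map (ρ g) ⊔ R := by
      rintro _ ⟨t, rfl⟩
      have e1 : (ρ h - 1) t = ρ (g * y * g⁻¹) (ρ y⁻¹ t) - ρ y (ρ y⁻¹ t) := by
        rw [rho_apply_inv, LinearMap.sub_apply, Module.End.one_apply, ← hρ, ← rho_mul_apply,
          commutatorElement_def]
      have e2 : ρ (g * y * g⁻¹) (ρ y⁻¹ t) - ρ y (ρ y⁻¹ t) =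
          ρ g ((ρ y - 1) (ρ g⁻¹ (ρ y⁻¹ t))) - (ρ y - 1) (ρ y⁻¹ t) := by
        simp only [LinearMap.sub_apply, Module.End.one_apply, map_sub, rho_mul_apply,
          rho_apply_inv]
        abel
      rw [e1, e2, sub_eq_add_neg]
      exact Submodule.add_mem_sup ⟨_, ⟨_, rfl⟩, rfl⟩ (R.neg_mem ⟨_, rfl⟩)
    have f1 := Submodule.finrank_mono hle2
    have f2 := Submodule.finrank_add_le_finrank_add_finrank (R.map (ρ g)) R
    have f3 : Module.finrank (ZMod 3) (R.map (ρ g)) ≤ Module.finrank (ZMod 3) R :=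
      Submodule.finrank_map_le (ρ g) R
    omega
  obtain ⟨h, hh, x, hx⟩ := hH
  apply hx
  have h1 := (le_cm_of_sup hYH.hvr hYH.hY hYH.hH hYH.nHY hYH.nyM hYH.hHy).trans key
  exact mem_krn.1 (h1 hh) x Submodule.mem_top

end Pool.FH
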