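import Pool.Agent.Work.MP_4c212b_al.Interface

/-! # MP_4c212b_al : `YH` in a subgroup (helper3) -/

set_option autoImplicit false

open Subgroup
open scoped commutatorElement

namespace Pool.FH

theorem YH.subOf_map {E : Type} [Group E] {G0 K : Subgroup E} (hK : K ≤ G0) :
    (K.subgroupOf G0).map G0.subtype = K := by
  rw [Subgroup.subgroupOf_map_subtype, inf_eq_left.2 hK]

theorem YH.subOf_zp {E : Type} [Group E] {G0 : Subgroup E} {x : E} (hx : x ∈ G0) :
    (zpowers (⟨x, hx⟩ : ↥G0)).map G0.subtype = zpowers x := by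
  rw [MonoidHom.map_zpowers]; rfl

theorem YH.subOf_le {E : Type} [Group E] {G0 : Subgroup E} {A B : Subgroup ↥G0}
    (h : A.map G0.subtype ≤ B.map G0.subtype) : A ≤ B := by
  intro x hx
  obtain ⟨z, hz, hzx⟩ := h (mem_map_of_mem _ hx)
  have : z = x := G0.subtype_injective hzx
  exact this ▸ hz

theorem YH.subOf {E : Type} [Group E] [Finite E] {p v r q : ℕ} {φ y : E} {Y H : Subgroup E}
    (h : YH p v r q φ y Y H) (G0 : Subgroup E) (hφ : φ ∈ G0) (hy : y ∈ G0) (hY : Y ≤ G0)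
    (hH : H ≤ G0) :
    YH p v r q (⟨φ, hφ⟩ : ↥G0) ⟨y, hy⟩ (Y.subgroupOf G0) (H.subgroupOf G0) where
  hp := h.hp
  hv := h.hv
  hr := h.hr
  hq := h.hq
  hpv := h.hpv
  hpr := h.hpr
  hpq := h.hpq
  hvr := h.hvr
  hqr := h.hqr
  hφ := Subtype.ext (by simpa using h.hφ)
  hy := by
    obtain ⟨n, hn⟩ := h.hy
    exact ⟨n, Subtype.ext (by simpa using hn)⟩
  hc := Subtype.ext h.hc
  hY := h.hY.comap_subtype
  hH := h.hH.comap_subtype
  nφY := fun x hx => h.nφY x.1 hx
  nφH := fun x hx => h.nφH x.1 hx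
  nHY := fun g hg x hx => h.nHY g.1 hg x.1 hx
  nyY := fun x hx => h.nyY x.1 hx
  nyM := by
    intro x hx
    have h1 : (Y.subgroupOf G0 ⊔ H.subgroupOf G0).map G0.subtype = Y ⊔ H := by
      rw [Subgroup.map_sup, YH.subOf_map hY, YH.subOf_map hH]
    have h2 : x.1 ∈ Y ⊔ H := by
      rw [← h1]; exact mem_map_of_mem _ hx
    have h3 := h.nyM _ h2
    rw [← h1] at h3
    obtain ⟨z, hz, hzx⟩ := h3
    have : z = (⟨y, hy⟩ : ↥G0) * x * (⟨y, hy⟩ : ↥G0)⁻¹ := G0.subtype_injective hzx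
    exact this ▸ hz
  hYH := by
    apply YH.subOf_le
    rw [Subgroup.map_commutator, YH.subOf_map hY, YH.subOf_map hH]
    exact h.hYH
  hHφ := by
    apply YH.subOf_le
    rw [cm, Subgroup.map_commutator, YH.subOf_map hH, YH.subOf_zp hφ]
    exact h.hHφ
  hHy := by
    apply YH.subOf_le
    rw [Subgroup.map_sup, cm, Subgroup.map_commutator, Subgroup.map_sup, YH.subOf_map hY,
      YH.subOf_map hH, YH.subOf_zp hy]
    exact h.hHy

end Pool.FH
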