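import Pool.Agent.Work.MP_4c212b_al.QLQ3
import Pool.Agent.Work.MP_4c212b_al.QLQ_a
import Pool.Agent.Work.MP_4c212b_al.QLQ_b

/-!
# Block QLQ
-/

set_option autoImplicit false

open Subgroup
open scoped commutatorElement

namespace Pool.FH
namespace QLQaux

open DBaux QForm

section

variable {k E V T : Type} [Field k] [IsAlgClosed k] [Group E] [Finite E] [AddCommGroup V]
  [Module k V] [FiniteDimensional k V] [AddCommGroup T] {p r q : ℕ} [hq : Fact q.Prime]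
  [Module (ZMod q) T] [Finite T]
  {ρ : Representation k E V}
  {φ y : E} {Y H Z X1 : Subgroup E} {W : Submodule k V} {f : ↥X1 → T}
  {θ σ : T →ₗ[ZMod q] T} {B : T →ₗ[ZMod q] T →ₗ[ZMod q] ZMod q} {ω : k}

namespace Sit

variable (h : Sit p r q ρ φ y Y H Z X1 W f θ σ B ω)

include h

theorem F_count (x : ↥X1) (hx : f x ≠ 0) :
    q * Module.finrank k (W ⊓ Module.End.eigenspace (ρ (x : E)) 1 : Submodule k V) ≤
      Module.finrank k W := by
  classical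
  obtain ⟨F, hF⟩ : ∃ F, F = (W ⊓ Module.End.eigenspace (ρ (x : E)) 1 : Submodule k V) := ⟨_, rfl⟩
  rw [← hF]
  obtain ⟨t, ht⟩ : ∃ t, B (f x) t ≠ 0 := by
    by_contra hcon
    push Not at hcon
    exact hx (h.nd _ hcon)
  obtain ⟨c, rfl⟩ := h.fs t
  have hrel := h.rel x c
  obtain ⟨n, hn⟩ : ∃ n, n = (B (f x) (f c)).val := ⟨_, rfl⟩
  rw [← hn] at hrel
  have hn0 : n ≠ 0 := by
    rw [hn]
    intro h0
    exact ht ((ZMod.val_eq_zero _).1 h0)
  have hnq : n < q := by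
    rw [hn]
    exact ZMod.val_lt _
  have hcop : Nat.Coprime n q := by
    rw [Nat.coprime_comm]
    apply (Nat.Prime.coprime_iff_not_dvd hq.out).2
    intro hd
    exact absurd (Nat.le_of_dvd (Nat.pos_of_ne_zero hn0) hd) (not_le.2 hnq)
  have hprim : IsPrimitiveRoot (ω ^ n) q := h.pr.pow_of_coprime n hcop
  have hind : iSupIndep (fun i : Fin q =>
      Module.End.eigenspace (ρ (x : E)) ((ω ^ n) ^ (i : ℕ))) := by
    apply (Module.End.eigenspaces_iSupIndep (ρ (x : E))).comp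
      (f := fun i : Fin q => (ω ^ n) ^ (i : ℕ))
    intro i j hij
    exact Fin.ext (hprim.pow_inj i.2 j.2 hij)
  have hind2 : iSupIndep (fun i : Fin q => F.map (ρ ((c : E) ^ (i : ℕ)))) := by
    apply hind.mono
    intro i
    rintro _ ⟨u, hu, rfl⟩
    rw [hF] at hu
    rw [Module.End.mem_eigenspace_iff]
    have h1 := hrel.pow_right (h.iX c c.2) (i : ℕ) u hu.1
    have h2 : ρ (x : E) u = u := by
      have h3 := Module.End.mem_eigenspace_iff.1 hu.2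
      rwa [one_smul] at h3
    rw [h2] at h1
    exact h1
  have h1 := sum_finrank_le Finset.univ _ hind2 W (by
    intro i _
    rintro _ ⟨u, hu, rfl⟩
    rw [hF] at hu
    exact (h.iX c c.2).pow i u hu.1)
  rw [Finset.sum_congr rfl (fun i _ => finrank_map_rho _ F), Finset.sum_const,
    Finset.card_univ, Fintype.card_fin, smul_eq_mul] at h1
  exact h1

theorem dim_ineq : (q - 1) * q ^ Module.finrank (ZMod q) (II θ) ≤ 2 * q := by
  obtain ⟨U0, hU0, hU0'⟩ := h.exists_U0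
  obtain ⟨s, hs⟩ : ∃ s, θ s ≠ s := by
    by_contra hcon
    push Not at hcon
    exact h.ne (LinearMap.ext hcon)
  obtain ⟨b, rfl⟩ := h.fs s
  have hg : y * b * y⁻¹ ∈ X1 := h.ext.ny b b.2
  obtain ⟨x, hx⟩ : ∃ x : ↥X1, x = b * (⟨y * b * y⁻¹, hg⟩ : ↥X1)⁻¹ := ⟨_, rfl⟩
  have hfx : f x ≠ 0 := by
    rw [hx, h.fa, h.finv, h.fθ b ⟨y * b * y⁻¹, hg⟩ rfl, ← sub_eq_add_neg, sub_ne_zero]
    exact hs.symm
  have hxE : (x : E) = y⁻¹ * ((y * b * y⁻¹) * y * (y * b * y⁻¹)⁻¹) := by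
    rw [hx]
    change (b : E) * (y * b * y⁻¹)⁻¹ = _
    group
  have h1 := h.F_count x hfx
  obtain ⟨F, hF⟩ : ∃ F, F = (W ⊓ Module.End.eigenspace (ρ (x : E)) 1 : Submodule k V) := ⟨_, rfl⟩
  rw [← hF] at h1
  have h2 : W ≤ (U0 ⊔ U0.map (ρ (y * b * y⁻¹))) ⊔ F := by
    conv_lhs => rw [← h.Om_sup]
    apply sSup_le
    intro U hU
    by_cases e1 : U = U0
    · rw [e1]
      exact le_sup_of_le_left le_sup_left
    by_cases e2 : U = U0.map (ρ (y * b * y⁻¹))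
    · rw [e2]
      exact le_sup_of_le_left le_sup_right
    apply le_sup_of_le_right
    rw [hF]
    intro u hu
    refine ⟨wts_le hU hu, ?_⟩
    rw [SetLike.mem_coe, Module.End.mem_eigenspace_iff, one_smul, hxE]
    exact h.triv_on hU0' hg hU e1 e2 u hu
  have h3 := (Submodule.finrank_mono h2).trans
    (Submodule.finrank_add_le_finrank_add_finrank (U0 ⊔ U0.map (ρ (y * b * y⁻¹))) F)
  have h4 := Submodule.finrank_add_le_finrank_add_finrank U0 (U0.map (ρ (y * b * y⁻¹)))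
  rw [finrank_map_rho] at h4
  have h5 := h.U_count hU0
  have h6 : 0 < Module.finrank k U0 := by
    rw [Module.finrank_pos_iff, Submodule.nontrivial_iff_ne_bot]
    exact hU0.1
  obtain ⟨D, hD⟩ : ∃ D, D = Module.finrank k W := ⟨_, rfl⟩
  obtain ⟨d, hd⟩ : ∃ d, d = Module.finrank k U0 := ⟨_, rfl⟩
  obtain ⟨e, he⟩ : ∃ e, e = Module.finrank k F := ⟨_, rfl⟩
  obtain ⟨Q, hQ⟩ : ∃ Q, Q = q ^ Module.finrank (ZMod q) (II θ) := ⟨_, rfl⟩
  rw [← hD] at h1 h3 h5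
  rw [← hd] at h4 h5 h6
  rw [← he] at h1 h3
  rw [← hQ] at h5 ⊢
  have h7 : D ≤ d + d + e := by omega
  obtain ⟨q', hq'⟩ : ∃ q', q = q' + 1 := ⟨q - 1, by have := hq.out.two_le; omega⟩
  rw [hq'] at h1 ⊢
  rw [Nat.add_sub_cancel]
  apply Nat.le_of_mul_le_mul_right _ h6
  nlinarith

theorem range_eq : Module.finrank (ZMod q) (LinearMap.range (θ - 1)) =
    Module.finrank (ZMod q) (II θ) := by
  have h1 : LinearMap.range (θ - 1) = II θ := by
    apply le_antisymm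
    · rintro _ ⟨s, rfl⟩
      exact h.range_le s
    · exact inf_le_right
  rw [h1]

theorem cases : (q = 2 ∧ Module.finrank (ZMod q) (II θ) = 2 ∧ p = 3) ∨
    (q = 3 ∧ Module.finrank (ZMod q) (II θ) = 1 ∧ p = 2) := by
  have h1 := h.dim_ineq
  have h2 := h.m_pos
  have h3 := h.three_le
  have h4 := h.card_mod
  obtain ⟨m, hm⟩ : ∃ m, Module.finrank (ZMod q) (II θ) = m + 1 :=
    ⟨Module.finrank (ZMod q) (II θ) - 1, by omega⟩
  rw [hm] at h1 h3 h4 ⊢
  have hq2 := hq.out.two_le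
  have hp := h.ext.yh.hp
  clear hm h2
  have h5 : (q - 1) * q ^ m ≤ 2 := by
    rw [pow_succ, ← mul_assoc] at h1
    exact Nat.le_of_mul_le_mul_right h1 (by omega)
  have h6 : 1 ≤ q ^ m := Nat.one_le_pow _ _ (by omega)
  have h7 : q ≤ 3 := by
    by_contra hcon
    have : 3 ≤ q - 1 := by omega
    nlinarith
  have h8 : q = 2 ∨ q = 3 := by omega
  have hpd : ∀ N, 1 ≤ N → N ≡ 1 [MOD p] → p ∣ N - 1 := fun N hN hc =>
    (Nat.modEq_iff_dvd' hN).1 hc.symm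
  rcases h8 with h8 | h8
  · left
    rw [h8] at h3 h4 h5
    have h9 : m = 1 := by
      rcases m with _ | _ | m
      · norm_num at h3
      · rfl
      · exfalso
        have h10 : 2 ^ 2 ≤ 2 ^ (m + 2) := Nat.pow_le_pow_right (by norm_num) (by omega)
        norm_num at h5 h10
        omega
    rw [h9] at h4
    have h10 := hpd _ (by norm_num) h4
    norm_num at h10
    exact ⟨h8, by rw [h9], (Nat.prime_dvd_prime_iff_eq hp Nat.prime_three).1 h10⟩
  · right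
    rw [h8] at h4 h5
    have h9 : m = 0 := by
      rcases m with _ | m
      · rfl
      · exfalso
        have h10 : 3 ^ 1 ≤ 3 ^ (m + 1) := Nat.pow_le_pow_right (by norm_num) (by omega)
        omega
    rw [h9] at h4
    have h10 := hpd _ (by norm_num) h4
    norm_num at h10
    exact ⟨h8, by rw [h9], (Nat.prime_dvd_prime_iff_eq hp Nat.prime_two).1 h10⟩

end Sit

theorem main_of (hEXC : Stmt_EXC) (hQMOD : Stmt_QMOD) (hE : Ext5 ρ p q r q φ y Y H Z X1 W) :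
    ConcA ρ φ y Y := by
  by_contra hnc
  have hnW : ∀ g, Nz g Y → Inv ρ g W → Nz g Z := by
    intro g h1 h2 z hz
    obtain ⟨h3, c, h4⟩ := (hE.hZ z).1 hz
    refine (hE.hZ _).2 ⟨h1 z h3, c, fun w hw => ?_⟩
    rw [rho_mul_apply, rho_mul_apply, h4 _ (h2.inv w hw), map_smul, rho_apply_inv]
  let G0 : Subgroup E :=
    { carrier := {g | Nz g X1 ∧ Nz g Z}
      one_mem' := ⟨Nz.one _, Nz.one _⟩
      mul_mem' := fun h1 h2 => ⟨h1.1.mul h2.1, h1.2.mul h2.2⟩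
      inv_mem' := fun h1 => ⟨h1.1.inv, h1.2.inv⟩ }
  have hYG : Y ≤ G0 := fun b hb => ⟨hE.nY b hb, hnW b (Nz.of_mem hb) (hE.iY b hb)⟩
  have hHG : H ≤ G0 := fun b hb => ⟨hE.nH b hb, hnW b (hE.yh.nHY b hb) (hE.iH b hb)⟩
  have hφG : φ ∈ G0 := ⟨hE.nφ, hnW φ hE.yh.nφY hE.iφ⟩
  have hyG : y ∈ G0 := ⟨hE.ny, hnW y hE.yh.nyY hE.iy⟩
  have hXG : X1 ≤ G0 := hE.hXY.trans hYG
  have n1 : (X1.subgroupOf G0).Normal := ⟨fun a ha g => g.2.1 a ha⟩
  have n2 : (Z.subgroupOf G0).Normal := ⟨fun a ha g => g.2.2 a ha⟩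
  obtain ⟨T, _, _, _, τ, f', hf's, hf'a, hf'0, hf'τ⟩ := hQMOD ↥G0 q (X1.subgroupOf G0)
    (Z.subgroupOf G0) (fun a ha => hE.hZX ha) (fun a ha b hb => hE.cl a ha b (hE.hXY hb))
    (fun a ha => hE.el a ha)
  let f : ↥X1 → T := fun a => f' ⟨⟨a, hXG a.2⟩, a.2⟩
  have hfs : Function.Surjective f := by
    intro t
    obtain ⟨a, rfl⟩ := hf's t
    exact ⟨⟨a.1.1, a.2⟩, rfl⟩
  have hfa : ∀ x x', f (x * x') = f x + f x' := fun x x' =>
    hf'a ⟨⟨x, hXG x.2⟩, x.2⟩ ⟨⟨x', hXG x'.2⟩, x'.2⟩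
  have hf0 : ∀ x, f x = 0 ↔ (x : E) ∈ Z := fun x =>
    hf'0 ⟨⟨x, hXG x.2⟩, x.2⟩
  have hfτ : ∀ (g : ↥G0) (x x' : ↥X1), (x' : E) = g * x * (g : E)⁻¹ → f x' = τ g (f x) :=
    fun g x x' hx => hf'τ g ⟨⟨x, hXG x.2⟩, x.2⟩ ⟨⟨x', hXG x'.2⟩, x'.2⟩ (Subtype.ext hx)
  obtain ⟨ω, B, h1, h2, h3, h4⟩ := exists_form q hE.hv X1 Z hE.hW
    (fun a ha => hE.iY a (hE.hXY ha)) hE.hZX (fun z hz => ((hE.hZ z).1 hz).2)
    (fun a ha b hb => hE.cl a ha b (hE.hXY hb)) hE.el hE.nd f hfs hfa hf0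
  -- differences
  have hfd : ∀ a b : ↥X1, f a = f b ↔ (a : E) * (b : E)⁻¹ ∈ Z := by
    intro a b
    have e1 := hfa (a * b⁻¹) b
    rw [inv_mul_cancel_right] at e1
    rw [e1, add_eq_right]
    exact hf0 _
  have hne : τ ⟨y, hyG⟩ ≠ 1 := by
    intro hone
    let K : Subgroup E :=
      { carrier := {g | g ∈ G0 ∧ ∀ a ∈ X1, ⁅g, a⁆ ∈ Z}
        one_mem' := ⟨one_mem _, fun a _ => by
          rw [commutatorElement_one_left]
          exact one_mem _⟩
        mul_mem' := by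
          rintro g g' ⟨hg, hg'⟩ ⟨hh, hh'⟩
          refine ⟨G0.mul_mem hg hh, fun a ha => ?_⟩
          have e1 : ⁅g * g', a⁆ = g * ⁅g', a⁆ * g⁻¹ * ⁅g, a⁆ := by
            simp only [commutatorElement_def]
            group
          rw [e1]
          exact Z.mul_mem (hg.2 _ (hh' a ha)) (hg' a ha)
        inv_mem' := by
          rintro g ⟨hg, hg'⟩
          refine ⟨G0.inv_mem hg, fun a ha => ?_⟩
          have e1 : ⁅g⁻¹, a⁆ = g⁻¹ * ⁅g, a⁆⁻¹ * (g⁻¹)⁻¹ := by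
            simp only [commutatorElement_def]
            group
          rw [e1]
          exact (G0.inv_mem hg).2 _ (Z.inv_mem (hg' a ha)) }
    have hKn : ∀ g ∈ G0, Nz g K := by
      rintro g hg x ⟨hx, hx'⟩
      refine ⟨G0.mul_mem (G0.mul_mem hg hx) (G0.inv_mem hg), fun a ha => ?_⟩
      have e1 : ⁅g * x * g⁻¹, a⁆ = g * ⁅x, g⁻¹ * a * g⁆ * g⁻¹ := by
        simp only [commutatorElement_def]
        group
      rw [e1]
      apply hg.2
      apply hx'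
      have e2 := hg.1.inv a ha
      rwa [inv_inv] at e2
    have hyK : y ∈ K := by
      refine ⟨hyG, fun a ha => ?_⟩
      have e1 := hfτ ⟨y, hyG⟩ ⟨a, ha⟩ ⟨y * a * y⁻¹, hE.ny a ha⟩ rfl
      rw [hone, Module.End.one_apply, hfd] at e1
      rw [commutatorElement_def]
      exact e1
    have hYK : Y ≤ K := by
      intro b hb
      refine ⟨hYG hb, fun a ha => ?_⟩
      have e1 := Z.inv_mem (hE.cl a ha b hb)
      rwa [commutatorElement_inv] at e1
    have hHK : H ≤ K := by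
      refine hE.yh.hHy.trans (sup_le ?_ hYK)
      apply cm_le_of' hE.yh.nyM
      intro x hx
      have hxG : x ∈ G0 := (sup_le hYG hHG) hx
      rw [commutatorElement_def]
      exact K.mul_mem (hKn x hxG y hyK) (K.inv_mem hyK)
    obtain ⟨a, ha, b, hb, hab⟩ := hE.nt
    exact hab ((hHK hb).2 a ha)
  have hS : Sit p r q ρ φ y Y H Z X1 W f (τ ⟨y, hyG⟩) (τ ⟨φ, hφG⟩) B ω :=
    { ext := hE
      fs := hfs
      fa := hfa
      f0 := hf0
      fθ := fun x x' hx => hfτ ⟨y, hyG⟩ x x' hx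
      fσ := fun x x' hx => hfτ ⟨φ, hφG⟩ x x' hx
      pr := h1
      rel := h2
      alt := h3
      nd := h4
      ne := hne
      nc := hnc }
  have hyh := hE.yh.subOf G0 hφG hyG hYG hHG
  have hYt : ∀ w ∈ Y.subgroupOf G0, ∀ t, τ w t = t := by
    intro w hw t
    obtain ⟨a, rfl⟩ := hfs t
    have e0 : (w : E) * a * (w : E)⁻¹ ∈ X1 := w.2.1 a a.2
    rw [← hfτ w a ⟨_, e0⟩ rfl, hfd]
    have e1 := Z.inv_mem (hE.cl a a.2 w hw)
    rw [commutatorElement_inv] at e1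
    exact e1
  have hHt : ∃ w ∈ H.subgroupOf G0, ∃ t, τ w t ≠ t := by
    obtain ⟨a, ha, b, hb, hab⟩ := hE.nt
    refine ⟨⟨b, hHG hb⟩, hb, f ⟨a, ha⟩, fun e1 => hab ?_⟩
    rw [← hfτ ⟨b, hHG hb⟩ ⟨a, ha⟩ ⟨b * a * b⁻¹, hE.nH b hb a ha⟩ rfl, hfd] at e1
    rw [commutatorElement_def]
    exact e1
  have hr := hS.range_eq
  rcases hS.cases with ⟨c1, c2, c3⟩ | ⟨c1, c2, c3⟩
  · subst c1
    subst c3
    rw [c2] at hr
    have e1 := hEXC ↥G0 T τ r ⟨φ, hφG⟩ ⟨y, hyG⟩ (Y.subgroupOf G0) (H.subgroupOf G0) hyh hYt hHt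
      (by
        intro t
        have e2 := (mem_II.1 (hS.range_le t)).1
        rw [map_sub, sub_eq_sub_iff_add_eq_add] at e2
        rw [pow_two, map_mul, Module.End.mul_apply]
        have e3 : ∀ s : T, s + s = 0 := by
          intro s
          have e4 : (2 : ZMod 2) • s = s + s := two_smul _ s
          rw [← e4]
          have e5 : (2 : ZMod 2) = 0 := rfl
          rw [e5, zero_smul]
        rw [e3] at e2
        have e6 : τ ⟨y, hyG⟩ (τ ⟨y, hyG⟩ t) + t + t = 0 + t := by rw [e2]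
        rw [add_assoc, e3, add_zero, zero_add] at e6
        exact e6)
    omega
  · subst c1
    subst c3
    rw [c2] at hr
    have e1 := exc3 ↥G0 T τ r ⟨φ, hφG⟩ ⟨y, hyG⟩ (Y.subgroupOf G0) (H.subgroupOf G0) hyh hYt hHt
    omega

end

end QLQaux

theorem stmt_QLQ (hEXC : Stmt_EXC) (hQMOD : Stmt_QMOD) : Stmt_QLQ := by
  intro k E V _ _ _ _ _ _ _ ρ p r q φ y Y H Z X1 W hE
  have : Fact q.Prime := ⟨hE.yh.hq⟩
  exact QLQaux.main_of hEXC hQMOD hE

end Pool.FH
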