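import Pool.Agent.Work.MP_4c212b_al.Interface

/-!
# Block QLV of MP_4c212b_al: case `v ≠ q`
-/

set_option autoImplicit false
set_option linter.unusedSectionVars false

open Subgroup
open scoped commutatorElement TensorProduct

namespace Pool.FH

namespace QLV

/-! ### linear algebra -/

section LA

variable {k : Type} [Field k] {T : Type} [AddCommGroup T] [Module k T]

/-- A nondegenerate alternating form lives on a space of even dimension. -/
theorem even_of_alt [FiniteDimensional k T] (h2 : (2 : k) ≠ 0) (B : T →ₗ[k] T →ₗ[k] k)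
    (halt : ∀ x, B x x = 0) (hnd : ∀ x, (∀ y, B x y = 0) → x = 0) :
    Even (Module.finrank k T) := by
  by_contra hodd
  rw [Nat.not_even_iff_odd] at hodd
  let b := Module.finBasis k T
  let A : Matrix (Fin (Module.finrank k T)) (Fin (Module.finrank k T)) k :=
    Matrix.of fun i j => B (b i) (b j)
  have hA : A.transpose = -A := by
    ext i j
    have h := halt (b i + b j)
    simp only [map_add, LinearMap.add_apply, halt, zero_add, add_zero] at h
    change B (b j) (b i) = -B (b i) (b j)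
    linear_combination h
  have hdet : A.det = 0 := by
    have h1 := congrArg Matrix.det hA
    rw [Matrix.det_transpose, Matrix.det_neg, Fintype.card_fin, hodd.neg_one_pow] at h1
    have h3 : 2 * A.det = 0 := by linear_combination h1
    exact (mul_eq_zero.mp h3).resolve_left h2
  obtain ⟨v, hv, hv'⟩ := Matrix.exists_vecMul_eq_zero_iff.mpr hdet
  apply hv
  have h1 : ∑ i, v i • b i = 0 := by
    apply hnd
    intro y
    have h2 : B (∑ i, v i • b i) = 0 := by
      apply b.ext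
      intro j
      have h3 := congrFun hv' j
      simp only [Matrix.vecMul, dotProduct] at h3
      simp only [map_sum, map_smul, LinearMap.sum_apply, LinearMap.smul_apply, smul_eq_mul,
        LinearMap.zero_apply]
      exact h3
    rw [h2, LinearMap.zero_apply]
  funext i
  exact Fintype.linearIndependent_iff.mp b.linearIndependent v h1 i

variable (K : Type) [Field K] [Algebra k K]

theorem finrank_le_of_proj [FiniteDimensional k T] (e : T →ₗ[k] T) (T' : Submodule k T)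
    (h : ∀ x, e x ∈ T') (U : Submodule K (K ⊗[k] T)) (hU : ∀ z ∈ U, e.baseChange K z = z) :
    Module.finrank K U ≤ Module.finrank k T' := by
  let e' : T →ₗ[k] T' := e.codRestrict T' h
  have h1 : e = T'.subtype ∘ₗ e' := by ext x; rfl
  have h2 : Function.Injective ((e'.baseChange K).domRestrict U) := by
    rw [injective_iff_map_eq_zero]
    rintro ⟨z, hz⟩ h0
    have h3 : e'.baseChange K z = 0 := h0
    have h4 := hU z hz
    rw [h1, LinearMap.baseChange_comp, LinearMap.comp_apply, h3, map_zero] at h4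
    exact Subtype.ext h4.symm
  have h3 := LinearMap.finrank_le_finrank_of_injective h2
  rwa [Module.finrank_baseChange] at h3

theorem finrank_eq_of_proj [FiniteDimensional k T] (e : T →ₗ[k] T) (T' : Submodule k T)
    (h : ∀ x, e x ∈ T') (h' : ∀ x ∈ T', e x = x) (U : Submodule K (K ⊗[k] T))
    (hU : ∀ z ∈ U, e.baseChange K z = z) (hU' : ∀ z, e.baseChange K z ∈ U) :
    Module.finrank K U = Module.finrank k T' := by
  apply le_antisymm (finrank_le_of_proj K e T' h U hU)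
  let e' : T →ₗ[k] T' := e.codRestrict T' h
  have h1 : e = T'.subtype ∘ₗ e' := by ext x; rfl
  have h1' : e' ∘ₗ T'.subtype = LinearMap.id := by
    ext x; exact h' x.1 x.2
  have h2 : Function.Injective (T'.subtype.baseChange K) := by
    apply Function.LeftInverse.injective (g := e'.baseChange K)
    intro z
    rw [← LinearMap.comp_apply, ← LinearMap.baseChange_comp, h1', LinearMap.baseChange_id,
      LinearMap.id_apply]
  have h4 : ∀ z, T'.subtype.baseChange K z ∈ U := by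
    intro z
    have h5 : T'.subtype.baseChange K z = e.baseChange K (T'.subtype.baseChange K z) := by
      rw [h1, LinearMap.baseChange_comp, LinearMap.comp_apply]
      congr 1
      rw [← LinearMap.comp_apply, ← LinearMap.baseChange_comp, h1', LinearMap.baseChange_id,
        LinearMap.id_apply]
    rw [h5]; exact hU' _
  let g : (K ⊗[k] T') →ₗ[K] U := (T'.subtype.baseChange K).codRestrict U h4
  have h5 : Function.Injective g := by
    intro a b hab
    exact h2 (congrArg Subtype.val hab)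
  have h6 := LinearMap.finrank_le_finrank_of_injective h5
  rwa [Module.finrank_baseChange] at h6

end LA

section Grp

variable {E : Type} [Group E] [Finite E]

/-- elements of `⟨R, φ, y⟩` -/
theorem mem_sup3 {R : Subgroup E} {φ y : E} (hφ : Nz φ R) (hy : Nz y R) (hc : φ * y = y * φ)
    {g : E} (hg : g ∈ closure ((R : Set E) ∪ {φ, y})) :
    ∃ i j : ℤ, g * (φ ^ i * y ^ j)⁻¹ ∈ R := by
  have hcc : ∀ i j : ℤ, φ ^ i * y ^ j = y ^ j * φ ^ i := fun i j =>
    ((show Commute φ y from hc).zpow_zpow i j)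
  have hnz : ∀ i j : ℤ, Nz (φ ^ i * y ^ j) R := fun i j => (hφ.zpow i).mul (hy.zpow j)
  induction hg using closure_induction with
  | mem x hx =>
    rcases hx with hx | hx | hx
    · exact ⟨0, 0, by simpa using hx⟩
    · exact ⟨1, 0, by simp [hx]⟩
    · rw [Set.mem_singleton_iff] at hx
      exact ⟨0, 1, by simp [hx]⟩
  | one => exact ⟨0, 0, by simp⟩
  | mul a b _ _ ha hb =>
    obtain ⟨i, j, h1⟩ := ha
    obtain ⟨i', j', h2⟩ := hb
    refine ⟨i + i', j + j', ?_⟩
    have h3 := R.mul_mem h1 (hnz i j _ h2)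
    have h4 : (φ ^ (i + i') * y ^ (j + j')) = (φ ^ i * y ^ j) * (φ ^ i' * y ^ j') := by
      rw [zpow_add, zpow_add, mul_assoc, mul_assoc, ← mul_assoc (φ ^ i'), hcc i' j,
        mul_assoc (y ^ j)]
    rw [h4]
    have h5 : a * (φ ^ i * y ^ j)⁻¹ * (φ ^ i * y ^ j * (b * (φ ^ i' * y ^ j')⁻¹) *
        (φ ^ i * y ^ j)⁻¹) = a * b * (φ ^ i * y ^ j * (φ ^ i' * y ^ j'))⁻¹ := by group
    rwa [h5] at h3
  | inv a _ ha =>
    obtain ⟨i, j, h1⟩ := ha
    refine ⟨-i, -j, ?_⟩
    have h2 := (hnz i j).inv _ (R.inv_mem h1)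
    have h4 : (φ ^ (-i) * y ^ (-j)) = (φ ^ i * y ^ j)⁻¹ := by
      rw [mul_inv_rev, ← zpow_neg, ← zpow_neg, hcc]
    rw [h4]
    have h5 : (φ ^ i * y ^ j)⁻¹ * (a * (φ ^ i * y ^ j)⁻¹)⁻¹ * ((φ ^ i * y ^ j)⁻¹)⁻¹ =
        a⁻¹ * ((φ ^ i * y ^ j)⁻¹)⁻¹ := by group
    rwa [h5] at h2

theorem card_closure_ne {v p q r n : ℕ} (hv : v.Prime) (hp : p.Prime) (hq : q.Prime)
    (hr : r.Prime) (hvp : p ≠ v) (hvq : q ≠ v) (hvr : r ≠ v) {R : Subgroup E} {φ y : E}
    (hR : IsPGroup r R) (hφp : φ ^ p = 1) (hyq : y ^ q ^ n = 1) (hφ : Nz φ R) (hy : Nz y R)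
    (hc : φ * y = y * φ) : ¬ v ∣ Nat.card (closure ((R : Set E) ∪ {φ, y}) : Subgroup E) := by
  intro hdvd
  have : Fact v.Prime := ⟨hv⟩
  obtain ⟨⟨g, hg⟩, hgo⟩ := exists_prime_orderOf_dvd_card' v hdvd
  rw [Subgroup.orderOf_mk] at hgo
  obtain ⟨i, j, h1⟩ := mem_sup3 hφ hy hc hg
  set s := φ ^ i * y ^ j with hs
  have hsn : Nz s R := (hφ.zpow i).mul (hy.zpow j)
  have hcc : Commute (φ ^ i) (y ^ j) := (show Commute φ y from hc).zpow_zpow i j
  have h2 : ∀ m : ℕ, g ^ m * (s ^ m)⁻¹ ∈ R := by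
    intro m
    induction m with
    | zero => simp
    | succ m ih =>
      have h3 := R.mul_mem ih ((hsn.pow m) _ h1)
      have h5 : g ^ m * (s ^ m)⁻¹ * (s ^ m * (g * s⁻¹) * (s ^ m)⁻¹) =
          g ^ (m + 1) * (s ^ (m + 1))⁻¹ := by
        rw [pow_succ g, pow_succ s]; group
      rwa [h5] at h3
  have h3 : s ^ (p * q ^ n) = 1 := by
    rw [hs, hcc.mul_pow]
    have h4 : (φ ^ i) ^ (p * q ^ n) = 1 := by
      rw [← zpow_natCast, ← zpow_mul, mul_comm, zpow_mul, zpow_natCast, pow_mul, hφp, one_pow,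
        one_zpow]
    have h5 : (y ^ j) ^ (p * q ^ n) = 1 := by
      rw [← zpow_natCast, ← zpow_mul, mul_comm, zpow_mul, zpow_natCast, mul_comm p, pow_mul, hyq,
        one_pow, one_zpow]
    rw [h4, h5, one_mul]
  have h4 := h2 (p * q ^ n)
  rw [h3, inv_one, mul_one] at h4
  obtain ⟨m, hm⟩ := hR ⟨_, h4⟩
  have h5 : g ^ (p * q ^ n * r ^ m) = 1 := by
    rw [pow_mul]
    exact congrArg Subtype.val hm
  have h6 := orderOf_dvd_of_pow_eq_one h5
  rw [hgo] at h6
  rcases (Nat.Prime.dvd_mul hv).mp h6 with h7 | h7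
  · rcases (Nat.Prime.dvd_mul hv).mp h7 with h8 | h8
    · exact hvp ((Nat.prime_dvd_prime_iff_eq hv hp).mp h8).symm
    · exact hvq ((Nat.prime_dvd_prime_iff_eq hv hq).mp (hv.dvd_of_dvd_pow h8)).symm
  · exact hvr ((Nat.prime_dvd_prime_iff_eq hv hr).mp (hv.dvd_of_dvd_pow h7)).symm

end Grp

section Core

theorem InvS_closure {k E V : Type} [Field k] [Group E] [Finite E] [AddCommGroup V] [Module k V]
    {ρ : Representation k E V} {A : Set E} {W : Submodule k V} (h : ∀ g ∈ A, Inv ρ g W) :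
    InvS ρ (closure A) W := by
  intro g hg
  induction hg using closure_induction with
  | mem x hx => exact h x hx
  | one => intro w hw; simpa using hw
  | mul a b _ _ ha hb => exact ha.mul hb
  | inv a _ ha => exact ha.inv

theorem sm_eq_sum {k E V : Type} [Field k] [Group E] [AddCommGroup V] [Module k V]
    (ρ : Representation k E V) (H : Subgroup E) [Fintype H] :
    sm ρ H = ∑ h : H, ρ (h : E) := by
  rw [sm, finsum_eq_sum_of_fintype]

theorem bc_sm {k E V : Type} [Field k] [Group E] [Finite E] [AddCommGroup V] [Module k V]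
    (K : Type) [Field K] [Algebra k K] (ρ : Representation k E V) (H : Subgroup E) :
    (sm ρ H).baseChange K = sm (bc K ρ) H := by
  classical
  have := Fintype.ofFinite H
  rw [sm_eq_sum, sm_eq_sum]
  refine LinearMap.ext fun z => ?_
  induction z using TensorProduct.induction_on with
  | zero => simp
  | tmul c x =>
    simp only [LinearMap.baseChange_tmul, LinearMap.sum_apply, TensorProduct.tmul_sum, bc_tmul]
  | add a b ha hb => rw [map_add, map_add, ha, hb]

variable {E T : Type} [Group E] [Finite E] [AddCommGroup T] {v : ℕ} [hv : Fact v.Prime]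
  [Module (ZMod v) T] [Finite T]

theorem core (hW : Stmt_W) (hISO : Stmt_ISO) (τ : Representation (ZMod v) E T)
    (faithful : ∀ g, (∀ x, τ g x = x) → g = 1)
    (B : T →ₗ[ZMod v] T →ₗ[ZMod v] ZMod v) (halt : ∀ x, B x x = 0)
    (hnd : ∀ x, (∀ y, B x y = 0) → x = 0)
    (p q r : ℕ) (φ y : E) (H : Subgroup E) (n : ℕ)
    (hp : p.Prime) (hq : q.Prime) (hr : r.Prime) (hpq : p ≠ q) (hpr : p ≠ r) (hqr : q ≠ r)
    (hpv : p ≠ v) (hqv : q ≠ v) (hrv : r ≠ v)
    (hφp : φ ^ p = 1) (hyq : y ^ q ^ n = 1) (hc : φ * y = y * φ)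
    (hH : IsPGroup r H) (nφ : Nz φ H) (ny : Nz y H) (hHy : H ≤ cm H y) (hH1 : H ≠ ⊥)
    (hC : ∀ x ∈ fx H φ, x * y = y * x) (hy0 : ∀ x, τ φ x = x → τ y x = x)
    (hB : ∀ g : E, ∀ x x', B (τ g x) (τ g x') = B x x')
    (hmin : ∀ U : Submodule (ZMod v) T, Inv τ φ U → Inv τ y U → InvS τ H U → U = ⊥ ∨ U = ⊤) :
    v ≠ 2 ∧ ∃ y0 ∈ zpowers y, ∃ w, w ≠ 0 ∧ τ y0 w = -w ∧ ∀ i : ℕ, B w (τ (φ ^ i) w) = 0 := by
  classical
  have : Fact p.Prime := ⟨hp⟩
  have : Fact q.Prime := ⟨hq⟩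
  have : Fact r.Prime := ⟨hr⟩
  -- a power of `y` acting with order `q` on `H`
  have hnc : ¬ ∀ x ∈ H, x * y = y * x := by
    intro h
    apply hH1
    rw [eq_bot_iff]
    refine hHy.trans (cm_le_of' ny fun x hx => ?_)
    rw [mem_bot, commutatorElement_eq_one_iff_mul_comm]
    exact h x hx
  have hex : ∃ a : ℕ, ∀ x ∈ H, x * y ^ q ^ a = y ^ q ^ a * x :=
    ⟨n, fun x _ => by rw [hyq, one_mul, mul_one]⟩
  obtain ⟨b, hb⟩ : ∃ b, Nat.find hex = b + 1 := by
    apply Nat.exists_eq_succ_of_ne_zero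
    intro h0
    have h1 := Nat.find_spec hex
    rw [h0, pow_zero, pow_one] at h1
    exact hnc h1
  have hb1 : ∀ x ∈ H, x * y ^ q ^ (b + 1) = y ^ q ^ (b + 1) * x := by
    have h1 := Nat.find_spec hex
    rwa [hb] at h1
  have hb0 : ¬ ∀ x ∈ H, x * y ^ q ^ b = y ^ q ^ b * x := Nat.find_min hex (by omega)
  set y0 := y ^ q ^ b with hy0def
  have hy0q : y0 ^ q = y ^ q ^ (b + 1) := by rw [hy0def, ← pow_mul, pow_succ]
  have hy0n : y0 ^ q ^ n = 1 := by
    rw [hy0def, ← pow_mul, mul_comm, pow_mul, hyq, one_pow]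
  have hc0 : φ * y0 = y0 * φ := ((show Commute φ y from hc).pow_right _)
  have hyy0 : y * y0 = y0 * y := ((Commute.refl y).pow_right _)
  have ny0 : Nz y0 H := ny.pow _
  have hC0 : ∀ x ∈ fx H φ, x * y0 = y0 * x := fun x hx =>
    ((show Commute x y from hC x hx).pow_right _)
  obtain ⟨R, hRH, hR1, nφR, nyR, hRφ, hRy⟩ := exists_stable hpr hqr hH (n := 1)
    (by simpa using hφp) hy0n hc0 nφ ny0 hC0 (by
      by_contra hcon
      push Not at hcon
      exact hb0 hcon)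
  have hRr : IsPGroup r R := hH.to_le hRH
  -- base change
  let K := AlgebraicClosure (ZMod v)
  have : CharP K v := charP_of_injective_algebraMap (algebraMap (ZMod v) K).injective v
  have hK : ∀ m : ℕ, m.Prime → m ≠ v → (m : K) ≠ 0 := by
    intro m hm hmv h0
    rw [CharP.cast_eq_zero_iff K v, Nat.prime_dvd_prime_iff_eq hv.out hm] at h0
    exact hmv h0.symm
  have hk : ∀ m : ℕ, m.Prime → m ≠ v → (m : ZMod v) ≠ 0 := by
    intro m hm hmv h0
    rw [ZMod.natCast_eq_zero_iff, Nat.prime_dvd_prime_iff_eq hv.out hm] at h0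
    exact hmv h0.symm
  have hcardK : (Nat.card R : K) ≠ 0 := card_ne_zero_of_isPGroup hRr (hK r hr hrv)
  have hcardk : (Nat.card R : ZMod v) ≠ 0 := card_ne_zero_of_isPGroup hRr (hk r hr hrv)
  set ρ' := bc K τ with hρ'
  set W1 : Submodule K (K ⊗[ZMod v] T) := LinearMap.ker (sm ρ' R) with hW1
  have hker : ∀ g, Nz g R → Inv ρ' g W1 := by
    intro g hg z hz
    rw [LinearMap.mem_ker] at hz ⊢
    rw [← sm_comm hg, hz, map_zero]
  have hRW1 : InvS ρ' R W1 := fun g hg => hker g (Nz.of_mem hg)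
  -- `y` is trivial on the fixed points of `φ`
  have hfixsum : ∀ x, τ y (∑ i ∈ Finset.range p, τ (φ ^ i) x) =
      ∑ i ∈ Finset.range p, τ (φ ^ i) x := fun x => hy0 _ (orbit_sum_fixed hφp x)
  have hfixsum' : ∀ z, ρ' y (∑ i ∈ Finset.range p, ρ' (φ ^ i) z) =
      ∑ i ∈ Finset.range p, ρ' (φ ^ i) z := by
    intro z
    induction z using TensorProduct.induction_on with
    | zero => simp
    | tmul c x =>
      simp only [hρ', bc_tmul, ← TensorProduct.tmul_sum]
      rw [hfixsum]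
    | add a b ha hb => simp only [map_add, Finset.sum_add_distrib, ha, hb]
  have hsump : ∀ z, ρ' φ z = z → ∑ i ∈ Finset.range p, ρ' (φ ^ i) z = (p : K) • z := by
    intro z hz
    have h1 : ∀ i : ℕ, ρ' (φ ^ i) z = z := by
      intro i
      induction i with
      | zero => simp
      | succ i ih => rw [pow_succ, map_mul, Module.End.mul_apply, hz, ih]
    rw [Finset.sum_congr rfl fun i _ => h1 i, Finset.sum_const, Finset.card_range,
      ← Nat.cast_smul_eq_nsmul K]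
  have hfixK : ∀ z, ρ' φ z = z → ρ' y z = z := by
    intro z hz
    have h1 := hfixsum' z
    rw [hsump z hz, map_smul] at h1
    exact smul_right_injective _ (hK p hp hpv) h1
  have hfixK0 : ∀ z, ρ' φ z = z → ρ' y0 z = z := by
    intro z hz
    have h1 : ∀ i : ℕ, ρ' (y ^ i) z = z := by
      intro i
      induction i with
      | zero => simp
      | succ i ih => rw [pow_succ, map_mul, Module.End.mul_apply, hfixK z hz, ih]
    exact h1 _
  -- all irreducible subspaces of `W1`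
  have hirr : ∀ M ≤ W1, Irr ρ' ((R : Set E) ∪ {φ, y0}) M →
      q = 2 ∧ p ≠ 2 ∧ Module.finrank K M = 2 * p - 1 ∧
      Module.finrank K (M ⊓ Module.End.eigenspace (ρ' φ) 1 : Submodule K _) = 1 ∧
      Module.finrank K (M ⊓ Module.End.eigenspace (ρ' y0) (-1) : Submodule K _) = p - 1 := by
    intro M hM hMirr
    have h := hW K E (K ⊗[ZMod v] T) ρ' p q r φ y0 R M n hp hq hr hpq hpr hqr (hK p hp hpv)
      (hK q hq hqv) (hK r hr hrv) hφp hy0n hc0 hRr nφR nyR hRφ.ge hRy.ge hMirr ?_ ?_ ?_ ?_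
    · exact ⟨h.1, h.2.1, h.2.2.1, h.2.2.2.2.1, h.2.2.2.2.2.1⟩
    · intro htriv
      obtain ⟨x, hx, hx0⟩ := Submodule.exists_mem_ne_zero_of_ne_bot hMirr.1
      exact hx0 (eq_zero_of_fixed hcardK (fun g hg => htriv g hg x hx) (hM hx))
    · intro x hx w _
      have h1 : ⁅x, y0⁆ = 1 := by
        rw [commutatorElement_eq_one_iff_mul_comm]
        exact hC0 x (fx_mono hRH hx)
      rw [h1, map_one, Module.End.one_apply]
    · intro x hx w _
      have h1 : ⁅y0 ^ q, x⁆ = 1 := by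
        rw [commutatorElement_eq_one_iff_mul_comm, hy0q]
        exact (hb1 x (hRH hx)).symm
      rw [h1, map_one, Module.End.one_apply]
    · intro w _ hw
      exact hfixK0 w hw
  have hW1ne : W1 ≠ ⊥ := by
    intro h0
    obtain ⟨g, hg, hg1⟩ := (R.bot_or_exists_ne_one).resolve_left hR1
    have hnt : ∃ y ∈ R, ∃ x, τ y x ≠ x := by
      refine ⟨g, hg, ?_⟩
      by_contra hcon
      push Not at hcon
      exact hg1 (faithful _ hcon)
    obtain ⟨g', hg', z, hz⟩ := bc_nontriv K hnt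
    obtain ⟨a, -, b, -, ha, hb, hab⟩ := sm_decomp (ρ := ρ') hcardK (W := ⊤)
      (fun _ _ _ _ => Submodule.mem_top) (w := z) Submodule.mem_top
    have hb' : b ∈ W1 := hb
    rw [h0, Submodule.mem_bot] at hb'
    apply hz
    rw [hab, hb', add_zero]
    exact ha g' hg'
  have hA : ∀ g ∈ (R : Set E) ∪ {φ, y0}, Inv ρ' g W1 := by
    rintro g (hg | hg | hg)
    · exact hker g (Nz.of_mem hg)
    · rw [hg]; exact hker φ nφR
    · rw [Set.mem_singleton_iff] at hg
      rw [hg]; exact hker y0 nyR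
  obtain ⟨M0, hM0, hM0irr⟩ := exists_irr _ hW1ne hA
  obtain ⟨hq2, hp2, hdim0, hfix0, heig0⟩ := hirr M0 hM0 hM0irr
  subst hq2
  refine ⟨hqv.symm, y0, ⟨_, zpow_natCast _ _⟩, ?_⟩
  -- `y0 ^ 2` is trivial on `T`
  have hsq : ∀ x, τ (y0 ^ 2) x = x := by
    have hcomm : ∀ g, y0 ^ 2 * g = g * y0 ^ 2 →
        Inv τ g (Module.End.eigenspace (τ (y0 ^ 2)) 1) := by
      intro g hg x hx
      rw [Module.End.mem_eigenspace_iff, one_smul] at hx ⊢
      rw [← Module.End.mul_apply, ← map_mul, hg, map_mul, Module.End.mul_apply, hx]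
    rcases hmin (Module.End.eigenspace (τ (y0 ^ 2)) 1)
      (hcomm φ ((show Commute φ y0 from hc0).pow_right 2).symm)
      (hcomm y ((show Commute y y0 from hyy0).pow_right 2).symm)
      (fun h hh => hcomm h (by rw [hy0q]; exact (hb1 h hh).symm)) with h | h
    · exfalso
      have h1 : ∀ x, ∑ i ∈ Finset.range p, τ (φ ^ i) x = 0 := by
        intro x
        have h2 : ∑ i ∈ Finset.range p, τ (φ ^ i) x ∈
            Module.End.eigenspace (τ (y0 ^ 2)) 1 := by
          rw [Module.End.mem_eigenspace_iff, one_smul]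
          have h3 := hfixsum x
          have h4 : ∀ i : ℕ, τ (y ^ i) (∑ i ∈ Finset.range p, τ (φ ^ i) x) =
              ∑ i ∈ Finset.range p, τ (φ ^ i) x := by
            intro i
            induction i with
            | zero => simp
            | succ i ih => rw [pow_succ, map_mul, Module.End.mul_apply, h3, ih]
          rw [hy0def, ← pow_mul]
          exact h4 _
        rw [h, Submodule.mem_bot] at h2
        exact h2
      have h2 : ∀ z, ∑ i ∈ Finset.range p, ρ' (φ ^ i) z = 0 := by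
        intro z
        induction z using TensorProduct.induction_on with
        | zero => simp
        | tmul c x =>
          simp only [hρ', bc_tmul, ← TensorProduct.tmul_sum]
          rw [h1, TensorProduct.tmul_zero]
        | add a b ha hb => simp only [map_add, Finset.sum_add_distrib, ha, hb, add_zero]
      have h3 : (M0 ⊓ Module.End.eigenspace (ρ' φ) 1 : Submodule K _) ≠ ⊥ := by
        intro h0
        rw [h0, finrank_bot] at hfix0
        exact absurd hfix0 (by norm_num)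
      obtain ⟨z, hz, hz0⟩ := Submodule.exists_mem_ne_zero_of_ne_bot h3
      have h4 : z ∈ Module.End.eigenspace (ρ' φ) 1 := hz.2
      rw [Module.End.mem_eigenspace_iff, one_smul] at h4
      have h5 := hsump z h4
      rw [h2 z] at h5
      exact hz0 ((smul_eq_zero.mp h5.symm).resolve_left (hK p hp hpv))
    · intro x
      have h1 : x ∈ Module.End.eigenspace (τ (y0 ^ 2)) 1 := by rw [h]; exact Submodule.mem_top
      rwa [Module.End.mem_eigenspace_iff, one_smul] at h1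
  have hsq' : ∀ x, τ y0 (τ y0 x) = x := by
    intro x
    rw [← Module.End.mul_apply, ← map_mul, ← pow_two]; exact hsq x
  have h2k : (2 : ZMod v) ≠ 0 := by exact_mod_cast hk 2 hq hqv
  have h2K : (2 : K) ≠ 0 := by exact_mod_cast hK 2 hq hqv
  set T2 : Submodule (ZMod v) T := Module.End.eigenspace (τ y0) (-1) with hT2
  -- the dimension of the eigenspace
  have hle : Module.finrank K (Module.End.eigenspace (ρ' y0) (-1) : Submodule K _) ≤
      Module.finrank (ZMod v) T2 := by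
    apply finrank_le_of_proj K ((2 : ZMod v)⁻¹ • (LinearMap.id - τ y0)) T2
    · intro x
      rw [hT2, Module.End.mem_eigenspace_iff]
      simp only [LinearMap.smul_apply, LinearMap.sub_apply, LinearMap.id_apply, map_smul, map_sub,
        hsq']
      rw [neg_one_smul, ← smul_neg, neg_sub]
    · intro z hz
      rw [Module.End.mem_eigenspace_iff, neg_one_smul] at hz
      have h1 : ((2 : ZMod v)⁻¹ • (LinearMap.id - τ y0)).baseChange K z =
          (2 : K)⁻¹ • (z - ρ' y0 z) := by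
        rw [LinearMap.baseChange_smul, LinearMap.baseChange_sub, LinearMap.baseChange_id]
        have : ((2 : ZMod v)⁻¹) • (z - ρ' y0 z) = (2 : K)⁻¹ • (z - ρ' y0 z) := by
          rw [← algebraMap_smul K ((2 : ZMod v)⁻¹), map_inv₀, map_ofNat]
        exact this
      rw [h1, hz, sub_neg_eq_add, ← two_smul K, smul_smul, inv_mul_cancel₀ h2K, one_smul]
  have hpT2 : p ≤ Module.finrank (ZMod v) T2 := by
    by_cases hM : M0 = W1
    · exfalso
      have h1 : Module.finrank K W1 =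
          Module.finrank (ZMod v) (LinearMap.ker (sm τ R) : Submodule (ZMod v) T) := by
        have hbc : ∀ z, (LinearMap.id - (Nat.card R : ZMod v)⁻¹ • sm τ R).baseChange K z =
            z - (Nat.card R : K)⁻¹ • sm ρ' R z := by
          intro z
          rw [LinearMap.baseChange_sub, LinearMap.baseChange_id, LinearMap.baseChange_smul, bc_sm]
          have : ((Nat.card R : ZMod v)⁻¹) • (sm ρ' R z) = (Nat.card R : K)⁻¹ • sm ρ' R z := by
            rw [← algebraMap_smul K ((Nat.card R : ZMod v)⁻¹), map_inv₀, map_natCast]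
          rw [← this]; rfl
        apply finrank_eq_of_proj K (LinearMap.id - (Nat.card R : ZMod v)⁻¹ • sm τ R)
        · intro x
          rw [LinearMap.mem_ker]
          simp only [LinearMap.sub_apply, LinearMap.id_apply, LinearMap.smul_apply, map_sub,
            map_smul]
          rw [sm_of_fixed (ρ := τ) (H := R) (v := sm τ R x) (fun g hg => rho_sm hg x), smul_smul,
            inv_mul_cancel₀ hcardk, one_smul, sub_self]
        · intro x hx
          rw [LinearMap.mem_ker] at hx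
          simp [hx]
        · intro z hz
          rw [hbc, (show sm ρ' R z = 0 from hz), smul_zero, sub_zero]
        · intro z
          rw [hbc, hW1, LinearMap.mem_ker, map_sub, map_smul,
            sm_of_fixed (ρ := ρ') (H := R) (v := sm ρ' R z) (fun g hg => rho_sm hg z), smul_smul,
            inv_mul_cancel₀ hcardK, one_smul, sub_self]
      have h2 : Even (Module.finrank (ZMod v)
          (LinearMap.ker (sm τ R) : Submodule (ZMod v) T)) := by
        apply even_of_alt h2k (B.domRestrict₁₂ (LinearMap.ker (sm τ R)) (LinearMap.ker (sm τ R)))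
        · intro x; exact halt x.1
        · intro x hx
          apply Subtype.ext
          apply hnd
          intro z
          obtain ⟨a, -, b, -, ha, hb, hab⟩ := sm_decomp (ρ := τ) hcardk (W := ⊤)
            (fun _ _ _ _ => Submodule.mem_top) (w := z) Submodule.mem_top
          have h3 : B x.1 b = 0 := hx ⟨b, hb⟩
          have h4 : B x.1 a = 0 := by
            have := Fintype.ofFinite R
            have h5 : ∀ t : T, B (sm τ R t) a = (Nat.card R : ZMod v) * B t a := by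
              intro t
              rw [sm_eq_sum, LinearMap.sum_apply, map_sum, LinearMap.sum_apply]
              have h6 : ∀ h : R, B (τ (h : E) t) a = B t a := by
                intro h
                have h7 := hB (h : E) t a
                rwa [ha h h.2] at h7
              rw [Finset.sum_congr rfl fun h _ => h6 h, Finset.sum_const, Finset.card_univ,
                nsmul_eq_mul, Nat.card_eq_fintype_card]
            have h5 := h5 x.1
            rw [(show sm τ R x.1 = 0 from x.2), map_zero, LinearMap.zero_apply] at h5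
            exact (mul_eq_zero.mp h5.symm).resolve_left hcardk
          rw [hab, map_add, h3, h4, add_zero]
      rw [← h1, ← hM, hdim0] at h2
      have h3 := hp.pos
      obtain ⟨m, hm⟩ := h2
      omega
    · have hcl := card_closure_ne hv.out hp hq hr hpv hqv hrv hRr hφp hy0n nφR nyR hc0
      have hclK : (Nat.card (closure ((R : Set E) ∪ {φ, y0}) : Subgroup E) : K) ≠ 0 := by
        intro h0
        rw [CharP.cast_eq_zero_iff K v] at h0
        exact hcl h0
      obtain ⟨U', hU', hU'inv, hsup, hinf⟩ := exists_compl hclK (InvS_closure hA)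
        (InvS_closure hM0irr.2.1) hM0
      have hU'ne : U' ≠ ⊥ := by
        intro h0
        rw [h0, sup_bot_eq] at hsup
        exact hM hsup
      obtain ⟨M1, hM1, hM1irr⟩ := exists_irr ((R : Set E) ∪ {φ, y0}) hU'ne
        (fun g hg => hU'inv g (subset_closure hg))
      obtain ⟨-, -, -, -, heig1⟩ := hirr M1 (hM1.trans hU') hM1irr
      have h1 := Submodule.finrank_sup_add_finrank_inf_eq
        (M0 ⊓ Module.End.eigenspace (ρ' y0) (-1) : Submodule K _)
        (M1 ⊓ Module.End.eigenspace (ρ' y0) (-1) : Submodule K _)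
      have h2 : (M0 ⊓ Module.End.eigenspace (ρ' y0) (-1)) ⊓
          (M1 ⊓ Module.End.eigenspace (ρ' y0) (-1)) = (⊥ : Submodule K _) := by
        rw [eq_bot_iff, ← hinf]
        exact le_inf (inf_le_left.trans inf_le_left) ((inf_le_right.trans inf_le_left).trans hM1)
      rw [h2, finrank_bot, heig0, heig1] at h1
      have h3 : Module.finrank K ((M0 ⊓ Module.End.eigenspace (ρ' y0) (-1)) ⊔
          (M1 ⊓ Module.End.eigenspace (ρ' y0) (-1)) : Submodule K _) ≤
          Module.finrank K (Module.End.eigenspace (ρ' y0) (-1) : Submodule K _) :=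
        Submodule.finrank_mono (sup_le inf_le_right inf_le_right)
      have h4 := hp.two_le
      omega
  -- isotropic vectors
  have hF : ∀ x ∈ T2, τ φ x ∈ T2 := by
    intro x hx
    rw [hT2, Module.End.mem_eigenspace_iff] at hx ⊢
    rw [← Module.End.mul_apply, ← map_mul, ← hc0, map_mul, Module.End.mul_apply, hx, map_smul]
  have hFpow : ∀ (i : ℕ) (x : T2), ((((τ φ).restrict hF) ^ i) x : T) = τ (φ ^ i) x := by
    intro i
    induction i with
    | zero => intro x; simp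
    | succ i ih =>
      intro x
      rw [pow_succ, Module.End.mul_apply, ih, pow_succ, map_mul, Module.End.mul_apply]
      rfl
  obtain ⟨w, hw0, hw⟩ := hISO v T2 (B.domRestrict₁₂ T2 T2) ((τ φ).restrict hF) p hp hp2 hpT2
    (fun x => halt x.1) (fun x x' => hB φ x.1 x'.1) (fun x => by
      apply Subtype.ext
      rw [hFpow, hφp, map_one, Module.End.one_apply])
  refine ⟨w.1, fun h => hw0 (Subtype.ext h), ?_, fun i => ?_⟩
  · have h1 : τ y0 w.1 = (-1 : ZMod v) • w.1 := Module.End.mem_eigenspace_iff.mp w.2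
    rwa [neg_one_smul] at h1
  · have h1 := hw i
    rw [LinearMap.domRestrict₁₂_apply] at h1
    rw [← hFpow]; exact h1

end Core

section Form

variable {k E V : Type} [Field k] [Group E] [Finite E] [AddCommGroup V] [Module k V]
  {ρ : Representation k E V} {W : Submodule k V}

theorem scal_inv {g : E} {c : k} (hc : ∀ w ∈ W, ρ g w = c • w) (hW : W ≠ ⊥) :
    c ≠ 0 ∧ ∀ w ∈ W, ρ g⁻¹ w = c⁻¹ • w := by
  have hc0 : c ≠ 0 := by
    rintro rfl
    obtain ⟨x, hx, hx0⟩ := Submodule.exists_mem_ne_zero_of_ne_bot hW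
    have h1 := hc x hx
    rw [zero_smul] at h1
    apply hx0
    have h2 := rho_inv_apply (ρ := ρ) g x
    rw [h1, map_zero] at h2
    exact h2.symm
  refine ⟨hc0, fun w hw => ?_⟩
  have h1 := hc _ (W.smul_mem c⁻¹ hw)
  rw [smul_smul, mul_inv_cancel₀ hc0, one_smul] at h1
  have h2 := rho_inv_apply (ρ := ρ) g (c⁻¹ • w)
  rwa [h1] at h2

/-- `[z, b]` is trivial on `W` if `z` is a scalar. -/
theorem comm_scal_left {z b : E} (hz : Scal ρ z W) (hb : Inv ρ b W) (hW : W ≠ ⊥) :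
    ∀ w ∈ W, ρ ⁅z, b⁆ w = w := by
  obtain ⟨c, hc⟩ := hz
  obtain ⟨hc0, hci⟩ := scal_inv hc hW
  intro w hw
  have h1 : ρ b⁻¹ w ∈ W := hb.inv w hw
  rw [commutatorElement_def, map_mul, map_mul, map_mul, Module.End.mul_apply,
    Module.End.mul_apply, Module.End.mul_apply, hci _ h1, map_smul, rho_apply_inv,
    hc _ (W.smul_mem _ hw), smul_smul, mul_inv_cancel₀ hc0, one_smul]

theorem comm_scal_right {z b : E} (hz : Scal ρ z W) (hb : Inv ρ b W) (hW : W ≠ ⊥) :
    ∀ w ∈ W, ρ ⁅b, z⁆ w = w := by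
  intro w hw
  have h1 := comm_scal_left hz hb hW w hw
  have h2 := rho_inv_apply (ρ := ρ) ⁅z, b⁆ w
  rw [h1, commutatorElement_inv] at h2
  exact h2

/-- The symplectic form of a section `T = X/Z` (given by `F : E → T`) whose commutators act on `W`
as scalars. -/
theorem exists_form [IsAlgClosed k] (ρ : Representation k E V) (v : ℕ) [hvp : Fact v.Prime]
    (hv : (v : k) ≠ 0) (W : Submodule k V) (hW : W ≠ ⊥) (X Z : Subgroup E) (iX : InvS ρ X W)
    (hZ : Z ≤ X) (hZs : ∀ z ∈ Z, Scal ρ z W) (hcomm : ∀ a ∈ X, ∀ b ∈ X, Scal ρ ⁅a, b⁆ W)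
    (hel : ∀ a ∈ X, a ^ v ∈ Z) {T : Type} [AddCommGroup T] [Module (ZMod v) T] (F : E → T)
    (hsurj : ∀ t, ∃ a ∈ X, F a = t) (hmul : ∀ a ∈ X, ∀ b ∈ X, F (a * b) = F a + F b)
    (hker : ∀ a ∈ X, F a = 0 ↔ a ∈ Z) :
    ∃ (ω : k) (B : T →ₗ[ZMod v] T →ₗ[ZMod v] ZMod v), IsPrimitiveRoot ω v ∧
      ∀ a ∈ X, ∀ b ∈ X, ∀ w ∈ W, ρ ⁅a, b⁆ w = ω ^ (B (F a) (F b)).val • w := by
  classical
  have : NeZero (v : k) := ⟨hv⟩
  have : NeZero v := ⟨hvp.out.ne_zero⟩
  obtain ⟨ω, hω⟩ := HasEnoughRootsOfUnity.exists_primitiveRoot k v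
  obtain ⟨w0, hw0, hw00⟩ := Submodule.exists_mem_ne_zero_of_ne_bot hW
  have huniq : ∀ c c' : k, c • w0 = c' • w0 → c = c' := fun c c' h => by
    have h1 : (c - c') • w0 = 0 := by rw [sub_smul, h, sub_self]
    exact sub_eq_zero.mp ((smul_eq_zero.mp h1).resolve_right hw00)
  -- the scalar
  choose! c hc using hcomm
  have hcl : ∀ a ∈ X, ∀ a' ∈ X, ∀ b ∈ X, c (a * a') b = c a b * c a' b := by
    intro a ha a' ha' b hb
    apply huniq
    rw [← hc _ (X.mul_mem ha ha') b hb w0 hw0]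
    have h1 : ⁅a * a', b⁆ = a * ⁅a', b⁆ * a⁻¹ * ⁅a, b⁆ := by
      simp only [commutatorElement_def]; group
    have h2 : ρ a⁻¹ w0 ∈ W := (iX a ha).inv w0 hw0
    rw [h1, map_mul, map_mul, map_mul, Module.End.mul_apply, Module.End.mul_apply,
      Module.End.mul_apply, hc a ha b hb w0 hw0, map_smul, hc a' ha' b hb _ (W.smul_mem _ h2),
      map_smul, map_smul, rho_apply_inv, smul_smul, mul_comm]
  have hcr : ∀ a ∈ X, ∀ b ∈ X, ∀ b' ∈ X, c a (b * b') = c a b * c a b' := by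
    intro a ha b hb b' hb'
    apply huniq
    rw [← hc a ha _ (X.mul_mem hb hb') w0 hw0]
    have h1 : ⁅a, b * b'⁆ = ⁅a, b⁆ * (b * ⁅a, b'⁆ * b⁻¹) := by
      simp only [commutatorElement_def]; group
    have h2 : ρ b⁻¹ w0 ∈ W := (iX b hb).inv w0 hw0
    rw [h1, map_mul, map_mul, map_mul, Module.End.mul_apply, Module.End.mul_apply,
      Module.End.mul_apply, hc a ha b' hb' _ h2, map_smul, rho_apply_inv,
      hc a ha b hb _ (W.smul_mem _ hw0), smul_smul]
  have hcz : ∀ z ∈ Z, ∀ b ∈ X, c z b = 1 := by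
    intro z hz b hb
    apply huniq
    rw [← hc z (hZ hz) b hb w0 hw0, comm_scal_left (hZs z hz) (iX b hb) hW w0 hw0, one_smul]
  have hcz' : ∀ z ∈ Z, ∀ b ∈ X, c b z = 1 := by
    intro z hz b hb
    apply huniq
    rw [← hc b hb z (hZ hz) w0 hw0, comm_scal_right (hZs z hz) (iX b hb) hW w0 hw0, one_smul]
  have hcv : ∀ a ∈ X, ∀ b ∈ X, c a b ^ v = 1 := by
    intro a ha b hb
    have h1 : ∀ m : ℕ, c (a ^ m) b = c a b ^ m := by
      intro m
      induction m with
      | zero => rw [pow_zero, pow_zero]; exact hcz 1 Z.one_mem b hb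
      | succ m ih => rw [pow_succ, hcl _ (X.pow_mem ha m) a ha b hb, ih, pow_succ]
    rw [← h1, hcz _ (hel a ha) b hb]
  -- the logarithm
  have hlog : ∀ a ∈ X, ∀ b ∈ X, ∃ i : ZMod v, ω ^ i.val = c a b := by
    intro a ha b hb
    obtain ⟨i, hi, hi'⟩ := hω.eq_pow_of_pow_eq_one (hcv a ha b hb)
    exact ⟨i, by rw [ZMod.val_natCast, Nat.mod_eq_of_lt hi, hi']⟩
  choose! L hL using hlog
  have hinj : ∀ i j : ZMod v, ω ^ i.val = ω ^ j.val → i = j := fun i j h =>
    ZMod.val_injective v (hω.pow_inj (ZMod.val_lt i) (ZMod.val_lt j) h)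
  have hadd : ∀ i j : ZMod v, ω ^ (i + j).val = ω ^ i.val * ω ^ j.val := by
    intro i j
    rw [ZMod.val_add, ← pow_add]
    conv_rhs => rw [← Nat.mod_add_div (i.val + j.val) v, pow_add, pow_mul, hω.pow_eq_one, one_pow,
      mul_one]
  choose s hsX hs using hsurj
  have hkey : ∀ a ∈ X, ∀ b ∈ X, L a b = L (s (F a)) (s (F b)) := by
    intro a ha b hb
    apply hinj
    rw [hL a ha b hb, hL _ (hsX _) _ (hsX _)]
    have hz : ∀ x ∈ X, ∃ z ∈ Z, x = z * s (F x) := by
      intro x hx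
      have h1 : x * (s (F x))⁻¹ ∈ X := X.mul_mem hx (X.inv_mem (hsX _))
      refine ⟨x * (s (F x))⁻¹, ?_, by group⟩
      rw [← hker _ h1]
      have h2 := hmul _ h1 _ (hsX (F x))
      rw [inv_mul_cancel_right, hs] at h2
      have h3 : F x = F (x * (s (F x))⁻¹) + F x := h2
      exact right_eq_add.mp h3
    obtain ⟨z, hz1, hz2⟩ := hz a ha
    obtain ⟨z', hz1', hz2'⟩ := hz b hb
    conv_lhs => rw [hz2, hz2']
    rw [hcl z (hZ hz1) _ (hsX _) _ (X.mul_mem (hZ hz1') (hsX _)),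
      hcz z hz1 _ (X.mul_mem (hZ hz1') (hsX _)), one_mul,
      hcr _ (hsX _) z' (hZ hz1') _ (hsX _), hcz' z' hz1' _ (hsX _), one_mul]
  have haddl : ∀ t t' u : T, L (s (t + t')) (s u) = L (s t) (s u) + L (s t') (s u) := by
    intro t t' u
    have h1 : F (s t * s t') = t + t' := by rw [hmul _ (hsX _) _ (hsX _), hs, hs]
    have h2 := hkey _ (X.mul_mem (hsX t) (hsX t')) (s u) (hsX u)
    rw [h1, hs] at h2
    rw [← h2]
    apply hinj
    rw [hadd, hL _ (X.mul_mem (hsX t) (hsX t')) _ (hsX _), hL _ (hsX _) _ (hsX _),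
      hL _ (hsX _) _ (hsX _), hcl _ (hsX _) _ (hsX _) _ (hsX _)]
  have haddr : ∀ t u u' : T, L (s t) (s (u + u')) = L (s t) (s u) + L (s t) (s u') := by
    intro t u u'
    have h1 : F (s u * s u') = u + u' := by rw [hmul _ (hsX _) _ (hsX _), hs, hs]
    have h2 := hkey (s t) (hsX t) _ (X.mul_mem (hsX u) (hsX u'))
    rw [h1, hs] at h2
    rw [← h2]
    apply hinj
    rw [hadd, hL _ (hsX _) _ (X.mul_mem (hsX u) (hsX u')), hL _ (hsX _) _ (hsX _),
      hL _ (hsX _) _ (hsX _), hcr _ (hsX _) _ (hsX _) _ (hsX _)]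
  let B : T →ₗ[ZMod v] T →ₗ[ZMod v] ZMod v := LinearMap.mk₂ (ZMod v)
    (fun t u => L (s t) (s u)) haddl
    (fun m t u => ZMod.map_smul (AddMonoidHom.mk' (fun t => L (s t) (s u))
      (fun t t' => haddl t t' u)) m t)
    haddr
    (fun m t u => ZMod.map_smul (AddMonoidHom.mk' (fun u => L (s t) (s u))
      (fun u u' => haddr t u u')) m u)
  refine ⟨ω, B, hω, fun a ha b hb w hw => ?_⟩
  have h1 : B (F a) (F b) = L a b := (hkey a ha b hb).symm
  rw [h1, hL a ha b hb, hc a ha b hb w hw]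

end Form

section ModData

/-- The module `T = X/Z` as a faithful module of a quotient of the group `D` normalising `X`
and `Z`. -/
structure MD {E : Type} [Group E] (v : ℕ) [Fact v.Prime] (X Z D : Subgroup E) where
  T : Type
  [iT : AddCommGroup T]
  [mT : Module (ZMod v) T]
  [fT : Finite T]
  Q : Type
  [gQ : Group Q]
  [fQ : Finite Q]
  π : ↥D →* Q
  τ : Representation (ZMod v) Q T
  F : E → T
  surj : Function.Surjective π
  faithful : ∀ g, (∀ x, τ g x = x) → g = 1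
  Fsurj : ∀ t, ∃ a ∈ X, F a = t
  Fmul : ∀ a ∈ X, ∀ b ∈ X, F (a * b) = F a + F b
  Fker : ∀ a ∈ X, F a = 0 ↔ a ∈ Z
  Fact' : ∀ (g : ↥D), ∀ a ∈ X, F (g * a * (g : E)⁻¹) = τ (π g) (F a)

attribute [instance] MD.iT MD.mT MD.fT MD.gQ MD.fQ

theorem exists_mod (hQ : Stmt_QMOD) {E : Type} [Group E] [Finite E] (v : ℕ) [Fact v.Prime]
    (X Z D : Subgroup E) (hXD : X ≤ D) (hZX : Z ≤ X) (nX : NzS D X) (nZ : NzS D Z)
    (hcomm : ∀ a ∈ X, ∀ b ∈ X, ⁅a, b⁆ ∈ Z) (hel : ∀ a ∈ X, a ^ v ∈ Z) :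
    Nonempty (MD v X Z D) := by
  classical
  have nX' : (X.subgroupOf D).Normal := ⟨fun x hx g => by
    rw [mem_subgroupOf] at hx ⊢
    simpa using nX g.1 g.2 x.1 hx⟩
  have nZ' : (Z.subgroupOf D).Normal := ⟨fun x hx g => by
    rw [mem_subgroupOf] at hx ⊢
    simpa using nZ g.1 g.2 x.1 hx⟩
  obtain ⟨T, i1, i2, i3, σ, f, hs, hm, hk, he⟩ := hQ (↥D) v (X.subgroupOf D) (Z.subgroupOf D)
    (fun x hx => hZX hx) (fun a ha b hb => hcomm a.1 ha b.1 hb) (fun a ha => hel a.1 ha)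
  let F : E → T := fun a => if h : a ∈ X then f ⟨⟨a, hXD h⟩, h⟩ else 0
  have hF : ∀ a (h : a ∈ X), F a = f ⟨⟨a, hXD h⟩, h⟩ := fun a h => dif_pos h
  let τ : Representation (ZMod v) (↥D ⧸ σ.ker) T :=
    QuotientGroup.lift σ.ker σ (fun g hg => MonoidHom.mem_ker.mp hg)
  have hτ : ∀ g : ↥D, τ (QuotientGroup.mk' σ.ker g) = σ g := fun g => rfl
  have h1 : ∀ g : ↥D ⧸ σ.ker, (∀ x, τ g x = x) → g = 1 := by
    intro g hg
    obtain ⟨g, rfl⟩ := QuotientGroup.mk'_surjective σ.ker g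
    have h0 : g ∈ σ.ker := MonoidHom.mem_ker.mpr (LinearMap.ext hg)
    exact (QuotientGroup.eq_one_iff g).mpr h0
  have h2 : ∀ t, ∃ a ∈ X, F a = t := by
    intro t
    obtain ⟨⟨⟨a, ha⟩, ha'⟩, rfl⟩ := hs t
    exact ⟨a, ha', hF a ha'⟩
  have h3 : ∀ a ∈ X, ∀ b ∈ X, F (a * b) = F a + F b := by
    intro a ha b hb
    rw [hF a ha, hF b hb, hF _ (X.mul_mem ha hb), ← hm]
    rfl
  have h4 : ∀ a ∈ X, F a = 0 ↔ a ∈ Z := by
    intro a ha
    rw [hF a ha]
    exact hk _
  have h5 : ∀ (g : ↥D), ∀ a ∈ X, F (g * a * (g : E)⁻¹) = σ g (F a) := by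
    intro g a ha
    rw [hF a ha, hF _ (nX g.1 g.2 a ha)]
    exact he g ⟨⟨a, hXD ha⟩, ha⟩ ⟨⟨g * a * (g : E)⁻¹, _⟩, nX g.1 g.2 a ha⟩ rfl
  exact ⟨{
    T := T
    Q := ↥D ⧸ σ.ker
    π := QuotientGroup.mk' σ.ker
    τ := τ
    F := F
    surj := QuotientGroup.mk'_surjective _
    faithful := h1
    Fsurj := h2
    Fmul := h3
    Fker := h4
    Fact' := h5 }⟩

end ModData

section Final

variable {k E V : Type} [Field k] [Group E] [Finite E] [AddCommGroup V] [Module k V]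

/-- the group of elements normalising `X` and `Z` and leaving `W` invariant -/
def grpD (ρ : Representation k E V) (X Z : Subgroup E) (W : Submodule k V) : Subgroup E where
  carrier := {g | Nz g X ∧ Nz g Z ∧ Inv ρ g W}
  mul_mem' := fun ha hb => ⟨ha.1.mul hb.1, ha.2.1.mul hb.2.1, ha.2.2.mul hb.2.2⟩
  one_mem' := ⟨Nz.one X, Nz.one Z, fun w hw => by simpa using hw⟩
  inv_mem' := fun ha => ⟨ha.1.inv, ha.2.1.inv, ha.2.2.inv⟩

theorem scal_conj {ρ : Representation k E V} {W : Submodule k V} {g z : E} (hg : Inv ρ g W)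
    (hz : Scal ρ z W) : Scal ρ (g * z * g⁻¹) W := by
  obtain ⟨c, hc⟩ := hz
  refine ⟨c, fun w hw => ?_⟩
  rw [map_mul, map_mul, Module.End.mul_apply, Module.End.mul_apply, hc _ (hg.inv w hw), map_smul,
    rho_apply_inv]

theorem stmt_QLV (hW' : Stmt_W) (hISO : Stmt_ISO) (hQ : Stmt_QMOD) : Stmt_QLV := by
  classical
  intro k E V _ _ _ _ _ _ _ ρ p v r q φ y Y H Z X1 W hx hvq nyH hfx
  have yh := hx.yh
  have : Fact p.Prime := ⟨yh.hp⟩
  have : Fact v.Prime := ⟨yh.hv⟩
  have : Fact q.Prime := ⟨yh.hq⟩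
  have : Fact r.Prime := ⟨yh.hr⟩
  obtain ⟨n, hyn⟩ := yh.hy
  have hZs : ∀ z ∈ Z, Scal ρ z W := fun z hz => ((hx.hZ z).mp hz).2
  have nZ : ∀ g, Nz g Y → Inv ρ g W → Nz g Z := fun g h1 h2 z hz =>
    (hx.hZ _).mpr ⟨h1 z ((hx.hZ z).mp hz).1, scal_conj h2 (hZs z hz)⟩
  have hYD : Y ≤ grpD ρ X1 Z W := fun g hg =>
    ⟨hx.nY g hg, nZ g (Nz.of_mem hg) (hx.iY g hg), hx.iY g hg⟩
  have hHD : H ≤ grpD ρ X1 Z W := fun g hg =>
    ⟨hx.nH g hg, nZ g (yh.nHY g hg) (hx.iH g hg), hx.iH g hg⟩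
  have hφD : φ ∈ grpD ρ X1 Z W := ⟨hx.nφ, nZ φ yh.nφY hx.iφ, hx.iφ⟩
  have hyD : y ∈ grpD ρ X1 Z W := ⟨hx.ny, nZ y yh.nyY hx.iy, hx.iy⟩
  set D := grpD ρ X1 Z W with hD
  have hXD : X1 ≤ D := hx.hXY.trans hYD
  have hcomm : ∀ a ∈ X1, ∀ b ∈ X1, ⁅a, b⁆ ∈ Z := fun a ha b hb => hx.cl a ha b (hx.hXY hb)
  obtain ⟨md⟩ := exists_mod hQ v X1 Z D hXD hx.hZX (fun g hg => hg.1) (fun g hg => hg.2.1)
    hcomm hx.el
  obtain ⟨T, Q, π, τ, F, surj, faithful, Fsurj, Fmul, Fker, Fact'⟩ := md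
  have iX : InvS ρ X1 W := fun g hg => hx.iY g (hx.hXY hg)
  obtain ⟨ω, B, hω, hB⟩ := exists_form ρ v hx.hv W hx.hW X1 Z iX hx.hZX hZs
    (fun a ha b hb => hZs _ (hcomm a ha b hb)) hx.el F Fsurj Fmul Fker
  obtain ⟨w0, hw0, hw00⟩ := Submodule.exists_mem_ne_zero_of_ne_bot hx.hW
  have hval : ∀ i j : ZMod v, (∀ w ∈ W, ω ^ i.val • w = ω ^ j.val • w) → i = j := by
    intro i j h
    have h1 : (ω ^ i.val - ω ^ j.val) • w0 = 0 := by rw [sub_smul, h w0 hw0, sub_self]
    have h2 := sub_eq_zero.mp ((smul_eq_zero.mp h1).resolve_right hw00)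
    exact ZMod.val_injective v (hω.pow_inj (ZMod.val_lt i) (ZMod.val_lt j) h2)
  have halt : ∀ x, B x x = 0 := by
    intro x
    obtain ⟨a, ha, rfl⟩ := Fsurj x
    apply hval
    intro w hw
    rw [← hB a ha a ha w hw, commutatorElement_self, map_one, Module.End.one_apply, ZMod.val_zero,
      pow_zero, one_smul]
  have hF0 : ∀ a ∈ X1, ∀ g ∈ D, F (g * a * g⁻¹) = F a ↔ ⁅g, a⁆ ∈ Z := by
    intro a ha g hg
    have h1 : ⁅g, a⁆ ∈ X1 := by
      rw [commutatorElement_def]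
      exact X1.mul_mem (hg.1 a ha) (X1.inv_mem ha)
    rw [← Fker _ h1]
    have h2 := Fmul _ h1 a ha
    rw [commutatorElement_def, inv_mul_cancel_right] at h2
    rw [h2, commutatorElement_def]
    exact add_eq_right
  have hnd : ∀ x, (∀ y, B x y = 0) → x = 0 := by
    intro x hx0
    obtain ⟨a, ha, rfl⟩ := Fsurj x
    rw [Fker a ha]
    apply hx.nd a ha
    intro b hb w hw
    rw [hB a ha b hb w hw, hx0, ZMod.val_zero, pow_zero, one_smul]
  have hBinv : ∀ g : Q, ∀ x x', B (τ g x) (τ g x') = B x x' := by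
    intro g x x'
    obtain ⟨g, rfl⟩ := surj g
    obtain ⟨a, ha, rfl⟩ := Fsurj x
    obtain ⟨b, hb, rfl⟩ := Fsurj x'
    rw [← Fact' g a ha, ← Fact' g b hb]
    apply hval
    intro w hw
    rw [← hB _ (g.2.1 a ha) _ (g.2.1 b hb) w hw, ← hB a ha b hb w hw]
    have h1 : ⁅(g : E) * a * (g : E)⁻¹, (g : E) * b * (g : E)⁻¹⁆ = g * ⁅a, b⁆ * (g : E)⁻¹ := by
      simp only [commutatorElement_def]; group
    obtain ⟨c, hc⟩ := hZs _ (hcomm a ha b hb)
    rw [h1, map_mul, map_mul, Module.End.mul_apply, Module.End.mul_apply,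
      hc _ (g.2.2.2.inv w hw), map_smul, rho_apply_inv, hc w hw]
  -- triviality of elements centralising `X1` modulo `Z`
  have hπ1 : ∀ g : ↥D, (∀ a ∈ X1, ⁅(g : E), a⁆ ∈ Z) → π g = 1 := by
    intro g hg
    apply faithful
    intro x
    obtain ⟨a, ha, rfl⟩ := Fsurj x
    rw [← Fact' g a ha]
    exact (hF0 a ha g g.2).mpr (hg a ha)
  have hπY : ∀ g (hg : g ∈ Y), π ⟨g, hYD hg⟩ = 1 := by
    intro g hg
    apply hπ1
    intro a ha
    have h1 := Z.inv_mem (hx.cl a ha g hg)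
    rwa [commutatorElement_inv] at h1
  set φ' := π ⟨φ, hφD⟩ with hφ'
  set y' := π ⟨y, hyD⟩ with hy'
  set H' : Subgroup Q := (H.subgroupOf D).map π with hH'
  have hmemH : ∀ h (hh : h ∈ H), π ⟨h, hHD hh⟩ ∈ H' := fun h hh => ⟨⟨h, hHD hh⟩, hh, rfl⟩
  have hofH : ∀ x ∈ H', ∃ h, ∃ hh : h ∈ H, x = π ⟨h, hHD hh⟩ := by
    rintro _ ⟨⟨h, hd⟩, hh, rfl⟩
    exact ⟨h, hh, rfl⟩
  have nφ' : Nz φ' H' := by
    intro x hx'
    obtain ⟨h, hh, rfl⟩ := hofH x hx'
    rw [hφ', ← map_inv, ← map_mul, ← map_mul]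
    exact hmemH _ (yh.nφH h hh)
  have ny' : Nz y' H' := by
    intro x hx'
    obtain ⟨h, hh, rfl⟩ := hofH x hx'
    rw [hy', ← map_inv, ← map_mul, ← map_mul]
    exact hmemH _ (nyH h hh)
  -- the subgroup of elements of `D` mapping into a subgroup of `Q`
  have hHy' : H' ≤ cm H' y' := by
    intro x hx'
    obtain ⟨h, hh, rfl⟩ := hofH x hx'
    let R0 : Subgroup E := ((cm H' y').comap π).map D.subtype
    have hYR : Y ≤ R0 := fun g hg => ⟨⟨g, hYD hg⟩, by
      change π ⟨g, hYD hg⟩ ∈ cm H' y'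
      rw [hπY g hg]; exact one_mem _, rfl⟩
    have hYH : ∀ g ∈ Y ⊔ H, ∃ hg : g ∈ D, π ⟨g, hg⟩ ∈ H' := by
      intro g hg
      have h1 : Y ⊔ H ≤ (H'.comap π).map D.subtype := by
        apply sup_le
        · intro g hg
          exact ⟨⟨g, hYD hg⟩, by
            change π ⟨g, hYD hg⟩ ∈ H'
            rw [hπY g hg]; exact one_mem _, rfl⟩
        · intro g hg
          exact ⟨⟨g, hHD hg⟩, hmemH g hg, rfl⟩
      obtain ⟨⟨g', hg'⟩, h2, rfl⟩ := h1 hg
      exact ⟨hg', h2⟩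
    have hcmR : cm (Y ⊔ H) y ≤ R0 := by
      apply cm_le_of' yh.nyM
      intro g hg
      obtain ⟨hgD, hg2⟩ := hYH g hg
      refine ⟨⁅(⟨g, hgD⟩ : ↥D), (⟨y, hyD⟩ : ↥D)⁆, ?_, rfl⟩
      change π ⁅(⟨g, hgD⟩ : ↥D), (⟨y, hyD⟩ : ↥D)⁆ ∈ cm H' y'
      rw [map_commutatorElement]
      exact comm_mem_cm hg2
    obtain ⟨⟨g', hg'⟩, h2, h3⟩ := (yh.hHy.trans (sup_le hcmR hYR)) hh
    have h4 : g' = h := h3
    subst h4
    exact h2
  have hH1 : H' ≠ ⊥ := by
    intro h0
    obtain ⟨a, ha, h, hh, hah⟩ := hx.nt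
    apply hah
    rw [← hF0 a ha h (hHD hh), Fact' ⟨h, hHD hh⟩ a ha]
    have h1 := hmemH h hh
    rw [h0, mem_bot] at h1
    rw [h1, map_one, Module.End.one_apply]
  have hC' : ∀ x ∈ fx H' φ', x * y' = y' * x := by
    intro x hx'
    rw [mem_fx] at hx'
    obtain ⟨h, hh, rfl⟩ := hofH x hx'.1
    -- lift
    let N : Subgroup E := H ⊓ (π.ker).map D.subtype
    have hNH : N ≤ H := inf_le_left
    have hNker : ∀ g ∈ N, ∀ hg : g ∈ D, π ⟨g, hg⟩ = 1 := by
      rintro g ⟨-, ⟨g', hg'⟩, h2, rfl⟩ hg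
      exact h2
    have hNmem : ∀ g (hg : g ∈ H), π ⟨g, hHD hg⟩ = 1 → g ∈ N := fun g hg h1 =>
      ⟨hg, ⟨g, hHD hg⟩, h1, rfl⟩
    have hN : ¬ p ∣ Nat.card N := not_dvd_card_of_isPGroup yh.hpr (yh.hH.to_le hNH)
    have nN : Nz φ N := by
      intro g hg
      apply hNmem _ (yh.nφH g (hNH hg))
      have h1 := hNker g hg (hHD (hNH hg))
      have h2 : (⟨φ * g * φ⁻¹, hHD (yh.nφH g (hNH hg))⟩ : ↥D) =
        ⟨φ, hφD⟩ * ⟨g, hHD (hNH hg)⟩ * ⟨φ, hφD⟩⁻¹ := rfl
      rw [h2, map_mul, map_mul, h1, map_inv, mul_one, mul_inv_cancel]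
    have hg1 : h⁻¹ * (φ * h * φ⁻¹) ∈ H := H.mul_mem (H.inv_mem hh) (yh.nφH h hh)
    obtain ⟨m, hm, hm2⟩ := cp_fix1 yh.hφ hN nN (g := h) (by
      apply hNmem _ hg1
      have h2 : (⟨h⁻¹ * (φ * h * φ⁻¹), hHD hg1⟩ : ↥D) =
        ⟨h, hHD hh⟩⁻¹ * (⟨φ, hφD⟩ * ⟨h, hHD hh⟩ * ⟨φ, hφD⟩⁻¹) := rfl
      rw [h2, map_mul, map_mul, map_mul, map_inv, map_inv, ← hφ', hx'.2]
      group)
    have hhm : h * m ∈ H := H.mul_mem hh (hNH hm)
    have h3 : π ⟨h, hHD hh⟩ = π ⟨h * m, hHD hhm⟩ := by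
      have h4 : (⟨h * m, hHD hhm⟩ : ↥D) = ⟨h, hHD hh⟩ * ⟨m, hHD (hNH hm)⟩ := rfl
      rw [h4, map_mul, hNker m hm, mul_one]
    have h5 := hfx (h * m) (mem_fx.mpr ⟨hhm, hm2⟩)
    have h6 : π ⁅(⟨h * m, hHD hhm⟩ : ↥D), ⟨y, hyD⟩⁆ = 1 := by
      apply hπ1
      intro a ha
      have h7 := h5 a (hx.hXY ha)
      have h8 : ⁅⁅h * m, y⁆, a⁆ = 1 := by
        rw [commutatorElement_eq_one_iff_mul_comm]; exact h7
      change ⁅⁅h * m, y⁆, a⁆ ∈ Z
      rw [h8]; exact Z.one_mem
    rw [map_commutatorElement, commutatorElement_eq_one_iff_mul_comm, ← h3] at h6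
    exact h6
  have hy0' : ∀ x, τ φ' x = x → τ y' x = x := by
    intro x hx'
    obtain ⟨a, ha, rfl⟩ := Fsurj x
    rw [hφ', ← Fact' ⟨φ, hφD⟩ a ha, hF0 a ha φ hφD] at hx'
    rw [hy', ← Fact' ⟨y, hyD⟩ a ha, hF0 a ha y hyD]
    exact hx.hy0 a ha hx'
  have hXU : ∀ U : Submodule (ZMod v) T, ∃ X' : Subgroup E, ∀ a, a ∈ X' ↔ a ∈ X1 ∧ F a ∈ U := by
    intro U
    exact ⟨{
        carrier := {a | a ∈ X1 ∧ F a ∈ U}
        mul_mem' := fun {a b} ha hb => ⟨X1.mul_mem ha.1 hb.1, by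
          rw [Fmul a ha.1 b hb.1]; exact U.add_mem ha.2 hb.2⟩
        one_mem' := ⟨X1.one_mem, by rw [(Fker 1 X1.one_mem).mpr Z.one_mem]; exact U.zero_mem⟩
        inv_mem' := fun {a} ha => ⟨X1.inv_mem ha.1, by
          have h4 := Fmul a ha.1 a⁻¹ (X1.inv_mem ha.1)
          rw [mul_inv_cancel, (Fker 1 X1.one_mem).mpr Z.one_mem] at h4
          rw [eq_neg_of_add_eq_zero_right h4.symm]
          exact U.neg_mem ha.2⟩ }, fun a => Iff.rfl⟩
  have hmin : ∀ U : Submodule (ZMod v) T, Inv τ φ' U → Inv τ y' U → InvS τ H' U →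
      U = ⊥ ∨ U = ⊤ := by
    intro U h1 h2 h3
    obtain ⟨X', hX'⟩ := hXU U
    rcases hx.mn X' (fun z hz => (hX' z).mpr ⟨hx.hZX hz, by
        rw [(Fker z (hx.hZX hz)).mpr hz]; exact U.zero_mem⟩) (fun a ha => ((hX' a).mp ha).1)
      (fun g hg a ha => (hX' _).mpr ⟨hx.nH g hg a ((hX' a).mp ha).1, by
        have := Fact' ⟨g, hHD hg⟩ a ((hX' a).mp ha).1
        rw [show F (g * a * g⁻¹) = _ from this]
        exact h3 _ (hmemH g hg) _ ((hX' a).mp ha).2⟩)
      (fun a ha => (hX' _).mpr ⟨hx.nφ a ((hX' a).mp ha).1, by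
        have := Fact' ⟨φ, hφD⟩ a ((hX' a).mp ha).1
        rw [show F (φ * a * φ⁻¹) = _ from this]
        exact h1 _ ((hX' a).mp ha).2⟩)
      (fun a ha => (hX' _).mpr ⟨hx.ny a ((hX' a).mp ha).1, by
        have := Fact' ⟨y, hyD⟩ a ((hX' a).mp ha).1
        rw [show F (y * a * y⁻¹) = _ from this]
        exact h2 _ ((hX' a).mp ha).2⟩) with h | h
    · left
      rw [eq_bot_iff]
      intro x hxU
      obtain ⟨a, ha, rfl⟩ := Fsurj x
      have h4 : a ∈ X' := (hX' a).mpr ⟨ha, hxU⟩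
      rw [h] at h4
      rw [Submodule.mem_bot, Fker a ha]
      exact h4
    · right
      rw [eq_top_iff]
      intro x _
      obtain ⟨a, ha, rfl⟩ := Fsurj x
      have h4 : a ∈ X' := by rw [h]; exact ha
      exact ((hX' a).mp h4).2
  have hrv : r ≠ v := yh.hvr.symm
  obtain ⟨hv2, y0', ⟨j, hj⟩, w, hw0', hwy, hwB⟩ := core hW' hISO τ faithful B halt hnd p q r φ' y' H'
    n yh.hp yh.hq yh.hr yh.hpq yh.hpr yh.hqr yh.hpv hvq.symm hrv
    (by rw [hφ', ← map_pow]; exact (congrArg π (Subtype.ext yh.hφ)).trans (map_one π))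
    (by rw [hy', ← map_pow]; exact (congrArg π (Subtype.ext hyn)).trans (map_one π))
    (by rw [hφ', hy', ← map_mul, ← map_mul]; exact congrArg π (Subtype.ext yh.hc))
    ((yh.hH.comap_subtype).map π) nφ' ny' hHy' hH1 hC' hy0' hBinv hmin
  subst hj
  -- back to `E`
  set d := y ^ j with hd
  have hdD : d ∈ D := D.zpow_mem hyD j
  have hπd : π ⟨d, hdD⟩ = y' ^ j := by
    rw [hy', ← map_zpow]
    exact congrArg π (Subtype.ext rfl)
  have hdq : d ^ q ^ n = 1 := by
    rw [hd, ← zpow_natCast, ← zpow_mul, mul_comm, zpow_mul, zpow_natCast, hyn, one_zpow]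
  have hcd : φ * d = d * φ := ((show Commute φ y from yh.hc).zpow_right j)
  have hcφy : φ' * y' = y' * φ' := by
    rw [hφ', hy', ← map_mul, ← map_mul]; exact congrArg π (Subtype.ext yh.hc)
  have hFφ : ∀ a ∈ X1, F (φ * a * φ⁻¹) = τ φ' (F a) := fun a ha => Fact' ⟨φ, hφD⟩ a ha
  have hFd : ∀ a ∈ X1, F (d * a * d⁻¹) = τ (y' ^ j) (F a) := fun a ha => by
    rw [← hπd]; exact Fact' ⟨d, hdD⟩ a ha
  have hwy' : τ (y' ^ j) w = -w := hwy
  -- the isotropic subspace
  set I : Submodule (ZMod v) T :=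
    Submodule.span (ZMod v) (Set.range fun i : ℕ => τ (φ' ^ i) w) with hI
  have hIφ : ∀ x ∈ I, τ φ' x ∈ I := by
    intro x hx'
    induction hx' using Submodule.span_induction with
    | mem x hx' =>
      obtain ⟨i, rfl⟩ := hx'
      apply Submodule.subset_span
      exact ⟨i + 1, by
        change τ (φ' ^ (i + 1)) w = τ φ' (τ (φ' ^ i) w)
        rw [pow_succ', map_mul, Module.End.mul_apply]⟩
    | zero => rw [map_zero]; exact I.zero_mem
    | add a b _ _ ha hb => rw [map_add]; exact I.add_mem ha hb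
    | smul c a _ ha => rw [map_smul]; exact I.smul_mem c ha
  have hId : ∀ x ∈ I, τ (y' ^ j) x = -x := by
    intro x hx'
    induction hx' using Submodule.span_induction with
    | mem x hx' =>
      obtain ⟨i, rfl⟩ := hx'
      change τ (y' ^ j) (τ (φ' ^ i) w) = -(τ (φ' ^ i) w)
      have h1 : y' ^ j * φ' ^ i = φ' ^ i * y' ^ j :=
        (((show Commute φ' y' from hcφy).pow_left i).zpow_right j).symm
      rw [← Module.End.mul_apply, ← map_mul, h1, map_mul, Module.End.mul_apply, hwy', map_neg]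
    | zero => rw [map_zero, neg_zero]
    | add a b _ _ ha hb => rw [map_add, ha, hb]; abel
    | smul c a _ ha => rw [map_smul, ha, smul_neg]
  have hIB : ∀ x ∈ I, ∀ x' ∈ I, B x x' = 0 := by
    have h0 : ∀ i m : ℕ, B (τ (φ' ^ i) w) (τ (φ' ^ (i + m)) w) = 0 := by
      intro i m
      rw [pow_add, map_mul, Module.End.mul_apply, hBinv]
      exact hwB m
    have hskew : ∀ x x', B x x' = 0 → B x' x = 0 := by
      intro x x' h
      have h1 := halt (x + x')
      simp only [map_add, LinearMap.add_apply, halt, zero_add, add_zero, h] at h1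
      exact h1
    have h1 : ∀ i i' : ℕ, B (τ (φ' ^ i) w) (τ (φ' ^ i') w) = 0 := by
      intro i i'
      rcases le_total i i' with h | h
      · obtain ⟨m, rfl⟩ := Nat.exists_eq_add_of_le h
        exact h0 i m
      · obtain ⟨m, rfl⟩ := Nat.exists_eq_add_of_le h
        exact hskew _ _ (h0 i' m)
    have h2 : ∀ i : ℕ, ∀ x' ∈ I, B (τ (φ' ^ i) w) x' = 0 := by
      intro i x' hx'
      induction hx' using Submodule.span_induction with
      | mem x hx' => obtain ⟨i', rfl⟩ := hx'; exact h1 i i'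
      | zero => rw [map_zero]
      | add a b _ _ ha hb => rw [map_add, ha, hb, add_zero]
      | smul c a _ ha => rw [map_smul, ha, smul_zero]
    intro x hx' x' hx''
    induction hx' using Submodule.span_induction with
    | mem x hx' => obtain ⟨i', rfl⟩ := hx'; exact h2 i' x' hx''
    | zero => rw [map_zero, LinearMap.zero_apply]
    | add a b _ _ ha hb => rw [map_add, LinearMap.add_apply, ha, hb, add_zero]
    | smul c a _ ha => rw [map_smul, LinearMap.smul_apply, ha, smul_zero]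
  obtain ⟨XI, hXI⟩ := hXU I
  have hXIX : XI ≤ X1 := fun a ha => ((hXI a).mp ha).1
  have hZXI : Z ≤ XI := fun z hz => (hXI z).mpr ⟨hx.hZX hz, by
    rw [(Fker z (hx.hZX hz)).mpr hz]; exact I.zero_mem⟩
  have nφXI : Nz φ XI := fun a ha => (hXI _).mpr ⟨hx.nφ a (hXIX ha), by
    rw [hFφ a (hXIX ha)]; exact hIφ _ ((hXI a).mp ha).2⟩
  have ndXI : Nz d XI := fun a ha => (hXI _).mpr ⟨hdD.1 a (hXIX ha), by
    rw [hFd a (hXIX ha), hId _ ((hXI a).mp ha).2]; exact I.neg_mem ((hXI a).mp ha).2⟩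
  have hXIY : XI ≤ Y := hXIX.trans hx.hXY
  have hcardX : (Nat.card XI : k) ≠ 0 := card_ne_zero_of_isPGroup (yh.hY.to_le hXIY) hx.hv
  have iXI : InvS ρ XI W := fun g hg => hx.iY g (hXIY hg)
  have htrivc : ∀ a ∈ XI, ∀ b ∈ XI, ∀ x ∈ W, ρ ⁅a, b⁆ x = x := by
    intro a ha b hb x hxW
    rw [hB a (hXIX ha) b (hXIX hb) x hxW, hIB _ ((hXI a).mp ha).2 _ ((hXI b).mp hb).2,
      ZMod.val_zero, pow_zero, one_smul]
  have hab : AbOn ρ XI W := by
    intro a ha b hb x hxW
    have h1 := htrivc a ha b hb (ρ b (ρ a x)) (iXI b hb _ (iXI a ha x hxW))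
    rw [← Module.End.mul_apply, ← Module.End.mul_apply, ← map_mul, ← map_mul] at h1
    have h2 : ⁅a, b⁆ * b * a = a * b := by simp only [commutatorElement_def]; group
    rw [h2, map_mul, Module.End.mul_apply] at h1
    exact h1
  have hsup := wts_sup hcardX iXI hab
  have h2v : (2 : ZMod v) ≠ 0 := by
    intro h0
    have h1 : ((2 : ℕ) : ZMod v) = 0 := by exact_mod_cast h0
    rw [ZMod.natCast_eq_zero_iff] at h1
    exact hv2 ((Nat.prime_dvd_prime_iff_eq yh.hv Nat.prime_two).mp h1)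
  -- a moved weight space
  obtain ⟨U, hU, hmov⟩ : ∃ U ∈ wts ρ XI W, U.map (ρ φ) ≠ U := by
    by_contra hcon
    push Not at hcon
    have h1 : ∀ g ∈ cm XI φ, ∀ x ∈ W, ρ g x = x := by
      intro g hg
      have h2 : W ≤ LinearMap.ker (ρ g - 1) := by
        rw [← hsup]
        apply sSup_le
        intro U hU x hxU
        rw [LinearMap.mem_ker, LinearMap.sub_apply, Module.End.one_apply, sub_eq_zero]
        exact cm_triv_of_fixed nφXI hx.iφ hU (hcon U hU) g hg x hxU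
      intro x hxW
      have h3 := h2 hxW
      rw [LinearMap.mem_ker, LinearMap.sub_apply, Module.End.one_apply, sub_eq_zero] at h3
      exact h3
    obtain ⟨a, ha, haw⟩ := Fsurj w
    have haI : a ∈ XI := (hXI a).mpr ⟨ha, by
      rw [haw]
      exact Submodule.subset_span ⟨0, by simp⟩⟩
    have h2 : ⁅a, φ⁆ ∈ Z := by
      have h3 : ⁅a, φ⁆ ∈ cm XI φ := comm_mem_cm haI
      exact (hx.hZ _).mpr ⟨hXIY (cm_le nφXI h3), 1, fun x hxW => by
        rw [one_smul]; exact h1 _ h3 x hxW⟩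
    have h3 : ⁅φ, a⁆ ∈ Z := by
      have h4 := Z.inv_mem h2
      rwa [commutatorElement_inv] at h4
    have h4 : τ φ' w = w := by
      rw [← haw, ← hFφ a ha]
      exact (hF0 a ha φ hφD).mpr h3
    have h5 := hy0' w h4
    have h6 : τ (y' ^ j) w = w := by
      have h7 : ∀ m : ℕ, τ (y' ^ m) w = w := by
        intro m
        induction m with
        | zero => simp
        | succ m ih => rw [pow_succ, map_mul, Module.End.mul_apply, h5, ih]
      cases j with
      | ofNat m => simpa using h7 m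
      | negSucc m =>
        rw [zpow_negSucc]
        have h8 := rho_inv_apply (ρ := τ) (y' ^ (m + 1)) w
        rwa [h7] at h8
    rw [hwy'] at h6
    have h7 : (2 : ZMod v) • w = 0 := by
      rw [two_smul]
      nth_rewrite 1 [← h6]
      exact neg_add_cancel w
    exact hw0' ((smul_eq_zero.mp h7).resolve_left h2v)
  -- at most one weight space is fixed by `d`
  have hchi : ∀ U ∈ wts ρ XI W, U.map (ρ d) = U → ∀ χ : E → k, U = wsp ρ XI W χ → ∀ a ∈ XI,
      ∀ s : k, (∀ x ∈ W, ρ (a * (d * a * d⁻¹)) x = s • x) → χ a * χ a = s := by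
    intro U hU hUd χ hχ a ha s hs
    obtain ⟨u, hu, hu0⟩ := Submodule.exists_mem_ne_zero_of_ne_bot hU.1
    have h1 : u ∈ U.map (ρ d) := by rw [hUd]; exact hu
    obtain ⟨u', hu', rfl⟩ := h1
    have hu1 : ρ a u' = χ a • u' := by
      rw [hχ] at hu'; exact hu'.2 a ha
    have hu2 : ρ a (ρ d u') = χ a • (ρ d u') := by
      rw [hχ] at hu; exact hu.2 a ha
    have hW1 : ρ d u' ∈ W := by
      rw [hχ] at hu; exact hu.1
    have h2 := hs _ hW1
    have h3 : ρ (a * (d * a * d⁻¹)) (ρ d u') = (χ a * χ a) • (ρ d u') := by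
      rw [map_mul, map_mul, map_mul, Module.End.mul_apply, Module.End.mul_apply,
        Module.End.mul_apply, rho_inv_apply, hu1, map_smul, map_smul, hu2, smul_smul]
    rw [h3] at h2
    have h4 : (χ a * χ a - s) • (ρ d u') = 0 := by rw [sub_smul, h2, sub_self]
    exact sub_eq_zero.mp ((smul_eq_zero.mp h4).resolve_right hu0)
  have hpow : ∀ U ∈ wts ρ XI W, ∀ χ : E → k, U = wsp ρ XI W χ → ∀ a ∈ XI, ∀ s : k,
      (∀ x ∈ W, ρ (a ^ v) x = s • x) → χ a ^ v = s := by
    intro U hU χ hχ a ha s hs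
    obtain ⟨u, hu, hu0⟩ := Submodule.exists_mem_ne_zero_of_ne_bot hU.1
    rw [hχ] at hu
    have h1 : ∀ m : ℕ, ρ (a ^ m) u = χ a ^ m • u := by
      intro m
      induction m with
      | zero => simp
      | succ m ih =>
        rw [pow_succ, map_mul, Module.End.mul_apply, hu.2 a ha, map_smul, ih, smul_smul, pow_succ,
          mul_comm]
    have h2 := hs u hu.1
    rw [h1] at h2
    have h4 : (χ a ^ v - s) • u = 0 := by rw [sub_smul, h2, sub_self]
    exact sub_eq_zero.mp ((smul_eq_zero.mp h4).resolve_right hu0)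
  have huniq : ∀ U ∈ wts ρ XI W, ∀ U' ∈ wts ρ XI W, U.map (ρ d) = U → U'.map (ρ d) = U' →
      U = U' := by
    intro U hU U' hU' hUd hUd'
    obtain ⟨χ, hχ⟩ := hU.2
    obtain ⟨χ', hχ'⟩ := hU'.2
    have h1 : ∀ a ∈ XI, χ a = χ' a := by
      intro a ha
      have hb : a * (d * a * d⁻¹) ∈ Z := by
        have h2 := ndXI a ha
        rw [← Fker _ (hXIX (XI.mul_mem ha h2)), Fmul a (hXIX ha) _ (hXIX h2), hFd a (hXIX ha),
          hId _ ((hXI a).mp ha).2, add_neg_cancel]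
      obtain ⟨s, hs⟩ := hZs _ hb
      have hs0 : s ≠ 0 := (scal_inv hs hx.hW).1
      obtain ⟨s', hs'⟩ := hZs _ (hx.el a (hXIX ha))
      have h3 := hchi U hU hUd χ hχ a ha s hs
      have h4 := hchi U' hU' hUd' χ' hχ' a ha s hs
      have h5 := hpow U hU χ hχ a ha s' hs'
      have h6 := hpow U' hU' χ' hχ' a ha s' hs'
      obtain ⟨m, hm⟩ := (yh.hv.eq_two_or_odd').resolve_left hv2
      have h7 : ∀ c : k, c * c = s → c ^ v = s ^ m * c := by
        intro c hc
        rw [hm, pow_succ, pow_mul, pow_two, hc]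
      rw [h7 _ h3] at h5
      rw [h7 _ h4] at h6
      exact mul_left_cancel₀ (pow_ne_zero m hs0) (h5.trans h6.symm)
    rw [hχ, hχ']
    ext x
    constructor
    · rintro ⟨h2, h3⟩
      exact ⟨h2, fun a ha => by rw [h3 a ha, h1 a ha]⟩
    · rintro ⟨h2, h3⟩
      exact ⟨h2, fun a ha => by rw [h3 a ha, h1 a ha]⟩
  -- the weight space moved by `φ` and `d`
  obtain ⟨U1, hU1, hmov1, hd1⟩ : ∃ U1 ∈ wts ρ XI W, U1.map (ρ φ) ≠ U1 ∧ U1.map (ρ d) ≠ U1 := by
    by_cases h1 : U.map (ρ d) = U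
    · have hU' := wts_map nφXI hx.iφ hU
      refine ⟨U.map (ρ φ), hU', ?_, ?_⟩
      · intro h2
        apply hmov
        apply Submodule.map_injective_of_injective (f := ρ φ) _ h2
        intro a b hab'
        rw [← rho_inv_apply (ρ := ρ) φ a, hab', rho_inv_apply]
      · intro h2
        exact hmov (huniq U hU _ hU' h1 h2).symm
    · exact ⟨U, hU, hmov, h1⟩
  obtain ⟨x0, hx0W, hx0φ, hx0s, hx0d⟩ := acrit yh.hpq yh.hφ hdq hcd hcardX nφXI ndXI hx.iφ
    hdD.2.2 hU1 hmov1 (Or.inl hd1)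
  -- the kernel
  let N : Subgroup E :=
    { carrier := {g | g ∈ Y ∧ ∀ x ∈ W, ρ g x = x}
      mul_mem' := fun {a b} ha hb => ⟨Y.mul_mem ha.1 hb.1, fun x hxW => by
        rw [map_mul, Module.End.mul_apply, hb.2 x hxW, ha.2 x hxW]⟩
      one_mem' := ⟨Y.one_mem, fun x _ => by simp⟩
      inv_mem' := fun {a} ha => ⟨Y.inv_mem ha.1, fun x hxW => by
        have h1 := rho_inv_apply (ρ := ρ) a x
        rwa [ha.2 x hxW] at h1⟩ }
  have hNmem : ∀ g, g ∈ N ↔ g ∈ Y ∧ ∀ x ∈ W, ρ g x = x := fun g => Iff.rfl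
  have nN : ∀ g, Nz g Y → Inv ρ g W → Nz g N := by
    intro g hgY hgW a ha
    refine ⟨hgY a ha.1, fun x hxW => ?_⟩
    rw [map_mul, map_mul, Module.End.mul_apply, Module.End.mul_apply,
      ha.2 _ (hgW.inv x hxW), rho_apply_inv]
  refine ⟨d, ⟨j, rfl⟩, XI, N, hXIY, ?_, nφXI, nN φ yh.nφY hx.iφ, ndXI,
    nN d (yh.nyY.zpow j) hdD.2.2, fun g hg => nN g (Nz.of_mem (hXIY hg)) (iXI g hg), ?_, ?_⟩
  · intro g hg
    apply hZXI
    exact (hx.hZ g).mpr ⟨hg.1, 1, fun x hxW => by rw [one_smul]; exact hg.2 x hxW⟩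
  · intro a ha b hb
    refine ⟨?_, htrivc a ha b hb⟩
    rw [commutatorElement_def]
    exact Y.mul_mem (Y.mul_mem (Y.mul_mem (hXIY ha) (hXIY hb)) (Y.inv_mem (hXIY ha)))
      (Y.inv_mem (hXIY hb))
  · exact ⟨x0, hx0φ, fun g hg => hg.2 x0 hx0W, hx0s, d, mem_zpowers d, hx0d⟩

end Final

end QLV

theorem stmt_QLV (hW : Stmt_W) (hISO : Stmt_ISO) (hQ : Stmt_QMOD) : Stmt_QLV :=
  QLV.stmt_QLV hW hISO hQ

end Pool.FH
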