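import Pool.Agent.Work.MP_4c212b_al.Interface

/-!
# Block QMOD: the representation on an elementary abelian section
-/

set_option autoImplicit false

open Subgroup
open scoped commutatorElement TensorProduct

namespace Pool.FH

/-- a representation over `ZMod v` from an action by additive endomorphisms -/
noncomputable def repOfEnd {E V : Type} [Group E] [AddCommGroup V] (v : ℕ) [Module (ZMod v) V]
    (c : E → V →+ V) (h1 : ∀ x, c 1 x = x) (h2 : ∀ g h x, c (g * h) x = c g (c h x)) :
    Representation (ZMod v) E V where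
  toFun g := AddMonoidHom.toZModLinearMap v (c g)
  map_one' := LinearMap.ext fun x => h1 x
  map_mul' g h := LinearMap.ext fun x => h2 g h x

theorem repOfEnd_apply {E V : Type} [Group E] [AddCommGroup V] (v : ℕ) [Module (ZMod v) V]
    (c : E → V →+ V) (h1 : ∀ x, c 1 x = x) (h2 : ∀ g h x, c (g * h) x = c g (c h x)) (g : E)
    (x : V) : repOfEnd v c h1 h2 g x = c g x := rfl

theorem stmt_QMOD : Stmt_QMOD := by
  intro E _ _ v _ X Z _ _ hZX hab hv
  let q := QuotientGroup.mk' Z
  let X' : Subgroup (E ⧸ Z) := X.map q
  have hX'n : X'.Normal := (inferInstance : X.Normal).map q (QuotientGroup.mk'_surjective Z)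
  let _ : CommGroup X' :=
    { (inferInstance : Group X') with
      mul_comm := by
        rintro ⟨_, a, ha, rfl⟩ ⟨_, b, hb, rfl⟩
        apply Subtype.ext
        change q a * q b = q b * q a
        rw [← map_mul, ← map_mul, ← mul_inv_eq_one, ← map_inv, ← map_mul]
        have h1 := hab a ha b hb
        have h2 : a * b * (b * a)⁻¹ = ⁅a, b⁆ := by rw [commutatorElement_def]; group
        rw [h2]
        exact (QuotientGroup.eq_one_iff _).2 h1 }
  let V := Additive X'
  have hpow : ∀ x : V, v • x = 0 := by
    intro x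
    obtain ⟨_, a, ha, h⟩ := x
    subst h
    apply Subtype.ext
    change (q a) ^ v = 1
    rw [← map_pow]
    exact (QuotientGroup.eq_one_iff _).2 (hv a ha)
  let _ : Module (ZMod v) V := AddCommGroup.zmodModule hpow
  let cj : E → V →+ V := fun g =>
    MonoidHom.toAdditive (MulAut.conjNormal (H := X') (q g)).toMonoidHom
  have cj_val : ∀ g (x : V), ((cj g x).toMul : E ⧸ Z) = q g * (x.toMul : E ⧸ Z) * (q g)⁻¹ := by
    intro g x
    rfl
  have c1 : ∀ x, cj 1 x = x := by
    intro x
    apply Additive.toMul.injective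
    apply Subtype.ext
    change q 1 * (x.toMul : E ⧸ Z) * (q 1)⁻¹ = _
    rw [map_one]; simp
  have c2 : ∀ g h x, cj (g * h) x = cj g (cj h x) := by
    intro g h x
    apply Additive.toMul.injective
    apply Subtype.ext
    change q (g * h) * (x.toMul : E ⧸ Z) * (q (g * h))⁻¹ =
      q g * (q h * (x.toMul : E ⧸ Z) * (q h)⁻¹) * (q g)⁻¹
    rw [map_mul]; group
  refine ⟨V, inferInstance, inferInstance, inferInstanceAs (Finite X'), repOfEnd v cj c1 c2,
    fun x => Additive.ofMul ⟨q x, ⟨x, x.2, rfl⟩⟩, ?_, ?_, ?_, ?_⟩
  · rintro ⟨_, a, ha, h⟩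
    subst h
    exact ⟨⟨a, ha⟩, rfl⟩
  · intro x y
    apply Additive.toMul.injective
    apply Subtype.ext
    change q (x * y : X) = q x * q y
    rw [← map_mul]; rfl
  · intro x
    constructor
    · intro h
      have h1 : q x = 1 := congrArg (fun t : V => (t.toMul : E ⧸ Z)) h
      exact (QuotientGroup.eq_one_iff _).1 h1
    · intro h
      apply Additive.toMul.injective
      apply Subtype.ext
      exact (QuotientGroup.eq_one_iff _).2 h
  · intro g x y h
    apply Additive.toMul.injective
    apply Subtype.ext
    change q y = q g * q x * (q g)⁻¹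
    rw [h, map_mul, map_mul, map_inv]

end Pool.FH
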