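import Pool.Agent.Work.MP_4c212b_al.QMOD

/-!
# Block REPR: the module `O_s(G)/Φ(O_s(G))` of the next level
-/

set_option autoImplicit false

open Subgroup
open scoped commutatorElement TensorProduct

namespace Pool.FH

theorem stmt_REPR : Stmt_REPR := by
  intro S s _
  let X : Subgroup S.Γ := Op s S.G
  let Z : Subgroup S.Γ := Phi s X
  have hXn : X.Normal := ⟨fun x hx g => Op_nz s (Nz.of_normal g S.G) x hx⟩
  have hZn : Z.Normal := ⟨fun x hx g => Phi_nz (Nz.of_normal g X) x hx⟩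
  have hZX : Z ≤ X := Phi_le
  have hab : ∀ a ∈ X, ∀ b ∈ X, ⁅a, b⁆ ∈ Z := fun a ha b hb =>
    subset_closure (Or.inl ⟨a, ha, b, hb, rfl⟩)
  have hv : ∀ a ∈ X, a ^ s ∈ Z := fun a ha => subset_closure (Or.inr ⟨a, ha, rfl⟩)
  obtain ⟨V, i1, i2, i3, ρ, f, f1, f2, f3, f4⟩ := stmt_QMOD S.Γ s X Z hZX hab hv
  -- the action on `f x`
  have act : ∀ (g : S.Γ) (x : ↥X), ρ g (f x) = f ⟨g * x * g⁻¹, hXn.conj_mem _ x.2 g⟩ :=
    fun g x => (f4 g x ⟨g * x * g⁻¹, hXn.conj_mem _ x.2 g⟩ rfl).symm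
  -- triviality of the action of `g` in terms of commutators
  have triv : ∀ (g : S.Γ) (x : ↥X), ρ g (f x) = f x ↔ ⁅g, (x : S.Γ)⁆ ∈ Z := by
    intro g x
    have hg : ⁅g, (x : S.Γ)⁆ ∈ X := by
      have h1 : ⁅g, (x : S.Γ)⁆ = (g * x * g⁻¹) * (x : S.Γ)⁻¹ := by rw [commutatorElement_def]
      rw [h1]
      exact X.mul_mem (hXn.conj_mem _ x.2 g) (X.inv_mem x.2)
    have h2 : (⟨g * x * g⁻¹, hXn.conj_mem _ x.2 g⟩ : ↥X) = ⟨⁅g, (x : S.Γ)⁆, hg⟩ * x := by
      apply Subtype.ext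
      simp only [commutatorElement_def, coe_mul]; group
    rw [act, h2, f2, add_eq_right, f3]
  have hker : Ft S.G ≤ (ρ : S.Γ →* (V →ₗ[ZMod s] V)).ker := by
    apply iSup₂_le
    intro t ht g hg
    have _ : Fact t.Prime := ⟨ht⟩
    rw [MonoidHom.mem_ker]
    apply LinearMap.ext
    intro v
    obtain ⟨x, rfl⟩ := f1 v
    refine ((triv g x).2 ?_)
    by_cases hts : t = s
    · subst hts
      exact hab g hg x x.2
    · have h1 : g * x = x * g := Op_comm hts hg x.2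
      have h2 : ⁅g, (x : S.Γ)⁆ = 1 := by
        rw [commutatorElement_eq_one_iff_mul_comm]; exact h1
      rw [h2]; exact Z.one_mem
  refine ⟨{
    V := V
    ρ := QuotientGroup.lift (Ft S.G) ρ hker
    f := f
    f_surj := f1
    f_mul := f2
    f_equiv := ?_
    faith := ?_ }⟩
  · intro g x y h
    exact f4 g x y h
  · intro t ht hts P hP hPt
    have _ : Fact t.Prime := ⟨ht⟩
    apply Phi_triv (p := t) hts (Op_isP s S.G) hP (fun g _ => Op_nz s (Nz.of_normal g S.G))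
    intro a ha y hy
    exact (triv a ⟨y, hy⟩).1 (hPt a ha _)

end Pool.FH
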