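import Pool.Agent.Work.MP_4c212b_al.Interface

/-!
# Block S1: `|H : F_2(H)|` is bounded for finite soluble groups of bounded rank
-/

set_option autoImplicit false

open Subgroup
open scoped commutatorElement TensorProduct

namespace Pool.FH

namespace S1

section Grp

variable {H : Type} [Group H] [Finite H]

theorem split (t : ℕ) [Fact t.Prime] (z : H) : ∃ u v : ℕ, z = z ^ u * z ^ v ∧
    (∃ c : ℕ, (z ^ u) ^ t ^ c = 1) ∧
    ∃ m : ℕ, ¬ t ∣ m ∧ m ∣ orderOf z ∧ (z ^ v) ^ m = 1 := by
  have hpos : 0 < orderOf z := orderOf_pos z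
  have ht := (Fact.out : t.Prime)
  obtain ⟨c, m, hm, hn⟩ := Nat.exists_eq_pow_mul_and_not_dvd hpos.ne' t ht.ne_one
  have hcop : Nat.Coprime (t ^ c) m :=
    Nat.Coprime.pow_left _ ((Nat.Prime.coprime_iff_not_dvd ht).2 hm)
  obtain ⟨u, hu1, hu2⟩ := Nat.chineseRemainder hcop 1 0
  obtain ⟨v, hv1, hv2⟩ := Nat.chineseRemainder hcop 0 1
  refine ⟨u, v, ?_, ⟨c, ?_⟩, m, hm, ?_, ?_⟩
  · rw [← pow_add]
    have h1 : u + v ≡ 1 [MOD orderOf z] := by
      rw [hn]
      refine (Nat.modEq_and_modEq_iff_modEq_mul hcop).1 ⟨?_, ?_⟩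
      · simpa using hu1.add hv1
      · simpa using hu2.add hv2
    conv_lhs => rw [← pow_one z]
    exact (pow_eq_pow_iff_modEq.2 h1).symm
  · rw [← pow_mul, ← orderOf_dvd_iff_pow_eq_one, hn, mul_comm u]
    exact Nat.mul_dvd_mul dvd_rfl (Nat.modEq_zero_iff_dvd.1 hu2)
  · rw [hn]; exact Dvd.intro_left _ rfl
  · rw [← pow_mul, ← orderOf_dvd_iff_pow_eq_one, hn]
    exact Nat.mul_dvd_mul (Nat.modEq_zero_iff_dvd.1 hv1) dvd_rfl

/-- `A/B` is a chief factor of exponent `q` below `O_q(H)`. -/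
structure Chief (q : ℕ) (A B : Subgroup H) : Prop where
  hq : q.Prime
  nA : A.Normal
  nB : B.Normal
  le : B ≤ A
  ne : ¬ A ≤ B
  leO : A ≤ Op q (⊤ : Subgroup H)
  ab : ∀ a ∈ A, ∀ b ∈ A, ⁅a, b⁆ ∈ B
  pw : ∀ a ∈ A, a ^ q ∈ B
  mn : ∀ N : Subgroup H, N.Normal → B ≤ N → N ≤ A → N ≤ B ∨ A ≤ N

/-- The centraliser of the section `A / B`. -/
def cf (A B : Subgroup H) (hA : A.Normal) (hB : B.Normal) : Subgroup H where
  carrier := {h | ∀ a ∈ A, ⁅h, a⁆ ∈ B}
  one_mem' := fun a _ => by simp
  mul_mem' := by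
    intro g h hg hh a ha
    have e1 : ⁅g * h, a⁆ = g * ⁅h, a⁆ * g⁻¹ * ⁅g, a⁆ := by
      simp only [commutatorElement_def]; group
    rw [e1]
    exact mul_mem (hB.conj_mem _ (hh a ha) g) (hg a ha)
  inv_mem' := by
    intro g hg a ha
    have e1 : ⁅g⁻¹, a⁆ = g⁻¹ * ⁅g, a⁆⁻¹ * g⁻¹⁻¹ := by
      simp only [commutatorElement_def]; group
    rw [e1]
    exact hB.conj_mem _ (inv_mem (hg a ha)) _

theorem mem_cf {A B : Subgroup H} {hA : A.Normal} {hB : B.Normal} {h : H} :
    h ∈ cf A B hA hB ↔ ∀ a ∈ A, ⁅h, a⁆ ∈ B := Iff.rfl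

theorem cf_normal {A B : Subgroup H} {hA : A.Normal} {hB : B.Normal} :
    (cf A B hA hB).Normal := by
  constructor
  intro h hh g a ha
  have h1 := hh (g⁻¹ * a * g) (by simpa using hA.conj_mem a ha g⁻¹)
  have h2 := hB.conj_mem _ h1 g
  have e1 : g * ⁅h, g⁻¹ * a * g⁆ * g⁻¹ = ⁅g * h * g⁻¹, a⁆ := by
    simp only [commutatorElement_def]; group
  rwa [e1] at h2

/-- the first term -/
def s1 (H : Type) [Group H] [Finite H] : Subgroup H :=
  ⨅ (q : ℕ) (A : Subgroup H) (B : Subgroup H) (h : Chief q A B), cf A B h.nA h.nB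

theorem mem_s1 {x : H} : x ∈ s1 H ↔ ∀ (q : ℕ) (A B : Subgroup H), Chief q A B →
    ∀ a ∈ A, ⁅x, a⁆ ∈ B := by
  simp only [s1, mem_iInf, mem_cf]

/-- An `s`-element of `s1` centralises `O_q(H)` for `q ≠ s`. -/
theorem C1 {s q : ℕ} (hs : s.Prime) [hq : Fact q.Prime] (hsq : s ≠ q) {x : H} (hx : x ∈ s1 H)
    {a : ℕ} (ha : x ^ s ^ a = 1) : ∀ n : ℕ, ∀ N : Subgroup H, N.Normal →
    N ≤ Op q (⊤ : Subgroup H) → Nat.card N ≤ n → ∀ y ∈ N, x * y = y * x := by
  intro n
  induction n with
  | zero =>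
    intro N _ _ h0 y hy
    have : 0 < Nat.card N := Nat.card_pos
    omega
  | succ n ih =>
    intro N hN hNO hcard y hy
    by_cases hbot : N = ⊥
    · subst hbot
      rw [mem_bot] at hy
      subst hy
      simp
    have hNq : IsPGroup q N := (Op_isP q (⊤ : Subgroup H)).to_le hNO
    -- a maximal normal subgroup between `Phi` and `N`
    set S : Set (Subgroup H) := {B | B.Normal ∧ Phi q N ≤ B ∧ B ≤ N ∧ ¬ N ≤ B} with hS
    have hPn : (Phi q N).Normal := ⟨fun w hw g => Phi_nz (Nz.of_normal g N) w hw⟩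
    have hne : S.Nonempty := ⟨Phi q N, hPn, le_rfl, Phi_le, Phi_ne hNq hbot⟩
    obtain ⟨B, hB⟩ := S.toFinite.exists_maximal hne
    have hch : Chief q N B :=
      { hq := hq.out
        nA := hN
        nB := hB.1.1
        le := hB.1.2.2.1
        ne := hB.1.2.2.2
        leO := hNO
        ab := fun a ha b hb => hB.1.2.1 (subset_closure (Or.inl ⟨a, ha, b, hb, rfl⟩))
        pw := fun a ha => hB.1.2.1 (subset_closure (Or.inr ⟨a, ha, rfl⟩))
        mn := by
          intro M hM h1 h2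
          by_cases h3 : N ≤ M
          · exact Or.inr h3
          · exact Or.inl (hB.2 ⟨hM, hB.1.2.1.trans h1, h2, h3⟩ h1) }
    have hBc : Nat.card B ≤ n := by
      have h1 : B < N := lt_of_le_not_ge hB.1.2.2.1 hB.1.2.2.2
      have h2 : Nat.card B < Nat.card N := by
        have := Set.ncard_lt_ncard (show (B : Set H) ⊂ N from h1) (Set.toFinite _)
        exact this
      omega
    have h1 := mem_s1.1 hx q N B hch y hy
    have h2 := ih B hB.1.1 (hB.1.2.2.1.trans hNO) hBc _ h1
    set b := ⁅x, y⁆ with hb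
    have e1 : x * y = b * (y * x) := by rw [hb, commutatorElement_def]; group
    have key : ∀ k : ℕ, x ^ k * y = b ^ k * (y * x ^ k) := by
      intro k
      induction k with
      | zero => simp
      | succ k ihk =>
        have hc : x * b ^ k = b ^ k * x := (Commute.pow_right (show Commute x b from h2) k).eq
        calc x ^ (k + 1) * y = x * (x ^ k * y) := by rw [pow_succ']; group
          _ = x * (b ^ k * (y * x ^ k)) := by rw [ihk]
          _ = (x * b ^ k) * y * x ^ k := by group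
          _ = b ^ k * (x * y) * x ^ k := by rw [hc]; group
          _ = b ^ k * (b * (y * x)) * x ^ k := by rw [e1]
          _ = b ^ (k + 1) * (y * x ^ (k + 1)) := by rw [pow_succ, pow_succ']; group
    have h3 := key (s ^ a)
    rw [ha, one_mul, mul_one] at h3
    have h4 : b ^ s ^ a = 1 := by
      have := h3.symm
      rwa [mul_eq_right] at this
    obtain ⟨c, hc⟩ := hNq ⟨b, hch.le h1⟩
    have h5 : b ^ q ^ c = 1 := congrArg Subtype.val hc
    have hcop : Nat.Coprime (s ^ a) (q ^ c) :=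
      Nat.Coprime.pow _ _ ((Nat.coprime_primes hs hq.out).2 hsq)
    have h6 := Nat.eq_one_of_dvd_coprimes hcop (orderOf_dvd_of_pow_eq_one h4)
      (orderOf_dvd_of_pow_eq_one h5)
    rw [orderOf_eq_one_iff] at h6
    rw [e1, h6, one_mul]

theorem C1' {s q : ℕ} (hs : s.Prime) [hq : Fact q.Prime] (hsq : s ≠ q) {x : H} (hx : x ∈ s1 H)
    {a : ℕ} (ha : x ^ s ^ a = 1) {y : H} (hy : y ∈ Op q (⊤ : Subgroup H)) : x * y = y * x := by
  have hn : (Op q (⊤ : Subgroup H)).Normal := ⟨fun w hw g => Op_nz q (Nz.of_normal g ⊤) w hw⟩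
  exact C1 hs hsq hx ha _ _ hn le_rfl le_rfl y hy

/-- A `t`-element of `s1` commutes with all elements of `F(H)` of order prime to `t`. -/
theorem C1'' {t : ℕ} (ht : t.Prime) {y : H} (hy : y ∈ s1 H) {b : ℕ} (hb : y ^ t ^ b = 1) :
    ∀ n : ℕ, ∀ w ∈ Ft (⊤ : Subgroup H), orderOf w ≤ n → ¬ t ∣ orderOf w → y * w = w * y := by
  intro n
  induction n with
  | zero =>
    intro w _ h0
    have := orderOf_pos w
    omega
  | succ n ih =>
    intro w hw hn ht'
    by_cases h1 : orderOf w = 1
    · rw [orderOf_eq_one_iff] at h1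
      subst h1
      simp
    obtain ⟨q, hq, hqd⟩ := Nat.exists_prime_and_dvd h1
    have : Fact q.Prime := ⟨hq⟩
    have hqt : t ≠ q := fun h => ht' (h ▸ hqd)
    obtain ⟨u, v, e, ⟨c, hc⟩, m, hm, hmd, hvm⟩ := split q w
    have c1 : y * w ^ u = w ^ u * y :=
      C1' ht hqt hy hb (mem_Op_of_mem_Ft (pow_mem hw u) hc)
    have c2 : y * w ^ v = w ^ v * y := by
      have hd : orderOf (w ^ v) ∣ m := orderOf_dvd_of_pow_eq_one hvm
      apply ih _ (pow_mem hw v)
      · have h2 : m ≠ orderOf w := fun h => hm (h ▸ hqd)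
        have h3 : m ≤ orderOf w := Nat.le_of_dvd (orderOf_pos w) hmd
        have h4 : orderOf (w ^ v) ≤ m := Nat.le_of_dvd (by
          rcases Nat.eq_zero_or_pos m with h | h
          · rw [h] at hm; exact absurd (dvd_zero q) hm
          · exact h) hd
        omega
      · exact fun h => ht' (h.trans (hd.trans hmd))
    calc y * w = y * (w ^ u * w ^ v) := by rw [← e]
      _ = (y * w ^ u) * w ^ v := by group
      _ = w ^ u * (y * w ^ v) := by rw [c1]; group
      _ = (w ^ u * w ^ v) * y := by rw [c2]; group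
      _ = w * y := by rw [← e]

/-- If `z ∈ Z(F(H))` and `y`, `z y` are `t`-elements (`y ∈ s1`) then `z` is a `t`-element. -/
theorem C2a {t : ℕ} (ht : t.Prime) {y z : H} (hy : y ∈ s1 H) {b : ℕ} (hb : y ^ t ^ b = 1)
    (hz : z ∈ Ft (⊤ : Subgroup H)) (hzy : (z * y) ^ t ^ b = 1) : ∃ N : ℕ, z ^ t ^ N = 1 := by
  have : Fact t.Prime := ⟨ht⟩
  obtain ⟨u, v, e, ⟨c, hc⟩, m, hm, hmd, hvm⟩ := split t z
  -- `z ^ v` commutes with `y`
  have hcv : y * z ^ v = z ^ v * y := by
    apply C1'' ht hy hb _ _ (pow_mem hz v) le_rfl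
    exact fun h => hm (h.trans (orderOf_dvd_of_pow_eq_one hvm))
  set z1 := z ^ u with hz1
  set z2 := z ^ v with hz2
  have hc12 : z1 * z2 = z2 * z1 := by
    rw [hz1, hz2, ← pow_add, ← pow_add, add_comm]
  -- `z1 * y` is a `t`-element
  have hP : IsPGroup t (Op t (⊤ : Subgroup H) ⊔ zpowers y : Subgroup H) := by
    have hn : (Op t (⊤ : Subgroup H)).Normal :=
      ⟨fun w hw g => Op_nz t (Nz.of_normal g ⊤) w hw⟩
    exact IsPGroup.to_sup_of_normal_left (Op_isP t _) (isPGroup_zpowers hb)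
  have hmem : z1 * y ∈ (Op t (⊤ : Subgroup H) ⊔ zpowers y : Subgroup H) :=
    mul_mem (mem_sup_left (mem_Op_of_mem_Ft (pow_mem hz u) hc)) (mem_sup_right (mem_zpowers y))
  obtain ⟨d, hd⟩ := hP ⟨_, hmem⟩
  have hd' : (z1 * y) ^ t ^ d = 1 := congrArg Subtype.val hd
  have hcomm : Commute z2 (z1 * y) := by
    change z2 * (z1 * y) = z1 * y * z2
    calc z2 * (z1 * y) = (z2 * z1) * y := by group
      _ = z1 * (z2 * y) := by rw [← hc12]; group
      _ = z1 * y * z2 := by rw [← hcv]; group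
  have e2 : z * y = z2 * (z1 * y) := by
    rw [e, hc12]; group
  -- conclude
  have h3 : z2 ^ t ^ (b + d) = 1 := by
    have h4 : (z * y) ^ t ^ (b + d) = 1 := by
      rw [pow_add, pow_mul, hzy, one_pow]
    rw [e2, hcomm.mul_pow] at h4
    have h5 : (z1 * y) ^ t ^ (b + d) = 1 := by
      rw [add_comm, pow_add, pow_mul, hd', one_pow]
    rwa [h5, mul_one] at h4
  have hz20 : z2 = 1 := by
    have hcop : Nat.Coprime m (t ^ (b + d)) :=
      (Nat.Coprime.pow_left _ ((Nat.Prime.coprime_iff_not_dvd ht).2 hm)).symm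
    have := Nat.eq_one_of_dvd_coprimes hcop (orderOf_dvd_of_pow_eq_one hvm)
      (orderOf_dvd_of_pow_eq_one h3)
    exact orderOf_eq_one_iff.1 this
  refine ⟨c, ?_⟩
  rw [e, hz20, mul_one]
  exact hc

theorem C2 (hsol : Group.IsSolvable H) {s t : ℕ} (hs : s.Prime) (ht : t.Prime) (hst : s ≠ t)
    {x y : H} (hx : x ∈ s1 H) (hy : y ∈ s1 H) {a b : ℕ} (ha : x ^ s ^ a = 1)
    (hb : y ^ t ^ b = 1) : x * y = y * x := by
  have hcomF : ∀ w ∈ Ft (⊤ : Subgroup H), ⁅x, y⁆ * w = w * ⁅x, y⁆ := by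
    intro w hw
    have hle : Ft (⊤ : Subgroup H) ≤ centralizer {⁅x, y⁆} := by
      apply iSup₂_le
      intro q hq f hf
      have : Fact q.Prime := ⟨hq⟩
      have hn : (Op q (⊤ : Subgroup H)).Normal :=
        ⟨fun w hw g => Op_nz q (Nz.of_normal g ⊤) w hw⟩
      rw [mem_centralizer_singleton_iff]
      by_cases hqs : s = q
      · -- `y` commutes with `O_q`
        have hty : t ≠ q := fun h => hst (hqs.trans h.symm)
        have cy : ∀ f ∈ Op q (⊤ : Subgroup H), y * f = f * y := fun f hf => C1' ht hty hy hb hf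
        have h1 := cy f hf
        have h2 := cy (x⁻¹ * f * x) (by simpa using hn.conj_mem f hf x⁻¹)
        calc f * ⁅x, y⁆ = x * ((x⁻¹ * f * x) * y) * x⁻¹ * y⁻¹ := by
              rw [commutatorElement_def]; group
          _ = x * (y * (x⁻¹ * f * x)) * x⁻¹ * y⁻¹ := by rw [h2]
          _ = x * y * x⁻¹ * (f * y⁻¹) := by group
          _ = x * y * x⁻¹ * (y⁻¹ * f) := by
              have : f * y⁻¹ = y⁻¹ * f := by
                rw [mul_inv_eq_iff_eq_mul, mul_assoc, ← h1]; group
              rw [this]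
          _ = ⁅x, y⁆ * f := by rw [commutatorElement_def]; group
      · have cx : ∀ f ∈ Op q (⊤ : Subgroup H), x * f = f * x := fun f hf => C1' hs hqs hx ha hf
        have h1 := cx f hf
        have h2 := cx (y⁻¹ * f * y) (by simpa using hn.conj_mem f hf y⁻¹)
        have h3 : x⁻¹ * (y⁻¹ * f * y) = (y⁻¹ * f * y) * x⁻¹ := by
          rw [inv_mul_eq_iff_eq_mul, ← mul_assoc, h2]; group
        calc f * ⁅x, y⁆ = (f * x) * y * x⁻¹ * y⁻¹ := by
              rw [commutatorElement_def]; group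
          _ = x * y * ((y⁻¹ * f * y) * x⁻¹) * y⁻¹ := by rw [← h1]; group
          _ = x * y * (x⁻¹ * (y⁻¹ * f * y)) * y⁻¹ := by rw [h3]
          _ = ⁅x, y⁆ * f := by rw [commutatorElement_def]; group
    exact (mem_centralizer_singleton_iff.1 (hle hw)).symm
  have hsolT : Group.IsSolvable (⊤ : Subgroup H) := inferInstance
  have hzF : ⁅x, y⁆ ∈ Ft (⊤ : Subgroup H) := cent_Ft hsolT (mem_top _) hcomF
  obtain ⟨N1, h1⟩ := C2a ht (z := ⁅x, y⁆) hy hb hzF (by
    have : ⁅x, y⁆ * y = x * y * x⁻¹ := by rw [commutatorElement_def]; group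
    rw [this, conj_pow, hb, mul_one, mul_inv_cancel])
  obtain ⟨N2, h2⟩ := C2a hs (z := ⁅y, x⁆) hx ha (by
      rw [← commutatorElement_inv]; exact inv_mem hzF) (by
    have : ⁅y, x⁆ * x = y * x * y⁻¹ := by rw [commutatorElement_def]; group
    rw [this, conj_pow, ha, mul_one, mul_inv_cancel])
  have h3 : ⁅x, y⁆ ^ s ^ N2 = 1 := by
    rw [← commutatorElement_inv, inv_pow, h2, inv_one]
  have hcop : Nat.Coprime (s ^ N2) (t ^ N1) :=
    Nat.Coprime.pow _ _ ((Nat.coprime_primes hs ht).2 hst)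
  have h6 := Nat.eq_one_of_dvd_coprimes hcop (orderOf_dvd_of_pow_eq_one h3)
      (orderOf_dvd_of_pow_eq_one h1)
  rw [orderOf_eq_one_iff] at h6
  exact commutatorElement_eq_one_iff_mul_comm.1 h6

/-- the second term -/
noncomputable def s2 (H : Type) [Group H] [Finite H] : Subgroup H :=
  ⨅ (q : ℕ) (A : Subgroup H) (B : Subgroup H) (h : Chief q A B),
    have := cf_normal (hA := h.nA) (hB := h.nB)
    (Ft (⊤ : Subgroup (H ⧸ cf A B h.nA h.nB))).comap (QuotientGroup.mk' (cf A B h.nA h.nB))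

/-- The family of subgroups. -/
noncomputable def fam (q : ℕ) (A B : Subgroup H) (h : Chief q A B) : Subgroup H :=
  have := cf_normal (hA := h.nA) (hB := h.nB)
  (Ft (⊤ : Subgroup (H ⧸ cf A B h.nA h.nB))).comap (QuotientGroup.mk' (cf A B h.nA h.nB))

theorem s2_eq : s2 H = ⨅ (q : ℕ) (A : Subgroup H) (B : Subgroup H) (h : Chief q A B),
    fam q A B h := rfl

theorem fam_normal {q : ℕ} {A B : Subgroup H} (h : Chief q A B) : (fam q A B h).Normal := by
  have := cf_normal (hA := h.nA) (hB := h.nB)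
  have : (Ft (⊤ : Subgroup (H ⧸ cf A B h.nA h.nB))).Normal := Ft_normal _
  exact this.comap _

theorem cf_le_fam {q : ℕ} {A B : Subgroup H} (h : Chief q A B) :
    cf A B h.nA h.nB ≤ fam q A B h := by
  have := cf_normal (hA := h.nA) (hB := h.nB)
  intro x hx
  change QuotientGroup.mk' (cf A B h.nA h.nB) x ∈ Ft (⊤ : Subgroup (H ⧸ cf A B h.nA h.nB))
  have : QuotientGroup.mk' (cf A B h.nA h.nB) x = 1 := (QuotientGroup.eq_one_iff x).2 hx
  rw [this]
  exact one_mem _

theorem s2_comm {s t : ℕ} (hs : s.Prime) (ht : t.Prime) (hst : s ≠ t) {x y : H}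
    (hx : x ∈ s2 H) (hy : y ∈ s2 H) {a b : ℕ} (ha : x ^ s ^ a = 1) (hb : y ^ t ^ b = 1) :
    ⁅x, y⁆ ∈ s1 H := by
  have : Fact s.Prime := ⟨hs⟩
  have : Fact t.Prime := ⟨ht⟩
  rw [s2_eq] at hx hy
  simp only [mem_iInf] at hx hy
  simp only [s1, mem_iInf]
  intro q A B h
  have := cf_normal (hA := h.nA) (hB := h.nB)
  have h1 : QuotientGroup.mk' (cf A B h.nA h.nB) x ∈ Ft ⊤ := hx q A B h
  have h2 : QuotientGroup.mk' (cf A B h.nA h.nB) y ∈ Ft ⊤ := hy q A B h
  have h3 := mem_Op_of_mem_Ft (t := s) (n := a) h1 (by rw [← map_pow, ha, map_one])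
  have h4 := mem_Op_of_mem_Ft (t := t) (n := b) h2 (by rw [← map_pow, hb, map_one])
  have h5 := Op_comm hst h3 h4
  have h6 := commutatorElement_eq_one_iff_mul_comm.2 h5
  rw [← map_commutatorElement] at h6
  exact (QuotientGroup.eq_one_iff _).1 h6

/-! ### The index bound -/

theorem derived_card {X : Type} [Group X] [Finite X] (hX : Group.IsSolvable X) (j : ℕ) :
    derivedSeries X j = ⊥ ∨ Nat.card (derivedSeries X j) + j ≤ Nat.card X := by
  induction j with
  | zero => right; simp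
  | succ j ih =>
    by_cases h : derivedSeries X (j + 1) = ⊥
    · exact Or.inl h
    right
    have hj : derivedSeries X j ≠ ⊥ := by
      intro h0
      apply h
      rw [derivedSeries_succ, h0, commutator_bot_left]
    rcases ih with h1 | h1
    · exact absurd h1 hj
    have h2 : derivedSeries X (j + 1) < derivedSeries X j := by
      rw [derivedSeries_succ]
      exact Group.IsSolvable.commutator_lt_of_ne_bot hj
    have h3 : Nat.card (derivedSeries X (j + 1)) < Nat.card (derivedSeries X j) :=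
      Set.ncard_lt_ncard (show ((derivedSeries X (j + 1) : Subgroup X) : Set X) ⊂
        (derivedSeries X j : Subgroup X) from h2) (Set.toFinite _)
    omega

theorem derived_le {N : Subgroup H} [hN : N.Normal] (hH : Group.IsSolvable H) {β : ℕ}
    (hβ : N.index ≤ β) : derivedSeries H β ≤ N := by
  have hX : Group.IsSolvable (H ⧸ N) := inferInstance
  have h1 : derivedSeries (H ⧸ N) β = ⊥ := by
    rcases derived_card hX β with h | h
    · exact h
    · have h2 : 0 < Nat.card (derivedSeries (H ⧸ N) β) := Nat.card_pos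
      have h3 : Nat.card (H ⧸ N) = N.index := rfl
      omega
  have h2 := map_derivedSeries_le_derivedSeries (QuotientGroup.mk' N) β
  rw [h1] at h2
  intro x hx
  have h3 : QuotientGroup.mk' N x ∈ (derivedSeries H β).map (QuotientGroup.mk' N) := ⟨x, hx, rfl⟩
  have h4 := h2 h3
  rw [mem_bot] at h4
  exact (QuotientGroup.eq_one_iff _).1 h4

theorem gen_bound {T K : Subgroup H} [hT : T.Normal] {r e : ℕ} (he : 0 < e)
    (hK : ∃ S : Finset H, S.card ≤ r ∧ closure (S : Set H) = K)
    (hc : ∀ x ∈ K, ∀ y ∈ K, ⁅x, y⁆ ∈ T) (hp : ∀ x ∈ K, x ^ e ∈ T) : T.relIndex K ≤ e ^ r := by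
  classical
  have h1 : T.relIndex K = Nat.card (K.map (QuotientGroup.mk' T)) := by
    rw [← relIndex_ker, QuotientGroup.ker_mk']
  rw [h1]
  let _ : CommGroup (K.map (QuotientGroup.mk' T)) :=
    { (inferInstance : Group (K.map (QuotientGroup.mk' T))) with
      mul_comm := by
        rintro ⟨_, x, hx, rfl⟩ ⟨_, y, hy, rfl⟩
        apply Subtype.ext
        change QuotientGroup.mk' T x * QuotientGroup.mk' T y =
          QuotientGroup.mk' T y * QuotientGroup.mk' T x
        rw [← commutatorElement_eq_one_iff_mul_comm, ← map_commutatorElement]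
        exact (QuotientGroup.eq_one_iff _).2 (hc x hx y hy) }
  have h2 := card_dvd_exponent_pow_rank' (K.map (QuotientGroup.mk' T)) (n := e) (by
    rintro ⟨_, x, hx, rfl⟩
    apply Subtype.ext
    change (QuotientGroup.mk' T x) ^ e = 1
    rw [← map_pow]
    exact (QuotientGroup.eq_one_iff _).2 (hp x hx))
  have h3 : Group.rank (K.map (QuotientGroup.mk' T)) ≤ r := by
    obtain ⟨S, hS, hSK⟩ := hK
    have h4 : K.map (QuotientGroup.mk' T) =
        closure ((S.image (QuotientGroup.mk' T) : Finset (H ⧸ T)) : Set (H ⧸ T)) := by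
      rw [← hSK, MonoidHom.map_closure, Finset.coe_image]
    have h5 : Group.rank (closure ((S.image (QuotientGroup.mk' T) : Finset (H ⧸ T)) :
        Set (H ⧸ T))) ≤ r :=
      (rank_closure_finset_le_card _).trans (Finset.card_image_le.trans hS)
    calc Group.rank (K.map (QuotientGroup.mk' T)) = Group.rank (closure
          ((S.image (QuotientGroup.mk' T) : Finset (H ⧸ T)) : Set (H ⧸ T))) := by
          exact Group.rank_congr (MulEquiv.subgroupCongr h4)
      _ ≤ r := h5
  calc Nat.card (K.map (QuotientGroup.mk' T)) ≤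
        e ^ Group.rank (K.map (QuotientGroup.mk' T)) := Nat.le_of_dvd (by positivity) h2
    _ ≤ e ^ r := Nat.pow_le_pow_right he h3

theorem index_bound (hH : Group.IsSolvable H) {r β : ℕ} {M : Subgroup H} (hM : M.Normal)
    (hr : ∀ K : Subgroup H, ∃ S : Finset H, S.card ≤ r ∧ closure (S : Set H) = K)
    (h1 : derivedSeries H β ≤ M) (h2 : ∀ x, x ^ β.factorial ∈ M) :
    M.index ≤ (β.factorial ^ r) ^ β := by
  have key : ∀ j : ℕ, (derivedSeries H j ⊔ M).index ≤ (β.factorial ^ r) ^ j := by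
    intro j
    induction j with
    | zero => simp
    | succ j ih =>
      have hle : derivedSeries H (j + 1) ⊔ M ≤ derivedSeries H j ⊔ M :=
        sup_le_sup_right (derivedSeries_antitone H (Nat.le_succ j)) M
      rw [← relIndex_mul_index hle]
      have hgen := gen_bound (T := derivedSeries H (j + 1) ⊔ M) (K := derivedSeries H j ⊔ M)
        (Nat.factorial_pos β) (hr _) (by
          intro x hx y hy
          obtain ⟨d, hd, m, hm, rfl⟩ := (Subgroup.mem_sup_of_normal_left).1 hx
          obtain ⟨d', hd', m', hm', rfl⟩ := (Subgroup.mem_sup_of_normal_left).1 hy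
          set T := derivedSeries H (j + 1) ⊔ M with hT
          have e1 : ∀ m ∈ M, QuotientGroup.mk' T m = 1 := fun m hm =>
            (QuotientGroup.eq_one_iff _).2 (mem_sup_right hm)
          have e2 : ⁅d, d'⁆ ∈ T := by
            apply mem_sup_left
            rw [derivedSeries_succ]
            exact commutator_mem_commutator hd hd'
          rw [← QuotientGroup.eq_one_iff]
          change QuotientGroup.mk' T ⁅d * m, d' * m'⁆ = 1
          rw [map_commutatorElement, map_mul, map_mul, e1 m hm, e1 m' hm', mul_one, mul_one,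
            ← map_commutatorElement]
          exact (QuotientGroup.eq_one_iff _).2 e2)
        (fun x _ => mem_sup_right (h2 x))
      calc (derivedSeries H (j + 1) ⊔ M).relIndex (derivedSeries H j ⊔ M) *
            (derivedSeries H j ⊔ M).index
          ≤ β.factorial ^ r * (β.factorial ^ r) ^ j := Nat.mul_le_mul hgen ih
        _ = (β.factorial ^ r) ^ (j + 1) := by rw [pow_succ]; ring
  have h3 := key β
  rwa [sup_eq_right.2 h1] at h3

theorem s2_index (hH : Group.IsSolvable H) {r β : ℕ}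
    (hr : ∀ K : Subgroup H, ∃ S : Finset H, S.card ≤ r ∧ closure (S : Set H) = K)
    (hβ : ∀ q A B (h : Chief (H := H) q A B), (fam q A B h).index ≤ β) :
    (s2 H).Normal ∧ (s2 H).index ≤ (β.factorial ^ r) ^ β := by
  have hn : (s2 H).Normal := by
    rw [s2_eq]
    constructor
    intro x hx g
    simp only [mem_iInf] at hx ⊢
    intro q A B h
    exact (fam_normal h).conj_mem x (hx q A B h) g
  refine ⟨hn, index_bound hH hn hr ?_ ?_⟩
  · rw [s2_eq]
    simp only [le_iInf_iff]
    intro q A B h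
    have := fam_normal h
    exact derived_le hH (hβ q A B h)
  · intro x
    rw [s2_eq]
    simp only [mem_iInf]
    intro q A B h
    have := fam_normal h
    have h1 : x ^ (fam q A B h).index ∈ fam q A B h := pow_index_mem _ x
    have h2 : (fam q A B h).index ∣ β.factorial :=
      Nat.dvd_factorial (Nat.pos_of_ne_zero index_ne_zero_of_finite) (hβ q A B h)
    obtain ⟨c, hc⟩ := h2
    rw [hc, pow_mul]
    exact pow_mem h1 c

theorem fam_index (hQ : Stmt_QMOD) (hH : Group.IsSolvable H) {r β : ℕ}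
    (hβ : ∀ (q : ℕ) [Fact q.Prime] (X V : Type) [Group X]
      [Finite X] [AddCommGroup V] [Module (ZMod q) V] [Finite V]
      (ρ : Representation (ZMod q) X V),
      Group.IsSolvable X → Module.finrank (ZMod q) V ≤ r →
      (∀ K : Subgroup X, ∃ S : Finset X, S.card ≤ r ∧ closure (S : Set X) = K) →
      (∀ x, (∀ v, ρ x v = v) → x = 1) → Irr ρ (Set.univ) ⊤ →
      (Ft (⊤ : Subgroup X)).index ≤ β)
    (hr : ∀ K : Subgroup H, ∃ S : Finset H, S.card ≤ r ∧ closure (S : Set H) = K)
    {q : ℕ} {A B : Subgroup H} (h : Chief q A B) : (fam q A B h).index ≤ β := by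
  classical
  have : Fact q.Prime := ⟨h.hq⟩
  have hAn := h.nA
  have hBn := h.nB
  have hCn := cf_normal (hA := h.nA) (hB := h.nB)
  obtain ⟨V, _, _, _, ρ, f, hf1, hf2, hf3, hf4⟩ := hQ H q A B h.le h.ab h.pw
  set C := cf A B h.nA h.nB with hC
  have hinvf : ∀ x : A, f x⁻¹ = - f x := by
    intro x
    have h1 := hf2 x⁻¹ x
    have h2 : f (x⁻¹ * x) = 0 := by
      rw [inv_mul_cancel]
      exact (hf3 1).2 (one_mem _)
    rw [h2] at h1
    exact eq_neg_of_add_eq_zero_left h1.symm
  have hconj : ∀ (g : H) (x : A), ρ g (f x) = f ⟨g * x * g⁻¹, hAn.conj_mem x x.2 g⟩ :=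
    fun g x => (hf4 g x ⟨g * x * g⁻¹, hAn.conj_mem x x.2 g⟩ rfl).symm
  have hcomm : ∀ (g : H) (x : A), ρ g (f x) = f x ↔ ⁅g, (x : H)⁆ ∈ B := by
    intro g x
    have hmem : ⁅g, (x : H)⁆ ∈ A := by
      rw [commutatorElement_def]
      exact mul_mem (hAn.conj_mem x x.2 g) (inv_mem x.2)
    have e1 : f ⟨g * x * g⁻¹, hAn.conj_mem x x.2 g⟩ = f ⟨⁅g, (x : H)⁆, hmem⟩ + f x := by
      rw [← hf2]
      congr 1
      apply Subtype.ext
      change g * x * g⁻¹ = ⁅g, (x : H)⁆ * x
      rw [commutatorElement_def]; group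
    rw [hconj, e1]
    constructor
    · intro h1
      have h2 : f ⟨⁅g, (x : H)⁆, hmem⟩ = 0 := by
        have := h1
        rwa [add_eq_right] at this
      exact (hf3 _).1 h2
    · intro h1
      rw [(hf3 ⟨⁅g, (x : H)⁆, hmem⟩).2 h1, zero_add]
  have hker : ∀ g : H, (∀ v, ρ g v = v) ↔ g ∈ C := by
    intro g
    rw [hC, mem_cf]
    constructor
    · intro h1 a ha
      exact (hcomm g ⟨a, ha⟩).1 (h1 _)
    · intro h1 v
      obtain ⟨x, rfl⟩ := hf1 v
      exact (hcomm g x).2 (h1 x x.2)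
  let ρ' : Representation (ZMod q) (H ⧸ C) V := QuotientGroup.lift C ρ (by
    intro g hg
    rw [MonoidHom.mem_ker]
    ext v
    exact (hker g).2 hg v)
  have hρ' : ∀ (g : H) v, ρ' (QuotientGroup.mk' C g) v = ρ g v := fun g v => rfl
  have hsurj := QuotientGroup.mk'_surjective C
  have hfam : (fam q A B h).index = (Ft (⊤ : Subgroup (H ⧸ C))).index :=
    index_comap_of_surjective _ hsurj
  rw [hfam]
  apply hβ q (H ⧸ C) V ρ'
  · infer_instance
  · -- dimension
    obtain ⟨S, hS, hSA⟩ := hr A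
    let g : H → V := fun x => if hx : x ∈ A then f ⟨x, hx⟩ else 0
    have hg : ∀ x : A, g x = f x := fun x => by simp [g]
    have hspan : Submodule.span (ZMod q) ((S.image g : Finset V) : Set V) = ⊤ := by
      rw [eq_top_iff]
      intro v _
      obtain ⟨x, rfl⟩ := hf1 v
      have hx : (x : H) ∈ closure (S : Set H) := by rw [hSA]; exact x.2
      have key : ∀ y : H, y ∈ closure (S : Set H) → g y ∈
          Submodule.span (ZMod q) ((S.image g : Finset V) : Set V) := by
        intro y hy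
        induction hy using closure_induction with
        | mem y hy =>
          apply Submodule.subset_span
          simp only [Finset.coe_image, Set.mem_image]
          exact ⟨y, hy, rfl⟩
        | one =>
          have : g 1 = 0 := by
            have := hg 1
            rw [Subgroup.coe_one] at this
            rw [this]
            exact (hf3 1).2 (one_mem _)
          rw [this]
          exact Submodule.zero_mem _
        | mul y z hy hz ihy ihz =>
          rw [hSA] at hy hz
          have e1 : g (y * z) = g y + g z := by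
            have h1 := hg ⟨y, hy⟩
            have h2 := hg ⟨z, hz⟩
            have h3 := hg (⟨y, hy⟩ * ⟨z, hz⟩)
            rw [hf2] at h3
            change g (y * z) = _ at h3
            rw [h3, ← h1, ← h2]
          rw [e1]
          exact Submodule.add_mem _ ihy ihz
        | inv y hy ihy =>
          rw [hSA] at hy
          have e1 : g y⁻¹ = - g y := by
            have h1 := hg ⟨y, hy⟩
            have h3 := hg (⟨y, hy⟩⁻¹)
            rw [hinvf] at h3
            change g y⁻¹ = _ at h3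
            rw [h3, ← h1]
          rw [e1]
          exact Submodule.neg_mem _ ihy
      have := key x hx
      rwa [hg] at this
    have h1 := finrank_span_finset_le_card (R := ZMod q) (S.image g)
    rw [Set.finrank, hspan, finrank_top] at h1
    exact h1.trans (Finset.card_image_le.trans hS)
  · intro K
    obtain ⟨S, hS, hSK⟩ := hr (K.comap (QuotientGroup.mk' C))
    refine ⟨S.image (QuotientGroup.mk' C), Finset.card_image_le.trans hS, ?_⟩
    rw [Finset.coe_image, ← MonoidHom.map_closure, hSK, map_comap_eq_self_of_surjective hsurj]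
  · intro x hx
    obtain ⟨g, rfl⟩ := hsurj x
    exact (QuotientGroup.eq_one_iff g).2 ((hker g).1 hx)
  · refine ⟨?_, fun g _ _ _ => Submodule.mem_top, ?_⟩
    · intro h0
      apply h.ne
      intro a ha
      have h1 : f ⟨a, ha⟩ ∈ (⊤ : Submodule (ZMod q) V) := Submodule.mem_top
      rw [h0, Submodule.mem_bot] at h1
      exact (hf3 _).1 h1
    · intro U _ hU hUinv
      -- the preimage
      let N : Subgroup H :=
        { carrier := {x | ∃ hx : x ∈ A, f ⟨x, hx⟩ ∈ U}
          one_mem' := ⟨one_mem _, by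
            have : f ⟨1, one_mem A⟩ = 0 := (hf3 1).2 (one_mem _)
            rw [this]; exact U.zero_mem⟩
          mul_mem' := by
            rintro x y ⟨hx, hx'⟩ ⟨hy, hy'⟩
            refine ⟨mul_mem hx hy, ?_⟩
            have : f ⟨x * y, mul_mem hx hy⟩ = f ⟨x, hx⟩ + f ⟨y, hy⟩ := hf2 ⟨x, hx⟩ ⟨y, hy⟩
            rw [this]; exact U.add_mem hx' hy'
          inv_mem' := by
            rintro x ⟨hx, hx'⟩
            refine ⟨inv_mem hx, ?_⟩
            have : f ⟨x⁻¹, inv_mem hx⟩ = - f ⟨x, hx⟩ := hinvf ⟨x, hx⟩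
            rw [this]; exact U.neg_mem hx' }
      have hN : N.Normal := by
        constructor
        rintro x ⟨hx, hx'⟩ g
        refine ⟨hAn.conj_mem x hx g, ?_⟩
        have h1 := hconj g ⟨x, hx⟩
        rw [← h1]
        exact hUinv (QuotientGroup.mk' C g) (Set.mem_univ _) _ hx'
      have hBN : B ≤ N := by
        intro x hx
        refine ⟨h.le hx, ?_⟩
        rw [(hf3 ⟨x, h.le hx⟩).2 hx]
        exact U.zero_mem
      have hNA : N ≤ A := fun x hx => hx.1
      rcases h.mn N hN hBN hNA with h1 | h1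
      · exfalso
        apply hU
        rw [Submodule.eq_bot_iff]
        intro u hu
        obtain ⟨x, rfl⟩ := hf1 u
        exact (hf3 x).2 (h1 ⟨x.2, hu⟩)
      · rw [eq_top_iff]
        intro u _
        obtain ⟨x, rfl⟩ := hf1 u
        obtain ⟨_, h2⟩ := h1 x.2
        exact h2

end Grp

end S1

/-- Block S1. -/
theorem stmt_S1 (hS1a : Stmt_S1a) (hQ : Stmt_QMOD) : Stmt_S1 := by
  intro r
  obtain ⟨β, hβ⟩ := hS1a r
  refine ⟨(β.factorial ^ r) ^ β, ?_⟩
  intro H _ _ hH hr
  obtain ⟨h1, h2⟩ := S1.s2_index hH hr (fun q A B h => S1.fam_index hQ hH hβ hr h)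
  have hn1 : (S1.s1 H).Normal := by
    constructor
    intro x hx g
    simp only [S1.s1, mem_iInf] at hx ⊢
    intro q A B h
    exact (S1.cf_normal (hA := h.nA) (hB := h.nB)).conj_mem x (hx q A B h) g
  have hle : S1.s1 H ≤ S1.s2 H := by
    intro x hx
    simp only [S1.s1, mem_iInf] at hx
    rw [S1.s2_eq]
    simp only [mem_iInf]
    exact fun q A B h => S1.cf_le_fam h (hx q A B h)
  refine ⟨fun i => match i with
    | 0 => ⊥
    | 1 => S1.s1 H
    | _ + 2 => S1.s2 H, rfl, ?_, ?_, ?_, h2⟩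
  · intro i
    match i with
    | 0 => exact (inferInstance : (⊥ : Subgroup H).Normal)
    | 1 => exact hn1
    | _ + 2 => exact h1
  · intro i
    match i with
    | 0 => exact bot_le
    | 1 => exact hle
    | _ + 2 => exact le_rfl
  · intro i hi a b ha hb hab x hx y hy hxa hyb
    obtain ⟨n, hn⟩ := hxa
    obtain ⟨m, hm⟩ := hyb
    match i, hi with
    | 0, _ =>
      change ⁅x, y⁆ ∈ (⊥ : Subgroup H)
      rw [mem_bot, commutatorElement_eq_one_iff_mul_comm]
      exact S1.C2 hH ha hb hab hx hy hn hm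
    | 1, _ => exact S1.s2_comm ha hb hab hx hy hn hm

end Pool.FH
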