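import Pool.Agent.Work.MP_4c212b_al.Interface

/-!
# Block S1a: `|X : F(X)|` is bounded for irreducible soluble linear groups of bounded degree
-/

set_option autoImplicit false

open Subgroup
open scoped commutatorElement TensorProduct

namespace Pool.FH

namespace S1a

section Grp

variable {X : Type} [Group X] [Finite X]

theorem exists_max_abelian (X : Type) [Group X] [Finite X] : ∃ A : Subgroup X, A.Normal ∧
    (∀ a ∈ A, ∀ b ∈ A, a * b = b * a) ∧
    ∀ B : Subgroup X, B.Normal → (∀ a ∈ B, ∀ b ∈ B, a * b = b * a) → A ≤ B → B ≤ A := by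
  set S : Set (Subgroup X) := {A | A.Normal ∧ ∀ a ∈ A, ∀ b ∈ A, a * b = b * a} with hS
  have hne : S.Nonempty := ⟨⊥, inferInstance, by simp⟩
  obtain ⟨A, hA⟩ := S.toFinite.exists_maximal hne
  exact ⟨A, hA.1.1, hA.1.2, fun B h1 h2 h3 => hA.2 ⟨h1, h2⟩ h3⟩

/-- The centraliser modulo `A`. -/
def cmod (A : Subgroup X) [A.Normal] (b : X) : Subgroup X :=
  (centralizer {QuotientGroup.mk' A b}).comap (QuotientGroup.mk' A)

theorem mem_cmod {A : Subgroup X} [A.Normal] {b x : X} : x ∈ cmod A b ↔ ⁅x, b⁆ ∈ A := by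
  have h : ⁅x, b⁆ ∈ A ↔ QuotientGroup.mk' A ⁅x, b⁆ = 1 := by
    rw [← MonoidHom.mem_ker, QuotientGroup.ker_mk']
  rw [h, map_commutatorElement, commutatorElement_eq_one_iff_mul_comm, cmod, mem_comap,
    mem_centralizer_singleton_iff]

variable {A : Subgroup X} [hAn : A.Normal] (hab : ∀ a ∈ A, ∀ b ∈ A, a * b = b * a)
  (hmax : ∀ B : Subgroup X, B.Normal → (∀ a ∈ B, ∀ b ∈ B, a * b = b * a) → A ≤ B → B ≤ A)

instance cent_normal : (centralizer (A : Set X)).Normal := by
  constructor
  intro x hx g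
  rw [mem_centralizer_iff] at hx ⊢
  intro a ha
  have h1 := hx (g⁻¹ * a * g) (by simpa using hAn.conj_mem a ha g⁻¹)
  have h2 : g * ((g⁻¹ * a * g) * x) * g⁻¹ = g * (x * (g⁻¹ * a * g)) * g⁻¹ := by rw [h1]
  calc a * (g * x * g⁻¹) = g * ((g⁻¹ * a * g) * x) * g⁻¹ := by group
    _ = g * (x * (g⁻¹ * a * g)) * g⁻¹ := h2
    _ = g * x * g⁻¹ * a := by group

include hab hmax in
theorem le_of_abelian {D : Subgroup X} (hD : D.Normal) (h1 : D ≤ centralizer (A : Set X))
    (h2 : ∀ a ∈ D, ∀ b ∈ D, a * b = b * a) : D ≤ A := by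
  refine le_sup_right.trans (hmax (A ⊔ D) inferInstance ?_ le_sup_left)
  intro x hx y hy
  obtain ⟨a, ha, d, hd, rfl⟩ := (Subgroup.mem_sup_of_normal_left).1 hx
  obtain ⟨a', ha', d', hd', rfl⟩ := (Subgroup.mem_sup_of_normal_left).1 hy
  have e1 := hab a ha a' ha'
  have e2 := h2 d hd d' hd'
  have e3 : a' * d = d * a' := (mem_centralizer_iff.1 (h1 hd)) a' ha'
  have e4 : a * d' = d' * a := (mem_centralizer_iff.1 (h1 hd')) a ha
  calc a * d * (a' * d') = a * (d * a') * d' := by group
    _ = a * (a' * d) * d' := by rw [e3]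
    _ = (a * a') * (d * d') := by group
    _ = (a' * a) * (d' * d) := by rw [e1, e2]
    _ = a' * (a * d') * d := by group
    _ = a' * (d' * a) * d := by rw [e4]
    _ = a' * d' * (a * d) := by group

theorem le_cent : A ≤ centralizer (A : Set X) ↔ ∀ a ∈ A, ∀ b ∈ A, a * b = b * a := by
  constructor
  · intro h a ha b hb
    exact (mem_centralizer_iff.1 (h hb)) a ha
  · intro h a ha
    rw [mem_centralizer_iff]
    exact fun b hb => h b hb a ha

include hab in
theorem A_le_F0 : A ≤ Ft (centralizer (A : Set X)) := by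
  apply le_Ft_of_comm (le_cent.2 hab) (fun g _ => Nz.of_normal g A)
  intro s t _ _ _ x hx y hy _ _
  exact hab x hx y hy

include hab hmax in
theorem op_comm_mem {r : ℕ} [Fact r.Prime] :
    ∀ a ∈ Op r (centralizer (A : Set X)), ∀ b ∈ Op r (centralizer (A : Set X)), ⁅a, b⁆ ∈ A := by
  set P := Op r (centralizer (A : Set X)) with hP
  have hPn : ∀ g : X, Nz g P := fun g => Op_nz r (Nz.of_normal g _)
  have hcl := class_two (t := r) (Y := P) (N0 := ⊥) (Op_isP r _) bot_le
    (fun g _ => Nz.of_normal g ⊥) (A := Set.univ) (fun g _ => ⟨hPn g, Nz.of_normal g ⊥⟩) (by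
      intro X1 _ h2 h3 _ h5 a ha b hb
      have hn : X1.Normal := ⟨fun x hx g => h3 g (Set.mem_univ g) x hx⟩
      have hX1A : X1 ≤ A := le_of_abelian hab hmax hn (h2.trans (Op_le r _)) (by
        intro a ha b hb
        have := h5 a ha b hb
        rwa [mem_bot, commutatorElement_eq_one_iff_mul_comm] at this)
      have hb' := mem_centralizer_iff.1 (Op_le r _ hb) a (hX1A ha)
      rw [mem_bot, commutatorElement_eq_one_iff_mul_comm]
      exact hb')
  have hPP : P.Normal := ⟨fun x hx g => hPn g x hx⟩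
  have hD : ⁅P, P⁆ ≤ A := by
    apply le_of_abelian hab hmax inferInstance
    · exact (Subgroup.commutator_le_left P P).trans (Op_le r _)
    · intro x hx y hy
      have key : ∀ c ∈ P, ∀ z ∈ ⁅P, P⁆, z * c = c * z := by
        intro c hc z hz
        have hle : ⁅P, P⁆ ≤ centralizer {c} := by
          rw [Subgroup.commutator_le]
          intro a ha b hb
          have := hcl a ha b hb c hc
          rw [mem_bot, commutatorElement_eq_one_iff_mul_comm] at this
          rw [mem_centralizer_singleton_iff]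
          exact this
        exact mem_centralizer_singleton_iff.1 (hle hz)
      exact key y (Subgroup.commutator_le_left P P hy) x hx
  intro a ha b hb
  exact hD (Subgroup.commutator_mem_commutator ha hb)

include hab hmax in
theorem F0_comm_mem :
    ∀ a ∈ Ft (centralizer (A : Set X)), ∀ b ∈ Ft (centralizer (A : Set X)), ⁅a, b⁆ ∈ A := by
  have h1 : ∀ s : ℕ, s.Prime → ∀ b ∈ Op s (centralizer (A : Set X)),
      ∀ a ∈ Ft (centralizer (A : Set X)), ⁅a, b⁆ ∈ A := by
    intro s hs b hb a ha
    have : Fact s.Prime := ⟨hs⟩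
    have hle : Ft (centralizer (A : Set X)) ≤ cmod A b := by
      apply iSup₂_le
      intro r hr x hx
      have : Fact r.Prime := ⟨hr⟩
      rw [mem_cmod]
      by_cases hrs : r = s
      · subst hrs
        exact op_comm_mem hab hmax x hx b hb
      · rw [commutatorElement_eq_one_iff_mul_comm.2 (Op_comm hrs hx hb)]
        exact A.one_mem
    exact mem_cmod.1 (hle ha)
  intro a ha b hb
  have hle : Ft (centralizer (A : Set X)) ≤ cmod A a := by
    apply iSup₂_le
    intro r hr x hx
    rw [mem_cmod, ← inv_mem_iff, commutatorElement_inv]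
    exact h1 r hr x hx a ha
  have := mem_cmod.1 (hle hb)
  rwa [← inv_mem_iff, commutatorElement_inv] at this

include hab hmax in
/-- the centre of `F0` is `A` -/
theorem center_F0 {x : X} (hx : x ∈ Ft (centralizer (A : Set X)))
    (h : ∀ y ∈ Ft (centralizer (A : Set X)), x * y = y * x) : x ∈ A := by
  set F0 := Ft (centralizer (A : Set X)) with hF0
  have hn : F0.Normal := Ft_normal _
  have hn2 : (centralizer (F0 : Set X)).Normal := cent_normal
  refine le_of_abelian hab hmax (D := F0 ⊓ centralizer (F0 : Set X)) inferInstance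
    (inf_le_left.trans (Ft_le _)) ?_ ⟨hx, ?_⟩
  · intro a ha b hb
    exact (mem_centralizer_iff.1 hb.2) a ha.1
  · exact mem_centralizer_iff.2 (fun y hy => (h y hy).symm)

/-- The kernel of the action on `F0 / A`. -/
theorem exists_ker (F0 : Subgroup X) [F0.Normal] (N : ℕ) (hN : A.relIndex F0 ≤ N) :
    ∃ C : Subgroup X, C.Normal ∧ (∀ x ∈ C, ∀ y ∈ F0, ⁅x, y⁆ ∈ A) ∧ C.index ≤ N.factorial := by
  set π := QuotientGroup.mk' A with hπ
  have hFn : (F0.map π).Normal := Subgroup.Normal.map inferInstance π (QuotientGroup.mk'_surjective A)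
  let f : X →* MulAut (F0.map π) := (MulAut.conjNormal (H := F0.map π)).comp π
  refine ⟨f.ker, inferInstance, ?_, ?_⟩
  · intro x hx y hy
    rw [MonoidHom.mem_ker] at hx
    have h1 := congrArg (fun e : MulAut (F0.map π) => ((e ⟨π y, ⟨y, hy, rfl⟩⟩ : F0.map π) : X ⧸ A)) hx
    have h2 : π x * π y * (π x)⁻¹ = π y := by simpa [f] using h1
    have h3 : ⁅x, y⁆ ∈ π.ker := by
      rw [MonoidHom.mem_ker, map_commutatorElement, commutatorElement_def, h2, mul_inv_cancel]
    rwa [hπ, QuotientGroup.ker_mk'] at h3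
  · rw [index_ker]
    have hcard : Nat.card (F0.map π) ≤ N := by
      rw [← relIndex_ker, hπ, QuotientGroup.ker_mk']
      exact hN
    calc Nat.card f.range ≤ Nat.card (MulAut (F0.map π)) := Subgroup.card_le_card_group _
      _ ≤ Nat.card (Equiv.Perm (F0.map π)) :=
        Nat.card_le_card_of_injective (fun e : MulAut (F0.map π) => e.toEquiv)
          (fun a b h => MulEquiv.toEquiv_injective h)
      _ = (Nat.card (F0.map π)).factorial := Nat.card_perm
      _ ≤ N.factorial := Nat.factorial_le hcard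

include hab hmax in
theorem C1_le (hX : Group.IsSolvable X) {C : Subgroup X} (hC : C.Normal)
    (h1 : ∀ x ∈ C, ∀ y ∈ Ft (centralizer (A : Set X)), ⁅x, y⁆ ∈ A) :
    C ⊓ centralizer (A : Set X) ≤ Ft (⊤ : Subgroup X) := by
  apply le_Ft_of_comm le_top
  · intro g _
    exact (Nz.of_normal g C).inf (Nz.of_normal g _)
  intro s t hs ht hst x hx y hy ⟨a, ha⟩ ⟨b, hb⟩
  have hsol : Group.IsSolvable (centralizer (A : Set X)) := inferInstance
  -- the commutator is in `A`
  have hz : ⁅x, y⁆ ∈ A := by
    have hzH : ⁅x, y⁆ ∈ centralizer (A : Set X) := by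
      rw [commutatorElement_def]
      exact mul_mem (mul_mem (mul_mem hx.2 hy.2) (inv_mem hx.2)) (inv_mem hy.2)
    have hzF : ∀ f ∈ Ft (centralizer (A : Set X)), ⁅x, y⁆ * f = f * ⁅x, y⁆ := by
      intro f hf
      have ex := h1 x hx.1 f hf
      have ey := h1 y hy.1 f hf
      set u := ⁅x, f⁆ with hu
      set v := ⁅y, f⁆ with hv
      have e1 : x * f = u * f * x := by rw [hu, commutatorElement_def]; group
      have e2 : y * f = v * f * y := by rw [hv, commutatorElement_def]; group
      have c1 : x * v = v * x := ((mem_centralizer_iff.1 hx.2) v ey).symm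
      have c2 : y * u = u * y := ((mem_centralizer_iff.1 hy.2) u ex).symm
      have c3 : u * v = v * u := hab u ex v ey
      have k1 : x * y * f = v * u * f * (x * y) := by
        calc x * y * f = x * (y * f) := by group
          _ = x * (v * f * y) := by rw [e2]
          _ = (x * v) * f * y := by group
          _ = v * (x * f) * y := by rw [c1]; group
          _ = v * (u * f * x) * y := by rw [e1]
          _ = v * u * f * (x * y) := by group
      have k2 : y * x * f = v * u * f * (y * x) := by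
        calc y * x * f = y * (x * f) := by group
          _ = y * (u * f * x) := by rw [e1]
          _ = (y * u) * f * x := by group
          _ = u * (y * f) * x := by rw [c2]; group
          _ = u * (v * f * y) * x := by rw [e2]
          _ = (u * v) * f * (y * x) := by group
          _ = v * u * f * (y * x) := by rw [c3]
      have k3 : (y * x)⁻¹ * f = (v * u)⁻¹ * f * (y * x)⁻¹ := by
        have hc : (y * x) * (v * u) = (v * u) * (y * x) := by
          have c4 : y * v = v * y := ((mem_centralizer_iff.1 hy.2) v ey).symm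
          have c5 : x * u = u * x := ((mem_centralizer_iff.1 hx.2) u ex).symm
          calc (y * x) * (v * u) = y * (x * v) * u := by group
            _ = y * (v * x) * u := by rw [c1]
            _ = (y * v) * (x * u) := by group
            _ = (v * y) * (u * x) := by rw [c4, c5]
            _ = v * (y * u) * x := by group
            _ = v * (u * y) * x := by rw [c2]
            _ = (v * u) * (y * x) := by group
        have k4 : f * (y * x)⁻¹ = (y * x)⁻¹ * (v * u * f) := by
          rw [mul_inv_eq_iff_eq_mul, mul_assoc, ← k2]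
          group
        have hc' : (y * x)⁻¹ * (v * u) = (v * u) * (y * x)⁻¹ := by
          rw [inv_mul_eq_iff_eq_mul, ← mul_assoc, hc]; group
        calc (y * x)⁻¹ * f = (v * u)⁻¹ * ((v * u) * (y * x)⁻¹) * f := by group
          _ = (v * u)⁻¹ * ((y * x)⁻¹ * (v * u)) * f := by rw [hc']
          _ = (v * u)⁻¹ * ((y * x)⁻¹ * (v * u * f)) := by group
          _ = (v * u)⁻¹ * (f * (y * x)⁻¹) := by rw [k4]
          _ = (v * u)⁻¹ * f * (y * x)⁻¹ := by group
      have e3 : ⁅x, y⁆ = (x * y) * (y * x)⁻¹ := by rw [commutatorElement_def]; group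
      have hvu : ∀ w ∈ A, w * f = f * w := fun w hw =>
        (mem_centralizer_iff.1 (Ft_le _ hf)) w hw
      have hvx : ∀ w ∈ A, (x * y) * w = w * (x * y) := by
        intro w hw
        have c4 : y * w = w * y := ((mem_centralizer_iff.1 hy.2) w hw).symm
        have c5 : x * w = w * x := ((mem_centralizer_iff.1 hx.2) w hw).symm
        calc (x * y) * w = x * (y * w) := by group
          _ = x * (w * y) := by rw [c4]
          _ = (x * w) * y := by group
          _ = w * (x * y) := by rw [c5]; group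
      have hinv : (v * u)⁻¹ ∈ A := inv_mem (mul_mem ey ex)
      rw [e3]
      calc x * y * (y * x)⁻¹ * f = (x * y) * ((y * x)⁻¹ * f) := by group
        _ = (x * y) * ((v * u)⁻¹ * f * (y * x)⁻¹) := by rw [k3]
        _ = ((x * y) * (v * u)⁻¹) * f * (y * x)⁻¹ := by group
        _ = ((v * u)⁻¹ * (x * y)) * f * (y * x)⁻¹ := by rw [hvx _ hinv]
        _ = (v * u)⁻¹ * (x * y * f) * (y * x)⁻¹ := by group
        _ = (v * u)⁻¹ * (v * u * f * (x * y)) * (y * x)⁻¹ := by rw [k1]
        _ = f * (x * y * (y * x)⁻¹) := by group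
    exact center_F0 hab hmax (cent_Ft hsol hzH hzF) hzF
  set z := ⁅x, y⁆ with hzdef
  have cx : x * z = z * x := ((mem_centralizer_iff.1 hx.2) z hz).symm
  have cy : y * z = z * y := ((mem_centralizer_iff.1 hy.2) z hz).symm
  have e1 : x * y * x⁻¹ = z * y := by rw [hzdef, commutatorElement_def]; group
  have e2 : y * x * y⁻¹ = z⁻¹ * x := by rw [hzdef, commutatorElement_def]; group
  have h2 : z ^ t ^ b = 1 := by
    have h3 := congrArg (fun w => w ^ t ^ b) e1
    rw [conj_pow, hb, (Commute.mul_pow (show Commute z y from cy.symm)), hb] at h3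
    simpa using h3.symm
  have h3 : z ^ s ^ a = 1 := by
    have h4 := congrArg (fun w => w ^ s ^ a) e2
    rw [conj_pow, ha, (Commute.mul_pow (show Commute z⁻¹ x from
      (show Commute x z from cx).symm.inv_left)), ha] at h4
    simpa using h4.symm
  have hz1 : z = 1 := by
    have hcop : Nat.Coprime (s ^ a) (t ^ b) :=
      Nat.Coprime.pow _ _ ((Nat.coprime_primes hs ht).2 hst)
    have := orderOf_dvd_of_pow_eq_one h2
    have h5 := orderOf_dvd_of_pow_eq_one h3
    have h6 := Nat.eq_one_of_dvd_coprimes hcop h5 this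
    exact orderOf_eq_one_iff.1 h6
  exact commutatorElement_eq_one_iff_mul_comm.1 (hzdef ▸ hz1)

end Grp

section Rep

variable {K X W : Type} [Field K] [Group X] [Finite X] [AddCommGroup W] [Module K W]
  [FiniteDimensional K W] {ρ : Representation K X W}

/-- Bound for `|F0 / Z_U|`, `U` a space on which the commutators of `F0` act as scalars. -/
theorem relIndex_le {U : Submodule K W} (hU : U ≠ ⊥) {F0 Z : Subgroup X}
    (hinv : InvS ρ F0 U) (χ : X → K)
    (hχ : ∀ x ∈ F0, ∀ y ∈ F0, ∀ u ∈ U, ρ ⁅y, x⁆ u = χ ⁅y, x⁆ • u)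
    (hcen : ∀ x ∈ F0, ∀ y ∈ F0, ∀ z ∈ F0, ⁅y, x⁆ * z = z * ⁅y, x⁆)
    (hZ : ∀ x ∈ F0, (∀ y ∈ F0, ∀ u ∈ U, ρ ⁅y, x⁆ u = u) → x ∈ Z) :
    Z.relIndex F0 ≤ (Module.finrank K U) ^ 2 := by
  classical
  obtain ⟨u0, hu0, hu0'⟩ := Submodule.exists_mem_ne_zero_of_ne_bot hU
  let T : F0 → Module.End K U := fun x => (ρ (x : X)).restrict (hinv x x.2)
  have hTapp : ∀ (x : F0) (u : U), ((T x u : U) : W) = ρ (x : X) u := fun _ _ => rfl
  have hTmul : ∀ x y : F0, T (x * y) = T x * T y := by
    intro x y
    ext u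
    rw [hTapp, Module.End.mul_apply, hTapp, hTapp]
    simp
  have hT1 : T 1 = 1 := by
    ext u
    rw [hTapp]
    simp
  have hcomm : ∀ x y : F0, T (y * x * y⁻¹) = χ ⁅(y : X), (x : X)⁆ • T x := by
    intro x y
    ext u
    have e1 : ((y * x * y⁻¹ : F0) : X) = ⁅(y : X), (x : X)⁆ * x := by
      push_cast
      rw [commutatorElement_def]
      group
    change ρ ((y * x * y⁻¹ : F0) : X) u = χ ⁅(y : X), (x : X)⁆ • ρ x u
    rw [e1, map_mul, Module.End.mul_apply, hχ x x.2 y y.2 _ (hinv x x.2 u u.2)]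
  -- the characters
  have hinj : ∀ a b : K, a • u0 = b • u0 → a = b := fun a b h => by
    have := sub_eq_zero.2 h
    rw [← sub_smul, smul_eq_zero] at this
    rcases this with h1 | h1
    · exact sub_eq_zero.1 h1
    · exact absurd h1 hu0'
  have hcomm_mem : ∀ x y : F0, ⁅(y : X), (x : X)⁆ ∈ F0 := fun x y => by
    rw [commutatorElement_def]
    exact mul_mem (mul_mem (mul_mem y.2 x.2) (inv_mem y.2)) (inv_mem x.2)
  let lam : F0 → (F0 →* K) := fun x =>
    { toFun := fun y => χ ⁅(y : X), (x : X)⁆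
      map_one' := by
        apply hinj
        have := hχ x x.2 1 (one_mem _) u0 hu0
        simp only [commutatorElement_one_left, map_one, Module.End.one_apply] at this
        rw [one_smul]
        simpa using this.symm
      map_mul' := by
        intro y y'
        apply hinj
        have e1 : ⁅((y * y' : F0) : X), (x : X)⁆ = ⁅(y : X), (x : X)⁆ * ⁅(y' : X), (x : X)⁆ := by
          have h1 := hcen x x.2 y' y'.2 y y.2
          have h2 := hcen x x.2 y' y'.2 _ (hcomm_mem x y)
          calc ⁅((y * y' : F0) : X), (x : X)⁆ =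
              (y : X) * ⁅(y' : X), (x : X)⁆ * (y : X)⁻¹ * ⁅(y : X), (x : X)⁆ := by
                push_cast
                simp only [commutatorElement_def]
                group
            _ = ⁅(y' : X), (x : X)⁆ * ⁅(y : X), (x : X)⁆ := by rw [← h1]; group
            _ = _ := h2
        rw [← hχ x x.2 (y * y' : F0) (y * y' : F0).2 u0 hu0, e1, map_mul, Module.End.mul_apply,
          hχ x x.2 y' y'.2 u0 hu0, map_smul, hχ x x.2 y y.2 u0 hu0, smul_smul, mul_comm] }
  -- the family of coset representatives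
  let ι := F0 ⧸ Z.subgroupOf F0
  let s : ι → F0 := fun c => Quotient.out c
  have hs : ∀ c d : ι, lam (s c) = lam (s d) → c = d := by
    intro c d h
    have key : (s c)⁻¹ * s d ∈ Z.subgroupOf F0 := by
      rw [mem_subgroupOf]
      apply hZ _ ((s c)⁻¹ * s d).2
      intro y hy u hu
      have h1 : χ ⁅y, (s c : X)⁆ = χ ⁅y, (s d : X)⁆ := DFunLike.congr_fun h ⟨y, hy⟩
      have hyc : ∀ x ∈ F0, y * x * y⁻¹ = ⁅y, x⁆ * x := by
        intro x _
        rw [commutatorElement_def]; group
      -- `⁅y, c⁻¹ d⁆ = c⁻¹ ⁅y,c⁆⁻¹ ⁅y,d⁆ d (c⁻¹ d)⁻¹`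
      have e1 : ⁅y, (((s c)⁻¹ * s d : F0) : X)⁆ =
          (s c : X)⁻¹ * (⁅y, (s c : X)⁆⁻¹ * ⁅y, (s d : X)⁆) * (s c : X) := by
        push_cast
        simp only [commutatorElement_def]
        group
      have hcu : ρ (s c : X) u ∈ U := hinv _ (s c).2 u hu
      have hinvU : ∀ w ∈ U, ρ ⁅y, (s c : X)⁆⁻¹ w = (χ ⁅y, (s c : X)⁆)⁻¹ • w := by
        intro w hw
        have h2 := hχ (s c) (s c).2 y hy w hw
        have hne : χ ⁅y, (s c : X)⁆ ≠ 0 := by
          intro h0
          have h3 := hχ (s c) (s c).2 y hy u0 hu0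
          rw [h0, zero_smul] at h3
          have h4 : ρ ⁅y, (s c : X)⁆⁻¹ (ρ ⁅y, (s c : X)⁆ u0) = u0 := rho_inv_apply _ _
          rw [h3, map_zero] at h4
          exact hu0' h4.symm
        have h5 : ρ ⁅y, (s c : X)⁆⁻¹ (ρ ⁅y, (s c : X)⁆ w) = w := rho_inv_apply _ _
        rw [h2, map_smul] at h5
        rw [eq_inv_smul_iff₀ hne]
        exact h5
      have hne : χ ⁅y, (s c : X)⁆ ≠ 0 := by
        intro h0
        have h3 := hχ (s c) (s c).2 y hy u0 hu0
        rw [h0, zero_smul] at h3
        have h4 : ρ ⁅y, (s c : X)⁆⁻¹ (ρ ⁅y, (s c : X)⁆ u0) = u0 := rho_inv_apply _ _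
        rw [h3, map_zero] at h4
        exact hu0' h4.symm
      rw [e1]
      simp only [map_mul, Module.End.mul_apply]
      rw [hχ (s d) (s d).2 y hy _ hcu, map_smul, hinvU _ hcu, ← h1, smul_smul,
        mul_inv_cancel₀ hne, one_smul, rho_inv_apply]
    have h2 : (QuotientGroup.mk (s c) : ι) = QuotientGroup.mk (s d) := QuotientGroup.eq.2 key
    have h3 : (QuotientGroup.mk (s c) : ι) = c := Quotient.out_eq c
    have h4 : (QuotientGroup.mk (s d) : ι) = d := Quotient.out_eq d
    rw [← h3, ← h4, h2]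
  have hT0 : ∀ x : F0, T x ≠ 0 := by
    intro x h
    have h1 := congrArg (fun f : Module.End K U => ((f ⟨u0, hu0⟩ : U) : W)) h
    have h2 : ρ (x : X) u0 = 0 := h1
    have h4 : ρ (x : X)⁻¹ (ρ (x : X) u0) = u0 := rho_inv_apply _ _
    rw [h2, map_zero] at h4
    exact hu0' h4.symm
  have hchar : LinearIndependent K (fun c : ι => (lam (s c) : F0 → K)) := by
    have := linearIndependent_monoidHom F0 K
    exact this.comp (fun c : ι => lam (s c)) (fun c d h => hs c d h)
  have : Fintype ι := Fintype.ofFinite ι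
  have hli : LinearIndependent K (fun c : ι => T (s c)) := by
    rw [Fintype.linearIndependent_iff]
    intro g hg c
    -- for every functional
    have hfun : ∀ f : Module.Dual K (Module.End K U), g c * f (T (s c)) = 0 := by
      intro f
      have h1 : ∑ c : ι, (g c * f (T (s c))) • (lam (s c) : F0 → K) = 0 := by
        ext y
        have h2 : T y * (∑ c, g c • T (s c)) * T y⁻¹ = 0 := by rw [hg]; simp
        have h3 : T y * (∑ c, g c • T (s c)) * T y⁻¹ =
            ∑ c, (g c * lam (s c) y) • T (s c) := by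
          rw [Finset.mul_sum, Finset.sum_mul]
          refine Finset.sum_congr rfl fun c _ => ?_
          rw [mul_smul_comm, smul_mul_assoc, ← hTmul, ← hTmul, hcomm, smul_smul]
          rfl
        rw [h3] at h2
        have h4 := congrArg f h2
        rw [map_zero, map_sum] at h4
        simp only [Finset.sum_apply, Pi.smul_apply, smul_eq_mul, Pi.zero_apply]
        rw [← h4]
        refine Finset.sum_congr rfl fun c _ => ?_
        rw [map_smul, smul_eq_mul]
        ring
      exact (Fintype.linearIndependent_iff.1 hchar) _ h1 c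
    have hne : ∃ f : Module.Dual K (Module.End K U), f (T (s c)) ≠ 0 := by
      by_contra hcon
      push Not at hcon
      exact hT0 (s c) ((Module.forall_dual_apply_eq_zero_iff K _).1 hcon)
    obtain ⟨f, hf⟩ := hne
    exact (mul_eq_zero.1 (hfun f)).resolve_right hf
  have hcard := hli.fintype_card_le_finrank
  rw [Module.finrank_linearMap, ← pow_two] at hcard
  rw [relIndex, index, Nat.card_eq_fintype_card]
  exact hcard

/-- The elements of `F0` whose commutators with `F0` act trivially on `U`. -/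
def ZU (ρ : Representation K X W) (F0 : Subgroup X) (U : Submodule K W)
    (hcen : ∀ x ∈ F0, ∀ y ∈ F0, ∀ z ∈ F0, ⁅y, x⁆ * z = z * ⁅y, x⁆) : Subgroup X where
  carrier := {x | x ∈ F0 ∧ ∀ y ∈ F0, ∀ u ∈ U, ρ ⁅y, x⁆ u = u}
  one_mem' := ⟨one_mem _, fun y _ u _ => by simp⟩
  mul_mem' := by
    rintro a b ⟨ha, ha'⟩ ⟨hb, hb'⟩
    refine ⟨mul_mem ha hb, fun y hy u hu => ?_⟩
    have e1 : ⁅y, a * b⁆ = ⁅y, a⁆ * ⁅y, b⁆ := by
      have h1 := hcen b hb y hy a ha
      calc ⁅y, a * b⁆ = ⁅y, a⁆ * (a * ⁅y, b⁆ * a⁻¹) := by simp only [commutatorElement_def]; group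
        _ = ⁅y, a⁆ * ⁅y, b⁆ := by rw [← h1]; group
    rw [e1, map_mul, Module.End.mul_apply, hb' y hy u hu, ha' y hy u hu]
  inv_mem' := by
    rintro a ⟨ha, ha'⟩
    refine ⟨inv_mem ha, fun y hy u hu => ?_⟩
    have e1 : ⁅y, a⁻¹⁆ = ⁅y, a⁆⁻¹ := by
      have h1 := hcen a ha y hy a ha
      have h2 : a⁻¹ * ⁅y, a⁆ * a = ⁅y, a⁆ := by rw [mul_assoc, h1]; group
      calc ⁅y, a⁻¹⁆ = (a⁻¹ * ⁅y, a⁆ * a)⁻¹ := by simp only [commutatorElement_def]; group
        _ = ⁅y, a⁆⁻¹ := by rw [h2]
    rw [e1]
    conv_lhs => rw [← ha' y hy u hu]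
    exact rho_inv_apply _ _

omit [FiniteDimensional K W] in
theorem mem_ZU {F0 : Subgroup X} {U : Submodule K W}
    {hcen : ∀ x ∈ F0, ∀ y ∈ F0, ∀ z ∈ F0, ⁅y, x⁆ * z = z * ⁅y, x⁆} {x : X} :
    x ∈ ZU ρ F0 U hcen ↔ x ∈ F0 ∧ ∀ y ∈ F0, ∀ u ∈ U, ρ ⁅y, x⁆ u = u := Iff.rfl

variable [IsAlgClosed K] {A : Subgroup X} [hAn : A.Normal]
  (hab : ∀ a ∈ A, ∀ b ∈ A, a * b = b * a)
  (hmax : ∀ B : Subgroup X, B.Normal → (∀ a ∈ B, ∀ b ∈ B, a * b = b * a) → A ≤ B → B ≤ A)
  (hA : (Nat.card A : K) ≠ 0) (hf : ∀ x, (∀ w, ρ x w = w) → x = 1)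

omit [FiniteDimensional K W] [IsAlgClosed K] in
theorem inv_top (g : X) : Inv ρ g ⊤ := fun _ _ => Submodule.mem_top

omit [FiniteDimensional K W] [IsAlgClosed K] in
theorem invS_top (P : Subgroup X) : InvS ρ P ⊤ := fun _ _ _ _ => Submodule.mem_top

omit [FiniteDimensional K W] [IsAlgClosed K] [Finite X] hAn in
include hab in
theorem abOn_top : AbOn ρ A ⊤ := by
  intro x hx y hy w _
  rw [← Module.End.mul_apply, ← map_mul, hab x hx y hy, map_mul, Module.End.mul_apply]

omit [IsAlgClosed K] in
theorem wts_finite : (wts ρ A ⊤).Finite := WellFoundedGT.finite_of_sSupIndep (wts_indep A ⊤)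

omit [IsAlgClosed K] in
theorem wts_card (n : ℕ) (hn : Module.finrank K W ≤ n) [Fintype (wts ρ A ⊤)] :
    Fintype.card (wts ρ A ⊤) ≤ n := by
  classical
  have h := (sSupIndep_iff _).1 (wts_indep (ρ := ρ) A ⊤)
  have : Fintype {i : wts ρ A ⊤ // (i : Submodule K W) ≠ ⊥} := Fintype.ofFinite _
  have h2 := h.subtype_ne_bot_le_finrank
  refine le_trans ?_ (h2.trans hn)
  exact Fintype.card_le_of_injective (fun i : wts ρ A ⊤ =>
    (⟨i, i.2.1⟩ : {i : wts ρ A ⊤ // (i : Submodule K W) ≠ ⊥}))
    (fun a b h => by simpa using h)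

include hab hA hf in
theorem cent_index (n : ℕ) (hn : Module.finrank K W ≤ n) :
    (centralizer (A : Set X)).index ≤ n.factorial := by
  classical
  have : Finite (wts ρ A ⊤) := wts_finite
  have : Fintype (wts ρ A ⊤) := Fintype.ofFinite _
  let _ : MulAction X (wts ρ A ⊤) :=
    { smul := fun g U => ⟨U.1.map (ρ g), wts_map (Nz.of_normal g A) (inv_top g) U.2⟩
      one_smul := fun U => Subtype.ext (by
        change U.1.map (ρ 1) = U.1
        rw [map_one]
        exact Submodule.map_id _)
      mul_smul := fun g h U => Subtype.ext (by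
        change U.1.map (ρ (g * h)) = (U.1.map (ρ h)).map (ρ g)
        rw [map_mul]
        exact Submodule.map_comp (ρ h) (ρ g) U.1) }
  let f := MulAction.toPermHom X (wts ρ A ⊤)
  have hker : f.ker ≤ centralizer (A : Set X) := by
    intro g hg
    rw [MonoidHom.mem_ker] at hg
    have h1 : ∀ U ∈ wts ρ A ⊤, U.map (ρ g) = U := by
      intro U hU
      have := DFunLike.congr_fun hg (⟨U, hU⟩ : wts ρ A ⊤)
      exact congrArg Subtype.val this
    have h2 := comm_of_wts_fixed (Nz.of_normal g A) (inv_top g)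
      (wts_sup hA (invS_top A) (abOn_top hab)) h1
    rw [mem_centralizer_iff]
    intro a ha
    have h3 : (g * a)⁻¹ * (a * g) = 1 := by
      apply hf
      intro w
      rw [map_mul, Module.End.mul_apply, map_mul ρ a g, Module.End.mul_apply,
        h2 a ha w Submodule.mem_top, ← Module.End.mul_apply (ρ g), ← map_mul]
      exact rho_inv_apply _ _
    exact (inv_mul_eq_one.1 h3).symm
  calc (centralizer (A : Set X)).index ≤ f.ker.index := index_antitone hker
    _ = Nat.card f.range := index_ker f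
    _ ≤ Nat.card (Equiv.Perm (wts ρ A ⊤)) := Subgroup.card_le_card_group _
    _ = (Nat.card (wts ρ A ⊤)).factorial := Nat.card_perm
    _ ≤ n.factorial := by
      rw [Nat.card_eq_fintype_card]
      exact Nat.factorial_le (wts_card n hn)

include hab hmax hA hf in
theorem F0_index (n : ℕ) (hn : Module.finrank K W ≤ n) :
    A.relIndex (Ft (centralizer (A : Set X))) ≤ (n ^ 2) ^ n := by
  classical
  have : Finite (wts ρ A ⊤) := wts_finite
  have : Fintype (wts ρ A ⊤) := Fintype.ofFinite _
  set F0 := Ft (centralizer (A : Set X)) with hF0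
  have hcA : ∀ a ∈ A, ∀ z ∈ centralizer (A : Set X), a * z = z * a := fun a ha z hz =>
    mem_centralizer_iff.1 hz a ha
  have hcen : ∀ x ∈ F0, ∀ y ∈ F0, ∀ z ∈ F0, ⁅y, x⁆ * z = z * ⁅y, x⁆ := by
    intro x hx y hy z hz
    exact hcA _ (F0_comm_mem hab hmax y hy x hx) z (Ft_le _ hz)
  have hinv : ∀ U ∈ wts ρ A ⊤, InvS ρ F0 U := by
    intro U hU g hg w hw
    have h1 := wts_fixed_of_comm (X := A) (W := ⊤) (U := U) (g := g) (inv_top g) (by
      intro x hx w _
      rw [← Module.End.mul_apply, ← map_mul, hcA x hx g (Ft_le _ hg), map_mul,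
        Module.End.mul_apply]) hU
    rw [← h1]
    exact Submodule.mem_map_of_mem hw
  have hle : (⨅ U : wts ρ A ⊤, ZU ρ F0 U hcen).relIndex F0 ≤ (n ^ 2) ^ n := by
    refine (relIndex_iInf_le _).trans ?_
    have hb : ∀ U : wts ρ A ⊤, (ZU ρ F0 U hcen).relIndex F0 ≤ n ^ 2 := by
      intro U
      obtain ⟨χ, hχ⟩ := U.2.2
      refine (relIndex_le U.2.1 (hinv U U.2) χ ?_ hcen (fun x hx h => mem_ZU.2 ⟨hx, h⟩)).trans ?_
      · intro x hx y hy u hu
        have h1 := F0_comm_mem hab hmax y hy x hx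
        rw [hχ] at hu
        exact hu.2 _ h1
      · exact Nat.pow_le_pow_left ((Submodule.finrank_le _).trans hn) 2
    calc ∏ U : wts ρ A ⊤, (ZU ρ F0 U hcen).relIndex F0 ≤ ∏ _U : wts ρ A ⊤, n ^ 2 :=
          Finset.prod_le_prod' fun U _ => hb U
      _ = (n ^ 2) ^ Fintype.card (wts ρ A ⊤) := by
          rw [Finset.prod_const, Finset.card_univ]
      _ ≤ (n ^ 2) ^ n := by
          rcases Nat.eq_zero_or_pos n with h0 | h0
          · have := wts_card (ρ := ρ) (A := A) n hn
            rw [h0] at this ⊢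
            rw [Nat.le_zero.1 this]
          · exact Nat.pow_le_pow_right (by positivity) (wts_card n hn)
  refine le_trans ?_ hle
  apply relIndex_le_of_le_left
  · intro x hx
    rw [mem_iInf] at hx
    have hx0 : Nonempty (wts ρ A ⊤) ∨ ∀ w : W, w = 0 := by
      rcases isEmpty_or_nonempty (wts ρ A ⊤) with h | h
      · right
        have h1 := wts_sup (ρ := ρ) hA (invS_top A) (abOn_top hab)
        rw [Set.isEmpty_coe_sort.1 h, sSup_empty] at h1
        intro w
        have : w ∈ (⊤ : Submodule K W) := Submodule.mem_top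
        rwa [← h1, Submodule.mem_bot] at this
      · exact Or.inl h
    rcases hx0 with ⟨⟨U0⟩⟩ | h0
    · have hxF := (hx U0).1
      apply center_F0 hab hmax hxF
      intro y hy
      have h1 : ⁅y, x⁆ = 1 := by
        apply hf
        intro w
        have hw : w ∈ sSup (wts ρ A ⊤) := by
          rw [wts_sup hA (invS_top A) (abOn_top hab)]
          exact Submodule.mem_top
        have hsup : sSup (wts ρ A ⊤) ≤ LinearMap.ker (ρ ⁅y, x⁆ - 1) := by
          apply sSup_le
          intro U hU u hu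
          rw [LinearMap.mem_ker, LinearMap.sub_apply, Module.End.one_apply, sub_eq_zero]
          exact (hx ⟨U, hU⟩).2 y hy u hu
        have := hsup hw
        rwa [LinearMap.mem_ker, LinearMap.sub_apply, Module.End.one_apply, sub_eq_zero] at this
      exact (commutatorElement_eq_one_iff_mul_comm.1 h1).symm
    · rw [hf x (fun w => by rw [h0 (ρ x w), h0 w])]
      exact one_mem A
  · exact index_ne_zero_of_finite

include hab hmax hA hf in
theorem main (hX : Group.IsSolvable X) (n : ℕ) (hn : Module.finrank K W ≤ n) :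
    (Ft (⊤ : Subgroup X)).index ≤ ((n ^ 2) ^ n).factorial * n.factorial := by
  have : (Ft (centralizer (A : Set X))).Normal := Ft_normal _
  obtain ⟨C, hC1, hC2, hC3⟩ := exists_ker (A := A) (Ft (centralizer (A : Set X))) _
    (F0_index hab hmax hA hf n hn)
  calc (Ft (⊤ : Subgroup X)).index ≤ (C ⊓ centralizer (A : Set X)).index :=
        index_antitone (C1_le hab hmax hX hC1 hC2)
    _ ≤ C.index * (centralizer (A : Set X)).index := index_inf_le
    _ ≤ _ := Nat.mul_le_mul hC3 (cent_index hab hA hf n hn)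

end Rep

/-- A normal subgroup of exponent `q` acts trivially, in characteristic `q`. -/
theorem no_q {q : ℕ} [Fact q.Prime] {X V : Type} [Group X] [Finite X] [AddCommGroup V]
    [Module (ZMod q) V] [Finite V] (ρ : Representation (ZMod q) X V)
    (hf : ∀ x, (∀ v, ρ x v = v) → x = 1) (hirr : Irr ρ (Set.univ) ⊤) {N : Subgroup X}
    (hN : N.Normal) (hNq : IsPGroup q N) : N = ⊥ := by
  classical
  -- the fixed points of `N`
  let F : Submodule (ZMod q) V :=
    { carrier := {v | ∀ x ∈ N, ρ x v = v}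
      add_mem' := fun {a b} ha hb x hx => by rw [map_add, ha x hx, hb x hx]
      zero_mem' := fun x _ => map_zero _
      smul_mem' := fun c a ha x hx => by rw [map_smul, ha x hx] }
  have hFinv : ∀ g ∈ (Set.univ : Set X), Inv ρ g F := by
    intro g _ v hv x hx
    have h1 : g⁻¹ * x * g ∈ N := by simpa using hN.conj_mem x hx g⁻¹
    have h2 := hv _ h1
    have h3 : ρ x (ρ g v) = ρ g (ρ (g⁻¹ * x * g) v) := by
      rw [← Module.End.mul_apply, ← Module.End.mul_apply, ← map_mul, ← map_mul]
      congr 2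
      group
    rw [h3, h2]
  have hFne : F ≠ ⊥ := by
    let _ : MulAction N V :=
      { smul := fun x v => ρ (x : X) v
        one_smul := fun v => by
          change ρ ((1 : N) : X) v = v
          simp
        mul_smul := fun x y v => by
          change ρ ((x * y : N) : X) v = ρ (x : X) (ρ (y : X) v)
          simp }
    have hVnt : (⊤ : Submodule (ZMod q) V) ≠ ⊥ := hirr.1
    have hdvd : q ∣ Nat.card V := by
      have h1 := Module.natCard_eq_pow_finrank (K := ZMod q) (V := V)
      have h2 : Module.finrank (ZMod q) V ≠ 0 := by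
        intro h0
        apply hVnt
        rw [Submodule.eq_bot_iff]
        intro v _
        have := Module.finrank_zero_iff (R := ZMod q) (M := V)
        have hs := this.1 h0
        exact Subsingleton.elim _ _
      rw [Nat.card_zmod] at h1
      rw [h1]
      exact dvd_pow_self q h2
    have h0 : (0 : V) ∈ MulAction.fixedPoints N V := fun x => map_zero _
    obtain ⟨b, hb, hb0⟩ := hNq.exists_fixed_point_of_prime_dvd_card_of_fixed_point V hdvd h0
    intro hbot
    apply hb0
    have hbF : b ∈ F := fun x hx => hb ⟨x, hx⟩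
    rw [hbot, Submodule.mem_bot] at hbF
    exact hbF.symm
  have hFtop := hirr.2.2 F le_top hFne hFinv
  rw [eq_bot_iff]
  intro x hx
  rw [mem_bot]
  apply hf
  intro v
  have : v ∈ F := by rw [hFtop]; exact Submodule.mem_top
  exact this x hx

end S1a

/-- Block S1a. -/
theorem stmt_S1a : Stmt_S1a := by
  intro n
  refine ⟨((n ^ 2) ^ n).factorial * n.factorial, ?_⟩
  intro q _ X V _ _ _ _ _ ρ hX hn _ hf hirr
  obtain ⟨A, hAn, hab, hmax⟩ := S1a.exists_max_abelian X
  let K := AlgebraicClosure (ZMod q)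
  have hchar : CharP K q := charP_of_injective_algebraMap (algebraMap (ZMod q) K).injective q
  have hA : (Nat.card A : K) ≠ 0 := by
    rw [Ne, CharP.cast_eq_zero_iff K q]
    intro hdvd
    -- the elements of order dividing `q`
    let N : Subgroup X :=
      { carrier := {x | x ∈ A ∧ x ^ q = 1}
        mul_mem' := by
          rintro a b ⟨ha, ha'⟩ ⟨hb, hb'⟩
          refine ⟨mul_mem ha hb, ?_⟩
          rw [(show Commute a b from hab a ha b hb).mul_pow, ha', hb', one_mul]
        one_mem' := ⟨one_mem _, one_pow _⟩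
        inv_mem' := by
          rintro a ⟨ha, ha'⟩
          exact ⟨inv_mem ha, by rw [inv_pow, ha', inv_one]⟩ }
    have hNn : N.Normal := by
      constructor
      rintro x ⟨hx, hx'⟩ g
      refine ⟨hAn.conj_mem x hx g, ?_⟩
      rw [conj_pow, hx', mul_one, mul_inv_cancel]
    have hNq : IsPGroup q N := by
      rintro ⟨x, hx⟩
      exact ⟨1, Subtype.ext (by simpa using hx.2)⟩
    have hbot := S1a.no_q ρ hf hirr hNn hNq
    obtain ⟨a, ha⟩ := exists_prime_orderOf_dvd_card' (G := A) q hdvd
    have ha1 : (a : X) ∈ N := by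
      refine ⟨a.2, ?_⟩
      have := pow_orderOf_eq_one a
      rw [ha] at this
      exact_mod_cast congrArg Subtype.val this
    rw [hbot, mem_bot] at ha1
    have : orderOf a = 1 := by
      rw [orderOf_eq_one_iff]
      exact Subtype.ext ha1
    have hq := (Fact.out : q.Prime).one_lt
    omega
  have hfK : ∀ x, (∀ w, bc K ρ x w = w) → x = 1 := by
    intro x hx
    apply hf
    by_contra hcon
    push Not at hcon
    obtain ⟨v, hv⟩ := hcon
    obtain ⟨y, hy, w, hw⟩ := bc_nontriv (ρ := ρ) K (Y := zpowers x) ⟨x, mem_zpowers x, v, hv⟩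
    apply hw
    have : y ∈ Submonoid.powers x := mem_powers_iff_mem_zpowers.2 hy
    obtain ⟨k, hk⟩ := this
    have hall : ∀ k : ℕ, bc K ρ (x ^ k) w = w := by
      intro k
      induction k with
      | zero => simp
      | succ k ih => rw [pow_succ, map_mul, Module.End.mul_apply, hx, ih]
    rw [← hk]
    exact hall k
  have hfd : FiniteDimensional K (K ⊗[ZMod q] V) := inferInstance
  exact S1a.main (ρ := bc K ρ) hab hmax hA hfK hX n (by rwa [Module.finrank_baseChange])

end Pool.FH
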