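import Pool.Agent.Work.MP_4c212b_al.Interface

/-!
# Block STEP
-/

set_option autoImplicit false
set_option linter.unusedSectionVars false
set_option linter.unusedVariables false

open Subgroup
open scoped commutatorElement TensorProduct

namespace Pool.FH

namespace StepAux

section basic

variable {k E V : Type} [Field k] [Group E] [AddCommGroup V] [Module k V]

theorem rho_mul_apply (ρ : Representation k E V) (a b : E) (v : V) :
    ρ (a * b) v = ρ a (ρ b v) := by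
  rw [map_mul, Module.End.mul_apply]

theorem rho_one_apply (ρ : Representation k E V) (v : V) : ρ 1 v = v := by
  rw [map_one, Module.End.one_apply]

/-- the kernel of `Y` on `W` -/
def kr (ρ : Representation k E V) (Y : Subgroup E) (W : Submodule k V) : Subgroup E where
  carrier := {x | x ∈ Y ∧ ∀ w ∈ W, ρ x w = w}
  mul_mem' := by
    rintro a b ⟨ha, ha'⟩ ⟨hb, hb'⟩
    exact ⟨Y.mul_mem ha hb, fun w hw => by rw [rho_mul_apply, hb' w hw, ha' w hw]⟩
  one_mem' := ⟨Y.one_mem, fun w _ => rho_one_apply ρ w⟩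
  inv_mem' := by
    rintro a ⟨ha, ha'⟩
    refine ⟨Y.inv_mem ha, fun w hw => ?_⟩
    conv_lhs => rw [← ha' w hw]
    rw [← rho_mul_apply, inv_mul_cancel, rho_one_apply]

variable {ρ : Representation k E V}

theorem mem_kr {Y : Subgroup E} {W : Submodule k V} {x : E} :
    x ∈ kr ρ Y W ↔ x ∈ Y ∧ ∀ w ∈ W, ρ x w = w := Iff.rfl

theorem kr_le {Y : Subgroup E} {W : Submodule k V} : kr ρ Y W ≤ Y := fun _ h => h.1

theorem kr_triv {Y : Subgroup E} {W : Submodule k V} : Triv ρ (kr ρ Y W) W := fun _ h => h.2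

theorem kr_anti {Y : Subgroup E} {W U : Submodule k V} (h : U ≤ W) : kr ρ Y W ≤ kr ρ Y U :=
  fun _ hx => ⟨hx.1, fun w hw => hx.2 w (h hw)⟩

theorem kr_nz [Finite E] {Y : Subgroup E} {W : Submodule k V} {g : E} (h1 : Nz g Y)
    (h2 : Inv ρ g W) : Nz g (kr ρ Y W) := by
  rintro x ⟨hx, hx'⟩
  refine ⟨h1 x hx, fun w hw => ?_⟩
  rw [rho_mul_apply, rho_mul_apply, hx' _ (h2.inv w hw), ← rho_mul_apply, mul_inv_cancel,
    rho_one_apply]

theorem comm_mem_kr [Finite E] {Y : Subgroup E} {W : Submodule k V} {a b : E}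
    (hab : ⁅a, b⁆ ∈ Y) (ha : Inv ρ a W) (hb : Inv ρ b W)
    (h : ∀ w ∈ W, ρ a (ρ b w) = ρ b (ρ a w)) : ⁅a, b⁆ ∈ kr ρ Y W := by
  refine ⟨hab, fun w hw => ?_⟩
  have hw' : ρ (a⁻¹ * b⁻¹) w ∈ W := (ha.inv.mul hb.inv) w hw
  rw [commutatorElement_def, show a * b * a⁻¹ * b⁻¹ = a * (b * (a⁻¹ * b⁻¹)) by group,
    rho_mul_apply, rho_mul_apply, h _ hw', ← rho_mul_apply, ← rho_mul_apply,
    show b * a * (a⁻¹ * b⁻¹) = 1 by group, rho_one_apply]

theorem of_comm_mem_kr {Y : Subgroup E} {W : Submodule k V} {a b : E}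
    (ha : Inv ρ a W) (hb : Inv ρ b W) (h : ⁅a, b⁆ ∈ kr ρ Y W) :
    ∀ w ∈ W, ρ a (ρ b w) = ρ b (ρ a w) := by
  intro w hw
  have h1 := h.2 _ (hb _ (ha w hw))
  rw [← h1, ← rho_mul_apply, ← rho_mul_apply, ← rho_mul_apply]
  congr 2
  rw [commutatorElement_def]; group

/-- centre of `Y` modulo `N` -/
def cen (Y N : Subgroup E) (hN : NzS Y N) : Subgroup E where
  carrier := {x | x ∈ Y ∧ ∀ y ∈ Y, ⁅x, y⁆ ∈ N}
  mul_mem' := by
    rintro a b ⟨ha, ha'⟩ ⟨hb, hb'⟩
    refine ⟨Y.mul_mem ha hb, fun y hy => ?_⟩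
    have h : ⁅a * b, y⁆ = (a * ⁅b, y⁆ * a⁻¹) * ⁅a, y⁆ := by
      simp only [commutatorElement_def]; group
    rw [h]
    exact N.mul_mem (hN a ha _ (hb' y hy)) (ha' y hy)
  one_mem' := ⟨Y.one_mem, fun y _ => by simp⟩
  inv_mem' := by
    rintro a ⟨ha, ha'⟩
    refine ⟨Y.inv_mem ha, fun y hy => ?_⟩
    have h : ⁅a⁻¹, y⁆ = a⁻¹ * (⁅a, y⁆)⁻¹ * a⁻¹⁻¹ := by
      simp only [commutatorElement_def]; group
    rw [h]
    exact hN a⁻¹ (Y.inv_mem ha) _ (N.inv_mem (ha' y hy))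

theorem cen_nz [Finite E] {Y N : Subgroup E} {hN : NzS Y N} {g : E} (h1 : Nz g Y) (h2 : Nz g N) :
    Nz g (cen Y N hN) := by
  rintro x ⟨hx, hx'⟩
  refine ⟨h1 x hx, fun y hy => ?_⟩
  have hy' : g⁻¹ * y * g ∈ Y := by
    have := h1.inv y hy
    simpa using this
  have h := h2 _ (hx' _ hy')
  have e : g * ⁅x, g⁻¹ * y * g⁆ * g⁻¹ = ⁅g * x * g⁻¹, y⁆ := by
    simp only [commutatorElement_def]; group
  rwa [e] at h

/-! the action on subspaces -/

theorem map_mul_rho (a b : E) (U : Submodule k V) :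
    U.map (ρ (a * b)) = (U.map (ρ b)).map (ρ a) := by
  rw [map_mul, Module.End.mul_eq_comp, Submodule.map_comp]

theorem map_one_rho (U : Submodule k V) : U.map (ρ 1) = U := by
  rw [map_one, Module.End.one_eq_id, Submodule.map_id]

theorem map_inv_of_fixed {g : E} {U : Submodule k V} (h : U.map (ρ g) = U) :
    U.map (ρ g⁻¹) = U := by
  conv_lhs => rw [← h]
  rw [← map_mul_rho, inv_mul_cancel, map_one_rho]

theorem map_of_triv {g : E} {U : Submodule k V} (h : ∀ w ∈ U, ρ g w = w) :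
    U.map (ρ g) = U := by
  apply le_antisymm
  · rintro _ ⟨w, hw, rfl⟩
    rw [h w hw]; exact hw
  · intro w hw
    exact ⟨w, hw, h w hw⟩

theorem inv_of_map {g : E} {U : Submodule k V} (h : U.map (ρ g) = U) : Inv ρ g U := by
  intro w hw
  rw [← h]
  exact ⟨w, hw, rfl⟩

/-- the stabiliser in `Q` of `U` -/
def stb (ρ : Representation k E V) (Q : Subgroup E) (U : Submodule k V) : Subgroup E where
  carrier := {x | x ∈ Q ∧ U.map (ρ x) = U}
  mul_mem' := by
    rintro a b ⟨ha, ha'⟩ ⟨hb, hb'⟩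
    exact ⟨Q.mul_mem ha hb, by rw [map_mul_rho, hb', ha']⟩
  one_mem' := ⟨Q.one_mem, map_one_rho U⟩
  inv_mem' := by
    rintro a ⟨ha, ha'⟩
    exact ⟨Q.inv_mem ha, map_inv_of_fixed ha'⟩

theorem wts_le {X : Subgroup E} {W U : Submodule k V} (h : U ∈ wts ρ X W) : U ≤ W := by
  obtain ⟨_, χ, rfl⟩ := h
  exact fun v hv => hv.1

theorem wts_scal {X : Subgroup E} {W U : Submodule k V} (h : U ∈ wts ρ X W) {x : E}
    (hx : x ∈ X) : Scal ρ x U := by
  obtain ⟨_, χ, rfl⟩ := h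
  exact ⟨χ x, fun w hw => hw.2 x hx⟩

end basic

section main

variable {k E V : Type} [Field k] [Group E] [Finite E] [AddCommGroup V] [Module k V]

/-- conclusion A -/
def CA (ρ : Representation k E V) (φ : E) (Y K : Subgroup E) : Prop :=
  ∃ X N : Subgroup E, X ≤ Y ∧ N ≤ X ∧ Nz φ X ∧ Nz φ N ∧ NzS X N ∧ NzS K X ∧ NzS K N ∧
    (∀ a ∈ X, ∀ b ∈ X, ⁅a, b⁆ ∈ N) ∧ goodA ρ φ X N K

/-- conclusion B -/
def CB (ρ : Representation k E V) (φ : E) (Y K : Subgroup E) : Prop :=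
  ∃ N : Subgroup E, ∃ z ∈ K, N ≤ Y ∧ Nz φ N ∧ NzS Y N ∧ (∀ w ∈ Y, ⁅z, w⁆ ∈ N) ∧
    goodB ρ φ Y N z

theorem QY.sub {p t u : ℕ} {φ : E} {Q Y K Q' : Subgroup E} (h : QY p t u φ Q Y K) (hQ : Q' ≤ Q)
    (hφ : Nz φ Q') : QY p t u φ Q' Y K where
  hp := h.hp
  ht := h.ht
  hu := h.hu
  hpt := h.hpt
  hpu := h.hpu
  htu := h.htu
  hφ := h.hφ
  hQ := h.hQ.to_le hQ
  hY := h.hY
  nQ := hφ
  nY := h.nY
  nQY := fun g hg => h.nQY g (hQ hg)
  hK := h.hK
  hKY := h.hKY
  hKQ := fun g hg => h.hKQ g ⟨hQ hg.1, hg.2⟩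

theorem pow_of_mem {t : ℕ} {Y : Subgroup E} (hY : IsPGroup t Y) {d : E} (hd : d ∈ Y) :
    ∃ n : ℕ, d ^ t ^ n = 1 := by
  obtain ⟨n, hn⟩ := hY ⟨d, hd⟩
  exact ⟨n, by simpa using congrArg Subtype.val hn⟩

variable {ρ : Representation k E V}

/-- use of the A-criterion -/
theorem useA {p t u : ℕ} {φ : E} {Q Y K : Subgroup E} (qy : QY p t u φ Q Y K)
    (htk : (t : k) ≠ 0) {W : Submodule k V} (hYW : InvS ρ Y W) (hφW : Inv ρ φ W)
    {X : Subgroup E} (h0 : kr ρ Y W ≤ X) (hXY : X ≤ Y) (nYX : NzS Y X) (nφX : Nz φ X)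
    (hab : ∀ a ∈ X, ∀ b ∈ X, ⁅a, b⁆ ∈ kr ρ Y W) {U : Submodule k V} (hU : U ∈ wts ρ X W)
    (hmov : U.map (ρ φ) ≠ U) {d : E} (hd : d ∈ K)
    (h : U.map (ρ d) ≠ U ∨ ∃ u ∈ U, ρ d u ≠ u) : CA ρ φ Y K := by
  have : Fact p.Prime := ⟨qy.hp⟩
  have : Fact t.Prime := ⟨qy.ht⟩
  have hdY : d ∈ Y := (mem_fx.1 (qy.hK hd)).1
  have hKY' : K ≤ Y := fun x hx => (mem_fx.1 (qy.hK hx)).1
  obtain ⟨n, hn⟩ := pow_of_mem qy.hY hdY
  obtain ⟨v, hvW, hv1, hv2, hv3⟩ := acrit (ρ := ρ) (W := W) (X := X) qy.hpt qy.hφ hn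
    (mem_fx.1 (qy.hK hd)).2 (card_ne_zero_of_isPGroup (qy.hY.to_le hXY) htk) nφX
    (nYX d hdY) hφW (hYW d hdY) hU hmov h
  have hnK : ∀ g ∈ Y, Nz g (kr ρ Y W) := fun g hg => kr_nz (Nz.of_mem hg) (hYW g hg)
  exact ⟨X, kr ρ Y W, hXY, h0, nφX, kr_nz qy.nY hφW, fun g hg => hnK g (hXY hg),
    fun g hg => nYX g (hKY' hg), fun g hg => hnK g (hKY' hg), hab, v, hv1,
    fun m hm => hm.2 v hvW, hv2, d, hd, hv3⟩

theorem step1 (hP : Stmt_P) [IsAlgClosed k] [FiniteDimensional k V] {p t u : ℕ} {φ : E}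
    {Q Y K : Subgroup E} (qy : QY p t u φ Q Y K)
    (htk : (t : k) ≠ 0) {W : Submodule k V} (hYW : InvS ρ Y W) (hQW : InvS ρ Q W)
    (hφW : Inv ρ φ W) (hyp : HYP t φ Q Y K (kr ρ Y W))
    {X : Subgroup E} (h0 : kr ρ Y W ≤ X) (hXY : X ≤ Y) (nYX : NzS Y X) (nQX : NzS Q X)
    (nφX : Nz φ X) (hab : ∀ a ∈ X, ∀ b ∈ X, ⁅a, b⁆ ∈ kr ρ Y W)
    (hnc : ¬ ∀ a ∈ X, ∀ b ∈ Y, ⁅a, b⁆ ∈ kr ρ Y W) : CA ρ φ Y K := by
  have : Fact p.Prime := ⟨qy.hp⟩
  have : Fact t.Prime := ⟨qy.ht⟩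
  by_contra hA
  apply hnc
  have hXc : (Nat.card X : k) ≠ 0 := card_ne_zero_of_isPGroup (qy.hY.to_le hXY) htk
  have hXW : InvS ρ X W := fun g hg => hYW g (hXY hg)
  have hABX : AbOn ρ X W := fun x hx y hy => of_comm_mem_kr (hXW x hx) (hXW y hy) (hab x hx y hy)
  have key := hP E p t u φ Q Y K (kr ρ Y W) qy kr_le hyp (Submodule k V)
    (fun g U => U.map (ρ g)) (fun U => map_one_rho U) (fun g h U => map_mul_rho g h U)
    (wts ρ X W) (fun U hU => wts_map nφX hφW hU) (fun g hg U hU => wts_map (nQX g hg) (hQW g hg) hU)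
    (fun g hg U hU => wts_map (nYX g hg) (hYW g hg) hU)
    (fun n hn U hU => map_of_triv fun w hw => hn.2 w (wts_le hU hw))
    (fun U hU hmov x hx => by
      by_contra hx'
      exact hA (useA qy htk hYW hφW h0 hXY nYX nφX hab hU hmov hx (Or.inl hx')))
  intro a ha b hb
  have h1 := comm_of_wts_fixed (ρ := ρ) (nYX b hb) (hYW b hb) (wts_sup hXc hXW hABX)
    (fun U hU => key b hb U hU) a ha
  have haY := hXY ha
  refine comm_mem_kr ?_ (hYW a haY) (hYW b hb) h1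
  rw [commutatorElement_def]
  exact Y.mul_mem (Y.mul_mem (Y.mul_mem haY hb) (Y.inv_mem haY)) (Y.inv_mem hb)

/-- a subgroup containing the generators contains `gen` -/
theorem gen_le {Q K M : Subgroup E} (h : ∀ g ∈ Q, ∀ x ∈ K, g * x * g⁻¹ ∈ M) : gen Q K ≤ M := by
  rw [gen, closure_le]
  rintro _ ⟨g, hg, x, hx, rfl⟩
  exact h g hg x hx

theorem mem_gen {Q K : Subgroup E} {g x : E} (hg : g ∈ Q) (hx : x ∈ K) :
    g * x * g⁻¹ ∈ gen Q K := subset_closure ⟨g, hg, x, hx, rfl⟩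

theorem comm_mem_self {Y : Subgroup E} {a b : E} (ha : a ∈ Y) (hb : b ∈ Y) : ⁅a, b⁆ ∈ Y := by
  rw [commutatorElement_def]
  exact Y.mul_mem (Y.mul_mem (Y.mul_mem ha hb) (Y.inv_mem ha)) (Y.inv_mem hb)

theorem comm_mem_self' {Y : Subgroup E} {x y c : E} (hx : x ∈ Y) (hy : y ∈ Y)
    (h : c = x * y⁻¹) : c ∈ Y := by
  rw [h]; exact Y.mul_mem hx (Y.inv_mem hy)

theorem K_nontriv {p t u : ℕ} {φ : E} {Q Y K : Subgroup E} (qy : QY p t u φ Q Y K)
    {W : Submodule k V} (hQW : InvS ρ Q W) (hg : Y ≤ gen Q K ⊔ kr ρ Y W) (hnt : ¬ Triv ρ Y W) :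
    ¬ Triv ρ K W := by
  intro hK
  apply hnt
  have h1 : gen Q K ≤ kr ρ Y W := by
    apply gen_le
    intro g hg x hx
    exact kr_nz (qy.nQY g hg) (hQW g hg) x ⟨(mem_fx.1 (qy.hK hx)).1, hK x hx⟩
  intro y hy
  exact ((hg.trans (sup_le h1 le_rfl)) hy).2

theorem HYP_sub {p t u : ℕ} {φ : E} {Q Y K : Subgroup E} (qy : QY p t u φ Q Y K)
    {W U : Submodule k V} (hUW : U ≤ W) (hUφ : U.map (ρ φ) = U)
    (htriv : ∀ g ∈ Q, (U.map (ρ g)).map (ρ φ) ≠ U.map (ρ g) → Triv ρ K (U.map (ρ g)))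
    (hyp : HYP t φ Q Y K (kr ρ Y W)) :
    Nz φ (stb ρ Q U) ∧ HYP t φ (stb ρ Q U) Y K (kr ρ Y U) := by
  have : Fact p.Prime := ⟨qy.hp⟩
  have : Fact u.Prime := ⟨qy.hu⟩
  have hns : Nz φ (stb ρ Q U) := by
    rintro g ⟨hg, hg'⟩
    refine ⟨qy.nQ g hg, ?_⟩
    rw [map_mul_rho, map_mul_rho, map_inv_of_fixed hUφ, hg', hUφ]
  refine ⟨hns, ?_⟩
  have hcard : ¬ p ∣ Nat.card (stb ρ Q U) :=
    not_dvd_card_of_isPGroup qy.hpu (qy.hQ.to_le (fun x hx => hx.1))
  have claim : ∀ g ∈ Q, (∃ h ∈ stb ρ Q U, ∃ c ∈ fx Q φ, g = h * c) ∨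
      (∀ x ∈ K, g * x * g⁻¹ ∈ kr ρ Y U) := by
    intro g hg
    by_cases hm : (U.map (ρ g⁻¹)).map (ρ φ) = U.map (ρ g⁻¹)
    · left
      have h1 : (g⁻¹)⁻¹ * (φ * g⁻¹ * φ⁻¹) ∈ stb ρ Q U := by
        refine ⟨Q.mul_mem (by simpa using hg) (qy.nQ _ (Q.inv_mem hg)), ?_⟩
        rw [inv_inv, map_mul_rho, map_mul_rho, map_mul_rho, map_inv_of_fixed hUφ, hm,
          ← map_mul_rho, mul_inv_cancel, map_one_rho]
      obtain ⟨n, hn, h2⟩ := cp_fix1 qy.hφ hcard hns h1
      refine ⟨n, hn, (g⁻¹ * n)⁻¹, ?_, by group⟩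
      rw [mem_fx]
      refine ⟨Q.inv_mem (Q.mul_mem (Q.inv_mem hg) hn.1), ?_⟩
      have h3 : Commute φ (g⁻¹ * n) := h2
      exact h3.inv_right
    · right
      intro x hx
      have hxY := (mem_fx.1 (qy.hK hx)).1
      refine ⟨qy.nQY g hg x hxY, fun w hw => ?_⟩
      have h1 := htriv g⁻¹ (Q.inv_mem hg) hm x hx (ρ g⁻¹ w) ⟨w, hw, rfl⟩
      rw [rho_mul_apply, rho_mul_apply, h1, ← rho_mul_apply, mul_inv_cancel, rho_one_apply]
  have hconj : ∀ h c x : E, (h * c) * x * (h * c)⁻¹ = h * (c * x * c⁻¹) * h⁻¹ := by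
    intro h c x; group
  constructor
  · refine hyp.1.trans (sup_le (gen_le ?_) ((kr_anti hUW).trans le_sup_right))
    intro g hg x hx
    rcases claim g hg with ⟨h, hh, c, hc, rfl⟩ | h
    · rw [hconj]
      exact le_sup_left (α := Subgroup E) (mem_gen hh (qy.hKQ c hc x hx))
    · exact le_sup_right (α := Subgroup E) (h x hx)
  · intro S M hS hφS hNM hPM hMY h1 h2 h3
    refine hyp.2 S M (hS.trans fun x hx => hx.1) hφS ((kr_anti hUW).trans hNM) hPM hMY h1 h2 ?_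
    intro g hg hgs x hx
    rcases claim g hg with ⟨h, hh, c, hc, rfl⟩ | h
    · rw [hconj]
      refine h3 h hh ?_ _ (qy.hKQ c hc x hx)
      rintro s hs c' hc' rfl
      refine hgs s hs (c' * c) ?_ (by group)
      exact (fx Q φ).mul_mem ⟨hc'.1.1, hc'.2⟩ hc
    · exact hNM (h x hx)

/-- `Y = [Y, [Q, φ]] N0` -/
theorem Y_gen {p t u : ℕ} {φ : E} {Q Y K N0 : Subgroup E} (qy : QY p t u φ Q Y K)
    (hN0 : N0 ≤ Y) (hφN : Nz φ N0) (hQN : NzS Q N0) (hYN : NzS Y N0)
    (hyp : HYP t φ Q Y K N0) : Y ≤ ⁅Y, cm Q φ⁆ ⊔ N0 := by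
  have : Fact p.Prime := ⟨qy.hp⟩
  have : Fact t.Prime := ⟨qy.ht⟩
  set H := cm Q φ with hH
  have hHQ : H ≤ Q := cm_le qy.nQ
  have hHY : NzS H Y := fun g hg => qy.nQY g (hHQ hg)
  have hYH : ⁅Y, H⁆ ≤ Y := comm_le_left hHY
  set M1 : Subgroup E := Phi t Y ⊔ ⁅Y, H⁆ ⊔ N0 with hM1
  have hM1Y : M1 ≤ Y := sup_le (sup_le Phi_le hYH) hN0
  have hcY : cm Y φ ≤ Y := cm_le qy.nY
  -- `Q` normalises `M1`
  have nzc : ∀ g : E, Nz g Y → Nz g H → Nz g ⁅Y, H⁆ := by
    intro g h1 h2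
    rw [Subgroup.commutator_def]
    apply Nz.closure
    rintro x ⟨a, ha, b, hb, rfl⟩
    refine subset_closure ⟨_, h1 a ha, _, h2 b hb, ?_⟩
    simp only [commutatorElement_def]; group
  have hQM1 : NzS Q M1 := by
    intro g hg
    refine ((Phi_nz (qy.nQY g hg)).sup (nzc g (qy.nQY g hg) ?_)).sup (hQN g hg)
    exact cm_nzS Q φ g hg
  have hφM1 : Nz φ M1 := by
    refine ((Phi_nz qy.nY).sup (nzc φ qy.nY (cm_nz_self Q φ))).sup hφN
  set M2 : Subgroup E := M1 ⊔ cm Y φ with hM2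
  have hM2Y : M2 ≤ Y := sup_le hM1Y hcY
  have hYM2 : NzS Y M2 := by
    intro g hg
    refine Nz.sup ?_ (cm_nzS Y φ g hg)
    intro x hx
    have h1 : ⁅g, x⁆ ∈ M1 := by
      refine (le_sup_left (α := Subgroup E)).trans le_sup_left ?_
      exact subset_closure (Or.inl ⟨g, hg, x, hM1Y hx, rfl⟩)
    have e : g * x * g⁻¹ = ⁅g, x⁆ * x := by rw [commutatorElement_def]; group
    rw [e]; exact M1.mul_mem h1 hx
  have hQM2 : NzS Q M2 := by
    intro g hg
    have hle : M2 ≤ M2.comap (MulAut.conj g).toMonoidHom := by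
      refine sup_le ?_ ?_
      · intro x hx
        exact le_sup_left (α := Subgroup E) (hQM1 g hg x hx)
      · refine cm_le_of' qy.nY ?_
        intro x hx
        change g * ⁅x, φ⁆ * g⁻¹ ∈ M2
        have hx' : g * x * g⁻¹ ∈ Y := qy.nQY g hg x hx
        have hh : ⁅g, φ⁆ ∈ H := comm_mem_cm hg
        have hw : ⁅g * x * g⁻¹, φ⁆ ∈ cm Y φ := comm_mem_cm hx'
        have e : g * ⁅x, φ⁆ * g⁻¹ = ⁅g * x * g⁻¹, ⁅g, φ⁆⁆ * ((⁅⁅g * x * g⁻¹, φ⁆, ⁅g, φ⁆⁆)⁻¹ *
            ⁅g * x * g⁻¹, φ⁆) := by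
          simp only [commutatorElement_def]; group
        have hYHM : ⁅Y, H⁆ ≤ M2 := (le_sup_right.trans le_sup_left).trans le_sup_left
        rw [e]
        refine M2.mul_mem (hYHM (commutator_mem_commutator hx' hh)) (M2.mul_mem (M2.inv_mem
          (hYHM (commutator_mem_commutator (hcY hw) hh))) (le_sup_right (α := Subgroup E) hw))
    intro x hx
    exact hle hx
  have hKM2 : K ≤ M2 := by
    refine hyp.2 Q M2 le_rfl qy.nQ (le_sup_right.trans le_sup_left)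
      ((le_sup_left.trans le_sup_left).trans le_sup_left) hM2Y ?_ ?_ ?_
    · intro y hy
      rw [← commutatorElement_inv]
      exact M2.inv_mem (le_sup_right (α := Subgroup E) (comm_mem_cm hy))
    · intro c hc y hy
      rw [← commutatorElement_inv]
      exact M2.inv_mem (((le_sup_right.trans le_sup_left).trans le_sup_left :
        ⁅Y, H⁆ ≤ M2) (commutator_mem_commutator hy hc))
    · intro g hg hgs
      exact absurd (mul_one g).symm (hgs g hg 1 (fx Q φ).one_mem)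
  have hYM2' : Y ≤ cm Y φ ⊔ M1 := by
    rw [sup_comm]
    refine hyp.1.trans (sup_le (gen_le ?_) (le_sup_right.trans le_sup_left))
    intro g hg x hx
    exact hQM2 g hg x (hKM2 hx)
  have hKM1 : K ≤ M1 := by
    intro x hx
    have hx' := mem_fx.1 (qy.hK hx)
    refine fx_abelian (n := 1) (by simpa using qy.hφ) (not_dvd_card_of_isPGroup qy.hpt qy.hY)
      qy.nY hM1Y hφM1 ?_ hYM2' hx'.1 ?_
    · intro a ha b hb
      refine ((le_sup_left.trans le_sup_left : Phi t Y ≤ M1)) ?_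
      exact subset_closure (Or.inl ⟨a, ha, b, hb, rfl⟩)
    · rw [commutatorElement_eq_one_iff_mul_comm.2 hx'.2]
      exact M1.one_mem
  have hYM1 : Y ≤ M1 := by
    refine hyp.1.trans (sup_le (gen_le ?_) le_sup_right)
    intro g hg x hx
    exact hQM1 g hg x (hKM1 hx)
  have hfin : ⁅Y, H⁆ ⊔ N0 = Y := by
    refine Phi_gen qy.hY (sup_le hYH hN0) (hYM1.trans ?_)
    rw [hM1]
    refine sup_le (sup_le le_sup_right (le_sup_left.trans le_sup_left))
      (le_sup_right.trans le_sup_left)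
  exact hfin.ge

theorem step_ind (hP : Stmt_P) (hNZ : Stmt_NZ) [IsAlgClosed k] [FiniteDimensional k V]
    (p t u : ℕ) (φ : E) (Y K : Subgroup E) (hpk : (p : k) ≠ 0) (htk : (t : k) ≠ 0) (n : ℕ) :
    ∀ (Q : Subgroup E) (W : Submodule k V), Module.finrank k W ≤ n → QY p t u φ Q Y K →
    InvS ρ Y W → InvS ρ Q W → Inv ρ φ W → ¬ Triv ρ Y W → HYP t φ Q Y K (kr ρ Y W) →
    CA ρ φ Y K ∨ CB ρ φ Y K := by
  induction n with
  | zero =>
    intro Q W hn qy hYW hQW hφW hnt hyp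
    exfalso; apply hnt
    have h0 : W = ⊥ := Submodule.finrank_eq_zero.1 (by omega)
    subst h0
    intro g _ w hw
    rw [Submodule.mem_bot] at hw
    subst hw; simp
  | succ n ih =>
    intro Q W0 hn0 qy hYW0 hQW0 hφW0 hnt0 hyp0
    have : Fact p.Prime := ⟨qy.hp⟩
    have : Fact t.Prime := ⟨qy.ht⟩
    have : Fact u.Prime := ⟨qy.hu⟩
    have hcY : (Nat.card Y : k) ≠ 0 := card_ne_zero_of_isPGroup qy.hY htk
    -- an irreducible subspace
    set A : Set E := (Y : Set E) ∪ (Q : Set E) ∪ {φ} with hA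
    have hW1 : W0 ⊓ LinearMap.ker (sm ρ Y) ≠ ⊥ := by
      intro hbot
      apply hnt0
      intro y hy w hw
      have h1 : ρ y w - w ∈ W0 ⊓ LinearMap.ker (sm ρ Y) := by
        refine ⟨W0.sub_mem (hYW0 y hy w hw) hw, ?_⟩
        rw [SetLike.mem_coe, LinearMap.mem_ker, map_sub, sm_rho hy, sub_self]
      rw [hbot, Submodule.mem_bot, sub_eq_zero] at h1
      exact h1
    have hinv1 : ∀ g : E, Nz g Y → Inv ρ g W0 → Inv ρ g (W0 ⊓ LinearMap.ker (sm ρ Y)) := by
      intro g hg hgW w hw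
      refine ⟨hgW w hw.1, ?_⟩
      have h2 : sm ρ Y w = 0 := hw.2
      rw [SetLike.mem_coe, LinearMap.mem_ker, ← sm_comm hg, h2, map_zero]
    obtain ⟨W, hWle, hWne, hWA, hWmin⟩ := exists_irr (ρ := ρ) A hW1 (by
      rintro g ((hg | hg) | hg)
      · exact hinv1 g (Nz.of_mem hg) (hYW0 g hg)
      · exact hinv1 g (qy.nQY g hg) (hQW0 g hg)
      · rw [Set.mem_singleton_iff] at hg
        subst hg
        exact hinv1 _ qy.nY hφW0)
    have hYW : InvS ρ Y W := fun g hg => hWA g (Or.inl (Or.inl hg))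
    have hQW : InvS ρ Q W := fun g hg => hWA g (Or.inl (Or.inr hg))
    have hφW : Inv ρ φ W := hWA φ (Or.inr rfl)
    have hWW0 : W ≤ W0 := hWle.trans inf_le_left
    have hsmW : ∀ w ∈ W, sm ρ Y w = 0 := fun w hw => (hWle hw).2
    have hnt : ¬ Triv ρ Y W := by
      intro h
      apply hWne
      rw [Submodule.eq_bot_iff]
      intro w hw
      exact eq_zero_of_fixed hcY (fun x hx => h x hx w hw) (hsmW w hw)
    have hn : Module.finrank k W ≤ n + 1 := (Submodule.finrank_mono hWW0).trans hn0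
    have hyp : HYP t φ Q Y K (kr ρ Y W) := by
      refine ⟨hyp0.1.trans (sup_le le_sup_left ((kr_anti hWW0).trans le_sup_right)), ?_⟩
      intro S M hS hφS hNM
      exact hyp0.2 S M hS hφS ((kr_anti hWW0).trans hNM)
    have hKY : K ≤ Y := fun x hx => (mem_fx.1 (qy.hK hx)).1
    have hYN : NzS Y (kr ρ Y W) := fun g hg => kr_nz (Nz.of_mem hg) (hYW g hg)
    have hQN : NzS Q (kr ρ Y W) := fun g hg => kr_nz (qy.nQY g hg) (hQW g hg)
    have hφN : Nz φ (kr ρ Y W) := kr_nz qy.nY hφW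
    by_cases hX : ∃ X : Subgroup E, kr ρ Y W ≤ X ∧ X ≤ Y ∧ NzS Y X ∧ NzS Q X ∧ Nz φ X ∧
        (∀ a ∈ X, ∀ b ∈ X, ⁅a, b⁆ ∈ kr ρ Y W) ∧ ¬ ∀ a ∈ X, ∀ b ∈ Y, ⁅a, b⁆ ∈ kr ρ Y W
    · obtain ⟨X, h0, hXY, nYX, nQX, nφX, hab, hnc⟩ := hX
      exact Or.inl (step1 hP qy htk hYW hQW hφW hyp h0 hXY nYX nQX nφX hab hnc)
    · have hX' : ∀ X : Subgroup E, kr ρ Y W ≤ X → X ≤ Y → NzS Y X → NzS Q X → Nz φ X →
          (∀ a ∈ X, ∀ b ∈ X, ⁅a, b⁆ ∈ kr ρ Y W) → ∀ a ∈ X, ∀ b ∈ Y, ⁅a, b⁆ ∈ kr ρ Y W := by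
        intro X h1 h2 h3 h4 h5 h6
        by_contra h7
        exact hX ⟨X, h1, h2, h3, h4, h5, h6, h7⟩
      have hcl : ∀ a ∈ Y, ∀ b ∈ Y, ∀ c ∈ Y, ⁅⁅a, b⁆, c⁆ ∈ kr ρ Y W := by
        refine class_two qy.hY kr_le hYN (A := (Q : Set E) ∪ {φ}) ?_ ?_
        · rintro g (hg | hg)
          · exact ⟨qy.nQY g hg, hQN g hg⟩
          · rw [Set.mem_singleton_iff] at hg
            subst hg
            exact ⟨qy.nY, hφN⟩
        · intro X h1 h2 h3 h4 h5
          exact hX' X h1 h2 h4 (fun g hg => h3 g (Or.inl hg)) (h3 φ (Or.inr rfl)) h5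
      set Z : Subgroup E := cen Y (kr ρ Y W) hYN with hZ
      have hZY : Z ≤ Y := fun x hx => hx.1
      have h0Z : kr ρ Y W ≤ Z := by
        intro x hx
        refine ⟨hx.1, fun y hy => ?_⟩
        have e : ⁅x, y⁆ = x * (y * x⁻¹ * y⁻¹) := by rw [commutatorElement_def]; group
        rw [e]
        exact (kr ρ Y W).mul_mem hx (hYN y hy _ ((kr ρ Y W).inv_mem hx))
      have nYZ : NzS Y Z := fun g hg => cen_nz (Nz.of_mem hg) (hYN g hg)
      have nQZ : NzS Q Z := fun g hg => cen_nz (qy.nQY g hg) (hQN g hg)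
      have nφZ : Nz φ Z := cen_nz qy.nY hφN
      have hZab : ∀ a ∈ Z, ∀ b ∈ Z, ⁅a, b⁆ ∈ kr ρ Y W := fun a ha b hb => ha.2 b (hZY hb)
      have hZW : InvS ρ Z W := fun g hg => hYW g (hZY hg)
      have hZc : (Nat.card Z : k) ≠ 0 := card_ne_zero_of_isPGroup (qy.hY.to_le hZY) htk
      have hABZ : AbOn ρ Z W := fun x hx y hy =>
        of_comm_mem_kr (hZW x hx) (hZW y hy) (hZab x hx y hy)
      have hsup := wts_sup hZc hZW hABZ
      have hYU : ∀ U ∈ wts ρ Z W, ∀ y ∈ Y, U.map (ρ y) = U := by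
        intro U hU y hy
        refine wts_fixed_of_comm (hYW y hy) ?_ hU
        intro x hx
        exact of_comm_mem_kr (hYW x (hZY hx)) (hYW y hy) (hx.2 y hy)
      by_cases hKU : ∃ U ∈ wts ρ Z W, U.map (ρ φ) ≠ U ∧ ¬ Triv ρ K U
      · obtain ⟨U, hU, hmov, hK⟩ := hKU
        left
        simp only [Triv, not_forall] at hK
        obtain ⟨d, hd, w, hw, hdw⟩ := hK
        exact useA qy htk hYW hφW h0Z hZY nYZ nφZ hZab hU hmov hd (Or.inr ⟨w, hw, hdw⟩)
      · have hKU' : ∀ U ∈ wts ρ Z W, U.map (ρ φ) ≠ U → Triv ρ K U := by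
          intro U hU hmov
          by_contra h
          exact hKU ⟨U, hU, hmov, h⟩
        have hKW : ¬ Triv ρ K W := K_nontriv qy hQW hyp.1 hnt
        obtain ⟨U, hU, hKnU⟩ : ∃ U ∈ wts ρ Z W, ¬ Triv ρ K U := by
          by_contra hall
          apply hKW
          intro x hx
          have hle : W ≤ LinearMap.ker (ρ x - 1) := by
            rw [← hsup]
            refine sSup_le fun U hU w hw => ?_
            have h1 : Triv ρ K U := by
              by_contra h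
              exact hall ⟨U, hU, h⟩
            rw [LinearMap.mem_ker, LinearMap.sub_apply, h1 x hx w hw, Module.End.one_apply,
              sub_self]
          intro w hw
          have h2 := hle hw
          rw [LinearMap.mem_ker, LinearMap.sub_apply, Module.End.one_apply, sub_eq_zero] at h2
          exact h2
        have hUφ : U.map (ρ φ) = U := by
          by_contra h
          exact hKnU (hKU' U hU h)
        have hUW : U ≤ W := wts_le hU
        by_cases hUeq : U = W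
        · -- `Z` acts by scalars on `W`
          right
          have hscal : ∀ x ∈ Z, Scal ρ x W := by
            intro x hx
            rw [← hUeq]
            exact wts_scal hU hx
          have hYg : Y ≤ ⁅Y, cm Q φ⁆ ⊔ kr ρ Y W := Y_gen qy kr_le hφN hQN hYN hyp
          have hYnZ : ¬ Y ≤ Z := by
            intro hYZ
            apply hnt
            have h1 : ⁅Y, cm Q φ⁆ ≤ kr ρ Y W := by
              rw [commutator_le]
              intro a ha b hb
              have hbQ : b ∈ Q := cm_le qy.nQ hb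
              refine comm_mem_kr ?_ (hYW a ha) (hQW b hbQ) ?_
              · have e : ⁅a, b⁆ = a * (b * a⁻¹ * b⁻¹) := by rw [commutatorElement_def]; group
                rw [e]
                exact Y.mul_mem ha (qy.nQY b hbQ _ (Y.inv_mem ha))
              · intro w hw
                obtain ⟨c, hc⟩ := hscal a (hYZ ha)
                rw [hc w hw, hc _ (hQW b hbQ w hw), map_smul]
            intro y hy
            exact ((hYg.trans (sup_le h1 le_rfl)) hy).2
          have hex : ∃ c ∈ K, ∃ x ∈ fx Y φ, ⁅c, x⁆ ∉ kr ρ Y W := by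
            by_contra hno
            have hno' : ∀ c ∈ K, ∀ x ∈ fx Y φ, ⁅c, x⁆ ∈ kr ρ Y W := by
              intro c hc x hx
              by_contra h
              exact hno ⟨c, hc, x, hx, h⟩
            apply hYnZ
            have hK1 : ∀ c ∈ K, ∀ x ∈ Y, ⁅c, x⁆ ∈ kr ρ Y W := by
              intro c hc
              have hcφ : φ * c = c * φ := (mem_fx.1 (qy.hK hc)).2
              let D : Subgroup E :=
                { carrier := {x | x ∈ Y ∧ ∀ w ∈ W, ρ c (ρ x w) = ρ x (ρ c w)}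
                  mul_mem' := by
                    rintro a b ⟨ha, ha'⟩ ⟨hb, hb'⟩
                    refine ⟨Y.mul_mem ha hb, fun w hw => ?_⟩
                    rw [rho_mul_apply, rho_mul_apply, ha' _ (hYW b hb w hw), hb' w hw]
                  one_mem' := ⟨Y.one_mem, fun w _ => by
                    rw [rho_one_apply, rho_one_apply]⟩
                  inv_mem' := by
                    rintro a ⟨ha, ha'⟩
                    refine ⟨Y.inv_mem ha, fun w hw => ?_⟩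
                    have h1 := ha' (ρ a⁻¹ w) (hYW _ (Y.inv_mem ha) w hw)
                    rw [rho_apply_inv] at h1
                    rw [h1, rho_inv_apply] }
              have hDcm : cm Y φ ≤ D := by
                refine cm_le_of' qy.nY ?_
                intro x hx
                have hφx : φ * x * φ⁻¹ ∈ Y := qy.nY x hx
                have e : ⁅x, φ⁆ = x * (φ * x * φ⁻¹)⁻¹ := by
                  rw [commutatorElement_def]; group
                refine ⟨comm_mem_self' hx hφx e, ?_⟩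
                obtain ⟨s, hs⟩ := hscal ⁅c, x⁆
                  ⟨comm_mem_self (hKY hc) hx, fun y hy => hcl c (hKY hc) x hx y hy⟩
                have P1 : ∀ w ∈ W, ρ c (ρ x w) = s • ρ x (ρ c w) := by
                  intro w hw
                  rw [← hs _ (hYW x hx _ (hYW c (hKY hc) w hw)), ← rho_mul_apply,
                    ← rho_mul_apply, ← rho_mul_apply]
                  congr 2
                  rw [commutatorElement_def]; group
                have P2 : ∀ w ∈ W, ρ c (ρ (φ * x * φ⁻¹) w) = s • ρ (φ * x * φ⁻¹) (ρ c w) := by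
                  intro w hw
                  have h1 := congrArg (ρ φ) (P1 _ (hφW.inv w hw))
                  rw [map_smul, ← rho_mul_apply, ← rho_mul_apply, ← rho_mul_apply,
                    ← rho_mul_apply, ← rho_mul_apply, ← rho_mul_apply] at h1
                  rw [← rho_mul_apply, ← rho_mul_apply]
                  have e1 : c * (φ * x * φ⁻¹) = φ * c * x * φ⁻¹ := by
                    rw [hcφ]; group
                  have e2 : φ * x * φ⁻¹ * c = φ * x * c * φ⁻¹ := by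
                    have : φ⁻¹ * c = c * φ⁻¹ := by
                      rw [inv_mul_eq_iff_eq_mul, ← mul_assoc, hcφ, mul_inv_cancel_right]
                    rw [mul_assoc, this]; group
                  rw [e1, e2]
                  exact h1
                intro w hw
                have hw' : ρ (φ * x * φ⁻¹)⁻¹ w ∈ W := hYW _ (Y.inv_mem hφx) w hw
                have h2 := P2 _ hw'
                rw [rho_apply_inv] at h2
                rw [e, rho_mul_apply, rho_mul_apply, P1 _ hw', h2, map_smul, rho_inv_apply,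
                  map_smul]
              intro x hx
              obtain ⟨d, hd, c', hc', rfl⟩ := cm_decomp (n := 1) (by simpa using qy.hφ)
                (not_dvd_card_of_isPGroup qy.hpt qy.hY) qy.nY hx
              have hc'D : c' ∈ D := ⟨(mem_fx.1 hc').1,
                of_comm_mem_kr (hYW c (hKY hc)) (hYW c' (mem_fx.1 hc').1) (hno' c hc c' hc')⟩
              have hD := D.mul_mem (hDcm hd) hc'D
              exact comm_mem_kr (comm_mem_self (hKY hc) hD.1) (hYW c (hKY hc)) (hYW _ hD.1) hD.2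
            have hKZ : K ≤ Z := fun c hc => ⟨hKY hc, hK1 c hc⟩
            exact hyp.1.trans (sup_le (gen_le fun g hg x hx => nQZ g hg x (hKZ hx)) h0Z)
          obtain ⟨c, hc, x, hx, hz⟩ := hex
          have hxY := (mem_fx.1 hx).1
          have hzK : ⁅c, x⁆ ∈ K := by
            have e : ⁅c, x⁆ = c * (x * c⁻¹ * x⁻¹) := by rw [commutatorElement_def]; group
            rw [e]
            exact K.mul_mem hc (qy.hKY x hx _ (K.inv_mem hc))
          have hzZ : ⁅c, x⁆ ∈ Z := ⟨hKY hzK, fun y hy => hcl c (hKY hc) x hxY y hy⟩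
          have hHQ : cm Q φ ≤ Q := cm_le qy.nQ
          obtain ⟨v, hvW, hv0, hv1, hv2⟩ := hNZ k E V ρ p t u φ Y (cm Q φ) (kr ρ Y W) W qy.hp
            qy.ht qy.hu qy.hpt qy.hpu qy.htu qy.hφ hpk htk qy.hY (qy.hQ.to_le hHQ) qy.nY
            (cm_nz_self Q φ) (fun g hg => qy.nQY g (hHQ hg))
            (cm_cm (n := 1) (by simpa using qy.hφ)
              (not_dvd_card_of_isPGroup qy.hpu qy.hQ) qy.nQ).ge hYW
            (fun g hg => hQW g (hHQ hg)) hφW kr_triv hYg hnt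
          refine ⟨kr ρ Y W, ⁅c, x⁆, hzK, kr_le, hφN, hYN,
            fun w hw => hcl c (hKY hc) x hxY w hw, v, hv0, hv1, fun m hm => hm.2 v hvW, hv2, ?_⟩
          obtain ⟨s, hs⟩ := hscal _ hzZ
          have hs1 : s ≠ 1 := by
            rintro rfl
            exact hz ⟨hKY hzK, fun w hw => by rw [hs w hw, one_smul]⟩
          have hzW : InvS ρ (zpowers ⁅c, x⁆) W := InvS.zpowers (hYW _ (hKY hzK))
          have h3 := hs _ (sm_mem hzW hvW)
          rw [rho_sm (mem_zpowers _)] at h3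
          have h4 : (s - 1) • sm ρ (zpowers ⁅c, x⁆) v = 0 := by
            rw [sub_smul, one_smul, ← h3, sub_self]
          rcases smul_eq_zero.1 h4 with h5 | h5
          · exact absurd (sub_eq_zero.1 h5) hs1
          · exact h5
        · -- induction
          obtain ⟨hns, hyp'⟩ := HYP_sub qy hUW hUφ (fun g hg => hKU' _
            (wts_map (nQZ g hg) (hQW g hg) hU)) hyp
          refine ih (stb ρ Q U) U ?_ (QY.sub qy (fun x hx => hx.1) hns)
            (fun y hy => inv_of_map (hYU U hU y hy)) (fun g hg => inv_of_map hg.2)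
            (inv_of_map hUφ) (fun h => hKnU fun x hx => h x (hKY hx)) hyp'
          have hlt : Module.finrank k U < Module.finrank k W :=
            Submodule.finrank_lt_finrank_of_lt (lt_of_le_of_ne hUW hUeq)
          omega

end main

end StepAux

open StepAux in
/-- **STEP** -/
theorem stmt_STEP (hP : Stmt_P) (hNZ : Stmt_NZ) : Stmt_STEP := by
  intro k E V _ _ _ _ _ _ _ ρ p t u φ Q Y K qy hpk htk hyp hnt
  have hYt : InvS ρ Y (⊤ : Submodule k V) := fun _ _ _ _ => Submodule.mem_top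
  have hQt : InvS ρ Q (⊤ : Submodule k V) := fun _ _ _ _ => Submodule.mem_top
  have hφt : Inv ρ φ (⊤ : Submodule k V) := fun _ _ => Submodule.mem_top
  have hyp' : HYP t φ Q Y K (kr ρ Y (⊤ : Submodule k V)) := by
    refine ⟨hyp.1.trans (sup_le le_sup_left bot_le), ?_⟩
    intro S M hS hφS _
    exact hyp.2 S M hS hφS bot_le
  refine step_ind hP hNZ p t u φ Y K hpk htk _ Q ⊤ le_rfl qy hYt hQt hφt ?_ hyp'
  obtain ⟨y, hy, v, hv⟩ := hnt
  intro h
  exact hv (h y hy v Submodule.mem_top)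

end Pool.FH
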