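import Pool.Agent.Work.MP_4c212b_al.QMOD

/-!
# Common core of the blocks SUCA and SUCB
-/

set_option autoImplicit false

open Subgroup
open scoped commutatorElement TensorProduct

namespace Pool.FH

namespace SucAux

theorem NzS_sup_left {E : Type} [Group E] [Finite E] {A B H : Subgroup E} (h1 : NzS A H)
    (h2 : NzS B H) : NzS (A ⊔ B) H := by
  have h : A ⊔ B ≤ normalizer (H : Set E) := sup_le (Nz.le_normalizer h1) (Nz.le_normalizer h2)
  intro g hg x hx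
  exact (mem_normalizer_iff.1 (h hg) x).1 hx

theorem mem_sup_of_nz' {E : Type} [Group E] [Finite E] {N Y : Subgroup E} (hN : NzS Y N) {x : E}
    (hx : x ∈ N ⊔ Y) : ∃ n ∈ N, ∃ w ∈ Y, x = n * w := by
  let K : Subgroup E :=
    { carrier := {x | ∃ n ∈ N, ∃ w ∈ Y, x = n * w}
      mul_mem' := by
        rintro _ _ ⟨n, hn, w, hw, rfl⟩ ⟨n', hn', w', hw', rfl⟩
        refine ⟨n * (w * n' * w⁻¹), N.mul_mem hn (hN w hw n' hn'), w * w', Y.mul_mem hw hw', ?_⟩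
        group
      one_mem' := ⟨1, N.one_mem, 1, Y.one_mem, by simp⟩
      inv_mem' := by
        rintro _ ⟨n, hn, w, hw, rfl⟩
        refine ⟨w⁻¹ * n⁻¹ * w⁻¹⁻¹, hN _ (Y.inv_mem hw) _ (N.inv_mem hn), w⁻¹, Y.inv_mem hw, ?_⟩
        group }
  have hle : N ⊔ Y ≤ K := sup_le (fun n hn => ⟨n, hn, 1, Y.one_mem, by simp⟩)
    (fun w hw => ⟨1, N.one_mem, w, hw, by simp⟩)
  exact hle hx

theorem not_dvd_sup {E : Type} [Group E] [Finite E] {s : ℕ} [Fact s.Prime] {A B : Subgroup E}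
    (h : NzS A B) (hA : ¬ s ∣ Nat.card A) (hB : ¬ s ∣ Nat.card B) : ¬ s ∣ Nat.card ↥(B ⊔ A) := by
  intro hd
  obtain ⟨x, hx⟩ := exists_prime_orderOf_dvd_card' (G := ↥(B ⊔ A)) s hd
  obtain ⟨b, hb, a, ha, hba⟩ := mem_sup_of_nz' h x.2
  have hxs : (x : E) ^ s = 1 := by
    have h1 := pow_orderOf_eq_one x
    rw [hx] at h1
    rw [← Subgroup.coe_pow, h1, coe_one]
  have key : ∀ n : ℕ, ∃ c ∈ B, (b * a) ^ n = c * a ^ n := by
    intro n
    induction n with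
    | zero => exact ⟨1, B.one_mem, by simp⟩
    | succ n ih =>
      obtain ⟨c, hc, hcn⟩ := ih
      refine ⟨c * (a ^ n * b * (a ^ n)⁻¹), B.mul_mem hc ((h a ha).pow n b hb), ?_⟩
      rw [pow_succ, hcn, pow_succ]; group
  obtain ⟨c, hc, hcn⟩ := key s
  rw [← hba, hxs] at hcn
  have has : a ^ s ∈ B := by
    have h1 : a ^ s = c⁻¹ := by
      rw [eq_inv_iff_mul_eq_one]
      have := hcn.symm
      calc a ^ s * c = c⁻¹ * (c * a ^ s) * c := by group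
        _ = 1 := by rw [this]; group
    rw [h1]; exact B.inv_mem hc
  have hoa : Nat.Coprime (orderOf a) s := by
    refine ((Nat.Prime.coprime_iff_not_dvd Fact.out).2 fun hd => hA (hd.trans ?_)).symm
    have := orderOf_dvd_natCard (⟨a, ha⟩ : A)
    rwa [← Subgroup.orderOf_coe] at this
  obtain ⟨u, hu⟩ := exists_pow_eq_self_of_coprime hoa.symm
  have haB : a ∈ B := by rw [← hu]; exact B.pow_mem has u
  have hxB : (x : E) ∈ B := by rw [hba]; exact B.mul_mem hb haB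
  apply hB
  have h2 : orderOf (x : E) ∣ Nat.card B := by
    have := orderOf_dvd_natCard (⟨(x : E), hxB⟩ : B)
    rwa [← Subgroup.orderOf_coe] at this
  rw [Subgroup.orderOf_coe, hx] at h2
  exact h2

/-- A `ρ`-equivariant map commutes with the sum operators. -/
theorem sm_map {k E V : Type} [Field k] [Group E] [Finite E] [AddCommGroup V] [Module k V]
    {ρ : Representation k E V} {H : Subgroup E} (π : V →ₗ[k] V) {v : V}
    (h : ∀ g ∈ H, π (ρ g v) = ρ g (π v)) : π (sm ρ H v) = sm ρ H (π v) := by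
  classical
  have _ : Fintype H := Fintype.ofFinite H
  unfold sm
  rw [finsum_eq_sum_of_fintype, LinearMap.sum_apply, LinearMap.sum_apply, map_sum]
  exact Finset.sum_congr rfl fun g _ => h g g.2

theorem core (hT : Stmt_TRANS) (hL : Stmt_LIFT) (S : Sys) (κ s : ℕ) [Fact s.Prime] (M : Mod S s)
    (t q : ℕ) (X D : Subgroup S.next.Γ) (U : Submodule (ZMod s) M.V)
    (ht : t.Prime) (hq : q.Prime) (hts : t ≠ s) (hqs : q ≠ s) (hsp : s ≠ S.p) (htp : t ≠ S.p)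
    (hXG : X ≤ S.next.G) (hX : IsPGroup t X) (hφX : Nz S.next.φ X) (hD : IsPGroup q D)
    (hDB : D ≤ S.next.B (κ + 1)) (hDX : NzS D X)
    (hU : Irr M.ρ ((X ⊔ D ⊔ zpowers S.next.φ : Subgroup S.next.Γ) : Set S.next.Γ) U)
    (hfree : ∀ w ∈ U, (∀ c ∈ cm X S.next.φ, M.ρ c w = w) → w = 0)
    (hex : ∃ u ∈ U, M.ρ S.next.φ u = u ∧ ∃ d ∈ D, M.ρ d u ≠ u) :
    ∃ Q Y : Subgroup S.Γ, Q ≤ S.G ∧ Y ≤ Op s S.G ∧ Y ≠ ⊥ ∧ IsPGroup t Q ∧ Nz S.φ Q ∧
      Nz S.φ Y ∧ NzS Q Y ∧ QY S.p s t S.φ Q Y (Y ⊓ S.B κ) ∧ Y ≤ gen Q (Y ⊓ S.B κ) ∧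
      Y ≤ ⁅Y, cm Q S.φ⁆ ⊔ Phi s Y ∧
      ((∀ a ∈ X, ∀ b ∈ X, ∀ w ∈ U, M.ρ ⁅a, b⁆ w = w) →
        ∀ a ∈ Q, ∀ b ∈ Q, ∀ y ∈ Y, ⁅⁅a, b⁆, y⁆ ∈ Phi s Y) ∧
      ((∀ w ∈ U, M.ρ S.next.φ w = w →
          ∃ w' ∈ U, M.ρ S.next.φ w' = w' ∧ ∃ d ∈ D, w = w' - M.ρ d w') →
        ∀ y ∈ fx Y S.φ, y ∈ (Y ⊓ S.B κ) ⊔ Phi s Y) := by
  classical
  have _ : Fact t.Prime := ⟨ht⟩
  have _ : Fact q.Prime := ⟨hq⟩
  have _ : Fact S.p.Prime := S.hp
  let P1 : Subgroup S.next.Γ := X ⊔ D ⊔ zpowers S.next.φ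
  have hφp : S.next.φ ^ S.p = 1 := S.next.hφ
  have hDG : D ≤ S.next.G := fun d hd => fx_le (S.next.hBC (κ + 1) (hDB hd))
  have hDφ : ∀ d ∈ D, S.next.φ * d = d * S.next.φ := fun d hd =>
    (mem_fx.1 (S.next.hBC (κ + 1) (hDB hd))).2
  have hXP : X ≤ P1 := le_sup_left.trans le_sup_left
  have hDP : D ≤ P1 := le_sup_right.trans le_sup_left
  have hφP : S.next.φ ∈ P1 := (le_sup_right : zpowers S.next.φ ≤ P1) (mem_zpowers _)
  have hzp : ∀ {H : Subgroup S.next.Γ}, Nz S.next.φ H → NzS (zpowers S.next.φ) H := by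
    rintro H h _ ⟨k, rfl⟩
    exact h.zpow k
  have hPX : NzS P1 X := NzS_sup_left (NzS_sup_left (fun g hg => Nz.of_mem hg) hDX) (hzp hφX)
  have hφD : Nz S.next.φ D := by
    intro d hd
    rw [hDφ d hd, mul_inv_cancel_right]
    exact hd
  have hP1s : ¬ s ∣ Nat.card P1 := by
    apply not_dvd_sup
    · exact hzp (hφX.sup hφD)
    · exact not_dvd_card_of_isPGroup hsp (isPGroup_zpowers (n := 1) (by rw [pow_one]; exact hφp))
    · apply not_dvd_sup hDX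
      · exact not_dvd_card_of_isPGroup hqs.symm hD
      · exact not_dvd_card_of_isPGroup hts.symm hX
  obtain ⟨H, X', Y', hφH, hHP, hX'H, hX'G, hX't, hφX', hX'X, hHs, hY'O, hHY', hY1, hY2, hY3⟩ :=
    hL S s M t P1 X U ht hts hsp hφP (sup_le ((sup_le hXG hDG).trans le_sup_left) le_sup_right)
      hP1s hXP hXG hX hPX hU
  have hkerpr : ∀ x : S.Γ, S.pr x = 1 ↔ x ∈ Ft S.G := by
    intro x
    rw [← S.ker_pr, MonoidHom.mem_ker]
  have hOn : ∀ g, Nz g (Op s S.G) := fun g => Op_nz s (Nz.of_normal g S.G)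
  -- the total function
  let F : S.Γ → M.V := fun y => if h : y ∈ Op s S.G then M.f ⟨y, h⟩ else 0
  have F_def : ∀ y (h : y ∈ Op s S.G), F y = M.f ⟨y, h⟩ := fun y h => dif_pos h
  have F_mul : ∀ a ∈ Op s S.G, ∀ b ∈ Op s S.G, F (a * b) = F a + F b := by
    intro a ha b hb
    rw [F_def a ha, F_def b hb, F_def _ (mul_mem ha hb), ← M.f_mul]
    rfl
  have F_one : F 1 = 0 := by
    have h := F_mul 1 (one_mem _) 1 (one_mem _)
    rw [mul_one] at h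
    exact left_eq_add.1 h
  have F_inv : ∀ a ∈ Op s S.G, F a⁻¹ = - F a := by
    intro a ha
    have h := F_mul a⁻¹ (inv_mem ha) a ha
    rw [inv_mul_cancel, F_one] at h
    exact eq_neg_of_add_eq_zero_left h.symm
  have F_conj : ∀ g, ∀ a ∈ Op s S.G, F (g * a * g⁻¹) = M.ρ (S.pr g) (F a) := by
    intro g a ha
    rw [F_def a ha, F_def _ (hOn g a ha)]
    exact M.f_equiv g ⟨a, ha⟩ ⟨g * a * g⁻¹, hOn g a ha⟩ rfl
  have F_U : ∀ y ∈ Y', F y ∈ U := by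
    intro y hy
    rw [F_def y (hY'O hy)]
    exact hY1 _ hy
  have F_cov : ∀ u ∈ U, ∃ y ∈ Y', F y = u := by
    intro u hu
    obtain ⟨y, hy, rfl⟩ := hY2 u hu
    exact ⟨y, hy, F_def y y.2⟩
  have F_ker : ∀ y ∈ Y', F y = 0 → y ∈ Phi s Y' := by
    intro y hy h
    rw [F_def y (hY'O hy)] at h
    exact hY3 ⟨y, hY'O hy⟩ hy h
  clear_value F
  have hφY' : Nz S.φ Y' := hHY' _ hφH
  have hcopG : ∀ {N : Subgroup S.Γ}, N ≤ S.G → ¬ S.p ∣ Nat.card N := fun h => S.cop_of_le h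
  have hY'G : Y' ≤ S.G := hY'O.trans (Op_le s S.G)
  -- (a) lifting of fixed points
  have liftfix : ∀ u ∈ U, M.ρ S.next.φ u = u → ∃ y ∈ Y', S.φ * y = y * S.φ ∧ F y = u := by
    intro u hu hφu
    obtain ⟨y, hy, rfl⟩ := F_cov u hu
    let M0 : Subgroup S.Γ :=
      { carrier := {z | z ∈ Y' ∧ F z = 0}
        mul_mem' := by
          rintro a b ⟨ha, ha'⟩ ⟨hb, hb'⟩
          exact ⟨mul_mem ha hb, by rw [F_mul a (hY'O ha) b (hY'O hb), ha', hb', add_zero]⟩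
        one_mem' := ⟨one_mem _, F_one⟩
        inv_mem' := by
          rintro a ⟨ha, ha'⟩
          exact ⟨inv_mem ha, by rw [F_inv a (hY'O ha), ha', neg_zero]⟩ }
    have hM0 : M0 ≤ Y' := fun z hz => hz.1
    have hM0φ : Nz S.φ M0 := by
      rintro z ⟨hz, hz'⟩
      exact ⟨hφY' z hz, by rw [F_conj _ z (hY'O hz), hz', map_zero]⟩
    obtain ⟨n, hn, h⟩ := cp_fix1 S.hφ (hcopG (hM0.trans hY'G)) hM0φ (g := y)
      (by
        refine ⟨mul_mem (inv_mem hy) (hφY' y hy), ?_⟩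
        rw [F_mul _ (inv_mem (hY'O hy)) _ (hOn _ y (hY'O hy)), F_inv y (hY'O hy),
          F_conj _ y (hY'O hy)]
        have h1 : M.ρ (S.pr S.φ) (F y) = F y := hφu
        rw [h1, neg_add_cancel])
    refine ⟨y * n, mul_mem hy hn.1, h, ?_⟩
    rw [F_mul y (hY'O hy) n (hY'O hn.1), hn.2, add_zero]
  -- (b) lifting of `D`
  have liftD : ∀ d ∈ D, ∃ d' ∈ H, d' ∈ S.G ∧ S.φ * d' = d' * S.φ ∧ (∃ n : ℕ, d' ^ q ^ n = 1) ∧
      S.pr d' = d := by
    intro d hd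
    have h1 := hDP hd
    rw [← hHP] at h1
    obtain ⟨h, hh, rfl⟩ := h1
    have hhG : h ∈ S.G := by
      obtain ⟨g, hg, hgx⟩ := hDG hd
      have h1 : g⁻¹ * h ∈ Ft S.G := by
        rw [← hkerpr, map_mul, map_inv, inv_mul_eq_one]
        exact hgx
      have h2 := S.G.mul_mem hg (Ft_le _ h1)
      rwa [mul_inv_cancel_left] at h2
    obtain ⟨n, hn, hc⟩ := cp_fix1 S.hφ (N := H ⊓ Ft S.G) (hcopG (inf_le_right.trans (Ft_le _)))
      ((Nz.of_mem hφH).inf (Ft_nz (Nz.of_normal _ S.G))) (g := h)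
      (by
        refine ⟨H.mul_mem (H.inv_mem hh) (H.mul_mem (H.mul_mem hφH hh) (H.inv_mem hφH)),
          (hkerpr _).1 ?_⟩
        rw [map_mul, map_mul, map_mul, map_inv, map_inv]
        have h1 : S.pr S.φ * S.pr h = S.pr h * S.pr S.φ := hDφ _ hd
        rw [h1, mul_inv_cancel_right, inv_mul_cancel])
    have hpr : S.pr (h * n) = S.pr h := by
      rw [map_mul, (hkerpr n).2 hn.2, mul_one]
    obtain ⟨a, ha⟩ := hD ⟨S.pr h, hd⟩
    have ha' : (S.pr (h * n)) ^ q ^ a = 1 := by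
      rw [hpr]; exact congrArg Subtype.val ha
    obtain ⟨u, hu, b, hb⟩ := lift_pelt S.pr hq ha'
    refine ⟨(h * n) ^ u, H.pow_mem (H.mul_mem hh hn.1) u,
      S.G.pow_mem (S.G.mul_mem hhG (Ft_le _ hn.2)) u, ?_, ⟨b, hb⟩, by rw [hu, hpr]⟩
    have h2 : Commute S.φ (h * n) := hc
    exact (h2.pow_right u).eq
  -- (c) commutators
  have hcomm : ∀ y ∈ Y', S.φ * y = y * S.φ → ∀ d ∈ D, ∃ z ∈ Y' ⊓ S.B κ,
      F z = F y - M.ρ d (F y) := by
    intro y hy hφy d hd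
    obtain ⟨d', hd'H, hd'G, hd'φ, hd'q, rfl⟩ := liftD d hd
    have h1 : ⁅y, d'⁆ ∈ S.B κ := hT S κ s q y d' Fact.out hq hqs.symm (hY'O hy) hφy hd'G hd'φ
      hd'q (hDB hd)
    have h2 : ⁅y, d'⁆ = y * (d' * y⁻¹ * d'⁻¹) := by
      simp only [commutatorElement_def]; group
    have h3 : d' * y⁻¹ * d'⁻¹ ∈ Y' := hHY' d' hd'H _ (inv_mem hy)
    refine ⟨⁅y, d'⁆, ⟨by rw [h2]; exact mul_mem hy h3, h1⟩, ?_⟩
    rw [h2, F_mul y (hY'O hy) _ (hY'O h3), F_conj d' _ (inv_mem (hY'O hy)), F_inv y (hY'O hy),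
      map_neg, sub_eq_add_neg]
  -- the subgroup `K'`
  let K' : Subgroup S.Γ := Y' ⊓ S.B κ
  have hK'φ : ∀ k ∈ K', S.φ * k = k * S.φ := fun k hk => (mem_fx.1 (S.hBC κ hk.2)).2
  have hBn : ∀ c ∈ S.G, S.φ * c = c * S.φ → Nz c (S.B κ) := fun c hc hc' =>
    S.hBn κ c (mem_fx.2 ⟨hc, hc'⟩)
  have hX'Y' : NzS X' Y' := fun g hg => hHY' g (hX'H hg)
  have hQY : QY S.p s t S.φ X' Y' K' :=
    { hp := Fact.out
      ht := Fact.out
      hu := ht
      hpt := hsp.symm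
      hpu := htp.symm
      htu := hts.symm
      hφ := S.hφ
      hQ := hX't
      hY := (Op_isP s S.G).to_le hY'O
      nQ := hφX'
      nY := hφY'
      nQY := hX'Y'
      hK := fun k hk => mem_fx.2 ⟨hk.1, hK'φ k hk⟩
      hKY := fun c hc => (Nz.of_mem (mem_fx.1 hc).1).inf
        (hBn c (hY'G (mem_fx.1 hc).1) (mem_fx.1 hc).2)
      hKQ := fun c hc => (hX'Y' c (mem_fx.1 hc).1).inf
        (hBn c (hX'G (mem_fx.1 hc).1) (mem_fx.1 hc).2) }
  -- the submodule generated by `K'`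
  let A : Submodule (ZMod s) M.V := Submodule.span (ZMod s)
    {w | ∃ x ∈ X, ∃ k ∈ K', w = M.ρ x (F k)}
  have ρmul : ∀ (g h : S.next.Γ) (v : M.V), M.ρ (g * h) v = M.ρ g (M.ρ h v) := by
    intro g h v
    rw [map_mul]; rfl
  have hinv : ∀ g : S.next.Γ, (∀ x ∈ X, ∀ k ∈ K', M.ρ g (M.ρ x (F k)) ∈ A) → Inv M.ρ g A := by
    intro g hg w hw
    have h1 : A ≤ A.comap (M.ρ g) := by
      apply Submodule.span_le.2
      rintro _ ⟨x, hx, k, hk, rfl⟩
      exact hg x hx k hk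
    exact h1 hw
  have hAX : InvS M.ρ X A := by
    intro g hg
    apply hinv
    intro x hx k hk
    rw [← ρmul]
    exact Submodule.subset_span ⟨g * x, X.mul_mem hg hx, k, hk, rfl⟩
  have hAφ : Inv M.ρ S.next.φ A := by
    apply hinv
    intro x hx k hk
    have h1 : M.ρ S.next.φ (F k) = F k := by
      have h2 := F_conj S.φ k (hY'O hk.1)
      rw [hK'φ k hk, mul_inv_cancel_right] at h2
      exact h2.symm
    have h3 : S.next.φ * x = (S.next.φ * x * S.next.φ⁻¹) * S.next.φ := by group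
    rw [← ρmul, h3, ρmul, h1]
    exact Submodule.subset_span ⟨_, hφX x hx, k, hk, rfl⟩
  have hAD : InvS M.ρ D A := by
    intro d hd
    apply hinv
    intro x hx k hk
    obtain ⟨d', hd'H, hd'G, hd'φ, hd'q, hd'⟩ := liftD d hd
    have h1 : M.ρ d (F k) = F (d' * k * d'⁻¹) := by
      rw [F_conj d' k (hY'O hk.1), hd']
    have h3 : d * x = (d * x * d⁻¹) * d := by group
    rw [← ρmul, h3, ρmul, h1]
    exact Submodule.subset_span ⟨_, hDX d hd x hx, _,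
      ⟨hHY' d' hd'H k hk.1, hBn d' hd'G hd'φ k hk.2⟩, rfl⟩
  have hstab : ∀ (B : Submodule (ZMod s) M.V), InvS M.ρ X B → InvS M.ρ D B →
      Inv M.ρ S.next.φ B → InvS M.ρ P1 B := fun B h1 h2 h3 =>
    (h1.sup h2).sup (InvS.zpowers h3)
  have hAU : A ≤ U := by
    apply Submodule.span_le.2
    rintro _ ⟨x, hx, k, hk, rfl⟩
    exact hU.2.1 x (hXP hx) _ (F_U k hk.1)
  have hA0 : A ≠ ⊥ := by
    obtain ⟨u, hu, hφu, d, hd, hdu⟩ := hex
    obtain ⟨y, hy, hφy, rfl⟩ := liftfix u hu hφu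
    obtain ⟨z, hz, hzF⟩ := hcomm y hy hφy d hd
    intro hA
    have h1 : F z ∈ A := Submodule.subset_span ⟨1, X.one_mem, z, hz, by rw [map_one]; rfl⟩
    rw [hA, Submodule.mem_bot, hzF, sub_eq_zero] at h1
    exact hdu h1.symm
  have hAeq : A = U := hU.2.2 A hAU hA0 (fun g hg => hstab A hAX hAD hAφ g hg)
  have hK'Y' : K' ≤ Y' := inf_le_left
  have hgenle : gen X' K' ≤ Y' := by
    unfold gen
    rw [closure_le]
    rintro _ ⟨g, hg, k, hk, rfl⟩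
    exact hX'Y' g hg k hk.1
  have hgenF : ∀ w ∈ A, ∃ y ∈ gen X' K', F y = w := by
    let G0 : AddSubgroup M.V :=
      { carrier := {w | ∃ y ∈ gen X' K', F y = w}
        add_mem' := by
          rintro _ _ ⟨a, ha, rfl⟩ ⟨b, hb, rfl⟩
          exact ⟨a * b, mul_mem ha hb, F_mul a (hY'O (hgenle ha)) b (hY'O (hgenle hb))⟩
        zero_mem' := ⟨1, one_mem _, F_one⟩
        neg_mem' := by
          rintro _ ⟨a, ha, rfl⟩
          exact ⟨a⁻¹, inv_mem ha, F_inv a (hY'O (hgenle ha))⟩ }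
    have h1 : A ≤ AddSubgroup.toZModSubmodule s G0 := by
      apply Submodule.span_le.2
      rintro _ ⟨x, hx, k, hk, rfl⟩
      rw [← hX'X] at hx
      obtain ⟨x', hx', rfl⟩ := hx
      exact ⟨x' * k * x'⁻¹, subset_closure ⟨x', hx', k, hk, rfl⟩, F_conj x' k (hY'O hk.1)⟩
    intro w hw
    exact h1 hw
  have hPhiY : Y' ≤ gen X' K' ⊔ Phi s Y' := by
    intro y hy
    obtain ⟨g, hg, hgF⟩ := hgenF (F y) (by rw [hAeq]; exact F_U y hy)
    have h1 : g⁻¹ * y ∈ Phi s Y' := by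
      apply F_ker _ (mul_mem (inv_mem (hgenle hg)) hy)
      rw [F_mul _ (inv_mem (hY'O (hgenle hg))) y (hY'O hy), F_inv g (hY'O (hgenle hg)), hgF,
        neg_add_cancel]
    have h2 : y = g * (g⁻¹ * y) := by group
    rw [h2]
    exact mul_mem ((le_sup_left : gen X' K' ≤ _) hg) ((le_sup_right : Phi s Y' ≤ _) h1)
  have hgen : gen X' K' = Y' := Phi_gen hQY.hY hgenle hPhiY
  have hcmX : (cm X' S.φ).map S.pr = cm X S.next.φ := by
    unfold cm
    rw [map_commutator, hX'X, MonoidHom.map_zpowers]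
    rfl
  refine ⟨X', Y', hX'G, hY'O, ?_, hX't, hφX', hφY', hX'Y', hQY, hgen.ge, ?_, ?_, ?_⟩
  · -- nontriviality
    rintro rfl
    apply hU.1
    rw [Submodule.eq_bot_iff]
    intro u hu
    obtain ⟨y, hy, rfl⟩ := F_cov u hu
    rw [mem_bot] at hy
    rw [hy, F_one]
  · -- `Y = [Y, [X', φ]] Φ(Y)`
    intro y hy
    have hC : NzS (cm X' S.φ) Y' := fun c hc => hX'Y' c (cm_le hφX' hc)
    obtain ⟨d, hd, c, hc, rfl⟩ := cp_decomp (p := t) (Y := Y') (P := cm X' S.φ)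
      (hX't.to_le (cm_le hφX')) (not_dvd_card_of_isPGroup hts hQY.hY) hC hy
    rw [mem_fxS] at hc
    have h1 : c ∈ Phi s Y' := by
      apply F_ker c hc.1
      apply hfree _ (F_U c hc.1)
      intro a ha
      rw [← hcmX] at ha
      obtain ⟨a', ha', rfl⟩ := ha
      rw [← F_conj a' c (hY'O hc.1), hc.2 a' ha', mul_inv_cancel_right]
    exact mul_mem ((le_sup_left : ⁅Y', cm X' S.φ⁆ ≤ _) hd) ((le_sup_right : Phi s Y' ≤ _) h1)
  · -- commutators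
    intro hab a ha b hb y hy
    have h1 : ⁅⁅a, b⁆, y⁆ = (⁅a, b⁆ * y * ⁅a, b⁆⁻¹) * y⁻¹ := by
      rw [commutatorElement_def ⁅a, b⁆ y]
    have hc : ⁅a, b⁆ ∈ X' := by
      rw [commutatorElement_def]
      exact mul_mem (mul_mem (mul_mem ha hb) (inv_mem ha)) (inv_mem hb)
    have h2 : ⁅a, b⁆ * y * ⁅a, b⁆⁻¹ ∈ Y' := hX'Y' _ hc y hy
    apply F_ker
    · rw [h1]; exact mul_mem h2 (inv_mem hy)
    · rw [h1, F_mul _ (hY'O h2) _ (inv_mem (hY'O hy)), F_conj _ y (hY'O hy), F_inv y (hY'O hy)]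
      have h3 : S.pr ⁅a, b⁆ = ⁅S.pr a, S.pr b⁆ := map_commutatorElement _ _ _
      have ha' : S.pr a ∈ X := by rw [← hX'X]; exact ⟨a, ha, rfl⟩
      have hb' : S.pr b ∈ X := by rw [← hX'X]; exact ⟨b, hb, rfl⟩
      rw [h3, hab _ ha' _ hb' _ (F_U y hy), add_neg_cancel]
  · -- fullness
    intro hfull y hy
    rw [mem_fx] at hy
    have h1 : M.ρ S.next.φ (F y) = F y := by
      have h2 := F_conj S.φ y (hY'O hy.1)
      rw [hy.2, mul_inv_cancel_right] at h2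
      exact h2.symm
    obtain ⟨w', hw', hφw', d, hd, hw⟩ := hfull (F y) (F_U y hy.1) h1
    obtain ⟨x, hx, hφx, rfl⟩ := liftfix w' hw' hφw'
    obtain ⟨z, hz, hzF⟩ := hcomm x hx hφx d hd
    have h3 : z⁻¹ * y ∈ Phi s Y' := by
      apply F_ker _ (mul_mem (inv_mem hz.1) hy.1)
      rw [F_mul _ (inv_mem (hY'O hz.1)) y (hY'O hy.1), F_inv z (hY'O hz.1), hzF, ← hw,
        neg_add_cancel]
    have h4 : y = z * (z⁻¹ * y) := by group
    rw [h4]
    exact mul_mem ((le_sup_left : Y' ⊓ S.B κ ≤ _) hz) ((le_sup_right : Phi s Y' ≤ _) h3)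

/-- The vectors of `U` fixed by `N`. -/
def fixs {k E V : Type} [Field k] [Group E] [AddCommGroup V] [Module k V]
    (ρ : Representation k E V) (N : Subgroup E) (U : Submodule k V) : Submodule k V where
  carrier := {w | w ∈ U ∧ ∀ n ∈ N, ρ n w = w}
  add_mem' := by
    rintro a b ⟨ha, ha'⟩ ⟨hb, hb'⟩
    exact ⟨U.add_mem ha hb, fun n hn => by rw [map_add, ha' n hn, hb' n hn]⟩
  zero_mem' := ⟨U.zero_mem, fun n _ => map_zero _⟩
  smul_mem' := by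
    rintro c a ⟨ha, ha'⟩
    exact ⟨U.smul_mem c ha, fun n hn => by rw [map_smul, ha' n hn]⟩

theorem fixs_inv {k E V : Type} [Field k] [Group E] [Finite E] [AddCommGroup V] [Module k V]
    {ρ : Representation k E V} {N : Subgroup E} {U : Submodule k V} {g : E} (h1 : Inv ρ g U)
    (h2 : Nz g N) : Inv ρ g (fixs ρ N U) := by
  rintro w ⟨hw, hw'⟩
  refine ⟨h1 w hw, fun n hn => ?_⟩
  have h3 := h2.inv n hn
  rw [inv_inv] at h3
  have h4 : n * g = g * (g⁻¹ * n * g) := by group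
  have h5 : ρ n (ρ g w) = ρ (n * g) w := by rw [map_mul]; rfl
  have h6 : ρ (g * (g⁻¹ * n * g)) w = ρ g (ρ (g⁻¹ * n * g) w) := by rw [map_mul]; rfl
  rw [h5, h4, h6, hw' _ h3]

theorem irrpart {k E V : Type} [Field k] [Group E] [Finite E] [AddCommGroup V] [Module k V]
    [FiniteDimensional k V] {ρ : Representation k E V} {P1 X N : Subgroup E} {φ : E}
    (hP : (Nat.card P1 : k) ≠ 0) (hC : (Nat.card (cm X φ) : k) ≠ 0) (hXP : X ≤ P1) (hφP : φ ∈ P1)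
    (hNX : N ≤ X) (hNP : NzS P1 N) (hCX : cm X φ ≤ X) (hCP : NzS P1 (cm X φ)) (T : V →ₗ[k] V)
    (hT : ∀ U : Submodule k V, InvS ρ P1 U → ∀ u ∈ U, T u ∈ U) {v : V} (h1 : ρ φ v = v)
    (h2 : ∀ n ∈ N, ρ n v = v) (h3 : sm ρ (cm X φ) v = 0) (h4 : T v ≠ 0) :
    ∃ U, Irr ρ (P1 : Set E) U ∧ (∀ n ∈ N, ∀ w ∈ U, ρ n w = w) ∧
      (∀ w ∈ U, (∀ c ∈ cm X φ, ρ c w = w) → w = 0) ∧
      ∃ u ∈ U, ρ φ u = u ∧ T u ≠ 0 ∧ u ≠ 0 ∧ ∀ Z ≤ P1, sm ρ Z v = 0 → sm ρ Z u = 0 := by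
  obtain ⟨U, -, hU, π, hπ1, hπ2, hπ3⟩ := exists_irr_component hP (W := ⊤)
    (fun g _ w _ => Submodule.mem_top) (w := v) Submodule.mem_top T hT h4
  have hsm : ∀ Z ≤ P1, sm ρ Z v = 0 → sm ρ Z (π v) = 0 := by
    intro Z hZ h
    rw [← sm_map π (fun g hg => hπ2 g (hZ hg) v Submodule.mem_top), h, map_zero]
  have hu : π v ∈ U := hπ1 v Submodule.mem_top
  have hu0 : π v ≠ 0 := by
    intro h
    rw [h, map_zero] at hπ3
    exact hπ3 rfl
  refine ⟨U, hU, ?_, ?_, π v, hu, ?_, hπ3, hu0, hsm⟩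
  · have hW : fixs ρ N U = U := by
      apply hU.2.2 (fixs ρ N U) (fun w hw => hw.1)
      · intro h
        apply hu0
        rw [← Submodule.mem_bot (R := k), ← h]
        refine ⟨hu, fun n hn => ?_⟩
        rw [← hπ2 n (hXP (hNX hn)) v Submodule.mem_top, h2 n hn]
      · exact fun g hg => fixs_inv (hU.2.1 g hg) (hNP g hg)
    intro n hn w hw
    rw [← hW] at hw
    exact hw.2 n hn
  · intro w hw hfix
    by_contra hw0
    have hW : fixs ρ (cm X φ) U = U := by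
      apply hU.2.2 (fixs ρ (cm X φ) U) (fun w hw => hw.1)
      · intro h
        apply hw0
        rw [← Submodule.mem_bot (R := k), ← h]
        exact ⟨hw, hfix⟩
      · exact fun g hg => fixs_inv (hU.2.1 g hg) (hCP g hg)
    have h5 : π v ∈ fixs ρ (cm X φ) U := by rw [hW]; exact hu
    exact hu0 (eq_zero_of_fixed hC h5.2 (hsm _ (hCX.trans hXP) h3))
  · rw [← hπ2 φ hφP v Submodule.mem_top, h1]

theorem natCast_ne_zero_of_not_dvd {s n : ℕ} (h : ¬ s ∣ n) : (n : ZMod s) ≠ 0 := by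
  rw [Ne, ZMod.natCast_eq_zero_iff]
  exact h

/-- the common geometric facts on `P1 = X D ⟨φ⟩` -/
theorem P1_facts {E : Type} [Group E] [Finite E] {p s t q : ℕ} [Fact p.Prime] [Fact s.Prime]
    [Fact t.Prime] [Fact q.Prime] (hts : t ≠ s) (hqs : q ≠ s) (hsp : s ≠ p) {φ : E}
    (hφ : φ ^ p = 1) {X D N : Subgroup E} (hX : IsPGroup t X) (hD : IsPGroup q D)
    (hφX : Nz φ X) (hφN : Nz φ N) (hXN : NzS X N) (hDX : NzS D X) (hDN : NzS D N)
    (hDφ : ∀ d ∈ D, φ * d = d * φ) :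
    ¬ s ∣ Nat.card ↥(X ⊔ D ⊔ zpowers φ) ∧ NzS (X ⊔ D ⊔ zpowers φ) N ∧
      NzS (X ⊔ D ⊔ zpowers φ) (cm X φ) := by
  have hzp : ∀ {H : Subgroup E}, Nz φ H → NzS (zpowers φ) H := by
    rintro H h _ ⟨k, rfl⟩
    exact h.zpow k
  have hφD : Nz φ D := by
    intro d hd
    rw [hDφ d hd, mul_inv_cancel_right]
    exact hd
  refine ⟨?_, NzS_sup_left (NzS_sup_left hXN hDN) (hzp hφN),
    NzS_sup_left (NzS_sup_left (cm_nzS X φ)
      fun d hd => cm_nz (hDX d hd) (hDφ d hd).symm) (hzp (cm_nz_self X φ))⟩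
  apply not_dvd_sup
  · exact hzp (hφX.sup hφD)
  · exact not_dvd_card_of_isPGroup hsp (isPGroup_zpowers (n := 1) (by rw [pow_one]; exact hφ))
  · apply not_dvd_sup hDX
    · exact not_dvd_card_of_isPGroup hqs.symm hD
    · exact not_dvd_card_of_isPGroup hts.symm hX

/-- if `t = p` then `X` is trivial -/
theorem cm_fixed_of_eq {k E V : Type} [Field k] [Group E] [Finite E] [AddCommGroup V] [Module k V]
    {ρ : Representation k E V} {p : ℕ} [Fact p.Prime] {X G : Subgroup E} {φ : E}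
    (hXG : X ≤ G) (hG : ¬ p ∣ Nat.card G) (hX : IsPGroup p X) (hφX : Nz φ X) (v : V) :
    ∀ c ∈ cm X φ, ρ c v = v := by
  intro c hc
  have hc1 := cm_le hφX hc
  have hp : ¬ p ∣ Nat.card X := fun h => hG (h.trans (card_dvd_of_le hXG))
  obtain ⟨k, hk⟩ := (IsPGroup.iff_card).1 hX
  have hk0 : k = 0 := by
    by_contra h0
    apply hp
    rw [hk]
    exact dvd_pow_self p h0
  rw [hk0, pow_zero, Subgroup.card_eq_one] at hk
  rw [hk, mem_bot] at hc1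
  rw [hc1, map_one]; rfl

end SucAux

open SucAux

theorem stmt_SUCA (hT : Stmt_TRANS) (hL : Stmt_LIFT) (hA : Stmt_TPA) : Stmt_SUCA := by
  intro S κ s _ M t q X N D ht hq hts hqs hsp hXG hX hφX hNX hφN hXN hab hD hDB hDX hDN hgood
  obtain ⟨v, v1, v2, v3, d, hd, hdv⟩ := hgood
  have _ : Fact t.Prime := ⟨ht⟩
  have _ : Fact q.Prime := ⟨hq⟩
  have _ : Fact S.p.Prime := S.hp
  have hDφ : ∀ d ∈ D, S.next.φ * d = d * S.next.φ := fun d hd =>
    (mem_fx.1 (S.next.hBC (κ + 1) (hDB hd))).2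
  have hC : (Nat.card (cm X S.next.φ) : ZMod s) ≠ 0 :=
    natCast_ne_zero_of_not_dvd (not_dvd_card_of_isPGroup hts.symm (hX.to_le (cm_le hφX)))
  have htp : t ≠ S.p := by
    rintro rfl
    have h1 := eq_zero_of_fixed hC (cm_fixed_of_eq hXG S.next.cop hX hφX v) v3
    rw [h1, map_zero] at hdv
    exact hdv rfl
  obtain ⟨f1, f2, f3⟩ := P1_facts (p := S.p) (s := s) hts hqs hsp S.next.hφ hX hD hφX hφN hXN hDX
    hDN hDφ
  obtain ⟨U, hU, hNU, hfree, u, hu, hφu, hdu, hu0, -⟩ := irrpart (ρ := M.ρ)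
    (P1 := X ⊔ D ⊔ zpowers S.next.φ) (natCast_ne_zero_of_not_dvd f1) hC
    (le_sup_left.trans le_sup_left)
    ((le_sup_right : zpowers S.next.φ ≤ X ⊔ D ⊔ zpowers S.next.φ) (mem_zpowers _)) hNX f2
    (cm_le hφX) f3 (M.ρ d - LinearMap.id)
    (by
      intro U hU u hu
      rw [LinearMap.sub_apply, LinearMap.id_apply]
      exact U.sub_mem (hU d ((le_sup_right.trans le_sup_left : D ≤ X ⊔ D ⊔ zpowers S.next.φ) hd)
        u hu) hu) v1 v2 v3
    (by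
      rw [LinearMap.sub_apply, LinearMap.id_apply, Ne, sub_eq_zero]
      exact hdv)
  rw [LinearMap.sub_apply, LinearMap.id_apply, Ne, sub_eq_zero] at hdu
  obtain ⟨Q, Y, c1, c2, c3, c4, c5, c6, c7, c8, c9, c10, c11, -⟩ := core hT hL S κ s M t q X D U
    ht hq hts hqs hsp htp hXG hX hφX hD hDB hDX hU hfree ⟨u, hu, hφu, d, hd, hdu⟩
  refine ⟨s, t, Fact.out, ht, hts.symm, htp, Q, Y, c1, c2, c3, c4, c5, c6, c7,
    c9.trans le_sup_left, ?_⟩
  exact hA S.Γ S.p s t S.φ Q Y (Y ⊓ S.B κ) ⊥ c8 bot_le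
    (c11 fun a ha b hb w hw => hNU _ (hab a ha b hb) w hw) c10

theorem stmt_SUCB (hT : Stmt_TRANS) (hL : Stmt_LIFT) (hB : Stmt_TPB) : Stmt_SUCB := by
  intro S κ s _ M t X N z ht hts hsp hXG hX hφX hNX hφN hXN hzX hzB hzN hgood
  obtain ⟨v, v0, v1, v2, v3, v4⟩ := hgood
  have _ : Fact t.Prime := ⟨ht⟩
  have _ : Fact S.p.Prime := S.hp
  let D : Subgroup S.next.Γ := zpowers z
  have hDX' : D ≤ X := zpowers_le.2 hzX
  have hDB : D ≤ S.next.B (κ + 1) := zpowers_le.2 hzB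
  have hD : IsPGroup t D := hX.to_le hDX'
  have hDX : NzS D X := fun g hg => Nz.of_mem (hDX' hg)
  have hDN : NzS D N := fun g hg => hXN g (hDX' hg)
  have hDφ : ∀ d ∈ D, S.next.φ * d = d * S.next.φ := fun d hd =>
    (mem_fx.1 (S.next.hBC (κ + 1) (hDB hd))).2
  have hC : (Nat.card (cm X S.next.φ) : ZMod s) ≠ 0 :=
    natCast_ne_zero_of_not_dvd (not_dvd_card_of_isPGroup hts.symm (hX.to_le (cm_le hφX)))
  have hCz : (Nat.card D : ZMod s) ≠ 0 :=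
    natCast_ne_zero_of_not_dvd (not_dvd_card_of_isPGroup hts.symm hD)
  have htp : t ≠ S.p := by
    rintro rfl
    exact v0 (eq_zero_of_fixed hC (cm_fixed_of_eq hXG S.next.cop hX hφX v) v3)
  obtain ⟨f1, f2, f3⟩ := P1_facts (p := S.p) (s := s) hts hts hsp S.next.hφ hX hD hφX hφN hXN hDX
    hDN hDφ
  have hXP : X ≤ X ⊔ D ⊔ zpowers S.next.φ := le_sup_left.trans le_sup_left
  obtain ⟨U, hU, hNU, hfree, u, hu, hφu, -, hu0, hsm⟩ := irrpart (ρ := M.ρ)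
    (P1 := X ⊔ D ⊔ zpowers S.next.φ) (natCast_ne_zero_of_not_dvd f1) hC hXP
    ((le_sup_right : zpowers S.next.φ ≤ X ⊔ D ⊔ zpowers S.next.φ) (mem_zpowers _)) hNX f2
    (cm_le hφX) f3 LinearMap.id (fun U _ u hu => hu) v1 v2 v3 v0
  have ρmul : ∀ (g h : S.next.Γ) (v : M.V), M.ρ (g * h) v = M.ρ g (M.ρ h v) := by
    intro g h v
    rw [map_mul]; rfl
  -- `z` has no fixed vectors on `U`
  have hzfree : ∀ w ∈ U, M.ρ z w = w → w = 0 := by
    intro w hw hfix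
    by_contra hw0
    let W3 : Submodule (ZMod s) M.V :=
      { carrier := {w | w ∈ U ∧ M.ρ z w = w}
        add_mem' := by
          rintro a b ⟨ha, ha'⟩ ⟨hb, hb'⟩
          exact ⟨U.add_mem ha hb, by rw [map_add, ha', hb']⟩
        zero_mem' := ⟨U.zero_mem, map_zero _⟩
        smul_mem' := by
          rintro c a ⟨ha, ha'⟩
          exact ⟨U.smul_mem c ha, by rw [map_smul, ha']⟩ }
    have h1 : InvS M.ρ X W3 := by
      rintro g hg w ⟨hw, hw'⟩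
      have hgw : M.ρ g w ∈ U := hU.2.1 g (hXP hg) w hw
      refine ⟨hgw, ?_⟩
      have h2 : z * g = ⁅z, g⁆ * (g * z) := by
        simp only [commutatorElement_def]; group
      rw [← ρmul, h2, ρmul, ρmul, hw']
      exact hNU _ (hzN g hg) _ hgw
    have h2 : InvS M.ρ D W3 := fun g hg => h1 g (hDX' hg)
    have h3 : Inv M.ρ S.next.φ W3 := by
      rintro w ⟨hw, hw'⟩
      refine ⟨hU.2.1 S.next.φ ((le_sup_right : zpowers S.next.φ ≤ X ⊔ D ⊔ zpowers S.next.φ)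
        (mem_zpowers _)) w hw, ?_⟩
      rw [← ρmul, ← hDφ z (mem_zpowers z), ρmul, hw']
    have hW : W3 = U := by
      apply hU.2.2 W3 (fun w hw => hw.1)
      · intro h
        apply hw0
        rw [← Submodule.mem_bot (R := ZMod s), ← h]
        exact ⟨hw, hfix⟩
      · exact fun g hg => ((h1.sup h2).sup (InvS.zpowers h3)) g hg
    have h5 : u ∈ W3 := by rw [hW]; exact hu
    apply hu0
    apply eq_zero_of_fixed hCz _ (hsm D (le_sup_right.trans le_sup_left) v4)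
    intro x hx
    obtain ⟨n, rfl⟩ := (Submonoid.mem_powers_iff _ _).1 (mem_powers_iff_mem_zpowers.2 hx)
    clear hx
    induction n with
    | zero => rw [pow_zero, map_one]; rfl
    | succ n ih => rw [pow_succ, ρmul, h5.2, ih]
  have hDz : z ∈ D := mem_zpowers z
  obtain ⟨Q, Y, c1, c2, c3, c4, c5, c6, c7, c8, c9, c10, -, c12⟩ := core hT hL S κ s M t t X D U
    ht ht hts hts hsp htp hXG hX hφX hD hDB hDX hU hfree
    ⟨u, hu, hφu, z, hDz, fun h => hu0 (hzfree u hu h)⟩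
  refine ⟨s, t, Fact.out, ht, hts.symm, htp, Q, Y, c1, c2, c3, c4, c5, c6, c7,
    c9.trans le_sup_left, ?_⟩
  refine hB S.Γ S.p s t S.φ Q Y (Y ⊓ S.B κ) ⊥ c8 bot_le (c12 ?_) c10
  -- surjectivity of `1 - z` on the fixed vectors
  let C : Submodule (ZMod s) M.V :=
    { carrier := {w | w ∈ U ∧ M.ρ S.next.φ w = w}
      add_mem' := by
        rintro a b ⟨ha, ha'⟩ ⟨hb, hb'⟩
        exact ⟨U.add_mem ha hb, by rw [map_add, ha', hb']⟩
      zero_mem' := ⟨U.zero_mem, map_zero _⟩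
      smul_mem' := by
        rintro c a ⟨ha, ha'⟩
        exact ⟨U.smul_mem c ha, by rw [map_smul, ha']⟩ }
  have hCz' : ∀ w ∈ C, ((LinearMap.id : M.V →ₗ[ZMod s] M.V) - M.ρ z) w ∈ C := by
    rintro w ⟨hw, hw'⟩
    rw [LinearMap.sub_apply, LinearMap.id_apply]
    refine ⟨U.sub_mem hw (hU.2.1 z (hXP hzX) w hw), ?_⟩
    rw [map_sub, hw', ← ρmul, hDφ z hDz, ρmul, hw']
  let g : C →ₗ[ZMod s] C := ((LinearMap.id : M.V →ₗ[ZMod s] M.V) - M.ρ z).restrict hCz'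
  have hinj : Function.Injective g := by
    rw [← LinearMap.ker_eq_bot, LinearMap.ker_eq_bot']
    rintro ⟨w, hw⟩ h
    have h1 : w - M.ρ z w = 0 := congrArg Subtype.val h
    apply Subtype.ext
    exact hzfree w hw.1 (sub_eq_zero.1 h1).symm
  have hsurj : Function.Surjective g := Finite.surjective_of_injective hinj
  intro w hw hφw
  obtain ⟨⟨w', hw'⟩, h⟩ := hsurj ⟨w, hw, hφw⟩
  have h1 : w' - M.ρ z w' = w := congrArg Subtype.val h
  exact ⟨w', hw'.1, hw'.2, z, hDz, h1.symm⟩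

end Pool.FH
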