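import Pool.Agent.Work.MP_4c212b_al.QMOD

/-!
# Blocks TPA and TPB
-/

set_option autoImplicit false

open Subgroup
open scoped commutatorElement

namespace Pool.FH

namespace H21T

/-- The representation of the normaliser `Γ` of the `t`-group `Y` on `Y/Φ(Y)`. -/
theorem qm {E : Type} [Group E] [Finite E] {t : ℕ} [Fact t.Prime] (Y : Subgroup E) :
    ∃ (Γ : Subgroup E) (V : Type) (_ : AddCommGroup V) (_ : Module (ZMod t) V) (_ : Finite V)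
      (ρ : Representation (ZMod t) ↥Γ V) (F : E → V), (∀ g, g ∈ Γ ↔ Nz g Y) ∧
      (∀ x ∈ Y, ∀ y ∈ Y, F (x * y) = F x + F y) ∧ (∀ x ∈ Y, F x = 0 ↔ x ∈ Phi t Y) ∧
      (∀ v, ∃ x ∈ Y, F x = v) ∧ (∀ (g : ↥Γ), ∀ x ∈ Y, F ((g : E) * x * (g : E)⁻¹) = ρ g (F x)) := by
  classical
  let Γ : Subgroup E :=
    { carrier := {g | Nz g Y}
      mul_mem' := fun ha hb => Nz.mul ha hb
      one_mem' := Nz.one Y
      inv_mem' := fun ha => Nz.inv ha }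
  have hΓ : ∀ g, g ∈ Γ ↔ Nz g Y := fun g => Iff.rfl
  have hYΓ : Y ≤ Γ := fun g hg => Nz.of_mem hg
  let X : Subgroup ↥Γ := Y.subgroupOf Γ
  let Z : Subgroup ↥Γ := (Phi t Y).subgroupOf Γ
  have hX : X.Normal := ⟨fun x hx g => by
    rw [mem_subgroupOf] at hx ⊢
    exact g.2 _ hx⟩
  have hZ : Z.Normal := ⟨fun x hx g => by
    rw [mem_subgroupOf] at hx ⊢
    exact Phi_nz ((hΓ _).1 g.2) _ hx⟩
  have hZX : Z ≤ X := fun x hx => by
    rw [mem_subgroupOf] at hx ⊢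
    exact Phi_le hx
  obtain ⟨V, i1, i2, i3, ρ, f, hf1, hf2, hf3, hf4⟩ := stmt_QMOD ↥Γ t X Z hZX
    (fun a ha b hb => by
      rw [mem_subgroupOf] at ha hb ⊢
      exact subset_closure (Or.inl ⟨a, ha, b, hb, by simp [commutatorElement_def]⟩))
    (fun a ha => by
      rw [mem_subgroupOf] at ha ⊢
      exact subset_closure (Or.inr ⟨a, ha, by simp⟩))
  let F : E → V := fun x => if hx : x ∈ Y then f ⟨⟨x, hYΓ hx⟩, by rw [mem_subgroupOf]; exact hx⟩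
    else 0
  have hF : ∀ x (hx : x ∈ Y), F x = f ⟨⟨x, hYΓ hx⟩, by rw [mem_subgroupOf]; exact hx⟩ :=
    fun x hx => dif_pos hx
  refine ⟨Γ, V, i1, i2, i3, ρ, F, hΓ, ?_, ?_, ?_, ?_⟩
  · intro x hx y hy
    rw [hF _ (Y.mul_mem hx hy), hF x hx, hF y hy, ← hf2]
    rfl
  · intro x hx
    rw [hF x hx, hf3, mem_subgroupOf]
  · intro v
    obtain ⟨⟨⟨x, hx1⟩, hx2⟩, hx⟩ := hf1 v
    have hx3 : x ∈ Y := by
      rw [mem_subgroupOf] at hx2
      exact hx2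
    exact ⟨x, hx3, by rw [hF x hx3, hx]⟩
  · intro g x hx
    have h1 : (g : E) * x * (g : E)⁻¹ ∈ Y := (hΓ _).1 g.2 x hx
    rw [hF _ h1, hF x hx]
    exact hf4 g _ _ rfl

/-- the image of a subgroup `M` of `Y` in `V` -/
theorem exists_sub {E V : Type} [Group E] {t : ℕ} [Fact t.Prime] [AddCommGroup V]
    [Module (ZMod t) V] (Y : Subgroup E) (F : E → V)
    (h1 : ∀ x ∈ Y, ∀ y ∈ Y, F (x * y) = F x + F y) (h2 : ∀ x ∈ Y, F x = 0 ↔ x ∈ Phi t Y)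
    (M : Subgroup E) (hM : Phi t Y ≤ M) (hMY : M ≤ Y) :
    ∃ U : Submodule (ZMod t) V, ∀ x ∈ Y, F x ∈ U ↔ x ∈ M := by
  have hF1 : F 1 = 0 := (h2 1 Y.one_mem).2 (Phi t Y).one_mem
  have hFi : ∀ x ∈ Y, F x⁻¹ = -F x := by
    intro x hx
    have h3 := h1 x⁻¹ (Y.inv_mem hx) x hx
    rw [inv_mul_cancel, hF1] at h3
    exact eq_neg_of_add_eq_zero_left h3.symm
  let A : AddSubgroup V :=
    { carrier := {v | ∃ x ∈ M, F x = v}
      add_mem' := by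
        rintro a b ⟨x, hx, rfl⟩ ⟨y, hy, rfl⟩
        exact ⟨x * y, M.mul_mem hx hy, h1 x (hMY hx) y (hMY hy)⟩
      zero_mem' := ⟨1, M.one_mem, hF1⟩
      neg_mem' := by
        rintro a ⟨x, hx, rfl⟩
        exact ⟨x⁻¹, M.inv_mem hx, hFi x (hMY hx)⟩ }
  refine ⟨AddSubgroup.toZModSubmodule t A, ?_⟩
  intro x hx
  constructor
  · rintro ⟨y, hy, hxy⟩
    have h3 : F (x * y⁻¹) = 0 := by
      rw [h1 x hx _ (Y.inv_mem (hMY hy)), hFi y (hMY hy), hxy, add_neg_cancel]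
    have h4 := hM ((h2 _ (Y.mul_mem hx (Y.inv_mem (hMY hy)))).1 h3)
    have h5 := M.mul_mem h4 hy
    simpa using h5
  · intro h
    exact ⟨x, h, rfl⟩

end H21T

open H21T in
theorem stmt_TPA : Stmt_TPA := by
  classical
  intro E _ _ p t u φ Q Y K N0 hQY hN0 hab hYB S M hSQ hSφ hN0M hPM hMY h1 h2 h3 x hxK
  have : Fact p.Prime := ⟨hQY.hp⟩
  have : Fact t.Prime := ⟨hQY.ht⟩
  have : Fact u.Prime := ⟨hQY.hu⟩
  obtain ⟨Γ, V, i1, i2, i3, ρ, F, hΓ, hF1, hF2, hF3, hF4⟩ := qm (t := t) Y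
  obtain ⟨U, hU⟩ := exists_sub Y F hF1 hF2 M hPM hMY
  have hxY : x ∈ Y := (mem_fx.1 (hQY.hK hxK)).1
  have hQΓ : Q ≤ Γ := fun g hg => (hΓ g).2 (hQY.nQY g hg)
  have hφ1 : φ ^ p ^ 1 = 1 := by rw [pow_one]; exact hQY.hφ
  set B : Subgroup E := cm Q φ with hB
  have hBQ : B ≤ Q := cm_le hQY.nQ
  have hBu : IsPGroup u B := hQY.hQ.to_le hBQ
  have hut : ¬ u ∣ Nat.card Y := not_dvd_card_of_isPGroup hQY.htu.symm hQY.hY
  have hpB : ¬ p ∣ Nat.card B := not_dvd_card_of_isPGroup hQY.hpu hBu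
  -- trivial action
  have htriv : ∀ (g : E) (hg : g ∈ Γ), (∀ y ∈ Y, ⁅g, y⁆ ∈ Phi t Y) → ρ ⟨g, hg⟩ = 1 := by
    intro g hg h
    apply LinearMap.ext
    intro v
    obtain ⟨y, hy, rfl⟩ := hF3 v
    rw [← hF4 ⟨g, hg⟩ y hy]
    have h4 : (g : E) * y * g⁻¹ = ⁅g, y⁆ * y := by rw [commutatorElement_def]; group
    change F (g * y * g⁻¹) = F y
    rw [h4, hF1 _ (Phi_le (h y hy)) y hy, (hF2 _ (Phi_le (h y hy))).2 (h y hy), zero_add]
  have htriv' : ∀ (g : E) (hg : g ∈ Γ), ρ ⟨g, hg⟩ = 1 → ∀ y ∈ Y, ⁅g, y⁆ ∈ Phi t Y := by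
    intro g hg h y hy
    have h4 : ⁅g, y⁆ = (g * y * g⁻¹) * y⁻¹ := by rw [commutatorElement_def]
    have h5 : g * y * g⁻¹ ∈ Y := (hΓ g).1 hg y hy
    have h6 : ⁅g, y⁆ ∈ Y := by rw [h4]; exact Y.mul_mem h5 (Y.inv_mem hy)
    rw [← hF2 _ h6]
    have h7 : F (⁅g, y⁆ * y) = F ⁅g, y⁆ + F y := hF1 _ h6 y hy
    have h8 : ⁅g, y⁆ * y = g * y * g⁻¹ := by rw [h4]; group
    rw [h8] at h7
    have h9 := hF4 ⟨g, hg⟩ y hy
    rw [h] at h9
    change F (g * y * g⁻¹) = F y at h9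
    rw [h9] at h7
    exact (add_eq_right.1 h7.symm)
  -- the kernel of B
  let NB : Subgroup E :=
    { carrier := {g | g ∈ B ∧ ∀ y ∈ Y, ⁅g, y⁆ ∈ Phi t Y}
      mul_mem' := by
        rintro a b ⟨ha, ha'⟩ ⟨hb, hb'⟩
        refine ⟨B.mul_mem ha hb, ?_⟩
        apply htriv' _ (Γ.mul_mem (hQΓ (hBQ ha)) (hQΓ (hBQ hb)))
        have e : (⟨a * b, Γ.mul_mem (hQΓ (hBQ ha)) (hQΓ (hBQ hb))⟩ : ↥Γ) =
          ⟨a, hQΓ (hBQ ha)⟩ * ⟨b, hQΓ (hBQ hb)⟩ := rfl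
        rw [e, map_mul, htriv a _ ha', htriv b _ hb', one_mul]
      one_mem' := ⟨B.one_mem, fun y _ => by simp [(Phi t Y).one_mem]⟩
      inv_mem' := by
        rintro a ⟨ha, ha'⟩
        refine ⟨B.inv_mem ha, ?_⟩
        apply htriv' _ (Γ.inv_mem (hQΓ (hBQ ha)))
        have e : (⟨a⁻¹, Γ.inv_mem (hQΓ (hBQ ha))⟩ : ↥Γ) = ⟨a, hQΓ (hBQ ha)⟩⁻¹ := rfl
        have h4 : ρ ⟨a, hQΓ (hBQ ha)⟩ * ρ (⟨a, hQΓ (hBQ ha)⟩⁻¹) = 1 := by
          rw [← map_mul, mul_inv_cancel, map_one]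
        rw [htriv a _ ha', one_mul] at h4
        rw [e, h4] }
  have hNB : ∀ g, g ∈ NB ↔ g ∈ B ∧ ∀ y ∈ Y, ⁅g, y⁆ ∈ Phi t Y := fun g => Iff.rfl
  have hφNB : Nz φ NB := by
    rintro g ⟨hg, hg'⟩
    refine ⟨cm_nz_self Q φ g hg, ?_⟩
    intro y hy
    have h4 : φ⁻¹ * y * φ ∈ Y := by simpa using hQY.nY.inv y hy
    have h5 := Phi_nz hQY.nY _ (hg' _ h4)
    have h6 : φ * ⁅g, φ⁻¹ * y * φ⁆ * φ⁻¹ = ⁅φ * g * φ⁻¹, y⁆ := by
      rw [commutatorElement_def, commutatorElement_def]; group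
    rwa [h6] at h5
  -- an element of B commuting with φ acts trivially
  have hfixB : ∀ c ∈ B, φ * c = c * φ → c ∈ NB := by
    intro c hc hcφ
    apply fx_abelian (M := NB) hφ1 hpB (cm_nz_self Q φ) (fun g hg => hg.1) hφNB
    · intro a ha b hb
      refine ⟨?_, fun y hy => hab a (hBQ ha) b (hBQ hb) y hy⟩
      rw [commutatorElement_def]
      exact B.mul_mem (B.mul_mem (B.mul_mem ha hb) (B.inv_mem ha)) (B.inv_mem hb)
    · rw [cm_cm hφ1 (not_dvd_card_of_isPGroup hQY.hpu hQY.hQ) hQY.nQ]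
      exact le_sup_left
    · exact hc
    · have : ⁅φ, c⁆ = 1 := by rwa [commutatorElement_eq_one_iff_mul_comm]
      rw [this]
      exact NB.one_mem
  -- the subgroup B1
  let B1 : Subgroup ↥Γ :=
    { carrier := {b | ∃ s : ↥Γ, (s : E) ∈ cm S φ ∧ ρ b = ρ s}
      mul_mem' := by
        rintro a b ⟨s, hs, hs'⟩ ⟨r, hr, hr'⟩
        exact ⟨s * r, (cm S φ).mul_mem hs hr, by rw [map_mul, map_mul, hs', hr']⟩
      one_mem' := ⟨1, (cm S φ).one_mem, rfl⟩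
      inv_mem' := by
        rintro a ⟨s, hs, hs'⟩
        refine ⟨s⁻¹, (cm S φ).inv_mem hs, ?_⟩
        have h4 : ρ a⁻¹ * ρ a = 1 := by rw [← map_mul, inv_mul_cancel, map_one]
        have h5 : ρ s * ρ s⁻¹ = 1 := by rw [← map_mul, mul_inv_cancel, map_one]
        calc ρ a⁻¹ = ρ a⁻¹ * (ρ s * ρ s⁻¹) := by rw [h5, mul_one]
          _ = (ρ a⁻¹ * ρ a) * ρ s⁻¹ := by rw [hs', mul_assoc]
          _ = ρ s⁻¹ := by rw [h4, one_mul] }
  have hB1 : ∀ b, b ∈ B1 ↔ ∃ s : ↥Γ, (s : E) ∈ cm S φ ∧ ρ b = ρ s := fun b => Iff.rfl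
  -- elements of B in S C
  have hSC : ∀ b ∈ B, ∀ s ∈ S, ∀ c ∈ fx Q φ, b = s * c → ∀ hb : b ∈ Γ, (⟨b, hb⟩ : ↥Γ) ∈ B1 := by
    intro b hb s hs c hc hbsc hbΓ
    have hSu : IsPGroup u S := hQY.hQ.to_le hSQ
    obtain ⟨s1, hs1, s2, hs2, hs12⟩ := cm_decomp hφ1 (not_dvd_card_of_isPGroup hQY.hpu hSu) hSφ hs
    have hs1B : s1 ∈ B := cm_mono hSQ hs1
    have h4 : s1⁻¹ * b ∈ B := B.mul_mem (B.inv_mem hs1B) hb
    have h5 : s1⁻¹ * b = s2 * c := by rw [hbsc, hs12]; group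
    have h6 : φ * (s2 * c) = (s2 * c) * φ := by
      have h7 := (mem_fx.1 hs2).2
      have h8 := (mem_fx.1 hc).2
      rw [← mul_assoc, h7, mul_assoc, h8, mul_assoc]
    rw [h5] at h4
    have h7 := hfixB _ h4 h6
    have h8 := htriv _ (hQΓ (hBQ h4)) h7.2
    refine ⟨⟨s1, hQΓ (hBQ hs1B)⟩, hs1, ?_⟩
    have e : (⟨b, hbΓ⟩ : ↥Γ) = ⟨s1, hQΓ (hBQ hs1B)⟩ * ⟨s2 * c, hQΓ (hBQ h4)⟩ := by
      apply Subtype.ext
      change b = s1 * (s2 * c)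
      rw [← h5]; group
    rw [e, map_mul, h8, mul_one]
  -- the sum over B
  let BΓ : Subgroup ↥Γ := B.subgroupOf Γ
  have hBΓ : ∀ b : ↥Γ, b ∈ BΓ ↔ (b : E) ∈ B := fun b => mem_subgroupOf
  have : Fintype ↥Γ := Fintype.ofFinite _
  set sB : Finset ↥Γ := Finset.univ.filter (fun b => b ∈ BΓ) with hsB
  have hsum0 : ∑ b ∈ sB, ρ b (F x) = 0 := by
    obtain ⟨w, hw, hwF⟩ := hF3 (∑ b ∈ sB, ρ b (F x))
    rw [← hwF, hF2 w hw]
    apply fxS_abelian hBu hut (fun g hg => hQY.nQY g (hBQ hg)) Phi_le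
      (fun g hg => Phi_nz (hQY.nQY g (hBQ hg)))
      (fun a ha b hb => subset_closure (Or.inl ⟨a, ha, b, hb, rfl⟩)) hYB hw
    intro a ha
    have haΓ := hQΓ (hBQ ha)
    have h4 : ρ ⟨a, haΓ⟩ (F w) = F w := by
      rw [hwF, map_sum]
      have h5 : ∀ b : ↥Γ, ρ ⟨a, haΓ⟩ (ρ b (F x)) = ρ (⟨a, haΓ⟩ * b) (F x) := by
        intro b
        rw [map_mul, Module.End.mul_apply]
      simp only [h5]
      apply Finset.sum_bij (fun b _ => ⟨a, haΓ⟩ * b)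
      · intro b hb
        rw [hsB, Finset.mem_filter] at hb ⊢
        exact ⟨Finset.mem_univ _, (hBΓ _).2 (B.mul_mem ha ((hBΓ _).1 hb.2))⟩
      · intro b _ c _ hbc
        exact mul_left_cancel hbc
      · intro b hb
        rw [hsB, Finset.mem_filter] at hb
        refine ⟨⟨a, haΓ⟩⁻¹ * b, ?_, by group⟩
        rw [hsB, Finset.mem_filter]
        exact ⟨Finset.mem_univ _, (hBΓ _).2 (B.mul_mem (B.inv_mem ha) ((hBΓ _).1 hb.2))⟩
      · intro b _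
        rfl
    have h5 := hF4 ⟨a, haΓ⟩ w hw
    rw [h4] at h5
    have h6 : ⁅a, w⁆ ∈ Y := by
      rw [commutatorElement_def]
      exact Y.mul_mem ((hΓ a).1 haΓ w hw) (Y.inv_mem hw)
    rw [← hF2 _ h6]
    have h7 := hF1 _ h6 w hw
    have h8 : ⁅a, w⁆ * w = a * w * a⁻¹ := by rw [commutatorElement_def]; group
    rw [h8] at h7
    change F (a * w * a⁻¹) = F w at h5
    rw [h5] at h7
    exact add_eq_right.1 h7.symm
  -- split the sum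
  have hsplit := Finset.sum_filter_add_sum_filter_not sB (fun b => b ∈ B1) (fun b => ρ b (F x))
  rw [hsum0] at hsplit
  have hout : ∀ b ∈ sB.filter (fun b => b ∉ B1), ρ b (F x) ∈ U := by
    intro b hb
    rw [Finset.mem_filter, hsB, Finset.mem_filter] at hb
    obtain ⟨⟨-, hbB⟩, hb1⟩ := hb
    have hbB' := (hBΓ _).1 hbB
    rw [← hF4 b x hxY, hU _ ((hΓ _).1 b.2 x hxY)]
    apply h3 b (hBQ hbB')
    · intro s hs c hc hbsc
      exact hb1 (hSC b hbB' s hs c hc hbsc b.2)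
    · exact hxK
  have hin : ∀ b ∈ sB.filter (fun b => b ∈ B1), ρ b (F x) - F x ∈ U := by
    intro b hb
    rw [Finset.mem_filter] at hb
    obtain ⟨s, hs, hs'⟩ := (hB1 b).1 hb.2
    rw [hs', ← hF4 s x hxY]
    have h4 := h2 _ hs x hxY
    have h5 : ⁅(s : E), x⁆ ∈ Y := hMY h4
    have h6 : (s : E) * x * (s : E)⁻¹ = ⁅(s : E), x⁆ * x := by rw [commutatorElement_def]; group
    rw [h6, hF1 _ h5 x hxY, add_sub_cancel_right]
    exact (hU _ h5).2 h4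
  set n : ℕ := (sB.filter (fun b => b ∈ B1)).card with hn
  have hnU : (n : ZMod t) • F x ∈ U := by
    have h4 : ∑ b ∈ sB.filter (fun b => b ∈ B1), ρ b (F x) ∈ U := by
      have h5 := Submodule.sum_mem U hout
      have h6 : ∑ b ∈ sB.filter (fun b => b ∈ B1), ρ b (F x) =
          -∑ b ∈ sB.filter (fun b => b ∉ B1), ρ b (F x) := eq_neg_of_add_eq_zero_left hsplit
      rw [h6]
      exact U.neg_mem h5
    have h5 := Submodule.sum_mem U hin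
    rw [Finset.sum_sub_distrib, Finset.sum_const] at h5
    have h6 := U.sub_mem h4 h5
    rw [sub_sub_cancel, ← Nat.cast_smul_eq_nsmul (ZMod t)] at h6
    exact h6
  have hcard : n = Nat.card ↥(BΓ ⊓ B1) := by
    rw [hn]
    refine (Nat.subtype_card _ fun b => ?_).symm
    rw [Finset.mem_filter, hsB, Finset.mem_filter, mem_inf]
    simp
  have hBΓu : IsPGroup u ↥BΓ := hBu.comap_of_injective Γ.subtype Γ.subtype_injective
  have hnu : IsPGroup u ↥(BΓ ⊓ B1) := hBΓu.to_le inf_le_left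
  obtain ⟨e, he⟩ := IsPGroup.iff_card.1 hnu
  have hne : (n : ZMod t) ≠ 0 := by
    rw [hcard, he, Nat.cast_pow]
    apply pow_ne_zero
    intro h0
    rw [ZMod.natCast_eq_zero_iff] at h0
    exact hQY.htu ((Nat.prime_dvd_prime_iff_eq hQY.ht hQY.hu).1 h0)
  have hxU : F x ∈ U := by
    have h4 := U.smul_mem ((n : ZMod t)⁻¹) hnU
    rwa [smul_smul, inv_mul_cancel₀ hne, one_smul] at h4
  exact (hU x hxY).1 hxU

end Pool.FH
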