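import Pool.Agent.Work.MP_4c212b_al.Interface

set_option autoImplicit false

open Subgroup
open scoped commutatorElement

namespace Pool.FH

namespace H21Z

variable {k E V : Type} [Field k] [Group E] [AddCommGroup V] [Module k V]

/-- the stabiliser of a vector in `Q` -/
def stb (ρ : Representation k E V) (Q : Subgroup E) (l : V) : Subgroup E where
  carrier := {g | g ∈ Q ∧ ρ g l = l}
  mul_mem' := by
    rintro a b ⟨ha, ha'⟩ ⟨hb, hb'⟩
    exact ⟨Q.mul_mem ha hb, by rw [map_mul, Module.End.mul_apply, hb', ha']⟩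
  one_mem' := ⟨Q.one_mem, by simp⟩
  inv_mem' := by
    rintro a ⟨ha, ha'⟩
    refine ⟨Q.inv_mem ha, ?_⟩
    have : ρ a⁻¹ (ρ a l) = l := by
      rw [← Module.End.mul_apply, ← map_mul, inv_mul_cancel, map_one, Module.End.one_apply]
    rw [ha'] at this
    exact this

theorem mem_stb {ρ : Representation k E V} {Q : Subgroup E} {l : V} {g : E} :
    g ∈ stb ρ Q l ↔ g ∈ Q ∧ ρ g l = l := Iff.rfl

theorem inv_fix {ρ : Representation k E V} {l : V} {g : E} (h : ρ g l = l) : ρ g⁻¹ l = l := by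
  have : ρ g⁻¹ (ρ g l) = l := by
    rw [← Module.End.mul_apply, ← map_mul, inv_mul_cancel, map_one, Module.End.one_apply]
  rw [h] at this
  exact this

theorem pow_fix {ρ : Representation k E V} {l : V} {g : E} (h : ρ g l = l) (n : ℕ) :
    ρ (g ^ n) l = l := by
  induction n with
  | zero => simp
  | succ n ih => rw [pow_succ, map_mul, Module.End.mul_apply, h, ih]

/-- `g l` is `φ`-fixed iff `g⁻¹ (φ g φ⁻¹)` fixes `l`. -/
theorem fixed_iff {ρ : Representation k E V} {l : V} {φ g : E} (h : ρ φ l = l) :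
    ρ φ (ρ g l) = ρ g l ↔ ρ (g⁻¹ * (φ * g * φ⁻¹)) l = l := by
  have h1 : ρ (g⁻¹ * (φ * g * φ⁻¹)) l = ρ g⁻¹ (ρ φ (ρ g l)) := by
    rw [map_mul, map_mul, map_mul, Module.End.mul_apply, Module.End.mul_apply,
      Module.End.mul_apply, inv_fix h]
  rw [h1]
  constructor
  · intro h2
    rw [h2, ← Module.End.mul_apply, ← map_mul, inv_mul_cancel, map_one, Module.End.one_apply]
  · intro h2
    have h3 : ρ g (ρ g⁻¹ (ρ φ (ρ g l))) = ρ g l := by rw [h2]
    rwa [← Module.End.mul_apply, ← map_mul, mul_inv_cancel, map_one, Module.End.one_apply] at h3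

theorem main [Finite E] (ρ : Representation k E V) (p u : ℕ) (φ : E) (l : V)
    (hp : p.Prime) (hu : u.Prime) (hup : u ≠ p) (hφ : φ ^ p = 1) (hpk : (p : k) ≠ 0)
    (hl : ρ φ l = l) : ∀ (n : ℕ) (Q : Subgroup E), Nat.card Q = n → IsPGroup u Q → Nz φ Q →
    (∀ g ∈ Q, ρ φ (ρ g l) = ρ g l ∨ ∑ i ∈ Finset.range p, ρ (φ ^ i) (ρ g l) = 0) →
    ∀ g ∈ Q, ρ φ (ρ g l) = ρ g l := by
  have : Fact p.Prime := ⟨hp⟩
  have : Fact u.Prime := ⟨hu⟩
  intro n
  induction n using Nat.strong_induction_on with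
  | _ n ih =>
  intro Q hn hQ hφQ h
  by_contra hcon
  push Not at hcon
  obtain ⟨g, hg, hgf⟩ := hcon
  have hφ1 : φ ^ p ^ 1 = 1 := by rwa [pow_one]
  have hpQ : ¬ p ∣ Nat.card Q := not_dvd_card_of_isPGroup hup.symm hQ
  -- proper invariant subgroups
  have hprop : ∀ R : Subgroup E, R ≤ Q → Nz φ R → R ≠ Q → ∀ x ∈ R, ρ φ (ρ x l) = ρ x l := by
    intro R hR hφR hne
    refine ih (Nat.card R) ?_ R rfl (hQ.to_le hR) hφR fun x hx => h x (hR hx)
    rw [← hn]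
    refine lt_of_le_of_ne (Subgroup.card_le_of_le hR) fun hc => hne ?_
    exact Subgroup.eq_of_le_of_card_ge hR (le_of_eq hc.symm)
  -- commutators
  have hcomm : ∀ R : Subgroup E, R ≤ Q → (∀ x ∈ R, ρ φ (ρ x l) = ρ x l) → ∀ x ∈ R,
      ρ ⁅x, φ⁆ l = l := by
    intro R hR hRf x hx
    have h1 := (fixed_iff hl).1 (hRf x⁻¹ (R.inv_mem hx))
    have h2 : x⁻¹⁻¹ * (φ * x⁻¹ * φ⁻¹) = ⁅x, φ⁆ := by rw [commutatorElement_def]; group
    rwa [h2] at h1
  have hstbφ : Nz φ (stb ρ Q l) := by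
    rintro x ⟨hx, hx'⟩
    refine ⟨hφQ x hx, ?_⟩
    rw [map_mul, map_mul, Module.End.mul_apply, Module.End.mul_apply, inv_fix hl, hx', hl]
  -- Q = [Q, φ]
  have hQQ : cm Q φ = Q := by
    by_contra hne
    have h1 := hprop (cm Q φ) (cm_le hφQ) (cm_nz_self Q φ) hne
    have h2 : cm (cm Q φ) φ ≤ stb ρ Q l := by
      apply cm_le_of' (cm_nz_self Q φ)
      intro x hx
      refine ⟨?_, hcomm _ (cm_le hφQ) h1 x hx⟩
      have := cm_le hφQ hx
      exact cm_le hφQ (comm_mem_cm this)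
    rw [cm_cm hφ1 hpQ hφQ] at h2
    apply hgf
    rw [fixed_iff hl]
    have h3 : g⁻¹ * (φ * g * φ⁻¹) = ⁅g⁻¹, φ⁆ := by rw [commutatorElement_def]; group
    rw [h3]
    exact (h2 (comm_mem_cm (Q.inv_mem hg))).2
  -- the subgroup N
  set N : Subgroup E := stb ρ Q l ⊔ Phi u Q with hN
  have hNQ : N ≤ Q := sup_le (fun x hx => hx.1) Phi_le
  have hNφ : Nz φ N := hstbφ.sup (Phi_nz hφQ)
  have hNne : N ≠ Q := by
    intro hc
    have h1 : stb ρ Q l = Q := Phi_gen hQ (fun x hx => hx.1) (by rw [← hN, hc])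
    apply hgf
    have h2 : g ∈ stb ρ Q l := by rw [h1]; exact hg
    rw [h2.2, hl]
  have hNf := hprop N hNQ hNφ hNne
  have hab : ∀ x ∈ Q, ∀ y ∈ Q, ⁅x, y⁆ ∈ N := by
    intro x hx y hy
    apply le_sup_right (a := stb ρ Q l)
    exact subset_closure (Or.inl ⟨x, hx, y, hy, rfl⟩)
  have hfix : ∀ x ∈ Q, ⁅φ, x⁆ ∈ N → x ∈ N := by
    intro x hx hxφ
    exact fx_abelian hφ1 hpQ hφQ hNQ hNφ hab (by rw [hQQ]; exact le_sup_left) hx hxφ
  have hfN : ∀ x ∈ Q, ρ φ (ρ x l) = ρ x l → x ∈ N := by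
    intro x hx hxf
    have h1 := (fixed_iff hl).1 hxf
    have h2 : x⁻¹ * (φ * x * φ⁻¹) ∈ stb ρ Q l := ⟨Q.mul_mem (Q.inv_mem hx) (hφQ x hx), h1⟩
    have h3 : ¬ p ∣ Nat.card (stb ρ Q l) := fun hd =>
      hpQ (hd.trans (Subgroup.card_dvd_of_le fun x hx => hx.1))
    obtain ⟨m, hm, hm'⟩ := cp_fix1 hφ h3 hstbφ h2
    have h4 : x * m ∈ N := by
      apply hfix _ (Q.mul_mem hx hm.1)
      have : ⁅φ, x * m⁆ = 1 := by
        rw [commutatorElement_eq_one_iff_mul_comm]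
        exact hm'
      rw [this]
      exact N.one_mem
    have h5 : m ∈ N := le_sup_left (b := Phi u Q) hm
    have h6 := N.mul_mem h4 (N.inv_mem h5)
    simpa using h6
  have hgN : g ∉ N := fun hc => hgf (hNf g hc)
  -- the elements h_i
  have hpowN : ∀ i : ℕ, 0 < i → i < p → g⁻¹ * (φ ^ i * g * (φ ^ i)⁻¹) ∉ N := by
    intro i hi hip hc
    apply hgN
    apply hfix g hg
    -- all powers of φ ^ i fix g modulo N
    have h1 : ∀ j : ℕ, g⁻¹ * (φ ^ (i * j) * g * (φ ^ (i * j))⁻¹) ∈ N := by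
      intro j
      induction j with
      | zero => simp
      | succ j ihj =>
        have h2 := hNφ.pow i _ ihj
        have h3 := N.mul_mem hc h2
        have h4 : g⁻¹ * (φ ^ i * g * (φ ^ i)⁻¹) *
            (φ ^ i * (g⁻¹ * (φ ^ (i * j) * g * (φ ^ (i * j))⁻¹)) * (φ ^ i)⁻¹) =
            g⁻¹ * (φ ^ (i * (j + 1)) * g * (φ ^ (i * (j + 1)))⁻¹) := by
          have h5 : φ ^ (i * (j + 1)) = φ ^ i * φ ^ (i * j) := by
            rw [← pow_add]; congr 1; ring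
          rw [h5]; group
        rwa [h4] at h3
    have hcop : Nat.Coprime i p := (Nat.coprime_of_lt_prime hi.ne' hip hp).symm
    obtain ⟨j, -, hj⟩ := Nat.exists_mul_mod_eq_one_of_coprime hcop hp.one_lt
    have h2 : φ ^ (i * j) = φ := by
      rw [← Nat.div_add_mod (i * j) p, hj, pow_add, pow_mul, hφ, one_pow, one_mul, pow_one]
    have h3 := h1 j
    rw [h2] at h3
    -- conjugate by g
    have h4 : ⁅φ, g⁆ = g * (g⁻¹ * (φ * g * φ⁻¹)) * g⁻¹ := by rw [commutatorElement_def]; group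
    rw [h4]
    -- N is normalised by Q
    have h5 : g * (g⁻¹ * (φ * g * φ⁻¹)) * g⁻¹ =
        ⁅g, g⁻¹ * (φ * g * φ⁻¹)⁆ * (g⁻¹ * (φ * g * φ⁻¹)) := by
      rw [commutatorElement_def]; group
    rw [h5]
    exact N.mul_mem (hab g hg _ (hNQ h3)) h3
  have htr := (h g hg).resolve_left hgf
  -- apply g⁻¹
  have h1 : ∑ i ∈ Finset.range p, ρ (g⁻¹ * (φ ^ i * g * (φ ^ i)⁻¹)) l = 0 := by
    have h2 : ρ g⁻¹ (∑ i ∈ Finset.range p, ρ (φ ^ i) (ρ g l)) = 0 := by rw [htr, map_zero]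
    rw [map_sum] at h2
    rw [← h2]
    apply Finset.sum_congr rfl
    intro i _
    rw [map_mul, map_mul, map_mul, Module.End.mul_apply, Module.End.mul_apply,
      Module.End.mul_apply, inv_fix (pow_fix hl i)]
  -- apply the trace
  have h2 : ∑ j ∈ Finset.range p, ρ (φ ^ j) (∑ i ∈ Finset.range p,
      ρ (g⁻¹ * (φ ^ i * g * (φ ^ i)⁻¹)) l) = 0 := by
    rw [h1]; simp
  simp only [map_sum] at h2
  rw [Finset.sum_comm] at h2
  rw [Finset.sum_eq_single 0] at h2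
  · have h3 : ∀ j ∈ Finset.range p, ρ (φ ^ j) (ρ (g⁻¹ * (φ ^ 0 * g * (φ ^ 0)⁻¹)) l) = l := by
      intro j _
      have h4 : g⁻¹ * (φ ^ 0 * g * (φ ^ 0)⁻¹) = 1 := by group
      rw [h4, map_one, Module.End.one_apply, pow_fix hl j]
    rw [Finset.sum_congr rfl h3, Finset.sum_const, Finset.card_range] at h2
    have h4 : (p : k) • l = 0 := by
      rw [Nat.cast_smul_eq_nsmul]; exact h2
    have h5 : l = 0 := by
      rcases smul_eq_zero.1 h4 with h6 | h6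
      · exact absurd h6 hpk
      · exact h6
    apply hgf
    rw [h5]; simp
  · intro i hi hi0
    have hi' : 0 < i := Nat.pos_of_ne_zero hi0
    have hip := Finset.mem_range.1 hi
    have hQi : g⁻¹ * (φ ^ i * g * (φ ^ i)⁻¹) ∈ Q :=
      Q.mul_mem (Q.inv_mem hg) (hφQ.pow i g hg)
    rcases h _ hQi with h3 | h3
    · exact absurd (hfN _ hQi h3) (hpowN i hi' hip)
    · exact h3
  · intro h0
    exact absurd (Finset.mem_range.2 hp.pos) h0

end H21Z

theorem stmt_Z : Stmt_Z := by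
  intro k E V _ _ _ _ _ ρ p u φ Q l hp hu hup hφ hQ hφQ hpk hl h
  have h1 := H21Z.main ρ p u φ l hp hu hup hφ hpk hl _ Q rfl hQ hφQ h
  have h2 : cm Q φ ≤ H21Z.stb ρ Q l := by
    apply cm_le_of' hφQ
    intro x hx
    refine ⟨cm_le hφQ (comm_mem_cm hx), ?_⟩
    have h3 := (H21Z.fixed_iff hl).1 (h1 x⁻¹ (Q.inv_mem hx))
    have h4 : x⁻¹⁻¹ * (φ * x⁻¹ * φ⁻¹) = ⁅x, φ⁆ := by rw [commutatorElement_def]; group
    rwa [h4] at h3
  intro c hc
  exact (h2 hc).2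

end Pool.FH
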