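import Pool.Agent.Work.MP_4c212b_al.TPA
import Pool.Agent.Work.MP_4c212b_al.Z

/-!
# Block TPB
-/

set_option autoImplicit false

open Subgroup
open scoped commutatorElement

namespace Pool.FH

open H21T in
theorem stmt_TPB : Stmt_TPB := by
  classical
  intro E _ _ p t u φ Q Y K N0 hQY hN0 hfull hYB S M hSQ hSφ hN0M hPM hMY h1 h2 h3 x hxK
  have : Fact p.Prime := ⟨hQY.hp⟩
  have : Fact t.Prime := ⟨hQY.ht⟩
  have : Fact u.Prime := ⟨hQY.hu⟩
  obtain ⟨Γ, V, i1, i2, i3, ρ, F, hΓ, hF1, hF2, hF3, hF4⟩ := qm (t := t) Y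
  obtain ⟨U, hU⟩ := exists_sub Y F hF1 hF2 M hPM hMY
  have hxY : x ∈ Y := (mem_fx.1 (hQY.hK hxK)).1
  have hQΓ : Q ≤ Γ := fun g hg => (hΓ g).2 (hQY.nQY g hg)
  have hφΓ : φ ∈ Γ := (hΓ φ).2 hQY.nY
  have hφ1 : φ ^ p ^ 1 = 1 := by rw [pow_one]; exact hQY.hφ
  have hF10 : F 1 = 0 := (hF2 1 Y.one_mem).2 (Phi t Y).one_mem
  have hFi : ∀ y ∈ Y, F y⁻¹ = -F y := by
    intro y hy
    have h4 := hF1 y⁻¹ (Y.inv_mem hy) y hy
    rw [inv_mul_cancel, hF10] at h4
    exact eq_neg_of_add_eq_zero_left h4.symm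
  by_contra hxM
  have hxU : F x ∉ U := fun h => hxM ((hU x hxY).1 h)
  obtain ⟨l, hl1, hl2⟩ := U.exists_le_ker_of_notMem hxU
  -- the kernel of a functional, as a subgroup of Y
  have hker : ∀ m : Module.Dual (ZMod t) V, ∃ N : Subgroup E, ∀ y, y ∈ N ↔ y ∈ Y ∧ m (F y) = 0 := by
    intro m
    let N : Subgroup E :=
      { carrier := {y | y ∈ Y ∧ m (F y) = 0}
        mul_mem' := by
          rintro a b ⟨ha, ha'⟩ ⟨hb, hb'⟩
          exact ⟨Y.mul_mem ha hb, by rw [hF1 a ha b hb, map_add, ha', hb', add_zero]⟩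
        one_mem' := ⟨Y.one_mem, by rw [hF10, map_zero]⟩
        inv_mem' := by
          rintro a ⟨ha, ha'⟩
          exact ⟨Y.inv_mem ha, by rw [hFi a ha, map_neg, ha', neg_zero]⟩ }
    exact ⟨N, fun y => Iff.rfl⟩
  have hPhi0 : ∀ (m : Module.Dual (ZMod t) V), ∀ y ∈ Phi t Y, m (F y) = 0 := by
    intro m y hy
    rw [(hF2 y (Phi_le hy)).2 hy, map_zero]
  -- invariance of l
  have hinv : ∀ g : ↥Γ, (∀ y ∈ Y, ⁅(g : E), y⁆ ∈ M) → ∀ v, l (ρ g v) = l v := by
    intro g hg v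
    obtain ⟨y, hy, rfl⟩ := hF3 v
    rw [← hF4 g y hy]
    have h4 : ⁅(g : E), y⁆ ∈ Y := hMY (hg y hy)
    have h5 : (g : E) * y * (g : E)⁻¹ = ⁅(g : E), y⁆ * y := by rw [commutatorElement_def]; group
    have h6 : l (F ⁅(g : E), y⁆) = 0 := hl2 ((hU _ h4).2 (hg y hy))
    rw [h5, hF1 _ h4 y hy, map_add, h6, zero_add]
  let φ' : ↥Γ := ⟨φ, hφΓ⟩
  have hlφ : ∀ v, l (ρ φ' v) = l v := hinv φ' h1
  have hlφi : ∀ v, l (ρ φ'⁻¹ v) = l v := by
    intro v
    have h4 := hlφ (ρ φ'⁻¹ v)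
    rw [← Module.End.mul_apply, ← map_mul, mul_inv_cancel, map_one, Module.End.one_apply] at h4
    exact h4.symm
  let Q' : Subgroup ↥Γ := Q.subgroupOf Γ
  have hφ'p : φ' ^ p = 1 := Subtype.ext hQY.hφ
  have hQ'u : IsPGroup u ↥Q' := hQY.hQ.comap_of_injective Γ.subtype Γ.subtype_injective
  have hQ'φ : Nz φ' Q' := by
    intro g hg
    rw [mem_subgroupOf] at hg ⊢
    exact hQY.nQ _ hg
  have hpt : (p : ZMod t) ≠ 0 := by
    intro h0
    rw [ZMod.natCast_eq_zero_iff] at h0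
    exact hQY.hpt ((Nat.prime_dvd_prime_iff_eq hQY.ht hQY.hp).1 h0).symm
  have hdual : ∀ (g : ↥Γ) (m : Module.Dual (ZMod t) V) (v : V), ρ.dual g m v = m (ρ g⁻¹ v) :=
    fun g m v => rfl
  have hZ := stmt_Z (ZMod t) ↥Γ (Module.Dual (ZMod t) V) ρ.dual p u φ' Q' l hQY.hp hQY.hu
    hQY.hpu.symm hφ'p hQ'u hQ'φ hpt (by
      apply LinearMap.ext
      intro v
      rw [hdual, hlφi]) (by
      intro g hg
      rw [mem_subgroupOf] at hg
      by_cases hSC : ∃ s ∈ S, ∃ c ∈ fx Q φ, (g : E)⁻¹ = s * c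
      · left
        obtain ⟨s, hs, c, hc, hgsc⟩ := hSC
        have hSu : IsPGroup u S := hQY.hQ.to_le hSQ
        obtain ⟨s1, hs1, s2, hs2, hs12⟩ :=
          cm_decomp hφ1 (not_dvd_card_of_isPGroup hQY.hpu hSu) hSφ hs
        have hs1Γ : s1 ∈ Γ := hQΓ (hSQ (cm_le hSφ hs1))
        have hs2Γ : s2 ∈ Γ := hQΓ (hSQ (fx_le hs2))
        have hcΓ : c ∈ Γ := hQΓ (fx_le hc)
        have hg' : g⁻¹ = ⟨s1, hs1Γ⟩ * (⟨s2, hs2Γ⟩ * ⟨c, hcΓ⟩ : ↥Γ) := by
          apply Subtype.ext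
          change (g : E)⁻¹ = s1 * (s2 * c)
          rw [hgsc, hs12]; group
        set d : ↥Γ := ⟨s2, hs2Γ⟩ * ⟨c, hcΓ⟩ with hd
        have hdφ : d * φ'⁻¹ = φ'⁻¹ * d := by
          have h4 : φ' * d = d * φ' := by
            apply Subtype.ext
            change φ * (s2 * c) = s2 * c * φ
            have h7 := (mem_fx.1 hs2).2
            have h8 := (mem_fx.1 hc).2
            rw [← mul_assoc, h7, mul_assoc, h8, mul_assoc]
          rw [mul_inv_eq_iff_eq_mul, mul_assoc, ← h4, ← mul_assoc, inv_mul_cancel, one_mul]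
        have h4 : ∀ v, l (ρ g⁻¹ v) = l (ρ d v) := by
          intro v
          rw [hg', map_mul, Module.End.mul_apply]
          exact hinv ⟨s1, hs1Γ⟩ (fun y hy => h2 s1 hs1 y hy) _
        apply LinearMap.ext
        intro v
        rw [hdual, hdual, hdual, h4, h4, ← Module.End.mul_apply, ← map_mul, hdφ, map_mul,
          Module.End.mul_apply, hlφi]
      · right
        push Not at hSC
        -- the functional m = g l vanishes on K
        have hmK : ∀ k ∈ K, ρ.dual g l (F k) = 0 := by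
          intro k hk
          have hkY : k ∈ Y := (mem_fx.1 (hQY.hK hk)).1
          rw [hdual, ← hF4 g⁻¹ k hkY]
          have h4 : ((g⁻¹ : ↥Γ) : E) * k * ((g⁻¹ : ↥Γ) : E)⁻¹ ∈ M := by
            apply h3 _ (Q.inv_mem hg) _ k hk
            intro s hs c hc
            exact hSC s hs c hc
          exact hl2 ((hU _ (hMY h4)).2 h4)
        obtain ⟨N, hN⟩ := hker (ρ.dual g l)
        have hKN : K ⊔ Phi t Y ≤ N := by
          apply sup_le
          · intro k hk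
            exact (hN k).2 ⟨(mem_fx.1 (hQY.hK hk)).1, hmK k hk⟩
          · intro y hy
            exact (hN y).2 ⟨Phi_le hy, hPhi0 _ y hy⟩
        apply LinearMap.ext
        intro v
        rw [LinearMap.sum_apply, LinearMap.zero_apply]
        have h4 : ∀ i ∈ Finset.range p, (ρ.dual (φ' ^ i)) (ρ.dual g l) v =
            ρ.dual g l (ρ ((φ' ^ i)⁻¹) v) := fun i _ => hdual _ _ _
        rw [Finset.sum_congr rfl h4, ← map_sum]
        obtain ⟨w, hw, hwF⟩ := hF3 (∑ i ∈ Finset.range p, ρ ((φ' ^ i)⁻¹) v)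
        rw [← hwF]
        -- w is fixed modulo Phi
        have h5 : ρ φ'⁻¹ (F w) = F w := by
          rw [hwF, map_sum]
          have h6 : ∀ i, ρ φ'⁻¹ (ρ ((φ' ^ i)⁻¹) v) = ρ ((φ' ^ (i + 1))⁻¹) v := by
            intro i
            rw [← Module.End.mul_apply, ← map_mul, ← mul_inv_rev, ← pow_succ]
          simp only [h6]
          have h7 := Finset.sum_range_succ' (fun i => ρ ((φ' ^ i)⁻¹) v) p
          have h8 := Finset.sum_range_succ (fun i => ρ ((φ' ^ i)⁻¹) v) p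
          rw [h7, hφ'p] at h8
          rw [pow_zero] at h8
          exact add_right_cancel h8
        have h6 : w⁻¹ * (φ * w * φ⁻¹) ∈ Phi t Y := by
          have hcY : φ * w * φ⁻¹ ∈ Y := hQY.nY w hw
          have h7 : w⁻¹ * (φ * w * φ⁻¹) ∈ Y := Y.mul_mem (Y.inv_mem hw) hcY
          rw [← hF2 _ h7, hF1 _ (Y.inv_mem hw) _ hcY, hFi w hw]
          have h8 : F (φ * w * φ⁻¹) = ρ φ' (F w) := hF4 φ' w hw
          have h9 : ρ φ' (F w) = F w := by
            conv_lhs => rw [← h5]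
            rw [← Module.End.mul_apply, ← map_mul, mul_inv_cancel, map_one, Module.End.one_apply]
          rw [h8, h9, neg_add_cancel]
        have hpPhi : ¬ p ∣ Nat.card (Phi t Y) :=
          not_dvd_card_of_isPGroup hQY.hpt (hQY.hY.to_le Phi_le)
        obtain ⟨n, hn, hn'⟩ := cp_fix1 hQY.hφ hpPhi (Phi_nz hQY.nY) h6
        have h7 : w * n ∈ N := hKN (hfull _ (mem_fx.2 ⟨Y.mul_mem hw (Phi_le hn), hn'⟩))
        have h8 := ((hN _).1 h7).2
        rw [hF1 w hw n (Phi_le hn), (hF2 n (Phi_le hn)).2 hn, add_zero] at h8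
        exact h8)
  -- the conclusion
  have hcm : cm Q φ = (cm Q' φ').map Γ.subtype := by
    unfold cm
    rw [map_commutator, MonoidHom.map_zpowers]
    congr 1
    rw [subgroupOf_map_subtype, inf_eq_left.2 hQΓ]
  obtain ⟨N, hN⟩ := hker l
  have hYN : Y ≤ N := by
    refine hYB.trans (sup_le ?_ fun y hy => (hN y).2 ⟨Phi_le hy, hPhi0 _ y hy⟩)
    rw [commutator_le]
    intro y hy b hb
    rw [hcm] at hb
    obtain ⟨b', hb', rfl⟩ := hb
    have hbQ : (b' : E) ∈ Q := by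
      have h4 := cm_le hQ'φ hb'
      rwa [mem_subgroupOf] at h4
    have h4 : ∀ v, l (ρ b' v) = l v := by
      intro v
      have h5 := hZ b'⁻¹ ((cm Q' φ').inv_mem hb')
      have h6 := LinearMap.congr_fun h5 v
      rw [hdual, inv_inv] at h6
      exact h6
    have hbY : ∀ z ∈ Y, (b' : E) * z * (b' : E)⁻¹ ∈ Y := hQY.nQY _ hbQ
    change ⁅y, (b' : E)⁆ ∈ N
    have h5 : ⁅y, (b' : E)⁆ = y * ((b' : E) * y⁻¹ * (b' : E)⁻¹) := by
      rw [commutatorElement_def]; group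
    have h6 := hbY _ (Y.inv_mem hy)
    rw [hN, h5]
    refine ⟨Y.mul_mem hy h6, ?_⟩
    rw [hF1 y hy _ h6, hF4 b' _ (Y.inv_mem hy), map_add, h4, hFi y hy, map_neg, add_neg_cancel]
  exact hl1 ((hN x).1 (hYN hxY)).2

end Pool.FH
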