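import Pool.Agent.Work.MP_4c212b_al.Interface

/-!
# Block TRANS
-/

set_option autoImplicit false

open Subgroup
open scoped commutatorElement

namespace Pool.FH

namespace TransAux

instance nrm (S : Sys) (κ : ℕ) : ((S.B κ).subgroupOf (fx S.G S.φ)).Normal :=
  (normal_subgroupOf_iff_le_normalizer (S.hBC κ)).2 (Nz.le_normalizer (S.hBn κ))

/-- The projection of `C_G(φ)` modulo `B_κ`. -/
noncomputable def q (S : Sys) (κ : ℕ) :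
    ↥(fx S.G S.φ) →* ↥(fx S.G S.φ) ⧸ (S.B κ).subgroupOf (fx S.G S.φ) :=
  QuotientGroup.mk' _

theorem q_surj (S : Sys) (κ : ℕ) : Function.Surjective (q S κ) :=
  QuotientGroup.mk'_surjective _

theorem q_eq_one (S : Sys) (κ : ℕ) (x : ↥(fx S.G S.φ)) : q S κ x = 1 ↔ (x : S.Γ) ∈ S.B κ := by
  unfold q
  rw [QuotientGroup.mk'_apply, QuotientGroup.eq_one_iff, mem_subgroupOf]

theorem aux (S : Sys) (κ : ℕ) {N : Subgroup S.Γ} (hN : N ≤ fx S.G S.φ)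
    (hn : NzS (fx S.G S.φ) N)
    (hc : ∀ s t : ℕ, s.Prime → t.Prime → s ≠ t → ∀ x ∈ N, ∀ y ∈ N, (∃ a : ℕ, x ^ s ^ a = 1) →
      (∃ b : ℕ, y ^ t ^ b = 1) → ⁅x, y⁆ ∈ S.B κ) {z : S.Γ} (hz : z ∈ N) :
    q S κ ⟨z, hN hz⟩ ∈
      Ft (⊤ : Subgroup (↥(fx S.G S.φ) ⧸ (S.B κ).subgroupOf (fx S.G S.φ))) := by
  have hle := le_Ft_of_comm (N := (N.subgroupOf (fx S.G S.φ)).map (q S κ)) (G := ⊤) le_top
    (by
      rintro c - _ ⟨x, hx, rfl⟩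
      obtain ⟨c, rfl⟩ := q_surj S κ c
      refine ⟨c * x * c⁻¹, ?_, by simp⟩
      exact hn c.1 c.2 _ hx)
    (by
      rintro s t hs ht hst _ ⟨x, hx, rfl⟩ _ ⟨y, hy, rfl⟩ ⟨a, ha⟩ ⟨b, hb⟩
      obtain ⟨u, hu, a', ha'⟩ := lift_pelt _ hs ha
      obtain ⟨v, hv, b', hb'⟩ := lift_pelt _ ht hb
      have h1 := hc s t hs ht hst ((x ^ u : ↥(fx S.G S.φ)) : S.Γ)
        (by rw [SubgroupClass.coe_pow]; exact N.pow_mem hx u)
        ((y ^ v : ↥(fx S.G S.φ)) : S.Γ)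
        (by rw [SubgroupClass.coe_pow]; exact N.pow_mem hy v)
        ⟨a', by rw [← SubgroupClass.coe_pow, ha']; rfl⟩
        ⟨b', by rw [← SubgroupClass.coe_pow, hb']; rfl⟩
      have h2 : q S κ ⁅x ^ u, y ^ v⁆ = 1 := (q_eq_one S κ _).2 h1
      rw [map_commutatorElement, hu, hv, commutatorElement_eq_one_iff_mul_comm] at h2
      exact h2)
  exact hle ⟨⟨z, hN hz⟩, hz, rfl⟩

end TransAux

open TransAux

theorem stmt_TRANS : Stmt_TRANS := by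
  intro S κ s r x d hs hr hsr hx hxφ hd hdφ hdr hprd
  have hsf : Fact s.Prime := ⟨hs⟩
  have hrf : Fact r.Prime := ⟨hr⟩
  obtain ⟨b, hb, hbd⟩ := hprd
  have hbC : b ∈ fx S.G S.φ := S.hBC _ hb
  have hfF : b⁻¹ * d ∈ Ft S.G := by
    rw [← S.ker_pr, MonoidHom.mem_ker, map_mul, map_inv]
    rw [show S.pr b = S.pr d from hbd, inv_mul_cancel]
  have hdC : d ∈ fx S.G S.φ := mem_fx.2 ⟨hd, hdφ⟩
  have hxF : x ∈ Ft S.G := Op_le_Ft s S.G hx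
  have hxC : x ∈ fx S.G S.φ := mem_fx.2 ⟨Ft_le _ hxF, hxφ⟩
  have hfC : b⁻¹ * d ∈ fx S.G S.φ := (fx S.G S.φ).mul_mem ((fx S.G S.φ).inv_mem hbC) hdC
  -- the subgroup `C ∩ F(G)`
  have hFC : ∀ z : S.Γ, (hz : z ∈ fx S.G S.φ ⊓ Ft S.G) → q S κ ⟨z, hz.1⟩ ∈
      Ft (⊤ : Subgroup (↥(fx S.G S.φ) ⧸ (S.B κ).subgroupOf (fx S.G S.φ))) := by
    intro z hz
    refine aux S κ (N := fx S.G S.φ ⊓ Ft S.G) inf_le_left ?_ ?_ hz
    · intro c hc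
      exact Nz.inf (Nz.of_mem hc) (Nz.of_normal c (Ft S.G))
    · rintro s' t' hs' ht' hst' x' hx' y' hy' ⟨a, ha⟩ ⟨b', hb'⟩
      have : Fact s'.Prime := ⟨hs'⟩
      have : Fact t'.Prime := ⟨ht'⟩
      have h1 : x' ∈ Op s' S.G := mem_Op_of_mem_Ft hx'.2 ha
      have h2 : y' ∈ Op t' S.G := mem_Op_of_mem_Ft hy'.2 hb'
      have h3 : ⁅x', y'⁆ = 1 := commutatorElement_eq_one_iff_mul_comm.2 (Op_comm hst' h1 h2)
      rw [h3]; exact (S.B κ).one_mem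
  have hBC : q S κ ⟨b, hbC⟩ ∈
      Ft (⊤ : Subgroup (↥(fx S.G S.φ) ⧸ (S.B κ).subgroupOf (fx S.G S.φ))) := by
    refine aux S κ (N := S.B (κ + 1)) (S.hBC _) (S.hBn _) ?_ hb
    exact S.hBF κ
  have hπx := hFC x ⟨hxC, hxF⟩
  have hπf := hFC (b⁻¹ * d) ⟨hfC, hfF⟩
  have hπd : q S κ ⟨d, hdC⟩ ∈
      Ft (⊤ : Subgroup (↥(fx S.G S.φ) ⧸ (S.B κ).subgroupOf (fx S.G S.φ))) := by
    have h1 := mul_mem hBC hπf
    rw [← map_mul] at h1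
    have h2 : (⟨b, hbC⟩ : ↥(fx S.G S.φ)) * ⟨b⁻¹ * d, hfC⟩ = ⟨d, hdC⟩ := by
      apply Subtype.ext
      simp
    rwa [h2] at h1
  obtain ⟨n, hn⟩ := hdr
  have hπd2 : q S κ ⟨d, hdC⟩ ∈ Op r (⊤ : Subgroup _) :=
    mem_Op_of_mem_Ft (n := n) hπd (by
      rw [← map_pow]
      have : (⟨d, hdC⟩ : ↥(fx S.G S.φ)) ^ r ^ n = 1 := Subtype.ext hn
      rw [this, map_one])
  obtain ⟨m, hm⟩ := Op_isP s S.G ⟨x, hx⟩
  have hm' : x ^ s ^ m = 1 := congrArg Subtype.val hm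
  have hπx2 : q S κ ⟨x, hxC⟩ ∈ Op s (⊤ : Subgroup _) :=
    mem_Op_of_mem_Ft (n := m) hπx (by
      rw [← map_pow]
      have : (⟨x, hxC⟩ : ↥(fx S.G S.φ)) ^ s ^ m = 1 := Subtype.ext hm'
      rw [this, map_one])
  have h5 := Op_comm hsr hπx2 hπd2
  have h6 : q S κ ⁅(⟨x, hxC⟩ : ↥(fx S.G S.φ)), ⟨d, hdC⟩⁆ = 1 := by
    rw [map_commutatorElement, commutatorElement_eq_one_iff_mul_comm]
    exact h5
  exact (q_eq_one S κ _).1 h6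

end Pool.FH
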