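import Pool.Agent.Work.MP_4c212b_al.Interface

/-!
# Block VE: `|P/K| ≤ b` if `φ` has no nonzero fixed vectors
-/

set_option autoImplicit false

open Subgroup
open scoped commutatorElement

namespace Pool.FH

namespace VE

section

variable {k E V : Type} [Field k] [Group E] [AddCommGroup V] [Module k V]
variable {ρ : Representation k E V}

theorem mulA (g h : E) (v : V) : ρ (g * h) v = ρ g (ρ h v) := by
  rw [map_mul]; rfl

theorem oneA (v : V) : ρ 1 v = v := by
  rw [map_one]; rfl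

/-- the kernel of the action on a subspace -/
def ker' (ρ : Representation k E V) (W : Submodule k V) : Subgroup E where
  carrier := {g | ∀ w ∈ W, ρ g w = w}
  one_mem' := fun w _ => oneA w
  mul_mem' := fun {g h} h1 h2 w hw => by rw [mulA, h2 w hw, h1 w hw]
  inv_mem' := fun {g} h1 w hw => by
    have h2 : ρ g⁻¹ (ρ g w) = w := by rw [← mulA, inv_mul_cancel, oneA]
    rwa [h1 w hw] at h2

theorem commA {x y : E} {w : V} (h : ρ ⁅x, y⁆ (ρ (y * x) w) = ρ (y * x) w) :
    ρ x (ρ y w) = ρ y (ρ x w) := by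
  have h1 : x * y = ⁅x, y⁆ * (y * x) := by
    rw [commutatorElement_def]; group
  rw [← mulA, ← mulA, h1, mulA, h]

/-- class two identities -/
theorem comm_mul_left {x x' y : E} (h : ⁅x', y⁆ * x = x * ⁅x', y⁆) :
    ⁅x * x', y⁆ = ⁅x', y⁆ * ⁅x, y⁆ := by
  have h1 : ⁅x * x', y⁆ = x * ⁅x', y⁆ * x⁻¹ * ⁅x, y⁆ := by
    simp only [commutatorElement_def]; group
  rw [h1, ← h, mul_inv_cancel_right]

theorem comm_inv_left {x y : E} (h : ⁅x, y⁆ * x = x * ⁅x, y⁆) : ⁅x⁻¹, y⁆ = ⁅x, y⁆⁻¹ := by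
  have h1 : ⁅x⁻¹, y⁆ = x⁻¹ * ⁅x, y⁆⁻¹ * x := by
    simp only [commutatorElement_def]; group
  rw [h1]
  have h2 : ⁅x, y⁆⁻¹ * x = x * ⁅x, y⁆⁻¹ := by
    have h3 : Commute ⁅x, y⁆ x := h
    exact h3.inv_left.eq
  rw [mul_assoc, h2, inv_mul_cancel_left]

end

section

variable {E : Type} [Group E]

/-- `{x ∈ P : [x, P] ≤ L}` -/
def zl (P L : Subgroup E)
    (h : ∀ a ∈ P, ∀ b ∈ P, ∀ c ∈ P, ⁅a, b⁆ * c = c * ⁅a, b⁆) : Subgroup E where
  carrier := {x | x ∈ P ∧ ∀ y ∈ P, ⁅x, y⁆ ∈ L}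
  one_mem' := ⟨P.one_mem, fun y _ => by simp [L.one_mem]⟩
  mul_mem' := by
    rintro x x' ⟨h1, h2⟩ ⟨h3, h4⟩
    refine ⟨P.mul_mem h1 h3, fun y hy => ?_⟩
    rw [comm_mul_left (h x' h3 y hy x h1)]
    exact L.mul_mem (h4 y hy) (h2 y hy)
  inv_mem' := by
    rintro x ⟨h1, h2⟩
    refine ⟨P.inv_mem h1, fun y hy => ?_⟩
    rw [comm_inv_left (h x h1 y hy x h1)]
    exact L.inv_mem (h2 y hy)

end

/-- The core of VE: for an irreducible `W` of `P⟨φ⟩` without `φ`-fixed vectors. -/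
theorem core (hVL : Stmt_VL) (hNUM : Stmt_NUM) {k E V : Type} [Field k] [IsAlgClosed k] [Group E]
    [Finite E] [AddCommGroup V] [Module k V] [FiniteDimensional k V] {ρ : Representation k E V}
    {p q : ℕ} [hp : Fact p.Prime] [hq : Fact q.Prime] (hpq : p ≠ q) {φ : E} {P : Subgroup E}
    (hpk : (p : k) ≠ 0) (hqk : (q : k) ≠ 0) (hφ : φ ^ p = 1) (hP : IsPGroup q P) (hφP : Nz φ P)
    (hPφ : P ≤ cm P φ) (hfix : ∀ v, ρ φ v = v → v = 0)
    (hcl : ∀ a ∈ P, ∀ b ∈ P, ∀ c ∈ P, ⁅a, b⁆ * c = c * ⁅a, b⁆)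
    {W : Submodule k V} (hW : Irr ρ ((P : Set E) ∪ {φ}) W)
    (hS : ∀ x ∈ P, ∀ y ∈ P, Scal ρ ⁅x, y⁆ W) {D : Subgroup E}
    (hD : ∀ x ∈ P, Scal ρ x W → x ∈ D) (hDP : D ≤ P) : D.relIndex P ≤ p ^ 2 := by
  classical
  have hcardH : ∀ H ≤ P, (Nat.card H : k) ≠ 0 := fun H hH =>
    card_ne_zero_of_isPGroup (hP.to_le hH) hqk
  have hWP : InvS ρ P W := fun g hg => hW.2.1 g (Or.inl hg)
  have hWφ : Inv ρ φ W := hW.2.1 φ (Or.inr rfl)
  have hA : ∀ X ≤ P, Nz φ X → ∀ U ∈ wts ρ X W, U.map (ρ φ) = U := by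
    intro X hXP hX U hU
    by_contra hcon
    obtain ⟨v, -, hv0, hv, -⟩ := fixed_of_moved (p := p) hφ hXP (hcardH X hXP) hX hWφ hU hcon
    exact hv0 (hfix v hv)
  have hinv_of_map : ∀ (g : E) (U : Submodule k V), U.map (ρ g) = U → Inv ρ g U := by
    intro g U h w hw
    have h1 : ρ g w ∈ U.map (ρ g) := ⟨w, hw, rfl⟩
    rwa [h] at h1
  -- elements of the centre on `W` are scalars
  have hZU : ∀ x ∈ P, (∀ y ∈ P, ∀ w ∈ W, ρ ⁅x, y⁆ w = w) → Scal ρ x W := by
    intro x hx hxy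
    let D' : Subgroup E := zl P (ker' ρ W) hcl
    have hD'P : D' ≤ P := fun a ha => ha.1
    have hD'φ : Nz φ D' := by
      rintro a ⟨ha, ha'⟩
      refine ⟨hφP a ha, fun y hy w hw => ?_⟩
      have hy' : φ⁻¹ * y * φ ∈ P := by
        have := hφP.inv y hy
        simpa using this
      have h1 : ⁅φ * a * φ⁻¹, y⁆ = φ * ⁅a, φ⁻¹ * y * φ⁆ * φ⁻¹ := by
        simp only [commutatorElement_def]; group
      have h2 : ρ φ⁻¹ w ∈ W := hWφ.inv w hw
      rw [h1, mulA, mulA, ha' _ hy' _ h2, rho_apply_inv]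
    have hab : AbOn ρ D' W := by
      intro a ha b hb w hw
      exact commA (ha.2 b hb.1 _ (hWP _ (P.mul_mem hb.1 ha.1) w hw))
    have hsup := wts_sup (hcardH D' hD'P) (fun g hg => hWP g (hD'P hg)) hab
    have hne : (wts ρ D' W).Nonempty := by
      by_contra hcon
      rw [Set.not_nonempty_iff_eq_empty] at hcon
      rw [hcon, sSup_empty] at hsup
      exact hW.1 hsup.symm
    obtain ⟨U, hU⟩ := hne
    have hUW : U ≤ W := by
      rw [← hsup]
      exact le_sSup hU
    have hUeq : U = W := by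
      apply hW.2.2 U hUW hU.1
      rintro g (hg | hg)
      · apply hinv_of_map
        apply wts_fixed_of_comm (hWP g hg) _ hU
        intro a ha w hw
        exact commA (ha.2 g hg _ (hWP _ (P.mul_mem hg ha.1) w hw))
      · rw [Set.mem_singleton_iff] at hg
        subst hg
        exact hinv_of_map _ _ (hA D' hD'P hD'φ U hU)
    obtain ⟨-, χ, hχ⟩ := hU
    refine ⟨χ x, fun w hw => ?_⟩
    rw [← hUeq, hχ] at hw
    exact hw.2 x ⟨hx, fun y hy => hxy y hy⟩
  -- fixed point freeness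
  have hfpf : ∀ i, 0 < i → i < p → ∀ x ∈ P, Scal ρ ⁅φ ^ i, x⁆ W → Scal ρ x W := by
    intro i hi0 hip x hx hxi
    let M : Subgroup E :=
      { carrier := {x | x ∈ P ∧ Scal ρ x W}
        one_mem' := ⟨P.one_mem, 1, fun w _ => by rw [oneA, one_smul]⟩
        mul_mem' := by
          rintro a b ⟨ha, c, hc⟩ ⟨hb, d, hd⟩
          refine ⟨P.mul_mem ha hb, d * c, fun w hw => ?_⟩
          rw [mulA, hd w hw, map_smul, hc w hw, smul_smul]
        inv_mem' := by
          rintro a ⟨ha, c, hc⟩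
          refine ⟨P.inv_mem ha, c⁻¹, fun w hw => ?_⟩
          by_cases hc0 : c = 0
          · have h1 : w = 0 := by
              have h2 := hc w hw
              rw [hc0, zero_smul] at h2
              have h3 := rho_inv_apply (ρ := ρ) a w
              rw [h2, map_zero] at h3
              exact h3.symm
            rw [h1, map_zero, smul_zero]
          · have h2 := congrArg (ρ a⁻¹) (hc w hw)
            rw [rho_inv_apply, map_smul] at h2
            conv_rhs => rw [h2]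
            rw [smul_smul, inv_mul_cancel₀ hc0, one_smul] }
    have hMP : M ≤ P := fun a ha => ha.1
    have hMφ : ∀ g : E, Nz g P → Inv ρ g W → Nz g M := by
      rintro g hg hgW a ⟨ha, c, hc⟩
      refine ⟨hg a ha, c, fun w hw => ?_⟩
      rw [mulA, mulA, hc _ (hgW.inv w hw), map_smul, rho_apply_inv]
    have hφi : (φ ^ i) ^ p = 1 := by
      rw [← pow_mul, mul_comm, pow_mul, hφ, one_pow]
    have hcop : Nat.Coprime i p := by
      rw [Nat.coprime_comm]
      exact (Nat.Prime.coprime_iff_not_dvd hp.out).2 (Nat.not_dvd_of_pos_of_lt hi0 hip)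
    have hz : zpowers φ ≤ zpowers (φ ^ i) := by
      rw [zpowers_le]
      obtain ⟨a, b, hab⟩ := (Nat.isCoprime_iff_coprime.2 hcop)
      refine ⟨a, ?_⟩
      have h1 : φ ^ (a * (i : ℤ) + b * (p : ℤ)) = φ := by rw [hab, zpow_one]
      rw [zpow_add, mul_comm b, zpow_mul φ (p : ℤ) b, zpow_natCast, hφ, one_zpow, mul_one,
        mul_comm a, zpow_mul, zpow_natCast] at h1
      exact h1
    have hcm : P ≤ cm P (φ ^ i) ⊔ M :=
      (hPφ.trans (commutator_mono le_rfl hz)).trans le_sup_left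
    have h := fx_abelian (p := p) (Q := P) (M := M) (φ := φ ^ i) (n := 1)
      (by rw [pow_one]; exact hφi) (not_dvd_card_of_isPGroup hpq hP) (hφP.pow i) hMP
      (hMφ _ (hφP.pow i) (by
        intro w hw
        have h3 : ∀ n : ℕ, ρ (φ ^ n) w ∈ W := by
          intro n
          induction n with
          | zero => rw [pow_zero, oneA]; exact hw
          | succ n ih => rw [pow_succ', mulA]; exact hWφ _ ih
        exact h3 i))
      (fun a ha b hb => ⟨by
        rw [commutatorElement_def]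
        exact P.mul_mem (P.mul_mem (P.mul_mem ha hb) (P.inv_mem ha)) (P.inv_mem hb), hS a ha b hb⟩)
      hcm hx (by
        refine ⟨?_, hxi⟩
        rw [commutatorElement_def]
        exact P.mul_mem ((hφP.pow i) x hx) (P.inv_mem hx))
    exact h.2
  obtain ⟨-, hcard, hsum, hsq⟩ := hVL k E V ρ P φ 1 p W hp.out.pos hpk (hcardH P le_rfl)
    one_ne_zero hφP hWP hWφ hW hS hZU (fun w _ => by rw [one_pow, one_smul, hφ, oneA]) hfpf
  have hcardroots : (Polynomial.nthRootsFinset p (1 : k)).card = p := by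
    have : NeZero (p : k) := ⟨hpk⟩
    obtain ⟨z, hz⟩ := HasEnoughRootsOfUnity.exists_primitiveRoot k p
    exact hz.card_nthRootsFinset
  have h1root : (1 : k) ∈ Polynomial.nthRootsFinset p (1 : k) :=
    Polynomial.one_mem_nthRootsFinset hp.out.pos
  have hm1 : Module.finrank k
      (W ⊓ Module.End.eigenspace ((1 : k) • ρ φ) 1 : Submodule k V) = 0 := by
    rw [Submodule.finrank_eq_zero, eq_bot_iff]
    rintro v ⟨-, hv⟩
    rw [SetLike.mem_coe, Module.End.mem_eigenspace_iff, one_smul, one_smul] at hv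
    rw [Submodule.mem_bot]
    exact hfix v hv
  set m : k → ℕ := fun ψ =>
    Module.finrank k (W ⊓ Module.End.eigenspace ((1 : k) • ρ φ) ψ : Submodule k V) with hm
  obtain ⟨i0, hi0, a, ha, ha'⟩ := hNUM k (Polynomial.nthRootsFinset p (1 : k)) m
    (Module.finrank k W) ⟨1, h1root⟩ hsum (by rw [hcardroots]; exact hsq)
  have hd : Module.finrank k W ≤ p := by
    rw [← hsum, ← Finset.add_sum_erase _ _ hi0]
    have h2 : ∑ x ∈ (Polynomial.nthRootsFinset p (1 : k)).erase i0, m x = (p - 1) * a := by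
      rw [Finset.sum_congr rfl (fun x hx => ha x (Finset.mem_of_mem_erase hx)
        (Finset.ne_of_mem_erase hx)), Finset.sum_const, Finset.card_erase_of_mem hi0,
        hcardroots, smul_eq_mul]
    have h3 : m i0 + ∑ x ∈ (Polynomial.nthRootsFinset p (1 : k)).erase i0, m x ≤ p := by
      rw [h2]
      have hm1' : m 1 = 0 := hm1
      have hpos := hp.out.pos
      by_cases h4 : i0 = 1
      · rw [h4] at ha' ⊢
        rcases ha' with h5 | h5
        · omega
        · rw [hm1'] at h5 ⊢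
          rw [← h5]
          omega
      · have h5 := ha 1 h1root (fun h => h4 h.symm)
        rw [hm1'] at h5
        rw [← h5] at ha' ⊢
        rcases ha' with h6 | h6
        · rw [h6]
          omega
        · omega
    exact h3
  have h6 : Nat.card {x : E // x ∈ P ∧ Scal ρ x W} ≤ Nat.card D :=
    Nat.card_le_card_of_injective (fun x => (⟨x.1, hD x.1 x.2.1 x.2.2⟩ : D))
      (fun x y h => Subtype.ext (congrArg (fun z : D => (z : E)) h))
  have h7 : D.relIndex P * Nat.card D = Nat.card P := by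
    have h8 := relIndex_mul_relIndex (⊥ : Subgroup E) D P bot_le hDP
    rw [relIndex_bot_left, relIndex_bot_left] at h8
    rw [mul_comm]
    exact h8
  have h9 : D.relIndex P * Nat.card D ≤ p ^ 2 * Nat.card D := by
    rw [h7, hcard]
    exact Nat.mul_le_mul (Nat.pow_le_pow_left hd 2) h6
  exact Nat.le_of_mul_le_mul_right h9 Nat.card_pos

/-- The faithful case. -/
theorem faithful (hVL : Stmt_VL) (hNUM : Stmt_NUM) {p m q : ℕ} [hp : Fact p.Prime]
    [hq : Fact q.Prime] {E : Type} [Group E] [Finite E]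
    {φ : E} {P : Subgroup E} {ι : Type} {k V : ι → Type} [∀ i, Field (k i)]
    [∀ i, IsAlgClosed (k i)] [∀ i, AddCommGroup (V i)] [∀ i, Module (k i) (V i)]
    [∀ i, FiniteDimensional (k i) (V i)] {ρ : ∀ i, Representation (k i) E (V i)}
    (hpq : p ≠ q) (hpk : ∀ i, (p : k i) ≠ 0) (hqk : ∀ i, (q : k i) ≠ 0) (hφ : φ ^ p = 1)
    (hP : IsPGroup q P) (hφP : Nz φ P) (hPφ : P ≤ cm P φ) (hm : Nat.card (fx P φ) ≤ m)
    (hfix : ∀ i v, ρ i φ v = v → v = 0) (hfaith : ∀ x ∈ P, (∀ i v, ρ i x v = v) → x = 1) :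
    Nat.card P ≤ m * (p ^ 2) ^ (2 ^ m) := by
  classical
  have hcardH : ∀ i, ∀ H ≤ P, (Nat.card H : k i) ≠ 0 := fun i H hH =>
    card_ne_zero_of_isPGroup (hP.to_le hH) (hqk i)
  have hA : ∀ i, ∀ X ≤ P, Nz φ X → ∀ U ∈ wts (ρ i) X ⊤, U.map (ρ i φ) = U := by
    intro i X hXP hX U hU
    by_contra hcon
    obtain ⟨v, -, hv0, hv, -⟩ := fixed_of_moved (p := p) hφ hXP (hcardH i X hXP) hX
      (fun _ _ => Submodule.mem_top) hU hcon
    exact hv0 (hfix i v hv)
  have hinv_of_map : ∀ i (g : E) (U : Submodule (k i) (V i)), U.map (ρ i g) = U →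
      Inv (ρ i) g U := by
    intro i g U h w hw
    have h1 : ρ i g w ∈ U.map (ρ i g) := ⟨w, hw, rfl⟩
    rwa [h] at h1
  have hB : ∀ X ≤ P, Nz φ X → NzS P X → (∀ a ∈ X, ∀ b ∈ X, a * b = b * a) →
      (∀ a ∈ X, φ * a = a * φ) ∧ ∀ a ∈ X, ∀ b ∈ P, b * a = a * b := by
    intro X hXP hX hPX hab
    have h1 : ∀ a ∈ X, φ * a = a * φ := by
      intro a ha
      have h2 : ⁅a, φ⁆ ∈ cm X φ := comm_mem_cm ha
      have h3 : ⁅a, φ⁆ = 1 := by
        apply hfaith _ (hXP (cm_le hX h2))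
        intro i v
        have hab' : AbOn (ρ i) X ⊤ := by
          intro x hx y hy w _
          rw [← mulA, ← mulA, hab x hx y hy]
        have hsup := wts_sup (hcardH i X hXP) (fun g _ _ _ => Submodule.mem_top) hab'
        have h4 : (⊤ : Submodule (k i) (V i)) ≤ LinearMap.eqLocus (ρ i ⁅a, φ⁆) LinearMap.id := by
          rw [← hsup]
          apply sSup_le
          intro U hU u hu
          rw [LinearMap.mem_eqLocus]
          exact cm_triv_of_fixed hX (fun _ _ => Submodule.mem_top) hU (hA i X hXP hX U hU) _ h2 u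
            hu
        exact h4 (Submodule.mem_top (x := v))
      rw [commutatorElement_eq_one_iff_mul_comm] at h3
      exact h3.symm
    exact ⟨h1, fun a ha b hb => three_sub hPX h1 a ha b (hPφ hb)⟩
  have hcl1 : ∀ a ∈ P, ∀ b ∈ P, ∀ c ∈ P, ⁅⁅a, b⁆, c⁆ ∈ (⊥ : Subgroup E) := by
    apply class_two (A := {φ}) hP bot_le
    · intro g _ x hx
      rw [mem_bot] at hx ⊢
      rw [hx]; simp
    · intro g hg
      rw [Set.mem_singleton_iff] at hg
      subst hg
      refine ⟨hφP, fun x hx => ?_⟩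
      rw [mem_bot] at hx ⊢
      rw [hx]; simp
    · intro X _ hXP hX hPX hab a ha b hb
      have h1 := (hB X hXP (hX φ rfl) hPX (fun x hx y hy => by
        have h2 := hab x hx y hy
        rw [mem_bot, commutatorElement_eq_one_iff_mul_comm] at h2
        exact h2)).2 a ha b hb
      rw [mem_bot, commutatorElement_eq_one_iff_mul_comm, h1]
  have hcl : ∀ a ∈ P, ∀ b ∈ P, ∀ c ∈ P, ⁅a, b⁆ * c = c * ⁅a, b⁆ := by
    intro a ha b hb c hc
    have h1 := hcl1 a ha b hb c hc
    rwa [mem_bot, commutatorElement_eq_one_iff_mul_comm] at h1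
  have hcomP : ∀ a ∈ P, ∀ b ∈ P, ⁅a, b⁆ ∈ P := by
    intro a ha b hb
    rw [commutatorElement_def]
    exact P.mul_mem (P.mul_mem (P.mul_mem ha hb) (P.inv_mem ha)) (P.inv_mem hb)
  let Z : Subgroup E := fxS P P
  have hZP : Z ≤ P := fun x hx => (mem_fxS.1 hx).1
  have hZc : ∀ z ∈ Z, ∀ a ∈ P, a * z = z * a := fun z hz => (mem_fxS.1 hz).2
  have hcomZ : ∀ a ∈ P, ∀ b ∈ P, ⁅a, b⁆ ∈ Z := fun a ha b hb =>
    mem_fxS.2 ⟨hcomP a ha b hb, fun c hc => (hcl a ha b hb c hc).symm⟩
  have hZφ : Nz φ Z := fxS_nz hφP hφP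
  have hPZ : NzS P Z := by
    intro g hg z hz
    have h1 : g * z * g⁻¹ = z := by rw [hZc z hz g hg, mul_inv_cancel_right]
    rw [h1]; exact hz
  have hZfx : ∀ a ∈ Z, φ * a = a * φ :=
    (hB Z hZP hZφ hPZ (fun a ha b hb => hZc b hb a (hZP ha))).1
  have hZcard : Nat.card Z ≤ m := by
    refine le_trans ?_ hm
    exact Nat.card_le_card_of_injective (fun x => (⟨x.1, mem_fx.2 ⟨hZP x.2, hZfx x.1 x.2⟩⟩ : fx P φ))
      (fun x y h => Subtype.ext (congrArg (fun z : fx P φ => (z : E)) h))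
  -- the main estimate
  have hmain : ∀ i, ∀ U ∈ wts (ρ i) Z ⊤, (zl P (Z ⊓ ker' (ρ i) U) hcl).relIndex P ≤ p ^ 2 := by
    intro i U hU
    have hUφ : Inv (ρ i) φ U := hinv_of_map i φ U (hA i Z hZP hZφ U hU)
    have hUP : InvS (ρ i) P U := by
      intro g hg
      apply hinv_of_map
      apply wts_fixed_of_comm (fun _ _ => Submodule.mem_top) _ hU
      intro x hx w _
      rw [← mulA, ← mulA, hZc x hx g hg]
    obtain ⟨W, hWU, hW⟩ := exists_irr (ρ := ρ i) ((P : Set E) ∪ {φ}) hU.1 (by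
      rintro g (hg | hg)
      · exact hUP g hg
      · rw [Set.mem_singleton_iff] at hg
        subst hg
        exact hUφ)
    obtain ⟨-, χ, hχ⟩ := hU
    have hUχ : ∀ u ∈ U, ∀ x ∈ Z, ρ i x u = χ x • u := by
      intro u hu x hx
      rw [hχ] at hu
      exact hu.2 x hx
    apply core hVL hNUM hpq (hpk i) (hqk i) hφ hP hφP hPφ (hfix i) hcl hW
    · intro x hx y hy
      exact ⟨χ ⁅x, y⁆, fun w hw => hUχ w (hWU hw) _ (hcomZ x hx y hy)⟩
    · rintro x hx ⟨c, hc⟩
      refine ⟨hx, fun y hy => ⟨hcomZ x hx y hy, ?_⟩⟩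
      have hWP : Inv (ρ i) y W := hW.2.1 y (Or.inl hy)
      obtain ⟨w, hw, hw0⟩ := (Submodule.ne_bot_iff _).1 hW.1
      have h1 : ρ i ⁅x, y⁆ w = w := by
        have hyw : ρ i y⁻¹ w ∈ W := hWP.inv w hw
        by_cases hc0 : c = 0
        · exfalso
          have h2 := hc w hw
          rw [hc0, zero_smul] at h2
          have h3 := rho_inv_apply (ρ := ρ i) x w
          rw [h2, map_zero] at h3
          exact hw0 h3.symm
        have hxw : ∀ w' ∈ W, ρ i x⁻¹ w' = c⁻¹ • w' := by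
          intro w' hw'
          have h2 := congrArg (ρ i x⁻¹) (hc w' hw')
          rw [rho_inv_apply, map_smul] at h2
          conv_rhs => rw [h2]
          rw [smul_smul, inv_mul_cancel₀ hc0, one_smul]
        rw [commutatorElement_def, mulA, mulA, mulA, hxw _ hyw, map_smul, rho_apply_inv, map_smul,
          hc w hw, smul_smul, inv_mul_cancel₀ hc0, one_smul]
      intro u hu
      have h2 := hUχ w (hWU hw) _ (hcomZ x hx y hy)
      rw [h1] at h2
      have h3 : χ ⁅x, y⁆ = 1 := by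
        have h4 : (1 - χ ⁅x, y⁆) • w = 0 := by rw [sub_smul, ← h2, one_smul, sub_self]
        exact (sub_eq_zero.1 ((smul_eq_zero.1 h4).resolve_right hw0)).symm
      rw [hUχ u hu _ (hcomZ x hx y hy), h3, one_smul]
    · exact fun x hx => hx.1
  -- counting
  let LL : Set (Subgroup E) := {L | L ≤ Z ∧ (zl P L hcl).relIndex P ≤ p ^ 2}
  have hLL : Nat.card LL ≤ 2 ^ m := by
    have h1 : Nat.card LL ≤ Nat.card (Set Z) := by
      apply Nat.card_le_card_of_injective (fun L : LL => {z : Z | (z : E) ∈ (L : Subgroup E)})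
      intro L L' h
      apply Subtype.ext
      ext x
      have h2 : ∀ z : Z, (z : E) ∈ (L : Subgroup E) ↔ (z : E) ∈ (L' : Subgroup E) := fun z =>
        Set.ext_iff.1 h z
      constructor
      · intro hx
        exact (h2 ⟨x, L.2.1 hx⟩).1 hx
      · intro hx
        exact (h2 ⟨x, L'.2.1 hx⟩).2 hx
    have h2 : Nat.card (Set Z) = 2 ^ Nat.card Z := by
      have := Fintype.ofFinite Z
      rw [Nat.card_eq_fintype_card, Nat.card_eq_fintype_card, Fintype.card_set]
    rw [h2] at h1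
    exact h1.trans (Nat.pow_le_pow_right (by norm_num) hZcard)
  have : Fintype LL := Fintype.ofFinite _
  have hinf : (⨅ L : LL, zl P (L : Subgroup E) hcl) ⊓ P ≤ Z := by
    rintro x ⟨hx, hxP⟩
    have hx' : ∀ L : LL, x ∈ zl P (L : Subgroup E) hcl := by
      intro L
      exact (Subgroup.mem_iInf.1 hx) L
    refine mem_fxS.2 ⟨hxP, fun y hy => ?_⟩
    have h1 : ⁅x, y⁆ = 1 := by
      apply hfaith _ (hcomP x hxP y hy)
      intro i v
      have hab' : AbOn (ρ i) Z ⊤ := by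
        intro a ha b hb w _
        rw [← mulA, ← mulA, hZc b hb a (hZP ha)]
      have hsup := wts_sup (hcardH i Z hZP) (fun g _ _ _ => Submodule.mem_top) hab'
      have h4 : (⊤ : Submodule (k i) (V i)) ≤ LinearMap.eqLocus (ρ i ⁅x, y⁆) LinearMap.id := by
        rw [← hsup]
        apply sSup_le
        intro U hU u hu
        rw [LinearMap.mem_eqLocus]
        have h5 := hx' ⟨Z ⊓ ker' (ρ i) U, inf_le_left, hmain i U hU⟩
        exact (h5.2 y hy).2 u hu
      exact h4 (Submodule.mem_top (x := v))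
    rw [commutatorElement_eq_one_iff_mul_comm] at h1
    exact h1.symm
  have h1 : Z.relIndex P ≤ (p ^ 2) ^ (2 ^ m) := by
    have h2 : Z.relIndex P ≤ (⨅ L : LL, zl P (L : Subgroup E) hcl).relIndex P := by
      rw [← inf_relIndex_right (⨅ L : LL, zl P (L : Subgroup E) hcl) P]
      apply relIndex_le_of_le_left hinf
      exact index_ne_zero_of_finite
    refine h2.trans ((relIndex_iInf_le _).trans ?_)
    refine (Finset.prod_le_prod' (fun L _ => L.2.2)).trans ?_
    rw [Finset.prod_const, Finset.card_univ, ← Nat.card_eq_fintype_card]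
    exact Nat.pow_le_pow_right (pow_pos hp.out.pos 2) hLL
  have h7 : Z.relIndex P * Nat.card Z = Nat.card P := by
    have h8 := relIndex_mul_relIndex (⊥ : Subgroup E) Z P bot_le hZP
    rw [relIndex_bot_left, relIndex_bot_left] at h8
    rw [mul_comm]
    exact h8
  rw [← h7, mul_comm]
  exact Nat.mul_le_mul hZcard h1

end VE

theorem stmt_VE (hVL : Stmt_VL) (hNUM : Stmt_NUM) : Stmt_VE := by
  intro p m hp
  refine ⟨m * (p ^ 2) ^ (2 ^ m), ?_⟩
  intro E _ _ q φ P ι k V _ _ _ _ _ ρ hq hpq hpk hqk hφ hP hφP hPφ hm hfix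
  have : Fact p.Prime := ⟨hp⟩
  have : Fact q.Prime := ⟨hq⟩
  let N : Subgroup E :=
    { carrier := {x | ∀ i v, ρ i x v = v}
      one_mem' := fun i v => VE.oneA v
      mul_mem' := fun {a b} ha hb i v => by rw [VE.mulA, hb i v, ha i v]
      inv_mem' := fun {a} ha i v => by
        have h1 := rho_inv_apply (ρ := ρ i) a v
        rwa [ha i v] at h1 }
  have hNn : N.Normal := ⟨fun x hx g i v => by
    rw [VE.mulA, VE.mulA, hx i, rho_apply_inv]⟩
  let f : E →* E ⧸ N := QuotientGroup.mk' N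
  let ρ' : ∀ i, Representation (k i) (E ⧸ N) (V i) := fun i =>
    QuotientGroup.lift N (ρ i) (fun x hx => by
      apply LinearMap.ext
      intro v
      exact hx i v)
  have hρ' : ∀ i (x : E) v, ρ' i (f x) v = ρ i x v := fun i x v => rfl
  have hker : f.ker = N := QuotientGroup.ker_mk' N
  let K : Subgroup E := N ⊓ P
  have hKφ : Nz φ K := (Nz.of_normal φ N).inf hφP
  have hfx : Nat.card (fx (P.map f) (f φ)) ≤ Nat.card (fx P φ) := by
    apply Nat.card_le_card_of_surjective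
      (fun x : fx P φ => (⟨f x.1, mem_fx.2 ⟨⟨x.1, (mem_fx.1 x.2).1, rfl⟩, by
        rw [← map_mul, (mem_fx.1 x.2).2, map_mul]⟩⟩ : fx (P.map f) (f φ)))
    rintro ⟨y, hy⟩
    obtain ⟨⟨x, hx, rfl⟩, hxφ⟩ := mem_fx.1 hy
    have h1 : x⁻¹ * (φ * x * φ⁻¹) ∈ K := by
      refine ⟨?_, P.mul_mem (P.inv_mem hx) (hφP x hx)⟩
      change x⁻¹ * (φ * x * φ⁻¹) ∈ N
      rw [← hker, MonoidHom.mem_ker]
      simp only [map_mul, map_inv]
      rw [hxφ]; group
    obtain ⟨n, hn, h2⟩ := cp_fix1 (N := K) hφ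
      (not_dvd_card_of_isPGroup hpq (hP.to_le inf_le_right)) hKφ h1
    refine ⟨⟨x * n, mem_fx.2 ⟨P.mul_mem hx hn.2, h2⟩⟩, Subtype.ext ?_⟩
    change f (x * n) = f x
    have h3 : f n = 1 := by
      rw [← MonoidHom.mem_ker, hker]
      exact hn.1
    rw [map_mul, h3, mul_one]
  have hmain := VE.faithful hVL hNUM (p := p) (q := q) (m := m) (φ := f φ) (P := P.map f) (ρ := ρ')
    hpq hpk hqk (by rw [← map_pow, hφ, map_one]) (hP.map f)
    (by
      rintro _ ⟨x, hx, rfl⟩
      exact ⟨φ * x * φ⁻¹, hφP x hx, by simp⟩)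
    (by
      have h1 : cm (P.map f) (f φ) = (cm P φ).map f := by
        rw [cm, cm, Subgroup.map_commutator, MonoidHom.map_zpowers]
      rw [h1]
      exact map_mono hPφ)
    (hfx.trans hm)
    (fun i v hv => hfix i v hv)
    (by
      rintro _ ⟨x, hx, rfl⟩ h
      rw [← MonoidHom.mem_ker, hker]
      exact fun i v => h i v)
  have h1 : K.relIndex P = Nat.card (P.map f) := by
    rw [← relIndex_ker, hker]
    exact inf_relIndex_right N P
  have h2 := relIndex_mul_relIndex (⊥ : Subgroup E) K P bot_le inf_le_right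
  rw [relIndex_bot_left, relIndex_bot_left, h1] at h2
  have h3 : Nat.card K = Nat.card {x : E // x ∈ P ∧ ∀ i v, ρ i x v = v} := by
    apply Nat.card_congr
    exact
      { toFun := fun x => ⟨x.1, x.2.2, x.2.1⟩
        invFun := fun x => ⟨x.1, x.2.2, x.2.1⟩
        left_inv := fun x => rfl
        right_inv := fun x => rfl }
  rw [← h2, ← h3, mul_comm]
  exact Nat.mul_le_mul_right _ hmain

end Pool.FH
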