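import Pool.Agent.Work.MP_4c212b_al.Interface

/-! Block VL (helper76): groups of extraspecial type, irreducibility and the multiplicities of the
eigenvalues of an operator of order N which permutes them without fixed points. -/

set_option autoImplicit false
set_option linter.unusedSectionVars false

open Module
open scoped commutatorElement

namespace Pool.FH.VLp

variable {k : Type} [Field k]

/-- the eigenspace of a diagonal map -/
theorem finrank_eigenspace_diag {M ι : Type} [AddCommGroup M] [Module k M] [Fintype ι]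
    [DecidableEq ι] [DecidableEq k] (b : Basis ι k M) (μ : ι → k) (σ : M →ₗ[k] M)
    (h : ∀ i, σ (b i) = μ i • b i) (l : k) :
    finrank k (Module.End.eigenspace σ l) = (Finset.univ.filter fun i => μ i = l).card := by
  have hli : LinearIndependent k (fun i : {i // μ i = l} => b i.1) :=
    b.linearIndependent.comp _ Subtype.val_injective
  have hsp : Module.End.eigenspace σ l =
      Submodule.span k (Set.range fun i : {i // μ i = l} => b i.1) := by
    apply le_antisymm
    · intro v hv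
      rw [Module.End.mem_eigenspace_iff] at hv
      have h1 : ∀ i, (μ i - l) * b.repr v i = 0 := by
        intro i
        have h2 : b.repr (σ v) i = μ i * b.repr v i := by
          conv_lhs => rw [← b.sum_repr v]
          rw [map_sum, map_sum, Finsupp.finsetSum_apply]
          simp only [map_smul, h, Finsupp.smul_apply, Basis.repr_self, smul_eq_mul]
          rw [Finset.sum_eq_single i]
          · rw [Finsupp.single_eq_same]; ring
          · intro j _ hj
            rw [Finsupp.single_eq_of_ne (Ne.symm hj)]; ring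
          · intro h; exact absurd (Finset.mem_univ i) h
        rw [hv, map_smul, Finsupp.smul_apply, smul_eq_mul] at h2
        linear_combination -h2
      rw [← b.sum_repr v]
      apply Submodule.sum_mem
      intro i _
      by_cases hi : μ i = l
      · exact Submodule.smul_mem _ _ (Submodule.subset_span ⟨⟨i, hi⟩, rfl⟩)
      · have h3 : b.repr v i = 0 := by
          rcases mul_eq_zero.1 (h1 i) with h4 | h4
          · exact absurd (sub_eq_zero.1 h4) hi
          · exact h4
        rw [h3, zero_smul]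
        exact Submodule.zero_mem _
    · rw [Submodule.span_le]
      rintro _ ⟨⟨i, hi⟩, rfl⟩
      rw [SetLike.mem_coe, Module.End.mem_eigenspace_iff]
      change σ (b i) = l • b i
      rw [h, hi]
  rw [hsp, finrank_span_eq_card hli, Fintype.card_subtype]

theorem sum_range_shift {M : Type} [AddCommGroup M] (f : ℕ → M) (N : ℕ) (h : f N = f 0) :
    ∑ i ∈ Finset.range N, f (i + 1) = ∑ i ∈ Finset.range N, f i := by
  have h1 := Finset.sum_range_succ' f N
  have h2 := Finset.sum_range_succ f N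
  rw [h2, h] at h1
  exact (add_right_cancel h1).symm

theorem geom_zero {x : k} {N : ℕ} (hx : x ^ N = 1) (h1 : x ≠ 1) :
    ∑ j ∈ Finset.range N, x ^ j = 0 := by
  have h := geom_sum_mul x N
  rw [hx, sub_self] at h
  rcases mul_eq_zero.1 h with h | h
  · exact h
  · exact absurd (sub_eq_zero.1 h) h1

/-- the projection to the eigenspaces of a map of finite order -/
theorem sum_eig {M : Type} [AddCommGroup M] [Module k M] {A : M →ₗ[k] M} {N : ℕ}
    (hN0 : 0 < N) (hA : A ^ N = 1) {ζ : k} (hζ : IsPrimitiveRoot ζ N) (w : M) :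
    (∀ j : ℕ, A (∑ i ∈ Finset.range N, (ζ ^ j)⁻¹ ^ i • (A ^ i) w) =
      ζ ^ j • ∑ i ∈ Finset.range N, (ζ ^ j)⁻¹ ^ i • (A ^ i) w) ∧
    ∑ j ∈ Finset.range N, ∑ i ∈ Finset.range N, (ζ ^ j)⁻¹ ^ i • (A ^ i) w = (N : k) • w := by
  constructor
  · intro j
    have hz : ζ ^ j ≠ 0 := pow_ne_zero _ (hζ.ne_zero hN0.ne')
    have h1 : ∀ i, A ((ζ ^ j)⁻¹ ^ i • (A ^ i) w) =
        ζ ^ j • ((ζ ^ j)⁻¹ ^ (i + 1) • (A ^ (i + 1)) w) := by
      intro i
      rw [map_smul, smul_smul, pow_succ' A, pow_succ (ζ ^ j)⁻¹]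
      congr 1
      field_simp
    rw [map_sum, Finset.sum_congr rfl (fun i _ => h1 i), ← Finset.smul_sum]
    congr 1
    apply sum_range_shift (fun i => (ζ ^ j)⁻¹ ^ i • (A ^ i) w)
    have h2 : (ζ ^ j)⁻¹ ^ N = 1 := by
      rw [inv_pow, ← pow_mul, mul_comm, pow_mul, hζ.pow_eq_one, one_pow, inv_one]
    simp only [h2, hA, pow_zero]
  · rw [Finset.sum_comm, Finset.sum_eq_single 0]
    · simp only [pow_zero, one_smul, Finset.sum_const, Finset.card_range]
      rw [Module.End.one_apply, Nat.cast_smul_eq_nsmul]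
    · intro i hi h0
      rw [← Finset.sum_smul]
      have h3 : ∑ j ∈ Finset.range N, (ζ ^ j)⁻¹ ^ i = ∑ j ∈ Finset.range N, ((ζ ^ i)⁻¹) ^ j := by
        apply Finset.sum_congr rfl
        intro j _
        rw [inv_pow, inv_pow, ← pow_mul, ← pow_mul, mul_comm]
      rw [h3, geom_zero, zero_smul]
      · rw [inv_pow, ← pow_mul, mul_comm, pow_mul, hζ.pow_eq_one, one_pow, inv_one]
      · rw [ne_eq, inv_eq_one]
        exact hζ.pow_ne_one_of_pos_of_lt h0 (Finset.mem_range.1 hi)
    · intro h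
      exact absurd (Finset.mem_range.2 hN0) h

/-- a map of finite order prime to the characteristic is diagonalisable -/
theorem exists_eigenbasis [IsAlgClosed k] {M : Type} [AddCommGroup M] [Module k M]
    [FiniteDimensional k M] {A : M →ₗ[k] M} {N : ℕ} (hNk : (N : k) ≠ 0)
    (hA : A ^ N = 1) : ∃ (ι : Type) (_ : Fintype ι) (b : Basis ι k M) (μ : ι → k),
      (∀ i, A (b i) = μ i • b i) ∧ ∀ i, μ i ∈ Polynomial.nthRootsFinset N (1 : k) := by
  classical
  have hN0 : 0 < N := Nat.pos_of_ne_zero (by rintro rfl; simp at hNk)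
  have : NeZero (N : k) := ⟨hNk⟩
  obtain ⟨ζ, hζ⟩ := HasEnoughRootsOfUnity.exists_primitiveRoot k N
  set s : Set M := {v | ∃ l ∈ Polynomial.nthRootsFinset N (1 : k), A v = l • v} with hs
  have hE : ∀ (j : ℕ) (w : M), (∑ i ∈ Finset.range N, (ζ ^ j)⁻¹ ^ i • (A ^ i) w) ∈ s := by
    intro j w
    refine ⟨ζ ^ j, ?_, (sum_eig hN0 hA hζ w).1 j⟩
    rw [Polynomial.mem_nthRootsFinset hN0, ← pow_mul, mul_comm, pow_mul, hζ.pow_eq_one, one_pow]
  have htop : Submodule.span k s = ⊤ := by
    rw [eq_top_iff]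
    intro w _
    have h1 : (N : k) • w ∈ Submodule.span k s := by
      rw [← (sum_eig hN0 hA hζ w).2]
      exact Submodule.sum_mem _ fun j _ => Submodule.subset_span (hE j w)
    have h2 := Submodule.smul_mem _ (N : k)⁻¹ h1
    rwa [smul_smul, inv_mul_cancel₀ hNk, one_smul] at h2
  obtain ⟨t, hts, htsp, hli⟩ := exists_linearIndependent k s
  have htf : Finite t := hli.finite
  let _ : Fintype t := Fintype.ofFinite t
  have hsp : ⊤ ≤ Submodule.span k (Set.range (Subtype.val : t → M)) := by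
    rw [Subtype.range_coe, htsp, htop]
  refine ⟨t, inferInstance, Basis.mk hli hsp, fun i => (hts i.2).choose, fun i => ?_, fun i => ?_⟩
  · rw [Basis.mk_apply]
    exact (hts i.2).choose_spec.2
  · exact (hts i.2).choose_spec.1

/-- Fixed space of a monomial map all of whose orbits but one are regular. -/
theorem orbit_count {M ι : Type} [AddCommGroup M] [Module k M] [Fintype ι] [DecidableEq ι]
    (B : Basis ι k M) (σ : M →ₗ[k] M) (N : ℕ) (hN : 0 < N) (hNk : (N : k) ≠ 0) (π : ι → ι)
    (hσ : ∀ i, ∃ a : k, a ≠ 0 ∧ σ (B i) = a • B (π i)) (hσN : σ ^ N = 1) (i0 : ι)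
    (h0 : σ (B i0) = B i0) (hf' : ∀ j, 0 < j → j < N → ∀ i (a : k), (σ ^ j) (B i) = a • B i →
      i = i0) :
    N * finrank k (Module.End.eigenspace σ 1) + 1 = Fintype.card ι + N := by
  classical
  have hσj : ∀ (j : ℕ) (i : ι), ∃ a : k, a ≠ 0 ∧ (σ ^ j) (B i) = a • B (π^[j] i) := by
    intro j
    induction j with
    | zero => intro i; exact ⟨1, one_ne_zero, by simp⟩
    | succ j ih =>
      intro i
      obtain ⟨a, ha, h1⟩ := ih i
      obtain ⟨b, hb, h2⟩ := hσ (π^[j] i)
      refine ⟨a * b, mul_ne_zero ha hb, ?_⟩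
      rw [pow_succ', Module.End.mul_apply, h1, map_smul, h2, Function.iterate_succ_apply',
        smul_smul]
  have hf : ∀ j, 0 < j → j < N → ∀ i, π^[j] i = i → i = i0 := by
    intro j hj hjN i hi
    obtain ⟨a, _, h1⟩ := hσj j i
    rw [hi] at h1
    exact hf' j hj hjN i a h1
  have hπN : ∀ i, π^[N] i = i := by
    intro i
    obtain ⟨a, ha, h1⟩ := hσj N i
    rw [hσN, Module.End.one_apply] at h1
    by_contra hne
    have h2 := congrArg (fun v => B.repr v i) h1
    simp only [map_smul, Basis.repr_self, Finsupp.smul_apply, smul_eq_mul] at h2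
    rw [Finsupp.single_eq_same, Finsupp.single_eq_of_ne (Ne.symm hne), mul_zero] at h2
    exact one_ne_zero h2
  have hσ0 : ∀ j, (σ ^ j) (B i0) = B i0 := by
    intro j
    induction j with
    | zero => simp
    | succ j ih => rw [pow_succ, Module.End.mul_apply, h0, ih]
  have hπmul : ∀ (m : ℕ) i, π^[N * m] i = i := by
    intro m
    induction m with
    | zero => intro i; simp
    | succ m ih => intro i; rw [Nat.mul_succ, Function.iterate_add_apply, hπN, ih]
  let s : Setoid ι :=
    { r := fun i i' => ∃ j : ℕ, π^[j] i = i'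
      iseqv :=
        { refl := fun i => ⟨0, rfl⟩
          symm := by
            rintro i i' ⟨j, rfl⟩
            refine ⟨(N - 1) * j, ?_⟩
            rw [← Function.iterate_add_apply]
            have : (N - 1) * j + j = N * j := by
              obtain ⟨n, rfl⟩ : ∃ n, N = n + 1 := ⟨N - 1, by omega⟩
              simp; ring
            rw [this, hπmul]
          trans := by
            rintro i i' i'' ⟨j, rfl⟩ ⟨l, rfl⟩
            exact ⟨l + j, Function.iterate_add_apply _ _ _ _⟩ } }
  let Av : M →ₗ[k] M := ∑ j ∈ Finset.range N, σ ^ j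
  have hAv : ∀ w, Av w = ∑ j ∈ Finset.range N, (σ ^ j) w := fun w => by
    simp only [Av, LinearMap.sum_apply]
  have hAvσ : ∀ w, Av (σ w) = Av w := by
    intro w
    rw [hAv, hAv]
    have h1 : ∀ j, (σ ^ j) (σ w) = (fun j => (σ ^ j) w) (j + 1) := by
      intro j; simp only [pow_succ, Module.End.mul_apply]
    rw [Finset.sum_congr rfl fun j _ => h1 j]
    exact sum_range_shift (fun j => (σ ^ j) w) N (by simp [hσN])
  have hσAv : ∀ w, σ (Av w) = Av w := by
    intro w
    rw [hAv, map_sum]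
    have h1 : ∀ j, σ ((σ ^ j) w) = (fun j => (σ ^ j) w) (j + 1) := by
      intro j; simp only [pow_succ', Module.End.mul_apply]
    rw [Finset.sum_congr rfl fun j _ => h1 j]
    exact sum_range_shift (fun j => (σ ^ j) w) N (by simp [hσN])
  have hAvj : ∀ (j : ℕ) w, Av ((σ ^ j) w) = Av w := by
    intro j
    induction j with
    | zero => intro w; simp
    | succ j ih => intro w; rw [pow_succ', Module.End.mul_apply, hAvσ, ih]
  let v : Quotient s → M := fun o => Av (B o.out)
  have hv : ∀ o, v o = Av (B o.out) := fun o => rfl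
  -- coordinates
  have hcoord_ne : ∀ o o' : Quotient s, o ≠ o' → B.repr (v o) o'.out = 0 := by
    intro o o' hne
    rw [hv, hAv, map_sum, Finsupp.finsetSum_apply]
    apply Finset.sum_eq_zero
    intro j _
    obtain ⟨a, ha, h1⟩ := hσj j o.out
    rw [h1, map_smul, Finsupp.smul_apply, Basis.repr_self, Finsupp.single_eq_of_ne, smul_zero]
    intro h2
    apply hne
    have h3 : s.r o.out o'.out := ⟨j, h2.symm⟩
    have h4 : (⟦o.out⟧ : Quotient s) = ⟦o'.out⟧ := Quotient.sound h3
    rwa [Quotient.out_eq, Quotient.out_eq] at h4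
  have hcoord_eq : ∀ o : Quotient s, B.repr (v o) o.out ≠ 0 := by
    intro o
    rw [hv, hAv, map_sum, Finsupp.finsetSum_apply]
    by_cases ho : o.out = i0
    · rw [ho]
      simp only [hσ0, Basis.repr_self, Finsupp.single_eq_same, Finset.sum_const,
        Finset.card_range, nsmul_eq_mul, mul_one]
      exact hNk
    · rw [Finset.sum_eq_single 0]
      · simp
      · intro j hj hj0
        obtain ⟨a, ha, h1⟩ := hσj j o.out
        rw [h1, map_smul, Finsupp.smul_apply, Basis.repr_self, Finsupp.single_eq_of_ne, smul_zero]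
        intro h2
        exact ho (hf j (Nat.pos_of_ne_zero hj0) (Finset.mem_range.1 hj) _ h2.symm)
      · intro h; exact absurd (Finset.mem_range.2 hN) h
  have hli : LinearIndependent k v := by
    rw [Fintype.linearIndependent_iff]
    intro g hg o
    have h1 := congrArg (fun w => B.repr w o.out) hg
    simp only [map_sum, map_smul, Finsupp.finsetSum_apply, Finsupp.smul_apply, smul_eq_mul,
      map_zero, Finsupp.coe_zero, Pi.zero_apply] at h1
    rw [Finset.sum_eq_single o] at h1
    · rcases mul_eq_zero.1 h1 with h2 | h2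
      · exact h2
      · exact absurd h2 (hcoord_eq o)
    · intro o' _ hne
      rw [hcoord_ne o' o hne, mul_zero]
    · intro h; exact absurd (Finset.mem_univ o) h
  have hspan : Module.End.eigenspace σ 1 = Submodule.span k (Set.range v) := by
    apply le_antisymm
    · intro m hm
      rw [Module.End.mem_eigenspace_iff, one_smul] at hm
      have h1 : ∀ i, Av (B i) ∈ Submodule.span k (Set.range v) := by
        intro i
        have h2 : s.r (⟦i⟧ : Quotient s).out i := Quotient.exact (Quotient.out_eq _)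
        obtain ⟨j, hj⟩ := h2
        obtain ⟨a, ha, h3⟩ := hσj j (⟦i⟧ : Quotient s).out
        rw [hj] at h3
        have h4 : B i = a⁻¹ • (σ ^ j) (B (⟦i⟧ : Quotient s).out) := by
          rw [h3, smul_smul, inv_mul_cancel₀ ha, one_smul]
        rw [h4, map_smul, hAvj]
        exact Submodule.smul_mem _ _ (Submodule.subset_span ⟨_, rfl⟩)
      have h2 : Av m ∈ Submodule.span k (Set.range v) := by
        rw [← B.sum_repr m, map_sum]
        apply Submodule.sum_mem
        intro i _
        rw [map_smul]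
        exact Submodule.smul_mem _ _ (h1 i)
      have h3 : Av m = (N : k) • m := by
        have h4 : ∀ j : ℕ, (σ ^ j) m = m := by
          intro j
          induction j with
          | zero => simp
          | succ j ih => rw [pow_succ, Module.End.mul_apply, hm, ih]
        rw [hAv]
        simp only [h4, Finset.sum_const, Finset.card_range, Nat.cast_smul_eq_nsmul]
      rw [h3] at h2
      have h5 := Submodule.smul_mem _ (N : k)⁻¹ h2
      rwa [smul_smul, inv_mul_cancel₀ hNk, one_smul] at h5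
    · rw [Submodule.span_le]
      rintro _ ⟨o, rfl⟩
      rw [SetLike.mem_coe, Module.End.mem_eigenspace_iff, one_smul]
      exact hσAv _
  have hrank : finrank k (Module.End.eigenspace σ 1) = Fintype.card (Quotient s) := by
    rw [hspan, finrank_span_eq_card hli]
  rw [hrank]
  -- counting
  have hcard : Fintype.card ι = ∑ o : Quotient s, (Finset.univ.filter fun i : ι => (⟦i⟧ : Quotient s) = o).card := by
    rw [← Finset.card_univ]
    exact Finset.card_eq_sum_card_fiberwise (fun i _ => Finset.mem_univ _)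
  have hfib0 : (Finset.univ.filter fun i : ι => (⟦i⟧ : Quotient s) = ⟦i0⟧).card = 1 := by
    rw [Finset.card_eq_one]
    refine ⟨i0, ?_⟩
    ext i
    simp only [Finset.mem_filter, Finset.mem_univ, true_and, Finset.mem_singleton]
    constructor
    · intro h
      have h1 : s.r i0 i := Quotient.exact h.symm
      obtain ⟨j, hj⟩ := h1
      rw [← hj]
      obtain ⟨a, ha, h3⟩ := hσj j i0
      rw [hσ0] at h3
      by_contra hne
      have h2 := congrArg (fun v => B.repr v i0) h3
      simp only [map_smul, Basis.repr_self, Finsupp.smul_apply, smul_eq_mul] at h2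
      rw [Finsupp.single_eq_same, Finsupp.single_eq_of_ne (Ne.symm hne), mul_zero] at h2
      exact one_ne_zero h2
    · rintro rfl; rfl
  have hfib : ∀ o : Quotient s, o ≠ ⟦i0⟧ →
      (Finset.univ.filter fun i : ι => (⟦i⟧ : Quotient s) = o).card = N := by
    intro o ho
    have hout : o.out ≠ i0 := by
      intro h
      apply ho
      rw [← h, Quotient.out_eq]
    have h1 : (Finset.univ.filter fun i : ι => (⟦i⟧ : Quotient s) = o) =
        (Finset.range N).image fun j => π^[j] o.out := by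
      ext i
      simp only [Finset.mem_filter, Finset.mem_univ, true_and, Finset.mem_image, Finset.mem_range]
      constructor
      · intro h
        have h2 : s.r o.out i := Quotient.exact (by rw [Quotient.out_eq, h])
        obtain ⟨j, hj⟩ := h2
        refine ⟨j % N, Nat.mod_lt _ hN, ?_⟩
        rw [← hj]
        conv_rhs => rw [← Nat.mod_add_div j N]
        rw [Function.iterate_add_apply, hπmul]
      · rintro ⟨j, hj, rfl⟩
        have h2 : s.r o.out (π^[j] o.out) := ⟨j, rfl⟩
        have h3 : (⟦o.out⟧ : Quotient s) = ⟦π^[j] o.out⟧ := Quotient.sound h2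
        rw [← h3, Quotient.out_eq]
    rw [h1, Finset.card_image_of_injOn, Finset.card_range]
    have key : ∀ a b : ℕ, a < b → b < N → π^[a] o.out = π^[b] o.out → False := by
      intro a b hab hb h
      have h2 : π^[N - a] (π^[a] o.out) = π^[N - a] (π^[b] o.out) := by rw [h]
      rw [← Function.iterate_add_apply, ← Function.iterate_add_apply] at h2
      have e1 : N - a + a = N := by omega
      have e2 : N - a + b = (b - a) + N := by omega
      rw [e1, e2, hπN, Function.iterate_add_apply, hπN] at h2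
      exact hout (hf (b - a) (by omega) (by omega) _ h2.symm)
    intro a ha b hb h
    simp only [Finset.coe_range, Set.mem_Iio] at ha hb
    rcases lt_trichotomy a b with h1 | h1 | h1
    · exact (key a b h1 hb h).elim
    · exact h1
    · exact (key b a h1 ha h.symm).elim
  rw [hcard, ← Finset.add_sum_erase _ _ (Finset.mem_univ (⟦i0⟧ : Quotient s)), hfib0,
    Finset.sum_congr rfl (fun o ho => hfib o (Finset.ne_of_mem_erase ho)), Finset.sum_const,
    Finset.card_erase_of_mem (Finset.mem_univ _), Finset.card_univ, smul_eq_mul]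
  have hpos : 0 < Fintype.card (Quotient s) := Fintype.card_pos_iff.2 ⟨⟦i0⟧⟩
  obtain ⟨m, hm⟩ : ∃ m, Fintype.card (Quotient s) = m + 1 := ⟨_, (Nat.succ_pred_eq_of_pos hpos).symm⟩
  rw [hm, Nat.add_sub_cancel]
  ring

theorem commutant_count [IsAlgClosed k] {W : Type} [AddCommGroup W] [Module k W]
    [FiniteDimensional k W] {A A' : W →ₗ[k] W} {N : ℕ} (hNk : (N : k) ≠ 0)
    (hA : A ^ N = 1) (h1 : A * A' = 1) (h2 : A' * A = 1)
    (σ : (W →ₗ[k] W) →ₗ[k] (W →ₗ[k] W)) (hσ : ∀ S, σ S = A * S * A') :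
    (∑ ψ ∈ Polynomial.nthRootsFinset N (1 : k), finrank k (Module.End.eigenspace A ψ) =
      finrank k W) ∧
    finrank k (Module.End.eigenspace σ 1) =
      ∑ ψ ∈ Polynomial.nthRootsFinset N (1 : k), (finrank k (Module.End.eigenspace A ψ)) ^ 2 := by
  classical
  obtain ⟨ι, hι, b, μ, hb, hμ⟩ := exists_eigenbasis hNk hA
  have hN0 : 0 < N := Nat.pos_of_ne_zero (by rintro rfl; simp at hNk)
  have hμ0 : ∀ i, μ i ≠ 0 := by
    intro i h
    have := (Polynomial.mem_nthRootsFinset hN0 (1 : k)).1 (hμ i)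
    rw [h, zero_pow hN0.ne'] at this
    exact zero_ne_one this
  have hf := finrank_eigenspace_diag b μ A hb
  have hA' : ∀ i, A' (b i) = (μ i)⁻¹ • b i := by
    intro i
    have h3 : A' (A (b i)) = b i := by
      rw [← Module.End.mul_apply, h2, Module.End.one_apply]
    rw [hb, map_smul] at h3
    rw [← h3, smul_smul, inv_mul_cancel₀ (hμ0 i), one_smul, h3]
  constructor
  · simp only [hf]
    rw [finrank_eq_card_basis b, ← Finset.card_univ]
    exact (Finset.card_eq_sum_card_fiberwise (fun i _ => hμ i)).symm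
  · have hd : ∀ ij : ι × ι, σ (b.linearMap b ij) = (μ ij.1 * (μ ij.2)⁻¹) • b.linearMap b ij := by
      rintro ⟨i, j⟩
      apply b.ext
      intro l
      rw [hσ, Module.End.mul_apply, Module.End.mul_apply, hA', map_smul, map_smul,
        LinearMap.smul_apply, Basis.linearMap_apply_apply]
      by_cases hjl : j = l
      · subst hjl
        simp only [if_true, hb, smul_smul]
        rw [mul_comm]
      · simp [hjl]
    rw [finrank_eigenspace_diag (b.linearMap b) (fun ij => μ ij.1 * (μ ij.2)⁻¹) σ hd]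
    have h3 : (Finset.univ.filter fun ij : ι × ι => μ ij.1 * (μ ij.2)⁻¹ = 1) =
        (Polynomial.nthRootsFinset N (1 : k)).biUnion fun ψ =>
          (Finset.univ.filter fun i => μ i = ψ) ×ˢ (Finset.univ.filter fun i => μ i = ψ) := by
      ext ⟨i, j⟩
      simp only [Finset.mem_filter, Finset.mem_univ, true_and, Finset.mem_biUnion,
        Finset.mem_product]
      constructor
      · intro h
        have h4 : μ i = μ j := by
          rw [mul_inv_eq_one₀ (hμ0 j)] at h
          exact h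
        exact ⟨μ j, hμ j, h4, rfl⟩
      · rintro ⟨ψ, _, rfl, h5⟩
        rw [h5, mul_inv_cancel₀ (hμ0 i)]
    rw [h3, Finset.card_biUnion]
    · apply Finset.sum_congr rfl
      intro ψ _
      rw [Finset.card_product, hf, sq]
    · intro ψ _ ψ' _ hne
      change Disjoint _ _
      rw [Finset.disjoint_left]
      rintro ⟨i, j⟩ h4 h5
      simp only [Finset.mem_product, Finset.mem_filter, Finset.mem_univ, true_and] at h4 h5
      exact hne (h4.1.symm.trans h5.1)

/-- operators that are scalars -/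
def Sc {W : Type} [AddCommGroup W] [Module k W] (S : W →ₗ[k] W) : Prop :=
  ∃ c : k, S = c • (1 : W →ₗ[k] W)

section core

variable {W : Type} [AddCommGroup W] [Module k W] [Nontrivial W] {R : Type} [Group R]
  (τ : R →* (W →ₗ[k] W))

theorem tau_inv_mul (x : R) : τ x⁻¹ * τ x = 1 := by rw [← map_mul, inv_mul_cancel, map_one]

theorem tau_mul_inv (x : R) : τ x * τ x⁻¹ = 1 := by rw [← map_mul, mul_inv_cancel, map_one]

theorem tau_ne_zero (x : R) : τ x ≠ 0 := by
  intro h
  have h1 := tau_inv_mul τ x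
  rw [h, mul_zero] at h1
  exact zero_ne_one h1

theorem smul_one_inj {a b : k} (h : a • (1 : W →ₗ[k] W) = b • 1) : a = b := by
  have h1 : (a - b) • (1 : W →ₗ[k] W) = 0 := by rw [sub_smul, h, sub_self]
  rcases smul_eq_zero.1 h1 with h2 | h2
  · exact sub_eq_zero.1 h2
  · exact absurd h2 one_ne_zero

/-- the subgroup of elements acting as scalars -/
def Zr : Subgroup R where
  carrier := {x | Sc (τ x)}
  mul_mem' := by
    rintro x y ⟨c, hc⟩ ⟨d, hd⟩
    exact ⟨c * d, by rw [map_mul, hc, hd, smul_mul_smul_comm, one_mul]⟩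
  one_mem' := ⟨1, by rw [map_one, one_smul]⟩
  inv_mem' := by
    rintro x ⟨c, hc⟩
    have h1 := tau_inv_mul τ x
    rw [hc, mul_smul_comm, mul_one] at h1
    have hc0 : c ≠ 0 := by
      rintro rfl
      rw [zero_smul] at h1
      exact zero_ne_one h1
    refine ⟨c⁻¹, ?_⟩
    rw [← h1, smul_smul, inv_mul_cancel₀ hc0, one_smul]

theorem mem_Zr {x : R} : x ∈ Zr τ ↔ Sc (τ x) := Iff.rfl

variable (hcomm : ∀ x y : R, Sc (τ ⁅x, y⁆))

include hcomm in
theorem exists_om : ∃ ω : R → R → k, (∀ x y, τ x * τ y = ω x y • (τ y * τ x)) ∧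
    (∀ x y, τ ⁅x, y⁆ = ω x y • 1) ∧ (∀ x y z, ω x (y * z) = ω x y * ω x z) ∧
    (∀ x y z, ω (x * y) z = ω x z * ω y z) ∧ (∀ x y, ω x y ≠ 0) := by
  choose ω hω using hcomm
  have h1 : ∀ x y, τ x * τ y = ω x y • (τ y * τ x) := by
    intro x y
    have h2 : τ x * τ y = τ ⁅x, y⁆ * (τ y * τ x) := by
      rw [← map_mul, ← map_mul, ← map_mul]
      congr 1
      rw [commutatorElement_def]
      group
    rw [h2, hω, smul_mul_assoc, one_mul]
  have hcancel : ∀ (x : R) (a b : k), a • τ x = b • τ x → a = b := by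
    intro x a b h
    have h3 : (a • τ x) * τ x⁻¹ = (b • τ x) * τ x⁻¹ := by rw [h]
    rw [smul_mul_assoc, smul_mul_assoc, tau_mul_inv] at h3
    exact smul_one_inj h3
  refine ⟨ω, h1, hω, ?_, ?_, ?_⟩
  · intro x y z
    have h2 : τ x * τ (y * z) = (ω x y * ω x z) • τ (y * z * x) := by
      rw [map_mul, ← mul_assoc, h1, smul_mul_assoc, mul_assoc, h1, mul_smul_comm, smul_smul,
        ← mul_assoc, ← map_mul, ← map_mul]
    rw [h1, ← map_mul] at h2
    exact hcancel _ _ _ h2
  · intro x y z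
    have h2 : τ (x * y) * τ z = (ω x z * ω y z) • τ (z * (x * y)) := by
      rw [map_mul, mul_assoc, h1 y z, mul_smul_comm, ← mul_assoc, h1 x z, smul_mul_assoc,
        smul_smul, mul_assoc, ← map_mul, ← map_mul, mul_comm (ω y z)]
    rw [h1, ← map_mul] at h2
    exact hcancel _ _ _ h2
  · intro x y h
    have h2 := h1 x y
    rw [h, zero_smul, ← map_mul] at h2
    exact tau_ne_zero τ _ h2

end core

section core2

variable {W : Type} [AddCommGroup W] [Module k W] [Nontrivial W] {R : Type} [Group R] [Fintype R]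
  (τ : R →* (W →ₗ[k] W))

theorem sum_om {ω : R → k} (hω : ∀ x y, ω (x * y) = ω x * ω y) {x0 : R} (h0 : ω x0 ≠ 1) :
    ∑ x, ω x = 0 := by
  have h1 : ∑ x, ω (x0 * x) = ∑ x, ω x :=
    Fintype.sum_equiv (Equiv.mulLeft x0) _ _ (fun x => rfl)
  simp only [hω] at h1
  rw [← Finset.mul_sum] at h1
  have h2 : (ω x0 - 1) * ∑ x, ω x = 0 := by rw [sub_mul, h1, one_mul, sub_self]
  rcases mul_eq_zero.1 h2 with h3 | h3
  · exact absurd (sub_eq_zero.1 h3) h0
  · exact h3

/-- the commutant of `R` -/
def InC (S : W →ₗ[k] W) : Prop := ∀ x, S * τ x = τ x * S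

theorem InC.mul {S T : W →ₗ[k] W} (hS : InC τ S) (hT : InC τ T) : InC τ (S * T) := by
  intro x
  rw [mul_assoc, hT x, ← mul_assoc, hS x, mul_assoc]

theorem InC.add {S T : W →ₗ[k] W} (hS : InC τ S) (hT : InC τ T) : InC τ (S + T) := by
  intro x
  rw [add_mul, hT x, hS x, mul_add]

theorem InC.smul (c : k) {S : W →ₗ[k] W} (hS : InC τ S) : InC τ (c • S) := by
  intro x
  rw [smul_mul_assoc, hS x, mul_smul_comm]

theorem InC.one : InC τ (1 : W →ₗ[k] W) := fun x => by rw [one_mul, mul_one]

theorem InC.sum {ι : Type} (s : Finset ι) {f : ι → (W →ₗ[k] W)} (h : ∀ i ∈ s, InC τ (f i)) :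
    InC τ (∑ i ∈ s, f i) := by
  intro x
  rw [Finset.sum_mul, Finset.mul_sum]
  exact Finset.sum_congr rfl fun i hi => h i hi x

/-- the averaging operator -/
def avg (S : W →ₗ[k] W) : W →ₗ[k] W := ∑ y, τ y * S * τ y⁻¹

theorem avg_inC (S : W →ₗ[k] W) : InC τ (avg τ S) := by
  intro x
  unfold avg
  rw [Finset.sum_mul, Finset.mul_sum]
  symm
  apply Fintype.sum_equiv (Equiv.mulLeft x)
  intro y
  change τ x * (τ y * S * τ y⁻¹) = τ (x * y) * S * τ (x * y)⁻¹ * τ x
  rw [mul_inv_rev, map_mul, map_mul, mul_assoc _ _ (τ x), mul_assoc (τ y⁻¹), tau_inv_mul, mul_one]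
  simp only [mul_assoc]

theorem expand {ω : R → R → k} (h1 : ∀ x y, τ x * τ y = ω x y • (τ y * τ x))
    (h3 : ∀ x y z, ω x (y * z) = ω x y * ω x z)
    (hnd : ∀ x, (∀ y, ω x y = 1) → x ∈ Zr τ) (S : W →ₗ[k] W) :
    ((Nat.card R * Nat.card (Zr τ) : ℕ) : k) • S = ∑ x, avg τ (S * τ x⁻¹) * τ x := by
  classical
  have e1 : ∀ x, avg τ (S * τ x⁻¹) * τ x = ∑ y, ω y⁻¹ x • (τ y * S * τ y⁻¹) := by
    intro x
    unfold avg
    rw [Finset.sum_mul]
    apply Finset.sum_congr rfl
    intro y _
    have : τ y * (S * τ x⁻¹) * τ y⁻¹ * τ x = τ y * S * (τ x⁻¹ * (τ y⁻¹ * τ x)) := by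
      simp only [mul_assoc]
    rw [this, h1 y⁻¹ x, mul_smul_comm, mul_smul_comm, ← mul_assoc (τ x⁻¹), tau_inv_mul, one_mul]
  rw [Finset.sum_congr rfl fun x _ => e1 x, Finset.sum_comm]
  have e2 : ∀ y, ∑ x, ω y⁻¹ x • (τ y * S * τ y⁻¹) =
      if y ∈ Zr τ then (Nat.card R : k) • S else 0 := by
    intro y
    rw [← Finset.sum_smul]
    split_ifs with hy
    · obtain ⟨c, hc⟩ := hy
      have e3 : τ y * S * τ y⁻¹ = S := by
        have e4 : τ y * S = S * τ y := by rw [hc, smul_mul_assoc, mul_smul_comm, one_mul, mul_one]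
        rw [e4, mul_assoc, tau_mul_inv, mul_one]
      have e5 : ∀ x, ω y⁻¹ x = 1 := by
        intro x
        obtain ⟨d, hd⟩ := (Zr τ).inv_mem ⟨c, hc⟩
        have e6 := h1 y⁻¹ x
        have e7 : τ y⁻¹ * τ x = τ x * τ y⁻¹ := by
          rw [hd, smul_mul_assoc, mul_smul_comm, one_mul, mul_one]
        rw [e7] at e6
        have e8 : (1 : k) • (1 : W →ₗ[k] W) = ω y⁻¹ x • 1 := by
          have e9 : τ x⁻¹ * (τ x * τ y⁻¹) * τ y = ω y⁻¹ x • (τ x⁻¹ * (τ x * τ y⁻¹) * τ y) := by
            conv_lhs => rw [e6]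
            rw [mul_smul_comm, smul_mul_assoc]
          have e10 : τ x⁻¹ * (τ x * τ y⁻¹) * τ y = 1 := by
            rw [← mul_assoc, tau_inv_mul, one_mul, tau_inv_mul]
          rw [e10] at e9
          rw [one_smul]
          exact e9
        exact (smul_one_inj e8).symm
      rw [e3, Finset.sum_congr rfl fun x _ => e5 x, Finset.sum_const, Finset.card_univ,
        Nat.card_eq_fintype_card, nsmul_eq_mul, mul_one]
    · have : ∃ x0, ω y⁻¹ x0 ≠ 1 := by
        by_contra hcon
        push Not at hcon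
        apply hy
        have := (Zr τ).inv_mem (hnd y⁻¹ hcon)
        rwa [inv_inv] at this
      obtain ⟨x0, hx0⟩ := this
      rw [sum_om (fun x z => h3 y⁻¹ x z) hx0, zero_smul]
  rw [Finset.sum_congr rfl fun y _ => e2 y, ← Finset.sum_filter, Finset.sum_const]
  have e11 : (Finset.univ.filter fun y => y ∈ Zr τ).card = Nat.card (Zr τ) := by
    rw [Nat.card_eq_fintype_card]
    exact (Fintype.card_subtype _).symm
  rw [e11, Nat.cast_mul, mul_comm, mul_smul, Nat.cast_smul_eq_nsmul]

end core2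

section core3

variable [IsAlgClosed k] {W : Type} [AddCommGroup W] [Module k W] [FiniteDimensional k W]
  [Nontrivial W] {R : Type} [Group R] [Fintype R] (τ : R →* (W →ₗ[k] W))

/-- an operator commuting with `R` and commuting with `A` up to a scalar is `0` or injective -/
theorem inj_of_inC {A : W →ₗ[k] W}
    (hirr : ∀ U : Submodule k W, (∀ x, ∀ w ∈ U, τ x w ∈ U) → (∀ w ∈ U, A w ∈ U) → U = ⊥ ∨ U = ⊤)
    {S : W →ₗ[k] W} (hS : InC τ S) {l : k} (hl : l ≠ 0) (hA : A * S = l • (S * A)) (h0 : S ≠ 0) :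
    Function.Injective S := by
  rw [← LinearMap.ker_eq_bot]
  have g1 : ∀ x, ∀ w ∈ LinearMap.ker S, τ x w ∈ LinearMap.ker S := by
    intro x w hw
    rw [LinearMap.mem_ker] at hw ⊢
    rw [← Module.End.mul_apply, hS x, Module.End.mul_apply, hw, map_zero]
  have g2 : ∀ w ∈ LinearMap.ker S, A w ∈ LinearMap.ker S := by
    intro w hw
    rw [LinearMap.mem_ker] at hw ⊢
    have h1 := congrArg (fun T => T w) hA
    simp only [Module.End.mul_apply, LinearMap.smul_apply, hw, map_zero] at h1
    rcases smul_eq_zero.1 h1.symm with h2 | h2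
    · exact absurd h2 hl
    · exact h2
  rcases hirr (LinearMap.ker S) g1 g2 with h | h
  · exact h
  · exact absurd (LinearMap.ker_eq_top.1 h) h0

theorem scalar_of_comm {A : W →ₗ[k] W}
    (hirr : ∀ U : Submodule k W, (∀ x, ∀ w ∈ U, τ x w ∈ U) → (∀ w ∈ U, A w ∈ U) → U = ⊥ ∨ U = ⊤)
    {S : W →ₗ[k] W} (hS : InC τ S) (hA : A * S = S * A) : Sc S := by
  obtain ⟨μ, hμ⟩ := Module.End.exists_eigenvalue S
  obtain ⟨v, hv⟩ := hμ.exists_hasEigenvector
  refine ⟨μ, ?_⟩
  by_contra hne
  have h1 : InC τ (S - μ • (1 : W →ₗ[k] W)) := by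
    intro x
    rw [sub_mul, hS x, mul_sub, smul_mul_assoc, mul_smul_comm, one_mul, mul_one]
  have h2 : A * (S - μ • (1 : W →ₗ[k] W)) = (1 : k) • ((S - μ • (1 : W →ₗ[k] W)) * A) := by
    rw [one_smul, sub_mul, mul_sub, hA, smul_mul_assoc, mul_smul_comm, one_mul, mul_one]
  have h3 := inj_of_inC τ hirr h1 one_ne_zero h2 (sub_ne_zero.2 hne)
  have h4 : (S - μ • (1 : W →ₗ[k] W)) v = (S - μ • (1 : W →ₗ[k] W)) 0 := by
    rw [map_zero, LinearMap.sub_apply, LinearMap.smul_apply, Module.End.one_apply,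
      hv.apply_eq_smul, sub_self]
  exact hv.2 (h3 h4)

/-- the commutant of `R` consists of scalars -/
theorem inC_scalar {A A' : W →ₗ[k] W} {N : ℕ} (hNk : (N : k) ≠ 0) (hA : A ^ N = 1)
    (hAA : A * A' = 1) (hAA' : A' * A = 1)
    (hirr : ∀ U : Submodule k W, (∀ x, ∀ w ∈ U, τ x w ∈ U) → (∀ w ∈ U, A w ∈ U) → U = ⊥ ∨ U = ⊤)
    (α : R → R) (hα : Function.Surjective α) (hAα : ∀ x, A * τ x = τ (α x) * A)
    (hexp : ∀ S : W →ₗ[k] W, ∃ (c : k) (f : R → (W →ₗ[k] W)), c ≠ 0 ∧ (∀ x, InC τ (f x)) ∧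
      c • S = ∑ x, f x * τ x) {S : W →ₗ[k] W} (hS : InC τ S) : Sc S := by
  classical
  have hN0 : 0 < N := Nat.pos_of_ne_zero (by rintro rfl; simp at hNk)
  have : NeZero (N : k) := ⟨hNk⟩
  obtain ⟨ζ, hζ⟩ := HasEnoughRootsOfUnity.exists_primitiveRoot k N
  have hζ0 : ζ ≠ 0 := hζ.ne_zero hN0.ne'
  -- the set of degrees
  have hex : ∃ j : ℕ, 0 < j ∧ ∃ S : W →ₗ[k] W, InC τ S ∧ S ≠ 0 ∧ A * S = ζ ^ j • (S * A) :=
    ⟨N, hN0, 1, InC.one τ, one_ne_zero, by rw [hζ.pow_eq_one, one_smul, mul_one, one_mul]⟩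
  let m := Nat.find hex
  obtain ⟨hm0, T, hT, hT0, hTA⟩ := Nat.find_spec hex
  have hmin : ∀ j, j < m → ¬ (0 < j ∧ ∃ S : W →ₗ[k] W, InC τ S ∧ S ≠ 0 ∧
      A * S = ζ ^ j • (S * A)) := fun j hj => Nat.find_min hex hj
  have hTinj := inj_of_inC τ hirr hT (pow_ne_zero _ hζ0) hTA hT0
  let Te := LinearEquiv.ofInjectiveEndo T hTinj
  let T' : W →ₗ[k] W := Te.symm
  have hTT' : T * T' = 1 := by
    ext w
    exact LinearEquiv.apply_symm_apply Te w
  have hT'T : T' * T = 1 := by
    ext w
    exact LinearEquiv.symm_apply_apply Te w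
  have hT'C : InC τ T' := by
    intro x
    calc T' * τ x = T' * τ x * (T * T') := by rw [hTT', mul_one]
      _ = T' * (τ x * T) * T' := by simp only [mul_assoc]
      _ = T' * (T * τ x) * T' := by rw [hT x]
      _ = (T' * T) * τ x * T' := by simp only [mul_assoc]
      _ = τ x * T' := by rw [hT'T, one_mul]
  have hT'A : ζ ^ m • (A * T') = T' * A := by
    have h1 : T' * (A * T) * T' = ζ ^ m • (T' * (T * A) * T') := by
      rw [hTA, mul_smul_comm, smul_mul_assoc]
    have h2 : T' * (A * T) * T' = T' * A := by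
      rw [mul_assoc, mul_assoc, hTT', mul_one]
    have h3 : T' * (T * A) * T' = A * T' := by
      rw [← mul_assoc, hT'T, one_mul]
    rw [h2, h3] at h1
    exact h1.symm
  have claim : ∀ j : ℕ, ∀ S : W →ₗ[k] W, InC τ S → A * S = ζ ^ j • (S * A) →
      ∃ (c : k) (q : ℕ), S = c • T ^ q := by
    intro j
    induction j using Nat.strong_induction_on with
    | _ j ih =>
      intro S hS hSA
      by_cases hS0 : S = 0
      · exact ⟨0, 0, by rw [hS0, zero_smul]⟩
      rcases lt_or_ge j m with hjm | hjm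
      · have hj0 : j = 0 := by
          by_contra hj
          exact hmin j hjm ⟨Nat.pos_of_ne_zero hj, S, hS, hS0, hSA⟩
        subst hj0
        rw [pow_zero, one_smul] at hSA
        obtain ⟨c, hc⟩ := scalar_of_comm τ hirr hS hSA
        exact ⟨c, 0, by rw [pow_zero]; exact hc⟩
      · have h1 : A * (T' * S) = ζ ^ (j - m) • (T' * S * A) := by
          have h2 : ζ ^ m • (A * (T' * S)) = ζ ^ j • (T' * S * A) := by
            rw [← mul_assoc, ← smul_mul_assoc, hT'A, mul_assoc, hSA, mul_smul_comm, mul_assoc]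
          have h3 : ζ ^ j = ζ ^ m * ζ ^ (j - m) := by
            rw [← pow_add, Nat.add_sub_cancel' hjm]
          rw [h3, mul_smul] at h2
          exact smul_right_injective _ (pow_ne_zero m hζ0) h2
        obtain ⟨c, q, hq⟩ := ih (j - m) (Nat.sub_lt (lt_of_lt_of_le hm0 hjm) hm0) (T' * S)
          (hT'C.mul τ hS) h1
        refine ⟨c, q + 1, ?_⟩
        have h4 : T * (T' * S) = S := by rw [← mul_assoc, hTT', one_mul]
        rw [← h4, hq, mul_smul_comm, pow_succ']
  -- the conjugation map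
  let σ : (W →ₗ[k] W) →ₗ[k] (W →ₗ[k] W) := LinearMap.mulLeft k A ∘ₗ LinearMap.mulRight k A'
  have hσ : ∀ S, σ S = A * (S * A') := fun S => rfl
  have hσC : ∀ S, InC τ S → InC τ (σ S) := by
    intro S hS x
    obtain ⟨y, rfl⟩ := hα x
    have h1 : A' * τ (α y) = τ y * A' := by
      calc A' * τ (α y) = A' * (τ (α y) * (A * A')) := by rw [hAA, mul_one]
        _ = A' * ((τ (α y) * A) * A') := by simp only [mul_assoc]
        _ = A' * ((A * τ y) * A') := by rw [hAα]
        _ = (A' * A) * (τ y * A') := by simp only [mul_assoc]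
        _ = τ y * A' := by rw [hAA', one_mul]
    rw [hσ]
    calc A * (S * A') * τ (α y) = A * (S * (A' * τ (α y))) := by simp only [mul_assoc]
      _ = A * ((S * τ y) * A') := by rw [h1]; simp only [mul_assoc]
      _ = (A * τ y) * (S * A') := by rw [hS y]; simp only [mul_assoc]
      _ = τ (α y) * (A * (S * A')) := by rw [hAα]; simp only [mul_assoc]
  have hA'N : A' ^ N = 1 := by
    have hc : Commute A A' := by rw [Commute, SemiconjBy, hAA, hAA']
    have h1 : (A * A') ^ N = A ^ N * A' ^ N := hc.mul_pow N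
    rw [hAA, one_pow, hA, one_mul] at h1
    exact h1.symm
  have hσj : ∀ (j : ℕ) S, (σ ^ j) S = A ^ j * (S * A' ^ j) := by
    intro j
    induction j with
    | zero => intro S; simp
    | succ j ih =>
      intro S
      rw [pow_succ', Module.End.mul_apply, ih, hσ, pow_succ' A, pow_succ A']
      simp only [mul_assoc]
  have hσN : σ ^ N = 1 := by
    ext S w
    rw [hσj, hA, hA'N, one_mul, mul_one, Module.End.one_apply]
  have hσjC : ∀ (j : ℕ) S, InC τ S → InC τ ((σ ^ j) S) := by
    intro j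
    induction j with
    | zero => intro S hS; simpa using hS
    | succ j ih => intro S hS; rw [pow_succ', Module.End.mul_apply]; exact hσC _ (ih S hS)
  -- every element of the commutant is a combination of powers of `T`
  have hpow : ∀ S, InC τ S → ∃ (c : ℕ → k) (q : ℕ → ℕ),
      (N : k) • S = ∑ j ∈ Finset.range N, c j • T ^ q j := by
    intro S hS
    obtain ⟨h1, h2⟩ := sum_eig hN0 hσN hζ S
    have h3 : ∀ j : ℕ, ∃ (c : k) (q : ℕ),
        (∑ i ∈ Finset.range N, (ζ ^ j)⁻¹ ^ i • (σ ^ i) S) = c • T ^ q := by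
      intro j
      apply claim j
      · exact InC.sum τ _ fun i _ => (hσjC i S hS).smul τ _
      · have h4 := h1 j
        rw [hσ] at h4
        have h5 := congrArg (fun B => B * A) h4
        simp only [smul_mul_assoc] at h5
        rw [← h5, mul_assoc, mul_assoc, hAA', mul_one]
    choose c q hcq using h3
    refine ⟨c, q, ?_⟩
    rw [← h2]
    exact Finset.sum_congr rfl fun j _ => hcq j
  have hTcomm : ∀ S, InC τ S → T * S = S * T := by
    intro S hS
    obtain ⟨c, q, h⟩ := hpow S hS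
    have h1 : T * ((N : k) • S) = ((N : k) • S) * T := by
      rw [h, Finset.mul_sum, Finset.sum_mul]
      apply Finset.sum_congr rfl
      intro j _
      rw [mul_smul_comm, smul_mul_assoc, ← pow_succ, ← pow_succ']
    rw [mul_smul_comm, smul_mul_assoc] at h1
    exact smul_right_injective _ hNk h1
  have hTall : ∀ S : W →ₗ[k] W, T * S = S * T := by
    intro S
    obtain ⟨c, f, hc, hf, h⟩ := hexp S
    have h1 : T * (c • S) = (c • S) * T := by
      rw [h, Finset.mul_sum, Finset.sum_mul]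
      apply Finset.sum_congr rfl
      intro x _
      rw [← mul_assoc, hTcomm _ (hf x), mul_assoc, hT x, mul_assoc]
    rw [mul_smul_comm, smul_mul_assoc] at h1
    exact smul_right_injective _ hc h1
  obtain ⟨t, ht⟩ := scalar_of_comm τ hirr hT (hTall A).symm
  obtain ⟨c, q, h⟩ := hpow S hS
  refine ⟨(N : k)⁻¹ * ∑ j ∈ Finset.range N, c j * t ^ q j, ?_⟩
  have h1 : S = (N : k)⁻¹ • ((N : k) • S) := by rw [smul_smul, inv_mul_cancel₀ hNk, one_smul]
  rw [h1, h, mul_smul, Finset.sum_smul]
  congr 1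
  apply Finset.sum_congr rfl
  intro j _
  rw [ht, smul_pow, one_pow, smul_smul]

end core3

section main

variable [IsAlgClosed k] {W : Type} [AddCommGroup W] [Module k W] [FiniteDimensional k W]
  [Nontrivial W] {R : Type} [Group R] [Fintype R] (τ : R →* (W →ₗ[k] W))

theorem exists_end_apply {w : W} (hw : w ≠ 0) (v : W) : ∃ T : W →ₗ[k] W, T w = v := by
  have h1 : ∃ φ : Module.Dual k W, φ w ≠ 0 := by
    by_contra hcon
    push Not at hcon
    exact hw ((Module.forall_dual_apply_eq_zero_iff k w).1 hcon)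
  obtain ⟨φ, hφ⟩ := h1
  refine ⟨(φ w)⁻¹ • φ.smulRight v, ?_⟩
  rw [LinearMap.smul_apply, LinearMap.smulRight_apply, smul_smul, inv_mul_cancel₀ hφ, one_smul]

theorem vl0 (hR : (Nat.card R : k) ≠ 0) (hcomm : ∀ x y : R, Sc (τ ⁅x, y⁆))
    (hnd : ∀ x : R, (∀ y, τ ⁅x, y⁆ = 1) → Sc (τ x)) {A A' : W →ₗ[k] W} {N : ℕ}
    (hNk : (N : k) ≠ 0) (hA : A ^ N = 1) (hAA : A * A' = 1) (hAA' : A' * A = 1)
    (hirr : ∀ U : Submodule k W, (∀ x, ∀ w ∈ U, τ x w ∈ U) → (∀ w ∈ U, A w ∈ U) → U = ⊥ ∨ U = ⊤)
    (α : R → R) (hα : Function.Surjective α) (hAα : ∀ x, A * τ x = τ (α x) * A)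
    (hfpf : ∀ j, 0 < j → j < N → ∀ x, Sc (τ (α^[j] x * x⁻¹)) → Sc (τ x)) :
    (∀ U : Submodule k W, (∀ x, ∀ w ∈ U, τ x w ∈ U) → U = ⊥ ∨ U = ⊤) ∧
    Nat.card R = (finrank k W) ^ 2 * Nat.card (Zr τ) ∧
    (∑ ψ ∈ Polynomial.nthRootsFinset N (1 : k), finrank k (Module.End.eigenspace A ψ) =
      finrank k W) ∧
    N * ∑ ψ ∈ Polynomial.nthRootsFinset N (1 : k), (finrank k (Module.End.eigenspace A ψ)) ^ 2 + 1
      = (finrank k W) ^ 2 + N := by
  classical
  have hN0 : 0 < N := Nat.pos_of_ne_zero (by rintro rfl; simp at hNk)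
  obtain ⟨ω, h1, h2, h3, h4, h5⟩ := exists_om τ hcomm
  have hcancel : ∀ (x : R) (a b : k), a • τ x = b • τ x → a = b := by
    intro x a b h
    have h3 : (a • τ x) * τ x⁻¹ = (b • τ x) * τ x⁻¹ := by rw [h]
    rw [smul_mul_assoc, smul_mul_assoc, tau_mul_inv] at h3
    exact smul_one_inj h3
  have hnd' : ∀ x, (∀ y, ω x y = 1) → x ∈ Zr τ := by
    intro x hx
    apply hnd
    intro y
    rw [h2, hx, one_smul]
  have hZc : ((Nat.card (Zr τ) : ℕ) : k) ≠ 0 := by
    intro h
    obtain ⟨c, hc⟩ := Subgroup.card_subgroup_dvd_card (Zr τ)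
    apply hR
    rw [hc, Nat.cast_mul, h, zero_mul]
  obtain ⟨c0, hc0def⟩ : ∃ c0 : k, c0 = ((Nat.card R * Nat.card (Zr τ) : ℕ) : k) := ⟨_, rfl⟩
  have hc0 : c0 ≠ 0 := by
    rw [hc0def, Nat.cast_mul]
    exact mul_ne_zero hR hZc
  have hexp' : ∀ S : W →ₗ[k] W, c0 • S = ∑ x, avg τ (S * τ x⁻¹) * τ x := by
    intro S
    rw [hc0def]
    exact expand τ h1 h3 hnd' S
  have hC : ∀ S : W →ₗ[k] W, InC τ S → Sc S := by
    intro S hS
    exact inC_scalar τ hNk hA hAA hAA' hirr α hα hAα
      (fun S => ⟨c0, fun x => avg τ (S * τ x⁻¹), hc0, fun x => avg_inC τ _, hexp' S⟩) hS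
  have hspan : ∀ S : W →ₗ[k] W, ∃ a : R → k, S = ∑ x, a x • τ x := by
    intro S
    have h6 : ∀ x, Sc (avg τ (S * τ x⁻¹)) := fun x => hC _ (avg_inC τ _)
    choose b hb using h6
    refine ⟨fun x => c0⁻¹ * b x, ?_⟩
    have h7 : S = c0⁻¹ • (c0 • S) := by rw [smul_smul, inv_mul_cancel₀ hc0, one_smul]
    rw [h7, hexp' S, Finset.smul_sum]
    apply Finset.sum_congr rfl
    intro x _
    rw [hb, smul_mul_assoc, one_mul, smul_smul]
  refine ⟨?_, ?_⟩
  · intro U hU
    by_cases hb : U = ⊥
    · exact Or.inl hb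
    right
    obtain ⟨w, hwU, hw0⟩ := (Submodule.ne_bot_iff U).1 hb
    rw [eq_top_iff]
    intro v _
    obtain ⟨T, hT⟩ := exists_end_apply (k := k) hw0 v
    obtain ⟨a, ha⟩ := hspan T
    rw [← hT, ha, LinearMap.sum_apply]
    apply Submodule.sum_mem
    intro x _
    rw [LinearMap.smul_apply]
    exact Submodule.smul_mem _ _ (hU x w hwU)
  -- the basis
  let _ : Fintype (R ⧸ Zr τ) := Fintype.ofFinite _
  have hmem : ∀ x : R, ∃ c : k, c ≠ 0 ∧ τ x = c • τ (QuotientGroup.mk x : R ⧸ Zr τ).out := by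
    intro x
    obtain ⟨z, hz⟩ := QuotientGroup.mk_out_eq_mul (Zr τ) x
    obtain ⟨c, hc⟩ := z.2
    have hc1 : c ≠ 0 := by
      rintro rfl
      rw [zero_smul] at hc
      exact tau_ne_zero τ _ hc
    refine ⟨c⁻¹, inv_ne_zero hc1, ?_⟩
    rw [hz, map_mul, hc, mul_smul_comm, mul_one, smul_smul, inv_mul_cancel₀ hc1, one_smul]
  have hli : LinearIndependent k (fun q : R ⧸ Zr τ => τ q.out) := by
    rw [Fintype.linearIndependent_iff]
    intro g hg q0
    have h6 : ∀ q : R ⧸ Zr τ, ∑ y, (ω y q0.out)⁻¹ * ω y q.out =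
        if q = q0 then (Nat.card R : k) else 0 := by
      intro q
      split_ifs with hq
      · subst hq
        rw [Finset.sum_congr rfl fun y _ => inv_mul_cancel₀ (h5 y q.out), Finset.sum_const,
          Finset.card_univ, Nat.card_eq_fintype_card, nsmul_eq_mul, mul_one]
      · have h7 : ∃ y, (ω y q0.out)⁻¹ * ω y q.out ≠ 1 := by
          by_contra hcon
          push Not at hcon
          apply hq
          have h8 : ∀ y, ω y (q0.out⁻¹ * q.out) = 1 := by
            intro y
            have h9 : ω y q.out = ω y q0.out * ω y (q0.out⁻¹ * q.out) := by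
              rw [← h3, mul_inv_cancel_left]
            have h10 := hcon y
            rw [h9, inv_mul_cancel_left₀ (h5 _ _)] at h10
            exact h10
          have h9 : q0.out⁻¹ * q.out ∈ Zr τ := by
            apply hnd'
            intro y
            have h10 := h1 y (q0.out⁻¹ * q.out)
            rw [h8, one_smul] at h10
            have h11 := h1 (q0.out⁻¹ * q.out) y
            rw [h10, ← map_mul] at h11
            have h12 : (1 : k) • τ ((q0.out⁻¹ * q.out) * y) =
                ω (q0.out⁻¹ * q.out) y • τ ((q0.out⁻¹ * q.out) * y) := by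
              rw [one_smul]
              exact h11
            exact (hcancel _ _ _ h12).symm
          have h10 := QuotientGroup.eq.2 h9
          rw [QuotientGroup.out_eq', QuotientGroup.out_eq'] at h10
          exact h10.symm
        obtain ⟨y0, hy0⟩ := h7
        refine sum_om (ω := fun y => (ω y q0.out)⁻¹ * ω y q.out) ?_ hy0
        intro x y
        simp only [h4, mul_inv]
        ring
    have h7 : ∑ y, (ω y q0.out)⁻¹ • (τ y * (∑ q, g q • τ q.out) * τ y⁻¹) = 0 := by
      rw [hg]
      simp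
    have h8 : ∀ y, (ω y q0.out)⁻¹ • (τ y * (∑ q, g q • τ q.out) * τ y⁻¹) =
        ∑ q, (g q * ((ω y q0.out)⁻¹ * ω y q.out)) • τ q.out := by
      intro y
      rw [Finset.mul_sum, Finset.sum_mul, Finset.smul_sum]
      apply Finset.sum_congr rfl
      intro q _
      rw [mul_smul_comm, smul_mul_assoc, h1, smul_mul_assoc, mul_assoc, tau_mul_inv, mul_one,
        smul_smul, smul_smul]
      congr 1
      ring
    rw [Finset.sum_congr rfl fun y _ => h8 y, Finset.sum_comm] at h7
    simp only [← Finset.sum_smul, ← Finset.mul_sum, h6] at h7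
    simp only [mul_ite, mul_zero, ite_smul, zero_smul, Finset.sum_ite_eq', Finset.mem_univ,
      if_true] at h7
    rcases smul_eq_zero.1 h7 with h9 | h9
    · rcases mul_eq_zero.1 h9 with h10 | h10
      · exact h10
      · exact absurd h10 hR
    · exact absurd h9 (tau_ne_zero τ _)
  have hsp : ⊤ ≤ Submodule.span k (Set.range fun q : R ⧸ Zr τ => τ q.out) := by
    intro S _
    obtain ⟨a, ha⟩ := hspan S
    rw [ha]
    apply Submodule.sum_mem
    intro x _
    obtain ⟨c, _, hc⟩ := hmem x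
    rw [hc, smul_smul]
    exact Submodule.smul_mem _ _ (Submodule.subset_span ⟨_, rfl⟩)
  let B : Basis (R ⧸ Zr τ) k (W →ₗ[k] W) := Basis.mk hli hsp
  have hB : ∀ q, B q = τ q.out := fun q => Basis.mk_apply hli hsp q
  have hcardQ : Fintype.card (R ⧸ Zr τ) = (finrank k W) ^ 2 := by
    rw [← finrank_eq_card_basis B, Module.finrank_linearMap, sq]
  -- conjugation by `A`
  let σ : (W →ₗ[k] W) →ₗ[k] (W →ₗ[k] W) := LinearMap.mulLeft k A ∘ₗ LinearMap.mulRight k A'
  have hσ : ∀ S, σ S = A * (S * A') := fun S => rfl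
  have hA'N : A' ^ N = 1 := by
    have hc : Commute A A' := by rw [Commute, SemiconjBy, hAA, hAA']
    have h1 : (A * A') ^ N = A ^ N * A' ^ N := hc.mul_pow N
    rw [hAA, one_pow, hA, one_mul] at h1
    exact h1.symm
  have hσj : ∀ (j : ℕ) S, (σ ^ j) S = A ^ j * (S * A' ^ j) := by
    intro j
    induction j with
    | zero => intro S; simp
    | succ j ih =>
      intro S
      rw [pow_succ', Module.End.mul_apply, ih, hσ, pow_succ' A, pow_succ A']
      simp only [mul_assoc]
  have hσN : σ ^ N = 1 := by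
    ext S w
    rw [hσj, hA, hA'N, one_mul, mul_one, Module.End.one_apply]
  have hστ : ∀ x, σ (τ x) = τ (α x) := by
    intro x
    rw [hσ, ← mul_assoc, hAα, mul_assoc, hAA, mul_one]
  have hσjτ : ∀ (j : ℕ) x, (σ ^ j) (τ x) = τ (α^[j] x) := by
    intro j
    induction j with
    | zero => intro x; simp
    | succ j ih =>
      intro x
      rw [pow_succ', Module.End.mul_apply, ih, hστ, Function.iterate_succ_apply']
  have hsc : ∀ S, Sc S → σ S = S := by
    rintro S ⟨c, rfl⟩
    rw [hσ, smul_mul_assoc, one_mul, mul_smul_comm, hAA]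
  have hQ1 : ∀ q : R ⧸ Zr τ, q.out ∈ Zr τ → q = (QuotientGroup.mk 1 : R ⧸ Zr τ) := by
    intro q hq
    rw [← QuotientGroup.out_eq' q]
    apply QuotientGroup.eq.2
    rw [mul_one]
    exact (Zr τ).inv_mem hq
  have h0 : σ (B (QuotientGroup.mk 1)) = B (QuotientGroup.mk 1) := by
    rw [hB]
    apply hsc
    obtain ⟨z, hz⟩ := QuotientGroup.mk_out_eq_mul (Zr τ) (1 : R)
    have : (QuotientGroup.mk 1 : R ⧸ Zr τ).out ∈ Zr τ := by
      rw [hz, one_mul]
      exact z.2
    exact this
  have key := orbit_count B σ N hN0 hNk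
    (fun q => (QuotientGroup.mk (α q.out) : R ⧸ Zr τ))
    (by
      intro q
      obtain ⟨c, hc, h6⟩ := hmem (α q.out)
      exact ⟨c, hc, by rw [hB, hB, hστ, h6]⟩) hσN (QuotientGroup.mk 1) h0
    (by
      intro j hj hjN q a ha
      apply hQ1
      rw [hB, hσjτ] at ha
      apply hfpf j hj hjN
      refine ⟨a, ?_⟩
      rw [map_mul, ha, smul_mul_assoc, tau_mul_inv])
  obtain ⟨e1, e2⟩ := commutant_count hNk hA hAA hAA' σ (fun S => by rw [hσ, mul_assoc])
  refine ⟨?_, e1, ?_⟩
  · rw [← hcardQ, ← Nat.card_eq_fintype_card]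
    exact Subgroup.card_eq_card_quotient_mul_card_subgroup (Zr τ)
  · rw [← e2, ← hcardQ]
    exact key

end main

end Pool.FH.VLp

namespace Pool.FH

open VLp

theorem stmt_VL : Stmt_VL := by
  intro k E V _ _ _ _ _ _ _ ρ R g c N W hN hNk hRk hc hgR hRW hgW hirr hcomm hnd hcN hfpf
  classical
  have hntW : Nontrivial W := (Submodule.nontrivial_iff_ne_bot).2 hirr.1
  let _ : Fintype R := Fintype.ofFinite _
  let τ : R →* (W →ₗ[k] W) :=
    { toFun := fun x => (ρ x.1).restrict (fun w hw => hRW x.1 x.2 w hw)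
      map_one' := by
        ext w
        simp [LinearMap.restrict_apply]
      map_mul' := by
        intro x y
        ext w
        simp [LinearMap.restrict_apply] }
  have hτ : ∀ (x : R) (w : W), ((τ x w : W) : V) = ρ x.1 w.1 := fun x w => rfl
  let A : W →ₗ[k] W := (c • ρ g).restrict (fun w hw => W.smul_mem c (hgW w hw))
  have hAw : ∀ w : W, ((A w : W) : V) = c • ρ g w.1 := fun w => rfl
  have hAj : ∀ (j : ℕ) (w : W), (((A ^ j) w : W) : V) = c ^ j • ρ (g ^ j) w.1 := by
    intro j
    induction j with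
    | zero => intro w; simp
    | succ j ih =>
      intro w
      rw [pow_succ', Module.End.mul_apply, hAw, ih, map_smul, smul_smul, pow_succ' c,
        pow_succ' g, map_mul, Module.End.mul_apply]
  have hAN : A ^ N = 1 := by
    ext w
    rw [hAj, hcN w.1 w.2, Module.End.one_apply]
  obtain ⟨n, rfl⟩ : ∃ n, N = n + 1 := ⟨N - 1, by omega⟩
  have hsc : ∀ x : R, Sc (τ x) ↔ Scal ρ x.1 W := by
    intro x
    constructor
    · rintro ⟨a, ha⟩
      refine ⟨a, fun w hw => ?_⟩
      have := congrArg (fun T => ((T ⟨w, hw⟩ : W) : V)) ha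
      exact this
    · rintro ⟨a, ha⟩
      refine ⟨a, ?_⟩
      ext w
      exact ha w.1 w.2
  let α : R → R := fun x => ⟨g * x.1 * g⁻¹, hgR x.1 x.2⟩
  have hα : Function.Surjective α := by
    apply Finite.surjective_of_injective
    intro x y h
    have h1 : g * x.1 * g⁻¹ = g * y.1 * g⁻¹ := congrArg Subtype.val h
    exact Subtype.ext (by simpa using h1)
  have hαj : ∀ (j : ℕ) (x : R), (α^[j] x).1 = g ^ j * x.1 * (g ^ j)⁻¹ := by
    intro j
    induction j with
    | zero => intro x; simp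
    | succ j ih =>
      intro x
      rw [Function.iterate_succ_apply']
      change g * (α^[j] x).1 * g⁻¹ = _
      rw [ih, pow_succ']
      group
  have hAα : ∀ x, A * τ x = τ (α x) * A := by
    intro x
    ext w
    change c • ρ g (ρ x.1 w.1) = ρ (g * x.1 * g⁻¹) (c • ρ g w.1)
    rw [map_smul]
    congr 1
    rw [← Module.End.mul_apply, ← Module.End.mul_apply, ← map_mul, ← map_mul]
    congr 2
    group
  have hirr' : ∀ U : Submodule k W, (∀ x, ∀ w ∈ U, τ x w ∈ U) → (∀ w ∈ U, A w ∈ U) →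
      U = ⊥ ∨ U = ⊤ := by
    intro U h1 h2
    by_cases hb : U = ⊥
    · exact Or.inl hb
    right
    have h3 : U.map W.subtype ≠ ⊥ := by
      intro h
      apply hb
      rw [eq_bot_iff]
      intro w hw
      have h4 : w.1 ∈ U.map W.subtype := Submodule.mem_map.2 ⟨w, hw, rfl⟩
      rw [h, Submodule.mem_bot] at h4
      rw [Submodule.mem_bot]
      exact Subtype.ext h4
    have h4 := hirr.2.2 (U.map W.subtype) (Submodule.map_subtype_le W U) h3 (by
      rintro x (hx | hx) v hv
      · obtain ⟨w, hw, rfl⟩ := Submodule.mem_map.1 hv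
        exact Submodule.mem_map.2 ⟨τ ⟨x, hx⟩ w, h1 ⟨x, hx⟩ w hw, rfl⟩
      · rw [Set.mem_singleton_iff] at hx
        subst hx
        obtain ⟨w, hw, rfl⟩ := Submodule.mem_map.1 hv
        have h5 := U.smul_mem c⁻¹ (h2 w hw)
        refine Submodule.mem_map.2 ⟨_, h5, ?_⟩
        change c⁻¹ • (c • ρ x w.1) = ρ x w.1
        rw [smul_smul, inv_mul_cancel₀ hc, one_smul])
    rw [eq_top_iff]
    intro w _
    have h5 : w.1 ∈ U.map W.subtype := by rw [h4]; exact w.2
    obtain ⟨w', hw', h6⟩ := Submodule.mem_map.1 h5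
    have h7 : w' = w := Subtype.ext h6
    rwa [← h7]
  obtain ⟨k1, k2, k3, k4⟩ := vl0 τ hRk
    (fun x y => (hsc ⁅x, y⁆).2 (hcomm x.1 x.2 y.1 y.2))
    (fun x hx => (hsc x).2 (hnd x.1 x.2 (fun y hy w hw => by
      have := congrArg (fun T => ((T ⟨w, hw⟩ : W) : V)) (hx ⟨y, hy⟩)
      exact this))) hNk hAN (A' := A ^ n) (by rw [← pow_succ', hAN]) (by rw [← pow_succ, hAN])
    hirr' α hα hAα (by
      intro j hj hjN x hx
      rw [hsc] at hx ⊢
      apply hfpf j hj hjN x.1 x.2
      have h1 : (α^[j] x * x⁻¹ : R).1 = ⁅g ^ j, x.1⁆ := by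
        change (α^[j] x).1 * x.1⁻¹ = _
        rw [hαj, commutatorElement_def]
      rw [← h1]
      exact hx)
  have hrank : ∀ ψ : k, Module.finrank k (W ⊓ Module.End.eigenspace (c • ρ g) ψ : Submodule k V) =
      Module.finrank k (Module.End.eigenspace A ψ) := by
    intro ψ
    have h1 : (W ⊓ Module.End.eigenspace (c • ρ g) ψ : Submodule k V) =
        (Module.End.eigenspace A ψ).map W.subtype := by
      ext v
      constructor
      · rintro ⟨hv1, hv2⟩
        rw [SetLike.mem_coe, Module.End.mem_eigenspace_iff] at hv2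
        refine Submodule.mem_map.2 ⟨⟨v, hv1⟩, ?_, rfl⟩
        rw [Module.End.mem_eigenspace_iff]
        exact Subtype.ext hv2
      · intro hv
        obtain ⟨w, hw, rfl⟩ := Submodule.mem_map.1 hv
        rw [Module.End.mem_eigenspace_iff] at hw
        refine ⟨w.2, ?_⟩
        rw [SetLike.mem_coe, Module.End.mem_eigenspace_iff]
        exact congrArg Subtype.val hw
    rw [h1]
    exact (Submodule.equivMapOfInjective W.subtype W.subtype_injective _).symm.finrank_eq
  refine ⟨⟨hirr.1, fun x hx => hRW x hx, ?_⟩, ?_, ?_, ?_⟩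
  · intro U hUW hU0 hU
    rcases k1 (U.comap W.subtype) (fun x w hw => hU x.1 x.2 w.1 hw) with h | h
    · exfalso
      apply hU0
      rw [eq_bot_iff]
      intro u hu
      have h1 : (⟨u, hUW hu⟩ : W) ∈ U.comap W.subtype := hu
      rw [h, Submodule.mem_bot] at h1
      rw [Submodule.mem_bot]
      exact congrArg Subtype.val h1
    · apply le_antisymm hUW
      intro w hw
      have h1 : (⟨w, hw⟩ : W) ∈ U.comap W.subtype := by rw [h]; exact Submodule.mem_top
      exact h1
  · rw [k2]
    congr 1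
    apply Nat.card_congr
    exact
      { toFun := fun z => ⟨z.1.1, z.1.2, (hsc z.1).1 z.2⟩
        invFun := fun x => ⟨⟨x.1, x.2.1⟩, (hsc ⟨x.1, x.2.1⟩).2 x.2.2⟩
        left_inv := fun z => rfl
        right_inv := fun x => rfl }
  · simp only [hrank]
    exact k3
  · simp only [hrank]
    exact k4

end Pool.FH
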