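import Pool.Agent.Work.MP_4c212b_al.Interface

/-!
# Block W: the exceptional case `q = 2`, `dim = 2 p - 1`
-/

set_option autoImplicit false

open Subgroup
open scoped commutatorElement TensorProduct

namespace Pool.FH

namespace WB

section lin

variable {k V : Type} [Field k] [AddCommGroup V] [Module k V]

theorem finrank_indep [FiniteDimensional k V] {ι : Type} {f : ι → Submodule k V}
    (hf : iSupIndep f) (s : Finset ι) :
    Module.finrank k (⨆ i ∈ s, f i : Submodule k V) = ∑ i ∈ s, Module.finrank k (f i) := by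
  classical
  induction s using Finset.induction_on with
  | empty => simp
  | insert a s ha ih =>
    rw [Finset.iSup_insert, Finset.sum_insert ha, ← ih]
    have h1 := Submodule.finrank_sup_add_finrank_inf_eq (f a) (⨆ i ∈ s, f i)
    have h2 : (f a ⊓ ⨆ i ∈ s, f i : Submodule k V) = ⊥ := by
      have h3 := hf a
      have h4 : (⨆ i ∈ s, f i) ≤ ⨆ (j) (_ : j ≠ a), f j := by
        refine iSup₂_le fun i hi => ?_
        exact le_iSup₂_of_le i (fun h => ha (h ▸ hi)) le_rfl
      exact (h3.mono_right h4).eq_bot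
    rw [h2, finrank_bot, add_zero] at h1
    exact h1

/-- An operator of finite order prime to the characteristic is diagonalisable. -/
theorem eig_sum [IsAlgClosed k] [FiniteDimensional k V] (A : Module.End k V) (W : Submodule k V)
    (hA : ∀ w ∈ W, A w ∈ W) {N : ℕ} (hN0 : 0 < N) (hN : (N : k) ≠ 0)
    (h : ∀ w ∈ W, (A ^ N) w = w) :
    ∑ ψ ∈ Polynomial.nthRootsFinset N (1 : k),
      Module.finrank k (W ⊓ Module.End.eigenspace A ψ : Submodule k V) = Module.finrank k W := by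
  classical
  let B : Module.End k W := A.restrict hA
  have hBpow : ∀ (j : ℕ) (w : W), (((B ^ j) w : W) : V) = (A ^ j) w := by
    intro j
    induction j with
    | zero => intro w; rfl
    | succ j ih =>
      intro w
      rw [pow_succ, pow_succ, Module.End.mul_apply, Module.End.mul_apply, ih]
      rfl
  have hBN : B ^ N = 1 := by
    ext w
    rw [hBpow]
    exact h w w.2
  have hss : B.IsSemisimple := by
    refine Module.End.isSemisimple_of_squarefree_aeval_eq_zero
      (p := Polynomial.X ^ N - Polynomial.C (1 : k)) ?_ ?_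
    · exact (Polynomial.separable_X_pow_sub_C 1 hN one_ne_zero).squarefree
    · simp [hBN]
  have htop : ⨆ μ : k, Module.End.eigenspace B μ = ⊤ := by
    have h1 := Module.End.iSup_maxGenEigenspace_eq_top B
    have h2 : ∀ μ, B.maxGenEigenspace μ = Module.End.eigenspace B μ := fun μ =>
      hss.isFinitelySemisimple.maxGenEigenspace_eq_eigenspace μ
    simp only [h2] at h1
    exact h1
  have hind := Module.End.eigenspaces_iSupIndep B
  have htop' : ⨆ μ ∈ Polynomial.nthRootsFinset N (1 : k), Module.End.eigenspace B μ = ⊤ := by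
    rw [← htop]
    apply le_antisymm
    · exact iSup₂_le fun μ _ => le_iSup _ μ
    · refine iSup_le fun μ => ?_
      by_cases hμ : μ ∈ Polynomial.nthRootsFinset N (1 : k)
      · exact le_iSup₂_of_le μ hμ le_rfl
      · have h1 : Module.End.eigenspace B μ = ⊥ := by
          rw [eq_bot_iff]
          intro w hw
          rw [Module.End.mem_eigenspace_iff] at hw
          by_contra hw0
          apply hμ
          rw [Polynomial.mem_nthRootsFinset hN0]
          have h2 : ∀ j : ℕ, (B ^ j) w = μ ^ j • w := by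
            intro j
            induction j with
            | zero => simp
            | succ j ih =>
              rw [pow_succ', Module.End.mul_apply, ih, map_smul, hw, smul_smul, pow_succ]
          have h3 := h2 N
          rw [hBN, Module.End.one_apply] at h3
          have h4 : (μ ^ N - 1) • w = 0 := by rw [sub_smul, one_smul, ← h3, sub_self]
          rcases smul_eq_zero.1 h4 with h5 | h5
          · exact sub_eq_zero.1 h5
          · exact absurd h5 hw0
        rw [h1]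
        exact bot_le
  have h1 := finrank_indep hind (Polynomial.nthRootsFinset N (1 : k))
  rw [htop', finrank_top] at h1
  rw [h1]
  refine Finset.sum_congr rfl fun ψ _ => ?_
  rw [← Submodule.finrank_map_subtype_eq W (Module.End.eigenspace B ψ)]
  have hEq : W ⊓ Module.End.eigenspace A ψ =
      Submodule.map W.subtype (Module.End.eigenspace B ψ) := by
    ext w
    rw [Submodule.mem_inf, Module.End.mem_eigenspace_iff, Submodule.mem_map]
    constructor
    · rintro ⟨hw, hw2⟩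
      refine ⟨⟨w, hw⟩, ?_, rfl⟩
      rw [Module.End.mem_eigenspace_iff]
      exact Subtype.ext hw2
    · rintro ⟨u, hu, rfl⟩
      rw [Module.End.mem_eigenspace_iff] at hu
      exact ⟨u.2, congrArg Subtype.val hu⟩
  rw [hEq]

theorem pow_mod_of_pow_eq_one' {M : Type} [Monoid M] {x : M} {N i : ℕ} (hx : x ^ N = 1)
    (hi : i ≡ 1 [MOD N]) : x = x ^ i := by
  have h1 : i ≡ 1 [MOD orderOf x] := hi.of_dvd (orderOf_dvd_of_pow_eq_one hx)
  have h2 := pow_eq_pow_of_modEq h1 (pow_orderOf_eq_one x)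
  rw [pow_one] at h2
  exact h2.symm

theorem card_roots [IsAlgClosed k] {N : ℕ} (hN : (N : k) ≠ 0) :
    (Polynomial.nthRootsFinset N (1 : k)).card = N := by
  have : NeZero (N : k) := ⟨hN⟩
  obtain ⟨ζ, hζ⟩ := HasEnoughRootsOfUnity.exists_primitiveRoot k N
  exact hζ.card_nthRootsFinset

/-- The numerical part: `s` = the `p`-th roots of unity. -/
theorem numeric {k : Type} [Field k] [DecidableEq k] {p q d : ℕ} (hp : p.Prime) (hq : q.Prime)
    (hpq : p ≠ q) {s : Finset k} (hs : s.card = p) (h1s : (1 : k) ∈ s)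
    {ι : Type} {t : Finset ι} (ht : t.card = q) (n : ι → k → ℕ) (m : k → ℕ)
    (hm : ∀ b ∈ s, ∑ a ∈ t, n a b = m b)
    (hd : ∑ b ∈ s, m b = d)
    (h1 : p * q * ∑ b ∈ s, ∑ a ∈ t, n a b ^ 2 + 1 = d ^ 2 + p * q)
    (h2 : p * ∑ b ∈ s, m b ^ 2 + 1 = d ^ 2 + p)
    (hone : q * ∑ a ∈ t, n a 1 ^ 2 = q * m 1 ^ 2)
    (hNUM : ∃ i0 ∈ s, ∃ a : ℕ, (∀ i ∈ s, i ≠ i0 → m i = a) ∧ (m i0 = a + 1 ∨ m i0 + 1 = a))
    (hd1 : d ≠ 1) :
    q = 2 ∧ p ≠ 2 ∧ d = 2 * p - 1 ∧ m 1 = 1 ∧ ∀ b ∈ s, b ≠ 1 → ∀ a ∈ t, n a b = 1 := by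
  classical
  have hp1 := hp.two_le
  have hq1 := hq.two_le
  -- Cauchy-Schwarz
  have hcs : ∀ b ∈ s, (m b ^ 2 : ℕ) ≤ q * ∑ a ∈ t, n a b ^ 2 := by
    intro b hb
    rw [← hm b hb, ← ht]
    have := sq_sum_le_card_mul_sum_sq (s := t) (f := fun a => (n a b : ℤ))
    exact_mod_cast this
  -- the difference
  have hdiff : q * ∑ b ∈ s, ∑ a ∈ t, n a b ^ 2 + 1 = ∑ b ∈ s, m b ^ 2 + q := by
    have h3 : p * (q * ∑ b ∈ s, ∑ a ∈ t, n a b ^ 2 + 1) = p * (∑ b ∈ s, m b ^ 2 + q) := by
      have h4 : p * (q * ∑ b ∈ s, ∑ a ∈ t, n a b ^ 2 + 1) =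
        p * q * ∑ b ∈ s, ∑ a ∈ t, n a b ^ 2 + p := by ring
      have h5 : p * (∑ b ∈ s, m b ^ 2 + q) = p * ∑ b ∈ s, m b ^ 2 + p * q := by ring
      rw [h4, h5]
      omega
    exact Nat.eq_of_mul_eq_mul_left hp.pos h3
  -- split off `b = 1`
  have hsplit : ∀ f : k → ℕ, ∑ b ∈ s, f b = f 1 + ∑ b ∈ s.erase 1, f b := fun f =>
    (Finset.add_sum_erase s f h1s).symm
  have hmul : q * ∑ b ∈ s, ∑ a ∈ t, n a b ^ 2 = ∑ b ∈ s, q * ∑ a ∈ t, n a b ^ 2 :=
    Finset.mul_sum _ _ _
  rw [hmul, hsplit, hsplit (fun b => m b ^ 2), hone] at hdiff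
  have hle : ∑ b ∈ s.erase 1, m b ^ 2 ≤ ∑ b ∈ s.erase 1, q * ∑ a ∈ t, n a b ^ 2 :=
    Finset.sum_le_sum fun b hb => hcs b (Finset.mem_of_mem_erase hb)
  have hm1 : m 1 ≤ 1 := by
    by_contra hcon
    have h3 : 2 ≤ m 1 := by omega
    have h4 : q * m 1 ^ 2 + 1 ≤ m 1 ^ 2 + q := by omega
    have h5 : 4 ≤ m 1 ^ 2 := by nlinarith
    obtain ⟨e, he⟩ := Nat.exists_eq_add_of_le hq1
    rw [he] at h4
    nlinarith
  have hcard : (s.erase 1).card = p - 1 := by rw [Finset.card_erase_of_mem h1s, hs]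
  have hdsum : d = m 1 + ∑ b ∈ s.erase 1, m b := by rw [← hd, hsplit]
  obtain ⟨i0, hi0, a, ha1, ha2⟩ := hNUM
  by_cases hi : i0 = 1
  · subst hi
    have ha1' : ∀ b ∈ s.erase 1, m b = a := fun b hb =>
      ha1 b (Finset.mem_of_mem_erase hb) (Finset.ne_of_mem_erase hb)
    rw [Finset.sum_congr rfl ha1', Finset.sum_const, hcard, smul_eq_mul] at hdsum
    rcases Nat.lt_or_ge (m 1) 1 with h3 | h3
    · -- `m 1 = 0`, `a = 1`
      exfalso
      have h4 : m 1 = 0 := by omega
      have h5 : a = 1 := by omega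
      have hge : ∀ b ∈ s.erase 1, q ≤ q * ∑ a ∈ t, n a b ^ 2 := by
        intro b hb
        have h6 : 1 ≤ ∑ a ∈ t, n a b ^ 2 := by
          by_contra h7
          have h8 : ∑ a ∈ t, n a b ^ 2 = 0 := by omega
          have h9 : ∑ a ∈ t, n a b = 0 := by
            refine Finset.sum_eq_zero fun x hx => ?_
            have := (Finset.sum_eq_zero_iff.1 h8) x hx
            exact pow_eq_zero_iff (two_ne_zero) |>.1 this
          rw [hm b (Finset.mem_of_mem_erase hb), ha1' b hb] at h9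
          omega
        nlinarith
      have h6 := Finset.sum_le_sum hge
      rw [Finset.sum_const, hcard, smul_eq_mul] at h6
      have h7 : ∑ b ∈ s.erase 1, m b ^ 2 = p - 1 := by
        rw [Finset.sum_congr rfl (g := fun _ => 1) (fun b hb => by rw [ha1' b hb, h5]; rfl)]
        simp [hcard]
      rw [h7, h4] at hdiff
      have h8 : (p - 1) * q + 1 ≤ (p - 1) + q := by
        have : q * 0 ^ 2 = 0 := by simp
        simp only [ne_eq, OfNat.ofNat_ne_zero, not_false_eq_true, zero_pow, mul_zero,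
          zero_add] at hdiff
        omega
      have h9 : p = 2 := by
        by_contra h10
        have h11 : 3 ≤ p := by omega
        obtain ⟨e, he⟩ := Nat.exists_eq_add_of_le h11
        obtain ⟨e', he'⟩ := Nat.exists_eq_add_of_le hq1
        rw [he, he'] at h8
        have : 3 + e - 1 = 2 + e := by omega
        rw [this] at h8
        nlinarith
      apply hd1
      rw [hdsum, h4, h5, h9]
    · have h4 : m 1 = 1 := by omega
      have ha : a = 0 ∨ a = 2 := by omega
      rcases ha with h5 | h5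
      · exfalso
        apply hd1
        rw [hdsum, h4, h5]
        simp
      · -- main case
        have heq : ∀ b ∈ s.erase 1, m b ^ 2 = q * ∑ a ∈ t, n a b ^ 2 := by
          have h6 : ∑ b ∈ s.erase 1, m b ^ 2 = ∑ b ∈ s.erase 1, q * ∑ a ∈ t, n a b ^ 2 := by
            rw [h4] at hdiff
            simp only [one_pow, mul_one] at hdiff
            omega
          exact (Finset.sum_eq_sum_iff_of_le fun b hb => hcs b (Finset.mem_of_mem_erase hb)).1 h6
        have hne : (s.erase 1).Nonempty := by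
          rw [← Finset.card_pos, hcard]
          omega
        obtain ⟨b0, hb0⟩ := hne
        have h6 := heq b0 hb0
        rw [ha1' b0 hb0, h5] at h6
        have hq2 : q = 2 := by
          have h7 : q ∣ 2 ^ 2 := by rw [h6]; exact Dvd.intro _ rfl
          exact (Nat.prime_dvd_prime_iff_eq hq Nat.prime_two).1 (hq.dvd_of_dvd_pow h7)
        refine ⟨hq2, fun h7 => hpq (h7.trans hq2.symm), ?_, h4, ?_⟩
        · rw [hdsum, h4, h5]
          omega
        · intro b hb hb1 x hx
          have hbe : b ∈ s.erase 1 := Finset.mem_erase.2 ⟨hb1, hb⟩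
          have h7 := heq b hbe
          rw [ha1' b hbe, h5, hq2] at h7
          have h8 : ∑ a ∈ t, n a b ^ 2 = 2 := by omega
          have h9 : ∑ a ∈ t, n a b = 2 := by rw [hm b hb, ha1' b hbe, h5]
          rw [hq2] at ht
          obtain ⟨x1, x2, hx12, rfl⟩ := Finset.card_eq_two.1 ht
          rw [Finset.sum_pair hx12] at h8 h9
          have h10 : n x1 b = 1 ∧ n x2 b = 1 := by
            have h11 : n x1 b ≤ 2 := by omega
            interval_cases h12 : n x1 b
            · have : n x2 b = 2 := by omega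
              rw [this] at h8
              norm_num at h8
            · constructor
              · rfl
              · omega
            · norm_num at h8
              omega
          rcases Finset.mem_insert.1 hx with rfl | hx
          · exact h10.1
          · rw [Finset.mem_singleton] at hx
            rw [hx]
            exact h10.2
  · -- `i0 ≠ 1`
    exfalso
    have h3 : m 1 = a := ha1 1 h1s (fun h => hi h.symm)
    have hi0e : i0 ∈ s.erase 1 := Finset.mem_erase.2 ⟨hi, hi0⟩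
    have hsum2 : ∑ b ∈ s.erase 1, m b = m i0 + ∑ b ∈ (s.erase 1).erase i0, m b :=
      (Finset.add_sum_erase _ _ hi0e).symm
    have hothers : ∀ b ∈ (s.erase 1).erase i0, m b = a := fun b hb =>
      ha1 b (Finset.mem_of_mem_erase (Finset.mem_of_mem_erase hb)) (Finset.ne_of_mem_erase hb)
    have hcard2 : ((s.erase 1).erase i0).card = p - 2 := by
      rw [Finset.card_erase_of_mem hi0e, hcard]
      omega
    rw [hsum2, Finset.sum_congr rfl hothers, Finset.sum_const, hcard2, smul_eq_mul] at hdsum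
    rcases Nat.lt_or_ge (m 1) 1 with h4 | h4
    · have h5 : a = 0 := by omega
      apply hd1
      rw [hdsum, h5]
      simp
      omega
    · have h5 : m 1 = 1 := by omega
      have h6 : a = 1 := by omega
      have heq : ∀ b ∈ s.erase 1, m b ^ 2 = q * ∑ a ∈ t, n a b ^ 2 := by
        have h7 : ∑ b ∈ s.erase 1, m b ^ 2 = ∑ b ∈ s.erase 1, q * ∑ a ∈ t, n a b ^ 2 := by
          rw [h5] at hdiff
          simp only [one_pow, mul_one] at hdiff
          omega
        exact (Finset.sum_eq_sum_iff_of_le fun b hb => hcs b (Finset.mem_of_mem_erase hb)).1 h7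
      -- no further element
      have hempty : (s.erase 1).erase i0 = ∅ := by
        rw [Finset.eq_empty_iff_forall_notMem]
        intro b hb
        have h7 := heq b (Finset.mem_of_mem_erase hb)
        rw [hothers b hb, h6] at h7
        have h8 : q ∣ 1 := by
          have : (1 : ℕ) ^ 2 = 1 := rfl
          rw [this] at h7
          exact Dvd.intro _ h7.symm
        exact hq.one_lt.ne' (Nat.dvd_one.1 h8)
      have hp2 : p = 2 := by
        rw [hempty, Finset.card_empty] at hcard2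
        omega
      rw [hp2] at hdsum
      have h7 := heq i0 hi0e
      rcases ha2 with h8 | h8
      · rw [h8, h6] at h7
        have h9 : q ∣ (1 + 1) ^ 2 := by rw [h7]; exact Dvd.intro _ rfl
        have h10 := (Nat.prime_dvd_prime_iff_eq hq Nat.prime_two).1 (hq.dvd_of_dvd_pow h9)
        exact hpq (hp2.trans h10.symm)
      · apply hd1
        rw [hdsum]
        omega

end lin

section grp

variable {k E V : Type} [Field k] [Group E] [Finite E] [AddCommGroup V] [Module k V]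
variable {ρ : Representation k E V}

omit [Finite E] in
theorem rho_mul (g h : E) (v : V) : ρ (g * h) v = ρ g (ρ h v) := by rw [map_mul]; rfl

omit [Finite E] in
theorem nz_bot (g : E) : Nz g (⊥ : Subgroup E) := by
  intro x hx
  rw [mem_bot] at hx ⊢
  subst hx
  simp

/-- The kernel of `R` on `W`. -/
def Kr (ρ : Representation k E V) (R : Subgroup E) (W : Submodule k V) : Subgroup E where
  carrier := {x | x ∈ R ∧ ∀ w ∈ W, ρ x w = w}
  one_mem' := ⟨R.one_mem, fun w _ => by simp⟩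
  mul_mem' := by
    rintro a b ⟨ha, ha'⟩ ⟨hb, hb'⟩
    exact ⟨R.mul_mem ha hb, fun w hw => by rw [rho_mul, hb' w hw, ha' w hw]⟩
  inv_mem' := by
    rintro a ⟨ha, ha'⟩
    refine ⟨R.inv_mem ha, fun w hw => ?_⟩
    have h1 := rho_inv_apply (ρ := ρ) a w
    rwa [ha' w hw] at h1

theorem mem_Kr {R : Subgroup E} {W : Submodule k V} {x : E} :
    x ∈ Kr ρ R W ↔ x ∈ R ∧ ∀ w ∈ W, ρ x w = w := Iff.rfl

theorem Kr_nz {g : E} {R : Subgroup E} {W : Submodule k V} (hg : Nz g R) (hW : Inv ρ g W) :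
    Nz g (Kr ρ R W) := by
  rintro x ⟨hx, hx'⟩
  refine ⟨hg x hx, fun w hw => ?_⟩
  rw [rho_mul, rho_mul, hx' _ (hW.inv w hw), rho_apply_inv]

/-- The scalars of `R` on `W`. -/
def Zs (ρ : Representation k E V) (R : Subgroup E) (W : Submodule k V) : Subgroup E where
  carrier := {x | x ∈ R ∧ Scal ρ x W}
  one_mem' := ⟨R.one_mem, 1, fun w _ => by simp⟩
  mul_mem' := by
    rintro a b ⟨ha, c, hc⟩ ⟨hb, d, hd⟩
    exact ⟨R.mul_mem ha hb, d * c, fun w hw => by
      rw [rho_mul, hd w hw, map_smul, hc w hw, smul_smul]⟩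
  inv_mem' := by
    rintro a ⟨ha, c, hc⟩
    refine ⟨R.inv_mem ha, c⁻¹, fun w hw => ?_⟩
    have h1 := rho_inv_apply (ρ := ρ) a w
    rw [hc w hw, map_smul] at h1
    by_cases h0 : c = 0
    · rw [h0, zero_smul] at h1
      rw [← h1]
      simp
    · have h2 : ρ a⁻¹ w = c⁻¹ • (c • ρ a⁻¹ w) := by
        rw [smul_smul, inv_mul_cancel₀ h0, one_smul]
      rw [h2, h1]

theorem mem_Zs {R : Subgroup E} {W : Submodule k V} {x : E} :
    x ∈ Zs ρ R W ↔ x ∈ R ∧ Scal ρ x W := Iff.rfl

theorem Zs_nz {g : E} {R : Subgroup E} {W : Submodule k V} (hg : Nz g R) (hW : Inv ρ g W) :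
    Nz g (Zs ρ R W) := by
  rintro x ⟨hx, c, hc⟩
  refine ⟨hg x hx, c, fun w hw => ?_⟩
  rw [rho_mul, rho_mul, hc _ (hW.inv w hw), map_smul, rho_apply_inv]

theorem comm_iff {a b : E} {W : Submodule k V} (ha : Inv ρ a W) (hb : Inv ρ b W) :
    (∀ w ∈ W, ρ ⁅a, b⁆ w = w) ↔ ∀ w ∈ W, ρ a (ρ b w) = ρ b (ρ a w) := by
  constructor
  · intro h w hw
    have h1 := h _ (hb _ (ha w hw))
    rw [← rho_mul, ← rho_mul, ← rho_mul] at h1
    have h2 : ⁅a, b⁆ * (b * a) = a * b := by rw [commutatorElement_def]; group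
    rw [mul_assoc, h2] at h1
    rw [← rho_mul, ← rho_mul]
    exact h1
  · intro h w hw
    have h1 := h _ (ha.inv _ (hb.inv w hw))
    rw [rho_apply_inv, rho_apply_inv] at h1
    rw [commutatorElement_def, rho_mul, rho_mul, rho_mul]
    exact h1

theorem schur [IsAlgClosed k] [FiniteDimensional k V] {A : Set E} {W : Submodule k V}
    (h : Irr ρ A W) {g : E} (hg : Inv ρ g W)
    (hc : ∀ a ∈ A, ∀ w ∈ W, ρ g (ρ a w) = ρ a (ρ g w)) : Scal ρ g W := by
  obtain ⟨hW0, hWinv, hWmin⟩ := h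
  have hnt : Nontrivial W := Submodule.nontrivial_iff_ne_bot.2 hW0
  let T : Module.End k W := (ρ g).restrict hg
  obtain ⟨c, hc'⟩ := Module.End.exists_eigenvalue T
  obtain ⟨u, hu⟩ := hc'.exists_hasEigenvector
  let U0 : Submodule k V := W ⊓ Module.End.eigenspace (ρ g) c
  have hU0 : U0 = W := by
    apply hWmin U0 inf_le_left
    · intro hbot
      have h1 : (u : V) ∈ U0 := ⟨u.2, Module.End.mem_eigenspace_iff.2
        (congrArg Subtype.val hu.apply_eq_smul)⟩
      rw [hbot, Submodule.mem_bot] at h1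
      exact hu.2 (Subtype.ext h1)
    · intro a ha w hw
      refine ⟨hWinv a ha w hw.1, Module.End.mem_eigenspace_iff.2 ?_⟩
      rw [hc a ha w hw.1, Module.End.mem_eigenspace_iff.1 hw.2, map_smul]
  refine ⟨c, fun w hw => ?_⟩
  rw [← hU0] at hw
  exact Module.End.mem_eigenspace_iff.1 hw.2

omit [Finite E] in
theorem comm_pow_mem {h x : E} {M : Subgroup E} (hM : Nz h M) (hx : ⁅h, x⁆ ∈ M) (m : ℕ) :
    ⁅h ^ m, x⁆ ∈ M := by
  induction m with
  | zero => simp
  | succ m ih =>
    have h1 : ⁅h ^ (m + 1), x⁆ = h * ⁅h ^ m, x⁆ * h⁻¹ * ⁅h, x⁆ := by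
      rw [pow_succ', commutatorElement_def, commutatorElement_def, commutatorElement_def]
      group
    rw [h1]
    exact M.mul_mem (hM _ ih) hx

omit [Finite E] in
/-- exponents by the Chinese remainder theorem -/
theorem pow_crt {p q n : ℕ} (hpq : Nat.Coprime p q) {φ y : E} (hφ : φ ^ p = 1)
    (hy : y ^ q ^ n = 1) (hc : φ * y = y * φ) {i : ℕ} (hi : Nat.Coprime i p) :
    ∃ m : ℕ, ((y * φ) ^ i) ^ m = φ := by
  obtain ⟨i', hi'⟩ : ∃ i' : ℕ, i * i' ≡ 1 [MOD p] := by
    obtain ⟨m, hm1, hm2⟩ := Nat.chineseRemainder hi 0 1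
    obtain ⟨l, rfl⟩ := Nat.modEq_zero_iff_dvd.1 hm1
    exact ⟨l, hm2⟩
  obtain ⟨m, hm1, hm2⟩ := Nat.chineseRemainder (Nat.Coprime.pow_right n hpq) i' 0
  refine ⟨m, ?_⟩
  have hcy : Commute y φ := hc.symm
  rw [← pow_mul, hcy.mul_pow]
  obtain ⟨l, hl⟩ := Nat.modEq_zero_iff_dvd.1 hm2
  have h1 : y ^ (i * m) = 1 := by
    rw [hl, ← mul_assoc, mul_comm i, mul_assoc, pow_mul, hy, one_pow]
  have h2 : φ ^ (i * m) = φ := by
    have h3 : i * m ≡ 1 [MOD p] := (Nat.ModEq.mul_left i hm1).trans hi'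
    have h4 : i * m ≡ 1 [MOD orderOf φ] := h3.of_dvd (orderOf_dvd_of_pow_eq_one hφ)
    rw [pow_eq_pow_iff_modEq.2 h4, pow_one]
  rw [h1, h2, one_mul]

omit [Finite E] in
theorem pow_crt' {p q n : ℕ} (hpq : Nat.Coprime p q) {φ y : E} (hφ : φ ^ p = 1)
    (hy : y ^ q ^ n = 1) (hc : φ * y = y * φ) {i : ℕ} (hi : Nat.Coprime i q) :
    ∃ m : ℕ, ((y * φ) ^ i) ^ m = y := by
  have hiq : Nat.Coprime i (q ^ n) := Nat.Coprime.pow_right n hi
  obtain ⟨i', hi'⟩ : ∃ i' : ℕ, i * i' ≡ 1 [MOD q ^ n] := by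
    obtain ⟨m, hm1, hm2⟩ := Nat.chineseRemainder hiq 0 1
    obtain ⟨l, rfl⟩ := Nat.modEq_zero_iff_dvd.1 hm1
    exact ⟨l, hm2⟩
  obtain ⟨m, hm1, hm2⟩ := Nat.chineseRemainder (Nat.Coprime.pow_right n hpq) 0 i'
  refine ⟨m, ?_⟩
  have hcy : Commute y φ := hc.symm
  rw [← pow_mul, hcy.mul_pow]
  obtain ⟨l, hl⟩ := Nat.modEq_zero_iff_dvd.1 hm1
  have h1 : φ ^ (i * m) = 1 := by
    rw [hl, ← mul_assoc, mul_comm i, mul_assoc, pow_mul, hφ, one_pow]
  have h2 : y ^ (i * m) = y := by
    have h3 : i * m ≡ 1 [MOD q ^ n] := (Nat.ModEq.mul_left i hm2).trans hi'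
    have h4 : i * m ≡ 1 [MOD orderOf y] := h3.of_dvd (orderOf_dvd_of_pow_eq_one hy)
    rw [pow_eq_pow_iff_modEq.2 h4, pow_one]
  rw [h1, h2, mul_one]

end grp

end WB

open WB

theorem stmt_W (hVL : Stmt_VL) (hP1 : Stmt_P1) (hNUM : Stmt_NUM) : Stmt_W := by
  intro k E V _ _ _ _ _ _ _ ρ p q r φ y R W n hp hq hr hpq hpr hqr hpk hqk hrk hφ hy hc hR hφR
    hyR hRφ hRy hIrr hnt h1 h2 h3
  classical
  have fp : Fact p.Prime := ⟨hp⟩
  have fq : Fact q.Prime := ⟨hq⟩
  have fr : Fact r.Prime := ⟨hr⟩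
  obtain ⟨hW0, hWinv, hWmin⟩ := id hIrr
  have iR : InvS ρ R W := fun g hg => hWinv g (Or.inl hg)
  have iφ : Inv ρ φ W := hWinv φ (Or.inr (Or.inl rfl))
  have iy : Inv ρ y W := hWinv y (Or.inr (Or.inr rfl))
  have hφ' : φ ^ p ^ 1 = 1 := by simpa using hφ
  have nN1φ : Nz φ (Kr ρ R W) := Kr_nz hφR iφ
  have nN1y : Nz y (Kr ρ R W) := Kr_nz hyR iy
  have nN1R : NzS R (Kr ρ R W) := fun g hg => Kr_nz (Nz.of_mem hg) (iR g hg)
  have cardX : ∀ X : Subgroup E, X ≤ R → (Nat.card X : k) ≠ 0 := fun X hX =>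
    card_ne_zero_of_isPGroup (hR.to_le hX) hrk
  have pR : ¬ p ∣ Nat.card R := not_dvd_card_of_isPGroup hpr hR
  have qR : ¬ q ∣ Nat.card R := not_dvd_card_of_isPGroup hqr hR
  -- `R` has no fixed vectors
  have hfixR : ∀ U : Submodule k V, U ≤ W → U ≠ ⊥ → (∀ g ∈ R, ∀ u ∈ U, ρ g u = u) → False := by
    intro U hU hU0 hg
    let F : Submodule k V :=
      { carrier := {w | w ∈ W ∧ ∀ g ∈ R, ρ g w = w}
        add_mem' := by
          rintro a b ⟨ha, ha'⟩ ⟨hb, hb'⟩
          exact ⟨W.add_mem ha hb, fun g hg => by rw [map_add, ha' g hg, hb' g hg]⟩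
        zero_mem' := ⟨W.zero_mem, fun g _ => by simp⟩
        smul_mem' := by
          rintro c a ⟨ha, ha'⟩
          exact ⟨W.smul_mem c ha, fun g hg => by rw [map_smul, ha' g hg]⟩ }
    have hFinv : ∀ h : E, Nz h R → Inv ρ h W → Inv ρ h F := by
      intro h hhR hhW w hw
      refine ⟨hhW w hw.1, fun g hg => ?_⟩
      have h4 : h⁻¹ * g * h ∈ R := by simpa using hhR.inv g hg
      have h5 : ρ g (ρ h w) = ρ h (ρ (h⁻¹ * g * h) w) := by
        rw [← rho_mul, ← rho_mul]
        congr 2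
        group
      rw [h5, hw.2 _ h4]
    have hFW : F = W := by
      apply hWmin F (fun w hw => hw.1)
      · intro hbot
        apply hU0
        rw [eq_bot_iff, ← hbot]
        exact fun u hu => ⟨hU hu, fun g hg' => hg g hg' u hu⟩
      · rintro g (hg' | hg' | hg')
        · exact hFinv g (Nz.of_mem hg') (iR g hg')
        · rw [hg']; exact hFinv φ hφR iφ
        · rw [Set.mem_singleton_iff] at hg'
          rw [hg']; exact hFinv y hyR iy
    apply hnt
    intro g hg' w hw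
    rw [← hFW] at hw
    exact hw.2 g hg'
  -- the contrapositive of the A-criterion
  have hA : ∀ X : Subgroup E, X ≤ R → Nz φ X → Nz y X → ∀ U ∈ wts ρ X W, U.map (ρ φ) ≠ U →
      U.map (ρ y) = U ∧ ∀ u ∈ U, ρ y u = u := by
    intro X hX h4 h5 U hU hmov
    by_contra hcon
    have h6 : U.map (ρ y) ≠ U ∨ ∃ u ∈ U, ρ y u ≠ u := by
      by_contra h7
      push Not at h7
      exact hcon ⟨h7.1, h7.2⟩
    obtain ⟨v, hv, hv1, _, hv2⟩ := acrit hpq hφ hy hc (cardX X hX) h4 h5 iφ iy hU hmov h6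
    exact hv2 (h3 v hv hv1)
  have hYH : YH p q r q φ y (⊥ : Subgroup E) R :=
    { hp := hp, hv := hq, hr := hr, hq := hq, hpv := hpq, hpr := hpr, hpq := hpq, hvr := hqr,
      hqr := hqr, hφ := hφ, hy := ⟨n, hy⟩, hc := hc, hY := IsPGroup.of_bot, hH := hR,
      nφY := nz_bot φ, nφH := hφR, nHY := fun g _ => nz_bot g, nyY := nz_bot y,
      nyM := by rw [bot_sup_eq]; exact hyR
      hYH := bot_le, hHφ := hRφ
      hHy := by rw [bot_sup_eq, sup_bot_eq]; exact hRy }
  have step1 : ∀ X : Subgroup E, Kr ρ R W ≤ X → X ≤ R → (∀ g ∈ ({φ, y} : Set E), Nz g X) →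
      NzS R X → (∀ a ∈ X, ∀ b ∈ X, ⁅a, b⁆ ∈ Kr ρ R W) →
      ∀ a ∈ X, ∀ b ∈ R, ⁅a, b⁆ ∈ Kr ρ R W := by
    intro X _ hXR hXA hXn hab a ha b hb
    have hφX : Nz φ X := hXA φ (Or.inl rfl)
    have hyX : Nz y X := hXA y (Or.inr rfl)
    have iX : InvS ρ X W := fun g hg => iR g (hXR hg)
    have hAb : AbOn ρ X W := by
      intro a ha b hb w hw
      exact (comm_iff (iX a ha) (iX b hb)).1 (hab a ha b hb).2 w hw
    have hsup := wts_sup (cardX X hXR) iX hAb
    have hPP := hP1 E p q r q φ y ⊥ R hYH (Submodule k V) (fun g U => U.map (ρ g))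
      (fun U => by simp only [map_one]; exact Submodule.map_id U)
      (fun g h U => by simp only [map_mul]; exact Submodule.map_comp _ _ U) (wts ρ X W)
      (fun U hU => wts_map hφX iφ hU) (fun U hU => wts_map hyX iy hU)
      (fun g hg U hU => by
        rw [bot_sup_eq] at hg
        exact wts_map (hXn g hg) (iR g hg) hU)
      (fun U hU hmov => (hA X hXR hφX hyX U hU hmov).1)
    have hbR : b ∈ (⊥ ⊔ R : Subgroup E) := by rw [bot_sup_eq]; exact hb
    have haR := hXR ha
    refine ⟨?_, ?_⟩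
    · rw [commutatorElement_def]
      exact R.mul_mem (R.mul_mem (R.mul_mem haR hb) (R.inv_mem haR)) (R.inv_mem hb)
    · rw [comm_iff (iR a haR) (iR b hb)]
      exact comm_of_wts_fixed (hXn b hb) (iR b hb) hsup (fun U hU => hPP b hbR U hU) a ha
  -- class two
  have hcl := class_two hR (show Kr ρ R W ≤ R from fun x hx => hx.1) nN1R (A := {φ, y})
    (by
      rintro g (hg | hg)
      · rw [hg]; exact ⟨hφR, nN1φ⟩
      · rw [Set.mem_singleton_iff] at hg
        rw [hg]; exact ⟨hyR, nN1y⟩) step1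
  -- the centre modulo the kernel
  let Z : Subgroup E :=
    { carrier := {x | x ∈ R ∧ ∀ b ∈ R, ∀ w ∈ W, ρ x (ρ b w) = ρ b (ρ x w)}
      one_mem' := ⟨R.one_mem, fun b _ w _ => by simp⟩
      mul_mem' := by
        rintro a b ⟨ha, ha'⟩ ⟨hb, hb'⟩
        refine ⟨R.mul_mem ha hb, fun c hc w hw => ?_⟩
        rw [rho_mul, hb' c hc w hw, ha' c hc _ (iR b hb w hw), rho_mul]
      inv_mem' := by
        rintro a ⟨ha, ha'⟩
        refine ⟨R.inv_mem ha, fun c hc w hw => ?_⟩
        have h4 := ha' c hc _ (iR _ (R.inv_mem ha) w hw)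
        rw [rho_apply_inv] at h4
        have h5 := congrArg (ρ a⁻¹) h4
        rw [rho_inv_apply] at h5
        exact h5.symm }
  have memZ : ∀ x, x ∈ Z ↔ x ∈ R ∧ ∀ b ∈ R, ∀ w ∈ W, ρ x (ρ b w) = ρ b (ρ x w) := fun x =>
    Iff.rfl
  have hZR : Z ≤ R := fun x hx => hx.1
  have hZn : ∀ g : E, Nz g R → Inv ρ g W → Nz g Z := by
    intro g hg hgW x hx
    refine ⟨hg x hx.1, fun b hb w hw => ?_⟩
    have h4 : g⁻¹ * b * g ∈ R := by simpa using hg.inv b hb
    have h5 := hx.2 _ h4 _ (hgW.inv w hw)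
    have h6 : ρ (g * x * g⁻¹) (ρ b w) = ρ g (ρ x (ρ (g⁻¹ * b * g) (ρ g⁻¹ w))) := by
      rw [← rho_mul, ← rho_mul, ← rho_mul, ← rho_mul]
      congr 2
      group
    have h7 : ρ b (ρ (g * x * g⁻¹) w) = ρ g (ρ (g⁻¹ * b * g) (ρ x (ρ g⁻¹ w))) := by
      rw [← rho_mul, ← rho_mul, ← rho_mul, ← rho_mul]
      congr 2
      group
    rw [h6, h7, h5]
  have hφZ : Nz φ Z := hZn φ hφR iφ
  have hyZ : Nz y Z := hZn y hyR iy
  have hcommZ : ∀ a ∈ R, ∀ b ∈ R, ⁅a, b⁆ ∈ Z := by
    intro a ha b hb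
    have hab : ⁅a, b⁆ ∈ R := by
      rw [commutatorElement_def]
      exact R.mul_mem (R.mul_mem (R.mul_mem ha hb) (R.inv_mem ha)) (R.inv_mem hb)
    refine ⟨hab, fun c hc => ?_⟩
    exact (comm_iff (iR _ hab) (iR c hc)).1 (hcl a ha b hb c hc).2
  have iZ : InvS ρ Z W := fun g hg => iR g (hZR hg)
  have hAbZ : AbOn ρ Z W := fun a ha b hb w hw => ha.2 b (hZR hb) w hw
  have hsupZ := wts_sup (cardX Z hZR) iZ hAbZ
  have hRfixU : ∀ U ∈ wts ρ Z W, ∀ g ∈ R, U.map (ρ g) = U := by
    intro U hU g hg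
    exact wts_fixed_of_comm (iR g hg) (fun x hx w hw => ((memZ x).1 hx).2 g hg w hw) hU
  have hUW : ∀ U ∈ wts ρ Z W, U ≤ W := by
    rintro U ⟨_, χ, rfl⟩
    exact wsp_le Z W χ
  -- all weight spaces of `Z` are fixed by `φ`
  have hφU : ∀ U ∈ wts ρ Z W, U.map (ρ φ) = U := by
    intro U hU
    by_contra hmov
    obtain ⟨_, h5⟩ := hA Z hZR hφZ hyZ U hU hmov
    refine hfixR U (hUW U hU) hU.1 ?_
    let T : Subgroup E :=
      { carrier := {g | ∀ u ∈ U, ρ g u = u}
        one_mem' := fun u _ => by simp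
        mul_mem' := by
          intro a b ha hb u hu
          rw [rho_mul, hb u hu, ha u hu]
        inv_mem' := by
          intro a ha u hu
          have h1 := rho_inv_apply (ρ := ρ) a u
          rwa [ha u hu] at h1 }
    have hyT : zpowers y ≤ T := by
      rw [zpowers_le]
      exact h5
    have hle : cm R y ≤ T := by
      unfold cm
      rw [Subgroup.commutator_le]
      intro g hg z hz u hu
      have h6 : ρ z⁻¹ u = u := hyT ((zpowers y).inv_mem hz) u hu
      have h7 : ρ g⁻¹ u ∈ U := by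
        have h8 := hRfixU U hU g⁻¹ (R.inv_mem hg)
        rw [← h8]
        exact ⟨u, hu, rfl⟩
      rw [commutatorElement_def, rho_mul, rho_mul, rho_mul, h6, hyT hz _ h7, rho_apply_inv]
    exact fun g hg u hu => hle (hRy hg) u hu
  have hcmZ : ∀ g ∈ cm Z φ, ∀ w ∈ W, ρ g w = w := by
    intro g hg w hw
    have h4 : sSup (wts ρ Z W) ≤ LinearMap.eqLocus (ρ g) LinearMap.id := by
      apply sSup_le
      intro U hU u hu
      exact cm_triv_of_fixed hφZ iφ hU (hφU U hU) g hg u hu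
    rw [hsupZ] at h4
    exact h4 hw
  have hyZc : ∀ z ∈ Z, ∀ w ∈ W, ρ z (ρ y w) = ρ y (ρ z w) := by
    intro z hz w hw
    have pZ : ¬ p ∣ Nat.card Z := fun h => pR (h.trans (card_dvd_of_le hZR))
    obtain ⟨d, hd, c, hcZ, rfl⟩ := cm_decomp hφ' pZ hφZ hz
    have hcR : c ∈ fx R φ := fx_mono hZR hcZ
    have h4 := (comm_iff (iR c hcR.1) iy).1 (h1 c hcR) w hw
    rw [rho_mul, rho_mul, hcmZ d hd _ (iR c hcR.1 _ (iy w hw)), h4,
      hcmZ d hd _ (iR c hcR.1 w hw)]
  have hWwt : W ∈ wts ρ Z W := by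
    have hne : (wts ρ Z W).Nonempty := by
      by_contra hemp
      rw [Set.not_nonempty_iff_eq_empty] at hemp
      rw [hemp, sSup_empty] at hsupZ
      exact hW0 hsupZ.symm
    obtain ⟨U, hU⟩ := hne
    have hyU : U.map (ρ y) = U := wts_fixed_of_comm iy hyZc hU
    have h4 : U = W := by
      apply hWmin U (hUW U hU) hU.1
      have hinv : ∀ g : E, U.map (ρ g) = U → Inv ρ g U := by
        intro g hg u hu
        rw [← hg]
        exact ⟨u, hu, rfl⟩
      rintro g (hg | hg | hg)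
      · exact hinv g (hRfixU U hU g hg)
      · rw [hg]; exact hinv φ (hφU U hU)
      · rw [Set.mem_singleton_iff] at hg
        rw [hg]; exact hinv y hyU
    rw [h4] at hU
    exact hU
  have hZscal : ∀ z ∈ Z, Scal ρ z W := by
    intro z hz
    obtain ⟨_, χ, hχ⟩ := hWwt
    refine ⟨χ z, fun w hw => ?_⟩
    have h4 : w ∈ wsp ρ Z W χ := by rw [← hχ]; exact hw
    exact h4.2 z hz
  have hscal : ∀ x ∈ R, ∀ x' ∈ R, Scal ρ ⁅x, x'⁆ W := fun x hx x' hx' =>
    hZscal _ (hcommZ x hx x' hx')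
  have hnotall : ¬ ∀ x ∈ R, Scal ρ x W := by
    intro hall
    apply hnt
    have hle : cm R φ ≤ Kr ρ R W := by
      unfold cm
      rw [Subgroup.commutator_le]
      intro g hg z hz
      have hzR : Nz z R := by
        obtain ⟨j, rfl⟩ := hz
        exact hφR.zpow j
      have hzW : Inv ρ z W := InvS.zpowers iφ z hz
      refine ⟨?_, ?_⟩
      · rw [commutatorElement_def]
        have := R.mul_mem hg (hzR _ (R.inv_mem hg))
        simpa [mul_assoc] using this
      · rw [comm_iff (iR g hg) hzW]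
        intro w hw
        obtain ⟨c, hc⟩ := hall g hg
        rw [hc w hw, hc _ (hzW w hw), map_smul]
    exact fun g hg w hw => (hle (hRφ hg)).2 w hw
  have hnondeg : ∀ x ∈ R, (∀ y ∈ R, ∀ w ∈ W, ρ ⁅x, y⁆ w = w) → Scal ρ x W := by
    intro x hx h4
    exact hZscal x ⟨hx, fun b hb => (comm_iff (iR x hx) (iR b hb)).1 (h4 b hb)⟩
  have hnab : ∃ x ∈ R, ∃ x' ∈ R, ∃ w ∈ W, ρ ⁅x, x'⁆ w ≠ w := by
    by_contra hcon
    push Not at hcon
    exact hnotall fun x hx => hnondeg x hx (hcon x hx)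
  -- the dimension is not one
  have hd1 : Module.finrank k W ≠ 1 := by
    intro h4
    obtain ⟨v, hv0, hv⟩ := finrank_eq_one_iff'.1 h4
    apply hnotall
    intro x hx
    obtain ⟨c, hc⟩ := hv ⟨ρ x v, iR x hx v v.2⟩
    refine ⟨c, fun w hw => ?_⟩
    obtain ⟨e, he⟩ := hv ⟨w, hw⟩
    have h5 : w = e • (v : V) := (congrArg Subtype.val he).symm
    have h6 : ρ x v = c • (v : V) := (congrArg Subtype.val hc).symm
    rw [h5, map_smul, h6, smul_comm]
  -- `y ^ q` is a scalar
  have hyqW : Inv ρ (y ^ q) W := InvS.zpowers iy _ (Subgroup.npow_mem_zpowers y q)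
  obtain ⟨μ, hμ⟩ : Scal ρ (y ^ q) W := by
    refine schur hIrr hyqW ?_
    rintro a (ha | ha | ha) w hw
    · exact (comm_iff hyqW (iR a ha)).1 (h2 a ha) w hw
    · rw [ha, ← rho_mul, ← rho_mul]
      rw [((show Commute φ y from hc).pow_right q).eq]
    · rw [Set.mem_singleton_iff] at ha
      rw [ha, ← rho_mul, ← rho_mul, ← pow_succ, ← pow_succ']
  have hμ0 : μ ≠ 0 := by
    intro h4
    apply hW0
    rw [eq_bot_iff]
    intro w hw
    have h5 := hμ w hw
    rw [h4, zero_smul] at h5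
    have h6 := rho_inv_apply (ρ := ρ) (y ^ q) w
    rw [h5, map_zero] at h6
    exact h6.symm
  obtain ⟨c, hcq⟩ := IsAlgClosed.exists_pow_nat_eq μ⁻¹ hq.pos
  have hc0 : c ≠ 0 := by
    rintro rfl
    rw [zero_pow hq.ne_zero] at hcq
    exact inv_ne_zero hμ0 hcq.symm
  have hyq : ∀ w ∈ W, c ^ q • ρ (y ^ q) w = w := by
    intro w hw
    rw [hμ w hw, hcq, smul_smul, inv_mul_cancel₀ hμ0, one_smul]
  have hyql : ∀ l : ℕ, ∀ w ∈ W, c ^ (q * l) • ρ (y ^ (q * l)) w = w := by
    intro l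
    induction l with
    | zero => intro w _; simp
    | succ l ih =>
      intro w hw
      have h4 : y ^ (q * (l + 1)) = y ^ q * y ^ (q * l) := by rw [← pow_add]; congr 1; ring
      have h5 : c ^ (q * (l + 1)) = c ^ q * c ^ (q * l) := by rw [← pow_add]; congr 1; ring
      have h6 : ρ (y ^ (q * l)) w ∈ W := InvS.zpowers iy _ (Subgroup.npow_mem_zpowers y _) w hw
      rw [h4, h5, rho_mul, mul_comm, mul_smul, hyq _ h6, ih w hw]
  -- exponents
  have hcop : Nat.Coprime p q := (Nat.coprime_primes hp hq).2 hpq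
  obtain ⟨m1, hm1p, hm1q⟩ := Nat.chineseRemainder hcop 1 0
  obtain ⟨m2, hm2p, hm2q⟩ := Nat.chineseRemainder hcop 0 1
  have hcy : Commute y φ := hc.symm
  have hApow : ∀ (j : ℕ) (v : V), ((c • ρ (y * φ) : Module.End k V) ^ j) v =
      c ^ j • ρ (y ^ j) (ρ (φ ^ j) v) := by
    intro j v
    rw [smul_pow, ← map_pow, hcy.mul_pow, LinearMap.smul_apply, rho_mul]
  have hA1 : ∀ w ∈ W, ((c • ρ (y * φ) : Module.End k V) ^ m1) w = ρ φ w := by
    intro w hw
    obtain ⟨l, hl⟩ := Nat.modEq_zero_iff_dvd.1 hm1q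
    have h4 : φ ^ m1 = φ := by
      have h5 : m1 ≡ 1 [MOD orderOf φ] := hm1p.of_dvd (orderOf_dvd_of_pow_eq_one hφ)
      rw [pow_eq_pow_iff_modEq.2 h5, pow_one]
    rw [hApow, h4, hl]
    exact hyql l _ (iφ w hw)
  have hA2 : ∀ w ∈ W, ((c • ρ (y * φ) : Module.End k V) ^ m2) w = c • ρ y w := by
    intro w hw
    obtain ⟨l, hl⟩ := Nat.modEq_zero_iff_dvd.1 hm2p
    have h4 : φ ^ m2 = 1 := by rw [hl, pow_mul, hφ, one_pow]
    have h5 : m2 = q * (m2 / q) + 1 := by
      have h6 : m2 % q = 1 := by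
        have h7 : m2 % q = 1 % q := hm2q
        rwa [Nat.mod_eq_of_lt hq.one_lt] at h7
      have h8 := Nat.div_add_mod m2 q
      rw [h6] at h8
      exact h8.symm
    rw [hApow, h4, map_one, Module.End.one_apply]
    generalize m2 / q = l2 at h5
    rw [h5, pow_succ, pow_succ, rho_mul, mul_comm, mul_smul, hyql l2 _ (iy w hw)]
  have hg : Nz (y * φ) R := hyR.mul hφR
  have ig : Inv ρ (y * φ) W := Inv.mul iy iφ
  have hIrr1 : Irr ρ ((R : Set E) ∪ {y * φ}) W := by
    refine ⟨hW0, ?_, ?_⟩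
    · rintro g (hg' | hg')
      · exact iR g hg'
      · rw [Set.mem_singleton_iff] at hg'
        rw [hg']; exact ig
    · intro U hU hU0 hUinv
      apply hWmin U hU hU0
      have hUg : Inv ρ (y * φ) U := hUinv _ (Or.inr rfl)
      have hUA : ∀ (j : ℕ), ∀ u ∈ U, ((c • ρ (y * φ) : Module.End k V) ^ j) u ∈ U := by
        intro j
        induction j with
        | zero => intro u hu; simpa using hu
        | succ j ih =>
          intro u hu
          rw [pow_succ, Module.End.mul_apply]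
          exact ih _ (U.smul_mem c (hUg u hu))
      rintro g (hg' | hg' | hg')
      · exact hUinv g (Or.inl hg')
      · rw [hg']
        intro u hu
        rw [← hA1 u (hU hu)]
        exact hUA m1 u hu
      · rw [Set.mem_singleton_iff] at hg'
        rw [hg']
        intro u hu
        have h4 : ρ y u = c⁻¹ • (c • ρ y u) := by
          rw [smul_smul, inv_mul_cancel₀ hc0, one_smul]
        rw [h4, ← hA2 u (hU hu)]
        exact U.smul_mem _ (hUA m2 u hu)
  have hpqk : ((p * q : ℕ) : k) ≠ 0 := by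
    rw [Nat.cast_mul]
    exact mul_ne_zero hpk hqk
  have hcomM : ∀ x ∈ R, ∀ x' ∈ R, ⁅x, x'⁆ ∈ Zs ρ R W := by
    intro x hx x' hx'
    exact ⟨(hcommZ x hx x' hx').1, hscal x hx x' hx'⟩
  have hφfpf : ∀ x ∈ R, ⁅φ, x⁆ ∈ Zs ρ R W → Scal ρ x W := by
    intro x hx h4
    exact (fx_abelian hφ' pR hφR (fun x hx => (mem_Zs.1 hx).1) (Zs_nz hφR iφ) hcomM
      (hRφ.trans le_sup_left) hx h4).2
  have hyfpf : ∀ x ∈ R, ⁅y, x⁆ ∈ Zs ρ R W → Scal ρ x W := by
    intro x hx h4
    exact (fx_abelian hy qR hyR (fun x hx => (mem_Zs.1 hx).1) (Zs_nz hyR iy) hcomM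
      (hRy.trans le_sup_left) hx h4).2
  have hcR : ∀ g : E, Nz g R → ∀ x ∈ R, ⁅g, x⁆ ∈ R := by
    intro g hg x hx
    rw [commutatorElement_def]
    exact R.mul_mem (hg x hx) (R.inv_mem hx)
  have hfpf1 : ∀ i, 0 < i → i < p * q → ∀ x ∈ R, Scal ρ ⁅(y * φ) ^ i, x⁆ W → Scal ρ x W := by
    intro i hi0 hi x hx h4
    have h5 : ⁅(y * φ) ^ i, x⁆ ∈ Zs ρ R W := ⟨hcR _ (hg.pow i) x hx, h4⟩
    have hnz : Nz ((y * φ) ^ i) (Zs ρ R W) := (Zs_nz hg ig).pow i
    by_cases hpi : p ∣ i
    · have hqi : ¬ q ∣ i := by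
        intro hqi
        have h6 := hcop.mul_dvd_of_dvd_of_dvd hpi hqi
        exact absurd (Nat.le_of_dvd hi0 h6) (not_le.2 hi)
      have h6 : Nat.Coprime i q := ((Nat.Prime.coprime_iff_not_dvd hq).2 hqi).symm
      obtain ⟨m, hm⟩ := pow_crt' hcop hφ hy hc h6
      have h7 := comm_pow_mem hnz h5 m
      rw [hm] at h7
      exact hyfpf x hx h7
    · have h6 : Nat.Coprime i p := ((Nat.Prime.coprime_iff_not_dvd hp).2 hpi).symm
      obtain ⟨m, hm⟩ := pow_crt hcop hφ hy hc h6
      have h7 := comm_pow_mem hnz h5 m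
      rw [hm] at h7
      exact hφfpf x hx h7
  have hfpf2 : ∀ i, 0 < i → i < p → ∀ x ∈ R, Scal ρ ⁅φ ^ i, x⁆ W → Scal ρ x W := by
    intro i hi0 hi x hx h4
    have h5 : ⁅φ ^ i, x⁆ ∈ Zs ρ R W := ⟨hcR _ (hφR.pow i) x hx, h4⟩
    have hnz : Nz (φ ^ i) (Zs ρ R W) := (Zs_nz hφR iφ).pow i
    have hpi : ¬ p ∣ i := fun h6 => absurd (Nat.le_of_dvd hi0 h6) (not_le.2 hi)
    have h6 : Nat.Coprime i p := ((Nat.Prime.coprime_iff_not_dvd hp).2 hpi).symm
    obtain ⟨m, hm⟩ := pow_crt (q := 1) (n := 0) (y := (1 : E)) (Nat.coprime_one_right p) hφ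
      (by simp) (by simp) h6
    rw [one_mul] at hm
    have h7 := comm_pow_mem hnz h5 m
    rw [hm] at h7
    exact hφfpf x hx h7
  have hpq0 : 0 < p * q := Nat.mul_pos hp.pos hq.pos
  obtain ⟨hIR, _, hS1, hS2⟩ := hVL k E V ρ R (y * φ) c (p * q) W hpq0 hpqk
    (cardX R le_rfl) hc0 hg iR ig hIrr1 hscal hnondeg
    (by
      intro w hw
      have h4 : (y * φ) ^ (p * q) = y ^ (q * p) := by
        rw [hcy.mul_pow, pow_mul φ, hφ, one_pow, mul_one, mul_comm]
      rw [h4, mul_comm p q]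
      exact hyql p w hw) hfpf1
  have hIrr2 : Irr ρ ((R : Set E) ∪ {φ}) W := by
    refine ⟨hW0, ?_, ?_⟩
    · rintro g (hg' | hg')
      · exact iR g hg'
      · rw [Set.mem_singleton_iff] at hg'
        rw [hg']; exact iφ
    · intro U hU hU0 hUinv
      exact hIR.2.2 U hU hU0 fun g hg' => hUinv g (Or.inl hg')
  obtain ⟨_, _, hT1, hT2⟩ := hVL k E V ρ R φ 1 p W hp.pos hpk
    (cardX R le_rfl) one_ne_zero hφR iR iφ hIrr2 hscal hnondeg
    (by
      intro w _
      rw [hφ]
      simp) hfpf2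
  rw [show ((1 : k) • ρ φ : Module.End k V) = ρ φ from one_smul _ _] at hT1 hT2
  -- the multiplicities
  set s := Polynomial.nthRootsFinset p (1 : k) with hs
  set t := Polynomial.nthRootsFinset q (1 : k) with ht
  have hscard : s.card = p := card_roots hpk
  have htcard : t.card = q := card_roots hqk
  have h1s : (1 : k) ∈ s := Polynomial.one_mem_nthRootsFinset hp.pos
  let nn : k → k → ℕ := fun a b => Module.finrank k
    ((W ⊓ Module.End.eigenspace (ρ φ) b) ⊓ Module.End.eigenspace (c • ρ y) a : Submodule k V)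
  let mm : k → ℕ := fun b => Module.finrank k (W ⊓ Module.End.eigenspace (ρ φ) b : Submodule k V)
  have hcomm1 : ∀ w, ρ φ (ρ y w) = ρ y (ρ φ w) := by
    intro w
    rw [← rho_mul, ← rho_mul, hc]
  have hyqpow : ∀ v : V, ((c • ρ y : Module.End k V) ^ q) v = c ^ q • ρ (y ^ q) v := by
    intro v
    rw [smul_pow, ← map_pow, LinearMap.smul_apply]
  have hm : ∀ b ∈ s, ∑ a ∈ t, nn a b = mm b := by
    intro b _
    refine eig_sum (c • ρ y) (W ⊓ Module.End.eigenspace (ρ φ) b) ?_ hq.pos hqk ?_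
    · intro w hw
      refine ⟨W.smul_mem c (iy w hw.1), Module.End.mem_eigenspace_iff.2 ?_⟩
      have h4 := Module.End.mem_eigenspace_iff.1 hw.2
      rw [LinearMap.smul_apply, map_smul, hcomm1, h4, map_smul, smul_comm]
    · intro w hw
      rw [hyqpow]
      exact hyq w hw.1
  have hbij : ∑ ψ ∈ Polynomial.nthRootsFinset (p * q) (1 : k),
      (Module.finrank k (W ⊓ Module.End.eigenspace (c • ρ (y * φ)) ψ : Submodule k V)) ^ 2 =
      ∑ b ∈ s, ∑ a ∈ t, nn a b ^ 2 := by
    rw [← Finset.sum_product']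
    symm
    have hpowp : ∀ b ∈ s, b ^ p = 1 := fun b hb => (Polynomial.mem_nthRootsFinset hp.pos 1).1 hb
    have hpowq : ∀ a ∈ t, a ^ q = 1 := fun a ha => (Polynomial.mem_nthRootsFinset hq.pos 1).1 ha
    have hbm1 : ∀ b ∈ s, b ^ m1 = b := by
      intro b hb
      have h5 : m1 ≡ 1 [MOD p] := hm1p
      rw [← pow_mod_of_pow_eq_one' (hpowp b hb) h5]
    have ham1 : ∀ a ∈ t, a ^ m1 = 1 := by
      intro a ha
      obtain ⟨l, hl⟩ := Nat.modEq_zero_iff_dvd.1 hm1q
      rw [hl, pow_mul, hpowq a ha, one_pow]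
    have ham2 : ∀ a ∈ t, a ^ m2 = a := by
      intro a ha
      have h5 : m2 ≡ 1 [MOD q] := hm2q
      rw [← pow_mod_of_pow_eq_one' (hpowq a ha) h5]
    have hbm2 : ∀ b ∈ s, b ^ m2 = 1 := by
      intro b hb
      obtain ⟨l, hl⟩ := Nat.modEq_zero_iff_dvd.1 hm2p
      rw [hl, pow_mul, hpowp b hb, one_pow]
    refine Finset.sum_nbij (fun x => x.1 * x.2) ?_ ?_ ?_ ?_
    · rintro ⟨b, a⟩ hx
      rw [Finset.mem_product] at hx
      rw [Polynomial.mem_nthRootsFinset hpq0]
      show (b * a) ^ (p * q) = 1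
      rw [mul_pow, pow_mul, hpowp b hx.1, one_pow, mul_comm p q, pow_mul, hpowq a hx.2, one_pow,
        one_mul]
    · rintro ⟨b, a⟩ hx ⟨b', a'⟩ hx' h4
      rw [Finset.mem_coe, Finset.mem_product] at hx hx'
      simp only at h4 hx hx'
      have h5 := congrArg (fun z => z ^ m1) h4
      simp only [mul_pow] at h5
      rw [hbm1 b hx.1, hbm1 b' hx'.1, ham1 a hx.2, ham1 a' hx'.2, mul_one, mul_one] at h5
      have h6 := congrArg (fun z => z ^ m2) h4
      simp only [mul_pow] at h6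
      rw [hbm2 b hx.1, hbm2 b' hx'.1, ham2 a hx.2, ham2 a' hx'.2, one_mul, one_mul] at h6
      rw [h5, h6]
    · intro ψ hψ
      rw [Finset.mem_coe, Polynomial.mem_nthRootsFinset hpq0] at hψ
      refine ⟨(ψ ^ m1, ψ ^ m2), ?_, ?_⟩
      · rw [Finset.mem_coe, Finset.mem_product]
        constructor
        · rw [Polynomial.mem_nthRootsFinset hp.pos]
          obtain ⟨l, hl⟩ := Nat.modEq_zero_iff_dvd.1 hm1q
          show (ψ ^ m1) ^ p = 1
          rw [hl, ← pow_mul, show q * l * p = (p * q) * l by ring, pow_mul, hψ, one_pow]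
        · rw [Polynomial.mem_nthRootsFinset hq.pos]
          obtain ⟨l, hl⟩ := Nat.modEq_zero_iff_dvd.1 hm2p
          show (ψ ^ m2) ^ q = 1
          rw [hl, ← pow_mul, show p * l * q = (p * q) * l by ring, pow_mul, hψ, one_pow]
      · show ψ ^ m1 * ψ ^ m2 = ψ
        rw [← pow_add]
        have h5 : m1 + m2 ≡ 1 [MOD p * q] := by
          rw [← Nat.modEq_and_modEq_iff_modEq_mul hcop]
          constructor
          · have := hm1p.add hm2p
            simpa using this
          · have := hm1q.add hm2q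
            simpa using this
        rw [← pow_mod_of_pow_eq_one' hψ h5]
    · rintro ⟨b, a⟩ hx
      rw [Finset.mem_product] at hx
      simp only at hx
      have hbb := hx.1
      have haa := hx.2
      have hEq : (W ⊓ Module.End.eigenspace (ρ φ) b) ⊓ Module.End.eigenspace (c • ρ y) a =
          W ⊓ Module.End.eigenspace (c • ρ (y * φ)) (b * a) := by
        ext w
        constructor
        · rintro ⟨⟨hw, hw1⟩, hw2⟩
          refine ⟨hw, Module.End.mem_eigenspace_iff.2 ?_⟩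
          have h4 := Module.End.mem_eigenspace_iff.1 hw1
          have h5 := Module.End.mem_eigenspace_iff.1 hw2
          rw [LinearMap.smul_apply] at h5 ⊢
          rw [rho_mul, h4, map_smul, smul_comm, h5, smul_smul]
        · rintro ⟨hw, hw1⟩
          have h4 := Module.End.mem_eigenspace_iff.1 hw1
          have h5 : ∀ j : ℕ, ((c • ρ (y * φ) : Module.End k V) ^ j) w = (b * a) ^ j • w := by
            intro j
            induction j with
            | zero => simp
            | succ j ih =>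
              rw [pow_succ', Module.End.mul_apply, ih, map_smul, h4, smul_smul, pow_succ]
          refine ⟨⟨hw, Module.End.mem_eigenspace_iff.2 ?_⟩, Module.End.mem_eigenspace_iff.2 ?_⟩
          · rw [← hA1 w hw, h5, mul_pow, hbm1 b hbb, ham1 a haa, mul_one]
          · rw [LinearMap.smul_apply, ← hA2 w hw, h5, mul_pow, hbm2 b hbb, ham2 a haa, one_mul]
      show nn a b ^ 2 = _
      simp only [nn]
      rw [hEq]
  rw [hbij] at hS2
  have hW1 : ∀ w ∈ W ⊓ Module.End.eigenspace (ρ φ) 1, ρ y w = w := by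
    intro w hw
    have h4 := Module.End.mem_eigenspace_iff.1 hw.2
    rw [one_smul] at h4
    exact h3 w hw.1 h4
  have hW1q : ∀ w ∈ W ⊓ Module.End.eigenspace (ρ φ) 1, ∀ j : ℕ, ρ (y ^ j) w = w := by
    intro w hw j
    induction j with
    | zero => simp
    | succ j ih => rw [pow_succ, rho_mul, hW1 w hw, ih]
  have hone : q * ∑ a ∈ t, nn a 1 ^ 2 = q * mm 1 ^ 2 := by
    congr 1
    by_cases hbot : (W ⊓ Module.End.eigenspace (ρ φ) 1 : Submodule k V) = ⊥
    · have h4 : mm 1 = 0 := by simp only [mm]; rw [hbot, finrank_bot]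
      have h5 : ∀ a, nn a 1 = 0 := by
        intro a
        simp only [nn]
        rw [hbot, bot_inf_eq, finrank_bot]
      rw [h4]
      simp [h5]
    · obtain ⟨w0, hw0, hw00⟩ := (Submodule.ne_bot_iff _).1 hbot
      have hct : c ∈ t := by
        rw [Polynomial.mem_nthRootsFinset hq.pos]
        have h4 := hyq w0 hw0.1
        rw [hW1q w0 hw0 q] at h4
        have h5 : (c ^ q - 1) • w0 = 0 := by rw [sub_smul, one_smul, h4, sub_self]
        rcases smul_eq_zero.1 h5 with h6 | h6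
        · exact sub_eq_zero.1 h6
        · exact absurd h6 hw00
      rw [Finset.sum_eq_single_of_mem c hct]
      · congr 1
        simp only [nn, mm]
        have hEq : (W ⊓ Module.End.eigenspace (ρ φ) 1) ⊓ Module.End.eigenspace (c • ρ y) c =
            W ⊓ Module.End.eigenspace (ρ φ) 1 := by
          refine inf_eq_left.2 fun w hw => Module.End.mem_eigenspace_iff.2 ?_
          rw [LinearMap.smul_apply, hW1 w hw]
        rw [hEq]
      · intro a _ hac
        have hEq : (W ⊓ Module.End.eigenspace (ρ φ) 1) ⊓ Module.End.eigenspace (c • ρ y) a = ⊥ := by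
          rw [eq_bot_iff]
          rintro w ⟨hw, hw2⟩
          have h4 := Module.End.mem_eigenspace_iff.1 hw2
          rw [LinearMap.smul_apply, hW1 w hw] at h4
          have h5 : (c - a) • w = 0 := by rw [sub_smul, h4, sub_self]
          rcases smul_eq_zero.1 h5 with h6 | h6
          · exact absurd (sub_eq_zero.1 h6).symm hac
          · exact h6
        simp only [nn]
        rw [hEq, finrank_bot]
        rfl
  have hS2' : p * q * ∑ b ∈ s, ∑ a ∈ t, nn a b ^ 2 + 1 = (Module.finrank k W) ^ 2 + p * q := hS2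
  have hNUM' := hNUM k s mm (Module.finrank k W) ⟨1, h1s⟩ hT1 (by rw [hscard]; exact hT2)
  obtain ⟨hq2, hp2, hdim, hmm1, hnn⟩ := numeric hp hq hpq hscard h1s htcard nn mm hm hT1 hS2' hT2
    hone hNUM' hd1
  subst hq2
  have hμ1 : μ = 1 := by
    have hbot : (W ⊓ Module.End.eigenspace (ρ φ) 1 : Submodule k V) ≠ ⊥ := by
      intro h4
      simp only [mm] at hmm1
      rw [h4, finrank_bot] at hmm1
      exact zero_ne_one hmm1
    obtain ⟨w0, hw0, hw00⟩ := (Submodule.ne_bot_iff _).1 hbot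
    have h4 := hμ w0 hw0.1
    rw [hW1q w0 hw0 2] at h4
    have h5 : (μ - 1) • w0 = 0 := by rw [sub_smul, one_smul, ← h4, sub_self]
    rcases smul_eq_zero.1 h5 with h6 | h6
    · exact sub_eq_zero.1 h6
    · exact absurd h6 hw00
  refine ⟨rfl, hp2, hdim, ?_, hmm1, ?_, hscal, hnab⟩
  · intro w hw
    rw [hμ w hw, hμ1, one_smul]
  · -- the eigenvalue `-1`
    have hsum := eig_sum (ρ φ) (W ⊓ Module.End.eigenspace (ρ y) (-1)) (by
      intro w hw
      refine ⟨iφ w hw.1, Module.End.mem_eigenspace_iff.2 ?_⟩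
      rw [← hcomm1, Module.End.mem_eigenspace_iff.1 hw.2, map_smul]) hp.pos hpk (by
      intro w _
      rw [← map_pow, hφ, map_one, Module.End.one_apply])
    rw [← hsum]
    have hc2 : c ^ 2 = 1 := by rw [hcq, hμ1, inv_one]
    have hmt : -c ∈ t := by
      rw [Polynomial.mem_nthRootsFinset (by norm_num)]
      rw [neg_sq, hc2]
    have hval : ∀ b ∈ s, Module.finrank k ((W ⊓ Module.End.eigenspace (ρ y) (-1)) ⊓
        Module.End.eigenspace (ρ φ) b : Submodule k V) = if b = 1 then 0 else 1 := by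
      intro b hb
      have hEq : (W ⊓ Module.End.eigenspace (ρ y) (-1)) ⊓ Module.End.eigenspace (ρ φ) b =
          (W ⊓ Module.End.eigenspace (ρ φ) b) ⊓ Module.End.eigenspace (c • ρ y) (-c) := by
        ext w
        constructor
        · rintro ⟨⟨hw, hw1⟩, hw2⟩
          refine ⟨⟨hw, hw2⟩, Module.End.mem_eigenspace_iff.2 ?_⟩
          rw [LinearMap.smul_apply, Module.End.mem_eigenspace_iff.1 hw1, smul_smul, mul_neg,
            mul_one]
        · rintro ⟨⟨hw, hw2⟩, hw1⟩
          refine ⟨⟨hw, Module.End.mem_eigenspace_iff.2 ?_⟩, hw2⟩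
          have h4 := Module.End.mem_eigenspace_iff.1 hw1
          rw [LinearMap.smul_apply] at h4
          have h5 : ρ y w = c⁻¹ • (c • ρ y w) := by
            rw [smul_smul, inv_mul_cancel₀ hc0, one_smul]
          rw [h5, h4, smul_smul, mul_neg, inv_mul_cancel₀ hc0]
      by_cases hb1 : b = 1
      · rw [if_pos hb1, hb1]
        have hbot : (W ⊓ Module.End.eigenspace (ρ y) (-1)) ⊓ Module.End.eigenspace (ρ φ) 1 =
            (⊥ : Submodule k V) := by
          rw [eq_bot_iff]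
          rintro w ⟨⟨hw, hw1⟩, hw2⟩
          have h4 := hW1 w ⟨hw, hw2⟩
          have h5 := Module.End.mem_eigenspace_iff.1 hw1
          rw [h4] at h5
          have h6 : (2 : k) • w = 0 := by
            rw [two_smul]
            nth_rewrite 1 [h5]
            rw [neg_smul, one_smul, neg_add_cancel]
          rcases smul_eq_zero.1 h6 with h7 | h7
          · exact absurd (by exact_mod_cast h7) hqk
          · exact h7
        rw [hbot, finrank_bot]
      · rw [if_neg hb1, hEq]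
        exact hnn b hb hb1 (-c) hmt
    rw [Finset.sum_congr rfl hval, Finset.sum_ite, Finset.sum_const_zero, zero_add,
      Finset.sum_const, smul_eq_mul, mul_one]
    have h4 : s.filter (fun b => ¬ b = 1) = s.erase 1 := by
      ext b
      rw [Finset.mem_filter, Finset.mem_erase, and_comm]
    rw [h4, Finset.card_erase_of_mem h1s, hscard]

end Pool.FH
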