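import Pool.Agent.Work.MP_4c212b_al.AsmM
import Pool.Agent.Work.MP_4c212b_al.AsmInit
import Pool.Agent.Work.MP_4c212b_al.NUM
import Pool.Agent.Work.MP_4c212b_al.VL
import Pool.Agent.Work.MP_4c212b_al.NZ
import Pool.Agent.Work.MP_4c212b_al.QLV
import Pool.Agent.Work.MP_4c212b_al.QLQ
import Pool.Agent.Work.MP_4c212b_al.GETM
import Pool.Agent.Work.MP_4c212b_al.ISO
import Pool.Agent.Work.MP_4c212b_al.FINDR
import Pool.Agent.Work.MP_4c212b_al.Z
import Pool.Agent.Work.MP_4c212b_al.P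
import Pool.Agent.Work.MP_4c212b_al.P1
import Pool.Agent.Work.MP_4c212b_al.QMOD
import Pool.Agent.Work.MP_4c212b_al.REPR
import Pool.Agent.Work.MP_4c212b_al.LIFT
import Pool.Agent.Work.MP_4c212b_al.TPA
import Pool.Agent.Work.MP_4c212b_al.TPB
import Pool.Agent.Work.MP_4c212b_al.TRANS
import Pool.Agent.Work.MP_4c212b_al.FAITH
import Pool.Agent.Work.MP_4c212b_al.SUC
import Pool.Agent.Work.MP_4c212b_al.STEP
import Pool.Agent.Work.MP_4c212b_al.EXC
import Pool.Agent.Work.MP_4c212b_al.DB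
import Pool.Agent.Work.MP_4c212b_al.EX
import Pool.Agent.Work.MP_4c212b_al.VE
import Pool.Agent.Work.MP_4c212b_al.W
import Pool.Agent.Work.MP_4c212b_al.QL
import Pool.Agent.Work.MP_4c212b_al.L2
import Pool.Agent.Work.MP_4c212b_al.S1a
import Pool.Agent.Work.MP_4c212b_al.S1
import Pool.Agent.Work.MP_4c212b_al.CH
import Pool.Agent.Work.MP_4c212b_al.FIN

/-! # Assembly -/

set_option autoImplicit false

namespace Pool.FH

theorem main_L1 : Stmt_L1 := by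
  have hQLQ : Stmt_QLQ := stmt_QLQ stmt_EXC stmt_QMOD
  have hNZ : Stmt_NZ := stmt_NZ stmt_VL stmt_NUM (stmt_EX stmt_VL stmt_NUM) stmt_QMOD
  have hQLV : Stmt_QLV :=
    stmt_QLV (stmt_W stmt_VL stmt_P1 stmt_NUM) stmt_ISO stmt_QMOD
  have hSA : Stmt_SUCA := stmt_SUCA stmt_TRANS stmt_LIFT stmt_TPA
  have hSB : Stmt_SUCB := stmt_SUCB stmt_TRANS stmt_LIFT stmt_TPB
  have hD : Stmt_DOWN := stmt_DOWN stmt_FAITH stmt_REPR (stmt_STEP stmt_P hNZ) hSA hSB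
  have hM : Stmt_M := stmt_M hD
  have hQL : Stmt_QL := stmt_QL stmt_P1 hNZ hQLQ hQLV
  have hQLS : Stmt_QLS := stmt_QLS hQL hSA hSB
  exact stmt_L1 hM stmt_FINDR (stmt_INIT stmt_TRANS stmt_FAITH stmt_REPR stmt_GETM hQLS)

theorem main_S1 : Stmt_S1 := stmt_S1 stmt_S1a stmt_QMOD

theorem main_L2 : Stmt_L2 :=
  stmt_L2 (stmt_DB stmt_VL stmt_NUM) (stmt_VE stmt_VL stmt_NUM) stmt_FAITH stmt_REPR

theorem main_EX : Stmt_EX := stmt_EX stmt_VL stmt_NUM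

theorem main_W : Stmt_W := stmt_W stmt_VL stmt_P1 stmt_NUM

theorem main_CH : Stmt_CH := stmt_CH main_L1 main_L2

theorem main_FIN : Stmt_FIN := stmt_FIN main_S1 main_CH

end Pool.FH
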