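import Pool.Agent.Work.MP_4c212b_al.Interface

/-!
# Blocks DOWN and QLS (assemblies)
-/

set_option autoImplicit false

open Subgroup
open scoped commutatorElement TensorProduct

namespace Pool.FH

theorem natCast_ne_zero_algClosure {s p : ℕ} [hs : Fact s.Prime] (hp : p.Prime) (h : s ≠ p) :
    ((p : ℕ) : AlgebraicClosure (ZMod s)) ≠ 0 := by
  have : CharP (AlgebraicClosure (ZMod s)) s :=
    charP_of_injective_algebraMap (algebraMap (ZMod s) (AlgebraicClosure (ZMod s))).injective s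
  rw [Ne, CharP.cast_eq_zero_iff (AlgebraicClosure (ZMod s)) s]
  intro hd
  exact h ((Nat.prime_dvd_prime_iff_eq hs.out hp).1 hd)

theorem Sys.ne_p_of_isPGroup (S : Sys) {t : ℕ} (ht : t.Prime) {Y : Subgroup S.Γ}
    (hY : IsPGroup t Y) (hYG : Y ≤ S.G) (h : Y ≠ ⊥) : S.p ≠ t := by
  rintro rfl
  have : Nontrivial Y := (Subgroup.nontrivial_iff_ne_bot Y).2 h
  have : Fact S.p.Prime := S.hp
  rcases hY.card_eq_or_dvd with h1 | h1
  · have := Finite.one_lt_card (α := Y)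
    omega
  · exact S.cop_of_le hYG h1

theorem stmt_DOWN (hF : Stmt_FAITH) (hR : Stmt_REPR) (hS : Stmt_STEP) (hA : Stmt_SUCA)
    (hB : Stmt_SUCB) : Stmt_DOWN := by
  rintro S κ ⟨t, u, ht, hu, htu, hup, Q, Y, hQG, hYt, hY1, hQ, nQ, nY, nQY, hH⟩
  have ft : Fact t.Prime := ⟨ht⟩
  have hYP : IsPGroup t Y := (Op_isP t S.next.G).to_le hYt
  have hYG : Y ≤ S.next.G := hYt.trans (Op_le t _)
  have hpt : S.p ≠ t := S.next.ne_p_of_isPGroup ht hYP hYG hY1
  obtain ⟨s, hs, hst, hsG, hM⟩ := hF S t Y ht hYt hY1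
  obtain ⟨M⟩ := hR S s
  have hsp : s ≠ S.p := by rintro rfl; exact S.cop hsG
  have hQY : QY S.p t u S.next.φ Q Y (Y ⊓ S.next.B (κ + 1)) :=
    { hp := S.hp.out
      ht := ht
      hu := hu
      hpt := hpt
      hpu := fun h => hup h.symm
      htu := htu
      hφ := S.next.hφ
      hQ := hQ
      hY := hYP
      nQ := nQ
      nY := nY
      nQY := nQY
      hK := by
        rintro x ⟨hx1, hx2⟩
        exact mem_fx.2 ⟨hx1, (mem_fx.1 (S.next.hBC _ hx2)).2⟩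
      hKY := by
        intro c hc
        rw [mem_fx] at hc
        exact (Nz.of_mem hc.1).inf (S.next.hBn _ c (mem_fx.2 ⟨hYG hc.1, hc.2⟩))
      hKQ := by
        intro c hc
        rw [mem_fx] at hc
        exact (nQY c hc.1).inf (S.next.hBn _ c (mem_fx.2 ⟨hQG hc.1, hc.2⟩)) }
  have hV := hM M
  rcases hS (AlgebraicClosure (ZMod s)) S.next.Γ _ (bc (AlgebraicClosure (ZMod s)) M.ρ) S.p t u
    S.next.φ Q Y (Y ⊓ S.next.B (κ + 1)) hQY (natCast_ne_zero_algClosure S.hp.out hsp)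
    (natCast_ne_zero_algClosure ht hst) hH (bc_nontriv _ hV) with
    ⟨X, N, hXY, hNX, nX, nN, nXN, nKX, nKN, hab, hg⟩ | ⟨N, z, hz, hNY, nN, nYN, hzN, hg⟩
  · refine hA S κ s M t t X N (Y ⊓ S.next.B (κ + 1)) ht ht (Ne.symm hst) (Ne.symm hst) hsp
      (hXY.trans hYG) (hYP.to_le hXY) nX hNX nN nXN hab (hYP.to_le inf_le_left) inf_le_right
      nKX nKN (bc_goodA _ hg)
  · exact hB S κ s M t Y N z ht (Ne.symm hst) hsp hYG hYP nY hNY nN nYN hz.1 hz.2 hzN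
      (bc_goodB _ hg)

theorem stmt_QLS (hQL : Stmt_QL) (hA : Stmt_SUCA) (hB : Stmt_SUCB) : Stmt_QLS := by
  intro S κ v r q t Y H y hft M hy hYH hYv hHG htv htq htp hM hW
  have hYG : Y ≤ S.next.G := by
    have : Fact v.Prime := ⟨hYH.hv⟩
    exact hYv.trans (Op_le v _)
  obtain ⟨n, hn⟩ := hYH.hy
  rcases hQL (AlgebraicClosure (ZMod t)) S.next.Γ _ (bc (AlgebraicClosure (ZMod t)) M.ρ) S.p v r q
    S.next.φ y Y H (S.next.B (κ + 1)) hYH (natCast_ne_zero_algClosure S.hp.out htp)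
    (natCast_ne_zero_algClosure hYH.hv htv) (natCast_ne_zero_algClosure hYH.hq htq) hy
    (by
      intro c hc
      rw [mem_fx] at hc
      exact S.next.hBn _ c (mem_fx.2 ⟨hYG hc.1, hc.2⟩))
    (bc_nontriv _ hM) hW with
    ⟨y', hy', X, N, hXY, hNX, nX, nN, nyX, nyN, nXN, hab, hg⟩ |
    ⟨N, z, hz, hzB, hzφ, hNY, nN, nYN, hzN, hg⟩
  · have hy'1 : y' ^ q ^ n = 1 := by
      obtain ⟨j, rfl⟩ := hy'
      change (y ^ j) ^ q ^ n = 1
      rw [← zpow_natCast, ← zpow_mul, mul_comm, zpow_mul, zpow_natCast, hn, one_zpow]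
    refine hA S κ t M v q X N (zpowers y') hYH.hv hYH.hq (Ne.symm htv) (Ne.symm htq) htp
      (hXY.trans hYG) (hYH.hY.to_le hXY) nX hNX nN nXN hab (isPGroup_zpowers hy'1)
      ((zpowers_le (g := y')).2 ?_) ?_ ?_ (bc_goodA _ hg)
    · obtain ⟨j, rfl⟩ := hy'
      exact (S.next.B (κ + 1)).zpow_mem hy j
    · rintro _ ⟨j, rfl⟩
      exact nyX.zpow j
    · rintro _ ⟨j, rfl⟩
      exact nyN.zpow j
  · exact hB S κ t M v Y N z hYH.hv (Ne.symm htv) htp hYG hYH.hY hYH.nφY hNY nN nYN hz hzB hzN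
      (bc_goodB _ hg)

end Pool.FH
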