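import Pool.Agent.Work.MP_4c212b_al.Interface

/-!
# Blocks M and L1 (assemblies)
-/

set_option autoImplicit false

open Subgroup
open scoped commutatorElement TensorProduct

namespace Pool.FH

theorem gen_bot {E : Type} [Group E] (Q : Subgroup E) : gen Q (⊥ : Subgroup E) = ⊥ := by
  rw [eq_bot_iff]
  unfold gen
  rw [closure_le]
  rintro _ ⟨g, _, k, hk, rfl⟩
  rw [mem_bot] at hk
  subst hk
  simp

theorem not_isDATA_zero (S : Sys) : ¬ isDATA S 0 := by
  rintro ⟨t, u, -, -, -, -, Q, Y, -, -, hY, -, -, -, -, hH, -⟩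
  apply hY
  rw [S.hB0, inf_bot_eq, gen_bot, bot_sup_eq] at hH
  exact eq_bot_iff.2 hH

theorem stmt_M (hD : Stmt_DOWN) : Stmt_M := by
  intro S κ
  induction κ with
  | zero => intro l _; exact not_isDATA_zero _
  | succ κ ih =>
    intro l hl h
    obtain ⟨l, rfl⟩ : ∃ l', l = l' + 1 := ⟨l - 1, by omega⟩
    exact ih l (by omega) (hD _ _ h)

/-- the prime power decomposition of elements, in the form: a nontrivial image contains the
nontrivial image of an element of prime power order. -/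
theorem exists_pelt {E E' : Type} [Group E] [Finite E] [Group E'] (f : E →* E')
    (B : Subgroup E) (h : ¬ B ≤ f.ker) : ∃ q : ℕ, q.Prime ∧ ∃ y ∈ B, (∃ n : ℕ, y ^ q ^ n = 1) ∧
      f y ≠ 1 := by
  by_contra hcon
  push Not at hcon
  apply h
  intro x hx
  -- all prime power parts of x are in the kernel
  have key : ∀ n : ℕ, 0 < n → ∀ x ∈ B, x ^ n = 1 → f x = 1 := by
    intro n
    induction n using Nat.recOnPosPrimePosCoprime with
    | prime_pow q n hq _ =>
      intro _ x hx hxn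
      exact hcon q hq x hx ⟨n, hxn⟩
    | zero => intro h; omega
    | one => intro _ x _ hx1; rw [pow_one] at hx1; rw [hx1, map_one]
    | coprime a b ha hb hab iha ihb =>
      intro _ x hx hxn
      have h1 : f (x ^ a) = 1 := ihb (by omega) (x ^ a) (pow_mem hx a) (by rw [← pow_mul, hxn])
      have h2 : f (x ^ b) = 1 := iha (by omega) (x ^ b) (pow_mem hx b)
        (by rw [← pow_mul, mul_comm, hxn])
      rw [map_pow] at h1 h2
      have h3 : orderOf (f x) ∣ Nat.gcd a b :=
        Nat.dvd_gcd (orderOf_dvd_of_pow_eq_one h1) (orderOf_dvd_of_pow_eq_one h2)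
      rw [Nat.Coprime.gcd_eq_one hab, Nat.dvd_one, orderOf_eq_one_iff] at h3
      exact h3
  exact key (orderOf x) (orderOf_pos x) x hx (pow_orderOf_eq_one x)

theorem lev_succ_B (S : Sys) (l k : ℕ) : (S.lev (l + 1)).B k = ((S.lev l).B k).map (S.lev l).pr :=
  rfl

theorem Sys.B_le_G (S : Sys) (k : ℕ) : S.B k ≤ S.G := (S.hBC k).trans fx_le

theorem stmt_L1 (hM : Stmt_M) (hF : Stmt_FINDR) (hI : Stmt_INIT) : Stmt_L1 := by
  intro S κ
  induction κ with
  | zero => exact (S.lev 3).hB0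
  | succ κ ih =>
    by_contra hne
    -- S0 = lev κ
    set S0 := S.lev κ with hS0
    have e3 : S.lev (κ + 3) = S0.next.next.next := rfl
    have e4 : S.lev (κ + 1 + 3) = S0.next.next.next.next := rfl
    rw [e3] at ih
    rw [e4] at hne
    let f : S0.Γ →* S0.next.next.next.next.Γ :=
      S0.next.next.next.pr.comp (S0.next.next.pr.comp (S0.next.pr.comp S0.pr))
    have hB : ¬ S0.B (κ + 1) ≤ f.ker := by
      intro hle
      apply hne
      rw [eq_bot_iff]
      rintro _ ⟨_, ⟨_, ⟨_, ⟨y, hy, rfl⟩, rfl⟩, rfl⟩, rfl⟩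
      have := hle hy
      rw [MonoidHom.mem_ker] at this
      exact (Subgroup.mem_bot (G := S0.next.next.next.next.Γ)).2 this
    obtain ⟨q, hq, y, hy, hyn, hy1⟩ := exists_pelt f (S0.B (κ + 1)) hB
    obtain ⟨n, hn⟩ := hyn
    set y3 : S0.next.next.next.Γ := S0.next.next.pr (S0.next.pr (S0.pr y)) with hy3
    have hy3F : y3 ∉ Ft S0.next.next.next.G := by
      intro h
      apply hy1
      change S0.next.next.next.pr y3 = 1
      rw [← MonoidHom.mem_ker, Sys.ker_pr]
      exact h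
    have hyG : y ∈ S0.G := S0.B_le_G _ hy
    have hy3G : y3 ∈ S0.next.next.next.G := ⟨_, ⟨_, ⟨_, hyG, rfl⟩, rfl⟩, rfl⟩
    rcases hF S0.next.next.next q y3 hq hy3G ⟨n, by
      rw [hy3, ← map_pow, ← map_pow, ← map_pow, hn, map_one, map_one, map_one]⟩ hy3F with
      ⟨r, hr, hrq, x, hx, hxy⟩ | ⟨r, hr, hrq, x, hx, hxy⟩
    · rcases hI S0 κ q r y hq hr hrq hy ⟨n, hn⟩ ih ⟨x, hx, hxy⟩ with h | h
      · exact hM S κ κ le_rfl h
      · exact hM S κ (κ + 1) (by omega) h
    · have h4 : S0.next.next.next.next.B κ = ⊥ := by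
        rw [Sys.next_B, ih, Subgroup.map_bot]
      rcases hI S0.next κ q r (S0.pr y) hq hr hrq ⟨y, hy, rfl⟩ ⟨n, by
        rw [← map_pow, hn, map_one]⟩ h4 ⟨x, hx, hxy⟩ with h | h
      · exact hM S κ (κ + 1) (by omega) h
      · exact hM S κ (κ + 2) (by omega) h

end Pool.FH
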