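import Pool.Agent.Work.MP_4c212b_al.Cop1

/-!
# Block COP2: Frattini subgroup, class two, `le_cm_of_sup`, stable subgroup
-/

set_option autoImplicit false
set_option linter.unusedSectionVars false
set_option linter.unusedVariables false

open Subgroup
open scoped commutatorElement

namespace Pool.FH

section Cop2aux

/-- A maximal subgroup of a finite `t`-group contains all commutators and `t`-th powers. -/
theorem coatom_aux {G : Type} [Group G] [Finite G] {t : ℕ} [Fact t.Prime] (hG : IsPGroup t G)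
    {M : Subgroup G} (hM : IsCoatom M) : (∀ a b : G, ⁅a, b⁆ ∈ M) ∧ ∀ a : G, a ^ t ∈ M := by
  classical
  have hnil : Group.IsNilpotent G := hG.isNilpotent
  have hn : M.Normal := Subgroup.NormalizerCondition.normal_of_coatom M
    Group.normalizerCondition_of_isNilpotent hM
  have hQ : IsPGroup t (G ⧸ M) := hG.to_quotient M
  have hnt : Nontrivial (G ⧸ M) := by
    rw [← not_subsingleton_iff_nontrivial]
    intro h
    apply hM.1
    exact QuotientGroup.subgroup_eq_top_of_subsingleton M h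
  have hc : Nontrivial (Subgroup.center (G ⧸ M)) := hQ.center_nontrivial
  -- an element of order `t` in the centre
  obtain ⟨z, hz⟩ := exists_prime_orderOf_dvd_card' t
    (show t ∣ Nat.card (Subgroup.center (G ⧸ M)) by
      have h1 := (hQ.to_subgroup (Subgroup.center (G ⧸ M)))
      obtain ⟨n, hn⟩ := IsPGroup.iff_card.1 h1
      rcases Nat.eq_zero_or_pos n with rfl | hn0
      · exfalso
        rw [pow_zero] at hn
        have := Finite.one_lt_card (α := Subgroup.center (G ⧸ M))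
        omega
      · rw [hn]; exact dvd_pow_self _ hn0.ne')
  set Z : Subgroup (G ⧸ M) := zpowers (z : G ⧸ M) with hZ
  have hZn : Z.Normal := by
    constructor
    intro x hx g
    have hx' : x ∈ Subgroup.center (G ⧸ M) := by
      have : Z ≤ Subgroup.center (G ⧸ M) := by
        rw [hZ, zpowers_le]; exact z.2
      exact this hx
    rw [Subgroup.mem_center_iff] at hx'
    rw [hx' g, mul_inv_cancel_right]; exact hx
  have hcom : Z.comap (QuotientGroup.mk' M) = ⊤ := by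
    apply hM.2
    rw [lt_iff_le_and_ne]
    refine ⟨?_, ?_⟩
    · intro x hx
      rw [mem_comap]
      have : (QuotientGroup.mk' M) x = 1 := (QuotientGroup.eq_one_iff x).2 hx
      rw [this]; exact Z.one_mem
    · intro h
      obtain ⟨w, hw⟩ := QuotientGroup.mk'_surjective M (z : G ⧸ M)
      have h1 : w ∈ Z.comap (QuotientGroup.mk' M) := by
        rw [mem_comap, hw]; exact mem_zpowers _
      rw [← h] at h1
      have h2 : (QuotientGroup.mk' M) w = 1 := (QuotientGroup.eq_one_iff w).2 h1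
      rw [hw] at h2
      have h3 : z = 1 := Subtype.ext h2
      rw [h3, orderOf_one] at hz
      exact (Fact.out : t.Prime).one_lt.ne hz
  have hall : ∀ x : G ⧸ M, x ∈ Z := by
    intro x
    obtain ⟨w, rfl⟩ := QuotientGroup.mk'_surjective M x
    have : w ∈ Z.comap (QuotientGroup.mk' M) := by rw [hcom]; trivial
    exact this
  refine ⟨fun a b => ?_, fun a => ?_⟩
  · have : (QuotientGroup.mk' M) ⁅a, b⁆ = 1 := by
      rw [map_commutatorElement, commutatorElement_eq_one_iff_mul_comm]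
      have hx' : (QuotientGroup.mk' M) b ∈ Subgroup.center (G ⧸ M) := by
        have : Z ≤ Subgroup.center (G ⧸ M) := by
          rw [hZ, zpowers_le]; exact z.2
        exact this (hall _)
      rw [Subgroup.mem_center_iff] at hx'
      exact hx' _
    exact (QuotientGroup.eq_one_iff _).1 this
  · have : (QuotientGroup.mk' M) (a ^ t) = 1 := by
      obtain ⟨k, hk⟩ := mem_zpowers_iff.1 (hall ((QuotientGroup.mk' M) a))
      have hzt : (z : G ⧸ M) ^ t = 1 := by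
        have := pow_orderOf_eq_one z
        rw [hz] at this
        have h2 := congrArg Subtype.val this
        simpa using h2
      rw [map_pow, ← hk, ← zpow_natCast, ← zpow_mul, mul_comm, zpow_mul, zpow_natCast, hzt,
        one_zpow]
    exact (QuotientGroup.eq_one_iff _).1 this

end Cop2aux

section Cop2

variable {E : Type} [Group E] [Finite E]

/-! ### Frattini subgroups of `t`-groups -/

theorem Phi_le {t : ℕ} {Y : Subgroup E} : Phi t Y ≤ Y := by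
  rw [Phi, closure_le]
  rintro x (⟨a, ha, b, hb, rfl⟩ | ⟨a, ha, rfl⟩)
  · rw [commutatorElement_def]
    exact Y.mul_mem (Y.mul_mem (Y.mul_mem ha hb) (Y.inv_mem ha)) (Y.inv_mem hb)
  · exact Y.pow_mem ha t

theorem Phi_mono {t : ℕ} {X Y : Subgroup E} (h : X ≤ Y) : Phi t X ≤ Phi t Y := by
  apply Subgroup.closure_mono
  rintro x (⟨a, ha, b, hb, rfl⟩ | ⟨a, ha, rfl⟩)
  · exact Or.inl ⟨a, h ha, b, h hb, rfl⟩
  · exact Or.inr ⟨a, h ha, rfl⟩

theorem conj_comm_eq (g a b : E) : g * ⁅a, b⁆ * g⁻¹ = ⁅g * a * g⁻¹, g * b * g⁻¹⁆ := by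
  simp only [commutatorElement_def]; group

theorem Phi_nz {t : ℕ} {Y : Subgroup E} {g : E} (h : Nz g Y) : Nz g (Phi t Y) := by
  apply Nz.closure
  rintro x (⟨a, ha, b, hb, rfl⟩ | ⟨a, ha, rfl⟩)
  · exact subset_closure (Or.inl ⟨_, h a ha, _, h b hb, conj_comm_eq g a b⟩)
  · exact subset_closure (Or.inr ⟨_, h a ha, by rw [conj_pow]⟩)

/-- Burnside's basis theorem -/
theorem Phi_gen {t : ℕ} [Fact t.Prime] {X Y : Subgroup E} (hY : IsPGroup t Y) (hX : X ≤ Y)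
    (h : Y ≤ X ⊔ Phi t Y) : X = Y := by
  by_contra hne
  have h1 : X.subgroupOf Y ≠ ⊤ := by
    intro h2
    rw [subgroupOf_eq_top] at h2
    exact hne (le_antisymm hX h2)
  obtain ⟨M, hM, hXM⟩ := (eq_top_or_exists_le_coatom (X.subgroupOf Y)).resolve_left h1
  obtain ⟨c1, c2⟩ := coatom_aux hY hM
  have hle : Y ≤ M.map Y.subtype := by
    refine h.trans (sup_le ?_ ?_)
    · intro x hx
      exact ⟨⟨x, hX hx⟩, hXM (by simpa [mem_subgroupOf] using hx), rfl⟩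
    · rw [Phi, closure_le]
      rintro x (⟨a, ha, b, hb, rfl⟩ | ⟨a, ha, rfl⟩)
      · exact ⟨⁅⟨a, ha⟩, ⟨b, hb⟩⁆, c1 _ _, rfl⟩
      · exact ⟨⟨a, ha⟩ ^ t, c2 _, rfl⟩
  apply hM.1
  rw [eq_top_iff]
  rintro ⟨x, hx⟩ -
  obtain ⟨⟨w, hw⟩, hw2, hw3⟩ := hle hx
  have : w = x := hw3
  subst this
  exact hw2

theorem Phi_ne {t : ℕ} [Fact t.Prime] {Y : Subgroup E} (hY : IsPGroup t Y) (h : Y ≠ ⊥) :
    ¬ Y ≤ Phi t Y := by
  intro h1
  exact h (Phi_gen hY bot_le (h1.trans le_sup_right)).symm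

/-- A `p`-group `P` (`p ≠ t`) acting trivially on `Y/Φ(Y)` acts trivially on the `t`-group `Y`. -/
theorem Phi_triv {t p : ℕ} [Fact t.Prime] [Fact p.Prime] (hpt : p ≠ t) {P Y : Subgroup E}
    (hY : IsPGroup t Y) (hP : IsPGroup p P) (h : NzS P Y)
    (hh : ∀ a ∈ P, ∀ y ∈ Y, ⁅a, y⁆ ∈ Phi t Y) : ∀ a ∈ P, ∀ y ∈ Y, a * y = y * a := by
  have hN : ¬ p ∣ Nat.card (Phi t Y) :=
    not_dvd_card_of_isPGroup hpt (hY.to_le Phi_le)
  have hPN : NzS P (Phi t Y) := fun a ha => Phi_nz (h a ha)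
  have hle : Y ≤ fxS Y P ⊔ Phi t Y := by
    intro y hy
    obtain ⟨n, hn, hc⟩ := cp_fix hP hN hPN (g := y) (by
      intro a ha
      have h1 := hh a ha y hy
      have h2 : Nz y⁻¹ (Phi t Y) := Phi_nz (Nz.of_mem (Y.inv_mem hy))
      have h3 := h2 _ h1
      have h4 : y⁻¹ * ⁅a, y⁆ * y⁻¹⁻¹ = y⁻¹ * (a * y * a⁻¹) := by
        rw [commutatorElement_def]; group
      rwa [h4] at h3)
    have h5 : y = (y * n) * n⁻¹ := by group
    rw [h5]
    exact mul_mem_sup (mem_fxS.2 ⟨Y.mul_mem hy (Phi_le hn), hc⟩) ((Phi t Y).inv_mem hn)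
  have heq := Phi_gen hY (show fxS Y P ≤ Y from inf_le_left) hle
  intro a ha y hy
  rw [← heq] at hy
  exact (mem_fxS.1 hy).2 a ha

/-- If `Y = [Y, P]` modulo `Φ(Y)` then `Y = [Y, P]`. -/
theorem Phi_comm {t : ℕ} [Fact t.Prime] {P Y : Subgroup E}
    (hY : IsPGroup t Y) (h : NzS P Y)
    (hh : Y ≤ ⁅Y, P⁆ ⊔ Phi t Y) : ⁅Y, P⁆ = Y :=
  Phi_gen hY (comm_le_left h) hh

/-! ### Class two -/

/-- The centre of `Y` modulo `N`. -/
def Zr (Y N : Subgroup E) (hN : NzS Y N) : Subgroup E where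
  carrier := {x | x ∈ Y ∧ ∀ y ∈ Y, ⁅x, y⁆ ∈ N}
  mul_mem' := by
    rintro a b ⟨ha, ha2⟩ ⟨hb, hb2⟩
    refine ⟨Y.mul_mem ha hb, fun y hy => ?_⟩
    have h1 : ⁅a * b, y⁆ = (a * ⁅b, y⁆ * a⁻¹) * ⁅a, y⁆ := by
      simp only [commutatorElement_def]; group
    rw [h1]
    exact N.mul_mem (hN a ha _ (hb2 y hy)) (ha2 y hy)
  one_mem' := ⟨Y.one_mem, fun y _ => by rw [commutatorElement_one_left]; exact N.one_mem⟩
  inv_mem' := by
    rintro a ⟨ha, ha2⟩
    refine ⟨Y.inv_mem ha, fun y hy => ?_⟩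
    have h1 : ⁅a⁻¹, y⁆ = a⁻¹ * ⁅a, y⁆⁻¹ * a⁻¹⁻¹ := by
      simp only [commutatorElement_def]; group
    rw [h1]
    exact hN a⁻¹ (Y.inv_mem ha) _ (N.inv_mem (ha2 y hy))

theorem mem_Zr {Y N : Subgroup E} {hN : NzS Y N} {x : E} :
    x ∈ Zr Y N hN ↔ x ∈ Y ∧ ∀ y ∈ Y, ⁅x, y⁆ ∈ N := Iff.rfl

theorem Zr_nz {Y N : Subgroup E} {hN : NzS Y N} {g : E} (h1 : Nz g Y) (h2 : Nz g N) :
    Nz g (Zr Y N hN) := by
  rintro x ⟨hx, hx2⟩
  refine ⟨h1 x hx, fun y hy => ?_⟩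
  have h3 : ⁅g * x * g⁻¹, y⁆ = g * ⁅x, g⁻¹ * y * g⁻¹⁻¹⁆ * g⁻¹ := by
    rw [conj_comm_eq]; congr 1; group
  rw [h3]
  exact h2 _ (hx2 _ (h1.inv y hy))

/-- In a group, if `[a,b]`, `[a,c]` are central then `[a,[b,c]] = 1`. -/
theorem comm_comm_one {G : Type} [Group G] {a b c : G} (h1 : ⁅a, b⁆ ∈ center G)
    (h2 : ⁅a, c⁆ ∈ center G) : ⁅a, ⁅b, c⁆⁆ = 1 := by
  rw [mem_center_iff] at h1 h2
  set u := ⁅a, b⁆ with hu
  set v := ⁅a, c⁆ with hv
  have e1 : a * b * a⁻¹ = u * b := by rw [hu, commutatorElement_def]; group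
  have e2 : a * c * a⁻¹ = v * c := by rw [hv, commutatorElement_def]; group
  have e3 : a * ⁅b, c⁆ * a⁻¹ = ⁅b, c⁆ := by
    rw [(show a * ⁅b, c⁆ * a⁻¹ = ⁅a * b * a⁻¹, a * c * a⁻¹⁆ by simp only [commutatorElement_def]; group), e1, e2]
    simp only [commutatorElement_def, mul_inv_rev]
    have hu' : ∀ g, g * u = u * g := h1
    have hv' : ∀ g, g * v = v * g := h2
    have hvi : ∀ g, g * v⁻¹ = v⁻¹ * g := fun g => by
      rw [eq_inv_mul_iff_mul_eq, ← mul_assoc, ← hv' g, mul_assoc, mul_inv_cancel, mul_one]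
    calc u * b * (v * c) * (b⁻¹ * u⁻¹) * (c⁻¹ * v⁻¹)
        = u * (b * v) * c * b⁻¹ * (u⁻¹ * c⁻¹) * v⁻¹ := by group
      _ = u * (v * b) * c * b⁻¹ * (u⁻¹ * c⁻¹) * v⁻¹ := by rw [hv' b]
      _ = (u * v) * (b * c * b⁻¹) * u⁻¹ * c⁻¹ * v⁻¹ := by group
      _ = (v * u) * (b * c * b⁻¹) * u⁻¹ * c⁻¹ * v⁻¹ := by rw [hv' u]
      _ = v * (u * (b * c * b⁻¹)) * u⁻¹ * c⁻¹ * v⁻¹ := by group
      _ = v * ((b * c * b⁻¹) * u) * u⁻¹ * c⁻¹ * v⁻¹ := by rw [← hu' (b * c * b⁻¹)]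
      _ = (v * (b * c * b⁻¹ * c⁻¹)) * v⁻¹ := by group
      _ = ((b * c * b⁻¹ * c⁻¹) * v) * v⁻¹ := by rw [← hv' (b * c * b⁻¹ * c⁻¹)]
      _ = b * c * b⁻¹ * c⁻¹ := by group
  have : ⁅a, ⁅b, c⁆⁆ = (a * ⁅b, c⁆ * a⁻¹) * ⁅b, c⁆⁻¹ := by
    rw [commutatorElement_def]
  rw [this, e3, mul_inv_cancel]


theorem class_two {t : ℕ} [Fact t.Prime] {Y N0 : Subgroup E} (hY : IsPGroup t Y) (hN : N0 ≤ Y)
    (hN2 : NzS Y N0) {A : Set E} (hA : ∀ g ∈ A, Nz g Y ∧ Nz g N0)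
    (h : ∀ X : Subgroup E, N0 ≤ X → X ≤ Y → (∀ g ∈ A, Nz g X) → NzS Y X →
      (∀ a ∈ X, ∀ b ∈ X, ⁅a, b⁆ ∈ N0) → ∀ a ∈ X, ∀ b ∈ Y, ⁅a, b⁆ ∈ N0) :
    ∀ a ∈ Y, ∀ b ∈ Y, ∀ c ∈ Y, ⁅⁅a, b⁆, c⁆ ∈ N0 := by
  classical
  have hnil : Group.IsNilpotent Y := hY.isNilpotent
  obtain ⟨n, hn⟩ := (isNilpotent_iff_lowerCentralSeries Y).1 hnil
  have hZ1n : NzS Y (Zr Y N0 hN2) := fun g hg => Zr_nz (Nz.of_mem hg) (hN2 g hg)
  have hDn : ∀ g, Nz g Y → Nz g ⁅Y, Y⁆ := by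
    intro g hg
    rw [Subgroup.commutator_def]
    apply Nz.closure
    rintro x ⟨a, ha, b, hb, rfl⟩
    exact subset_closure ⟨_, hg a ha, _, hg b hb, (conj_comm_eq g a b).symm⟩
  -- normal subgroup of `Y`
  have hnorm : (N0.subgroupOf Y).Normal :=
    (normal_subgroupOf_iff_le_normalizer hN).2 (Nz.le_normalizer hN2)
  -- commutation with an element of `Z2`
  have hab : ∀ a ∈ Zr Y (Zr Y N0 hN2) hZ1n, ∀ b ∈ ⁅Y, Y⁆ ⊔ N0, ⁅a, b⁆ ∈ N0 := by
    intro a ha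
    rw [mem_Zr] at ha
    obtain ⟨haY, ha2⟩ := ha
    let K : Subgroup E :=
      { carrier := {b | b ∈ Y ∧ ⁅a, b⁆ ∈ N0}
        mul_mem' := by
          rintro b c ⟨hb, hb2⟩ ⟨hc, hc2⟩
          refine ⟨Y.mul_mem hb hc, ?_⟩
          have h1 : ⁅a, b * c⁆ = ⁅a, b⁆ * (b * ⁅a, c⁆ * b⁻¹) := by
            simp only [commutatorElement_def]; group
          rw [h1]
          exact N0.mul_mem hb2 (hN2 b hb _ hc2)
        one_mem' := ⟨Y.one_mem, by rw [commutatorElement_one_right]; exact N0.one_mem⟩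
        inv_mem' := by
          rintro b ⟨hb, hb2⟩
          refine ⟨Y.inv_mem hb, ?_⟩
          have h1 : ⁅a, b⁻¹⁆ = b⁻¹ * ⁅a, b⁆⁻¹ * b⁻¹⁻¹ := by
            simp only [commutatorElement_def]; group
          rw [h1]
          exact hN2 b⁻¹ (Y.inv_mem hb) _ (N0.inv_mem hb2) }
    have hK : ⁅Y, Y⁆ ⊔ N0 ≤ K := by
      apply sup_le
      · rw [commutator_le]
        intro b hb c hc
        refine ⟨?_, ?_⟩
        · rw [commutatorElement_def]
          exact Y.mul_mem (Y.mul_mem (Y.mul_mem hb hc) (Y.inv_mem hb)) (Y.inv_mem hc)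
        · let π := QuotientGroup.mk' (N0.subgroupOf Y)
          have hcen : ∀ b : ↥Y, ⁅π ⟨a, haY⟩, π b⁆ ∈ center (↥Y ⧸ N0.subgroupOf Y) := by
            intro b
            rw [mem_center_iff]
            intro g
            obtain ⟨g, rfl⟩ := QuotientGroup.mk'_surjective (N0.subgroupOf Y) g
            have h1 := (ha2 b.1 b.2).2 g.1 g.2
            have h2 : π ⁅⁅(⟨a, haY⟩ : ↥Y), b⁆, g⁆ = 1 := by
              apply (QuotientGroup.eq_one_iff _).2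
              rw [mem_subgroupOf]
              exact h1
            rw [map_commutatorElement, commutatorElement_eq_one_iff_mul_comm,
              map_commutatorElement] at h2
            exact h2.symm
          have h3 := comm_comm_one (hcen ⟨b, hb⟩) (hcen ⟨c, hc⟩)
          rw [← map_commutatorElement, ← map_commutatorElement] at h3
          have h4 := (QuotientGroup.eq_one_iff _).1 h3
          rw [mem_subgroupOf] at h4
          exact h4
      · intro m hm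
        refine ⟨hN hm, ?_⟩
        have h1 : ⁅a, m⁆ = (a * m * a⁻¹) * m⁻¹ := by rw [commutatorElement_def]
        rw [h1]
        exact N0.mul_mem (hN2 a haY m hm) (N0.inv_mem hm)
    intro b hb
    exact (hK hb).2
  have hN0Z1 : N0 ≤ Zr Y N0 hN2 := by
    intro m hm
    refine ⟨hN hm, fun y hy => ?_⟩
    have h1 : ⁅m, y⁆ = m * (y * m⁻¹ * y⁻¹) := by rw [commutatorElement_def]; group
    rw [h1]
    exact N0.mul_mem hm (hN2 y hy _ (N0.inv_mem hm))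
  have hX := h (Zr Y (Zr Y N0 hN2) hZ1n ⊓ (⁅Y, Y⁆ ⊔ N0))
    (by
      refine le_inf ?_ le_sup_right
      intro m hm
      refine ⟨hN hm, fun y hy => hN0Z1 ?_⟩
      exact (hN0Z1 hm).2 y hy)
    (fun x hx => hx.1.1)
    (fun g hg => Nz.inf (Zr_nz (hA g hg).1 (Zr_nz (hA g hg).1 (hA g hg).2))
      (Nz.sup (hDn g (hA g hg).1) (hA g hg).2))
    (fun g hg => Nz.inf (Zr_nz (Nz.of_mem hg) (hZ1n g hg))
      (Nz.sup (hDn g (Nz.of_mem hg)) (hN2 g hg)))
    (fun a ha b hb => hab a ha.1 b hb.2)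
  have key : ⁅Y, Y⁆ ≤ Zr Y N0 hN2 := by
    by_contra hcon
    have hex : ∃ k, Y.lowerCentralSeries k ≤ Zr Y N0 hN2 := ⟨n, by rw [hn]; exact bot_le⟩
    have hk := Nat.find_spec hex
    have h1 : ¬ Y.lowerCentralSeries 1 ≤ Zr Y N0 hN2 := hcon
    have hk2 : 1 < Nat.find hex := by
      by_contra hlt
      exact h1 ((Subgroup.lowerCentralSeries_antitone Y (not_lt.1 hlt)).trans hk)
    obtain ⟨i, hi⟩ : ∃ i, Nat.find hex = i + 1 := ⟨Nat.find hex - 1, by omega⟩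
    have hmin : ¬ Y.lowerCentralSeries i ≤ Zr Y N0 hN2 := Nat.find_min hex (by omega)
    apply hmin
    intro x hx
    have hxY : x ∈ Y := Subgroup.lowerCentralSeries_antitone Y (Nat.zero_le i) hx
    have hx1 : x ∈ ⁅Y, Y⁆ := by
      have : x ∈ Y.lowerCentralSeries 1 := Subgroup.lowerCentralSeries_antitone Y (by omega) hx
      exact this
    refine ⟨hxY, fun y hy => ?_⟩
    apply hX x _ y hy
    refine ⟨⟨hxY, fun z hz => ?_⟩, mem_sup_left hx1⟩
    rw [hi] at hk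
    apply hk
    rw [Subgroup.lowerCentralSeries_succ]
    exact commutator_mem_commutator hx hz
  intro a ha b hb c hc
  exact (key (commutator_mem_commutator ha hb)).2 c hc

/-! ### The group `M = Y H` (`Y` a `v`-group, `H` an `r`-group) -/

theorem mem_sup_of_nz {N Y : Subgroup E} (hN : NzS Y N) {x : E} (hx : x ∈ N ⊔ Y) :
    ∃ n ∈ N, ∃ w ∈ Y, x = n * w := by
  let K : Subgroup E :=
    { carrier := {x | ∃ n ∈ N, ∃ w ∈ Y, x = n * w}
      mul_mem' := by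
        rintro _ _ ⟨n, hn, w, hw, rfl⟩ ⟨n', hn', w', hw', rfl⟩
        refine ⟨n * (w * n' * w⁻¹), N.mul_mem hn (hN w hw n' hn'), w * w', Y.mul_mem hw hw', ?_⟩
        group
      one_mem' := ⟨1, N.one_mem, 1, Y.one_mem, by simp⟩
      inv_mem' := by
        rintro _ ⟨n, hn, w, hw, rfl⟩
        refine ⟨w⁻¹ * n⁻¹ * w⁻¹⁻¹, hN _ (Y.inv_mem hw) _ (N.inv_mem hn), w⁻¹, Y.inv_mem hw, ?_⟩
        group }
  have hK : N ⊔ Y ≤ K := by
    apply sup_le
    · intro n hn; exact ⟨n, hn, 1, Y.one_mem, by simp⟩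
    · intro w hw; exact ⟨1, N.one_mem, w, hw, by simp⟩
  exact hK hx

theorem mul_pow_mem {N Y : Subgroup E} (hN : NzS Y N) {n w : E} (hn : n ∈ N) (hw : w ∈ Y)
    (k : ℕ) : ∃ m ∈ N, (n * w) ^ k = m * w ^ k := by
  induction k with
  | zero => exact ⟨1, N.one_mem, by simp⟩
  | succ k ih =>
    obtain ⟨m, hm, h⟩ := ih
    refine ⟨m * (w ^ k * n * (w ^ k)⁻¹), N.mul_mem hm (hN _ (Y.pow_mem hw k) n hn), ?_⟩
    rw [pow_succ, h, pow_succ]; group

/-- `H ≤ [M, y]` if `M = Y H` and `M = [M, y] Y`. -/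
theorem le_cm_of_sup {v r : ℕ} [Fact v.Prime] [Fact r.Prime] (hvr : v ≠ r) {Y H : Subgroup E}
    {y : E} (hY : IsPGroup v Y) (hH : IsPGroup r H) (hHY : NzS H Y) (hy : Nz y (Y ⊔ H))
    (h : H ≤ cm (Y ⊔ H) y ⊔ Y) : H ≤ cm (Y ⊔ H) y := by
  have hN : NzS Y (cm (Y ⊔ H) y) := fun g hg => cm_nzS (Y ⊔ H) y g (mem_sup_left hg)
  intro x hx
  obtain ⟨n, hn, w, hw, hxe⟩ := mem_sup_of_nz hN (h hx)
  obtain ⟨a, ha⟩ := hY ⟨w, hw⟩
  obtain ⟨b, hb⟩ := hH ⟨x, hx⟩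
  have ha' : w ^ v ^ a = 1 := congrArg Subtype.val ha
  have hb' : x ^ r ^ b = 1 := congrArg Subtype.val hb
  obtain ⟨m, hm, hme⟩ := mul_pow_mem hN hn hw (v ^ a)
  rw [← hxe, ha', mul_one] at hme
  have hcop : Nat.Coprime (v ^ a) (r ^ b) :=
    Nat.Coprime.pow _ _ ((Nat.coprime_primes Fact.out Fact.out).2 hvr)
  have hord : Nat.Coprime (v ^ a) (orderOf x) :=
    Nat.Coprime.coprime_dvd_right (orderOf_dvd_of_pow_eq_one hb') hcop
  obtain ⟨k, hk⟩ := exists_pow_eq_self_of_coprime hord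
  rw [← hk, hme]
  exact Subgroup.pow_mem _ hm k

/-- The stable subgroup: `y` (a `q`-element) and `φ` commute and act on the `r`-group `T`, `y`
centralises `C_T(φ)` but not `T`.  Then there is `R ≤ T` with `1 ≠ R = [R, φ] = [R, y]`. -/
theorem exists_stable {p q r : ℕ} [Fact p.Prime] [Fact q.Prime] [Fact r.Prime] (hpr : p ≠ r)
    (hqr : q ≠ r) {T : Subgroup E} (hT : IsPGroup r T) {φ y : E} {n m : ℕ} (hφ : φ ^ p ^ n = 1)
    (hy : y ^ q ^ m = 1) (hc : φ * y = y * φ) (h1 : Nz φ T) (h2 : Nz y T)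
    (hC : ∀ x ∈ fx T φ, x * y = y * x) (hne : ∃ x ∈ T, x * y ≠ y * x) :
    ∃ R ≤ T, R ≠ ⊥ ∧ Nz φ R ∧ Nz y R ∧ cm R φ = R ∧ cm R y = R := by
  set A : Set (Subgroup E) :=
    {R | R ≤ T ∧ Nz φ R ∧ Nz y R ∧ ∃ x ∈ R, x * y ≠ y * x} with hA
  have hTA : A.Nonempty := ⟨T, le_rfl, h1, h2, hne⟩
  obtain ⟨R, hR⟩ := A.toFinite.exists_minimal hTA
  obtain ⟨hRT, hRφ, hRy, x0, hx0, hx0y⟩ := hR.1
  have hRp : IsPGroup r R := hT.to_le hRT
  have hRcp : ¬ p ∣ Nat.card R := not_dvd_card_of_isPGroup hpr hRp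
  have hRcq : ¬ q ∣ Nat.card R := not_dvd_card_of_isPGroup hqr hRp
  have hmulc : ∀ d c : E, d * y = y * d → c * y = y * c → (d * c) * y = y * (d * c) := by
    intro d c hd hc
    rw [mul_assoc, hc, ← mul_assoc, hd, mul_assoc]
  refine ⟨R, hRT, ?_, hRφ, hRy, ?_, ?_⟩
  · rintro rfl
    rw [mem_bot] at hx0
    subst hx0
    simp at hx0y
  · have hmem : cm R φ ∈ A := by
      refine ⟨(cm_le hRφ).trans hRT, cm_nz_self R φ, cm_nz hRy hc.symm, ?_⟩
      by_contra hcon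
      push Not at hcon
      obtain ⟨d, hd, c, hc', hdc⟩ := cm_decomp hφ hRcp hRφ hx0
      apply hx0y
      rw [hdc]
      exact hmulc d c (hcon d hd) (hC c ⟨hRT hc'.1, hc'.2⟩)
    exact le_antisymm (cm_le hRφ) (hR.2 hmem (cm_le hRφ))
  · have hmem : cm R y ∈ A := by
      refine ⟨(cm_le hRy).trans hRT, cm_nz hRφ hc, cm_nz_self R y, ?_⟩
      by_contra hcon
      push Not at hcon
      obtain ⟨d, hd, c, hc', hdc⟩ := cm_decomp hy hRcq hRy hx0
      apply hx0y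
      rw [hdc]
      exact hmulc d c (hcon d hd) (mem_fx.1 hc').2.symm
    exact le_antisymm (cm_le hRy) (hR.2 hmem (cm_le hRy))

end Cop2

end Pool.FH
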