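import Pool.Agent.Work.MP_4c212b_al.Defs

/-!
# Block COP3: invariant Sylow subgroups, the Fitting subgroup
-/

set_option autoImplicit false

open Subgroup
open scoped commutatorElement Pointwise

namespace Pool.FH

namespace Cop3

variable {E : Type} [Group E]

/-- `g R g⁻¹` -/
def cj (g : E) (R : Subgroup E) : Subgroup E := R.map (MulAut.conj g).toMonoidHom

theorem mem_cj {g x : E} {R : Subgroup E} : x ∈ cj g R ↔ g⁻¹ * x * g ∈ R := by
  constructor
  · rintro ⟨y, hy, rfl⟩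
    simpa [mul_assoc] using hy
  · intro h
    exact ⟨g⁻¹ * x * g, h, by simp [mul_assoc]⟩

theorem cj_one (R : Subgroup E) : cj 1 R = R := by
  ext x; rw [mem_cj]; simp

theorem cj_mul (g h : E) (R : Subgroup E) : cj (g * h) R = cj g (cj h R) := by
  ext x; rw [mem_cj, mem_cj, mem_cj]; simp [mul_assoc]

theorem cj_eq_of_nz [Finite E] {g : E} {R : Subgroup E} (h : Nz g R) : cj g R = R := by
  ext x
  rw [mem_cj]
  have h1 := (h.mem_iff (x := g⁻¹ * x * g)).symm
  have h2 : g * (g⁻¹ * x * g) * g⁻¹ = x := by group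
  rw [h2] at h1
  exact h1

theorem nz_of_cj_eq {g : E} {R : Subgroup E} (h : cj g R = R) : Nz g R := by
  intro x hx
  rw [← h, mem_cj]
  simpa [mul_assoc] using hx

/-- `R` is a Sylow `r`-subgroup of `N` -/
def SylIn (r : ℕ) (N R : Subgroup E) : Prop := R ≤ N ∧ IsPGroup r R ∧ ¬ r ∣ R.relIndex N

theorem syl_exists [Finite E] {r : ℕ} [Fact r.Prime] (N : Subgroup E) : ∃ R, SylIn r N R := by
  obtain ⟨S⟩ := (inferInstance : Nonempty (Sylow r N))
  refine ⟨(S : Subgroup N).map N.subtype, ?_, S.isPGroup'.map _, ?_⟩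
  · rintro _ ⟨x, _, rfl⟩
    exact x.2
  · have h1 : ((S : Subgroup N).map N.subtype).relIndex N = (S : Subgroup N).index := by
      unfold Subgroup.relIndex
      congr 1
      exact Subgroup.comap_map_eq_self_of_injective N.subtype_injective _
    rw [h1]
    exact S.not_dvd_index

theorem syl_conj [Finite E] {r : ℕ} [Fact r.Prime] {N R1 R2 : Subgroup E} (h1 : SylIn r N R1)
    (h2 : SylIn r N R2) : ∃ g ∈ N, R2 = cj g R1 := by
  have hp : ∀ R : Subgroup E, SylIn r N R → IsPGroup r (R.subgroupOf N) := by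
    intro R hR
    exact hR.2.1.comap_of_injective N.subtype N.subtype_injective
  let Q1 : Sylow r N := (hp R1 h1).toSylow h1.2.2
  let Q2 : Sylow r N := (hp R2 h2).toSylow h2.2.2
  obtain ⟨g, hg⟩ := MulAction.exists_smul_eq N Q1 Q2
  refine ⟨g, g.2, ?_⟩
  have h3 : (Q2 : Subgroup N) = MulAut.conj g • (Q1 : Subgroup N) := by
    rw [← hg]; rfl
  have h4 : ∀ x : N, (x : E) ∈ R2 ↔ (g : E)⁻¹ * x * g ∈ R1 := by
    intro x
    have h5 : x ∈ (Q2 : Subgroup N) ↔ (x : E) ∈ R2 := by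
      simp only [Q2, IsPGroup.toSylow_coe]
      exact Subgroup.mem_subgroupOf
    have h6 : x ∈ MulAut.conj g • (Q1 : Subgroup N) ↔ (g : E)⁻¹ * x * g ∈ R1 := by
      rw [Subgroup.mem_pointwise_smul_iff_inv_smul_mem, ← map_inv, MulAut.smul_def,
        MulAut.conj_apply]
      simp only [Q1, IsPGroup.toSylow_coe]
      rw [Subgroup.mem_subgroupOf]
      simp
    rw [← h5, h3, h6]
  ext x
  rw [mem_cj]
  constructor
  · intro hx
    exact (h4 ⟨x, h2.1 hx⟩).1 hx
  · intro hx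
    have hxN : x ∈ N := by
      have := N.mul_mem (N.mul_mem g.2 (h1.1 hx)) (N.inv_mem g.2)
      simpa [mul_assoc] using this
    exact (h4 ⟨x, hxN⟩).2 hx

theorem SylIn.cj [Finite E] {r : ℕ} {N R : Subgroup E} {g : E} (h : SylIn r N R) (hg : Nz g N) :
    SylIn r N (cj g R) := by
  refine ⟨?_, h.2.1.map _, ?_⟩
  · intro x hx
    rw [mem_cj] at hx
    have := hg _ (h.1 hx)
    simpa [mul_assoc] using this
  · have h1 : (Cop3.cj g R).relIndex N = R.relIndex N := by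
      conv_lhs => rw [← cj_eq_of_nz hg]
      unfold Cop3.cj
      exact relIndex_map_map_of_injective _ _ (MulAut.conj g).injective
    rw [h1]
    exact h.2.2

/-- The elements normalising `N` and centralising `P`. -/
def Wg [Finite E] (N P : Subgroup E) : Subgroup E where
  carrier := {g | Nz g N ∧ ∀ a ∈ P, g * a = a * g}
  one_mem' := ⟨Nz.one N, fun a _ => by simp⟩
  mul_mem' := by
    rintro g h ⟨h1, h2⟩ ⟨h3, h4⟩
    refine ⟨h1.mul h3, fun a ha => ?_⟩
    rw [mul_assoc, h4 a ha, ← mul_assoc, h2 a ha, mul_assoc]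
  inv_mem' := by
    rintro g ⟨h1, h2⟩
    refine ⟨h1.inv, fun a ha => ?_⟩
    rw [inv_mul_eq_iff_eq_mul, ← mul_assoc, h2 a ha, mul_inv_cancel_right]

theorem mem_Wg [Finite E] {N P : Subgroup E} {g : E} :
    g ∈ Wg N P ↔ Nz g N ∧ ∀ a ∈ P, g * a = a * g := Iff.rfl

/-- Glauberman: `P` a `p`-group acting on a `p'`-group `N`; `Q` a `q`-group commuting with `P` and
acting on `N`, a `q'`-group. -/
theorem glauberman [Finite E] {p q r : ℕ} [Fact p.Prime] [Fact q.Prime] [Fact r.Prime]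
    {P Q N : Subgroup E} (hP : IsPGroup p P) (hN : ¬ p ∣ Nat.card N) (h : NzS P N)
    (hQ : IsPGroup q Q) (hN' : ¬ q ∣ Nat.card N) (hQW : Q ≤ Wg N P)
    (hex : ∃ R, SylIn r N R ∧ NzS P R) : ∃ R, SylIn r N R ∧ NzS P R ∧ NzS Q R := by
  classical
  let Ω : Type := {R : Subgroup E // SylIn r N R ∧ NzS P R}
  have hΩ : Nonempty Ω := by
    obtain ⟨R, hR⟩ := hex
    exact ⟨⟨R, hR⟩⟩
  have hfin : Finite Ω := inferInstance
  let act : MulAction (Wg N P) Ω :=
    { smul := fun g R => ⟨cj g.1 R.1, R.2.1.cj g.2.1, fun a ha x hx => by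
        rw [mem_cj] at hx ⊢
        have h1 := R.2.2 a ha _ hx
        have h2 : g.1⁻¹ * a = a * g.1⁻¹ := by
          rw [inv_mul_eq_iff_eq_mul, ← mul_assoc, g.2.2 a ha, mul_inv_cancel_right]
        have h3 : a⁻¹ * g.1 = g.1 * a⁻¹ := by
          rw [inv_mul_eq_iff_eq_mul, ← mul_assoc, ← g.2.2 a ha, mul_inv_cancel_right]
        have h4 : g.1⁻¹ * (a * x * a⁻¹) * g.1 = a * (g.1⁻¹ * x * g.1) * a⁻¹ := by
          calc g.1⁻¹ * (a * x * a⁻¹) * g.1 = (g.1⁻¹ * a) * x * (a⁻¹ * g.1) := by group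
            _ = (a * g.1⁻¹) * x * (g.1 * a⁻¹) := by rw [h2, h3]
            _ = _ := by group
        rwa [h4]⟩
      one_smul := fun R => Subtype.ext (cj_one _)
      mul_smul := fun g h R => Subtype.ext (cj_mul _ _ _) }
  have smul_val : ∀ (g : Wg N P) (R : Ω), (g • R).1 = cj g.1 R.1 := fun _ _ => rfl
  -- transitivity of `C_N(P)`
  have hCW : fxS N P ≤ Wg N P := by
    intro c hc
    rw [mem_fxS] at hc
    exact ⟨Nz.of_mem hc.1, fun a ha => (hc.2 a ha).symm⟩
  have htrans : ∀ R1 R2 : Ω, ∃ c : (fxS N P).subgroupOf (Wg N P), c • R1 = R2 := by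
    intro R1 R2
    obtain ⟨g, hg, hgR⟩ := syl_conj R1.2.1 R2.2.1
    let N' : Subgroup E := N ⊓ normalizer (R1.1 : Set E)
    have hmem : ∀ n, n ∈ N' ↔ n ∈ N ∧ cj n R1.1 = R1.1 := by
      intro n
      constructor
      · intro hn
        refine ⟨hn.1, cj_eq_of_nz fun x hx => ?_⟩
        exact (mem_normalizer_iff.1 hn.2 x).1 hx
      · intro hn
        refine ⟨hn.1, mem_normalizer_iff.2 fun x => ?_⟩
        exact ((nz_of_cj_eq hn.2).mem_iff).symm
    have hcard : ¬ p ∣ Nat.card N' := fun h5 => hN (h5.trans (card_dvd_of_le inf_le_left))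
    have hPR1 : ∀ a ∈ P, cj a R1.1 = R1.1 := fun a ha => cj_eq_of_nz (R1.2.2 a ha)
    have hPR2 : ∀ a ∈ P, cj a R2.1 = R2.1 := fun a ha => cj_eq_of_nz (R2.2.2 a ha)
    have hPN' : NzS P N' := by
      intro a ha n hn
      rw [hmem] at hn ⊢
      refine ⟨h a ha n hn.1, ?_⟩
      rw [cj_mul, cj_mul, hPR1 _ (P.inv_mem ha), hn.2, hPR1 a ha]
    have hgg : ∀ a ∈ P, g⁻¹ * (a * g * a⁻¹) ∈ N' := by
      intro a ha
      rw [hmem]
      refine ⟨N.mul_mem (N.inv_mem hg) (h a ha g hg), ?_⟩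
      rw [cj_mul, cj_mul, cj_mul, hPR1 _ (P.inv_mem ha), ← hgR, hPR2 a ha, hgR, ← cj_mul,
        inv_mul_cancel, cj_one]
    obtain ⟨n, hn, hc⟩ := cp_fix hP hcard hPN' hgg
    rw [hmem] at hn
    have hgn : g * n ∈ fxS N P := mem_fxS.2 ⟨N.mul_mem hg hn.1, hc⟩
    refine ⟨⟨⟨g * n, hCW hgn⟩, hgn⟩, ?_⟩
    apply Subtype.ext
    change cj (g * n) R1.1 = R2.1
    rw [cj_mul, hn.2, hgR]
  have hpre : MulAction.IsPretransitive ((fxS N P).subgroupOf (Wg N P)) Ω := ⟨htrans⟩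
  have hdvd : Nat.card Ω ∣ Nat.card N := by
    obtain ⟨R0⟩ := hΩ
    rw [← MulAction.index_stabilizer_of_transitive ((fxS N P).subgroupOf (Wg N P)) R0]
    refine (Subgroup.index_dvd_card _).trans ?_
    rw [Nat.card_congr (Subgroup.subgroupOfEquivOfLe hCW).toEquiv]
    exact card_dvd_of_le inf_le_left
  have hqΩ : ¬ q ∣ Nat.card Ω := fun h5 => hN' (h5.trans hdvd)
  have hQ' : IsPGroup q (Q.subgroupOf (Wg N P)) :=
    hQ.comap_of_injective (Wg N P).subtype (Wg N P).subtype_injective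
  obtain ⟨R, hR⟩ := hQ'.nonempty_fixed_point_of_prime_not_dvd_card Ω hqΩ
  refine ⟨R.1, R.2.1, R.2.2, fun a ha => nz_of_cj_eq ?_⟩
  exact congrArg Subtype.val (hR ⟨⟨a, hQW ha⟩, ha⟩)

theorem nzS_bot [Finite E] (R : Subgroup E) : NzS (⊥ : Subgroup E) R := by
  intro a ha
  rw [mem_bot] at ha
  subst ha
  exact Nz.one R

theorem sylow_inv [Finite E] {p r : ℕ} [Fact p.Prime] [Fact r.Prime] {P N : Subgroup E}
    (hP : IsPGroup p P) (hN : ¬ p ∣ Nat.card N) (h : NzS P N) :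
    ∃ R, SylIn r N R ∧ NzS P R := by
  obtain ⟨R0, hR0⟩ := syl_exists (r := r) N
  obtain ⟨R, hR, _, hR2⟩ := glauberman (p := p) (q := p) (r := r) (P := ⊥) (Q := P) (N := N)
    IsPGroup.of_bot hN (nzS_bot N) hP hN (fun a ha => ⟨h a ha, fun b hb => by
      rw [mem_bot] at hb; subst hb; simp⟩) ⟨R0, hR0, nzS_bot R0⟩
  exact ⟨R, hR, hR2⟩

theorem nzS_zpowers [Finite E] {φ : E} {N : Subgroup E} (h : Nz φ N) : NzS (zpowers φ) N := by
  rintro _ ⟨k, rfl⟩
  exact h.zpow k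

/-- A subgroup containing all elements of prime power order of `N` contains `N`. -/
theorem le_of_pelts [Finite E] {N K : Subgroup E}
    (h : ∀ s : ℕ, s.Prime → ∀ x ∈ N, (∃ a : ℕ, x ^ s ^ a = 1) → x ∈ K) : N ≤ K := by
  rw [← relIndex_eq_one]
  by_contra hne
  obtain ⟨s, hs, hsd⟩ := Nat.exists_prime_and_dvd hne
  have : Fact s.Prime := ⟨hs⟩
  obtain ⟨R, hR1, hR2, hR3⟩ := syl_exists (r := s) N
  apply hR3
  refine hsd.trans (relIndex_dvd_of_le_left N ?_)
  intro x hx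
  refine h s hs x (hR1 hx) ?_
  obtain ⟨a, ha⟩ := hR2 ⟨x, hx⟩
  exact ⟨a, congrArg Subtype.val ha⟩

theorem mem_sup_of_comm {A B : Subgroup E} (h : ∀ a ∈ A, ∀ b ∈ B, a * b = b * a) {x : E}
    (hx : x ∈ A ⊔ B) : ∃ a ∈ A, ∃ b ∈ B, x = a * b := by
  rw [← Subgroup.closure_eq A, ← Subgroup.closure_eq B, ← Subgroup.closure_union] at hx
  induction hx using closure_induction with
  | mem x hx =>
    rcases hx with hx | hx
    · exact ⟨x, hx, 1, B.one_mem, by simp⟩
    · exact ⟨1, A.one_mem, x, hx, by simp⟩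
  | one => exact ⟨1, A.one_mem, 1, B.one_mem, by simp⟩
  | mul x y _ _ hx hy =>
    obtain ⟨a, ha, b, hb, rfl⟩ := hx
    obtain ⟨c, hc, d, hd, rfl⟩ := hy
    refine ⟨a * c, A.mul_mem ha hc, b * d, B.mul_mem hb hd, ?_⟩
    calc a * b * (c * d) = a * (b * c) * d := by group
      _ = a * (c * b) * d := by rw [h c hc b hb]
      _ = _ := by group
  | inv x _ hx =>
    obtain ⟨a, ha, b, hb, rfl⟩ := hx
    refine ⟨a⁻¹, A.inv_mem ha, b⁻¹, B.inv_mem hb, ?_⟩
    rw [mul_inv_rev]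
    exact (h a⁻¹ (A.inv_mem ha) b⁻¹ (B.inv_mem hb)).symm

end Cop3

section A3

open Cop3

variable {E : Type} [Group E] [Finite E]

/-! ### Sylow subgroups -/

/-- A `P`-invariant Sylow `r`-subgroup of `N`. -/
theorem exists_sylow_inv {p r : ℕ} [Fact p.Prime] [Fact r.Prime] {P N : Subgroup E}
    (hP : IsPGroup p P) (hN : ¬ p ∣ Nat.card N) (h : NzS P N) :
    ∃ R ≤ N, IsPGroup r R ∧ NzS P R ∧ ¬ r ∣ R.relIndex N := by
  obtain ⟨R, hR, hR2⟩ := sylow_inv (r := r) hP hN h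
  exact ⟨R, hR.1, hR.2.1, hR2, hR.2.2⟩

/-- The same for `⟨φ⟩`. -/
theorem exists_sylow_inv1 {p r : ℕ} [Fact p.Prime] [Fact r.Prime] {N : Subgroup E} {φ : E} {n : ℕ}
    (hφ : φ ^ p ^ n = 1) (hN : ¬ p ∣ Nat.card N) (h : Nz φ N) :
    ∃ R ≤ N, IsPGroup r R ∧ Nz φ R ∧ ¬ r ∣ R.relIndex N := by
  obtain ⟨R, hR, hR2⟩ := sylow_inv (r := r) (isPGroup_zpowers hφ) hN (nzS_zpowers h)
  exact ⟨R, hR.1, hR.2.1, hR2 φ (mem_zpowers φ), hR.2.2⟩

/-- Two commuting elements `φ` (a `p`-element) and `y` (a `q`-element) acting on a group `N` of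
order prime to `p` and to `q`: there is a Sylow `r`-subgroup normalised by both. -/
theorem exists_sylow_inv2 {p q r : ℕ} [Fact p.Prime] [Fact q.Prime] [Fact r.Prime]
    {N : Subgroup E} {φ y : E} {n m : ℕ} (hφ : φ ^ p ^ n = 1) (hy : y ^ q ^ m = 1)
    (hc : φ * y = y * φ) (hN : ¬ p ∣ Nat.card N) (hN' : ¬ q ∣ Nat.card N)
    (h : Nz φ N) (h' : Nz y N) :
    ∃ R ≤ N, IsPGroup r R ∧ Nz φ R ∧ Nz y R ∧ ¬ r ∣ R.relIndex N := by
  obtain ⟨R, hR, hR2, hR3⟩ := glauberman (r := r) (isPGroup_zpowers hφ) hN (nzS_zpowers h)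
    (isPGroup_zpowers hy) hN' (by
      rintro _ ⟨k, rfl⟩
      refine ⟨h'.zpow k, ?_⟩
      rintro _ ⟨l, rfl⟩
      exact ((show Commute y φ from hc.symm).zpow_zpow k l).eq)
    (sylow_inv (r := r) (isPGroup_zpowers hφ) hN (nzS_zpowers h))
  exact ⟨R, hR.1, hR.2.1, hR2 φ (mem_zpowers φ), hR3 y (mem_zpowers y), hR.2.2⟩

/-! ### The Fitting subgroup -/

theorem Op_comm {s t : ℕ} [Fact s.Prime] [Fact t.Prime] (hst : s ≠ t) {G : Subgroup E} {x y : E}
    (hx : x ∈ Op s G) (hy : y ∈ Op t G) : x * y = y * x := by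
  have h1 : x * y * x⁻¹ * y⁻¹ ∈ Op s G := by
    have h2 := (Op_mem s G).2.1 y (Op_le t G hy) _ ((Op s G).inv_mem hx)
    have h3 := (Op s G).mul_mem hx h2
    simpa [mul_assoc] using h3
  have h2 : x * y * x⁻¹ * y⁻¹ ∈ Op t G := by
    have h3 := (Op_mem t G).2.1 x (Op_le s G hx) _ hy
    exact (Op t G).mul_mem h3 ((Op t G).inv_mem hy)
  have h3 := (IsPGroup.disjoint_of_ne s t hst (Op s G) (Op t G) (Op_isP s G) (Op_isP t G))
  have h4 : x * y * x⁻¹ * y⁻¹ = 1 := by
    have h5 : x * y * x⁻¹ * y⁻¹ ∈ (Op s G ⊓ Op t G : Subgroup E) := ⟨h1, h2⟩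
    rw [h3.eq_bot, mem_bot] at h5
    exact h5
  rw [mul_inv_eq_one, mul_inv_eq_iff_eq_mul] at h4
  exact h4

theorem Cop3.pow_prod_eq_one (F : Finset ℕ) (G : Subgroup E) (hF : ∀ s ∈ F, s.Prime) :
    ∀ x ∈ ⨆ s ∈ F, Op s G, x ^ (∏ s ∈ F, Nat.card (Op s G)) = 1 := by
  classical
  induction F using Finset.induction_on with
  | empty =>
    intro x hx
    simp at hx
    simp [hx]
  | insert s F hs ih =>
    intro x hx
    have hsp : Fact s.Prime := ⟨hF s (Finset.mem_insert_self s F)⟩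
    rw [Finset.iSup_insert] at hx
    have hcomm : ∀ a ∈ Op s G, ∀ b ∈ ⨆ u ∈ F, Op u G, a * b = b * a := by
      intro a ha b hb
      have h1 : (⨆ u ∈ F, Op u G) ≤ centralizer {a} := by
        refine iSup₂_le fun u hu c hc => ?_
        have hup : Fact u.Prime := ⟨hF u (Finset.mem_insert_of_mem hu)⟩
        have hne : s ≠ u := fun h => hs (h ▸ hu)
        rw [mem_centralizer_iff]
        intro a' ha'
        rw [Set.mem_singleton_iff] at ha'
        subst ha'
        exact Op_comm hne ha hc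
      exact mem_centralizer_iff.1 (h1 hb) a rfl
    obtain ⟨a, ha, b, hb, rfl⟩ := mem_sup_of_comm hcomm hx
    have h2 : Commute a b := hcomm a ha b hb
    rw [h2.mul_pow, Finset.prod_insert hs]
    have h3 : a ^ (Nat.card (Op s G)) = 1 := by
      have := pow_card_eq_one' (x := (⟨a, ha⟩ : Op s G))
      exact congrArg Subtype.val this
    rw [pow_mul, h3, one_pow, mul_comm, pow_mul,
      ih (fun u hu => hF u (Finset.mem_insert_of_mem hu)) b hb, one_pow, one_mul]

theorem mem_Op_of_mem_Ft {t : ℕ} [Fact t.Prime] {G : Subgroup E} {x : E} {n : ℕ}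
    (hx : x ∈ Ft G) (hn : x ^ t ^ n = 1) : x ∈ Op t G := by
  classical
  set F : Finset ℕ := (Nat.card E).primeFactors.erase t with hF
  have hFp : ∀ s ∈ F, s.Prime := fun s hs => Nat.prime_of_mem_primeFactors (Finset.mem_of_mem_erase hs)
  have hle : Ft G ≤ Op t G ⊔ ⨆ s ∈ F, Op s G := by
    refine iSup₂_le fun s hs => ?_
    by_cases hst : s = t
    · subst hst; exact le_sup_left
    · by_cases hd : s ∣ Nat.card E
      · have h1 : s ∈ F := Finset.mem_erase.2 ⟨hst, Nat.mem_primeFactors.2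
          ⟨hs, hd, Nat.card_pos.ne'⟩⟩
        exact le_sup_of_le_right (le_iSup₂_of_le s h1 le_rfl)
      · have hsp : Fact s.Prime := ⟨hs⟩
        have h1 : Op s G = ⊥ := by
          rcases (Op_isP s G).card_eq_or_dvd with h2 | h2
          · exact Subgroup.card_eq_one.1 h2
          · exact absurd (h2.trans (Subgroup.card_subgroup_dvd_card _)) hd
        rw [h1]; exact bot_le
  have hcomm : ∀ a ∈ Op t G, ∀ b ∈ ⨆ s ∈ F, Op s G, a * b = b * a := by
    intro a ha b hb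
    have h1 : (⨆ u ∈ F, Op u G) ≤ centralizer {a} := by
      refine iSup₂_le fun u hu c hc => ?_
      have hup : Fact u.Prime := ⟨hFp u hu⟩
      have hne : t ≠ u := (Finset.ne_of_mem_erase hu).symm
      rw [mem_centralizer_iff]
      intro a' ha'
      rw [Set.mem_singleton_iff] at ha'
      subst ha'
      exact Op_comm hne ha hc
    exact mem_centralizer_iff.1 (h1 hb) a rfl
  obtain ⟨a, ha, b, hb, rfl⟩ := mem_sup_of_comm hcomm (hle hx)
  have hab : Commute a b := hcomm a ha b hb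
  obtain ⟨k, hk⟩ := Op_isP t G ⟨a, ha⟩
  have hk' : a ^ t ^ k = 1 := congrArg Subtype.val hk
  have hb1 : b ^ t ^ (n + k) = 1 := by
    have h1 : (a * b) ^ t ^ (n + k) = 1 := by rw [pow_add, pow_mul, hn, one_pow]
    rw [hab.mul_pow] at h1
    have h2 : a ^ t ^ (n + k) = 1 := by rw [add_comm, pow_add, pow_mul, hk', one_pow]
    rwa [h2, one_mul] at h1
  have hb2 := Cop3.pow_prod_eq_one F G hFp b hb
  have hcop : Nat.Coprime (t ^ (n + k)) (∏ s ∈ F, Nat.card (Op s G)) := by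
    apply Nat.Coprime.pow_left
    apply Nat.Coprime.prod_right
    intro s hs
    have hsp : Fact s.Prime := ⟨hFp s hs⟩
    obtain ⟨m, hm⟩ := IsPGroup.iff_card.1 (Op_isP s G)
    rw [hm]
    apply Nat.Coprime.pow_right
    exact (Nat.coprime_primes (Fact.out) (Fact.out)).2 (Finset.ne_of_mem_erase hs).symm
  have hb3 : b = 1 := by
    have h1 : orderOf b ∣ 1 := by
      rw [← hcop.gcd_eq_one]
      exact Nat.dvd_gcd (orderOf_dvd_of_pow_eq_one hb1) (orderOf_dvd_of_pow_eq_one hb2)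
    exact orderOf_eq_one_iff.1 (Nat.dvd_one.1 h1)
  rw [hb3, mul_one]
  exact ha

/-- `O_t` of a normal subgroup. -/
theorem Op_le_Op {t : ℕ} [Fact t.Prime] {N G : Subgroup E} (h : N ≤ G) (hn : NzS G N) :
    Op t N ≤ Op t G :=
  le_Op ((Op_le t N).trans h) (fun g hg => Op_nz t (hn g hg)) (Op_isP t N)

/-- A normal subgroup `N` of `G` whose elements of coprime prime power orders commute is contained
in the Fitting subgroup. -/
theorem le_Ft_of_comm {N G : Subgroup E} (h : N ≤ G) (hn : NzS G N)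
    (hc : ∀ s t : ℕ, s.Prime → t.Prime → s ≠ t → ∀ x ∈ N, ∀ y ∈ N, (∃ a : ℕ, x ^ s ^ a = 1) →
      (∃ b : ℕ, y ^ t ^ b = 1) → x * y = y * x) : N ≤ Ft G := by
  classical
  apply le_of_pelts
  intro t ht x hx hxt
  have htp : Fact t.Prime := ⟨ht⟩
  obtain ⟨R, hR1, hR2, hR3⟩ := syl_exists (r := t) N
  have hRt : ∀ y ∈ R, ∃ b : ℕ, y ^ t ^ b = 1 := by
    intro y hy
    obtain ⟨b, hb⟩ := hR2 ⟨y, hy⟩
    exact ⟨b, congrArg Subtype.val hb⟩
  -- `N` normalises `R`
  have hNR : N ≤ normalizer (R : Set E) := by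
    rw [← relIndex_eq_one]
    by_contra hne
    obtain ⟨s, hs, hsd⟩ := Nat.exists_prime_and_dvd hne
    have hsp : Fact s.Prime := ⟨hs⟩
    by_cases hst : s = t
    · subst hst
      exact hR3 (hsd.trans (relIndex_dvd_of_le_left N Subgroup.le_normalizer))
    · obtain ⟨Q, hQ1, hQ2, hQ3⟩ := syl_exists (r := s) N
      refine hQ3 (hsd.trans (relIndex_dvd_of_le_left N ?_))
      intro z hz
      obtain ⟨a, ha⟩ := hQ2 ⟨z, hz⟩
      have ha' : z ^ s ^ a = 1 := congrArg Subtype.val ha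
      rw [mem_normalizer_iff]
      have hz1 : Nz z R := by
        intro y hy
        have := hc s t hs ht hst z (hQ1 hz) y (hR1 hy) ⟨a, ha'⟩ (hRt y hy)
        rw [this, mul_inv_cancel_right]
        exact hy
      intro y
      exact (hz1.mem_iff).symm
  -- `t`-elements of `N` are in `R`
  have hel : ∀ y ∈ N, (∃ b : ℕ, y ^ t ^ b = 1) → y ∈ R := by
    rintro y hy ⟨b, hb⟩
    have h1 : IsPGroup t (zpowers y ⊔ R : Subgroup E) := by
      refine IsPGroup.to_sup_of_normal_right' (isPGroup_zpowers hb) hR2 ?_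
      rw [zpowers_le]
      exact hNR hy
    have h2 : R.relIndex (zpowers y ⊔ R) = 1 := by
      obtain ⟨k, hk⟩ := IsPGroup.iff_card.1 h1
      have h3 : R.relIndex (zpowers y ⊔ R) ∣ t ^ k := by
        rw [← hk]; exact relIndex_dvd_card _ _
      obtain ⟨j, _, hj⟩ := (Nat.dvd_prime_pow ht).1 h3
      rcases Nat.eq_zero_or_pos j with h4 | h4
      · rw [hj, h4, pow_zero]
      · exfalso
        apply hR3
        have h5 : zpowers y ⊔ R ≤ N := sup_le ((zpowers_le).2 hy) hR1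
        rw [← relIndex_mul_relIndex R (zpowers y ⊔ R) N le_sup_right h5]
        apply Dvd.dvd.mul_right
        rw [hj]
        exact dvd_pow_self t h4.ne'
    rw [relIndex_eq_one] at h2
    exact h2 (le_sup_left (a := zpowers y) (mem_zpowers y))
  have hGR : NzS G R := by
    intro g hg y hy
    obtain ⟨b, hb⟩ := hRt y hy
    refine hel _ (hn g hg y (hR1 hy)) ⟨b, ?_⟩
    rw [conj_pow, hb]
    simp
  exact Op_le_Ft t G (le_Op (hR1.trans h) hGR hR2 (hel x hx hxt))

/-- In a soluble group the Fitting subgroup contains its centraliser. -/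
theorem cent_Ft {G : Subgroup E} (hG : Group.IsSolvable G) {x : E} (hx : x ∈ G)
    (h : ∀ y ∈ Ft G, x * y = y * x) : x ∈ Ft G := by
  classical
  set C : Subgroup E := G ⊓ centralizer (Ft G : Set E) with hC
  have hxC : x ∈ C := ⟨hx, mem_centralizer_iff.2 fun y hy => (h y hy).symm⟩
  let D : ℕ → Subgroup E := fun n => Nat.rec C (fun _ H => ⁅H, H⁆) n
  have hD0 : D 0 = C := rfl
  have hDs : ∀ n, D (n + 1) = ⁅D n, D n⁆ := fun n => rfl
  have hGC : NzS G C := by
    intro g hg y hy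
    refine ⟨G.mul_mem (G.mul_mem hg hy.1) (G.inv_mem hg), mem_centralizer_iff.2 fun z hz => ?_⟩
    have h1 : g⁻¹ * z * g ∈ Ft G := by
      have := (Ft_nz (Nz.of_mem hg)).inv z hz
      simpa using this
    have h2 := mem_centralizer_iff.1 hy.2 _ h1
    calc z * (g * y * g⁻¹) = g * ((g⁻¹ * z * g) * y) * g⁻¹ := by group
      _ = g * (y * (g⁻¹ * z * g)) * g⁻¹ := by rw [h2]
      _ = g * y * g⁻¹ * z := by group
  have hGD : ∀ n, NzS G (D n) := by
    intro n
    induction n with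
    | zero => exact hGC
    | succ n ih =>
      intro g hg
      rw [hDs, Subgroup.commutator_def]
      apply Nz.closure
      rintro _ ⟨a, ha, b, hb, rfl⟩
      apply Subgroup.subset_closure
      refine ⟨g * a * g⁻¹, ih g hg a ha, g * b * g⁻¹, ih g hg b hb, ?_⟩
      simp only [commutatorElement_def]
      group
  have hDC : ∀ n, D n ≤ C := by
    intro n
    induction n with
    | zero => exact le_rfl
    | succ n ih =>
      rw [hDs, Subgroup.commutator_le]
      intro a ha b hb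
      rw [commutatorElement_def]
      exact C.mul_mem (C.mul_mem (C.mul_mem (ih ha) (ih hb)) (C.inv_mem (ih ha)))
        (C.inv_mem (ih hb))
  have hDder : ∀ n, D n ≤ (derivedSeries G n).map G.subtype := by
    intro n
    induction n with
    | zero =>
      intro y hy
      exact ⟨⟨y, (hDC 0 hy).1⟩, by simp, rfl⟩
    | succ n ih =>
      rw [hDs, derivedSeries_succ, Subgroup.map_commutator]
      exact Subgroup.commutator_mono ih ih
  obtain ⟨n, hn⟩ := hG.solvable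
  have hDn : D n ≤ Ft G := by
    refine (hDder n).trans ?_
    rw [hn, Subgroup.map_bot]
    exact bot_le
  -- descend
  have hstep : ∀ k, D (k + 1) ≤ Ft G → D k ≤ Ft G := by
    intro k hk
    refine le_Ft_of_comm ((hDC k).trans inf_le_left) (hGD k) ?_
    rintro s t hs ht hst a ha b hb ⟨m, hm⟩ ⟨l, hl⟩
    have hz : ∀ c ∈ D k, ∀ d ∈ D k, ∀ e ∈ D k, ⁅c, d⁆ * e = e * ⁅c, d⁆ := by
      intro c hc d hd e he
      have h1 : ⁅c, d⁆ ∈ Ft G := hk (by rw [hDs]; exact commutator_mem_commutator hc hd)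
      exact mem_centralizer_iff.1 (hDC k he).2 _ h1
    have hpow : ∀ c ∈ D k, ∀ d ∈ D k, ∀ j : ℕ, ⁅c ^ j, d⁆ = ⁅c, d⁆ ^ j := by
      intro c hc d hd j
      induction j with
      | zero => simp
      | succ j ih =>
        have h2 := hz c hc d hd (c ^ j) ((D k).pow_mem hc j)
        calc ⁅c ^ (j + 1), d⁆ = c ^ j * ⁅c, d⁆ * (c ^ j)⁻¹ * ⁅c ^ j, d⁆ := by
              simp only [commutatorElement_def, pow_succ]; group
          _ = ⁅c, d⁆ * ⁅c ^ j, d⁆ := by rw [← h2, mul_inv_cancel_right]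
          _ = ⁅c, d⁆ ^ (j + 1) := by rw [ih, pow_succ']
    have h3 : ⁅a, b⁆ ^ s ^ m = 1 := by rw [← hpow a ha b hb, hm]; simp
    have h4 : ⁅b, a⁆ ^ t ^ l = 1 := by rw [← hpow b hb a ha, hl]; simp
    have h5 : ⁅a, b⁆ ^ t ^ l = 1 := by
      rw [← commutatorElement_inv, inv_pow, h4, inv_one]
    have h6 : ⁅a, b⁆ = 1 := by
      have hcop : Nat.Coprime (s ^ m) (t ^ l) :=
        Nat.Coprime.pow _ _ ((Nat.coprime_primes hs ht).2 hst)
      have h1 : orderOf ⁅a, b⁆ ∣ 1 := by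
        rw [← hcop.gcd_eq_one]
        exact Nat.dvd_gcd (orderOf_dvd_of_pow_eq_one h3) (orderOf_dvd_of_pow_eq_one h5)
      exact orderOf_eq_one_iff.1 (Nat.dvd_one.1 h1)
    exact commutatorElement_eq_one_iff_mul_comm.1 h6
  have hall : ∀ k, D k ≤ Ft G → D 0 ≤ Ft G := by
    intro k
    induction k with
    | zero => exact id
    | succ k ih => exact fun h1 => ih (hstep k h1)
  exact hall n hDn hxC

end A3

end Pool.FH
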