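import Pool.Agent.Work.MP_4c212b_al.Cop1
import Pool.Agent.Work.MP_4c212b_al.Cop2
import Pool.Agent.Work.MP_4c212b_al.Cop3

/-! Block COP: pure imports (COP1 helper53, COP2 helper98, COP3 helper35). -/
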