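import Pool.Agent.Work.MP_4c212b_al.Defs

/-!
# Block COP1: commutators `[Q, φ]`, fixed points, coprime action
-/

set_option autoImplicit false

open Subgroup
open scoped commutatorElement

namespace Pool.FH

section A1

variable {E : Type} [Group E] [Finite E]

/-! ### `cm` and `fx` -/

theorem exists_pow_of_mem_zpowers {φ y : E} (hy : y ∈ zpowers φ) : ∃ k : ℕ, φ ^ k = y :=
  (Submonoid.mem_powers_iff _ _).1 (mem_powers_iff_mem_zpowers.2 hy)

theorem Nz.zpowers {φ : E} {H : Subgroup E} (h : Nz φ H) : NzS (zpowers φ) H := by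
  rintro _ ⟨k, rfl⟩
  exact h.zpow k

theorem comm_mem_cm {Q : Subgroup E} {φ x : E} (hx : x ∈ Q) : ⁅x, φ⁆ ∈ cm Q φ :=
  commutator_mem_commutator hx (mem_zpowers φ)

theorem cm_mono {Q R : Subgroup E} {φ : E} (h : Q ≤ R) : cm Q φ ≤ cm R φ :=
  commutator_mono h le_rfl

theorem fx_mono {Q R : Subgroup E} {φ : E} (h : Q ≤ R) : fx Q φ ≤ fx R φ :=
  inf_le_inf_right _ h

theorem comm_le_left {Y P : Subgroup E} (h : NzS P Y) : ⁅Y, P⁆ ≤ Y := by
  rw [commutator_le]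
  intro x hx y hy
  have h1 : ⁅x, y⁆ = x * (y * x⁻¹ * y⁻¹) := by rw [commutatorElement_def]; group
  rw [h1]
  exact Y.mul_mem hx (h y hy _ (Y.inv_mem hx))

/-- `Y` normalises `[Y, P]`. -/
theorem comm_nzS_left (Y P : Subgroup E) : NzS Y ⁅Y, P⁆ := by
  intro g hg
  rw [Subgroup.commutator_def]
  apply Nz.closure
  rintro _ ⟨x, hx, y, hy, rfl⟩
  have h1 : g * ⁅x, y⁆ * g⁻¹ = ⁅g * x, y⁆ * ⁅g, y⁆⁻¹ := by
    simp only [commutatorElement_def]; group
  rw [h1, ← Subgroup.commutator_def]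
  exact mul_mem (commutator_mem_commutator (Y.mul_mem hg hx) hy)
    (inv_mem (commutator_mem_commutator hg hy))

/-- `P` normalises `[Y, P]`. -/
theorem comm_nzS_right (Y P : Subgroup E) : NzS P ⁅Y, P⁆ := by
  intro g hg
  rw [Subgroup.commutator_def]
  apply Nz.closure
  rintro _ ⟨x, hx, y, hy, rfl⟩
  have h1 : g * ⁅x, y⁆ * g⁻¹ = ⁅x, g⁆⁻¹ * ⁅x, g * y⁆ := by
    simp only [commutatorElement_def]; group
  rw [h1, ← Subgroup.commutator_def]
  exact mul_mem (inv_mem (commutator_mem_commutator hx hg))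
    (commutator_mem_commutator hx (P.mul_mem hg hy))

theorem cm_le {Q : Subgroup E} {φ : E} (h : Nz φ Q) : cm Q φ ≤ Q :=
  comm_le_left h.zpowers

/-- `[Q, φ]` is the smallest subgroup normalised by `Q` and `φ` that contains all `⁅x, φ⁆`. -/
theorem cm_le_of {Q N : Subgroup E} {φ : E} (_hN : NzS Q N) (hφ : Nz φ N)
    (h : ∀ x ∈ Q, ⁅x, φ⁆ ∈ N) : cm Q φ ≤ N := by
  unfold cm
  rw [commutator_le]
  intro x hx y hy
  obtain ⟨k, rfl⟩ := exists_pow_of_mem_zpowers hy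
  clear hy
  induction k with
  | zero => simp
  | succ k ih =>
    have h1 : ⁅x, φ ^ (k + 1)⁆ = ⁅x, φ⁆ * (φ * ⁅x, φ ^ k⁆ * φ⁻¹) := by
      rw [pow_succ']; simp only [commutatorElement_def]; group
    rw [h1]
    exact N.mul_mem (h x hx) (hφ _ ih)

/-- `[Q, φ]` is generated by the elements `⁅x, φ⁆`, `x ∈ Q`, when `φ` normalises `Q`. -/
theorem cm_le_of' {Q N : Subgroup E} {φ : E} (hQ : Nz φ Q)
    (h : ∀ x ∈ Q, ⁅x, φ⁆ ∈ N) : cm Q φ ≤ N := by
  unfold cm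
  rw [commutator_le]
  intro x hx y hy
  obtain ⟨k, rfl⟩ := exists_pow_of_mem_zpowers hy
  clear hy
  induction k with
  | zero => simp
  | succ k ih =>
    have h1 : ⁅x, φ ^ (k + 1)⁆ = ⁅x, φ ^ k⁆ * ⁅φ ^ k * x * (φ ^ k)⁻¹, φ⁆ := by
      rw [pow_succ]; simp only [commutatorElement_def]; group
    rw [h1]
    exact N.mul_mem ih (h _ (hQ.pow k _ hx))

/-- `Q` normalises `[Q, φ]`. -/
theorem cm_nzS (Q : Subgroup E) (φ : E) : NzS Q (cm Q φ) := comm_nzS_left _ _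

theorem cm_nz_self (Q : Subgroup E) (φ : E) : Nz φ (cm Q φ) :=
  comm_nzS_right _ _ φ (mem_zpowers φ)

/-- An element normalising `Q` and `P` normalises `[Q, P]`. -/
theorem comm_nz {Q P : Subgroup E} {g : E} (hg : Nz g Q) (hc : Nz g P) : Nz g ⁅Q, P⁆ := by
  rw [Subgroup.commutator_def]
  apply Nz.closure
  rintro _ ⟨x, hx, y, hy, rfl⟩
  have h1 : g * ⁅x, y⁆ * g⁻¹ = ⁅g * x * g⁻¹, g * y * g⁻¹⁆ := by
    simp only [commutatorElement_def]; group
  rw [h1, ← Subgroup.commutator_def]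
  exact commutator_mem_commutator (hg x hx) (hc y hy)

/-- An element normalising `Q` and commuting with `φ` normalises `[Q, φ]`. -/
theorem cm_nz {Q : Subgroup E} {φ g : E} (hg : Nz g Q) (hc : g * φ = φ * g) : Nz g (cm Q φ) := by
  apply comm_nz hg
  intro y hy
  obtain ⟨k, rfl⟩ := exists_pow_of_mem_zpowers hy
  have h1 : Commute g φ := hc
  have h2 : g * φ ^ k = φ ^ k * g := (h1.pow_right k).eq
  rw [h2, mul_inv_cancel_right]
  exact hy

theorem fx_nz {Q : Subgroup E} {φ g : E} (hg : Nz g Q) (hc : g * φ = φ * g) : Nz g (fx Q φ) := by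
  intro x hx
  rw [mem_fx] at hx ⊢
  refine ⟨hg x hx.1, ?_⟩
  have h1 : Commute φ g := hc.symm
  have h2 : Commute φ x := hx.2
  exact ((h1.mul_right h2).mul_right h1.inv_right).eq

theorem fxS_nz {Q P : Subgroup E} {g : E} (hg : Nz g Q) (hc : Nz g P) : Nz g (fxS Q P) := by
  intro x hx
  rw [mem_fxS] at hx ⊢
  refine ⟨hg x hx.1, fun a ha => ?_⟩
  have h1 := hc.inv a ha
  rw [inv_inv] at h1
  have h2 := hx.2 _ h1
  calc a * (g * x * g⁻¹) = g * ((g⁻¹ * a * g) * x) * g⁻¹ := by group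
    _ = g * (x * (g⁻¹ * a * g)) * g⁻¹ := by rw [h2]
    _ = g * x * g⁻¹ * a := by group

/-! ### coprime action -/

theorem not_dvd_card_of_le {p : ℕ} {Y N : Subgroup E} (h : ¬ p ∣ Nat.card Y) (hN : N ≤ Y) :
    ¬ p ∣ Nat.card N := fun h' => h (h'.trans (card_dvd_of_le hN))

/-- `Y = [Y, P] C_Y(P)` -/
theorem cp_decomp {p : ℕ} [Fact p.Prime] {Y P : Subgroup E} (hP : IsPGroup p P)
    (hN : ¬ p ∣ Nat.card Y) (h : NzS P Y) {y : E} (hy : y ∈ Y) :
    ∃ d ∈ ⁅Y, P⁆, ∃ c ∈ fxS Y P, y = d * c := by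
  have hle := comm_le_left h
  obtain ⟨n, hn, hc⟩ := cp_fix hP (not_dvd_card_of_le hN hle) (comm_nzS_right Y P) (g := y)
    (by
      intro a ha
      have h1 : y⁻¹ * (a * y * a⁻¹) = ⁅y⁻¹, a⁆ := by
        rw [commutatorElement_def]; group
      rw [h1]
      exact commutator_mem_commutator (Y.inv_mem hy) ha)
  have hyn : y * n ∈ Y := Y.mul_mem hy (hle hn)
  refine ⟨(y * n) * n⁻¹ * (y * n)⁻¹, comm_nzS_left Y P _ hyn _ (inv_mem hn), y * n,
    mem_fxS.2 ⟨hyn, hc⟩, by group⟩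

/-- `[Y, P, P] = [Y, P]` -/
theorem cp_comm2 {p : ℕ} [Fact p.Prime] {Y P : Subgroup E} (hP : IsPGroup p P)
    (hN : ¬ p ∣ Nat.card Y) (h : NzS P Y) : ⁅⁅Y, P⁆, P⁆ = ⁅Y, P⁆ := by
  apply le_antisymm
  · exact commutator_mono (comm_le_left h) le_rfl
  · rw [commutator_le]
    intro y hy a ha
    obtain ⟨d, hd, c, hc, rfl⟩ := cp_decomp hP hN h hy
    have h1 := (mem_fxS.1 hc).2 a ha
    have h2 : ⁅d * c, a⁆ = ⁅d, a⁆ := by
      simp only [commutatorElement_def]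
      calc d * c * a * (d * c)⁻¹ * a⁻¹ = d * (c * a) * c⁻¹ * d⁻¹ * a⁻¹ := by group
        _ = d * (a * c) * c⁻¹ * d⁻¹ * a⁻¹ := by rw [h1]
        _ = d * a * d⁻¹ * a⁻¹ := by group
    rw [h2]
    exact commutator_mem_commutator hd ha

/-- `Q = [Q, φ] C_Q(φ)` -/
theorem cm_decomp {p : ℕ} [Fact p.Prime] {Q : Subgroup E} {φ : E} {n : ℕ} (hφ : φ ^ p ^ n = 1)
    (hN : ¬ p ∣ Nat.card Q) (h : Nz φ Q) {y : E} (hy : y ∈ Q) :
    ∃ d ∈ cm Q φ, ∃ c ∈ fx Q φ, y = d * c := by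
  obtain ⟨d, hd, c, hc, h1⟩ := cp_decomp (isPGroup_zpowers hφ) hN h.zpowers hy
  exact ⟨d, hd, c, mem_fx.2 ⟨(mem_fxS.1 hc).1, (mem_fxS.1 hc).2 φ (mem_zpowers φ)⟩, h1⟩

/-- `[Q, φ, φ] = [Q, φ]` -/
theorem cm_cm {p : ℕ} [Fact p.Prime] {Q : Subgroup E} {φ : E} {n : ℕ} (hφ : φ ^ p ^ n = 1)
    (hN : ¬ p ∣ Nat.card Q) (h : Nz φ Q) : cm (cm Q φ) φ = cm Q φ :=
  cp_comm2 (isPGroup_zpowers hφ) hN h.zpowers

/-- Fixed points modulo `N` lift (version of `cp_fix1` for elements of `p`-power order). -/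
theorem cp_fixn {p : ℕ} [Fact p.Prime] {φ : E} {n : ℕ} {N : Subgroup E} (hφ : φ ^ p ^ n = 1)
    (hN : ¬ p ∣ Nat.card N) (hPN : Nz φ N) {g : E} (hg : g⁻¹ * (φ * g * φ⁻¹) ∈ N) :
    ∃ m ∈ N, φ * (g * m) = (g * m) * φ := by
  have hP : IsPGroup p (zpowers φ) := isPGroup_zpowers hφ
  have key : ∀ k : ℕ, g⁻¹ * (φ ^ k * g * (φ ^ k)⁻¹) ∈ N := by
    intro k
    induction k with
    | zero => simp
    | succ k ih =>
      have h1 := hPN _ ih
      have h2 := N.mul_mem hg h1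
      have h3 : g⁻¹ * (φ * g * φ⁻¹) * (φ * (g⁻¹ * (φ ^ k * g * (φ ^ k)⁻¹)) * φ⁻¹) =
        g⁻¹ * (φ ^ (k + 1) * g * (φ ^ (k + 1))⁻¹) := by
          rw [pow_succ']; group
      rwa [h3] at h2
  obtain ⟨m, hm, h⟩ := cp_fix hP hN (P := zpowers φ) (g := g) hPN.zpowers
    (by
      intro a ha
      obtain ⟨k, rfl⟩ := exists_pow_of_mem_zpowers ha
      exact key k)
  exact ⟨m, hm, h φ (mem_zpowers φ)⟩

/-- The same for the action of a `p`-group `P`. -/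
theorem fxS_abelian {p : ℕ} [Fact p.Prime] {Q M P : Subgroup E} (hP : IsPGroup p P)
    (hN : ¬ p ∣ Nat.card Q) (h : NzS P Q) (hM : M ≤ Q) (hMφ : NzS P M)
    (hab : ∀ x ∈ Q, ∀ y ∈ Q, ⁅x, y⁆ ∈ M) (hQ : Q ≤ ⁅Q, P⁆ ⊔ M) {x : E} (hx : x ∈ Q)
    (hxφ : ∀ a ∈ P, ⁅a, x⁆ ∈ M) : x ∈ M := by
  classical
  have _ : Fintype P := Fintype.ofFinite P
  let M' : Subgroup Q := M.subgroupOf Q
  have hMn : M'.Normal := by
    constructor
    intro m hm g
    rw [mem_subgroupOf] at hm ⊢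
    have h1 := hab g.1 g.2 m.1 m.2
    have h2 := M.mul_mem h1 hm
    have h3 : ⁅(g : E), (m : E)⁆ * (m : E) = ((g * m * g⁻¹ : Q) : E) := by
      simp only [commutatorElement_def, coe_mul, coe_inv]; group
    rwa [h3] at h2
  let _ : CommGroup (Q ⧸ M') :=
    { (inferInstance : Group (Q ⧸ M')) with
      mul_comm := by
        intro a b
        obtain ⟨a, rfl⟩ := QuotientGroup.mk_surjective a
        obtain ⟨b, rfl⟩ := QuotientGroup.mk_surjective b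
        rw [← QuotientGroup.mk_mul, ← QuotientGroup.mk_mul, QuotientGroup.eq, mem_subgroupOf]
        have h1 := hab (b⁻¹ : Q).1 (b⁻¹ : Q).2 (a⁻¹ : Q).1 (a⁻¹ : Q).2
        have h3 : ⁅((b⁻¹ : Q) : E), ((a⁻¹ : Q) : E)⁆ = (((a * b)⁻¹ * (b * a) : Q) : E) := by
          simp only [commutatorElement_def, coe_mul, coe_inv]; group
        rwa [h3] at h1 }
  -- conjugation
  let cj : P → Q → Q := fun a q => ⟨a.1 * q.1 * a.1⁻¹, h a.1 a.2 q.1 q.2⟩
  have cj_mul : ∀ a q r, cj a (q * r) = cj a q * cj a r := by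
    intro a q r
    apply Subtype.ext
    simp only [cj, coe_mul]; group
  let tr : Q →* Q ⧸ M' :=
    { toFun := fun q => ∏ a : P, (QuotientGroup.mk (cj a q) : Q ⧸ M')
      map_one' := by
        apply Finset.prod_eq_one
        intro a _
        have : cj a 1 = 1 := by apply Subtype.ext; simp [cj]
        rw [this]; rfl
      map_mul' := by
        intro q r
        rw [← Finset.prod_mul_distrib]
        apply Finset.prod_congr rfl
        intro a _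
        rw [cj_mul]; rfl }
  have tr_def : ∀ q, tr q = ∏ a : P, (QuotientGroup.mk (cj a q) : Q ⧸ M') := fun q => rfl
  have tr_cj : ∀ b q, tr (cj b q) = tr q := by
    intro b q
    rw [tr_def, tr_def]
    apply Fintype.prod_equiv (Equiv.mulRight b)
    intro a
    have : cj a (cj b q) = cj (a * b) q := by
      apply Subtype.ext
      simp only [cj, coe_mul]; group
    rw [this]; rfl
  have hker : Q ≤ tr.ker.map Q.subtype := by
    refine hQ.trans (sup_le ?_ ?_)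
    · rw [commutator_le]
      intro q hq a ha
      have hq' : (⟨q, hq⟩ : Q) * (cj ⟨a, ha⟩ ⟨q, hq⟩)⁻¹ ∈ tr.ker := by
        rw [MonoidHom.mem_ker, map_mul, map_inv, tr_cj, mul_inv_cancel]
      refine ⟨_, hq', ?_⟩
      simp only [cj, coe_mul, coe_inv, Subgroup.subtype_apply, commutatorElement_def]; group
    · intro m hm
      refine ⟨⟨m, hM hm⟩, ?_, rfl⟩
      change _ ∈ tr.ker
      rw [MonoidHom.mem_ker, tr_def]
      apply Finset.prod_eq_one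
      intro a _
      rw [QuotientGroup.eq_one_iff, mem_subgroupOf]
      exact hMφ a.1 a.2 m hm
  obtain ⟨x', hx', hxx⟩ := hker hx
  have hx1 : tr ⟨x, hx⟩ = 1 := by
    have : x' = ⟨x, hx⟩ := Subtype.ext hxx
    rw [← this]; exact hx'
  have hx2 : tr ⟨x, hx⟩ = (QuotientGroup.mk (⟨x, hx⟩ : Q) : Q ⧸ M') ^ Nat.card P := by
    rw [tr_def, Nat.card_eq_fintype_card, ← Finset.card_univ, ← Finset.prod_const]
    apply Finset.prod_congr rfl
    intro a _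
    rw [QuotientGroup.eq, mem_subgroupOf]
    have h1 := hxφ a.1 a.2
    -- `(a x a⁻¹)⁻¹ x = (⁅a, x⁆)⁻¹` conjugated
    have h2 : ((cj a ⟨x, hx⟩)⁻¹ * (⟨x, hx⟩ : Q) : Q) =
        (⟨x, hx⟩ : Q)⁻¹ * ⟨⁅a.1, x⁆⁻¹, Q.inv_mem (hM h1)⟩ * (⟨x, hx⟩ : Q) := by
      apply Subtype.ext
      simp only [cj, coe_mul, coe_inv, commutatorElement_def]; group
    rw [h2]
    have h3 : (⟨⁅a.1, x⁆⁻¹, Q.inv_mem (hM h1)⟩ : Q) ∈ M' := by
      rw [mem_subgroupOf]; exact M.inv_mem h1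
    have h4 := hMn.conj_mem _ h3 (⟨x, hx⟩ : Q)⁻¹
    rw [inv_inv] at h4
    exact h4
  rw [hx2, ← QuotientGroup.mk_pow, QuotientGroup.eq_one_iff, mem_subgroupOf] at hx1
  have hx3 : x ^ Nat.card P ∈ M := hx1
  obtain ⟨k, hk⟩ := (IsPGroup.iff_card).1 hP
  have hcop : Nat.Coprime (orderOf x) (Nat.card P) := by
    rw [hk]
    apply Nat.Coprime.pow_right
    refine ((Nat.Prime.coprime_iff_not_dvd Fact.out).2 fun hd => hN (hd.trans ?_)).symm
    have := orderOf_dvd_natCard (⟨x, hx⟩ : Q)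
    rwa [← Subgroup.orderOf_coe] at this
  obtain ⟨u, hu⟩ := exists_pow_eq_self_of_coprime hcop.symm
  rw [← hu]
  exact M.pow_mem hx3 u

/-- If `Q/M` is abelian, `Q = [Q, φ]` modulo `M`, then every `φ`-fixed element modulo `M` is in
`M`. -/
theorem fx_abelian {p : ℕ} [Fact p.Prime] {Q M : Subgroup E} {φ : E} {n : ℕ}
    (hφ : φ ^ p ^ n = 1) (hN : ¬ p ∣ Nat.card Q) (h : Nz φ Q) (hM : M ≤ Q) (hMφ : Nz φ M)
    (hab : ∀ x ∈ Q, ∀ y ∈ Q, ⁅x, y⁆ ∈ M) (hQ : Q ≤ cm Q φ ⊔ M) {x : E} (hx : x ∈ Q)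
    (hxφ : ⁅φ, x⁆ ∈ M) : x ∈ M := by
  apply fxS_abelian (isPGroup_zpowers hφ) hN h.zpowers hM hMφ.zpowers hab hQ hx
  intro a ha
  obtain ⟨k, rfl⟩ := exists_pow_of_mem_zpowers ha
  clear ha
  induction k with
  | zero => simp
  | succ k ih =>
    have h1 : ⁅φ ^ (k + 1), x⁆ = φ * ⁅φ ^ k, x⁆ * φ⁻¹ * ⁅φ, x⁆ := by
      rw [pow_succ']; simp only [commutatorElement_def]; group
    rw [h1]
    exact M.mul_mem (hMφ _ ih) hxφ

/-- Three subgroups: if `[X, Q, φ] = 1` (in the form: `X` is centralised by `φ`, `Q` normalises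
`X`) then `X` is centralised by `[Q, φ]`. -/
theorem three_sub {X Q : Subgroup E} {φ : E} (h : NzS Q X) (hX : ∀ x ∈ X, φ * x = x * φ) :
    ∀ x ∈ X, ∀ c ∈ cm Q φ, c * x = x * c := by
  have key : cm Q φ ≤ centralizer (X : Set E) := by
    unfold cm
    rw [commutator_le]
    intro q hq y hy
    have hy' : ∀ x ∈ X, y * x = x * y := by
      obtain ⟨k, rfl⟩ := exists_pow_of_mem_zpowers hy
      intro x hx
      have h1 : Commute φ x := hX x hx
      exact (h1.pow_left k).eq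
    rw [mem_centralizer_iff]
    intro x hx
    have h1 : q⁻¹ * x * q ∈ X := by
      have := (h q hq).inv x hx
      rwa [inv_inv] at this
    have h2 := hy' _ h1
    have h3 := hy' _ hx
    have h4 : y⁻¹ * x = x * y⁻¹ := by
      have h5 : Commute y x := h3
      exact h5.inv_left.eq
    simp only [commutatorElement_def]
    calc x * (q * y * q⁻¹ * y⁻¹) = q * ((q⁻¹ * x * q) * y) * q⁻¹ * y⁻¹ := by group
      _ = q * (y * (q⁻¹ * x * q)) * q⁻¹ * y⁻¹ := by rw [h2]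
      _ = q * y * q⁻¹ * (x * y⁻¹) := by group
      _ = q * y * q⁻¹ * (y⁻¹ * x) := by rw [h4]
      _ = q * y * q⁻¹ * y⁻¹ * x := by group
  intro x hx c hc
  exact ((mem_centralizer_iff.1 (key hc)) x hx).symm

/-! ### orders -/

theorem not_dvd_card_of_isPGroup {p t : ℕ} [Fact p.Prime] [Fact t.Prime] (hpt : p ≠ t)
    {Y : Subgroup E} (hY : IsPGroup t Y) : ¬ p ∣ Nat.card Y := by
  obtain ⟨k, hk⟩ := (IsPGroup.iff_card).1 hY
  rw [hk]
  intro h
  have h1 := (Fact.out : p.Prime).dvd_of_dvd_pow h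
  exact hpt ((Nat.prime_dvd_prime_iff_eq Fact.out Fact.out).1 h1)

/-- Elements of coprime prime power orders: if `x` is a `t`-element and a `p`-element, `x = 1`. -/
theorem eq_one_of_isPGroup {p t : ℕ} [Fact p.Prime] [Fact t.Prime] (hpt : p ≠ t)
    {Y X : Subgroup E} (hY : IsPGroup t Y) (hX : IsPGroup p X) {x : E} (h1 : x ∈ X) (h2 : x ∈ Y) :
    x = 1 := by
  obtain ⟨a, ha⟩ := hY ⟨x, h2⟩
  obtain ⟨b, hb⟩ := hX ⟨x, h1⟩
  have ha' : x ^ t ^ a = 1 := congrArg Subtype.val ha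
  have hb' : x ^ p ^ b = 1 := congrArg Subtype.val hb
  have hcop : Nat.Coprime (t ^ a) (p ^ b) := by
    apply Nat.Coprime.pow
    exact ((Nat.coprime_primes Fact.out Fact.out).2 hpt.symm)
  have h3 : orderOf x ∣ 1 := by
    have h4 := Nat.dvd_gcd (orderOf_dvd_of_pow_eq_one ha') (orderOf_dvd_of_pow_eq_one hb')
    rwa [hcop.gcd_eq_one] at h4
  exact orderOf_eq_one_iff.1 (Nat.dvd_one.1 h3)

end A1

end Pool.FH
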