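import Pool.Agent.Work.MP_4c212b_al.Interface

/-!
# Block DB: the dimension of `[W, P]` is at most `2 p dim C_W(φ)`
-/

set_option autoImplicit false

open Subgroup
open scoped commutatorElement Pointwise

namespace Pool.FH
namespace DBaux

section

variable {k E V : Type} [Field k] [Group E] [Finite E] [AddCommGroup V] [Module k V]
variable {ρ : Representation k E V}

theorem mulap (g h : E) (v : V) : ρ (g * h) v = ρ g (ρ h v) := by rw [map_mul]; rfl

theorem oneap (v : V) : ρ 1 v = v := by rw [map_one]; rfl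

theorem mapmul (g h : E) (A : Submodule k V) :
    A.map (ρ (g * h)) = (A.map (ρ h)).map (ρ g) := by
  rw [map_mul]
  exact Submodule.map_comp _ _ _

theorem mapone (A : Submodule k V) : A.map (ρ 1) = A := by
  rw [map_one]
  exact Submodule.map_id A

/-- stabiliser of a subspace -/
def fixr (ρ : Representation k E V) (A : Submodule k V) : Subgroup E where
  carrier := {g | A.map (ρ g) = A}
  one_mem' := mapone A
  mul_mem' := by
    intro a b ha hb
    change A.map (ρ (a * b)) = A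
    rw [mapmul, show A.map (ρ b) = A from hb, show A.map (ρ a) = A from ha]
  inv_mem' := by
    intro a ha
    change A.map (ρ a⁻¹) = A
    have ha' : A.map (ρ a) = A := ha
    conv_lhs => rw [← ha']
    rw [← mapmul, inv_mul_cancel, mapone]

theorem mem_fixr {A : Submodule k V} {g : E} : g ∈ fixr ρ A ↔ A.map (ρ g) = A := Iff.rfl

theorem inv_of_fixr {A : Submodule k V} {g : E} (h : A.map (ρ g) = A) : Inv ρ g A := by
  intro w hw
  have h1 : ρ g w ∈ A.map (ρ g) := ⟨w, hw, rfl⟩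
  rwa [h] at h1

theorem map_inj {A B : Submodule k V} {g : E} (h : A.map (ρ g) = B.map (ρ g)) : A = B := by
  rw [← mapone (ρ := ρ) A, ← mapone (ρ := ρ) B, ← inv_mul_cancel g, mapmul, mapmul, h]

theorem coprime_mem {p i : ℕ} (hp : p.Prime) {φ : E} (hφ : φ ^ p = 1) (hi : 0 < i) (hip : i < p)
    {H : Subgroup E} (h : φ ^ i ∈ H) : φ ∈ H := by
  have hcop : Nat.Coprime i p := by
    rw [Nat.coprime_comm, Nat.Prime.coprime_iff_not_dvd hp]
    intro h1
    exact absurd (Nat.le_of_dvd hi h1) (by omega)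
  have h1 : φ = (φ ^ i) ^ (Nat.gcdA i p) * (φ ^ p) ^ (Nat.gcdB i p) := by
    rw [← zpow_natCast, ← zpow_natCast, ← zpow_mul, ← zpow_mul, ← zpow_add,
      ← Nat.gcd_eq_gcd_ab, hcop]
    simp
  rw [h1, hφ, one_zpow, mul_one]
  exact zpow_mem h _

theorem disj_sets [FiniteDimensional k V] {Ω T T' : Set (Submodule k V)} (hind : sSupIndep Ω)
    (hT : T ⊆ Ω) (hT' : T' ⊆ Ω) (hd : Disjoint T T') : Disjoint (sSup T) (sSup T') := by
  rw [sSupIndep_iff] at hind
  have h1 : Disjoint (⨆ i ∈ {i : Ω | (i : Submodule k V) ∈ T}, (i : Submodule k V))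
      (⨆ i ∈ {i : Ω | (i : Submodule k V) ∈ T'}, (i : Submodule k V)) :=
    iSupIndep.disjoint_biSup_biSup (f := fun i : Ω => (i : Submodule k V)) hind (by
      rw [Set.disjoint_left] at hd ⊢
      exact fun i hi hi' => hd hi hi')
  refine h1.mono ?_ ?_
  · apply sSup_le
    intro A hA
    exact le_iSup₂_of_le (⟨A, hT hA⟩ : Ω) hA le_rfl
  · apply sSup_le
    intro A hA
    exact le_iSup₂_of_le (⟨A, hT' hA⟩ : Ω) hA le_rfl

theorem finrank_map_le' [FiniteDimensional k V] (A : Submodule k V) (g : E) :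
    Module.finrank k A ≤ Module.finrank k (A.map (ρ g)) := by
  have h1 : A = (A.map (ρ g)).map (ρ g⁻¹) := by
    rw [← mapmul, inv_mul_cancel, mapone]
  conv_lhs => rw [h1]
  exact Submodule.finrank_map_le _ _

/-- A sum of weight spaces permuted freely by `φ`. -/
theorem free_bound [FiniteDimensional k V] {p : ℕ} (hp : p.Prime) {φ : E} (hφ : φ ^ p = 1)
    {Ω : Set (Submodule k V)} (hind : sSupIndep Ω) (hst : ∀ A ∈ Ω, A.map (ρ φ) ∈ Ω)
    (hmov : ∀ A ∈ Ω, A.map (ρ φ) ≠ A) :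
    Module.finrank k (sSup Ω : Submodule k V) ≤
      p * Module.finrank k (sSup Ω ⊓ Module.End.eigenspace (ρ φ) 1 : Submodule k V) := by
  classical
  have hfin : Ω.Finite := WellFoundedGT.finite_of_sSupIndep hind
  have hpow : ∀ i : ℕ, ∀ A ∈ Ω, A.map (ρ (φ ^ i)) ∈ Ω := by
    intro i
    induction i with
    | zero => intro A hA; rw [pow_zero, mapone]; exact hA
    | succ i ih => intro A hA; rw [pow_succ', mapmul]; exact hst _ (ih A hA)
  have hne : ∀ A ∈ Ω, ∀ i, 0 < i → i < p → A.map (ρ (φ ^ i)) ≠ A := fun A hA i h0 h1 h =>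
    hmov A hA (coprime_mem hp hφ h0 h1 (H := fixr ρ A) h)
  -- representatives
  obtain ⟨T, hTm⟩ : ∃ T, Maximal (fun T : Set (Submodule k V) =>
      T ⊆ Ω ∧ ∀ A ∈ T, ∀ i, 0 < i → i < p → A.map (ρ (φ ^ i)) ∉ T) T := by
    have hf : {T : Set (Submodule k V) |
      T ⊆ Ω ∧ ∀ A ∈ T, ∀ i, 0 < i → i < p → A.map (ρ (φ ^ i)) ∉ T}.Finite :=
      hfin.finite_subsets.subset fun T hT => hT.1
    exact hf.exists_maximal ⟨∅, Set.empty_subset _, fun A hA => hA.elim⟩
  obtain ⟨⟨hTΩ, hT⟩, hmax⟩ := hTm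
  have hcov : ∀ A ∈ Ω, ∃ i < p, ∃ B ∈ T, A = B.map (ρ (φ ^ i)) := by
    intro A hA
    by_contra hcon
    push Not at hcon
    have h1 : (fun T : Set (Submodule k V) =>
      T ⊆ Ω ∧ ∀ A ∈ T, ∀ i, 0 < i → i < p → A.map (ρ (φ ^ i)) ∉ T) (insert A T) := by
      refine ⟨Set.insert_subset hA hTΩ, ?_⟩
      intro C hC i h0 hip hCi
      rcases hC with hC | hC
      · subst hC
        rcases hCi with hCi | hCi
        · exact hne _ hA i h0 hip hCi
        · refine hcon (p - i) (by omega) _ hCi ?_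
          rw [← mapmul, ← pow_add, Nat.sub_add_cancel hip.le, hφ, mapone]
      · rcases hCi with hCi | hCi
        · exact hcon i hip C hC hCi.symm
        · exact hT C hC i h0 hip hCi
    have h2 : A ∈ T := hmax h1 (Set.subset_insert A T) (Set.mem_insert A T)
    exact hcon 0 hp.pos A h2 (by rw [pow_zero, mapone])
  obtain ⟨S, hS⟩ : ∃ S : Submodule k V, S = sSup T := ⟨_, rfl⟩
  -- dimension of the sum
  have hdim : Module.finrank k (sSup Ω : Submodule k V) ≤ p * Module.finrank k S := by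
    let L : (Fin p → S) →ₗ[k] V :=
      ∑ i : Fin p, (ρ (φ ^ (i : ℕ))).comp (S.subtype.comp (LinearMap.proj i))
    have hL : ∀ s, L s = ∑ i : Fin p, ρ (φ ^ (i : ℕ)) ((s i : S) : V) := by
      intro s
      simp only [L, LinearMap.sum_apply, LinearMap.comp_apply, Submodule.subtype_apply,
        LinearMap.proj_apply]
    have h1 : sSup Ω ≤ LinearMap.range L := by
      apply sSup_le
      intro A hA a ha
      obtain ⟨i, hi, B, hB, hAB⟩ := hcov A hA
      rw [hAB] at ha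
      obtain ⟨b, hb, rfl⟩ := ha
      have hbS : b ∈ S := by
        rw [hS]
        exact (le_sSup hB : B ≤ sSup T) hb
      refine ⟨Pi.single ⟨i, hi⟩ ⟨b, hbS⟩, ?_⟩
      rw [hL, Finset.sum_eq_single ⟨i, hi⟩]
      · rw [Pi.single_eq_same]
      · intro j _ hj
        rw [Pi.single_eq_of_ne hj]
        simp
      · intro h
        exact absurd (Finset.mem_univ _) h
    calc Module.finrank k (sSup Ω : Submodule k V) ≤ Module.finrank k (LinearMap.range L) :=
          Submodule.finrank_mono h1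
      _ ≤ Module.finrank k (Fin p → S) := LinearMap.finrank_range_le L
      _ = p * Module.finrank k S := by
          rw [Module.finrank_pi_fintype]
          simp
  refine hdim.trans (Nat.mul_le_mul_left p ?_)
  -- injectivity of the orbit sum
  have hSΩ : S ≤ sSup Ω := by
    rw [hS]
    exact sSup_le_sSup hTΩ
  have hinvΩ : ∀ i : ℕ, ∀ v ∈ sSup Ω, ρ (φ ^ i) v ∈ sSup Ω := by
    intro i v hv
    have h1 : (sSup Ω : Submodule k V) ≤ (sSup Ω : Submodule k V).comap (ρ (φ ^ i)) := by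
      apply sSup_le
      intro A hA a ha
      exact (le_sSup (hpow i A hA) : A.map (ρ (φ ^ i)) ≤ sSup Ω) ⟨a, ha, rfl⟩
    exact h1 hv
  let e0 : V →ₗ[k] V := ∑ i ∈ Finset.range p, ρ (φ ^ i)
  have he0 : ∀ v, e0 v = ∑ i ∈ Finset.range p, ρ (φ ^ i) v := by
    intro v
    simp only [e0, LinearMap.sum_apply]
  have hmem : ∀ s ∈ S, e0 s ∈ (sSup Ω ⊓ Module.End.eigenspace (ρ φ) 1 : Submodule k V) := by
    intro s hs
    rw [Submodule.mem_inf, Module.End.mem_eigenspace_iff, one_smul, he0]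
    exact ⟨Submodule.sum_mem _ fun i _ => hinvΩ i s (hSΩ hs), orbit_sum_fixed hφ s⟩
  let e : S →ₗ[k] (sSup Ω ⊓ Module.End.eigenspace (ρ φ) 1 : Submodule k V) :=
    LinearMap.codRestrict _ (e0.comp S.subtype) fun s => hmem s s.2
  apply LinearMap.finrank_le_finrank_of_injective (f := e)
  rw [← LinearMap.ker_eq_bot, eq_bot_iff]
  intro s hs
  rw [LinearMap.mem_ker] at hs
  have h1 : e0 s = 0 := congrArg Subtype.val hs
  obtain ⟨T', hT'⟩ : ∃ T' : Set (Submodule k V), T' = {C | ∃ i, 0 < i ∧ i < p ∧ ∃ B ∈ T,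
    C = B.map (ρ (φ ^ i))} := ⟨_, rfl⟩
  have hT'Ω : T' ⊆ Ω := by
    rw [hT']
    rintro C ⟨i, -, -, B, hB, rfl⟩
    exact hpow i B (hTΩ hB)
  have hdisj : Disjoint T T' := by
    rw [Set.disjoint_left]
    intro C hC hC'
    rw [hT'] at hC'
    obtain ⟨i, h0, hip, B, hB, rfl⟩ := hC'
    exact hT B hB i h0 hip hC
  have h2 := disj_sets hind hTΩ hT'Ω hdisj
  have h3 : (s : V) ∈ sSup T' := by
    obtain ⟨p', hp'⟩ : ∃ p', p = p' + 1 := ⟨p - 1, by have := hp.pos; omega⟩
    rw [he0, hp', Finset.sum_range_succ', pow_zero, oneap] at h1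
    have h4 : (s : V) = -∑ i ∈ Finset.range p', ρ (φ ^ (i + 1)) (s : V) := by
      rw [eq_neg_iff_add_eq_zero, add_comm]
      exact h1
    rw [h4]
    apply Submodule.neg_mem
    apply Submodule.sum_mem
    intro i hi
    rw [Finset.mem_range] at hi
    have h5 : S ≤ (sSup T' : Submodule k V).comap (ρ (φ ^ (i + 1))) := by
      rw [hS]
      apply sSup_le
      intro B hB b hb
      have h6 : B.map (ρ (φ ^ (i + 1))) ∈ T' := by
        rw [hT']
        exact ⟨i + 1, by omega, by omega, B, hB, rfl⟩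
      exact (le_sSup h6 : B.map (ρ (φ ^ (i + 1))) ≤ sSup T') ⟨b, hb, rfl⟩
    exact h5 s.2
  have h4 : (s : V) ∈ sSup T := hS ▸ s.2
  have h5 := Submodule.disjoint_def.1 h2 _ h4 h3
  rw [Submodule.mem_bot]
  exact Subtype.ext h5

theorem Nz_union {P : Subgroup E} {φ : E} (X : Subgroup E) (h1 : NzS P X) (h2 : Nz φ X) :
    ∀ g ∈ (P : Set E) ∪ {φ}, Nz g X := by
  rintro g (hg | hg)
  · exact h1 g hg
  · rw [Set.mem_singleton_iff] at hg
    rw [hg]
    exact h2

/-- elements of `P ⊔ ⟨φ⟩` -/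
theorem mem_sup_zpowers {P : Subgroup E} {φ g : E} (hφP : Nz φ P) (hg : g ∈ P ⊔ zpowers φ) :
    ∃ h ∈ P, ∃ a ∈ zpowers φ, g = h * a := by
  have h1 : zpowers φ ≤ normalizer (P : Set E) := by
    apply Nz.le_normalizer
    rintro _ ⟨k, rfl⟩
    exact hφP.zpow k
  have h2 : ((P ⊔ zpowers φ : Subgroup E) : Set E) = (P : Set E) * (zpowers φ : Set E) :=
    Subgroup.coe_mul_of_right_le_normalizer_left P (zpowers φ) h1
  have h3 : g ∈ (P : Set E) * (zpowers φ : Set E) := by
    rw [← h2]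
    exact hg
  obtain ⟨h, hh, a, ha, hha⟩ := Set.mem_mul.1 h3
  exact ⟨h, hh, a, ha, hha.symm⟩


theorem card_sup {p q : ℕ} [Fact p.Prime] [Fact q.Prime] (hpq : p ≠ q) (hp : (p : k) ≠ 0)
    (hq : (q : k) ≠ 0) {φ : E} (hφ : φ ^ p = 1) {P : Subgroup E} (hP : IsPGroup q P)
    (hφP : Nz φ P) : (Nat.card (P ⊔ zpowers φ : Subgroup E) : k) ≠ 0 := by
  have hZ : IsPGroup p (zpowers φ) := isPGroup_zpowers (n := 1) (by simpa using hφ)
  let f : P × zpowers φ → (P ⊔ zpowers φ : Subgroup E) := fun x =>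
    ⟨x.1 * x.2, mul_mem (mem_sup_left x.1.2) (mem_sup_right x.2.2)⟩
  have hf : Function.Bijective f := by
    constructor
    · rintro ⟨⟨a, ha⟩, ⟨b, hb⟩⟩ ⟨⟨c, hc⟩, ⟨d, hd⟩⟩ h
      have h1 : a * b = c * d := congrArg Subtype.val h
      have h2 : c⁻¹ * a = d * b⁻¹ := by
        rw [inv_mul_eq_iff_eq_mul, ← mul_assoc, ← h1, mul_inv_cancel_right]
      have h3 : c⁻¹ * a = 1 := by
        apply eq_one_of_isPGroup hpq hP hZ
        · rw [h2]
          exact mul_mem hd (inv_mem hb)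
        · exact mul_mem (inv_mem hc) ha
      have h4 : a = c := by
        rw [inv_mul_eq_one] at h3
        exact h3.symm
      have h5 : b = d := by
        rw [h4] at h1
        exact mul_left_cancel h1
      subst h4 h5
      rfl
    · rintro ⟨g, hg⟩
      obtain ⟨h, hh, a, ha, hha⟩ := mem_sup_zpowers hφP hg
      exact ⟨⟨⟨h, hh⟩, ⟨a, ha⟩⟩, Subtype.ext hha.symm⟩
  rw [← Nat.card_eq_of_bijective f hf, Nat.card_prod, Nat.cast_mul]
  exact mul_ne_zero (card_ne_zero_of_isPGroup hP hq) (card_ne_zero_of_isPGroup hZ hp)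

/-- invariance of `U` under `P ∪ {φ}`, unpacked -/
theorem irr_eq {P : Subgroup E} {φ : E} {U M : Submodule k V}
    (hirr : Irr ρ ((P : Set E) ∪ {φ}) U) (hM : M ≤ U) (hne : M ≠ ⊥) (h1 : InvS ρ P M)
    (h2 : Inv ρ φ M) : M = U := by
  apply hirr.2.2 M hM hne
  rintro g (hg | hg)
  · exact h1 g hg
  · rw [Set.mem_singleton_iff] at hg
    rw [hg]
    exact h2

theorem irr_P {P : Subgroup E} {φ : E} {U : Submodule k V}
    (hirr : Irr ρ ((P : Set E) ∪ {φ}) U) : InvS ρ P U := fun g hg => hirr.2.1 g (Or.inl hg)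

theorem irr_φ {P : Subgroup E} {φ : E} {U : Submodule k V}
    (hirr : Irr ρ ((P : Set E) ∪ {φ}) U) : Inv ρ φ U := hirr.2.1 φ (Or.inr rfl)

/-- Case 1: `X` abelian on `U`, and `P` moves some weight space of `X`; or `φ` moves some weight
space of `X`. -/
theorem case1 [IsAlgClosed k] [FiniteDimensional k V] {p q : ℕ} [hp : Fact p.Prime]
    [hq : Fact q.Prime] (hpq : p ≠ q) (hqk : (q : k) ≠ 0) {φ : E} (hφ : φ ^ p = 1)
    {P : Subgroup E} (hP : IsPGroup q P) (hφP : Nz φ P) (hPφ : P ≤ cm P φ) {U : Submodule k V}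
    (hirr : Irr ρ ((P : Set E) ∪ {φ}) U) {X : Subgroup E} (hXP : X ≤ P) (hφX : Nz φ X)
    (hPX : NzS P X) (hab : AbOn ρ X U) (hnc : ∃ y ∈ P, ∃ A ∈ wts ρ X U, A.map (ρ y) ≠ A) :
    Module.finrank k U ≤
      2 * p * Module.finrank k (U ⊓ Module.End.eigenspace (ρ φ) 1 : Submodule k V) := by
  classical
  have hXq : IsPGroup q X := hP.to_le hXP
  have hXk : (Nat.card X : k) ≠ 0 := card_ne_zero_of_isPGroup hXq hqk
  have hUP := irr_P hirr
  have hUφ := irr_φ hirr
  have hind := wts_indep (ρ := ρ) X U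
  have hsup : sSup (wts ρ X U) = U := wts_sup hXk (fun g hg => hUP g (hXP hg)) hab
  have hφΩ : ∀ A ∈ wts ρ X U, A.map (ρ φ) ∈ wts ρ X U := fun A hA => wts_map hφX hUφ hA
  have hPΩ : ∀ g ∈ P, ∀ A ∈ wts ρ X U, A.map (ρ g) ∈ wts ρ X U := fun g hg A hA =>
    wts_map (hPX g hg) (hUP g hg) hA
  obtain ⟨Mv, hMv⟩ : ∃ Mv : Set (Submodule k V), Mv = {A | A ∈ wts ρ X U ∧ A.map (ρ φ) ≠ A} :=
    ⟨_, rfl⟩
  obtain ⟨Fx, hFx⟩ : ∃ Fx : Set (Submodule k V), Fx = {A | A ∈ wts ρ X U ∧ A.map (ρ φ) = A} :=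
    ⟨_, rfl⟩
  have hMvΩ : Mv ⊆ wts ρ X U := by
    rw [hMv]
    exact fun A hA => hA.1
  have hfree : Module.finrank k (sSup Mv : Submodule k V) ≤
      p * Module.finrank k (U ⊓ Module.End.eigenspace (ρ φ) 1 : Submodule k V) := by
    refine (free_bound (ρ := ρ) hp.out hφ (hind.mono hMvΩ) ?_ ?_).trans (Nat.mul_le_mul_left p ?_)
    · intro A hA
      rw [hMv] at hA ⊢
      exact ⟨hφΩ A hA.1, fun h => hA.2 (map_inj h)⟩
    · intro A hA
      rw [hMv] at hA
      exact hA.2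
    · apply Submodule.finrank_mono
      apply inf_le_inf_right
      calc sSup Mv ≤ sSup (wts ρ X U) := sSup_le_sSup hMvΩ
        _ = U := hsup
  -- an element moving all fixed weight spaces to moved ones
  have hG : ∃ g ∈ P, ∀ A ∈ Fx, A.map (ρ g) ∈ Mv := by
    by_cases hF : Fx = ∅
    · refine ⟨1, P.one_mem, ?_⟩
      rw [hF]
      exact fun A hA => hA.elim
    obtain ⟨A0, hA0⟩ := Set.nonempty_iff_ne_empty.2 hF
    rw [hFx] at hA0
    obtain ⟨hA0Ω, hA0φ⟩ := hA0
    have hφA0 : φ ∈ fixr ρ A0 := hA0φ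
    -- the subgroup P1
    have hP0φ : Nz φ (P ⊓ fixr ρ A0) := by
      rintro x ⟨hx1, hx2⟩
      exact ⟨hφP x hx1, (fixr ρ A0).mul_mem ((fixr ρ A0).mul_mem hφA0 hx2) ((fixr ρ A0).inv_mem hφA0)⟩
    have hP1φ : Nz φ ((P ⊓ fixr ρ A0) ⊔ Phi q P) := hP0φ.sup (Phi_nz hφP)
    have hP1P : (P ⊓ fixr ρ A0) ⊔ Phi q P ≤ P := sup_le inf_le_left Phi_le
    have hab1 : ∀ x ∈ P, ∀ y ∈ P, ⁅x, y⁆ ∈ (P ⊓ fixr ρ A0) ⊔ Phi q P := by
      intro x hx y hy
      exact mem_sup_right (subset_closure (Or.inl ⟨x, hx, y, hy, rfl⟩))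
    have hne : ¬ P ≤ (P ⊓ fixr ρ A0) ⊔ Phi q P := by
      intro hcon
      have h1 := Phi_gen hP inf_le_left hcon
      have h2 : P ≤ fixr ρ A0 := inf_eq_left.1 h1
      have h3 : A0 = U := irr_eq hirr (by
        obtain ⟨-, χ, rfl⟩ := hA0Ω
        exact wsp_le _ _ _) hA0Ω.1 (fun g hg => inv_of_fixr (h2 hg)) (inv_of_fixr hA0φ)
      obtain ⟨y, hy, A, hA, hAy⟩ := hnc
      have h4 : A = A0 := by
        by_contra hcon2
        have h5 := hind.disjoint_sSup hA (y := {A0}) (by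
          rintro B rfl
          exact hA0Ω) (by
          intro h6
          exact hcon2 h6)
        rw [sSup_singleton, h3] at h5
        have h6 : A ≤ U := by
          obtain ⟨-, χ, rfl⟩ := hA
          exact wsp_le _ _ _
        exact hA.1 (disjoint_self.1 (h5.mono_right h6))
      apply hAy
      rw [h4]
      exact h2 hy
    have key : ∀ x ∈ P, (A0.map (ρ x)).map (ρ φ) = A0.map (ρ x) →
        x ∈ (P ⊓ fixr ρ A0) ⊔ Phi q P := by
      intro x hx hfix
      have h1 : x⁻¹ * (φ * x) ∈ fixr ρ A0 := by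
        rw [mem_fixr, mapmul, mapmul, hfix, ← mapmul, inv_mul_cancel, mapone]
      have h2 : x⁻¹ * (φ * x) * φ⁻¹ ∈ P ⊓ fixr ρ A0 := by
        refine ⟨?_, (fixr ρ A0).mul_mem h1 ((fixr ρ A0).inv_mem hφA0)⟩
        have h3 : x⁻¹ * (φ * x) * φ⁻¹ = x⁻¹ * (φ * x * φ⁻¹) := by group
        rw [h3]
        exact P.mul_mem (P.inv_mem hx) (hφP x hx)
      have h3 : ⁅φ, x⁻¹⁆ ∈ (P ⊓ fixr ρ A0) ⊔ Phi q P := by
        have h4 : ⁅φ, x⁻¹⁆ = (x⁻¹ * (φ * x) * φ⁻¹)⁻¹ := by
          simp only [commutatorElement_def]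
          group
        rw [h4]
        exact inv_mem (mem_sup_left h2)
      have h4 := fx_abelian (p := p) (n := 1) (by simpa using hφ)
        (not_dvd_card_of_isPGroup hpq hP) hφP hP1P hP1φ hab1 (hPφ.trans le_sup_left)
        (inv_mem hx) h3
      simpa using inv_mem h4
    obtain ⟨g, hg, hg1⟩ := SetLike.not_le_iff_exists.1 hne
    -- transitivity
    have htr : ∀ A ∈ wts ρ X U, ∃ h ∈ P, A = A0.map (ρ h) := by
      intro A hA
      have hzφ : ∀ a ∈ zpowers φ, Nz a X ∧ Inv ρ a U := by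
        intro a ha
        obtain ⟨i, rfl⟩ := (Submonoid.mem_powers_iff _ _).1 (mem_powers_iff_mem_zpowers.2 ha)
        refine ⟨hφX.pow i, ?_⟩
        have h1 : ∀ j : ℕ, Inv ρ (φ ^ j) U := by
          intro j
          induction j with
          | zero => rw [pow_zero]; intro w hw; rwa [oneap]
          | succ j ih => rw [pow_succ]; exact ih.mul hUφ
        exact h1 i
      obtain ⟨O, hO⟩ : ∃ O : Set (Submodule k V), O = {B | ∃ g ∈ P ⊔ zpowers φ,
        B = A0.map (ρ g)} := ⟨_, rfl⟩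
      have hOΩ : O ⊆ wts ρ X U := by
        rw [hO]
        rintro B ⟨g, hg, rfl⟩
        obtain ⟨h, hh, a, ha, rfl⟩ := mem_sup_zpowers hφP hg
        rw [mapmul]
        exact hPΩ h hh _ (wts_map (hzφ a ha).1 (hzφ a ha).2 hA0Ω)
      have hinv : ∀ g ∈ P ⊔ zpowers φ, Inv ρ g (sSup O : Submodule k V) := by
        intro g hg
        have h1 : (sSup O : Submodule k V) ≤ (sSup O : Submodule k V).comap (ρ g) := by
          apply sSup_le
          intro B hB b hb
          have h2 : B.map (ρ g) ∈ O := by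
            rw [hO] at hB ⊢
            obtain ⟨g', hg', rfl⟩ := hB
            exact ⟨g * g', mul_mem hg hg', (mapmul _ _ _).symm⟩
          exact (le_sSup h2 : B.map (ρ g) ≤ sSup O) ⟨b, hb, rfl⟩
        exact fun w hw => h1 hw
      have hA0O : A0 ∈ O := by
        rw [hO]
        exact ⟨1, one_mem _, (mapone A0).symm⟩
      have hOU : sSup O = U := by
        apply irr_eq hirr
        · calc sSup O ≤ sSup (wts ρ X U) := sSup_le_sSup hOΩ
            _ = U := hsup
        · intro hcon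
          apply hA0Ω.1
          rw [eq_bot_iff, ← hcon]
          exact le_sSup hA0O
        · exact fun g hg => hinv g (mem_sup_left hg)
        · exact hinv φ (mem_sup_right (mem_zpowers φ))
      have hAO : A ∈ O := by
        by_contra hcon
        have h1 := hind.disjoint_sSup hA hOΩ hcon
        rw [hOU] at h1
        have h6 : A ≤ U := by
          obtain ⟨-, χ, rfl⟩ := hA
          exact wsp_le _ _ _
        exact hA.1 (disjoint_self.1 (h1.mono_right h6))
      rw [hO] at hAO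
      obtain ⟨g, hg, rfl⟩ := hAO
      obtain ⟨h, hh, a, ha, rfl⟩ := mem_sup_zpowers hφP hg
      refine ⟨h, hh, ?_⟩
      have h1 : zpowers φ ≤ fixr ρ A0 := by
        rw [zpowers_le]
        exact hφA0
      rw [mapmul, show A0.map (ρ a) = A0 from h1 ha]
    refine ⟨g, hg, ?_⟩
    intro A hA
    rw [hFx] at hA
    obtain ⟨hAΩ, hAφ⟩ := hA
    obtain ⟨h, hh, rfl⟩ := htr A hAΩ
    rw [hMv]
    refine ⟨hPΩ g hg _ hAΩ, ?_⟩
    intro hcon
    have hcon' : (A0.map (ρ (g * h))).map (ρ φ) = A0.map (ρ (g * h)) := by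
      rw [mapmul g h]
      exact hcon
    have h1 := key (g * h) (mul_mem hg hh) hcon'
    have h2 := key h hh hAφ
    apply hg1
    have h3 := mul_mem h1 (inv_mem h2)
    rwa [mul_inv_cancel_right] at h3
  obtain ⟨g, hg, hgF⟩ := hG
  have h1 : Module.finrank k (sSup Fx : Submodule k V) ≤
      Module.finrank k (sSup Mv : Submodule k V) := by
    refine (finrank_map_le' (ρ := ρ) _ g).trans (Submodule.finrank_mono ?_)
    rw [Submodule.map_le_iff_le_comap]
    apply sSup_le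
    intro A hA a ha
    exact (le_sSup (hgF A hA) : A.map (ρ g) ≤ sSup Mv) ⟨a, ha, rfl⟩
  have h2 : Module.finrank k U ≤ Module.finrank k (sSup Fx : Submodule k V) +
      Module.finrank k (sSup Mv : Submodule k V) := by
    refine le_trans (Submodule.finrank_mono ?_)
      (Submodule.finrank_add_le_finrank_add_finrank (sSup Fx) (sSup Mv))
    rw [← hsup]
    apply sSup_le
    intro A hA
    by_cases hAφ : A.map (ρ φ) = A
    · refine le_trans (le_sSup ?_) le_sup_left
      rw [hFx]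
      exact ⟨hA, hAφ⟩
    · refine le_trans (le_sSup ?_) le_sup_right
      rw [hMv]
      exact ⟨hA, hAφ⟩
  nlinarith

/-- the kernel of `P` on `U` -/
def ker1 (ρ : Representation k E V) (P : Subgroup E) (U : Submodule k V) : Subgroup E where
  carrier := {x | x ∈ P ∧ ∀ w ∈ U, ρ x w = w}
  one_mem' := ⟨P.one_mem, fun w _ => oneap w⟩
  mul_mem' := by
    rintro a b ⟨ha, ha'⟩ ⟨hb, hb'⟩
    refine ⟨P.mul_mem ha hb, fun w hw => ?_⟩
    rw [mulap, hb' w hw, ha' w hw]
  inv_mem' := by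
    rintro a ⟨ha, ha'⟩
    refine ⟨P.inv_mem ha, fun w hw => ?_⟩
    have h1 := congrArg (ρ a⁻¹) (ha' w hw)
    rw [← mulap, inv_mul_cancel, oneap] at h1
    exact h1.symm

theorem mem_ker1 {P : Subgroup E} {U : Submodule k V} {x : E} :
    x ∈ ker1 ρ P U ↔ x ∈ P ∧ ∀ w ∈ U, ρ x w = w := Iff.rfl

theorem ker1_nz {P : Subgroup E} {U : Submodule k V} {g : E} (hg : Nz g P) (hU : Inv ρ g U) :
    Nz g (ker1 ρ P U) := by
  rintro x ⟨hx, hx'⟩
  refine ⟨hg x hx, fun w hw => ?_⟩
  rw [mulap, mulap, hx' _ (hU.inv w hw), ← mulap, mul_inv_cancel, oneap]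

theorem comm_iff {U : Submodule k V} {a b : E} (ha : Inv ρ a U) (hb : Inv ρ b U) :
    (∀ w ∈ U, ρ ⁅a, b⁆ w = w) ↔ ∀ w ∈ U, ρ a (ρ b w) = ρ b (ρ a w) := by
  constructor
  · intro h w hw
    have h1 := h _ (hb _ (ha w hw))
    have h2 : ⁅a, b⁆ * (b * a) = a * b := by
      simp only [commutatorElement_def]
      group
    rw [← mulap b a w, ← mulap, h2, mulap, mulap] at h1
    exact h1
  · intro h w hw
    have h1 := h _ (ha.inv _ (hb.inv w hw))
    have h2 : ⁅a, b⁆ = a * (b * (a⁻¹ * b⁻¹)) := by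
      simp only [commutatorElement_def]
      group
    rw [h2, mulap, mulap, mulap, h1, ← mulap a, mul_inv_cancel, oneap, ← mulap b, mul_inv_cancel,
      oneap]

/-- the centre of `P` on `U` -/
def cen (ρ : Representation k E V) (P : Subgroup E) (U : Submodule k V) (hU : InvS ρ P U) :
    Subgroup E where
  carrier := {x | x ∈ P ∧ ∀ y ∈ P, ∀ w ∈ U, ρ x (ρ y w) = ρ y (ρ x w)}
  one_mem' := ⟨P.one_mem, fun y _ w _ => by rw [oneap, oneap]⟩
  mul_mem' := by
    rintro a b ⟨ha, ha'⟩ ⟨hb, hb'⟩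
    refine ⟨P.mul_mem ha hb, fun y hy w hw => ?_⟩
    rw [mulap, mulap, hb' y hy w hw, ha' y hy _ (hU b hb w hw)]
  inv_mem' := by
    rintro a ⟨ha, ha'⟩
    refine ⟨P.inv_mem ha, fun y hy w hw => ?_⟩
    have h1 := ha' y hy _ ((hU a ha).inv w hw)
    rw [← mulap a a⁻¹, mul_inv_cancel, oneap] at h1
    rw [← h1, ← mulap, inv_mul_cancel, oneap]

theorem mem_cen {P : Subgroup E} {U : Submodule k V} {hU : InvS ρ P U} {x : E} :
    x ∈ cen ρ P U hU ↔ x ∈ P ∧ ∀ y ∈ P, ∀ w ∈ U, ρ x (ρ y w) = ρ y (ρ x w) := Iff.rfl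

theorem cen_nz {P : Subgroup E} {U : Submodule k V} {hU : InvS ρ P U} {g : E} (hg : Nz g P)
    (hgU : Inv ρ g U) : Nz g (cen ρ P U hU) := by
  rintro x ⟨hx, hx'⟩
  refine ⟨hg x hx, fun y hy w hw => ?_⟩
  have h1 := hx' _ (hg.inv y hy) _ (hgU.inv w hw)
  have h2 := congrArg (ρ g) h1
  simp only [← mulap] at h2 ⊢
  have e1 : g * (x * (g⁻¹ * y * g⁻¹⁻¹ * g⁻¹)) = g * x * g⁻¹ * y := by group
  have e2 : g * (g⁻¹ * y * g⁻¹⁻¹ * (x * g⁻¹)) = y * (g * x * g⁻¹) := by group
  rw [e1, e2] at h2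
  exact h2

/-- The bound for one irreducible `P ∪ {φ}`-subspace. -/
theorem irr_bound [IsAlgClosed k] [FiniteDimensional k V] (hVL : Stmt_VL) (hNUM : Stmt_NUM)
    {p q : ℕ} [hp : Fact p.Prime]
    [hq : Fact q.Prime] (hpq : p ≠ q) (hpk : (p : k) ≠ 0) (hqk : (q : k) ≠ 0) {φ : E}
    (hφ : φ ^ p = 1)
    {P : Subgroup E} (hP : IsPGroup q P) (hφP : Nz φ P) (hPφ : P ≤ cm P φ) {U : Submodule k V}
    (hirr : Irr ρ ((P : Set E) ∪ {φ}) U) (hfix : ∃ u ∈ U, u ≠ 0 ∧ ρ φ u = u)
    (hsm : ∀ u ∈ U, sm ρ P u = 0) :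
    Module.finrank k U ≤
      2 * p * Module.finrank k (U ⊓ Module.End.eigenspace (ρ φ) 1 : Submodule k V) := by
  classical
  have hUP := irr_P hirr
  have hUφ := irr_φ hirr
  have hPk : (Nat.card P : k) ≠ 0 := card_ne_zero_of_isPGroup hP hqk
  have hNP : ker1 ρ P U ≤ P := fun x hx => hx.1
  have hNφ : Nz φ (ker1 ρ P U) := ker1_nz hφP hUφ
  have hPN : NzS P (ker1 ρ P U) := fun g hg => ker1_nz (Nz.of_mem hg) (hUP g hg)
  by_cases hcase : ∀ X : Subgroup E, ker1 ρ P U ≤ X → X ≤ P → Nz φ X → NzS P X →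
      (∀ a ∈ X, ∀ b ∈ X, ⁅a, b⁆ ∈ ker1 ρ P U) → ∀ a ∈ X, ∀ b ∈ P, ⁅a, b⁆ ∈ ker1 ρ P U
  swap
  · push Not at hcase
    obtain ⟨X, -, hXP, hφX, hPX, hab, a, ha, b, hb, hnab⟩ := hcase
    have habU : AbOn ρ X U := by
      intro x hx y hy
      exact (comm_iff (hUP x (hXP hx)) (hUP y (hXP hy))).1 (hab x hx y hy).2
    refine case1 hpq hqk hφ hP hφP hPφ hirr hXP hφX hPX habU ?_
    by_contra hcon
    push Not at hcon
    apply hnab
    refine ⟨?_, ?_⟩
    · rw [commutatorElement_def]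
      exact P.mul_mem (P.mul_mem (P.mul_mem (hXP ha) hb) (P.inv_mem (hXP ha))) (P.inv_mem hb)
    · rw [comm_iff (hUP a (hXP ha)) (hUP b hb)]
      have hXk : (Nat.card X : k) ≠ 0 := card_ne_zero_of_isPGroup (hP.to_le hXP) hqk
      exact comm_of_wts_fixed (hPX b hb) (hUP b hb)
        (wts_sup hXk (fun g hg => hUP g (hXP hg)) habU) (hcon b hb) a ha
  -- class two
  have hcl : ∀ a ∈ P, ∀ b ∈ P, ∀ c ∈ P, ⁅⁅a, b⁆, c⁆ ∈ ker1 ρ P U :=
    class_two hP hNP hPN (A := {φ}) (by
      rintro g hg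
      rw [Set.mem_singleton_iff] at hg
      rw [hg]
      exact ⟨hφP, hNφ⟩) (fun X h1 h2 h3 h4 h5 => hcase X h1 h2 (h3 φ rfl) h4 h5)
  obtain ⟨Z, hZ⟩ : ∃ Z, Z = cen ρ P U hUP := ⟨_, rfl⟩
  have hZP : Z ≤ P := by rw [hZ]; exact fun x hx => hx.1
  have hZφ : Nz φ Z := by rw [hZ]; exact cen_nz hφP hUφ
  have hZPn : NzS P Z := fun g hg => by rw [hZ]; exact cen_nz (Nz.of_mem hg) (hUP g hg)
  have hZab : AbOn ρ Z U := by
    intro x hx y hy
    rw [hZ] at hx
    exact hx.2 y (hZP hy)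
  have hZk : (Nat.card Z : k) ≠ 0 := card_ne_zero_of_isPGroup (hP.to_le hZP) hqk
  have hcommZ : ∀ x ∈ P, ∀ y ∈ P, ⁅x, y⁆ ∈ Z := by
    intro x hx y hy
    have hxy : ⁅x, y⁆ ∈ P := by
      rw [commutatorElement_def]
      exact P.mul_mem (P.mul_mem (P.mul_mem hx hy) (P.inv_mem hx)) (P.inv_mem hy)
    rw [hZ]
    refine ⟨hxy, fun c hc => ?_⟩
    exact (comm_iff (hUP _ hxy) (hUP c hc)).1 (hcl x hx y hy c hc).2
  have hind := wts_indep (ρ := ρ) Z U
  have hsup : sSup (wts ρ Z U) = U := wts_sup hZk (fun g hg => hUP g (hZP hg)) hZab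
  have hPfix : ∀ g ∈ P, ∀ A ∈ wts ρ Z U, A.map (ρ g) = A := by
    intro g hg A hA
    refine wts_fixed_of_comm (hUP g hg) ?_ hA
    intro x hx w hw
    rw [hZ] at hx
    exact hx.2 g hg w hw
  by_cases hm : ∃ A ∈ wts ρ Z U, A.map (ρ φ) ≠ A
  · -- all weight spaces are moved by `φ`
    obtain ⟨A0, hA0, hA0φ⟩ := hm
    obtain ⟨Mv, hMv⟩ : ∃ Mv : Set (Submodule k V), Mv = {A | A ∈ wts ρ Z U ∧ A.map (ρ φ) ≠ A} :=
      ⟨_, rfl⟩
    have hMvΩ : Mv ⊆ wts ρ Z U := by
      rw [hMv]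
      exact fun A hA => hA.1
    have hstab : ∀ A ∈ Mv, A.map (ρ φ) ∈ Mv := by
      intro A hA
      rw [hMv] at hA ⊢
      exact ⟨wts_map hZφ hUφ hA.1, fun h => hA.2 (map_inj h)⟩
    have hMU : sSup Mv = U := by
      apply irr_eq hirr
      · calc sSup Mv ≤ sSup (wts ρ Z U) := sSup_le_sSup hMvΩ
          _ = U := hsup
      · intro hcon
        apply hA0.1
        rw [eq_bot_iff, ← hcon]
        apply le_sSup
        rw [hMv]
        exact ⟨hA0, hA0φ⟩
      · intro g hg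
        have h1 : (sSup Mv : Submodule k V) ≤ (sSup Mv : Submodule k V).comap (ρ g) := by
          apply sSup_le
          intro B hB b hb
          have h2 : ρ g b ∈ B.map (ρ g) := ⟨b, hb, rfl⟩
          rw [hPfix g hg B (hMvΩ hB)] at h2
          exact (le_sSup hB : B ≤ sSup Mv) h2
        exact fun w hw => h1 hw
      · have h1 : (sSup Mv : Submodule k V) ≤ (sSup Mv : Submodule k V).comap (ρ φ) := by
          apply sSup_le
          intro B hB b hb
          exact (le_sSup (hstab B hB) : B.map (ρ φ) ≤ sSup Mv) ⟨b, hb, rfl⟩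
        exact fun w hw => h1 hw
    have h1 := free_bound (ρ := ρ) hp.out hφ (hind.mono hMvΩ) hstab (by
      intro A hA
      rw [hMv] at hA
      exact hA.2)
    rw [hMU] at h1
    have h2 : p * Module.finrank k (U ⊓ Module.End.eigenspace (ρ φ) 1 : Submodule k V) ≤
      2 * p * Module.finrank k (U ⊓ Module.End.eigenspace (ρ φ) 1 : Submodule k V) := by
      apply Nat.mul_le_mul_right
      omega
    exact h1.trans h2
  · -- `Z` acts by scalars
    push Not at hm
    have hUne : U ≠ ⊥ := hirr.1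
    obtain ⟨A, hA⟩ : (wts ρ Z U).Nonempty := by
      rw [Set.nonempty_iff_ne_empty]
      intro hcon
      rw [hcon, sSup_empty] at hsup
      exact hUne hsup.symm
    have hAU : A = U := by
      refine irr_eq hirr ?_ hA.1 (fun g hg => inv_of_fixr (hPfix g hg A hA))
        (inv_of_fixr (hm A hA))
      obtain ⟨-, χ, rfl⟩ := hA
      exact wsp_le _ _ _
    have hZs : ∀ x ∈ Z, Scal ρ x U := by
      obtain ⟨-, χ, hχ⟩ := hA
      intro x hx
      refine ⟨χ x, fun w hw => ?_⟩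
      rw [← hAU, hχ] at hw
      exact hw.2 x hx
    have hsZ : ∀ x ∈ P, Scal ρ x U → x ∈ Z := by
      rintro x hx ⟨c, hc⟩
      rw [hZ]
      refine ⟨hx, fun y hy w hw => ?_⟩
      rw [hc _ (hUP y hy w hw), hc w hw, map_smul]
    have hn : NeZero (p : k) := ⟨hpk⟩
    have hpp : NeZero p := ⟨hp.out.ne_zero⟩
    obtain ⟨h1, h2, h3, h4⟩ := hVL k E V ρ P φ 1 p U hp.out.pos hpk hPk one_ne_zero hφP hUP hUφ
      hirr (fun x hx y hy => hZs _ (hcommZ x hx y hy)) (by
        intro x hx hxy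
        apply hZs
        rw [hZ]
        exact ⟨hx, fun y hy => (comm_iff (hUP x hx) (hUP y hy)).1 (hxy y hy)⟩) (by
        intro w _
        rw [one_pow, one_smul, hφ, oneap]) (by
        intro i h0 hip x hx hsc
        apply hZs
        have hzp : zpowers (φ ^ i) = zpowers φ := by
          apply le_antisymm
          · rw [zpowers_le]
            exact pow_mem (mem_zpowers φ) i
          · rw [zpowers_le]
            exact coprime_mem hp.out hφ h0 hip (mem_zpowers _)
        have hcm : cm P (φ ^ i) = cm P φ := by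
          unfold cm
          rw [hzp]
        have hin : ⁅φ ^ i, x⁆ ∈ P := by
          have h5 : ⁅φ ^ i, x⁆ = (φ ^ i * x * (φ ^ i)⁻¹) * x⁻¹ := by
            simp only [commutatorElement_def]
          rw [h5]
          exact P.mul_mem (hφP.pow i x hx) (P.inv_mem hx)
        refine fx_abelian (p := p) (n := 1) (φ := φ ^ i) (by
          rw [pow_one, ← pow_mul, mul_comm, pow_mul, hφ, one_pow])
          (not_dvd_card_of_isPGroup hpq hP) (hφP.pow i) hZP (hZφ.pow i)
          hcommZ (by rw [hcm]; exact hPφ.trans le_sup_left) hx (hsZ _ hin hsc))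
    have he1 : (1 : k) • ρ φ = ρ φ := one_smul _ _
    rw [he1] at h3 h4
    obtain ⟨ζ, hζ⟩ := HasEnoughRootsOfUnity.exists_primitiveRoot k p
    have hcard := hζ.card_nthRootsFinset
    obtain ⟨i0, hi0, a, ha1, ha2⟩ := hNUM k (Polynomial.nthRootsFinset p (1 : k))
      (fun ψ => Module.finrank k (U ⊓ Module.End.eigenspace (ρ φ) ψ : Submodule k V))
      (Module.finrank k U) (by
        rw [← Finset.card_pos, hcard]
        exact hp.out.pos) h3 (by
        rw [hcard]
        exact h4)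
    have h1mem : (1 : k) ∈ Polynomial.nthRootsFinset p (1 : k) := by
      rw [Polynomial.mem_nthRootsFinset hp.out.pos, one_pow]
    have hm1 : 1 ≤ Module.finrank k (U ⊓ Module.End.eigenspace (ρ φ) 1 : Submodule k V) := by
      rw [Submodule.one_le_finrank_iff]
      obtain ⟨u, hu, hu0, huφ⟩ := hfix
      intro hcon
      apply hu0
      have h5 : u ∈ (U ⊓ Module.End.eigenspace (ρ φ) 1 : Submodule k V) := by
        rw [Submodule.mem_inf, Module.End.mem_eigenspace_iff, one_smul]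
        exact ⟨hu, huφ⟩
      rw [hcon, Submodule.mem_bot] at h5
      exact h5
    -- the sum
    have hsum : Module.finrank k U = (p - 1) * a +
        Module.finrank k (U ⊓ Module.End.eigenspace (ρ φ) i0 : Submodule k V) := by
      rw [← h3, ← Finset.sum_erase_add _ _ hi0]
      congr 1
      rw [Finset.sum_congr rfl (g := fun _ => a) (fun i hi => by
        rw [Finset.mem_erase] at hi
        exact ha1 i hi.2 hi.1), Finset.sum_const, Finset.card_erase_of_mem hi0, hcard,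
        smul_eq_mul]
    have hp1 : (p - 1) * a + a = p * a := by
      have := hp.out.pos
      calc (p - 1) * a + a = (p - 1 + 1) * a := by ring
        _ = p * a := by rw [Nat.sub_add_cancel this]
    have hp2 := hp.out.two_le
    by_cases h10 : (1 : k) = i0
    · rw [← h10] at hsum ha2
      obtain ⟨m, hm'⟩ : ∃ m, m = Module.finrank k
        (U ⊓ Module.End.eigenspace (ρ φ) 1 : Submodule k V) := ⟨_, rfl⟩
      rw [← hm'] at hsum ha2 hm1 ⊢
      rcases ha2 with ha2 | ha2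
      · have : p * a ≤ p * m := Nat.mul_le_mul_left p (by omega)
        nlinarith
      · have h5 : p * a = p * m + p := by rw [← ha2]; ring
        have h6 : p * 1 ≤ p * m := Nat.mul_le_mul_left p hm1
        nlinarith
    · have h5 := ha1 1 h1mem h10
      rw [h5] at hm1 ⊢
      have h6 : p * 1 ≤ p * a := Nat.mul_le_mul_left p hm1
      rcases ha2 with ha2 | ha2
      · rw [ha2] at hsum
        nlinarith
      · nlinarith

end

end DBaux

open DBaux

/-- **DB** -/
theorem stmt_DB (hVL : Stmt_VL) (hNUM : Stmt_NUM) : Stmt_DB := by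
  intro k E V _ _ _ _ _ _ _ ρ p q φ P W hp hq hpq hpk hqk hφ hP hφP hPφ hWP hWφ hU
  have hpf : Fact p.Prime := ⟨hp⟩
  have hqf : Fact q.Prime := ⟨hq⟩
  have hG := card_sup (k := k) hpq hpk hqk hφ hP hφP
  have hPk : (Nat.card P : k) ≠ 0 := card_ne_zero_of_isPGroup hP hqk
  have key : ∀ W' : Submodule k V, W' ≤ W → InvS ρ P W' → Inv ρ φ W' →
      (∀ u ∈ W', sm ρ P u = 0) → Module.finrank k W' ≤
      2 * p * Module.finrank k (W' ⊓ Module.End.eigenspace (ρ φ) 1 : Submodule k V) := by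
    intro W'
    induction W' using WellFoundedLT.induction with
    | ind W' ih =>
      intro hW' h1 h2 h3
      by_cases hbot : W' = ⊥
      · subst hbot
        simp
      obtain ⟨U, hUW', hirr⟩ := exists_irr (ρ := ρ) ((P : Set E) ∪ {φ}) hbot (by
        rintro g (hg | hg)
        · exact h1 g hg
        · rw [Set.mem_singleton_iff] at hg
          rw [hg]
          exact h2)
      have hUP := irr_P hirr
      have hUφ := irr_φ hirr
      obtain ⟨U', hU'W', hU'i, hsup, hinf⟩ := exists_compl hG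
        (InvS.sup h1 (InvS.zpowers h2)) (InvS.sup hUP (InvS.zpowers hUφ)) hUW'
      have hlt : U' < W' := by
        refine lt_of_le_of_ne hU'W' ?_
        rintro rfl
        apply hirr.1
        rw [← hinf]
        exact (inf_eq_left.2 hUW').symm
      have hb1 := ih U' hlt (hU'W'.trans hW') (fun g hg => hU'i g (mem_sup_left hg))
        (hU'i φ (mem_sup_right (mem_zpowers φ))) (fun u hu => h3 u (hU'W' hu))
      have hb2 := irr_bound hVL hNUM hpq hpk hqk hφ hP hφP hPφ hirr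
        (hU U (hUW'.trans hW') hirr) (fun u hu => h3 u (hUW' hu))
      have hd1 : Module.finrank k W' ≤ Module.finrank k U + Module.finrank k U' := by
        rw [← hsup]
        exact Submodule.finrank_add_le_finrank_add_finrank U U'
      have hd2 : Module.finrank k (U ⊓ Module.End.eigenspace (ρ φ) 1 : Submodule k V) +
          Module.finrank k (U' ⊓ Module.End.eigenspace (ρ φ) 1 : Submodule k V) ≤
          Module.finrank k (W' ⊓ Module.End.eigenspace (ρ φ) 1 : Submodule k V) := by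
        rw [← Submodule.finrank_sup_add_finrank_inf_eq]
        have h4 : (U ⊓ Module.End.eigenspace (ρ φ) 1) ⊓ (U' ⊓ Module.End.eigenspace (ρ φ) 1) =
            (⊥ : Submodule k V) := by
          rw [eq_bot_iff, ← hinf]
          exact inf_le_inf inf_le_left inf_le_left
        rw [h4, finrank_bot, add_zero]
        apply Submodule.finrank_mono
        exact sup_le (inf_le_inf_right _ hUW') (inf_le_inf_right _ hU'W')
      nlinarith
  have hker : ∀ g : E, Nz g P → Inv ρ g (LinearMap.ker (sm ρ P)) := by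
    intro g hg w hw
    rw [LinearMap.mem_ker] at hw ⊢
    rw [← sm_comm hg, hw, map_zero]
  refine (key (W ⊓ LinearMap.ker (sm ρ P)) inf_le_left ?_ ?_ ?_).trans ?_
  · rintro g hg w ⟨hw1, hw2⟩
    exact ⟨hWP g hg w hw1, hker g (Nz.of_mem hg) w hw2⟩
  · rintro w ⟨hw1, hw2⟩
    exact ⟨hWφ w hw1, hker φ hφP w hw2⟩
  · rintro u ⟨-, hu⟩
    exact hu
  · apply Nat.mul_le_mul_left
    apply Submodule.finrank_mono
    exact inf_le_inf_right _ inf_le_left

end Pool.FH
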