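import Mathlib

/-!
# MP_4c212b_al : definitions and first coprime-action lemmas

Everything lives in finite groups `E : Type`.  `φ` is an element of prime order (or `φ ^ p = 1`).
-/

set_option autoImplicit false

open Subgroup
open scoped commutatorElement

namespace Pool.FH

section Basic

variable {E : Type} [Group E]

/-- `g` normalises `H` (all groups are finite). -/
def Nz (g : E) (H : Subgroup E) : Prop := ∀ x ∈ H, g * x * g⁻¹ ∈ H

/-- `P` normalises `H`. -/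
def NzS (P H : Subgroup E) : Prop := ∀ g ∈ P, Nz g H

/-- `[Q, φ]` -/
def cm (Q : Subgroup E) (φ : E) : Subgroup E := ⁅Q, zpowers φ⁆

/-- `C_Q(φ)` -/
def fx (Q : Subgroup E) (φ : E) : Subgroup E := Q ⊓ centralizer {φ}

/-- `C_Q(P)` -/
def fxS (Q P : Subgroup E) : Subgroup E := Q ⊓ centralizer (P : Set E)

/-- The Frattini subgroup of a finite `t`-group `Y`: generated by commutators and `t`-th powers. -/
def Phi (t : ℕ) (Y : Subgroup E) : Subgroup E :=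
  closure ({x | ∃ a ∈ Y, ∃ b ∈ Y, x = ⁅a, b⁆} ∪ {x | ∃ a ∈ Y, x = a ^ t})

/-- `⟨ g k g⁻¹ : g ∈ Q, k ∈ K ⟩` -/
def gen (Q K : Subgroup E) : Subgroup E := closure {x | ∃ g ∈ Q, ∃ k ∈ K, x = g * k * g⁻¹}

/-- The largest normal `t`-subgroup of `G`. -/
def Op (t : ℕ) (G : Subgroup E) : Subgroup E :=
  sSup {N | N ≤ G ∧ NzS G N ∧ IsPGroup t N}

/-- The Fitting subgroup of `G`. -/
def Ft (G : Subgroup E) : Subgroup E := ⨆ (t : ℕ) (_ : t.Prime), Op t G

theorem mem_fx {Q : Subgroup E} {φ x : E} : x ∈ fx Q φ ↔ x ∈ Q ∧ φ * x = x * φ := by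
  simp only [fx, mem_inf, mem_centralizer_iff, Set.mem_singleton_iff, forall_eq]

theorem mem_fxS {Q P : Subgroup E} {x : E} : x ∈ fxS Q P ↔ x ∈ Q ∧ ∀ a ∈ P, a * x = x * a := by
  simp only [fxS, mem_inf, mem_centralizer_iff, SetLike.mem_coe]

theorem fx_le {Q : Subgroup E} {φ : E} : fx Q φ ≤ Q := inf_le_left

theorem Nz.one (H : Subgroup E) : Nz 1 H := fun x hx => by simpa using hx

theorem Nz.mul {g h : E} {H : Subgroup E} (hg : Nz g H) (hh : Nz h H) : Nz (g * h) H := by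
  intro x hx
  have := hg _ (hh x hx)
  simpa [mul_assoc] using this

theorem Nz.pow {g : E} {H : Subgroup E} (hg : Nz g H) (n : ℕ) : Nz (g ^ n) H := by
  induction n with
  | zero => simpa using Nz.one H
  | succ n ih => rw [pow_succ]; exact ih.mul hg

theorem Nz.inv [Finite E] {g : E} {H : Subgroup E} (hg : Nz g H) : Nz g⁻¹ H := by
  have h : g ^ (orderOf g - 1) = g⁻¹ := by
    have h1 : 0 < orderOf g := orderOf_pos g
    rw [eq_inv_iff_mul_eq_one, ← pow_succ]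
    rw [Nat.sub_add_cancel h1, pow_orderOf_eq_one]
  rw [← h]; exact hg.pow _

theorem Nz.zpow [Finite E] {g : E} {H : Subgroup E} (hg : Nz g H) (n : ℤ) : Nz (g ^ n) H := by
  cases n with
  | ofNat n => simpa using hg.pow n
  | negSucc n => rw [zpow_negSucc]; exact (hg.pow _).inv

theorem Nz.mem_iff [Finite E] {g x : E} {H : Subgroup E} (hg : Nz g H) :
    g * x * g⁻¹ ∈ H ↔ x ∈ H := by
  constructor
  · intro h
    have := hg.inv _ h
    simpa [mul_assoc] using this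
  · exact hg x

theorem Nz.of_mem {g : E} {H : Subgroup E} (hg : g ∈ H) : Nz g H := fun _ hx =>
  H.mul_mem (H.mul_mem hg hx) (H.inv_mem hg)

theorem Nz.of_normal (g : E) (H : Subgroup E) [hH : H.Normal] : Nz g H := fun _ hx =>
  hH.conj_mem _ hx _

theorem Nz.inf {g : E} {H K : Subgroup E} (h1 : Nz g H) (h2 : Nz g K) : Nz g (H ⊓ K) :=
  fun x hx => ⟨h1 x hx.1, h2 x hx.2⟩

theorem Nz.closure {g : E} {s : Set E} (h : ∀ x ∈ s, g * x * g⁻¹ ∈ closure s) :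
    Nz g (closure s) := by
  intro x hx
  induction hx using closure_induction with
  | mem x hx => exact h x hx
  | one => simp
  | mul x y _ _ hx hy =>
    have := (Subgroup.closure s).mul_mem hx hy
    simpa [mul_assoc] using this
  | inv x _ hx =>
    have := (Subgroup.closure s).inv_mem hx
    simpa [mul_assoc] using this

theorem Nz.sup {g : E} {H K : Subgroup E} (h1 : Nz g H) (h2 : Nz g K) : Nz g (H ⊔ K) := by
  rw [← Subgroup.closure_eq H, ← Subgroup.closure_eq K, ← Subgroup.closure_union]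
  apply Nz.closure
  rintro x (hx | hx)
  · exact subset_closure (Or.inl (h1 x hx))
  · exact subset_closure (Or.inr (h2 x hx))


/-- Conjugation action of `P` on a coset `g N`. -/
theorem cp_fix [Finite E] {p : ℕ} [Fact p.Prime] {P N : Subgroup E} (hP : IsPGroup p P)
    (hN : ¬ p ∣ Nat.card N) (hPN : NzS P N) {g : E}
    (hg : ∀ a ∈ P, g⁻¹ * (a * g * a⁻¹) ∈ N) :
    ∃ n ∈ N, ∀ a ∈ P, a * (g * n) = (g * n) * a := by
  classical
  let α := {x : E // g⁻¹ * x ∈ N}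
  let _ : MulAction P α :=
    { smul := fun a x => ⟨a.1 * x.1 * a.1⁻¹, by
        have h1 := hg a.1 a.2
        have h2 := hPN a.1 a.2 _ x.2
        have h3 := N.mul_mem h1 h2
        have h4 : g⁻¹ * (a.1 * g * a.1⁻¹) * (a.1 * (g⁻¹ * x.1) * a.1⁻¹) =
          g⁻¹ * (a.1 * x.1 * a.1⁻¹) := by group
        rwa [h4] at h3⟩
      one_smul := fun x => Subtype.ext (by
        change (1 : E) * x.1 * (1 : E)⁻¹ = x.1
        simp)
      mul_smul := fun a b x => Subtype.ext (by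
        change (a.1 * b.1) * x.1 * (a.1 * b.1)⁻¹ = a.1 * (b.1 * x.1 * b.1⁻¹) * a.1⁻¹
        group) }
  have e : α ≃ N :=
    { toFun := fun x => ⟨g⁻¹ * x.1, x.2⟩
      invFun := fun n => ⟨g * n.1, by simp⟩
      left_inv := fun x => Subtype.ext (by simp)
      right_inv := fun n => Subtype.ext (by simp) }
  have hα : ¬ p ∣ Nat.card α := by rwa [Nat.card_congr e]
  obtain ⟨x, hx⟩ := hP.nonempty_fixed_point_of_prime_not_dvd_card α hα
  refine ⟨g⁻¹ * x.1, x.2, fun a ha => ?_⟩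
  have h1 := congrArg Subtype.val (hx ⟨a, ha⟩)
  change a * x.1 * a⁻¹ = x.1 at h1
  rw [mul_inv_cancel_left]
  rw [mul_inv_eq_iff_eq_mul] at h1
  exact h1

theorem isPGroup_zpowers {p : ℕ} {x : E} {n : ℕ} (h : x ^ p ^ n = 1) :
    IsPGroup p (zpowers x) := by
  rintro ⟨y, k, rfl⟩
  refine ⟨n, Subtype.ext ?_⟩
  change (x ^ k) ^ p ^ n = 1
  rw [← zpow_natCast, ← zpow_mul, mul_comm, zpow_mul, zpow_natCast, h, one_zpow]

theorem cp_fix1 [Finite E] {p : ℕ} [Fact p.Prime] {φ : E} {N : Subgroup E} (hφ : φ ^ p = 1)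
    (hN : ¬ p ∣ Nat.card N) (hPN : Nz φ N) {g : E}
    (hg : g⁻¹ * (φ * g * φ⁻¹) ∈ N) : ∃ n ∈ N, φ * (g * n) = (g * n) * φ := by
  have hP : IsPGroup p (zpowers φ) := isPGroup_zpowers (n := 1) (by simpa using hφ)
  have key : ∀ k : ℕ, g⁻¹ * (φ ^ k * g * (φ ^ k)⁻¹) ∈ N := by
    intro k
    induction k with
    | zero => simp
    | succ k ih =>
      have h1 := hPN _ ih
      have h2 := N.mul_mem hg h1
      have h3 : g⁻¹ * (φ * g * φ⁻¹) * (φ * (g⁻¹ * (φ ^ k * g * (φ ^ k)⁻¹)) * φ⁻¹) =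
        g⁻¹ * (φ ^ (k + 1) * g * (φ ^ (k + 1))⁻¹) := by
          rw [pow_succ']; group
      rwa [h3] at h2
  obtain ⟨n, hn, h⟩ := cp_fix hP hN (P := zpowers φ) (g := g)
    (by
      rintro _ ⟨k, rfl⟩
      exact hPN.zpow k)
    (by
      intro a ha
      obtain ⟨k, rfl⟩ := (Submonoid.mem_powers_iff _ _).1
        (mem_powers_iff_mem_zpowers.2 ha)
      exact key k)
  exact ⟨n, hn, h φ (mem_zpowers φ)⟩


theorem Nz.le_normalizer [Finite E] {H N : Subgroup E} (h : NzS H N) :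
    H ≤ normalizer (N : Set E) := by
  intro g hg
  rw [mem_normalizer_iff]
  intro x
  exact ((h g hg).mem_iff).symm

theorem Op_mem [Finite E] (t : ℕ) [Fact t.Prime] (G : Subgroup E) :
    Op t G ∈ {N | N ≤ G ∧ NzS G N ∧ IsPGroup t N} := by
  set A : Set (Subgroup E) := {N | N ≤ G ∧ NzS G N ∧ IsPGroup t N} with hA
  have hne : A.Nonempty := ⟨⊥, bot_le, fun g _ x hx => by
    rw [mem_bot] at hx ⊢; subst hx; simp, IsPGroup.of_bot⟩
  obtain ⟨N, hN⟩ := A.toFinite.exists_maximal hne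
  have h : Op t G = N := by
    apply le_antisymm
    · apply sSup_le
      intro M hM
      have h1 : M ⊔ N ∈ A := by
        refine ⟨sup_le hM.1 hN.1.1, fun g hg => (hM.2.1 g hg).sup (hN.1.2.1 g hg), ?_⟩
        apply IsPGroup.to_sup_of_normal_right' hM.2.2 hN.1.2.2
        apply Nz.le_normalizer
        intro g hg
        exact hN.1.2.1 g (hM.1 hg)
      exact le_sup_left.trans (hN.2 h1 le_sup_right)
    · exact le_sSup hN.1
  rw [h]; exact hN.1

theorem Op_le [Finite E] (t : ℕ) [Fact t.Prime] (G : Subgroup E) : Op t G ≤ G := (Op_mem t G).1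

theorem Op_isP [Finite E] (t : ℕ) [Fact t.Prime] (G : Subgroup E) : IsPGroup t (Op t G) :=
  (Op_mem t G).2.2

theorem le_Op [Finite E] {t : ℕ} {G N : Subgroup E} (h1 : N ≤ G) (h2 : NzS G N)
    (h3 : IsPGroup t N) : N ≤ Op t G := le_sSup ⟨h1, h2, h3⟩

theorem map_conj_mem {g x : E} {N : Subgroup E} (hx : x ∈ N) :
    g * x * g⁻¹ ∈ N.map (MulAut.conj g).toMonoidHom := by
  exact ⟨x, hx, by simp⟩

theorem Op_nz [Finite E] (t : ℕ) [Fact t.Prime] {G : Subgroup E} {g : E} (hg : Nz g G) :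
    Nz g (Op t G) := by
  have h := Op_mem t G
  have h2 : (Op t G).map (MulAut.conj g).toMonoidHom ≤ Op t G := by
    apply le_Op
    · rintro _ ⟨x, hx, rfl⟩
      simpa using hg x (h.1 hx)
    · rintro c hc _ ⟨x, hx, rfl⟩
      refine ⟨g⁻¹ * c * g * x * (g⁻¹ * c * g)⁻¹, ?_, ?_⟩
      · apply h.2.1 _ _ _ hx
        simpa using hg.inv c hc
      · simp [mul_assoc]
    · exact h.2.2.map _
  intro x hx
  exact h2 (map_conj_mem hx)

theorem Ft_le [Finite E] (G : Subgroup E) : Ft G ≤ G := by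
  apply iSup₂_le
  intro t ht
  have : Fact t.Prime := ⟨ht⟩
  exact Op_le t G

theorem Nz.iSup {ι : Sort*} {g : E} {H : ι → Subgroup E} (h : ∀ i, Nz g (H i)) :
    Nz g (⨆ i, H i) := by
  rw [Subgroup.iSup_eq_closure]
  apply Nz.closure
  intro x hx
  obtain ⟨i, hi⟩ := Set.mem_iUnion.1 hx
  exact subset_closure (Set.mem_iUnion.2 ⟨i, h i x hi⟩)

theorem Ft_nz [Finite E] {G : Subgroup E} {g : E} (hg : Nz g G) : Nz g (Ft G) := by
  apply Nz.iSup
  intro t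
  apply Nz.iSup
  intro ht
  have : Fact t.Prime := ⟨ht⟩
  exact Op_nz t hg

theorem Op_le_Ft [Finite E] (t : ℕ) [ht : Fact t.Prime] (G : Subgroup E) : Op t G ≤ Ft G :=
  le_iSup₂_of_le t ht.out le_rfl

theorem Ft_normal [Finite E] (G : Subgroup E) [G.Normal] : (Ft G).Normal :=
  ⟨fun x hx g => Ft_nz (Nz.of_normal g G) x hx⟩


/-- Lifting of `φ`-fixed elements through a homomorphism with kernel of order prime to `p`. -/
theorem fx_lift {E' : Type} [Group E'] [Finite E] (f : E →* E') {p : ℕ} [Fact p.Prime] {φ : E}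
    (hφ : φ ^ p = 1) (hN : ¬ p ∣ Nat.card f.ker) {c : E} (hc : f φ * f c = f c * f φ) :
    ∃ n ∈ f.ker, φ * (c * n) = (c * n) * φ := by
  apply cp_fix1 hφ hN (Nz.of_normal φ f.ker)
  rw [MonoidHom.mem_ker]
  simp only [map_mul, map_inv]
  rw [hc]; group

/-- Lifting of `s`-elements. -/
theorem lift_pelt {E' : Type} [Group E'] [Finite E] (f : E →* E') {s a : ℕ} (hs : s.Prime)
    {x : E} (hx : (f x) ^ s ^ a = 1) : ∃ u : ℕ, f (x ^ u) = f x ∧ ∃ b, (x ^ u) ^ s ^ b = 1 := by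
  have hpos : 0 < orderOf x := orderOf_pos x
  obtain ⟨e, m, hm, hn⟩ := Nat.exists_eq_pow_mul_and_not_dvd hpos.ne' s hs.ne_one
  have hcop : Nat.Coprime m (s ^ a) := by
    apply Nat.Coprime.pow_right
    exact ((Nat.Prime.coprime_iff_not_dvd hs).2 hm).symm
  obtain ⟨u, hu1, hu2⟩ := Nat.chineseRemainder hcop 0 1
  refine ⟨u, ?_, e, ?_⟩
  · rw [map_pow]
    have h1 : u ≡ 1 [MOD orderOf (f x)] := hu2.of_dvd (orderOf_dvd_of_pow_eq_one hx)
    rw [pow_eq_pow_iff_modEq.2 h1, pow_one]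
  · rw [← pow_mul, ← orderOf_dvd_iff_pow_eq_one, hn, mul_comm]
    exact Nat.mul_dvd_mul (Nat.modEq_zero_iff_dvd.1 hu1) dvd_rfl

end Basic

/-- A system: a finite group `Γ`, a soluble normal `p'`-subgroup `G`, an element `φ` with
`φ ^ p = 1`, and an ascending series `B` of normal subgroups of `C_G(φ)` with nilpotent factors. -/
structure Sys where
  Γ : Type
  [grp : Group Γ]
  [fin : Finite Γ]
  p : ℕ
  [hp : Fact p.Prime]
  G : Subgroup Γ
  [hG : G.Normal]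
  [sol : Group.IsSolvable G]
  cop : ¬ p ∣ Nat.card G
  φ : Γ
  hφ : φ ^ p = 1
  B : ℕ → Subgroup Γ
  hB0 : B 0 = ⊥
  hBC : ∀ k, B k ≤ fx G φ
  hBm : ∀ k, B k ≤ B (k + 1)
  hBn : ∀ k, NzS (fx G φ) (B k)
  hBF : ∀ k s t : ℕ, s.Prime → t.Prime → s ≠ t → ∀ x ∈ B (k + 1), ∀ y ∈ B (k + 1),
    (∃ a : ℕ, x ^ s ^ a = 1) → (∃ b : ℕ, y ^ t ^ b = 1) → ⁅x, y⁆ ∈ B k

namespace Sys

attribute [instance] Sys.grp Sys.fin Sys.hp Sys.hG Sys.sol

instance (S : Sys) : (Ft S.G).Normal := Ft_normal S.G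

theorem cop_of_le (S : Sys) {N : Subgroup S.Γ} (hN : N ≤ S.G) : ¬ S.p ∣ Nat.card N := fun h =>
  S.cop (h.trans (card_dvd_of_le hN))

/-- The next level: the quotient by the Fitting subgroup of `G`. -/
noncomputable def next (S : Sys) : Sys where
  Γ := S.Γ ⧸ Ft S.G
  p := S.p
  G := S.G.map (QuotientGroup.mk' (Ft S.G))
  hG := S.hG.map _ (QuotientGroup.mk'_surjective _)
  sol := by
    have := S.sol
    exact Group.isSolvable_of_surjective (f := (QuotientGroup.mk' (Ft S.G)).subgroupMap S.G)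
      ((QuotientGroup.mk' (Ft S.G)).subgroupMap_surjective S.G)
  cop := fun h => S.cop (h.trans (card_map_dvd _ _))
  φ := QuotientGroup.mk' (Ft S.G) S.φ
  hφ := by rw [← map_pow, S.hφ, map_one]
  B := fun k => (S.B k).map (QuotientGroup.mk' (Ft S.G))
  hB0 := by simp [S.hB0]
  hBC := by
    rintro k _ ⟨x, hx, rfl⟩
    have h := mem_fx.1 (S.hBC k hx)
    rw [mem_fx]
    exact ⟨⟨x, h.1, rfl⟩, by rw [← map_mul, h.2, map_mul]⟩
  hBm := fun k => map_mono (S.hBm k)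
  hBn := by
    rintro k c hc _ ⟨x, hx, rfl⟩
    obtain ⟨⟨c, hc1, rfl⟩, hc2⟩ := mem_fx.1 hc
    obtain ⟨n, hn, h⟩ := fx_lift (QuotientGroup.mk' (Ft S.G)) S.hφ (c := c)
      (by rw [QuotientGroup.ker_mk']; exact S.cop_of_le (Ft_le _)) hc2
    have hn' : QuotientGroup.mk' (Ft S.G) n = 1 := hn
    rw [QuotientGroup.ker_mk'] at hn
    have h1 : c * n ∈ fx S.G S.φ := mem_fx.2 ⟨S.G.mul_mem hc1 (Ft_le _ hn), h⟩
    refine ⟨c * n * x * (c * n)⁻¹, S.hBn k _ h1 x hx, ?_⟩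
    simp only [map_mul, map_inv, hn', mul_one]
  hBF := by
    rintro k s t hs ht hst _ ⟨x, hx, rfl⟩ _ ⟨y, hy, rfl⟩ ⟨a, ha⟩ ⟨b, hb⟩
    obtain ⟨u, hu, a', ha'⟩ := lift_pelt _ hs ha
    obtain ⟨v, hv, b', hb'⟩ := lift_pelt _ ht hb
    refine ⟨⁅x ^ u, y ^ v⁆, S.hBF k s t hs ht hst _ (pow_mem hx u) _ (pow_mem hy v) ⟨a', ha'⟩
      ⟨b', hb'⟩, ?_⟩
    rw [map_commutatorElement, hu, hv]

/-- The projection to the next level. -/
noncomputable def pr (S : Sys) : S.Γ →* S.next.Γ := QuotientGroup.mk' (Ft S.G)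

theorem pr_surjective (S : Sys) : Function.Surjective S.pr := QuotientGroup.mk'_surjective _

theorem ker_pr (S : Sys) : S.pr.ker = Ft S.G := QuotientGroup.ker_mk' _

theorem next_p (S : Sys) : S.next.p = S.p := rfl

theorem next_G (S : Sys) : S.next.G = S.G.map S.pr := rfl

theorem next_φ (S : Sys) : S.next.φ = S.pr S.φ := rfl

theorem next_B (S : Sys) (k : ℕ) : S.next.B k = (S.B k).map S.pr := rfl

/-- Iterated levels. -/
noncomputable def lev (S : Sys) : ℕ → Sys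
  | 0 => S
  | n + 1 => (S.lev n).next

end Sys

/-- The transversality property `TP`. -/
def TP {E : Type} [Group E] (t : ℕ) (φ : E) (Q Y K N0 : Subgroup E) : Prop :=
  ∀ S M : Subgroup E, S ≤ Q → Nz φ S → N0 ≤ M → Phi t Y ≤ M → M ≤ Y →
    (∀ y ∈ Y, ⁅φ, y⁆ ∈ M) → (∀ c ∈ cm S φ, ∀ y ∈ Y, ⁅c, y⁆ ∈ M) →
    (∀ g ∈ Q, (∀ s ∈ S, ∀ c ∈ fx Q φ, g ≠ s * c) → ∀ k ∈ K, g * k * g⁻¹ ∈ M) → K ≤ M

/-- `Y = ⟨K^Q⟩ N0` and `TP`. -/
def HYP {E : Type} [Group E] (t : ℕ) (φ : E) (Q Y K N0 : Subgroup E) : Prop :=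
  Y ≤ gen Q K ⊔ N0 ∧ TP t φ Q Y K N0

/-- There are DATA in the system `S`, controlled by `S.B κ`. -/
def isDATA (S : Sys) (κ : ℕ) : Prop :=
  ∃ t u : ℕ, t.Prime ∧ u.Prime ∧ t ≠ u ∧ u ≠ S.p ∧ ∃ Q Y : Subgroup S.Γ, Q ≤ S.G ∧ Y ≤ Op t S.G ∧ Y ≠ ⊥ ∧
    IsPGroup u Q ∧ Nz S.φ Q ∧ Nz S.φ Y ∧ NzS Q Y ∧ HYP t S.φ Q Y (Y ⊓ S.B κ) ⊥

end Pool.FH
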