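import Pool.Agent.Work.MP_4c212b_al.RepDefs

/-!
# Block REP1: sum operators and invariant subspaces
-/

set_option autoImplicit false

open Subgroup
open scoped commutatorElement

namespace Pool.FH

section

variable {k E V : Type} [Field k] [Group E] [Finite E] [AddCommGroup V] [Module k V]
variable {ρ : Representation k E V}

/-! ### sum operators -/

theorem rho_mul_apply (g h : E) (v : V) : ρ (g * h) v = ρ g (ρ h v) := by
  rw [map_mul]; rfl

theorem rho_one_apply (v : V) : ρ 1 v = v := by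
  rw [map_one]; rfl

theorem rho_inv_apply (g : E) (v : V) : ρ g⁻¹ (ρ g v) = v := by
  rw [← rho_mul_apply, inv_mul_cancel, rho_one_apply]

theorem rho_apply_inv (g : E) (v : V) : ρ g (ρ g⁻¹ v) = v := by
  rw [← rho_mul_apply, mul_inv_cancel, rho_one_apply]

theorem Inv.one (W : Submodule k V) : Inv ρ 1 W := fun w hw => by rwa [rho_one_apply]

theorem Inv.mul {g h : E} {W : Submodule k V} (hg : Inv ρ g W) (hh : Inv ρ h W) :
    Inv ρ (g * h) W := fun w hw => by
  rw [rho_mul_apply]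
  exact hg _ (hh w hw)

theorem Inv.pow {g : E} {W : Submodule k V} (h : Inv ρ g W) (n : ℕ) : Inv ρ (g ^ n) W := by
  induction n with
  | zero => rw [pow_zero]; exact Inv.one W
  | succ n ih => rw [pow_succ]; exact ih.mul h

theorem Inv.inv {g : E} {W : Submodule k V} (h : Inv ρ g W) : Inv ρ g⁻¹ W := by
  have h2 : g ^ (orderOf g - 1) = g⁻¹ := by
    have h1 : 0 < orderOf g := orderOf_pos g
    rw [eq_inv_iff_mul_eq_one, ← pow_succ]
    rw [Nat.sub_add_cancel h1, pow_orderOf_eq_one]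
  rw [← h2]
  exact h.pow _

/-- the stabiliser of a subspace -/
def stb (ρ : Representation k E V) (W : Submodule k V) : Subgroup E where
  carrier := {g | Inv ρ g W}
  one_mem' := Inv.one W
  mul_mem' := fun h1 h2 => Inv.mul h1 h2
  inv_mem' := fun h => Inv.inv h

theorem InvS.le_stb {P : Subgroup E} {W : Submodule k V} (h : InvS ρ P W) : P ≤ stb ρ W :=
  fun g hg => h g hg

theorem InvS.sup {P Q : Subgroup E} {W : Submodule k V} (h1 : InvS ρ P W) (h2 : InvS ρ Q W) :
    InvS ρ (P ⊔ Q) W := fun _ hg => (sup_le h1.le_stb h2.le_stb) hg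

theorem InvS.zpowers {g : E} {W : Submodule k V} (h1 : Inv ρ g W) : InvS ρ (zpowers g) W := by
  intro a ha
  have h2 : Subgroup.zpowers g ≤ stb ρ W := by
    rw [zpowers_le]
    exact h1
  exact h2 ha

theorem sm_apply (H : Subgroup E) [Fintype H] (v : V) : sm ρ H v = ∑ h : H, ρ (h : E) v := by
  unfold sm
  rw [finsum_eq_sum_of_fintype, LinearMap.sum_apply]

theorem sm_of_fixed {H : Subgroup E} {v : V} (h : ∀ x ∈ H, ρ x v = v) :
    sm ρ H v = (Nat.card H : k) • v := by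
  have := Fintype.ofFinite H
  rw [sm_apply, Finset.sum_congr rfl (fun (x : H) _ => h x x.2), Finset.sum_const,
    Finset.card_univ, Nat.card_eq_fintype_card, Nat.cast_smul_eq_nsmul]

theorem rho_sm {H : Subgroup E} {x : E} (hx : x ∈ H) (v : V) : ρ x (sm ρ H v) = sm ρ H v := by
  have := Fintype.ofFinite H
  rw [sm_apply, map_sum, ← Equiv.sum_comp (Equiv.mulLeft (⟨x, hx⟩ : H)) (fun h : H => ρ (h : E) v)]
  refine Finset.sum_congr rfl fun h _ => ?_
  rw [← rho_mul_apply]
  rfl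

theorem sm_rho {H : Subgroup E} {x : E} (hx : x ∈ H) (v : V) : sm ρ H (ρ x v) = sm ρ H v := by
  have := Fintype.ofFinite H
  rw [sm_apply, sm_apply, ← Equiv.sum_comp (Equiv.mulRight (⟨x, hx⟩ : H))
    (fun h : H => ρ (h : E) v)]
  refine Finset.sum_congr rfl fun h _ => ?_
  rw [← rho_mul_apply]
  rfl

theorem sm_comm {H : Subgroup E} {g : E} (hg : Nz g H) (v : V) :
    ρ g (sm ρ H v) = sm ρ H (ρ g v) := by
  have := Fintype.ofFinite H
  let e : H ≃ H :=
    { toFun := fun h => ⟨g * h * g⁻¹, hg h h.2⟩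
      invFun := fun h => ⟨g⁻¹ * h * g, by simpa using hg.inv h h.2⟩
      left_inv := fun h => Subtype.ext (by simp [mul_assoc])
      right_inv := fun h => Subtype.ext (by simp [mul_assoc]) }
  rw [sm_apply, sm_apply, map_sum, ← Equiv.sum_comp e (fun h : H => ρ (h : E) (ρ g v))]
  refine Finset.sum_congr rfl fun h _ => ?_
  rw [← rho_mul_apply, ← rho_mul_apply]
  congr 2
  change g * (h : E) = g * h * g⁻¹ * g
  rw [inv_mul_cancel_right]

theorem sm_mem {H : Subgroup E} {W : Submodule k V} (h : InvS ρ H W) {v : V} (hv : v ∈ W) :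
    sm ρ H v ∈ W := by
  have := Fintype.ofFinite H
  rw [sm_apply]
  exact W.sum_mem fun x _ => h x x.2 v hv

/-- `∑_{h ∈ K} h = (∑ cosets) ∑_{h ∈ H} h` -/
theorem sm_eq_zero_mono {H K : Subgroup E} (h : H ≤ K) {v : V} (hv : sm ρ H v = 0) :
    sm ρ K v = 0 := by
  classical
  have := Fintype.ofFinite H
  have := Fintype.ofFinite K
  have := Fintype.ofFinite (K ⧸ H.subgroupOf K)
  rw [sm_apply] at hv ⊢
  rw [← Finset.sum_fiberwise Finset.univ (fun x : K => (x : K ⧸ H.subgroupOf K))]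
  apply Finset.sum_eq_zero
  intro q _
  obtain ⟨k0, rfl⟩ := QuotientGroup.mk_surjective q
  have h1 : ∑ x ∈ Finset.univ.filter (fun x : K => (x : K ⧸ H.subgroupOf K) = k0), ρ (x : E) v =
      ∑ x : H, ρ (k0 : E) (ρ (x : E) v) := by
    symm
    refine Finset.sum_bij (fun (x : H) _ => k0 * ⟨x, h x.2⟩) ?_ ?_ ?_ ?_
    · intro x _
      rw [Finset.mem_filter]
      refine ⟨Finset.mem_univ _, ?_⟩
      rw [QuotientGroup.eq, mem_subgroupOf]
      have h2 : (((k0 * ⟨(x : E), h x.2⟩)⁻¹ * k0 : K) : E) = (x : E)⁻¹ := by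
        simp only [Subgroup.coe_mul, Subgroup.coe_inv]
        group
      rw [h2]
      exact H.inv_mem x.2
    · intro a _ b _ hab
      have h3 := mul_left_cancel hab
      exact Subtype.ext (congrArg (fun y : K => (y : E)) h3)
    · intro y hy
      rw [Finset.mem_filter, QuotientGroup.eq, mem_subgroupOf] at hy
      have h4 : ((k0 : E)⁻¹ * (y : E)) ∈ H := by
        have h5 := H.inv_mem hy.2
        simpa using h5
      refine ⟨⟨(k0 : E)⁻¹ * y, h4⟩, Finset.mem_univ _, Subtype.ext ?_⟩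
      simp
    · intro x _
      rw [← rho_mul_apply]
      rfl
  rw [h1, ← map_sum, hv, map_zero]

theorem eq_zero_of_fixed {H : Subgroup E} (hH : (Nat.card H : k) ≠ 0) {v : V}
    (h : ∀ x ∈ H, ρ x v = v) (h0 : sm ρ H v = 0) : v = 0 := by
  rw [sm_of_fixed h] at h0
  exact (smul_eq_zero.1 h0).resolve_left hH

theorem sm_decomp {H : Subgroup E} (hH : (Nat.card H : k) ≠ 0) {W : Submodule k V}
    (hW : InvS ρ H W) {w : V} (hw : w ∈ W) :
    ∃ a ∈ W, ∃ b ∈ W, (∀ x ∈ H, ρ x a = a) ∧ sm ρ H b = 0 ∧ w = a + b := by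
  have ha : (Nat.card H : k)⁻¹ • sm ρ H w ∈ W := W.smul_mem _ (sm_mem hW hw)
  refine ⟨(Nat.card H : k)⁻¹ • sm ρ H w, ha, w - (Nat.card H : k)⁻¹ • sm ρ H w,
    W.sub_mem hw ha, fun x hx => by rw [map_smul, rho_sm hx], ?_, by abel⟩
  rw [map_sub, map_smul, sm_of_fixed (fun x hx => rho_sm hx w), smul_smul,
    inv_mul_cancel₀ hH, one_smul, sub_self]

/-- `∑_{i < p} φ^i v` is fixed by `φ`. -/
theorem orbit_sum_fixed {φ : E} {p : ℕ} (hφ : φ ^ p = 1) (v : V) :
    ρ φ (∑ i ∈ Finset.range p, ρ (φ ^ i) v) = ∑ i ∈ Finset.range p, ρ (φ ^ i) v := by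
  rw [map_sum]
  have h1 : ∀ i, ρ φ (ρ (φ ^ i) v) = ρ (φ ^ (i + 1)) v := by
    intro i
    rw [← rho_mul_apply, pow_succ']
  simp_rw [h1]
  have h2 := Finset.sum_range_succ (fun i => ρ (φ ^ i) v) p
  rw [Finset.sum_range_succ' (fun i => ρ (φ ^ i) v) p, hφ, pow_zero] at h2
  exact add_right_cancel h2

/-- coprimality in `k` -/
theorem card_ne_zero_of_isPGroup {t : ℕ} [Fact t.Prime] {H : Subgroup E} (hH : IsPGroup t H)
    (ht : (t : k) ≠ 0) : (Nat.card H : k) ≠ 0 := by
  obtain ⟨n, hn⟩ := IsPGroup.iff_card.1 hH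
  rw [hn, Nat.cast_pow]
  exact pow_ne_zero _ ht

/-! ### invariant subspaces -/

/-- Existence of a minimal invariant subspace. -/
theorem exists_irr [FiniteDimensional k V] (A : Set E) {W : Submodule k V} (hW : W ≠ ⊥)
    (hA : ∀ g ∈ A, Inv ρ g W) : ∃ U ≤ W, Irr ρ A U := by
  obtain ⟨U, ⟨h1, h2, h3⟩, hmin⟩ := wellFounded_lt.has_min
    {U : Submodule k V | U ≤ W ∧ U ≠ ⊥ ∧ ∀ g ∈ A, Inv ρ g U} ⟨W, le_rfl, hW, hA⟩
  refine ⟨U, h1, h2, h3, fun U' hU' hne hinv => ?_⟩
  by_contra hcon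
  exact hmin U' ⟨hU'.trans h1, hne, hinv⟩ (lt_of_le_of_ne hU' hcon)

/-- An equivariant projection onto an invariant subspace. -/
theorem exists_proj {P : Subgroup E} (hP : (Nat.card P : k) ≠ 0) {U : Submodule k V}
    (hU : InvS ρ P U) : ∃ π : V →ₗ[k] V, (∀ v, π v ∈ U) ∧ (∀ u ∈ U, π u = u) ∧
      ∀ g ∈ P, ∀ v, π (ρ g v) = ρ g (π v) := by
  classical
  have := Fintype.ofFinite P
  obtain ⟨f, hf⟩ := LinearMap.exists_leftInverse_of_injective U.subtype (by simp)
  have hf' : ∀ u ∈ U, ((f u : U) : V) = u := by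
    intro u hu
    have := LinearMap.congr_fun hf ⟨u, hu⟩
    simp only [LinearMap.comp_apply, Submodule.subtype_apply, LinearMap.id_apply] at this
    rw [this]
  let π : V →ₗ[k] V := (Nat.card P : k)⁻¹ •
    ∑ g : P, (ρ (g : E)).comp ((U.subtype.comp f).comp (ρ (g : E)⁻¹))
  have hπ : ∀ v, π v = (Nat.card P : k)⁻¹ • ∑ g : P, ρ (g : E) ((f (ρ (g : E)⁻¹ v) : U) : V) := by
    intro v
    simp only [π, LinearMap.smul_apply, LinearMap.sum_apply, LinearMap.comp_apply,
      Submodule.subtype_apply]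
  refine ⟨π, fun v => ?_, fun u hu => ?_, fun g hg v => ?_⟩
  · rw [hπ]
    exact U.smul_mem _ (U.sum_mem fun g _ => hU g g.2 _ (f _).2)
  · rw [hπ]
    have h1 : ∀ g : P, ρ (g : E) ((f (ρ (g : E)⁻¹ u) : U) : V) = u := by
      intro g
      rw [hf' _ (hU _ (P.inv_mem g.2) u hu), rho_apply_inv]
    rw [Finset.sum_congr rfl (fun g _ => h1 g), Finset.sum_const, Finset.card_univ,
      ← Nat.card_eq_fintype_card, ← Nat.cast_smul_eq_nsmul k, smul_smul, inv_mul_cancel₀ hP,
      one_smul]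
  · rw [hπ, hπ, map_smul, map_sum]
    congr 1
    rw [← Equiv.sum_comp (Equiv.mulLeft (⟨g, hg⟩ : P))
      (fun x : P => ρ (x : E) ((f (ρ (x : E)⁻¹ (ρ g v)) : U) : V))]
    refine Finset.sum_congr rfl fun x _ => ?_
    have h1 : ((Equiv.mulLeft (⟨g, hg⟩ : P) x : P) : E) = g * x := rfl
    rw [h1, mul_inv_rev, rho_mul_apply, rho_mul_apply, rho_inv_apply]

/-- Maschke: an invariant complement inside `W`. -/
theorem exists_compl {P : Subgroup E} (hP : (Nat.card P : k) ≠ 0) {W U : Submodule k V}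
    (hW : InvS ρ P W) (hU : InvS ρ P U) (hUW : U ≤ W) :
    ∃ U' ≤ W, InvS ρ P U' ∧ U ⊔ U' = W ∧ U ⊓ U' = ⊥ := by
  obtain ⟨π, h1, h2, h3⟩ := exists_proj hP hU
  refine ⟨W ⊓ LinearMap.ker π, inf_le_left, ?_, ?_, ?_⟩
  · rintro g hg w ⟨hw1, hw2⟩
    refine ⟨hW g hg w hw1, ?_⟩
    rw [SetLike.mem_coe, LinearMap.mem_ker] at hw2 ⊢
    rw [h3 g hg, hw2, map_zero]
  · apply le_antisymm (sup_le hUW inf_le_left)
    intro w hw
    have h4 : w = π w + (w - π w) := by abel
    rw [h4]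
    refine Submodule.add_mem_sup (h1 w) ⟨W.sub_mem hw (hUW (h1 w)), ?_⟩
    rw [SetLike.mem_coe, LinearMap.mem_ker, map_sub, h2 _ (h1 w), sub_self]
  · rw [eq_bot_iff]
    rintro u ⟨hu1, hu2⟩
    have h4 := hu2.2
    rw [SetLike.mem_coe, LinearMap.mem_ker, h2 u hu1] at h4
    rw [h4]
    exact Submodule.zero_mem _

/-- Complete reducibility, elementwise: every vector of `W` is a sum of vectors in irreducible
subspaces; more precisely, for every vector `w ∈ W` and every linear map `T` with `T w ≠ 0` that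
maps invariant subspaces to themselves (e.g. an element of the group algebra of `P`) there are an
irreducible `U ≤ W` and a projection-type linear map `π : V → V` commuting with `P` on `W` with
`π w ∈ U` and `T (π w) ≠ 0`. -/
theorem exists_irr_component [FiniteDimensional k V] {P : Subgroup E}
    (hP : (Nat.card P : k) ≠ 0) {W : Submodule k V} (hW : InvS ρ P W) {w : V} (hw : w ∈ W)
    (T : V →ₗ[k] V) (_hT : ∀ U : Submodule k V, InvS ρ P U → ∀ u ∈ U, T u ∈ U) (hTw : T w ≠ 0) :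
    ∃ U ≤ W, Irr ρ (P : Set E) U ∧ ∃ π : V →ₗ[k] V, (∀ v ∈ W, π v ∈ U) ∧
      (∀ g ∈ P, ∀ v ∈ W, π (ρ g v) = ρ g (π v)) ∧ T (π w) ≠ 0 := by
  induction W using WellFoundedLT.induction generalizing w with
  | ind W ih =>
    have hWne : W ≠ ⊥ := by
      rintro rfl
      rw [Submodule.mem_bot] at hw
      rw [hw, map_zero] at hTw
      exact hTw rfl
    obtain ⟨U, hUW, hU⟩ := exists_irr (ρ := ρ) (P : Set E) hWne (fun g hg => hW g hg)
    have hUi : InvS ρ P U := fun g hg => hU.2.1 g hg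
    obtain ⟨π, h1, h2, h3⟩ := exists_proj hP hUi
    by_cases hπ : T (π w) = 0
    · have hW'i : InvS ρ P (W ⊓ LinearMap.ker π) := by
        rintro g hg w ⟨hw1, hw2⟩
        refine ⟨hW g hg w hw1, ?_⟩
        rw [SetLike.mem_coe, LinearMap.mem_ker] at hw2 ⊢
        rw [h3 g hg, hw2, map_zero]
      have hlt : W ⊓ LinearMap.ker π < W := by
        refine lt_of_le_of_ne inf_le_left ?_
        intro heq
        apply hU.1
        rw [eq_bot_iff]
        intro u hu
        have h4 : u ∈ W ⊓ LinearMap.ker π := by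
          rw [heq]
          exact hUW hu
        have h5 := h4.2
        rw [SetLike.mem_coe, LinearMap.mem_ker, h2 u hu] at h5
        rw [h5]
        exact Submodule.zero_mem _
      have hsub : ∀ v ∈ W, v - π v ∈ W ⊓ LinearMap.ker π := by
        intro v hv
        refine ⟨W.sub_mem hv (hUW (h1 v)), ?_⟩
        rw [SetLike.mem_coe, LinearMap.mem_ker, map_sub, h2 _ (h1 v), sub_self]
      obtain ⟨U', hU', hirr, π', k1, k2, k3⟩ := ih _ hlt hW'i (hsub w hw) (by
        rw [map_sub, hπ, sub_zero]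
        exact hTw)
      refine ⟨U', hU'.trans inf_le_left, hirr, π'.comp (LinearMap.id - π), ?_, ?_, ?_⟩
      · intro v hv
        exact k1 _ (hsub v hv)
      · intro g hg v hv
        simp only [LinearMap.comp_apply, LinearMap.sub_apply, LinearMap.id_apply]
        rw [h3 g hg v, ← map_sub]
        exact k2 g hg _ (hsub v hv)
      · exact k3
    · exact ⟨U, hUW, hU, π, fun v _ => h1 v, fun g hg v _ => h3 g hg v, hπ⟩

end

end Pool.FH
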