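import Pool.Agent.Work.MP_4c212b_al.Cop1
import Pool.Agent.Work.MP_4c212b_al.Rep1

/-!
# Block REP2: weight spaces of abelian groups
-/

set_option autoImplicit false

open Subgroup
open scoped commutatorElement

namespace Pool.FH

section

variable {k E V : Type} [Field k] [Group E] [Finite E] [AddCommGroup V] [Module k V]
variable {ρ : Representation k E V}

theorem wsp_le (X : Subgroup E) (W : Submodule k V) (χ : E → k) : wsp ρ X W χ ≤ W :=
  fun _ hv => hv.1

theorem wts_le {X : Subgroup E} {W U : Submodule k V} (hU : U ∈ wts ρ X W) : U ≤ W := by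
  obtain ⟨-, χ, rfl⟩ := hU
  exact wsp_le X W χ

theorem wsp_eq {X : Subgroup E} {W : Submodule k V} {χ χ' : E → k}
    (h : ∀ x ∈ X, χ x = χ' x) : wsp ρ X W χ = wsp ρ X W χ' := by
  ext w
  constructor
  · rintro ⟨hw, hw'⟩
    exact ⟨hw, fun x hx => by rw [hw' x hx, h x hx]⟩
  · rintro ⟨hw, hw'⟩
    exact ⟨hw, fun x hx => by rw [hw' x hx, h x hx]⟩

/-- Two weight spaces with the same nonzero vector coincide. -/
theorem wts_eq_of_mem {X : Subgroup E} {W U U' : Submodule k V} (hU : U ∈ wts ρ X W)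
    (hU' : U' ∈ wts ρ X W) {v : V} (hv : v ≠ 0) (h1 : v ∈ U) (h2 : v ∈ U') : U = U' := by
  obtain ⟨-, χ, rfl⟩ := hU
  obtain ⟨-, χ', rfl⟩ := hU'
  apply wsp_eq
  intro x hx
  have h3 : (χ x - χ' x) • v = 0 := by
    rw [sub_smul, ← h1.2 x hx, ← h2.2 x hx, sub_self]
  exact sub_eq_zero.1 ((smul_eq_zero.1 h3).resolve_right hv)

/-- Independence in the form used most often: if finitely many vectors in pairwise distinct weight
spaces sum up to `0` then they all vanish. -/
theorem wts_sum_eq_zero {ι : Type} {s : Finset ι} {X : Subgroup E} {W : Submodule k V}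
    {U : ι → Submodule k V} (hU : ∀ i ∈ s, U i ∈ wts ρ X W)
    (hinj : ∀ i ∈ s, ∀ j ∈ s, U i = U j → i = j) {v : ι → V} (hv : ∀ i ∈ s, v i ∈ U i)
    (h0 : ∑ i ∈ s, v i = 0) : ∀ i ∈ s, v i = 0 := by
  classical
  induction s using Finset.induction_on generalizing v with
  | empty => intro i hi; simp at hi
  | insert a s ha ih =>
    have hUa := hU a (Finset.mem_insert_self a s)
    have key : ∀ x ∈ X, ∀ i ∈ insert a s, ∃ c : k, ρ x (v i) = c • v i := by
      intro x hx i hi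
      obtain ⟨-, χ, h⟩ := hU i hi
      have h2 := hv i hi
      rw [h] at h2
      exact ⟨χ x, h2.2 x hx⟩
    have hχ : ∀ i ∈ insert a s, ∃ χ : E → k, U i = wsp ρ X W χ := fun i hi => (hU i hi).2
    choose! χ hχ using hχ
    have hs : ∀ i ∈ s, v i = 0 := by
      have h1 : ∀ x ∈ X, ∀ i ∈ s, (χ i x - χ a x) • v i = 0 := by
        intro x hx
        apply ih (fun i hi => hU i (Finset.mem_insert_of_mem hi))
          (fun i hi j hj => hinj i (Finset.mem_insert_of_mem hi) j (Finset.mem_insert_of_mem hj))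
          (v := fun i => (χ i x - χ a x) • v i)
        · intro i hi
          exact (U i).smul_mem _ (hv i (Finset.mem_insert_of_mem hi))
        · have h2 : ∑ i ∈ insert a s, (χ i x - χ a x) • v i = 0 := by
            have h3 : ∀ i ∈ insert a s, (χ i x - χ a x) • v i = ρ x (v i) - χ a x • v i := by
              intro i hi
              have h4 := hv i hi
              rw [hχ i hi] at h4
              rw [sub_smul, h4.2 x hx]
            rw [Finset.sum_congr rfl h3, Finset.sum_sub_distrib, ← map_sum, ← Finset.smul_sum,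
              h0, map_zero, smul_zero, sub_zero]
          rw [Finset.sum_insert ha, sub_self, zero_smul, zero_add] at h2
          exact h2
      intro i hi
      by_contra hne
      have hi' := Finset.mem_insert_of_mem (a := i) (b := a) hi
      have h5 : U i = U a := by
        rw [hχ i hi', hχ a (Finset.mem_insert_self a s)]
        apply wsp_eq
        intro x hx
        exact sub_eq_zero.1 ((smul_eq_zero.1 (h1 x hx i hi)).resolve_right hne)
      have h6 := hinj i hi' a (Finset.mem_insert_self a s) h5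
      rw [h6] at hi
      exact ha hi
    intro i hi
    rw [Finset.mem_insert] at hi
    rcases hi with rfl | hi
    · rw [Finset.sum_insert ha, Finset.sum_eq_zero hs, add_zero] at h0
      exact h0
    · exact hs i hi

/-- The weight spaces are independent. -/
theorem wts_indep (X : Subgroup E) (W : Submodule k V) : sSupIndep (wts ρ X W) := by
  classical
  intro U hU
  rw [Submodule.disjoint_def]
  intro x hx hx'
  obtain ⟨s, hs, hx2⟩ := Submodule.mem_sSup_iff_exists_finset.1 hx'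
  rw [Submodule.mem_iSup_finset_iff_exists_sum] at hx2
  obtain ⟨μ, hμ⟩ := hx2
  have hUs : U ∉ s := fun h => (hs h).2 rfl
  have h := wts_sum_eq_zero (ρ := ρ) (X := X) (W := W) (s := insert U s) (U := fun U => U)
    (v := fun U' => if U' = U then -x else (μ U' : V)) ?_ (fun _ _ _ _ h => h) ?_ ?_
    U (Finset.mem_insert_self U s)
  · simpa using h
  · intro i hi
    rw [Finset.mem_insert] at hi
    rcases hi with rfl | hi
    · exact hU
    · exact (hs hi).1
  · intro i hi
    by_cases h1 : i = U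
    · rw [if_pos h1, h1]
      exact U.neg_mem hx
    · rw [if_neg h1]
      exact (μ i).2
  · rw [Finset.sum_insert hUs, if_pos rfl]
    have h1 : ∀ i ∈ s, (if i = U then -x else (μ i : V)) = μ i := by
      intro i hi
      rw [if_neg]
      rintro rfl
      exact hUs hi
    rw [Finset.sum_congr rfl h1, hμ, neg_add_cancel]

/-- `W` is the sum of the weight spaces. -/
theorem wts_sup [IsAlgClosed k] [FiniteDimensional k V] {X : Subgroup E}
    (hX : (Nat.card X : k) ≠ 0) {W : Submodule k V} (hW : InvS ρ X W) (hab : AbOn ρ X W) :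
    sSup (wts ρ X W) = W := by
  classical
  apply le_antisymm
  · exact sSup_le fun U hU => wts_le hU
  let f : X → Module.End k W := fun x => (ρ (x : E)).restrict (fun w hw => hW x x.2 w hw)
  have hf : ∀ (x : X) (w : W), ((f x w : W) : V) = ρ (x : E) w := fun x w => rfl
  have hcomm : Pairwise fun x y => Commute (f x) (f y) := by
    intro x y _
    ext w
    change ρ (x : E) (ρ (y : E) w) = ρ (y : E) (ρ (x : E) w)
    exact hab x x.2 y y.2 w w.2
  have hpow : ∀ (x : X) (n : ℕ) (w : W), (((f x) ^ n) w : W) = ρ ((x : E) ^ n) (w : V) := by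
    intro x n
    induction n with
    | zero => intro w; rw [pow_zero, pow_zero, rho_one_apply]; rfl
    | succ n ih =>
      intro w
      rw [pow_succ, pow_succ, rho_mul_apply]
      change (((f x) ^ n) (f x w) : W).1 = _
      rw [ih, hf]
  have hss : ∀ x : X, (f x).IsSemisimple := by
    intro x
    apply Module.End.isSemisimple_of_squarefree_aeval_eq_zero
      (p := Polynomial.X ^ (Nat.card X) - 1)
    · exact (Polynomial.X_pow_sub_one_separable_iff.2 hX).squarefree
    · rw [map_sub, map_pow, Polynomial.aeval_X, map_one, sub_eq_zero]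
      ext w
      rw [hpow]
      have h1 : (x : E) ^ Nat.card X = 1 := by
        have h2 : x ^ Nat.card X = 1 := pow_card_eq_one'
        have h3 := congrArg (fun y : X => (y : E)) h2
        rwa [Subgroup.coe_pow, Subgroup.coe_one] at h3
      rw [h1, rho_one_apply]
      rfl
  have htop := Module.End.iSup_iInf_maxGenEigenspace_eq_top_of_iSup_maxGenEigenspace_eq_top_of_commute
    f hcomm (fun x => Module.End.iSup_maxGenEigenspace_eq_top (f x))
  have h1 : ∀ χ : X → k, (⨅ x, (f x).maxGenEigenspace (χ x)).map W.subtype ≤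
      sSup (wts ρ X W) := by
    intro χ
    let χ' : E → k := fun x => if h : x ∈ X then χ ⟨x, h⟩ else 0
    have h2 : (⨅ x, (f x).maxGenEigenspace (χ x)).map W.subtype ≤ wsp ρ X W χ' := by
      rintro _ ⟨w, hw, rfl⟩
      refine ⟨w.2, fun x hx => ?_⟩
      rw [SetLike.mem_coe, Submodule.mem_iInf] at hw
      have h3 := hw ⟨x, hx⟩
      rw [(hss ⟨x, hx⟩).isFinitelySemisimple.maxGenEigenspace_eq_eigenspace,
        Module.End.mem_eigenspace_iff] at h3
      have h4 := congrArg (fun y : W => (y : V)) h3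
      simp only [χ', dif_pos hx]
      exact h4
    by_cases h3 : wsp ρ X W χ' = ⊥
    · rw [h3] at h2
      exact h2.trans bot_le
    · exact h2.trans (le_sSup ⟨h3, χ', rfl⟩)
  intro w hw
  have h2 : (⟨w, hw⟩ : W) ∈ (⨆ χ : X → k, ⨅ x, (f x).maxGenEigenspace (χ x)) := by
    rw [htop]
    exact Submodule.mem_top
  have h3 : w ∈ (⨆ χ : X → k, ⨅ x, (f x).maxGenEigenspace (χ x)).map W.subtype :=
    ⟨⟨w, hw⟩, h2, rfl⟩
  rw [Submodule.map_iSup] at h3
  exact (iSup_le h1) h3

theorem map_rho_ne_bot {U : Submodule k V} (g : E) (h : U ≠ ⊥) : U.map (ρ g) ≠ ⊥ := by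
  intro h0
  apply h
  rw [eq_bot_iff]
  intro u hu
  have h1 : ρ g u ∈ U.map (ρ g) := ⟨u, hu, rfl⟩
  rw [h0, Submodule.mem_bot] at h1
  have h2 := rho_inv_apply (ρ := ρ) g u
  rw [h1, map_zero] at h2
  rw [Submodule.mem_bot, ← h2]

theorem map_rho_mul (U : Submodule k V) (g h : E) :
    U.map (ρ (g * h)) = (U.map (ρ h)).map (ρ g) := by
  rw [map_mul]
  exact Submodule.map_comp _ _ _

theorem map_rho_one (U : Submodule k V) : U.map (ρ 1) = U := by
  rw [map_one]
  exact Submodule.map_id U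

/-- The stabiliser of a subspace. -/
theorem map_rho_eq_iff {U : Submodule k V} {g : E} : U.map (ρ g) = U ↔ g ∈ stb ρ U := by
  constructor
  · intro h w hw
    have h1 : ρ g w ∈ U.map (ρ g) := ⟨w, hw, rfl⟩
    rwa [h] at h1
  · intro h
    have h' : Inv ρ g U := h
    apply le_antisymm
    · rintro _ ⟨u, hu, rfl⟩
      exact h' u hu
    · intro u hu
      exact ⟨ρ g⁻¹ u, h'.inv u hu, rho_apply_inv g u⟩

theorem map_rho_eq_map_iff {U : Submodule k V} {g h : E} :
    U.map (ρ g) = U.map (ρ h) ↔ h⁻¹ * g ∈ stb ρ U := by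
  rw [← map_rho_eq_iff, map_rho_mul]
  constructor
  · intro h1
    rw [h1, ← map_rho_mul, inv_mul_cancel, map_rho_one]
  · intro h1
    conv_rhs => rw [← h1]
    rw [← map_rho_mul, mul_inv_cancel, map_rho_one]

theorem wts_map {X : Subgroup E} {W U : Submodule k V} {g : E} (hg : Nz g X) (hW : Inv ρ g W)
    (hU : U ∈ wts ρ X W) : U.map (ρ g) ∈ wts ρ X W := by
  obtain ⟨hne, χ, rfl⟩ := hU
  refine ⟨map_rho_ne_bot g hne, fun x => χ (g⁻¹ * x * g), ?_⟩
  apply le_antisymm
  · rintro _ ⟨u, hu, rfl⟩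
    refine ⟨hW u hu.1, fun x hx => ?_⟩
    have h1 : g⁻¹ * x * g ∈ X := by
      have := hg.inv x hx
      simpa using this
    have h2 := hu.2 _ h1
    have h3 : ρ x (ρ g u) = ρ g (ρ (g⁻¹ * x * g) u) := by
      rw [← rho_mul_apply, ← rho_mul_apply]
      congr 2
      group
    rw [h3, h2, map_smul]
  · intro w hw
    refine ⟨ρ g⁻¹ w, ⟨hW.inv w hw.1, fun x hx => ?_⟩, rho_apply_inv g w⟩
    have h2 := hw.2 (g * x * g⁻¹) (hg x hx)
    have h3 : ρ x (ρ g⁻¹ w) = ρ g⁻¹ (ρ (g * x * g⁻¹) w) := by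
      rw [← rho_mul_apply, ← rho_mul_apply]
      congr 2
      group
    have h4 : g⁻¹ * (g * x * g⁻¹) * g = x := by group
    rw [h3, h2, map_smul]
    simp only [h4]

/-- If `g ∈ E` centralises `X` modulo the kernel on `W` then it fixes every weight space. -/
theorem wts_fixed_of_comm {X : Subgroup E} {W U : Submodule k V} {g : E}
    (hW : Inv ρ g W) (hc : ∀ x ∈ X, ∀ w ∈ W, ρ x (ρ g w) = ρ g (ρ x w))
    (hU : U ∈ wts ρ X W) : U.map (ρ g) = U := by
  rw [map_rho_eq_iff]
  obtain ⟨-, χ, rfl⟩ := hU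
  intro u hu
  refine ⟨hW u hu.1, fun x hx => ?_⟩
  rw [hc x hx u hu.1, hu.2 x hx, map_smul]

/-- Conversely, if `g` fixes every weight space and normalises `X`, and `W` is the sum of the
weight spaces, then `g` commutes with `X` on `W`. -/
theorem comm_of_wts_fixed {X : Subgroup E} {W : Submodule k V} {g : E}
    (_hg : Nz g X) (_hW : Inv ρ g W) (hsup : sSup (wts ρ X W) = W)
    (h : ∀ U ∈ wts ρ X W, U.map (ρ g) = U) :
    ∀ x ∈ X, ∀ w ∈ W, ρ x (ρ g w) = ρ g (ρ x w) := by
  intro x hx w hw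
  have h1 : W ≤ LinearMap.eqLocus ((ρ x).comp (ρ g)) ((ρ g).comp (ρ x)) := by
    rw [← hsup]
    apply sSup_le
    intro U hU u hu
    rw [LinearMap.mem_eqLocus]
    have h2 := map_rho_eq_iff.1 (h U hU) u hu
    obtain ⟨-, χ, rfl⟩ := hU
    change ρ x (ρ g u) = ρ g (ρ x u)
    rw [h2.2 x hx, hu.2 x hx, map_smul]
  exact h1 hw

/-- the kernel of the action on a subspace -/
def krn (ρ : Representation k E V) (W : Submodule k V) : Subgroup E where
  carrier := {g | ∀ w ∈ W, ρ g w = w}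
  one_mem' := fun w _ => rho_one_apply w
  mul_mem' := fun {g h} h1 h2 w hw => by rw [rho_mul_apply, h2 w hw, h1 w hw]
  inv_mem' := fun {g} h1 w hw => by
    have h2 := rho_inv_apply (ρ := ρ) g w
    rwa [h1 w hw] at h2

theorem mem_krn {W : Submodule k V} {g : E} : g ∈ krn ρ W ↔ ∀ w ∈ W, ρ g w = w := Iff.rfl

theorem triv_iff {P : Subgroup E} {W : Submodule k V} : Triv ρ P W ↔ P ≤ krn ρ W := Iff.rfl

/-- The weight of a `φ`-moved weight space is nontrivial on `[X, φ]`, in the form: the sum over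
`[X, φ]` kills it.  (`X` acts on `U` by scalars.) -/
theorem sm_cm_of_moved {X : Subgroup E} {φ : E} {W U : Submodule k V}
    (_hX : (Nat.card X : k) ≠ 0) (hφX : Nz φ X) (hφW : Inv ρ φ W)
    (hU : U ∈ wts ρ X W) (hmov : U.map (ρ φ) ≠ U) {u : V} (hu : u ∈ U) :
    sm ρ (cm X φ) u = 0 := by
  obtain ⟨-, χ, rfl⟩ := hU
  by_cases h0 : u = 0
  · rw [h0, map_zero]
  have h1 : ∃ c ∈ cm X φ, ρ c u ≠ u := by
    by_contra hcon
    push Not at hcon
    apply hmov
    rw [map_rho_eq_iff]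
    intro w hw
    refine ⟨hφW w hw.1, fun x hx => ?_⟩
    have hy : φ⁻¹ * x * φ ∈ X := by
      have := hφX.inv x hx
      simpa using this
    have h2 := hcon _ (comm_mem_cm (φ := φ) hy)
    have h3 : φ⁻¹ * x * φ = ⁅φ⁻¹ * x * φ, φ⁆ * x := by
      rw [commutatorElement_def]
      group
    have h4 : χ (φ⁻¹ * x * φ) • u = χ x • u := by
      rw [← hu.2 _ hy, h3, rho_mul_apply, hu.2 x hx, map_smul, h2]
    have h5 : χ (φ⁻¹ * x * φ) = χ x := by
      have h6 : (χ (φ⁻¹ * x * φ) - χ x) • u = 0 := by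
        rw [sub_smul, h4, sub_self]
      exact sub_eq_zero.1 ((smul_eq_zero.1 h6).resolve_right h0)
    have h7 : ρ x (ρ φ w) = ρ φ (ρ (φ⁻¹ * x * φ) w) := by
      rw [← rho_mul_apply, ← rho_mul_apply]
      congr 2
      group
    rw [h7, hw.2 _ hy, map_smul, h5]
  obtain ⟨c, hc, hcu⟩ := h1
  have hcX : c ∈ X := cm_le hφX hc
  have h2 := sm_rho (ρ := ρ) hc u
  rw [hu.2 c hcX, map_smul] at h2
  have h3 : (χ c - 1) • sm ρ (cm X φ) u = 0 := by
    rw [sub_smul, h2, one_smul, sub_self]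
  rcases smul_eq_zero.1 h3 with h4 | h4
  · exfalso
    apply hcu
    rw [hu.2 c hcX, sub_eq_zero.1 h4, one_smul]
  · exact h4

/-- If a weight space is fixed by `φ` then `[X, φ]` acts trivially on it. -/
theorem cm_triv_of_fixed {X : Subgroup E} {φ : E} {W U : Submodule k V} (_hφX : Nz φ X)
    (_hφW : Inv ρ φ W) (hU : U ∈ wts ρ X W) (hfix : U.map (ρ φ) = U) :
    Triv ρ (cm X φ) U := by
  rw [map_rho_eq_iff] at hfix
  obtain ⟨-, χ, rfl⟩ := hU
  rw [triv_iff, cm, Subgroup.commutator_le]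
  intro x hx g hg
  have hg' : g ∈ stb ρ (wsp ρ X W χ) := by
    have h1 : Subgroup.zpowers φ ≤ stb ρ (wsp ρ X W χ) := by
      rw [zpowers_le]
      exact hfix
    exact h1 hg
  intro u hu
  have h1 : ρ g⁻¹ u ∈ wsp ρ X W χ := (stb ρ (wsp ρ X W χ)).inv_mem hg' u hu
  rw [commutatorElement_def, rho_mul_apply, rho_mul_apply, rho_mul_apply,
    h1.2 x⁻¹ (X.inv_mem hx), map_smul, rho_apply_inv, ← hu.2 _ (X.inv_mem hx), rho_apply_inv]

section orbit

variable {p : ℕ} [hp : Fact p.Prime] {φ : E} {U : Submodule k V}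

theorem pow_stb (hφ : φ ^ p = 1) (hmov : U.map (ρ φ) ≠ U) {i : ℤ}
    (h : φ ^ i ∈ stb ρ U) : (p : ℤ) ∣ i := by
  by_contra hcon
  apply hmov
  rw [map_rho_eq_iff]
  have h1 : IsCoprime i (p : ℤ) :=
    ((Irreducible.coprime_iff_not_dvd (Nat.prime_iff_prime_int.1 hp.out).irreducible).2
      hcon).symm
  obtain ⟨a, b, hab⟩ := h1
  have h3 : φ = (φ ^ i) ^ a := by
    have h4 : φ ^ (a * i + b * p) = φ := by rw [hab, zpow_one]
    rw [zpow_add, mul_comm b, zpow_mul φ (p : ℤ) b, zpow_natCast, hφ, one_zpow, mul_one,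
      mul_comm a, zpow_mul] at h4
    exact h4.symm
  rw [h3]
  exact (stb ρ U).zpow_mem h a

theorem pow_map_inj (hφ : φ ^ p = 1) (hmov : U.map (ρ φ) ≠ U) {i j : ℕ}
    (hi : i < p) (hj : j < p) (h : U.map (ρ (φ ^ i)) = U.map (ρ (φ ^ j))) : i = j := by
  rw [map_rho_eq_map_iff] at h
  have h1 : (φ ^ j)⁻¹ * φ ^ i = φ ^ ((i : ℤ) - j) := by
    rw [zpow_sub, zpow_natCast, zpow_natCast]
    exact ((Commute.refl φ).pow_pow j i).inv_left.eq
  rw [h1] at h
  have h2 := pow_stb hφ hmov h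
  have h3 : (i : ℤ) - j = 0 := by
    apply Int.eq_zero_of_abs_lt_dvd h2
    rw [abs_lt]
    constructor <;> omega
  omega

/-- The orbit sum of a vector in a moved weight space. -/
theorem orbit_vec (hφ : φ ^ p = 1) {X : Subgroup E} {W : Submodule k V}
    (hX : (Nat.card X : k) ≠ 0) (hφX : Nz φ X) (hφW : Inv ρ φ W)
    (hU : U ∈ wts ρ X W) (hmov : U.map (ρ φ) ≠ U) {u : V} (hu : u ∈ U) :
    (∑ i ∈ Finset.range p, ρ (φ ^ i) u) ∈ W ∧
    ρ φ (∑ i ∈ Finset.range p, ρ (φ ^ i) u) = ∑ i ∈ Finset.range p, ρ (φ ^ i) u ∧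
    sm ρ (cm X φ) (∑ i ∈ Finset.range p, ρ (φ ^ i) u) = 0 := by
  refine ⟨W.sum_mem fun i _ => hφW.pow i u (wts_le hU hu), orbit_sum_fixed hφ u, ?_⟩
  rw [map_sum]
  apply Finset.sum_eq_zero
  intro i _
  rw [← sm_comm ((cm_nz_self X φ).pow i), sm_cm_of_moved hX hφX hφW hU hmov hu, map_zero]

theorem orbit_eq_zero (hφ : φ ^ p = 1) {X : Subgroup E} {W : Submodule k V}
    (hφX : Nz φ X) (hφW : Inv ρ φ W)
    (hU : U ∈ wts ρ X W) (hmov : U.map (ρ φ) ≠ U) {u : V} (hu : u ∈ U)
    (h0 : ∑ i ∈ Finset.range p, ρ (φ ^ i) u = 0) : u = 0 := by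
  have h := wts_sum_eq_zero (ρ := ρ) (X := X) (W := W) (s := Finset.range p)
    (U := fun i => U.map (ρ (φ ^ i))) (v := fun i => ρ (φ ^ i) u)
    (fun i _ => wts_map (hφX.pow i) (hφW.pow i) hU)
    (fun i hi j hj h => pow_map_inj hφ hmov (Finset.mem_range.1 hi) (Finset.mem_range.1 hj) h)
    (fun i _ => ⟨u, hu, rfl⟩) h0 0 (Finset.mem_range.2 hp.out.pos)
  simpa using h

end orbit

/-- **A-criterion.** `X` is a subgroup with weight space `U` in `W`, moved by `φ`; `d` commutes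
with `φ`, has order prime to `p` and moves `U` or acts nontrivially on it.  Then some vector of
`W` in `[W, [X, φ]]` is fixed by `φ` and moved by `d`. -/
theorem acrit {p q : ℕ} [Fact p.Prime] [Fact q.Prime] (hpq : p ≠ q) {φ d : E} (hφ : φ ^ p = 1)
    {n : ℕ} (hd : d ^ q ^ n = 1) (hc : φ * d = d * φ) {X : Subgroup E} {W U : Submodule k V}
    (hX : (Nat.card X : k) ≠ 0) (hφX : Nz φ X) (hdX : Nz d X) (hφW : Inv ρ φ W)
    (hdW : Inv ρ d W) (hU : U ∈ wts ρ X W) (hmov : U.map (ρ φ) ≠ U)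
    (h : U.map (ρ d) ≠ U ∨ ∃ u ∈ U, ρ d u ≠ u) :
    ∃ v ∈ W, ρ φ v = v ∧ sm ρ (cm X φ) v = 0 ∧ ρ d v ≠ v := by
  have hpp : p.Prime := Fact.out
  have hqq : q.Prime := Fact.out
  have hcomm : ∀ i : ℕ, ∀ u : V, ρ d (ρ (φ ^ i) u) = ρ (φ ^ i) (ρ d u) := by
    intro i u
    rw [← rho_mul_apply, ← rho_mul_apply]
    congr 2
    exact ((show Commute φ d from hc).pow_left i).symm.eq
  by_cases hdU : U.map (ρ d) = U
  · obtain ⟨u, hu, hne⟩ := h.resolve_left (fun h1 => h1 hdU)
    obtain ⟨h1, h2, h3⟩ := orbit_vec hφ hX hφX hφW hU hmov hu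
    refine ⟨_, h1, h2, h3, fun h4 => hne ?_⟩
    rw [← sub_eq_zero]
    have h5 : ρ d u ∈ U := map_rho_eq_iff.1 hdU u hu
    apply orbit_eq_zero hφ hφX hφW hU hmov (U.sub_mem h5 hu)
    rw [map_sum] at h4
    rw [← sub_eq_zero] at h4
    rw [← h4, ← Finset.sum_sub_distrib]
    refine Finset.sum_congr rfl fun i _ => ?_
    rw [map_sub, hcomm]
  · obtain ⟨u, hu, hne⟩ := (Submodule.ne_bot_iff _).1 hU.1
    obtain ⟨h1, h2, h3⟩ := orbit_vec hφ hX hφX hφW hU hmov hu
    refine ⟨_, h1, h2, h3, fun h4 => hne ?_⟩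
    -- the weight spaces `φ^i U` and `φ^i d U` are pairwise distinct
    have hdisj : ∀ i j : ℕ, U.map (ρ (φ ^ i)) ≠ U.map (ρ (φ ^ j * d)) := by
      intro i j hij
      rw [eq_comm, map_rho_eq_map_iff] at hij
      have hcd : Commute φ d := hc
      have h5 : (φ ^ i)⁻¹ * (φ ^ j * d) = φ ^ ((j : ℤ) - i) * d := by
        rw [zpow_sub, zpow_natCast, zpow_natCast, ← mul_assoc]
        congr 1
        exact ((Commute.refl φ).pow_pow i j).inv_left.eq
      rw [h5] at hij
      have h6 := (stb ρ U).pow_mem hij (q ^ n)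
      rw [(hcd.zpow_left _).mul_pow, hd, mul_one, ← zpow_natCast, ← zpow_mul] at h6
      have h7 := pow_stb hφ hmov h6
      have h8 : (p : ℤ) ∣ (j : ℤ) - i := by
        have hpz : Prime (p : ℤ) := Nat.prime_iff_prime_int.1 hpp
        rcases hpz.dvd_or_dvd h7 with h9 | h9
        · exact h9
        · exfalso
          have h10 : p ∣ q ^ n := by exact_mod_cast h9
          exact hpq ((Nat.prime_dvd_prime_iff_eq hpp hqq).1 (hpp.dvd_of_dvd_pow h10))
      obtain ⟨m, hm⟩ := h8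
      rw [hm, zpow_mul, zpow_natCast, hφ, one_zpow, one_mul] at hij
      exact hdU (map_rho_eq_iff.2 hij)
    have hdisj2 : ∀ i j : ℕ, i < p → j < p →
        U.map (ρ (φ ^ i * d)) = U.map (ρ (φ ^ j * d)) → i = j := by
      intro i j hi hj hij
      have hcd : Commute φ d := hc
      rw [(hcd.pow_left i).eq, (hcd.pow_left j).eq, map_rho_mul, map_rho_mul _ d] at hij
      apply pow_map_inj hφ hmov hi hj
      have h5 := congrArg (fun Z : Submodule k V => Z.map (ρ d⁻¹)) hij
      simpa only [← map_rho_mul, inv_mul_cancel_left] using h5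
    have h6 := wts_sum_eq_zero (ρ := ρ) (X := X) (W := W)
      (s := (Finset.range p).disjSum (Finset.range p))
      (U := Sum.elim (fun i => U.map (ρ (φ ^ i))) (fun i => U.map (ρ (φ ^ i * d))))
      (v := Sum.elim (fun i => ρ (φ ^ i) u) (fun i => - ρ (φ ^ i * d) u)) ?_ ?_ ?_ ?_
      (Sum.inl 0) (by simpa using hpp.pos)
    · simpa using h6
    · rintro (i | i) _
      · exact wts_map (hφX.pow i) (hφW.pow i) hU
      · exact wts_map ((hφX.pow i).mul hdX) ((hφW.pow i).mul hdW) hU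
    · rintro (i | i) hi (j | j) hj hij
      · rw [Finset.inl_mem_disjSum, Finset.mem_range] at hi hj
        rw [pow_map_inj hφ hmov hi hj hij]
      · exact absurd hij (hdisj i j)
      · exact absurd hij.symm (hdisj j i)
      · rw [Finset.inr_mem_disjSum, Finset.mem_range] at hi hj
        rw [hdisj2 i j hi hj hij]
    · rintro (i | i) _
      · exact ⟨u, hu, rfl⟩
      · exact Submodule.neg_mem _ ⟨u, hu, rfl⟩
    · rw [Finset.sum_disjSum]
      simp only [Sum.elim_inl, Sum.elim_inr, Finset.sum_neg_distrib]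
      rw [map_sum] at h4
      rw [← sub_eq_add_neg, sub_eq_zero, ← h4]
      refine Finset.sum_congr rfl fun i _ => ?_
      rw [hcomm, rho_mul_apply]

/-- A `φ`-moved weight space of `X ≤ Y` gives a nonzero `φ`-fixed vector in `[W, [Y, φ]]`. -/
theorem fixed_of_moved {p : ℕ} [Fact p.Prime] {φ : E} (hφ : φ ^ p = 1) {X Y : Subgroup E}
    (hXY : X ≤ Y) {W U : Submodule k V} (hX : (Nat.card X : k) ≠ 0) (hφX : Nz φ X)
    (hφW : Inv ρ φ W) (hU : U ∈ wts ρ X W) (hmov : U.map (ρ φ) ≠ U) :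
    ∃ v ∈ W, v ≠ 0 ∧ ρ φ v = v ∧ sm ρ (cm Y φ) v = 0 := by
  obtain ⟨u, hu, hne⟩ := (Submodule.ne_bot_iff _).1 hU.1
  obtain ⟨h1, h2, h3⟩ := orbit_vec hφ hX hφX hφW hU hmov hu
  exact ⟨_, h1, fun h0 => hne (orbit_eq_zero hφ hφX hφW hU hmov hu h0), h2,
    sm_eq_zero_mono (cm_mono hXY) h3⟩

end

end Pool.FH
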