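import Pool.Agent.Work.MP_4c212b_al.RepDefs

/-!
# Block REP3: base change
-/

set_option autoImplicit false

open Subgroup
open scoped commutatorElement TensorProduct

namespace Pool.FH

section

variable {k E V : Type} [Field k] [Group E] [Finite E] [AddCommGroup V] [Module k V]
variable {ρ : Representation k E V}

variable (K : Type) [Field K] [Algebra k K]

theorem bc_tmul (g : E) (c : K) (v : V) : bc K ρ g (c ⊗ₜ v) = c ⊗ₜ (ρ g v) := by
  change (ρ g).baseChange K (c ⊗ₜ v) = _
  rw [LinearMap.baseChange_tmul]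

variable {K}

/-- coordinate `i` of an element of `K ⊗ V` -/
noncomputable def bcco {ι : Type} (b : Module.Basis ι k K) (i : ι) : K ⊗[k] V →ₗ[k] V :=
  (TensorProduct.lid k V).toLinearMap ∘ₗ (LinearMap.rTensor V (b.coord i))

theorem bcco_tmul {ι : Type} (b : Module.Basis ι k K) (i : ι) (c : K) (v : V) :
    bcco b i (c ⊗ₜ v) = b.coord i c • v := by
  simp [bcco]

theorem bcco_bc {ι : Type} (b : Module.Basis ι k K) (i : ι) (g : E) (x : K ⊗[k] V) :
    bcco b i (bc K ρ g x) = ρ g (bcco b i x) := by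
  induction x using TensorProduct.induction_on with
  | zero => simp
  | tmul c v => rw [bc_tmul, bcco_tmul, bcco_tmul, map_smul]
  | add x y hx hy => simp only [map_add, hx, hy]

theorem bcco_sm {ι : Type} (b : Module.Basis ι k K) (i : ι) (H : Subgroup E) (x : K ⊗[k] V) :
    bcco b i (sm (bc K ρ) H x) = sm ρ H (bcco b i x) := by
  classical
  have _ : Fintype H := Fintype.ofFinite H
  unfold sm
  rw [finsum_eq_sum_of_fintype, finsum_eq_sum_of_fintype, LinearMap.sum_apply,
    LinearMap.sum_apply, map_sum]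
  exact Finset.sum_congr rfl fun h _ => bcco_bc b i _ x

theorem bcco_ext {ι : Type} (b : Module.Basis ι k K) {x : K ⊗[k] V}
    (h : ∀ i, bcco b i x = 0) : x = 0 := by
  classical
  apply (TensorProduct.equivFinsuppOfBasisLeft (N := V) b).injective
  rw [map_zero]
  ext i
  have h1 : ∀ y : K ⊗[k] V, TensorProduct.equivFinsuppOfBasisLeft (N := V) b y i =
      bcco b i y := by
    intro y
    induction y using TensorProduct.induction_on with
    | zero => simp
    | tmul c v =>
      rw [bcco_tmul, TensorProduct.equivFinsuppOfBasisLeft_apply_tmul_apply]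
      rfl
    | add x y hx hy => rw [map_add, map_add, Finsupp.add_apply, hx, hy]
  rw [h1, h]; rfl

theorem exists_bcco_ne {ι : Type} (b : Module.Basis ι k K) {x : K ⊗[k] V} (hx : x ≠ 0) :
    ∃ i, bcco b i x ≠ 0 := by
  by_contra h
  push Not at h
  exact hx (bcco_ext b h)

variable (K)

theorem bc_goodA {φ : E} {X N D : Subgroup E} (h : goodA (bc K ρ) φ X N D) :
    goodA ρ φ X N D := by
  obtain ⟨v, h1, h2, h3, d, hd, h4⟩ := h
  let b := Module.Basis.ofVectorSpace k K
  obtain ⟨i, hi⟩ := exists_bcco_ne b (sub_ne_zero.2 h4)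
  refine ⟨bcco b i v, ?_, ?_, ?_, d, hd, ?_⟩
  · rw [← bcco_bc, h1]
  · intro n hn
    rw [← bcco_bc, h2 n hn]
  · rw [← bcco_sm, h3, map_zero]
  · intro h5
    apply hi
    rw [map_sub, bcco_bc, h5, sub_self]

theorem bc_goodB {φ z : E} {Y N : Subgroup E} (h : goodB (bc K ρ) φ Y N z) :
    goodB ρ φ Y N z := by
  obtain ⟨v, h0, h1, h2, h3, h4⟩ := h
  let b := Module.Basis.ofVectorSpace k K
  obtain ⟨i, hi⟩ := exists_bcco_ne b h0
  refine ⟨bcco b i v, hi, ?_, ?_, ?_, ?_⟩
  · rw [← bcco_bc, h1]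
  · intro n hn
    rw [← bcco_bc, h2 n hn]
  · rw [← bcco_sm, h3, map_zero]
  · rw [← bcco_sm, h4, map_zero]

theorem bc_nontriv {Y : Subgroup E} (h : ∃ y ∈ Y, ∃ v, ρ y v ≠ v) :
    ∃ y ∈ Y, ∃ v, bc K ρ y v ≠ v := by
  obtain ⟨y, hy, v, hv⟩ := h
  refine ⟨y, hy, (1 : K) ⊗ₜ v, fun h1 => hv ?_⟩
  let b := Module.Basis.ofVectorSpace k K
  have h2 : ∃ i, b.coord i (1 : K) ≠ 0 := by
    by_contra h
    push Not at h
    exact one_ne_zero (b.ext_elem (by simpa using h) : (1 : K) = 0)
  obtain ⟨i, hi⟩ := h2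
  have h3 := congrArg (bcco b i) h1
  rw [bcco_bc, bcco_tmul, map_smul] at h3
  exact smul_right_injective V hi h3

end

end Pool.FH
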