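import Pool.Agent.Work.MP_4c212b_al.Rep1
import Pool.Agent.Work.MP_4c212b_al.Rep2
import Pool.Agent.Work.MP_4c212b_al.Rep3

/-! Block REP: pure imports (REP1 helper48, REP2 helper51, REP3 helper53). -/
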