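import Pool.Agent.Work.MP_4c212b_al.Cop
import Pool.Agent.Work.MP_4c212b_al.RepApi

/-!
# MP_4c212b_al : interface.  The statements of all blocks.
-/

set_option autoImplicit false

open Subgroup
open scoped commutatorElement TensorProduct

namespace Pool.FH

/-! ## Situations -/

/-- `Q` a `u`-group acting on the `t`-group `Y`, both normalised by `φ` (`φ ^ p = 1`), and
`K ≤ C_Y(φ)` normalised by `C_Y(φ)` and `C_Q(φ)`. -/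
structure QY {E : Type} [Group E] (p t u : ℕ) (φ : E) (Q Y K : Subgroup E) : Prop where
  hp : p.Prime
  ht : t.Prime
  hu : u.Prime
  hpt : p ≠ t
  hpu : p ≠ u
  htu : t ≠ u
  hφ : φ ^ p = 1
  hQ : IsPGroup u Q
  hY : IsPGroup t Y
  nQ : Nz φ Q
  nY : Nz φ Y
  nQY : NzS Q Y
  hK : K ≤ fx Y φ
  hKY : NzS (fx Y φ) K
  hKQ : NzS (fx Q φ) K

/-- `M = Y H`, `Y` a `v`-group, `H` an `r`-group, `φ` of order `p` normalises both, the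
`q`-element `y` commutes with `φ` and normalises `Y` and `M`; `Y = [Y, H]`, `H = [H, φ]`,
`M = [M, y] Y`. -/
structure YH {E : Type} [Group E] (p v r q : ℕ) (φ y : E) (Y H : Subgroup E) : Prop where
  hp : p.Prime
  hv : v.Prime
  hr : r.Prime
  hq : q.Prime
  hpv : p ≠ v
  hpr : p ≠ r
  hpq : p ≠ q
  hvr : v ≠ r
  hqr : q ≠ r
  hφ : φ ^ p = 1
  hy : ∃ n : ℕ, y ^ q ^ n = 1
  hc : φ * y = y * φ
  hY : IsPGroup v Y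
  hH : IsPGroup r H
  nφY : Nz φ Y
  nφH : Nz φ H
  nHY : NzS H Y
  nyY : Nz y Y
  nyM : Nz y (Y ⊔ H)
  hYH : Y ≤ ⁅Y, H⁆
  hHφ : H ≤ cm H φ
  hHy : H ≤ cm (Y ⊔ H) y ⊔ Y

/-! ## Group theory blocks -/

/-- **Z** (Lemma Z) -/
def Stmt_Z : Prop := ∀ (k E V : Type) [Field k] [Group E] [Finite E] [AddCommGroup V] [Module k V]
  (ρ : Representation k E V) (p u : ℕ) (φ : E) (Q : Subgroup E) (l : V),
  p.Prime → u.Prime → u ≠ p → φ ^ p = 1 → IsPGroup u Q → Nz φ Q → (p : k) ≠ 0 →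
  ρ φ l = l →
  (∀ g ∈ Q, ρ φ (ρ g l) = ρ g l ∨ ∑ i ∈ Finset.range p, ρ (φ ^ i) (ρ g l) = 0) →
  ∀ c ∈ cm Q φ, ρ c l = l

/-- **TPA** -/
def Stmt_TPA : Prop := ∀ (E : Type) [Group E] [Finite E] (p t u : ℕ) (φ : E)
  (Q Y K N0 : Subgroup E), QY p t u φ Q Y K → N0 ≤ Y →
  (∀ a ∈ Q, ∀ b ∈ Q, ∀ y ∈ Y, ⁅⁅a, b⁆, y⁆ ∈ Phi t Y) →
  Y ≤ ⁅Y, cm Q φ⁆ ⊔ Phi t Y → TP t φ Q Y K N0

/-- **TPB** -/
def Stmt_TPB : Prop := ∀ (E : Type) [Group E] [Finite E] (p t u : ℕ) (φ : E)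
  (Q Y K N0 : Subgroup E), QY p t u φ Q Y K → N0 ≤ Y →
  (∀ y ∈ fx Y φ, y ∈ K ⊔ Phi t Y) →
  Y ≤ ⁅Y, cm Q φ⁆ ⊔ Phi t Y → TP t φ Q Y K N0

/-- **P** (Lemma P).  `act` is an action of `E` on the type `α`, `Ω` an invariant subset, `K`
fixes all points of `Ω` moved by `φ`.  Then `Y` acts trivially on `Ω`. -/
def Stmt_P : Prop := ∀ (E : Type) [Group E] [Finite E] (p t u : ℕ) (φ : E)
  (Q Y K N0 : Subgroup E), QY p t u φ Q Y K → N0 ≤ Y → HYP t φ Q Y K N0 →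
  ∀ (α : Type) (act : E → α → α), (∀ a, act 1 a = a) →
  (∀ g h a, act (g * h) a = act g (act h a)) → ∀ Ω : Set α,
  (∀ a ∈ Ω, act φ a ∈ Ω) → (∀ g ∈ Q, ∀ a ∈ Ω, act g a ∈ Ω) → (∀ g ∈ Y, ∀ a ∈ Ω, act g a ∈ Ω) →
  (∀ n ∈ N0, ∀ a ∈ Ω, act n a = a) →
  (∀ a ∈ Ω, act φ a ≠ a → ∀ x ∈ K, act x a = a) →
  ∀ y ∈ Y, ∀ a ∈ Ω, act y a = a

/-- **P1**.  If `y` fixes all points of `Ω` moved by `φ`, then `M = Y H` acts trivially. -/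
def Stmt_P1 : Prop := ∀ (E : Type) [Group E] [Finite E] (p v r q : ℕ) (φ y : E)
  (Y H : Subgroup E), YH p v r q φ y Y H →
  ∀ (α : Type) (act : E → α → α), (∀ a, act 1 a = a) →
  (∀ g h a, act (g * h) a = act g (act h a)) → ∀ Ω : Set α,
  (∀ a ∈ Ω, act φ a ∈ Ω) → (∀ a ∈ Ω, act y a ∈ Ω) → (∀ g ∈ Y ⊔ H, ∀ a ∈ Ω, act g a ∈ Ω) →
  (∀ a ∈ Ω, act φ a ≠ a → act y a = a) →
  ∀ g ∈ Y ⊔ H, ∀ a ∈ Ω, act g a = a

/-! ## Representation theory blocks -/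

/-- **VL**: `W` irreducible under `R` and `g`, `R` acts on `W` as a group of extraspecial type
(commutators are scalars, nondegenerate), `A = c • ρ g` has order dividing `N` on `W`, all powers
`g ^ i`, `0 < i < N`, act fixed point freely on `R/Z`, `Z` the scalars.  Then `W` is irreducible
under `R`, `|R/Z| = d²`, `d = dim W`, and the multiplicities `m_ψ` of the eigenvalues of `A`
satisfy `∑ m_ψ = d`, `N ∑ m_ψ² = d² + N - 1`. -/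
def Stmt_VL : Prop := ∀ (k E V : Type) [Field k] [IsAlgClosed k] [Group E] [Finite E]
  [AddCommGroup V] [Module k V] [FiniteDimensional k V]
  (ρ : Representation k E V) (R : Subgroup E) (g : E) (c : k) (N : ℕ) (W : Submodule k V),
  0 < N → (N : k) ≠ 0 → (Nat.card R : k) ≠ 0 → c ≠ 0 → Nz g R → InvS ρ R W → Inv ρ g W →
  Irr ρ ((R : Set E) ∪ {g}) W →
  (∀ x ∈ R, ∀ y ∈ R, Scal ρ ⁅x, y⁆ W) →
  (∀ x ∈ R, (∀ y ∈ R, ∀ w ∈ W, ρ ⁅x, y⁆ w = w) → Scal ρ x W) →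
  (∀ w ∈ W, c ^ N • ρ (g ^ N) w = w) →
  (∀ i, 0 < i → i < N → ∀ x ∈ R, Scal ρ ⁅g ^ i, x⁆ W → Scal ρ x W) →
  Irr ρ (R : Set E) W ∧
  Nat.card R = (Module.finrank k W) ^ 2 * Nat.card {x : E // x ∈ R ∧ Scal ρ x W} ∧
  ∑ ψ ∈ Polynomial.nthRootsFinset N (1 : k),
      Module.finrank k (W ⊓ Module.End.eigenspace (c • ρ g) ψ : Submodule k V) =
    Module.finrank k W ∧
  N * ∑ ψ ∈ Polynomial.nthRootsFinset N (1 : k),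
      (Module.finrank k (W ⊓ Module.End.eigenspace (c • ρ g) ψ : Submodule k V)) ^ 2 + 1 =
    (Module.finrank k W) ^ 2 + N

/-- **NUM** -/
def Stmt_NUM : Prop := ∀ (ι : Type) [DecidableEq ι] (s : Finset ι) (m : ι → ℕ) (d : ℕ),
  s.Nonempty → ∑ i ∈ s, m i = d → s.card * ∑ i ∈ s, (m i) ^ 2 + 1 = d ^ 2 + s.card →
  ∃ i0 ∈ s, ∃ a : ℕ, (∀ i ∈ s, i ≠ i0 → m i = a) ∧ (m i0 = a + 1 ∨ m i0 + 1 = a)

/-- **EX** -/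
def Stmt_EX : Prop := ∀ (E T : Type) [Group E] [Finite E] [AddCommGroup T] [Module (ZMod 2) T]
  [Finite T] (ρ : Representation (ZMod 2) E T) (B : T →ₗ[ZMod 2] T →ₗ[ZMod 2] ZMod 2)
  (p u e : ℕ) (φ : E) (H : Subgroup E),
  p.Prime → u.Prime → u ≠ 2 → p ≠ u → p = 2 ^ e + 1 → 0 < e →
  (∀ x, B x x = 0) → (∀ x, (∀ y, B x y = 0) → x = 0) →
  (∀ x y, B (ρ φ x) (ρ φ y) = B x y) → (∀ h ∈ H, ∀ x y, B (ρ h x) (ρ h y) = B x y) →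
  φ ^ p = 1 → IsPGroup u H → Nz φ H → H ≤ cm H φ → (∃ h ∈ H, ∃ x, ρ h x ≠ x) →
  Module.finrank (ZMod 2) T ≠
    Module.finrank (ZMod 2) (Module.End.eigenspace (ρ φ) 1) + 2 * e

/-- **NZ** -/
def Stmt_NZ : Prop := ∀ (k E V : Type) [Field k] [IsAlgClosed k] [Group E] [Finite E]
  [AddCommGroup V] [Module k V] [FiniteDimensional k V] (ρ : Representation k E V)
  (p t u : ℕ) (φ : E) (Y H N0 : Subgroup E) (W : Submodule k V),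
  p.Prime → t.Prime → u.Prime → p ≠ t → p ≠ u → t ≠ u → φ ^ p = 1 → (p : k) ≠ 0 → (t : k) ≠ 0 →
  IsPGroup t Y → IsPGroup u H → Nz φ Y → Nz φ H → NzS H Y → H ≤ cm H φ →
  InvS ρ Y W → InvS ρ H W → Inv ρ φ W → Triv ρ N0 W → Y ≤ ⁅Y, H⁆ ⊔ N0 → ¬ Triv ρ Y W →
  ∃ v ∈ W, v ≠ 0 ∧ ρ φ v = v ∧ sm ρ (cm Y φ) v = 0

/-- **STEP** -/
def Stmt_STEP : Prop := ∀ (k E V : Type) [Field k] [IsAlgClosed k] [Group E] [Finite E]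
  [AddCommGroup V] [Module k V] [FiniteDimensional k V] (ρ : Representation k E V)
  (p t u : ℕ) (φ : E) (Q Y K : Subgroup E), QY p t u φ Q Y K → (p : k) ≠ 0 → (t : k) ≠ 0 →
  HYP t φ Q Y K ⊥ → (∃ y ∈ Y, ∃ v, ρ y v ≠ v) →
  (∃ X N : Subgroup E, X ≤ Y ∧ N ≤ X ∧ Nz φ X ∧ Nz φ N ∧ NzS X N ∧ NzS K X ∧ NzS K N ∧
    (∀ a ∈ X, ∀ b ∈ X, ⁅a, b⁆ ∈ N) ∧ goodA ρ φ X N K) ∨
  (∃ N : Subgroup E, ∃ z ∈ K, N ≤ Y ∧ Nz φ N ∧ NzS Y N ∧ (∀ w ∈ Y, ⁅z, w⁆ ∈ N) ∧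
    goodB ρ φ Y N z)

/-- **W** (the exceptional case `q = 2`, `dim = 2p - 1`) -/
def Stmt_W : Prop := ∀ (k E V : Type) [Field k] [IsAlgClosed k] [Group E] [Finite E]
  [AddCommGroup V] [Module k V] [FiniteDimensional k V] (ρ : Representation k E V)
  (p q r : ℕ) (φ y : E) (R : Subgroup E) (W : Submodule k V) (n : ℕ),
  p.Prime → q.Prime → r.Prime → p ≠ q → p ≠ r → q ≠ r → (p : k) ≠ 0 → (q : k) ≠ 0 →
  (r : k) ≠ 0 → φ ^ p = 1 → y ^ q ^ n = 1 → φ * y = y * φ → IsPGroup r R → Nz φ R → Nz y R →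
  R ≤ cm R φ → R ≤ cm R y → Irr ρ ((R : Set E) ∪ {φ, y}) W → ¬ Triv ρ R W →
  (∀ x ∈ fx R φ, ∀ w ∈ W, ρ ⁅x, y⁆ w = w) → (∀ x ∈ R, ∀ w ∈ W, ρ ⁅y ^ q, x⁆ w = w) →
  (∀ w ∈ W, ρ φ w = w → ρ y w = w) →
  q = 2 ∧ p ≠ 2 ∧ Module.finrank k W = 2 * p - 1 ∧ (∀ w ∈ W, ρ (y ^ 2) w = w) ∧
  Module.finrank k (W ⊓ Module.End.eigenspace (ρ φ) 1 : Submodule k V) = 1 ∧
  Module.finrank k (W ⊓ Module.End.eigenspace (ρ y) (-1) : Submodule k V) = p - 1 ∧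
  (∀ x ∈ R, ∀ x' ∈ R, Scal ρ ⁅x, x'⁆ W) ∧ ∃ x ∈ R, ∃ x' ∈ R, ∃ w ∈ W, ρ ⁅x, x'⁆ w ≠ w

/-- **ISO** -/
def Stmt_ISO : Prop := ∀ (v : ℕ) [Fact v.Prime] (T : Type) [AddCommGroup T] [Module (ZMod v) T]
  [Finite T] (B : T →ₗ[ZMod v] T →ₗ[ZMod v] ZMod v) (F : T →ₗ[ZMod v] T) (p : ℕ),
  p.Prime → p ≠ 2 → p ≤ Module.finrank (ZMod v) T → (∀ x, B x x = 0) →
  (∀ x y, B (F x) (F y) = B x y) → (∀ x, (F ^ p) x = x) →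
  ∃ w, w ≠ 0 ∧ ∀ i : ℕ, B w ((F ^ i) w) = 0

/-- **QMOD**: the representation on an elementary abelian section `X/Z`. -/
def Stmt_QMOD : Prop := ∀ (E : Type) [Group E] [Finite E] (v : ℕ) [Fact v.Prime]
  (X Z : Subgroup E) [X.Normal] [Z.Normal], Z ≤ X → (∀ a ∈ X, ∀ b ∈ X, ⁅a, b⁆ ∈ Z) →
  (∀ a ∈ X, a ^ v ∈ Z) →
  ∃ (V : Type) (_ : AddCommGroup V) (_ : Module (ZMod v) V) (_ : Finite V)
    (ρ : Representation (ZMod v) E V) (f : ↥X → V), Function.Surjective f ∧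
    (∀ x y, f (x * y) = f x + f y) ∧ (∀ x, f x = 0 ↔ (x : E) ∈ Z) ∧
    (∀ (g : E) (x y : ↥X), (y : E) = g * x * g⁻¹ → f y = ρ g (f x))

/-- The situation of the last cases of QL: `W` is an invariant subspace, `Z` the subgroup of
elements of `Y` acting as scalars on `W`, `T = X1/Z` an elementary abelian chief-type section of
`Y`, nondegenerate under the commutator pairing, not centralised by `H`, with `y` trivial on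
`C_T(φ)`. -/
structure Ext5 {k E V : Type} [Field k] [Group E] [AddCommGroup V] [Module k V]
    (ρ : Representation k E V) (p v r q : ℕ) (φ y : E) (Y H Z X1 : Subgroup E)
    (W : Submodule k V) : Prop where
  yh : YH p v r q φ y Y H
  hp : (p : k) ≠ 0
  hv : (v : k) ≠ 0
  hq : (q : k) ≠ 0
  hW : W ≠ ⊥
  iY : InvS ρ Y W
  iH : InvS ρ H W
  iφ : Inv ρ φ W
  iy : Inv ρ y W
  hZ : ∀ x, x ∈ Z ↔ x ∈ Y ∧ Scal ρ x W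
  hZX : Z ≤ X1
  hXY : X1 ≤ Y
  nY : NzS Y X1
  nH : NzS H X1
  nφ : Nz φ X1
  ny : Nz y X1
  cl : ∀ a ∈ X1, ∀ b ∈ Y, ⁅a, b⁆ ∈ Z
  el : ∀ a ∈ X1, a ^ v ∈ Z
  nd : ∀ a ∈ X1, (∀ b ∈ X1, ∀ w ∈ W, ρ ⁅a, b⁆ w = w) → a ∈ Z
  mn : ∀ X' : Subgroup E, Z ≤ X' → X' ≤ X1 → NzS H X' → Nz φ X' → Nz y X' → X' = Z ∨ X' = X1
  nt : ∃ a ∈ X1, ∃ h ∈ H, ⁅h, a⁆ ∉ Z
  hy0 : ∀ a ∈ X1, ⁅φ, a⁆ ∈ Z → ⁅y, a⁆ ∈ Z

/-- The conclusion of type A for the element `y`. -/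
def ConcA {k E V : Type} [Field k] [Group E] [AddCommGroup V] [Module k V]
    (ρ : Representation k E V) (φ y : E) (Y : Subgroup E) : Prop :=
  ∃ y' ∈ zpowers y, ∃ X N : Subgroup E, X ≤ Y ∧ N ≤ X ∧ Nz φ X ∧ Nz φ N ∧ Nz y' X ∧ Nz y' N ∧
    NzS X N ∧ (∀ a ∈ X, ∀ b ∈ X, ⁅a, b⁆ ∈ N) ∧ goodA ρ φ X N (zpowers y')

/-- **QLQ**: case `v = q` -/
def Stmt_QLQ : Prop := ∀ (k E V : Type) [Field k] [IsAlgClosed k] [Group E] [Finite E]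
  [AddCommGroup V] [Module k V] [FiniteDimensional k V] (ρ : Representation k E V)
  (p r q : ℕ) (φ y : E) (Y H Z X1 : Subgroup E) (W : Submodule k V),
  Ext5 ρ p q r q φ y Y H Z X1 W → ConcA ρ φ y Y

/-- **EXC**: the exceptional case `q = v = 2`, `p = 3` in QLQ. -/
def Stmt_EXC : Prop := ∀ (E T : Type) [Group E] [Finite E] [AddCommGroup T] [Module (ZMod 2) T]
  [Finite T] (ρ : Representation (ZMod 2) E T) (r : ℕ) (φ y : E) (Y H : Subgroup E),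
  YH 3 2 r 2 φ y Y H → (∀ w ∈ Y, ∀ x, ρ w x = x) → (∃ h ∈ H, ∃ x, ρ h x ≠ x) →
  (∀ x, ρ (y ^ 2) x = x) → 2 < Module.finrank (ZMod 2) (LinearMap.range (ρ y - 1))

/-- **QLV**: case `v ≠ q` -/
def Stmt_QLV : Prop := ∀ (k E V : Type) [Field k] [IsAlgClosed k] [Group E] [Finite E]
  [AddCommGroup V] [Module k V] [FiniteDimensional k V] (ρ : Representation k E V)
  (p v r q : ℕ) (φ y : E) (Y H Z X1 : Subgroup E) (W : Submodule k V),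
  Ext5 ρ p v r q φ y Y H Z X1 W → v ≠ q → Nz y H →
  (∀ x ∈ fx H φ, ∀ w ∈ Y, ⁅x, y⁆ * w = w * ⁅x, y⁆) → ConcA ρ φ y Y

/-- **QL** -/
def Stmt_QL : Prop := ∀ (k E V : Type) [Field k] [IsAlgClosed k] [Group E] [Finite E]
  [AddCommGroup V] [Module k V] [FiniteDimensional k V] (ρ : Representation k E V)
  (p v r q : ℕ) (φ y : E) (Y H B : Subgroup E), YH p v r q φ y Y H → (p : k) ≠ 0 →
  (v : k) ≠ 0 → (q : k) ≠ 0 → y ∈ B → NzS (fx Y φ) B → (∃ w ∈ Y, ∃ x, ρ w x ≠ x) →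
  (v ≠ q → Nz y H ∧ ∀ x ∈ fx H φ, ∀ w ∈ Y, ⁅x, y⁆ * w = w * ⁅x, y⁆) →
  ConcA ρ φ y Y ∨
  (∃ N : Subgroup E, ∃ z ∈ Y, z ∈ B ∧ φ * z = z * φ ∧ N ≤ Y ∧ Nz φ N ∧ NzS Y N ∧
    (∀ w ∈ Y, ⁅z, w⁆ ∈ N) ∧ goodB ρ φ Y N z)

/-! ## System level blocks -/

/-- **REPR** -/
def Stmt_REPR : Prop := ∀ (S : Sys) (s : ℕ) [Fact s.Prime], Nonempty (Mod S s)

/-- **FAITH** -/
def Stmt_FAITH : Prop := ∀ (S : Sys) (t : ℕ) (Y : Subgroup S.next.Γ), t.Prime →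
  Y ≤ Op t S.next.G → Y ≠ ⊥ → ∃ (s : ℕ) (_ : Fact s.Prime), s ≠ t ∧ s ∣ Nat.card S.G ∧
    ∀ M : Mod S s, ∃ y ∈ Y, ∃ v, M.ρ y v ≠ v

/-- **TRANS** -/
def Stmt_TRANS : Prop := ∀ (S : Sys) (κ s q : ℕ) (x d : S.Γ), s.Prime → q.Prime → s ≠ q →
  x ∈ Op s S.G → S.φ * x = x * S.φ → d ∈ S.G → S.φ * d = d * S.φ → (∃ n : ℕ, d ^ q ^ n = 1) →
  S.pr d ∈ S.next.B (κ + 1) → ⁅x, d⁆ ∈ S.B κ

/-- **LIFT** -/
def Stmt_LIFT : Prop := ∀ (S : Sys) (s : ℕ) [Fact s.Prime] (M : Mod S s) (t : ℕ)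
  (P1 X : Subgroup S.next.Γ) (U : Submodule (ZMod s) M.V), t.Prime → t ≠ s → s ≠ S.p →
  S.next.φ ∈ P1 → P1 ≤ S.next.G ⊔ zpowers S.next.φ → ¬ s ∣ Nat.card P1 → X ≤ P1 →
  X ≤ S.next.G → IsPGroup t X → NzS P1 X → Irr M.ρ (P1 : Set S.next.Γ) U →
  ∃ H X' Y' : Subgroup S.Γ, S.φ ∈ H ∧ H.map S.pr = P1 ∧ X' ≤ H ∧ X' ≤ S.G ∧ IsPGroup t X' ∧
    Nz S.φ X' ∧ X'.map S.pr = X ∧ ¬ s ∣ Nat.card H ∧ Y' ≤ Op s S.G ∧ NzS H Y' ∧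
    (∀ y : ↥(Op s S.G), (y : S.Γ) ∈ Y' → M.f y ∈ U) ∧
    (∀ u ∈ U, ∃ y : ↥(Op s S.G), (y : S.Γ) ∈ Y' ∧ M.f y = u) ∧
    (∀ y : ↥(Op s S.G), (y : S.Γ) ∈ Y' → M.f y = 0 → (y : S.Γ) ∈ Phi s Y')

/-- **SUCA** -/
def Stmt_SUCA : Prop := ∀ (S : Sys) (κ s : ℕ) [Fact s.Prime] (M : Mod S s) (t q : ℕ)
  (X N D : Subgroup S.next.Γ), t.Prime → q.Prime → t ≠ s → q ≠ s → s ≠ S.p → X ≤ S.next.G →
  IsPGroup t X → Nz S.next.φ X → N ≤ X → Nz S.next.φ N → NzS X N →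
  (∀ a ∈ X, ∀ b ∈ X, ⁅a, b⁆ ∈ N) → IsPGroup q D → D ≤ S.next.B (κ + 1) → NzS D X → NzS D N →
  goodA M.ρ S.next.φ X N D → isDATA S κ

/-- **SUCB** -/
def Stmt_SUCB : Prop := ∀ (S : Sys) (κ s : ℕ) [Fact s.Prime] (M : Mod S s) (t : ℕ)
  (Y N : Subgroup S.next.Γ) (z : S.next.Γ), t.Prime → t ≠ s → s ≠ S.p → Y ≤ S.next.G →
  IsPGroup t Y → Nz S.next.φ Y → N ≤ Y → Nz S.next.φ N → NzS Y N → z ∈ Y →
  z ∈ S.next.B (κ + 1) → (∀ w ∈ Y, ⁅z, w⁆ ∈ N) → goodB M.ρ S.next.φ Y N z → isDATA S κ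

/-- **DOWN** -/
def Stmt_DOWN : Prop := ∀ (S : Sys) (κ : ℕ), isDATA S.next (κ + 1) → isDATA S κ

/-- **M** -/
def Stmt_M : Prop := ∀ (S : Sys) (κ l : ℕ), κ ≤ l → ¬ isDATA (S.lev l) κ

/-- **FINDR** -/
def Stmt_FINDR : Prop := ∀ (S : Sys) (q : ℕ) (y : S.Γ), q.Prime → y ∈ S.G →
  (∃ n : ℕ, y ^ q ^ n = 1) → y ∉ Ft S.G →
  (∃ r : ℕ, r.Prime ∧ r ≠ q ∧ ∃ x ∈ Op r S.G, y * x ≠ x * y) ∨
  (∃ r : ℕ, r.Prime ∧ r ≠ q ∧ ∃ x ∈ Op r S.next.G, S.pr y * x ≠ x * S.pr y)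

/-- **GETM** -/
def Stmt_GETM : Prop := ∀ (S : Sys) (q r : ℕ) (y : S.Γ) (R : Subgroup S.next.Γ), q.Prime →
  r.Prime → q ≠ r → y ∈ S.G → S.φ * y = y * S.φ → (∃ n : ℕ, y ^ q ^ n = 1) → y ≠ 1 →
  R ≤ S.next.G → R ≠ ⊥ → IsPGroup r R → Nz S.next.φ R → Nz (S.pr y) R →
  cm R S.next.φ = R → cm R (S.pr y) = R →
  ∃ H : Subgroup S.Γ, H ≤ S.G ∧ H.map S.pr = R ∧ IsPGroup r H ∧ Nz S.φ H ∧ cm H S.φ = H ∧
    (Op q S.G ≠ ⊥ → YH S.p q r q S.φ y ⁅Op q S.G, H⁆ H) ∧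
    ((∀ x ∈ Op q S.G, ∀ h ∈ H, x * h = h * x) → Nz y H ∧ cm H y = H ∧
      ∀ v : ℕ, v.Prime → v ≠ r → v ≠ q → Op v S.G ≠ ⊥ → YH S.p v r q S.φ y ⁅Op v S.G, H⁆ H)

/-- **QLS** -/
def Stmt_QLS : Prop := ∀ (S : Sys) (κ v r q t : ℕ) (Y H : Subgroup S.next.Γ) (y : S.next.Γ)
  [Fact t.Prime] (M : Mod S t), y ∈ S.next.B (κ + 1) →
  YH S.p v r q S.next.φ y Y H → Y ≤ Op v S.next.G → H ≤ S.next.G → t ≠ v → t ≠ q → t ≠ S.p →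
  (∃ w ∈ Y, ∃ x, M.ρ w x ≠ x) →
  (v ≠ q → Nz y H ∧ ∀ x ∈ fx H S.next.φ, ∀ w ∈ Y, ⁅x, y⁆ * w = w * ⁅x, y⁆) →
  isDATA S κ

/-- **INIT** -/
def Stmt_INIT : Prop := ∀ (S : Sys) (κ q r : ℕ) (y : S.Γ), q.Prime → r.Prime → r ≠ q →
  y ∈ S.B (κ + 1) → (∃ n : ℕ, y ^ q ^ n = 1) → S.next.next.next.B κ = ⊥ →
  (∃ x ∈ Op r S.next.next.next.G, S.next.next.pr (S.next.pr (S.pr y)) * x ≠
    x * S.next.next.pr (S.next.pr (S.pr y))) →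
  isDATA S κ ∨ isDATA S.next κ

/-- **L1**: `F_κ(C_G(φ)) ≤ F_{κ+3}(G)` -/
def Stmt_L1 : Prop := ∀ (S : Sys) (κ : ℕ), (S.lev (κ + 3)).B κ = ⊥

/-- **DB** -/
def Stmt_DB : Prop := ∀ (k E V : Type) [Field k] [IsAlgClosed k] [Group E] [Finite E]
  [AddCommGroup V] [Module k V] [FiniteDimensional k V] (ρ : Representation k E V)
  (p q : ℕ) (φ : E) (P : Subgroup E) (W : Submodule k V),
  p.Prime → q.Prime → p ≠ q → (p : k) ≠ 0 → (q : k) ≠ 0 → φ ^ p = 1 → IsPGroup q P → Nz φ P →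
  P ≤ cm P φ → InvS ρ P W → Inv ρ φ W →
  (∀ U ≤ W, Irr ρ ((P : Set E) ∪ {φ}) U → ∃ u ∈ U, u ≠ 0 ∧ ρ φ u = u) →
  Module.finrank k (W ⊓ LinearMap.ker (sm ρ P) : Submodule k V) ≤
    2 * p * Module.finrank k (W ⊓ Module.End.eigenspace (ρ φ) 1 : Submodule k V)

/-- **VE** -/
def Stmt_VE : Prop := ∀ (p m : ℕ), p.Prime → ∃ b : ℕ, ∀ (E : Type) [Group E] [Finite E] (q : ℕ)
  (φ : E) (P : Subgroup E) (ι : Type) (k V : ι → Type) [∀ i, Field (k i)]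
  [∀ i, IsAlgClosed (k i)] [∀ i, AddCommGroup (V i)] [∀ i, Module (k i) (V i)]
  [∀ i, FiniteDimensional (k i) (V i)] (ρ : ∀ i, Representation (k i) E (V i)),
  q.Prime → p ≠ q → (∀ i, (p : k i) ≠ 0) → (∀ i, (q : k i) ≠ 0) → φ ^ p = 1 → IsPGroup q P →
  Nz φ P → P ≤ cm P φ → Nat.card (fx P φ) ≤ m → (∀ i v, ρ i φ v = v → v = 0) →
  Nat.card P ≤ b * Nat.card {x : E // x ∈ P ∧ ∀ i v, ρ i x v = v}

/-- **L2** -/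
def Stmt_L2 : Prop := ∀ p m : ℕ, ∃ b : ℕ, ∀ S : Sys, S.p = p → Nat.card (fx S.G S.φ) ≤ m →
  Nat.card S.next.G ≤ b

/-- `X` has a normal series of length `k` with nilpotent factors and a last term of index
`≤ m`. -/
def NS (X : Type) [Group X] (k m : ℕ) : Prop := ∃ s : ℕ → Subgroup X, s 0 = ⊥ ∧
  (∀ i, (s i).Normal) ∧ (∀ i, s i ≤ s (i + 1)) ∧
  (∀ i, i < k → ∀ a b : ℕ, a.Prime → b.Prime → a ≠ b → ∀ x ∈ s (i + 1), ∀ y ∈ s (i + 1),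
    (∃ n : ℕ, x ^ a ^ n = 1) → (∃ n : ℕ, y ^ b ^ n = 1) → ⁅x, y⁆ ∈ s i) ∧
  (s k).index ≤ m

/-- `C_G(φ)` for an automorphism -/
def fixAut {G : Type} [Group G] (A : Set (MulAut G)) : Subgroup G where
  carrier := {g | ∀ σ ∈ A, σ g = g}
  mul_mem' := by
    intro a b ha hb σ hσ
    rw [map_mul, ha σ hσ, hb σ hσ]
  one_mem' := fun σ _ => map_one σ
  inv_mem' := by
    intro a ha σ hσ
    rw [map_inv, ha σ hσ]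

/-- **S1** -/
def Stmt_S1 : Prop := ∀ r : ℕ, ∃ μ : ℕ, ∀ (H : Type) [Group H] [Finite H], Group.IsSolvable H →
  (∀ K : Subgroup H, ∃ S : Finset H, S.card ≤ r ∧ closure (S : Set H) = K) → NS H 2 μ

/-- **S1a** -/
def Stmt_S1a : Prop := ∀ n : ℕ, ∃ β : ℕ, ∀ (q : ℕ) [Fact q.Prime] (X V : Type) [Group X]
  [Finite X] [AddCommGroup V] [Module (ZMod q) V] [Finite V] (ρ : Representation (ZMod q) X V),
  Group.IsSolvable X → Module.finrank (ZMod q) V ≤ n →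
  (∀ K : Subgroup X, ∃ S : Finset X, S.card ≤ n ∧ closure (S : Set X) = K) →
  (∀ x, (∀ v, ρ x v = v) → x = 1) → Irr ρ (Set.univ) ⊤ →
  (Ft (⊤ : Subgroup X)).index ≤ β

/-- **CH**: one step of the chain -/
def Stmt_CH : Prop := ∀ p m : ℕ, p.Prime → ∃ b : ℕ, ∀ (k : ℕ) (G : Type) [Group G] [Finite G]
  (φ : MulAut G), Group.IsSolvable G → ¬ p ∣ Nat.card G → φ ^ p = 1 →
  NS (fixAut ({φ} : Set (MulAut G))) k m → NS G (k + 4) b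

/-- **FIN**: the frozen statement -/
def Stmt_FIN : Prop :=
  ∃ a b : ℕ, ∃ g : ℕ → ℕ → ℕ,
    ∀ (G : Type) [Group G], Finite G → IsSolvable G → ∀ (A : Subgroup (MulAut G)),
      IsSolvable (↥A) → Nat.Coprime (Nat.card (↥A)) (Nat.card G) →
      ∀ l r : ℕ, (Nat.card (↥A)).primeFactorsList.length = l →
      (∀ H : Subgroup G, (∀ h : G, h ∈ H → ∀ σ : MulAut G, σ ∈ A → σ h = h) →
        ∃ S : Finset G, S.card ≤ r ∧ Subgroup.closure (↑S : Set G) = H) →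
      ∃ N : Subgroup G, N.Normal ∧
        (∃ s : ℕ → Subgroup G, s 0 = ⊥ ∧ s (a * l + b) = N ∧
          ∀ i : ℕ, i < a * l + b → (s i).Normal ∧ s i ≤ s (i + 1) ∧
            ∃ m : ℕ, ∀ t : ℕ → Subgroup G, t 0 = s (i + 1) →
              (∀ j : ℕ, t (j + 1) = ⁅t j, s (i + 1)⁆) → t m ≤ s i) ∧
        ∀ H : Subgroup G, N ≤ H →
          ∃ S : Finset G, S.card ≤ g (Nat.card (↥A)) r ∧
            Subgroup.closure (↑S : Set G) ⊔ N = H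

end Pool.FH
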