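import Pool.Agent.Work.MP_4c212b_al.Interface

/-!
# MP_4c212b_al : block L2, part A (orders of groups)
-/

set_option autoImplicit false

open Subgroup
open scoped commutatorElement Pointwise

namespace Pool.FH.L2aux

variable {E : Type} [Group E] [Finite E]

theorem card_sup_le {H K : Subgroup E} (h : NzS H K) :
    Nat.card (H ⊔ K : Subgroup E) ≤ Nat.card H * Nat.card K := by
  have h1 : ((H ⊔ K : Subgroup E) : Set E) = (H : Set E) * (K : Set E) :=
    coe_mul_of_left_le_normalizer_right H K (Nz.le_normalizer h)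
  have h2 : Nat.card (H ⊔ K : Subgroup E) = Nat.card ((H : Set E) * (K : Set E) : Set E) := by
    rw [← h1]; rfl
  rw [h2]
  exact Set.natCard_mul_le

theorem card_Ft_le {G : Subgroup E} {b : ℕ} (h : ∀ t : ℕ, t.Prime → Nat.card (Op t G) ≤ b)  :
    Nat.card (Ft G) ≤ b ^ (b + 1) := by
  classical
  have key : ∀ n : ℕ, ∃ N : Subgroup E, N ≤ G ∧ NzS G N ∧ Nat.card N ≤ b ^ n ∧
      ∀ t < n, t.Prime → Op t G ≤ N := by
    intro n
    induction n with
    | zero =>
      exact ⟨⊥, bot_le, fun g _ x hx => by rw [mem_bot] at hx ⊢; subst hx; simp, by simp,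
        fun t ht => absurd ht (by omega)⟩
    | succ n ih =>
      obtain ⟨N, h1, h2, h3, h4⟩ := ih
      by_cases hn : n.Prime
      · have : Fact n.Prime := ⟨hn⟩
        refine ⟨N ⊔ Op n G, sup_le h1 (Op_le n G), ?_, ?_, ?_⟩
        · intro g hg
          exact (h2 g hg).sup (Op_nz n (Nz.of_mem hg))
        · calc Nat.card (N ⊔ Op n G : Subgroup E) ≤ Nat.card N * Nat.card (Op n G) :=
                card_sup_le fun g hg => Op_nz n (Nz.of_mem (h1 hg))
            _ ≤ b ^ n * b := Nat.mul_le_mul h3 (h n hn)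
            _ = b ^ (n + 1) := (pow_succ b n).symm
        · intro t ht htp
          rcases Nat.lt_succ_iff_lt_or_eq.1 ht with h5 | h5
          · exact (h4 t h5 htp).trans le_sup_left
          · subst h5; exact le_sup_right
      · refine ⟨N, h1, h2, ?_, ?_⟩
        · have hb : 1 ≤ b := by
            have := h 2 Nat.prime_two
            have h6 : 0 < Nat.card (Op 2 G) := Nat.card_pos
            omega
          exact h3.trans (Nat.pow_le_pow_right hb (Nat.le_succ n))
        · intro t ht htp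
          rcases Nat.lt_succ_iff_lt_or_eq.1 ht with h5 | h5
          · exact h4 t h5 htp
          · subst h5; exact absurd htp hn
  obtain ⟨N, h1, h2, h3, h4⟩ := key (b + 1)
  refine le_trans ?_ h3
  apply Subgroup.card_le_of_le
  refine iSup₂_le fun t ht => ?_
  have : Fact t.Prime := ⟨ht⟩
  by_cases htb : t < b + 1
  · exact h4 t htb ht
  · -- `Op t G = ⊥`
    have h5 : Op t G = ⊥ := by
      by_contra hne
      obtain ⟨n, hn⟩ := (IsPGroup.iff_card).1 (Op_isP t G)
      have hn0 : n ≠ 0 := by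
        rintro rfl
        rw [pow_zero] at hn
        exact hne (Subgroup.card_eq_one.1 hn)
      have h6 := h t ht
      rw [hn] at h6
      have h7 : t ^ 1 ≤ t ^ n := Nat.pow_le_pow_right ht.pos (by omega)
      rw [pow_one] at h7
      omega
    rw [h5]; exact bot_le

/-- `|G| ≤ |F| |F|!` if `C_G(F) ≤ F` -/
theorem card_le_of_cent {G F : Subgroup E} (hF : NzS G F)
    (h : ∀ x ∈ G, (∀ y ∈ F, x * y = y * x) → x ∈ F) :
    Nat.card G ≤ Nat.card F * (Nat.card F).factorial := by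
  classical
  let f : G →* Equiv.Perm F :=
    { toFun := fun g =>
        { toFun := fun x => ⟨g.1 * x.1 * g.1⁻¹, hF g.1 g.2 x.1 x.2⟩
          invFun := fun x => ⟨g.1⁻¹ * x.1 * g.1⁻¹⁻¹, hF g.1⁻¹ (G.inv_mem g.2) x.1 x.2⟩
          left_inv := fun x => Subtype.ext (by simp [mul_assoc])
          right_inv := fun x => Subtype.ext (by simp [mul_assoc]) }
      map_one' := by
        ext x; simp
      map_mul' := by
        intro a b; ext x; simp [mul_assoc] }
  have hk : Nat.card f.ker ≤ Nat.card F := by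
    apply Nat.card_le_card_of_injective (fun x : f.ker => (⟨(x : G).1, by
      apply h _ (x : G).2
      intro y hy
      have h1 := congrArg (fun e : Equiv.Perm F => ((e ⟨y, hy⟩ : F) : E)) (MonoidHom.mem_ker.1 x.2)
      change (x : G).1 * y * (x : G).1⁻¹ = y at h1
      exact mul_inv_eq_iff_eq_mul.1 h1⟩ : F))
    intro a b hab
    have := congrArg (fun z : F => (z : E)) hab
    exact Subtype.ext (Subtype.ext this)
  have h1 : Nat.card G = Nat.card f.ker * f.ker.index := (Subgroup.card_mul_index f.ker).symm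
  rw [h1, Subgroup.index_ker]
  apply Nat.mul_le_mul hk
  calc Nat.card f.range ≤ Nat.card (Equiv.Perm F) := Nat.card_le_card_of_injective _
        Subtype.val_injective
    _ = (Nat.card F).factorial := Nat.card_perm

/-- `|Q| ≤ |[Q, φ]| |C_Q(φ)|` -/
theorem card_le_cm {p : ℕ} [Fact p.Prime] {Q : Subgroup E} {φ : E} (hφ : φ ^ p = 1)
    (hN : ¬ p ∣ Nat.card Q) (h : Nz φ Q) :
    Nat.card Q ≤ Nat.card (cm Q φ) * Nat.card (fx Q φ) := by
  rw [← Nat.card_prod]
  have hc : cm Q φ ≤ Q := cm_le h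
  apply Nat.card_le_card_of_surjective
    (fun x : cm Q φ × fx Q φ => (⟨x.1.1 * x.2.1, Q.mul_mem (hc x.1.2) (fx_le x.2.2)⟩ : Q))
  rintro ⟨y, hy⟩
  obtain ⟨d, hd, c, hc, rfl⟩ := cm_decomp (n := 1) (by rwa [pow_one]) hN h hy
  exact ⟨(⟨d, hd⟩, ⟨c, hc⟩), rfl⟩

/-- `C_{next G}(φ)` is the image of `C_G(φ)` -/
theorem card_fx_next (S : Sys) : Nat.card (fx S.next.G S.next.φ) ≤ Nat.card (fx S.G S.φ) := by
  have key : ∀ x ∈ fx S.next.G S.next.φ, ∃ y ∈ fx S.G S.φ, S.pr y = x := by
    intro x hx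
    obtain ⟨hx1, hx2⟩ := mem_fx.1 hx
    rw [S.next_G] at hx1
    obtain ⟨c, hc, rfl⟩ := hx1
    obtain ⟨n, hn, h⟩ := fx_lift S.pr S.hφ (c := c)
      (by rw [S.ker_pr]; exact S.cop_of_le (Ft_le _)) hx2
    have hn' : S.pr n = 1 := hn
    rw [S.ker_pr] at hn
    exact ⟨c * n, mem_fx.2 ⟨S.G.mul_mem hc (Ft_le _ hn), h⟩, by rw [map_mul, hn', mul_one]⟩
  apply Nat.card_le_card_of_surjective
    (fun y : fx S.G S.φ => (⟨S.pr y.1, by
      obtain ⟨h1, h2⟩ := mem_fx.1 y.2
      refine mem_fx.2 ⟨⟨y.1, h1, rfl⟩, ?_⟩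
      rw [S.next_φ, ← map_mul, h2, map_mul]⟩ : fx S.next.G S.next.φ))
  rintro ⟨x, hx⟩
  obtain ⟨y, hy, rfl⟩ := key x hx
  exact ⟨⟨y, hy⟩, rfl⟩

end Pool.FH.L2aux
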