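import Pool.Agent.Work.MP_4c212b_al.Interface

/-!
# MP_4c212b_al : block L2, part B (one module)
-/

set_option autoImplicit false

open Subgroup
open scoped commutatorElement TensorProduct Pointwise

namespace Pool.FH.L2aux

theorem card_D {E : Type} [Group E] [Finite E] {p q s : ℕ} [Fact s.Prime] (hp : p.Prime)
    (hq : q.Prime) (hsp : s ≠ p) (hsq : s ≠ q) {φ : E} {P : Subgroup E} (hφ : φ ^ p = 1)
    (hP : IsPGroup q P) (nφ : Nz φ P) :
    (Nat.card (P ⊔ zpowers φ : Subgroup E) : ZMod s) ≠ 0 := by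
  classical
  intro h0
  rw [ZMod.natCast_eq_zero_iff] at h0
  obtain ⟨x, hx⟩ := exists_prime_orderOf_dvd_card' s h0
  -- `x = a φ ^ i`
  have hdec : ∀ y ∈ P ⊔ zpowers φ, ∃ a ∈ P, ∃ i : ℤ, y = a * φ ^ i := by
    intro y hy
    have h1 : zpowers φ ≤ normalizer (P : Set E) := Nz.le_normalizer (by
      rintro _ ⟨k, rfl⟩; exact nφ.zpow k)
    have h2 : ((P ⊔ zpowers φ : Subgroup E) : Set E) = (P : Set E) * (zpowers φ : Set E) := by
      exact coe_mul_of_right_le_normalizer_left P (zpowers φ) h1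
    have h3 : y ∈ (P : Set E) * (zpowers φ : Set E) := by rw [← h2]; exact hy
    obtain ⟨a, ha, b, hb, rfl⟩ := Set.mem_mul.1 h3
    obtain ⟨i, rfl⟩ := mem_zpowers_iff.1 hb
    exact ⟨a, ha, i, rfl⟩
  obtain ⟨a, ha, i, hxe⟩ := hdec x.1 x.2
  have hpow : ∀ n : ℕ, ∃ b ∈ P, (x : E) ^ n = b * φ ^ (i * n) := by
    intro n
    induction n with
    | zero => exact ⟨1, one_mem _, by simp⟩
    | succ n ih =>
      obtain ⟨b, hb, h1⟩ := ih
      refine ⟨b * (φ ^ (i * n) * a * (φ ^ (i * n))⁻¹),
        P.mul_mem hb ((nφ.zpow (i * n)) a ha), ?_⟩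
      rw [pow_succ, h1, hxe]
      have : i * ((n + 1 : ℕ) : ℤ) = i * n + i := by push_cast; ring
      rw [this, zpow_add]
      group
  obtain ⟨b, hb, h1⟩ := hpow p
  have h2 : φ ^ (i * p) = 1 := by
    rw [mul_comm, zpow_mul, zpow_natCast, hφ, one_zpow]
  rw [h2, mul_one] at h1
  obtain ⟨n, hn⟩ := hP ⟨b, hb⟩
  have h3 : (x : E) ^ (p * q ^ n) = 1 := by
    rw [pow_mul, h1]
    simpa using congrArg Subtype.val hn
  have h4 : orderOf x ∣ p * q ^ n := by
    apply orderOf_dvd_of_pow_eq_one
    exact Subtype.ext (by simpa using h3)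
  rw [hx] at h4
  have hs : s.Prime := Fact.out
  rcases (Nat.Prime.dvd_mul hs).1 h4 with h | h
  · exact hsp ((Nat.prime_dvd_prime_iff_eq hs hp).1 h)
  · exact hsq ((Nat.prime_dvd_prime_iff_eq hs hq).1 (hs.dvd_of_dvd_pow h))

section bc

variable {k E V : Type} [Field k] [Group E] [Finite E] [AddCommGroup V] [Module k V]
variable (K : Type) [Field K] [Algebra k K]

omit [Finite E] [Group E] in
theorem finrank_le_bc [FiniteDimensional k V] (X : Submodule k V) (Y : Submodule K (K ⊗[k] V))
    (h : ∀ x ∈ X, (1 : K) ⊗ₜ[k] x ∈ Y) : Module.finrank k X ≤ Module.finrank K Y := by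
  have h1 : Function.Injective (X.subtype.baseChange K) := by
    exact Module.Flat.lTensor_preserves_injective_linearMap (M := K) X.subtype
      Subtype.val_injective
  have h2 : LinearMap.range (X.subtype.baseChange K) ≤ Y := by
    rintro _ ⟨w, rfl⟩
    induction w using TensorProduct.induction_on with
    | zero => simp
    | tmul c x =>
      rw [LinearMap.baseChange_tmul]
      have h3 : c ⊗ₜ[k] (X.subtype x) = c • ((1 : K) ⊗ₜ[k] (x : V)) := by
        rw [TensorProduct.smul_tmul']; simp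
      rw [h3]
      exact Y.smul_mem c (h x x.2)
    | add a b ha hb => rw [map_add]; exact Y.add_mem ha hb
  rw [← Module.finrank_baseChange (R := K) (S := k) (M' := X), ← LinearMap.finrank_range_of_inj h1]
  exact Submodule.finrank_mono h2

theorem finrank_fix_bc [FiniteDimensional k V] {ρ : Representation k E V} {φ : E} {p : ℕ}
    (hφ : φ ^ p = 1) (hp : (p : k) ≠ 0) :
    Module.finrank K (Module.End.eigenspace (bc K ρ φ) 1 : Submodule K (K ⊗[k] V)) ≤
      Module.finrank k (LinearMap.ker (ρ φ - 1)) := by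
  set C : Submodule k V := LinearMap.ker (ρ φ - 1) with hC
  have hpK : (p : K) ≠ 0 := by
    intro h0
    apply hp
    apply (algebraMap k K).injective
    rw [map_natCast, map_zero, h0]
  have h1 : (Module.End.eigenspace (bc K ρ φ) 1 : Submodule K (K ⊗[k] V)) ≤
      LinearMap.range (C.subtype.baseChange K) := by
    intro w hw
    rw [Module.End.mem_eigenspace_iff, one_smul] at hw
    have h2 : ∀ i : ℕ, bc K ρ (φ ^ i) w = w := by
      intro i
      induction i with
      | zero => simp
      | succ i ih => rw [pow_succ, map_mul, Module.End.mul_apply, hw, ih]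
    have h3 : ∑ i ∈ Finset.range p, bc K ρ (φ ^ i) w = (p : K) • w := by
      rw [Finset.sum_congr rfl (fun i _ => h2 i), Finset.sum_const, Finset.card_range,
        ← Nat.cast_smul_eq_nsmul K]
    have h4 : ∀ u : K ⊗[k] V, ∑ i ∈ Finset.range p, bc K ρ (φ ^ i) u ∈
        LinearMap.range (C.subtype.baseChange K) := by
      intro u
      induction u using TensorProduct.induction_on with
      | zero => simp
      | tmul c v =>
        have h5 : ∑ i ∈ Finset.range p, ρ (φ ^ i) v ∈ C := by
          rw [hC, LinearMap.mem_ker, LinearMap.sub_apply, orbit_sum_fixed hφ]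
          simp
        refine ⟨c ⊗ₜ ⟨_, h5⟩, ?_⟩
        rw [LinearMap.baseChange_tmul]
        simp only [bc_tmul]
        rw [← TensorProduct.tmul_sum]
        rfl
      | add a b ha hb =>
        simp only [map_add]
        rw [Finset.sum_add_distrib]
        exact Submodule.add_mem _ ha hb
    have h6 : w = (p : K)⁻¹ • (∑ i ∈ Finset.range p, bc K ρ (φ ^ i) w) := by
      rw [h3, smul_smul, inv_mul_cancel₀ hpK, one_smul]
    rw [h6]
    exact Submodule.smul_mem _ _ (h4 w)
  refine (Submodule.finrank_mono h1).trans ?_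
  refine (LinearMap.finrank_range_le _).trans ?_
  rw [Module.finrank_baseChange]

theorem bc_sum {ρ : Representation k E V} {ι : Type} (s : Finset ι) (f : ι → E) (c : K) (v : V) :
    ∑ i ∈ s, bc K ρ (f i) (c ⊗ₜ[k] v) = c ⊗ₜ[k] (∑ i ∈ s, ρ (f i) v) := by
  simp only [bc_tmul]
  rw [← TensorProduct.tmul_sum]

/-- the sum operator commutes with base change -/
theorem sm_bc {ρ : Representation k E V} (P : Subgroup E) (c : K) (v : V) :
    sm (bc K ρ) P (c ⊗ₜ[k] v) = c ⊗ₜ[k] (sm ρ P v) := by
  classical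
  have := Fintype.ofFinite P
  unfold sm
  rw [finsum_eq_sum_of_fintype, finsum_eq_sum_of_fintype, LinearMap.sum_apply,
    LinearMap.sum_apply]
  exact bc_sum K Finset.univ (fun i : P => (i : E)) c v

end bc

/-- the pointwise stabiliser of a subspace -/
def ptw {k E V : Type} [Field k] [Group E] [AddCommGroup V] [Module k V]
    (ρ : Representation k E V) (X : Submodule k V) : Subgroup E where
  carrier := {x | ∀ v ∈ X, ρ x v = v}
  mul_mem' := by
    intro a b ha hb v hv
    rw [map_mul, Module.End.mul_apply, hb v hv, ha v hv]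
  one_mem' := by intro v _; simp
  inv_mem' := by
    intro a ha v hv
    have h1 : ρ a⁻¹ (ρ a v) = v := by
      rw [← Module.End.mul_apply, ← map_mul, inv_mul_cancel, map_one, Module.End.one_apply]
    rwa [ha v hv] at h1

theorem mem_ptw {k E V : Type} [Field k] [Group E] [AddCommGroup V] [Module k V]
    {ρ : Representation k E V} {X : Submodule k V} {x : E} :
    x ∈ ptw ρ X ↔ ∀ v ∈ X, ρ x v = v := Iff.rfl

theorem relIndex_ptw {k E V : Type} [Field k] [Group E] [Finite E] [AddCommGroup V] [Module k V]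
    [Finite V] {ρ : Representation k E V} {X : Submodule k V} {P : Subgroup E} (h : InvS ρ P X) :
    (P ⊓ ptw ρ X).relIndex P ≤ (Nat.card X).factorial := by
  classical
  have hi : ∀ (x : E) (v : V), ρ x⁻¹ (ρ x v) = v := by
    intro x v
    rw [← Module.End.mul_apply, ← map_mul, inv_mul_cancel, map_one, Module.End.one_apply]
  have hi' : ∀ (x : E) (v : V), ρ x (ρ x⁻¹ v) = v := by
    intro x v
    rw [← Module.End.mul_apply, ← map_mul, mul_inv_cancel, map_one, Module.End.one_apply]
  let f : P →* Equiv.Perm X :=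
    { toFun := fun g =>
        { toFun := fun x => ⟨ρ g.1 x.1, h g.1 g.2 x.1 x.2⟩
          invFun := fun x => ⟨ρ g.1⁻¹ x.1, h g.1⁻¹ (P.inv_mem g.2) x.1 x.2⟩
          left_inv := fun x => Subtype.ext (hi _ _)
          right_inv := fun x => Subtype.ext (hi' _ _) }
      map_one' := by
        ext x; simp
      map_mul' := by
        intro a b; ext x; simp }
  have hk : (P ⊓ ptw ρ X).subgroupOf P = f.ker := by
    ext x
    rw [mem_subgroupOf, mem_inf, MonoidHom.mem_ker]
    constructor
    · rintro ⟨_, h1⟩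
      ext v
      exact h1 v.1 v.2
    · intro h1
      refine ⟨x.2, fun v hv => ?_⟩
      exact congrArg (fun e : Equiv.Perm X => ((e ⟨v, hv⟩ : X) : V)) h1
  rw [relIndex, hk, Subgroup.index_ker]
  calc Nat.card f.range ≤ Nat.card (Equiv.Perm X) := Nat.card_le_card_of_injective _
        Subtype.val_injective
    _ = (Nat.card X).factorial := Nat.card_perm

theorem modB (hDB : Stmt_DB) {E V : Type} [Group E] [Finite E] {s : ℕ} [Fact s.Prime]
    [AddCommGroup V] [Module (ZMod s) V] [Finite V] (ρ : Representation (ZMod s) E V) {p q : ℕ}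
    (hp : p.Prime) (hq : q.Prime) (hpq : p ≠ q) (hsp : s ≠ p) (hsq : s ≠ q) {φ : E}
    {P : Subgroup E} (hφ : φ ^ p = 1) (hP : IsPGroup q P) (nφ : Nz φ P) (hPφ : P ≤ cm P φ)
    {m : ℕ} (hm : Nat.card {v : V // ρ φ v = v} ≤ m) :
    ∃ Ve Vg : Submodule (ZMod s) V, InvS ρ (P ⊔ zpowers φ) Ve ∧ Ve ⊔ Vg = ⊤ ∧
      (∀ v ∈ Ve, ∑ i ∈ Finset.range p, ρ (φ ^ i) v = 0) ∧
      ∃ Kg : Subgroup E, Kg ≤ P ∧ (∀ x ∈ Kg, ∀ v ∈ Vg, ρ x v = v) ∧
        Kg.relIndex P ≤ (m ^ (2 * p)).factorial ∧ (m < s → Kg = P) := by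
  classical
  have hsP : s.Prime := Fact.out
  have hqF : Fact q.Prime := ⟨hq⟩
  set D : Subgroup E := P ⊔ zpowers φ with hDdef
  have hPD : P ≤ D := le_sup_left
  have hφD : φ ∈ D := (le_sup_right : zpowers φ ≤ D) (mem_zpowers φ)
  have hpow : ∀ i : ℕ, φ ^ i ∈ D := fun i => D.pow_mem hφD i
  have hcD := card_D hp hq hsp hsq hφ hP nφ
  rw [← hDdef] at hcD
  have hp0 : (p : ZMod s) ≠ 0 := by
    rw [Ne, ZMod.natCast_eq_zero_iff]
    exact fun h => hsp ((Nat.prime_dvd_prime_iff_eq hsP hp).1 h)
  have hq0 : (q : ZMod s) ≠ 0 := by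
    rw [Ne, ZMod.natCast_eq_zero_iff]
    exact fun h => hsq ((Nat.prime_dvd_prime_iff_eq hsP hq).1 h)
  have hPc : (Nat.card P : ZMod s) ≠ 0 := card_ne_zero_of_isPGroup hP hq0
  let T : E → (V →ₗ[ZMod s] V) := fun g => ∑ i ∈ Finset.range p, ρ (φ ^ i * g)
  have hT : ∀ g v, T g v = ∑ i ∈ Finset.range p, ρ (φ ^ i) (ρ g v) := by
    intro g v
    change (∑ i ∈ Finset.range p, ρ (φ ^ i * g)) v = _
    rw [LinearMap.sum_apply]
    refine Finset.sum_congr rfl fun i _ => ?_
    rw [map_mul, Module.End.mul_apply]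
  let Ve : Submodule (ZMod s) V := ⨅ g : D, LinearMap.ker (T g)
  have hVe : ∀ v, v ∈ Ve ↔ ∀ g ∈ D, T g v = 0 := by
    intro v
    change v ∈ (⨅ g : D, LinearMap.ker (T g)) ↔ _
    rw [Submodule.mem_iInf]
    constructor
    · intro h g hg
      exact h ⟨g, hg⟩
    · rintro h ⟨g, hg⟩
      exact h g hg
  have hVeD : InvS ρ D Ve := by
    intro h hh v hv
    rw [hVe] at hv ⊢
    intro g hg
    have h1 := hv (g * h) (D.mul_mem hg hh)
    rw [hT] at h1 ⊢
    rw [map_mul, Module.End.mul_apply] at h1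
    exact h1
  obtain ⟨Vg, -, hVgD, hsup, hinf⟩ := exists_compl (ρ := ρ) (P := D) hcD (W := ⊤) (U := Ve)
    (fun g _ w _ => Submodule.mem_top) hVeD le_top
  let K := AlgebraicClosure (ZMod s)
  let Wg : Submodule K (K ⊗[ZMod s] V) :=
    Submodule.span K ((fun v => (1 : K) ⊗ₜ[ZMod s] v) '' (Vg : Set V))
  have hWgm : ∀ v ∈ Vg, (1 : K) ⊗ₜ[ZMod s] v ∈ Wg := fun v hv =>
    Submodule.subset_span ⟨v, hv, rfl⟩
  have hWgD : InvS (bc K ρ) D Wg := by
    intro g hg w hw
    induction hw using Submodule.span_induction with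
    | mem x hx =>
      obtain ⟨v, hv, rfl⟩ := hx
      simp only [bc_tmul]
      exact hWgm _ (hVgD g hg v hv)
    | zero => rw [map_zero]; exact Wg.zero_mem
    | add x y _ _ hx hy => rw [map_add]; exact Wg.add_mem hx hy
    | smul c x _ hx => rw [map_smul]; exact Wg.smul_mem c hx
  have hTK : ∀ g w, (T g).baseChange K w = ∑ i ∈ Finset.range p, bc K ρ (φ ^ i) (bc K ρ g w) := by
    intro g w
    induction w using TensorProduct.induction_on with
    | zero => simp
    | tmul c v =>
      rw [LinearMap.baseChange_tmul, hT, bc_tmul, bc_sum]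
    | add a b ha hb =>
      simp only [map_add]
      rw [Finset.sum_add_distrib, ha, hb]
  have hinj : ∀ w ∈ Wg, (∀ g ∈ D, (T g).baseChange K w = 0) → w = 0 := by
    let J : V →ₗ[ZMod s] (D → V) := LinearMap.pi (fun g : D => T g)
    let j : Vg →ₗ[ZMod s] (D → V) := J ∘ₗ Vg.subtype
    have hj : LinearMap.ker j = ⊥ := by
      rw [LinearMap.ker_eq_bot']
      intro v hv
      have h1 : (v : V) ∈ Ve := by
        rw [hVe]
        intro g hg
        exact congrFun hv ⟨g, hg⟩
      have h2 : (v : V) ∈ Ve ⊓ Vg := ⟨h1, v.2⟩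
      rw [hinf, Submodule.mem_bot] at h2
      exact Subtype.ext h2
    obtain ⟨L, hL⟩ := LinearMap.exists_leftInverse_of_injective j hj
    let Lg : D → (V →ₗ[ZMod s] V) := fun g =>
      Vg.subtype ∘ₗ L ∘ₗ LinearMap.single (ZMod s) (fun _ : D => V) g
    have hLg : ∀ v ∈ Vg, ∑ᶠ g : D, Lg g (T g v) = v := by
      intro v hv
      have := Fintype.ofFinite D
      rw [finsum_eq_sum_of_fintype]
      have h1 : L (j ⟨v, hv⟩) = ⟨v, hv⟩ := by
        have := LinearMap.congr_fun hL ⟨v, hv⟩
        simpa using this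
      have h2 : j ⟨v, hv⟩ = ∑ g : D, LinearMap.single (ZMod s) (fun _ : D => V) g (T g v) := by
        have := LinearMap.sum_single_apply (fun _ : D => V) (j ⟨v, hv⟩)
        exact this.symm
      rw [h2, map_sum] at h1
      have h3 := congrArg Vg.subtype h1
      rw [map_sum] at h3
      exact h3
    intro w hw h0
    have := Fintype.ofFinite D
    have key : ∑ g : D, (Lg g).baseChange K ((T g).baseChange K w) = w := by
      clear h0
      induction hw using Submodule.span_induction with
      | mem x hx =>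
        obtain ⟨v, hv, rfl⟩ := hx
        simp only [LinearMap.baseChange_tmul]
        rw [← TensorProduct.tmul_sum]
        have h1 := hLg v hv
        rw [finsum_eq_sum_of_fintype] at h1
        rw [h1]
      | zero => simp
      | add x y _ _ hx hy =>
        simp only [map_add]
        rw [Finset.sum_add_distrib, hx, hy]
      | smul c x _ hx =>
        simp only [map_smul]
        rw [← Finset.smul_sum, hx]
    rw [← key]
    apply Finset.sum_eq_zero
    intro g _
    rw [h0 g g.2, map_zero]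
  have hpK : (p : K) ≠ 0 := by
    intro h0
    apply hp0
    apply (algebraMap (ZMod s) K).injective
    rw [map_natCast, map_zero, h0]
  have hqK : (q : K) ≠ 0 := by
    intro h0
    apply hq0
    apply (algebraMap (ZMod s) K).injective
    rw [map_natCast, map_zero, h0]
  have hmain := hDB K E (K ⊗[ZMod s] V) (bc K ρ) p q φ P Wg hp hq hpq hpK hqK hφ hP nφ hPφ
    (fun g hg => hWgD g (hPD hg)) (hWgD φ hφD) (by
      intro U hUW hU
      by_contra hcon
      push Not at hcon
      obtain ⟨hU0, hUinv, -⟩ := hU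
      apply hU0
      rw [eq_bot_iff]
      intro u hu
      rw [Submodule.mem_bot]
      have hUD : InvS (bc K ρ) D U := by
        apply InvS.sup
        · intro g hg
          exact hUinv g (Or.inl hg)
        · exact InvS.zpowers (hUinv φ (Or.inr rfl))
      apply hinj u (hUW hu)
      intro g hg
      rw [hTK]
      have h1 : ∑ i ∈ Finset.range p, bc K ρ (φ ^ i) (bc K ρ g u) ∈ U := by
        apply Submodule.sum_mem
        intro i _
        exact hUD _ (hpow i) _ (hUD g hg u hu)
      by_contra hne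
      exact hcon _ h1 hne (orbit_sum_fixed hφ _))
  -- the dimension estimate
  set X : Submodule (ZMod s) V := Vg ⊓ LinearMap.ker (sm ρ P) with hX
  set C : Submodule (ZMod s) V := LinearMap.ker (ρ φ - 1) with hC
  have hXC : Module.finrank (ZMod s) X ≤ 2 * p * Module.finrank (ZMod s) C := by
    have h1 : Module.finrank (ZMod s) X ≤
        Module.finrank K (Wg ⊓ LinearMap.ker (sm (bc K ρ) P) : Submodule K (K ⊗[ZMod s] V)) := by
      apply finrank_le_bc
      intro x hx
      refine ⟨hWgm x hx.1, ?_⟩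
      change sm (bc K ρ) P (1 ⊗ₜ x) = 0
      have h2 : sm ρ P x = 0 := hx.2
      rw [sm_bc, h2, TensorProduct.tmul_zero]
    have h2 : Module.finrank K
        (Wg ⊓ Module.End.eigenspace (bc K ρ φ) 1 : Submodule K (K ⊗[ZMod s] V)) ≤
        Module.finrank (ZMod s) C :=
      (Submodule.finrank_mono inf_le_right).trans (finrank_fix_bc K hφ hp0)
    calc Module.finrank (ZMod s) X ≤ _ := h1
      _ ≤ _ := hmain
      _ ≤ 2 * p * Module.finrank (ZMod s) C := Nat.mul_le_mul_left _ h2
  have hcX : Nat.card X = s ^ Module.finrank (ZMod s) X := by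
    have := Module.natCard_eq_pow_finrank (K := ZMod s) (V := X)
    rwa [Nat.card_zmod] at this
  have hcC : s ^ Module.finrank (ZMod s) C ≤ m := by
    have h1 := Module.natCard_eq_pow_finrank (K := ZMod s) (V := C)
    rw [Nat.card_zmod] at h1
    rw [← h1]
    refine le_trans (le_of_eq ?_) hm
    apply Nat.card_congr
    refine Equiv.subtypeEquivRight fun v => ?_
    rw [hC, LinearMap.mem_ker, LinearMap.sub_apply, Module.End.one_apply, sub_eq_zero]
  have hXP : InvS ρ P X := by
    intro g hg v hv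
    refine ⟨hVgD g (hPD hg) v hv.1, ?_⟩
    change sm ρ P (ρ g v) = 0
    rw [sm_rho hg]
    exact hv.2
  refine ⟨Ve, Vg, hVeD, hsup, ?_, P ⊓ ptw ρ X, inf_le_left, ?_, ?_, ?_⟩
  · intro v hv
    have h1 := (hVe v).1 hv 1 (one_mem _)
    rw [hT] at h1
    simpa using h1
  · rintro x ⟨hxP, hx⟩ v hv
    obtain ⟨a, ha, b, hb, h1, h2, rfl⟩ := sm_decomp (ρ := ρ) hPc
      (W := Vg) (fun g hg => hVgD g (hPD hg)) hv
    rw [map_add, h1 x hxP]
    congr 1
    exact hx b ⟨hb, h2⟩
  · refine (relIndex_ptw hXP).trans ?_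
    apply Nat.factorial_le
    rw [hcX]
    calc s ^ Module.finrank (ZMod s) X ≤ s ^ (2 * p * Module.finrank (ZMod s) C) :=
          Nat.pow_le_pow_right hsP.pos hXC
      _ = (s ^ Module.finrank (ZMod s) C) ^ (2 * p) := by rw [← pow_mul, mul_comm]
      _ ≤ m ^ (2 * p) := Nat.pow_le_pow_left hcC _
  · intro hms
    have h1 : Module.finrank (ZMod s) C = 0 := by
      by_contra hne
      have h2 : s ^ 1 ≤ s ^ Module.finrank (ZMod s) C :=
        Nat.pow_le_pow_right hsP.pos (Nat.one_le_iff_ne_zero.2 hne)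
      rw [pow_one] at h2
      omega
    rw [h1, mul_zero] at hXC
    have h2 : X = ⊥ := Submodule.finrank_eq_zero.1 (Nat.le_zero.1 hXC)
    apply le_antisymm inf_le_left
    refine le_inf le_rfl ?_
    intro x _ v hv
    rw [h2, Submodule.mem_bot] at hv
    rw [hv, map_zero]

end Pool.FH.L2aux
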