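import Pool.Agent.Work.MP_4c212b_al.STEP
import Pool.Agent.Work.MP_4c212b_al.QMOD

/-!
# Block NZ, part 2: the contradiction with EX
-/

set_option autoImplicit false
set_option linter.unusedSectionVars false
set_option linter.unusedVariables false

open Subgroup
open scoped commutatorElement TensorProduct

namespace Pool.FH

namespace NZAux

open StepAux

theorem zmod2_cases (c : ZMod 2) : c = 0 ∨ c = 1 := by
  revert c; decide

theorem neg2 (c : ZMod 2) : -c = c := by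
  revert c; decide

/-- a bilinear form from a biadditive function -/
noncomputable def mkB {V : Type} [AddCommGroup V] [Module (ZMod 2) V] (b : V → V → ZMod 2)
    (h1 : ∀ x y z, b (x + y) z = b x z + b y z) (h2 : ∀ x y z, b x (y + z) = b x y + b x z) :
    V →ₗ[ZMod 2] V →ₗ[ZMod 2] ZMod 2 :=
  LinearMap.mk₂ (ZMod 2) b h1
    (fun c x y => by
      have h0 : b 0 y = 0 := by
        have := h1 0 0 y
        rw [add_zero] at this
        simpa using this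
      rcases zmod2_cases c with rfl | rfl
      · rw [zero_smul, zero_smul, h0]
      · rw [one_smul, one_smul])
    h2
    (fun c x y => by
      have h0 : b x 0 = 0 := by
        have := h2 x 0 0
        rw [add_zero] at this
        simpa using this
      rcases zmod2_cases c with rfl | rfl
      · rw [zero_smul, zero_smul, h0]
      · rw [one_smul, one_smul])

theorem mkB_apply {V : Type} [AddCommGroup V] [Module (ZMod 2) V] (b : V → V → ZMod 2)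
    (h1 : ∀ x y z, b (x + y) z = b x z + b y z) (h2 : ∀ x y z, b x (y + z) = b x y + b x z)
    (x y : V) : mkB b h1 h2 x y = b x y := by
  simp [mkB]

theorem ex_contra (hEX : Stmt_EX) (hQM : Stmt_QMOD) {E : Type} [Group E] [Finite E] {p u e : ℕ}
    {φ : E} {H X1 Z : Subgroup E} (hp : p.Prime) (hu : u.Prime) (hu2 : u ≠ 2) (hpu : p ≠ u)
    (hpe : p = 2 ^ e + 1) (he : 0 < e) (hφ : φ ^ p = 1) (hH : IsPGroup u H) (nφH : Nz φ H)
    (hHφ : H ≤ cm H φ) (hZX : Z ≤ X1) (nφX : Nz φ X1) (nφZ : Nz φ Z) (nHX : NzS H X1)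
    (nHZ : NzS H Z) (nXZ : NzS X1 Z) (hab : ∀ a ∈ X1, ∀ b ∈ X1, ⁅a, b⁆ ∈ Z)
    (hsq : ∀ a ∈ X1, a ^ 2 ∈ Z)
    (δ : E → E → ZMod 2)
    (h1 : ∀ x ∈ X1, ∀ x' ∈ X1, ∀ y ∈ X1, δ (x * x') y = δ x y + δ x' y)
    (h2 : ∀ x ∈ X1, ∀ y ∈ X1, ∀ y' ∈ X1, δ x (y * y') = δ x y + δ x y')
    (h3 : ∀ x ∈ X1, δ x x = 0)
    (h4 : ∀ g, (g ∈ H ∨ g = φ) → ∀ x ∈ X1, ∀ y ∈ X1, δ (g * x * g⁻¹) (g * y * g⁻¹) = δ x y)
    (h5 : ∀ x ∈ X1, (∀ y ∈ X1, δ x y = 0) → x ∈ Z) (h6 : ∀ x ∈ Z, ∀ y ∈ X1, δ x y = 0)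
    (h7 : ∀ x ∈ Z, ∀ y ∈ X1, δ y x = 0)
    (hcard : Nat.card ↥(cm X1 φ ⊔ Z) = (2 ^ e) ^ 2 * Nat.card Z)
    (hnt : ∃ h ∈ H, ∃ x ∈ X1, ⁅h, x⁆ ∉ Z) : False := by
  classical
  -- the normaliser of `X1` and `Z`
  let L : Subgroup E :=
    { carrier := {g | Nz g X1 ∧ Nz g Z}
      mul_mem' := fun {a b} ha hb => ⟨ha.1.mul hb.1, ha.2.mul hb.2⟩
      one_mem' := ⟨Nz.one _, Nz.one _⟩
      inv_mem' := fun {a} ha => ⟨ha.1.inv, ha.2.inv⟩ }
  have hXL : X1 ≤ L := fun x hx => ⟨Nz.of_mem hx, nXZ x hx⟩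
  have hZL : Z ≤ L := hZX.trans hXL
  have hHL : H ≤ L := fun x hx => ⟨nHX x hx, nHZ x hx⟩
  have hφL : φ ∈ L := ⟨nφX, nφZ⟩
  have nX : (X1.subgroupOf L).Normal := ⟨fun x hx g => g.2.1 _ hx⟩
  have nZ : (Z.subgroupOf L).Normal := ⟨fun x hx g => g.2.2 _ hx⟩
  have : Fact (Nat.Prime 2) := ⟨Nat.prime_two⟩
  obtain ⟨V, iV1, iV2, iV3, ρ, f, hfs, hfm, hf0, hfρ⟩ := hQM ↥L 2 (X1.subgroupOf L)
    (Z.subgroupOf L) (fun x hx => hZX hx)
    (fun a ha b hb => hab _ ha _ hb) (fun a ha => hsq _ ha)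
  have hf1 : f 1 = 0 := (hf0 1).2 (by simp)
  have hfinv : ∀ x, f x⁻¹ = - f x := by
    intro x
    have := hfm x⁻¹ x
    rw [inv_mul_cancel, hf1] at this
    exact (neg_eq_of_add_eq_zero_left this.symm).symm
  -- elements with the same image
  have hmem : ∀ x : ↥(X1.subgroupOf L), ((x : ↥L) : E) ∈ X1 := fun x => x.2
  have hsame : ∀ x x' : ↥(X1.subgroupOf L), f x = f x' →
      ((x : ↥L) : E) * ((x' : ↥L) : E)⁻¹ ∈ Z := by
    intro x x' h
    have h8 : f (x * x'⁻¹) = 0 := by rw [hfm, hfinv, h, add_neg_cancel]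
    exact (hf0 _).1 h8
  have hδl : ∀ x x' : ↥(X1.subgroupOf L), f x = f x' → ∀ y ∈ X1,
      δ ((x : ↥L) : E) y = δ ((x' : ↥L) : E) y := by
    intro x x' h y hy
    have h8 := h6 _ (hsame x x' h) y hy
    rw [h1 _ (hmem x) _ (X1.inv_mem (hmem x')) y hy] at h8
    have h9 := h1 _ (X1.inv_mem (hmem x')) _ (hmem x') y hy
    rw [inv_mul_cancel, h6 1 Z.one_mem y hy] at h9
    have h10 : δ (((x' : ↥L) : E)⁻¹) y = δ ((x' : ↥L) : E) y := by
      have : δ (((x' : ↥L) : E)⁻¹) y = - δ ((x' : ↥L) : E) y :=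
        (neg_eq_of_add_eq_zero_left h9.symm).symm
      rw [this, neg2]
    rw [h10] at h8
    have h11 : δ ((x : ↥L) : E) y = - δ ((x' : ↥L) : E) y := (neg_eq_of_add_eq_zero_left h8).symm
    rw [h11, neg2]
  have hδr : ∀ x x' : ↥(X1.subgroupOf L), f x = f x' → ∀ y ∈ X1,
      δ y ((x : ↥L) : E) = δ y ((x' : ↥L) : E) := by
    intro x x' h y hy
    have h8 := h7 _ (hsame x x' h) y hy
    rw [h2 y hy _ (hmem x) _ (X1.inv_mem (hmem x'))] at h8
    have h9 := h2 y hy _ (X1.inv_mem (hmem x')) _ (hmem x')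
    rw [inv_mul_cancel, h7 1 Z.one_mem y hy] at h9
    have h10 : δ y (((x' : ↥L) : E)⁻¹) = δ y ((x' : ↥L) : E) := by
      have : δ y (((x' : ↥L) : E)⁻¹) = - δ y ((x' : ↥L) : E) :=
        (neg_eq_of_add_eq_zero_left h9.symm).symm
      rw [this, neg2]
    rw [h10] at h8
    have h11 : δ y ((x : ↥L) : E) = - δ y ((x' : ↥L) : E) := (neg_eq_of_add_eq_zero_left h8).symm
    rw [h11, neg2]
  choose s hs using hfs
  let b : V → V → ZMod 2 := fun x y => δ ((s x : ↥L) : E) ((s y : ↥L) : E)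
  have hb : ∀ x y : ↥(X1.subgroupOf L), b (f x) (f y) = δ ((x : ↥L) : E) ((y : ↥L) : E) := by
    intro x y
    change δ ((s (f x) : ↥L) : E) ((s (f y) : ↥L) : E) = _
    rw [hδl _ x (hs (f x)) _ (hmem _), hδr _ y (hs (f y)) _ (hmem _)]
  have hb1 : ∀ x y z, b (x + y) z = b x z + b y z := by
    intro x y z
    obtain ⟨x, rfl⟩ : ∃ x', f x' = x := ⟨_, hs x⟩
    obtain ⟨y, rfl⟩ : ∃ x', f x' = y := ⟨_, hs y⟩
    obtain ⟨z, rfl⟩ : ∃ x', f x' = z := ⟨_, hs z⟩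
    rw [← hfm, hb, hb, hb]
    exact h1 _ (hmem x) _ (hmem y) _ (hmem z)
  have hb2 : ∀ x y z, b x (y + z) = b x y + b x z := by
    intro x y z
    obtain ⟨x, rfl⟩ : ∃ x', f x' = x := ⟨_, hs x⟩
    obtain ⟨y, rfl⟩ : ∃ x', f x' = y := ⟨_, hs y⟩
    obtain ⟨z, rfl⟩ : ∃ x', f x' = z := ⟨_, hs z⟩
    rw [← hfm, hb, hb, hb]
    exact h2 _ (hmem x) _ (hmem y) _ (hmem z)
  have hinv : ∀ g : ↥L, ((g : E) ∈ H ∨ (g : E) = φ) → ∀ x y : V,
      mkB b hb1 hb2 (ρ g x) (ρ g y) = mkB b hb1 hb2 x y := by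
    intro g hg x y
    obtain ⟨x, rfl⟩ : ∃ x', f x' = x := ⟨_, hs x⟩
    obtain ⟨y, rfl⟩ : ∃ x', f x' = y := ⟨_, hs y⟩
    have hx := hfρ g x ⟨g * x * g⁻¹, nX.conj_mem _ x.2 g⟩ rfl
    have hy := hfρ g y ⟨g * y * g⁻¹, nX.conj_mem _ y.2 g⟩ rfl
    rw [mkB_apply, mkB_apply, ← hx, ← hy, hb, hb]
    exact h4 _ hg _ (hmem x) _ (hmem y)
  -- the elements of `R1` are mapped onto the range of `φ - 1`
  set φ' : ↥L := ⟨φ, hφL⟩ with hφ'
  have hcom : ∀ x : ↥(X1.subgroupOf L), ∀ c : ↥(X1.subgroupOf L),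
      ((c : ↥L) : E) = ⁅((x : ↥L) : E), φ⁆ → f c = f x - ρ φ' (f x) := by
    intro x c hc
    have hx := hfρ φ' x ⟨φ' * x * φ'⁻¹, nX.conj_mem _ x.2 φ'⟩ rfl
    rw [← hx, sub_eq_add_neg, ← hfinv, ← hfm]
    congr 1
    apply Subtype.ext
    apply Subtype.ext
    rw [hc, commutatorElement_def]
    change ((x : ↥L) : E) * φ * ((x : ↥L) : E)⁻¹ * φ⁻¹ =
      ((x : ↥L) : E) * (φ * ((x : ↥L) : E) * φ⁻¹)⁻¹
    group
  have hR1X : cm X1 φ ⊔ Z ≤ X1 := sup_le (cm_le nφX) hZX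
  -- the homomorphism on `R1`
  let j : ↥(cm X1 φ ⊔ Z) → ↥(X1.subgroupOf L) := fun x => ⟨⟨x, hXL (hR1X x.2)⟩, hR1X x.2⟩
  let F : ↥(cm X1 φ ⊔ Z) →* Multiplicative V :=
    { toFun := fun x => Multiplicative.ofAdd (f (j x))
      map_one' := by
        rw [show j 1 = 1 from rfl, hf1]; rfl
      map_mul' := fun x y => by
        rw [← ofAdd_add, ← hfm]; rfl }
  have hker : Nat.card F.ker = Nat.card Z := by
    refine Nat.card_congr (Equiv.ofBijective (fun x => (⟨x.1.1, ?_⟩ : ↥Z)) ⟨?_, ?_⟩)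
    · have hx : f (j x.1) = 0 := x.2
      exact (hf0 _).1 hx
    · intro x y h
      apply Subtype.ext
      apply Subtype.ext
      exact (congrArg (Subtype.val : ↥Z → E) h : _)
    · intro z
      refine ⟨⟨⟨z.1, le_sup_right (α := Subgroup E) z.2⟩, ?_⟩, rfl⟩
      change f (j _) = 0
      exact (hf0 _).2 z.2
  have hrange : Nat.card F.range = Nat.card (LinearMap.range (ρ φ' - 1)) := by
    refine Nat.card_congr (Equiv.ofBijective
      (fun x => (⟨Multiplicative.toAdd x.1, ?_⟩ : ↥(LinearMap.range (ρ φ' - 1)))) ⟨?_, ?_⟩)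
    · obtain ⟨_, ⟨r, hr⟩, rfl⟩ := x
      change f (j ⟨r, hr⟩) ∈ LinearMap.range (ρ φ' - 1)
      let D : Subgroup E :=
        { carrier := {r | ∃ h : r ∈ X1, f ⟨⟨r, hXL h⟩, h⟩ ∈ LinearMap.range (ρ φ' - 1)}
          mul_mem' := by
            rintro a b ⟨ha, ha'⟩ ⟨hb, hb'⟩
            refine ⟨X1.mul_mem ha hb, ?_⟩
            have := Submodule.add_mem _ ha' hb'
            rw [← hfm] at this
            exact this
          one_mem' := ⟨X1.one_mem, by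
            have : f ⟨⟨1, hXL X1.one_mem⟩, X1.one_mem⟩ = 0 := hf1
            rw [this]; exact Submodule.zero_mem _⟩
          inv_mem' := by
            rintro a ⟨ha, ha'⟩
            refine ⟨X1.inv_mem ha, ?_⟩
            have := Submodule.neg_mem _ ha'
            rw [← hfinv] at this
            exact this }
      have hD : cm X1 φ ⊔ Z ≤ D := by
        refine sup_le (cm_le_of' nφX ?_) ?_
        · intro x hx
          have hc : ⁅x, φ⁆ ∈ X1 := cm_le nφX (comm_mem_cm hx)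
          refine ⟨hc, ?_⟩
          rw [hcom ⟨⟨x, hXL hx⟩, hx⟩ ⟨⟨⁅x, φ⁆, hXL hc⟩, hc⟩ rfl]
          refine ⟨-(f ⟨⟨x, hXL hx⟩, hx⟩), ?_⟩
          rw [map_neg, LinearMap.sub_apply, Module.End.one_apply]; abel
        · intro z hz
          refine ⟨hZX hz, ?_⟩
          rw [(hf0 ⟨⟨z, hXL (hZX hz)⟩, hZX hz⟩).2 hz]; exact Submodule.zero_mem _
      exact (hD hr).2
    · intro x y h
      apply Subtype.ext
      have := congrArg Subtype.val h
      exact Multiplicative.toAdd.injective this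
    · rintro ⟨_, v, rfl⟩
      obtain ⟨x, rfl⟩ : ∃ x', f x' = v := ⟨_, hs v⟩
      have hc : ⁅((x : ↥L) : E), φ⁆ ∈ cm X1 φ := comm_mem_cm (hmem x)
      refine ⟨⟨F (⟨_, le_sup_left (α := Subgroup E) hc⟩⁻¹), ⟨_, rfl⟩⟩, ?_⟩
      apply Subtype.ext
      change Multiplicative.toAdd (F _) = _
      rw [map_inv, toAdd_inv]
      change - f (j _) = _
      refine (congrArg Neg.neg (hcom x (j _) rfl)).trans ?_
      change -(f x - ρ φ' (f x)) = ρ φ' (f x) - f x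
      abel
  have hcardR : Nat.card (LinearMap.range (ρ φ' - 1)) = (2 ^ e) ^ 2 := by
    have h8 := F.ker.card_mul_index
    rw [index_ker, hker, hrange, hcard, mul_comm] at h8
    exact Nat.eq_of_mul_eq_mul_right Nat.card_pos h8
  have hfinR : Module.finrank (ZMod 2) (LinearMap.range (ρ φ' - 1)) = 2 * e := by
    have h8 := Module.natCard_eq_pow_finrank (K := ZMod 2) (V := LinearMap.range (ρ φ' - 1))
    rw [hcardR, Nat.card_zmod, ← pow_mul] at h8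
    have h9 := Nat.pow_right_injective le_rfl h8
    omega
  have hrn := LinearMap.finrank_range_add_finrank_ker (ρ φ' - 1)
  have heig : Module.End.eigenspace (ρ φ') (1 : ZMod 2) = LinearMap.ker (ρ φ' - 1) := by
    rw [Module.End.eigenspace_def, one_smul]
  -- use EX
  refine hEX ↥L V ρ (mkB b hb1 hb2) p u e φ' (H.subgroupOf L) hp hu hu2 hpu hpe he ?_ ?_ ?_ ?_ ?_
    ?_ ?_ ?_ ?_ ?_
  · intro x
    obtain ⟨x, rfl⟩ : ∃ x', f x' = x := ⟨_, hs x⟩
    rw [mkB_apply, hb]; exact h3 _ (hmem x)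
  · intro x h
    obtain ⟨x, rfl⟩ : ∃ x', f x' = x := ⟨_, hs x⟩
    refine (hf0 x).2 (h5 _ (hmem x) fun y hy => ?_)
    have := h (f ⟨⟨y, hXL hy⟩, hy⟩)
    rw [mkB_apply, hb] at this
    exact this
  · exact hinv φ' (Or.inr rfl)
  · intro h hh
    exact hinv h (Or.inl hh)
  · exact Subtype.ext hφ
  · exact hH.comap_of_injective L.subtype L.subtype_injective
  · intro x hx
    exact nφH _ hx
  · -- `H ≤ [H, φ]`
    intro x hx
    have h8 : (x : E) ∈ (cm (H.subgroupOf L) φ').map L.subtype := by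
      rw [cm, map_commutator, MonoidHom.map_zpowers, map_subgroupOf_eq_of_le hHL]
      exact hHφ hx
    obtain ⟨y, hy, hxy⟩ := h8
    have : y = x := Subtype.ext hxy
    rw [← this]; exact hy
  · obtain ⟨h, hh, x, hx, hhx⟩ := hnt
    refine ⟨⟨h, hHL hh⟩, hh, f ⟨⟨x, hXL hx⟩, hx⟩, fun heq => hhx ?_⟩
    rw [← hfρ ⟨h, hHL hh⟩ ⟨⟨x, hXL hx⟩, hx⟩ ⟨⟨h * x * h⁻¹, hXL (nHX h hh x hx)⟩, nHX h hh x hx⟩
      rfl] at heq
    exact hsame _ _ heq
  · rw [heig]; omega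

end NZAux

end Pool.FH
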