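import Pool.Agent.Work.MP_4c212b_al.DB

/-!
# The `F_q`-form on a nondegenerate section `X1/Z`
-/

set_option autoImplicit false

open Subgroup
open scoped commutatorElement

namespace Pool.FH
namespace QForm

open DBaux

section

variable {k E V : Type} [Field k] [Group E] [Finite E] [AddCommGroup V] [Module k V]
variable {ρ : Representation k E V}

/-- `a b = c b a` on `W` -/
def Rel (ρ : Representation k E V) (W : Submodule k V) (c : k) (a b : E) : Prop :=
  ∀ w ∈ W, ρ a (ρ b w) = c • ρ b (ρ a w)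

variable {W : Submodule k V}

theorem Rel.mul_left {c c' : k} {a a' b : E} (ha' : Inv ρ a' W) (h : Rel ρ W c a b)
    (h' : Rel ρ W c' a' b) : Rel ρ W (c * c') (a * a') b := by
  intro w hw
  rw [mulap, h' w hw, map_smul, h _ (ha' w hw), smul_smul, mulap, mul_comm c]

theorem Rel.mul_right {c c' : k} {a b b' : E} (hb' : Inv ρ b' W) (h : Rel ρ W c a b)
    (h' : Rel ρ W c' a b') : Rel ρ W (c * c') a (b * b') := by
  intro w hw
  rw [mulap, h _ (hb' w hw), h' w hw, map_smul, smul_smul, mulap]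

theorem Rel.unique (hW : W ≠ ⊥) {c c' : k} {a b : E} (h : Rel ρ W c a b) (h' : Rel ρ W c' a b) :
    c = c' := by
  obtain ⟨w, hw, hw0⟩ := Submodule.exists_mem_ne_zero_of_ne_bot hW
  have h1 := h w hw
  rw [h' w hw] at h1
  have h2 : ρ b (ρ a w) ≠ 0 := by
    intro h3
    apply hw0
    have h4 : ρ (a⁻¹ * b⁻¹) (ρ b (ρ a w)) = w := by
      rw [mulap, ← mulap b⁻¹, inv_mul_cancel, oneap, ← mulap, inv_mul_cancel, oneap]
    rw [h3, map_zero] at h4
    exact h4.symm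
  have h5 : (c' - c) • ρ b (ρ a w) = 0 := by
    rw [sub_smul, h1, sub_self]
  rcases smul_eq_zero.1 h5 with h6 | h6
  · exact (sub_eq_zero.1 h6).symm
  · exact absurd h6 h2

theorem Rel.scal_left {a b : E} (ha : Scal ρ a W) (hb : Inv ρ b W) : Rel ρ W 1 a b := by
  obtain ⟨c, hc⟩ := ha
  intro w hw
  rw [one_smul, hc w hw, hc _ (hb w hw), map_smul]

theorem Rel.scal_right {a b : E} (hb : Scal ρ b W) (ha : Inv ρ a W) : Rel ρ W 1 a b := by
  obtain ⟨c, hc⟩ := hb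
  intro w hw
  rw [one_smul, hc w hw, hc _ (ha w hw), map_smul]

theorem Rel.self (a : E) : Rel ρ W 1 a a := fun w _ => by rw [one_smul]

theorem Rel.of_comm {a b : E} (ha : Inv ρ a W) (hb : Inv ρ b W) (h : Scal ρ ⁅a, b⁆ W) :
    ∃ c, Rel ρ W c a b := by
  obtain ⟨c, hc⟩ := h
  refine ⟨c, fun w hw => ?_⟩
  rw [← hc _ (hb _ (ha w hw)), ← mulap b a, ← mulap, ← mulap]
  have h2 : ⁅a, b⁆ * (b * a) = a * b := by
    simp only [commutatorElement_def]
    group
  rw [h2]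

theorem Rel.one_iff {a b : E} (ha : Inv ρ a W) (hb : Inv ρ b W) :
    Rel ρ W 1 a b ↔ ∀ w ∈ W, ρ ⁅a, b⁆ w = w := by
  rw [comm_iff ha hb]
  simp only [Rel, one_smul]

theorem Rel.conj {c : k} {a b g : E} (hg : Inv ρ g W) (h : Rel ρ W c a b) :
    Rel ρ W c (g * a * g⁻¹) (g * b * g⁻¹) := by
  intro w hw
  have h1 := congrArg (ρ g) (h _ (hg.inv w hw))
  rw [map_smul] at h1
  simp only [← mulap] at h1 ⊢
  have e1 : g * (a * (b * g⁻¹)) = g * a * g⁻¹ * (g * b * g⁻¹) := by group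
  have e2 : g * (b * (a * g⁻¹)) = g * b * g⁻¹ * (g * a * g⁻¹) := by group
  rw [e1, e2] at h1
  exact h1

theorem Rel.pow_right {c : k} {a b : E} (hb : Inv ρ b W) (h : Rel ρ W c a b) (n : ℕ) :
    Rel ρ W (c ^ n) a (b ^ n) := by
  induction n with
  | zero =>
    intro w hw
    rw [pow_zero, pow_zero, one_smul, oneap, oneap]
  | succ n ih =>
    rw [pow_succ, pow_succ]
    exact ih.mul_right hb h

theorem pow_val_add {ω : k} {q : ℕ} [Fact q.Prime] (hω : IsPrimitiveRoot ω q) (m n : ZMod q) :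
    ω ^ (m + n).val = ω ^ m.val * ω ^ n.val := by
  rw [ZMod.val_add, ← pow_add]
  conv_rhs => rw [← Nat.mod_add_div (m.val + n.val) q, pow_add, pow_mul, hω.pow_eq_one, one_pow,
    mul_one]

theorem pow_val_inj {ω : k} {q : ℕ} [Fact q.Prime] (hω : IsPrimitiveRoot ω q) {m n : ZMod q}
    (h : ω ^ m.val = ω ^ n.val) : m = n := by
  apply ZMod.val_injective q
  exact hω.pow_inj (ZMod.val_lt m) (ZMod.val_lt n) h

/-- The form. -/
theorem exists_form [IsAlgClosed k] (q : ℕ) [hq : Fact q.Prime] (hqk : (q : k) ≠ 0)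
    (X1 Z : Subgroup E) (hW : W ≠ ⊥) (hXW : InvS ρ X1 W) (hZX : Z ≤ X1)
    (hZ : ∀ z ∈ Z, Scal ρ z W) (hcl : ∀ a ∈ X1, ∀ b ∈ X1, ⁅a, b⁆ ∈ Z) (hel : ∀ a ∈ X1, a ^ q ∈ Z)
    (nd : ∀ a ∈ X1, (∀ b ∈ X1, ∀ w ∈ W, ρ ⁅a, b⁆ w = w) → a ∈ Z)
    {T : Type} [AddCommGroup T] [Module (ZMod q) T] (f : ↥X1 → T)
    (hf : Function.Surjective f) (hadd : ∀ x y, f (x * y) = f x + f y)
    (hf0 : ∀ x, f x = 0 ↔ (x : E) ∈ Z) :
    ∃ (ω : k) (B : T →ₗ[ZMod q] T →ₗ[ZMod q] ZMod q), IsPrimitiveRoot ω q ∧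
      (∀ a b : ↥X1, Rel ρ W (ω ^ (B (f a) (f b)).val) (a : E) (b : E)) ∧ (∀ x, B x x = 0) ∧
      (∀ x, (∀ y, B x y = 0) → x = 0) := by
  have hn : NeZero (q : k) := ⟨hqk⟩
  have hqq : NeZero q := ⟨hq.out.ne_zero⟩
  obtain ⟨ω, hω⟩ := HasEnoughRootsOfUnity.exists_primitiveRoot k q
  have hex : ∀ a b : ↥X1, ∃ n : ZMod q, Rel ρ W (ω ^ n.val) (a : E) (b : E) := by
    intro a b
    obtain ⟨c, hc⟩ := Rel.of_comm (hXW a a.2) (hXW b b.2) (hZ _ (hcl a a.2 b b.2))
    have h1 : c ^ q = 1 :=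
      Rel.unique hW (hc.pow_right (hXW b b.2) q) (Rel.scal_right (hZ _ (hel b b.2)) (hXW a a.2))
    obtain ⟨i, hi, hic⟩ := hω.eq_pow_of_pow_eq_one h1
    refine ⟨(i : ZMod q), ?_⟩
    rw [ZMod.val_natCast, Nat.mod_eq_of_lt hi, hic]
    exact hc
  choose n hn' using hex
  choose sec hsec using hf
  have hsame : ∀ a b : ↥X1, f a = f b → ∃ z : ↥X1, (z : E) ∈ Z ∧ a = z * b := by
    intro a b hab
    refine ⟨a * b⁻¹, ?_, by group⟩
    rw [← hf0]
    have h1 := hadd (a * b⁻¹) b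
    rw [inv_mul_cancel_right, hab] at h1
    have h2 : f (a * b⁻¹) + f b = 0 + f b := by rw [← h1, zero_add]
    exact add_right_cancel h2
  have key1 : ∀ a a' b : ↥X1, f a = f a' → n a b = n a' b := by
    intro a a' b h
    obtain ⟨z, hz, rfl⟩ := hsame a a' h
    have h1 := (Rel.scal_left (hZ z hz) (hXW b b.2)).mul_left (hXW a' a'.2) (hn' a' b)
    rw [one_mul] at h1
    exact pow_val_inj hω (Rel.unique hW (hn' (z * a') b) h1)
  have key2 : ∀ a b b' : ↥X1, f b = f b' → n a b = n a b' := by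
    intro a b b' h
    obtain ⟨z, hz, rfl⟩ := hsame b b' h
    have h1 := (Rel.scal_right (hZ z hz) (hXW a a.2)).mul_right (hXW b' b'.2) (hn' a b')
    rw [one_mul] at h1
    exact pow_val_inj hω (Rel.unique hW (hn' a (z * b')) h1)
  have addl : ∀ a a' b : ↥X1, n (a * a') b = n a b + n a' b := by
    intro a a' b
    apply pow_val_inj hω
    rw [pow_val_add hω]
    exact Rel.unique hW (hn' (a * a') b) ((hn' a b).mul_left (hXW a' a'.2) (hn' a' b))
  have addr : ∀ a b b' : ↥X1, n a (b * b') = n a b + n a b' := by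
    intro a b b'
    apply pow_val_inj hω
    rw [pow_val_add hω]
    exact Rel.unique hW (hn' a (b * b')) ((hn' a b).mul_right (hXW b' b'.2) (hn' a b'))
  let B1 : T → (T →+ ZMod q) := fun s => AddMonoidHom.mk' (fun t => n (sec s) (sec t)) (by
    intro t t'
    rw [← addr]
    apply key2
    rw [hadd, hsec, hsec, hsec])
  let B2 : T →+ (T →ₗ[ZMod q] ZMod q) := AddMonoidHom.mk'
    (fun s => (B1 s).toZModLinearMap q) (by
      intro s s'
      ext t
      change n (sec (s + s')) (sec t) = n (sec s) (sec t) + n (sec s') (sec t)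
      rw [← addl]
      apply key1
      rw [hadd, hsec, hsec, hsec])
  let B : T →ₗ[ZMod q] T →ₗ[ZMod q] ZMod q := B2.toZModLinearMap q
  have hB : ∀ a b : ↥X1, B (f a) (f b) = n a b := by
    intro a b
    change n (sec (f a)) (sec (f b)) = n a b
    rw [key1 _ a _ (hsec _), key2 _ _ b (hsec _)]
  refine ⟨ω, B, hω, ?_, ?_, ?_⟩
  · intro a b
    rw [hB]
    exact hn' a b
  · intro x
    change n (sec x) (sec x) = 0
    apply pow_val_inj hω
    rw [ZMod.val_zero, pow_zero]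
    exact Rel.unique hW (hn' _ _) (Rel.self _)
  · intro x hx
    rw [← hsec x, hf0]
    apply nd _ (sec x).2
    intro b hb
    rw [← Rel.one_iff (hXW _ (sec x).2) (hXW b hb)]
    have h1 := hn' (sec x) ⟨b, hb⟩
    have h2 : n (sec x) ⟨b, hb⟩ = 0 := by
      rw [← hB, hsec]
      exact hx _
    rw [h2, ZMod.val_zero, pow_zero] at h1
    exact h1

end

end QForm
end Pool.FH
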