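import Pool.Agent.Work.MP_4c212b_al.QForm

/-!
# Block QLQ
-/

set_option autoImplicit false

open Subgroup
open scoped commutatorElement

namespace Pool.FH
namespace QLQaux

open DBaux QForm

/-! ### Linear algebra on `T` -/

section lin

variable {q : ℕ} [hq : Fact q.Prime] {T : Type} [AddCommGroup T] [Module (ZMod q) T] [Finite T]

/-- the subspace `ker (θ - 1) ⊓ range (θ - 1)` -/
def II (θ : T →ₗ[ZMod q] T) : Submodule (ZMod q) T :=
  LinearMap.ker (θ - 1) ⊓ LinearMap.range (θ - 1)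

theorem mem_II {θ : T →ₗ[ZMod q] T} {t : T} : t ∈ II θ ↔ θ t = t ∧ ∃ s, θ s - s = t := by
  unfold II
  rw [Submodule.mem_inf, LinearMap.mem_ker, LinearMap.mem_range]
  simp only [LinearMap.sub_apply, Module.End.one_apply, sub_eq_zero]

theorem II_ne {θ : T →ₗ[ZMod q] T} {n : ℕ} (hθ : θ ^ q ^ n = 1) (hne : θ ≠ 1) : II θ ≠ ⊥ := by
  classical
  have hnt : Nontrivial T := by
    by_contra hcon
    rw [not_nontrivial_iff_subsingleton] at hcon
    exact hne (LinearMap.ext fun x => Subsingleton.elim _ _)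
  have hch : CharP (Module.End (ZMod q) T) q :=
    charP_of_injective_algebraMap (algebraMap (ZMod q) (Module.End (ZMod q) T)).injective q
  have hnil : (θ - 1) ^ q ^ n = 0 := by
    rw [sub_pow_char_pow_of_commute (p := q) (n := n) (Commute.one_right θ), hθ, one_pow, sub_self]
  have hex : ∃ j, (θ - 1) ^ j = 0 := ⟨_, hnil⟩
  obtain ⟨j, hj⟩ : ∃ j, j = Nat.find hex := ⟨_, rfl⟩
  have hj0 : (θ - 1) ^ j = 0 := by rw [hj]; exact Nat.find_spec hex
  have hj2 : 2 ≤ j := by
    by_contra hcon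
    have h1 : j = 0 ∨ j = 1 := by omega
    rcases h1 with h1 | h1
    · rw [h1, pow_zero] at hj0
      exact one_ne_zero hj0
    · rw [h1, pow_one] at hj0
      exact hne (sub_eq_zero.1 hj0)
  have hj1 : (θ - 1) ^ (j - 1) ≠ 0 := by
    intro h
    have := Nat.find_min' hex h
    omega
  obtain ⟨v, hv⟩ : ∃ v, ((θ - 1) ^ (j - 1)) v ≠ 0 := by
    by_contra hcon
    push Not at hcon
    exact hj1 (LinearMap.ext hcon)
  intro hbot
  apply hv
  have h1 : ((θ - 1) ^ (j - 1)) v ∈ II θ := by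
    rw [mem_II]
    constructor
    · have h2 : (θ - 1) (((θ - 1) ^ (j - 1)) v) = 0 := by
        rw [← Module.End.mul_apply, ← pow_succ', Nat.sub_add_cancel (by omega), hj0]
        rfl
      rw [LinearMap.sub_apply, Module.End.one_apply, sub_eq_zero] at h2
      exact h2
    · refine ⟨((θ - 1) ^ (j - 2)) v, ?_⟩
      have h2 : (θ - 1) (((θ - 1) ^ (j - 2)) v) = ((θ - 1) ^ (j - 1)) v := by
        rw [← Module.End.mul_apply, ← pow_succ']
        congr 2
        omega
      rw [← h2, LinearMap.sub_apply, Module.End.one_apply]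
  rw [hbot, Submodule.mem_bot] at h1
  exact h1

theorem II_fix {θ σ : T →ₗ[ZMod q] T} {p : ℕ} (hp : p.Prime) (hpq : p ≠ q) (hσ : σ ^ p = 1)
    (hc : ∀ t, θ (σ t) = σ (θ t)) (hfix : ∀ t, σ t = t → θ t = t) {t : T} (ht : t ∈ II θ)
    (hts : σ t = t) : t = 0 := by
  obtain ⟨-, s, hs⟩ := mem_II.1 ht
  have hpow : ∀ i : ℕ, ∀ x, (σ ^ (i + 1)) x = σ ((σ ^ i) x) := by
    intro i x
    rw [pow_succ', Module.End.mul_apply]
  have hcp : ∀ i : ℕ, ∀ x, θ ((σ ^ i) x) = (σ ^ i) (θ x) := by
    intro i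
    induction i with
    | zero => intro x; simp
    | succ i ih => intro x; rw [hpow, hpow, hc, ih]
  have htp : ∀ i : ℕ, (σ ^ i) t = t := by
    intro i
    induction i with
    | zero => simp
    | succ i ih => rw [hpow, ih, hts]
  obtain ⟨e, he⟩ : ∃ e, e = ∑ i ∈ Finset.range p, (σ ^ i) s := ⟨_, rfl⟩
  have he1 : σ e = e := by
    rw [he, map_sum]
    have h2 := Finset.sum_range_succ (fun i => (σ ^ i) s) p
    rw [Finset.sum_range_succ' (fun i => (σ ^ i) s) p, hσ, pow_zero] at h2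
    simp_rw [← hpow]
    exact add_right_cancel h2
  have he2 : θ e - e = (p : ZMod q) • t := by
    rw [he, map_sum, ← Finset.sum_sub_distrib]
    have h3 : ∀ i ∈ Finset.range p, θ ((σ ^ i) s) - (σ ^ i) s = t := by
      intro i _
      rw [hcp, ← map_sub, hs, htp]
    rw [Finset.sum_congr rfl h3, Finset.sum_const, Finset.card_range, Nat.cast_smul_eq_nsmul]
  rw [hfix e he1, sub_self] at he2
  have hp0 : (p : ZMod q) ≠ 0 := by
    rw [Ne, ZMod.natCast_eq_zero_iff]
    intro h
    exact hpq ((Nat.prime_dvd_prime_iff_eq hq.out hp).1 h).symm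
  exact (smul_eq_zero.1 he2.symm).resolve_left hp0

theorem II_map {θ σ : T →ₗ[ZMod q] T} (hc : ∀ t, θ (σ t) = σ (θ t)) {t : T} (ht : t ∈ II θ) :
    σ t ∈ II θ := by
  rw [mem_II] at ht ⊢
  obtain ⟨h1, s, hs⟩ := ht
  exact ⟨by rw [hc, h1], σ s, by rw [hc, ← map_sub, hs]⟩

theorem II_card {θ σ : T →ₗ[ZMod q] T} {p : ℕ} (hp : p.Prime) (hpq : p ≠ q) (hσ : σ ^ p = 1)
    (hc : ∀ t, θ (σ t) = σ (θ t)) (hfix : ∀ t, σ t = t → θ t = t) :
    q ^ (Module.finrank (ZMod q) (II θ)) ≡ 1 [MOD p] := by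
  classical
  have hpf : Fact p.Prime := ⟨hp⟩
  have := Fintype.ofFinite (II θ)
  let g : Function.End (II θ) := fun t => ⟨σ t, II_map hc t.2⟩
  have hg : g ^ p ^ 1 = 1 := by
    rw [pow_one]
    funext t
    apply Subtype.ext
    have h1 : ∀ i : ℕ, (((g ^ i) t : II θ) : T) = (σ ^ i) (t : T) := by
      intro i
      induction i with
      | zero => rfl
      | succ i ih =>
        rw [pow_succ', pow_succ', Module.End.mul_apply, ← ih]
        rfl
    rw [h1, hσ]
    rfl
  have h2 := Equiv.Perm.card_fixedPoints_modEq hg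
  have h3 : Fintype.card (Function.fixedPoints g) = 1 := by
    rw [Fintype.card_eq_one_iff]
    refine ⟨⟨0, ?_⟩, ?_⟩
    · apply Subtype.ext
      change σ 0 = 0
      exact map_zero σ
    · rintro ⟨t, ht⟩
      apply Subtype.ext
      apply Subtype.ext
      have h4 : σ (t : T) = t := congrArg Subtype.val ht
      exact II_fix hp hpq hσ hc hfix t.2 h4
  rw [h3] at h2
  have h4 : Fintype.card (II θ) = q ^ (Module.finrank (ZMod q) (II θ)) := by
    rw [Module.card_eq_pow_finrank (K := ZMod q), ZMod.card]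
  rw [h4] at h2
  exact h2

theorem B_orth {θ : T →ₗ[ZMod q] T} {B : T →ₗ[ZMod q] T →ₗ[ZMod q] ZMod q}
    (hB : ∀ s t, B (θ s) (θ t) = B s t) {s t : T} (hs : ∃ a, θ a - a = s) (ht : θ t = t) :
    B s t = 0 := by
  obtain ⟨a, rfl⟩ := hs
  rw [map_sub, LinearMap.sub_apply, ← hB a t, ht, sub_self]

end lin

/-! ### Sums of dimensions of independent families -/

section fam

variable {k V : Type} [Field k] [AddCommGroup V] [Module k V] [FiniteDimensional k V]

theorem sum_finrank_le {ι : Type} [DecidableEq ι] (s : Finset ι) (A : ι → Submodule k V)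
    (h : iSupIndep A) (W : Submodule k V) (hW : ∀ i ∈ s, A i ≤ W) :
    ∑ i ∈ s, Module.finrank k (A i) ≤ Module.finrank k W := by
  have key : ∑ i ∈ s, Module.finrank k (A i) ≤
      Module.finrank k (⨆ i ∈ (s : Set ι), A i : Submodule k V) := by
    clear hW
    induction s using Finset.induction_on with
    | empty => simp
    | insert a s ha ih =>
      rw [Finset.sum_insert ha, Finset.coe_insert, iSup_insert]
      have h1 : Disjoint (A a) (⨆ i ∈ (s : Set ι), A i) := h.disjoint_biSup (by simpa using ha)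
      have h2 := Submodule.finrank_sup_add_finrank_inf_eq (A a) (⨆ i ∈ (s : Set ι), A i)
      rw [disjoint_iff.1 h1, finrank_bot, add_zero] at h2
      rw [h2]
      omega
  refine key.trans (Submodule.finrank_mono ?_)
  exact iSup₂_le fun i hi => hW i hi

end fam

end QLQaux
end Pool.FH
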