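import Pool.Agent.Work.MP_4c212b_al.QLQ1

/-!
# Block QLQ, part 2: the situation
-/

set_option autoImplicit false

open Subgroup
open scoped commutatorElement

namespace Pool.FH
namespace QLQaux

open DBaux QForm

/-- the whole situation -/
structure Sit {k E V T : Type} [Field k] [Group E] [AddCommGroup V] [Module k V]
    [AddCommGroup T] (p r q : ℕ) [Module (ZMod q) T] (ρ : Representation k E V)
    (φ y : E) (Y H Z X1 : Subgroup E) (W : Submodule k V) (f : ↥X1 → T)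
    (θ σ : T →ₗ[ZMod q] T) (B : T →ₗ[ZMod q] T →ₗ[ZMod q] ZMod q) (ω : k) : Prop where
  ext : Ext5 ρ p q r q φ y Y H Z X1 W
  fs : Function.Surjective f
  fa : ∀ x x', f (x * x') = f x + f x'
  f0 : ∀ x, f x = 0 ↔ (x : E) ∈ Z
  fθ : ∀ x x' : ↥X1, (x' : E) = y * x * y⁻¹ → f x' = θ (f x)
  fσ : ∀ x x' : ↥X1, (x' : E) = φ * x * φ⁻¹ → f x' = σ (f x)
  pr : IsPrimitiveRoot ω q
  rel : ∀ a b : ↥X1, Rel ρ W (ω ^ (B (f a) (f b)).val) (a : E) (b : E)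
  alt : ∀ x, B x x = 0
  nd : ∀ x, (∀ y, B x y = 0) → x = 0
  ne : θ ≠ 1
  nc : ¬ ConcA ρ φ y Y

section

variable {k E V T : Type} [Field k] [IsAlgClosed k] [Group E] [Finite E] [AddCommGroup V]
  [Module k V] [FiniteDimensional k V] [AddCommGroup T] {p r q : ℕ} [hq : Fact q.Prime]
  [Module (ZMod q) T] [Finite T]
  {ρ : Representation k E V}
  {φ y : E} {Y H Z X1 : Subgroup E} {W : Submodule k V} {f : ↥X1 → T}
  {θ σ : T →ₗ[ZMod q] T} {B : T →ₗ[ZMod q] T →ₗ[ZMod q] ZMod q} {ω : k}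

namespace Sit

variable (h : Sit p r q ρ φ y Y H Z X1 W f θ σ B ω)

include h

theorem iX : InvS ρ X1 W := fun a ha => h.ext.iY a (h.ext.hXY ha)

theorem f1 : f 1 = 0 := (h.f0 1).2 (one_mem _)

theorem finv (x : ↥X1) : f x⁻¹ = - f x := by
  have h1 := h.fa x⁻¹ x
  rw [inv_mul_cancel, h.f1] at h1
  exact eq_neg_of_add_eq_zero_left h1.symm

theorem Bθ (s t : T) : B (θ s) (θ t) = B s t := by
  obtain ⟨a, rfl⟩ := h.fs s
  obtain ⟨b, rfl⟩ := h.fs t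
  have h1 := (h.rel a b).conj h.ext.iy
  have h2 := h.rel ⟨y * a * y⁻¹, h.ext.ny a a.2⟩ ⟨y * b * y⁻¹, h.ext.ny b b.2⟩
  rw [← h.fθ a ⟨y * a * y⁻¹, h.ext.ny a a.2⟩ rfl, ← h.fθ b ⟨y * b * y⁻¹, h.ext.ny b b.2⟩ rfl]
  exact pow_val_inj h.pr (Rel.unique h.ext.hW h2 h1)

theorem skew (s t : T) : B s t = - B t s := by
  have h1 := h.alt (s + t)
  simp only [map_add, LinearMap.add_apply, h.alt, zero_add, add_zero] at h1
  have h2 : B s t + B t s = 0 := by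
    rw [add_comm]
    exact h1
  exact eq_neg_of_add_eq_zero_left h2

theorem comm (t : T) : θ (σ t) = σ (θ t) := by
  obtain ⟨a, rfl⟩ := h.fs t
  rw [← h.fσ a ⟨φ * a * φ⁻¹, h.ext.nφ a a.2⟩ rfl, ← h.fθ a ⟨y * a * y⁻¹, h.ext.ny a a.2⟩ rfl,
    ← h.fσ ⟨y * a * y⁻¹, h.ext.ny a a.2⟩ ⟨y * (φ * a * φ⁻¹) * y⁻¹,
      h.ext.ny _ (h.ext.nφ a a.2)⟩ ?_,
    ← h.fθ ⟨φ * a * φ⁻¹, h.ext.nφ a a.2⟩ ⟨y * (φ * a * φ⁻¹) * y⁻¹,
      h.ext.ny _ (h.ext.nφ a a.2)⟩ rfl]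
  have h1 := h.ext.yh.hc
  change y * (φ * a * φ⁻¹) * y⁻¹ = φ * (y * a * y⁻¹) * φ⁻¹
  calc y * (φ * a * φ⁻¹) * y⁻¹ = (y * φ) * a * (y * φ)⁻¹ := by group
    _ = (φ * y) * a * (φ * y)⁻¹ := by rw [h1]
    _ = φ * (y * a * y⁻¹) * φ⁻¹ := by group

omit h in
theorem fconj {g : E} {τ : T →ₗ[ZMod q] T}
    (hg : ∀ x x' : ↥X1, (x' : E) = g * x * g⁻¹ → f x' = τ (f x)) (hX : Nz g X1) (n : ℕ)
    (x x' : ↥X1) (hx : (x' : E) = g ^ n * x * (g ^ n)⁻¹) : f x' = (τ ^ n) (f x) := by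
  induction n generalizing x x' with
  | zero =>
    have : x' = x := by
      apply Subtype.ext
      rw [hx]
      simp
    rw [this, pow_zero, Module.End.one_apply]
  | succ n ih =>
    rw [pow_succ, Module.End.mul_apply, ← hg x ⟨g * x * g⁻¹, hX x x.2⟩ rfl]
    apply ih
    rw [hx, pow_succ]
    change g ^ n * g * x * (g ^ n * g)⁻¹ = g ^ n * (g * x * g⁻¹) * (g ^ n)⁻¹
    group

theorem σp : σ ^ p = 1 := by
  ext t
  obtain ⟨a, rfl⟩ := h.fs t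
  rw [← fconj h.fσ h.ext.nφ p a a, Module.End.one_apply]
  rw [h.ext.yh.hφ]
  simp

theorem θn : ∃ n, θ ^ q ^ n = 1 := by
  obtain ⟨n, hn⟩ := h.ext.yh.hy
  refine ⟨n, ?_⟩
  ext t
  obtain ⟨a, rfl⟩ := h.fs t
  rw [← fconj h.fθ h.ext.ny (q ^ n) a a, Module.End.one_apply]
  rw [hn]
  simp

theorem feq_iff (a b : ↥X1) : f a = f b ↔ (a : E) * (b : E)⁻¹ ∈ Z := by
  have h1 := h.f0 (a * b⁻¹)
  rw [h.fa, h.finv, ← sub_eq_add_neg, sub_eq_zero] at h1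
  exact h1

theorem fix (t : T) (ht : σ t = t) : θ t = t := by
  obtain ⟨a, rfl⟩ := h.fs t
  rw [← h.fσ a ⟨φ * a * φ⁻¹, h.ext.nφ a a.2⟩ rfl, h.feq_iff] at ht
  rw [← h.fθ a ⟨y * a * y⁻¹, h.ext.ny a a.2⟩ rfl, h.feq_iff]
  have h1 := h.ext.hy0 a a.2 (by
    rw [commutatorElement_def]
    exact ht)
  rw [commutatorElement_def] at h1
  exact h1

theorem zW {z : E} (hz : z ∈ Z) : Scal ρ z W := ((h.ext.hZ z).1 hz).2

theorem zX {z : E} (hz : z ∈ Z) : z ∈ X1 := h.ext.hZX hz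

theorem memZ {z : E} (hz : z ∈ X1) (hs : Scal ρ z W) : z ∈ Z :=
  (h.ext.hZ z).2 ⟨h.ext.hXY hz, hs⟩

end Sit

/-- preimage of a subspace -/
def pre (X1 : Subgroup E) (f : ↥X1 → T) (fa : ∀ x x', f (x * x') = f x + f x')
    (S : Submodule (ZMod q) T) : Subgroup E where
  carrier := {a | ∃ ha : a ∈ X1, f ⟨a, ha⟩ ∈ S}
  one_mem' := ⟨one_mem _, by
    have h1 := fa 1 1
    rw [mul_one] at h1
    have h2 : f 1 = 0 := by
      have h3 : f 1 + 0 = f 1 + f 1 := by rw [add_zero]; exact h1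
      exact (add_left_cancel h3).symm
    change f 1 ∈ S
    rw [h2]
    exact S.zero_mem⟩
  mul_mem' := by
    rintro a b ⟨ha, ha'⟩ ⟨hb, hb'⟩
    refine ⟨X1.mul_mem ha hb, ?_⟩
    change f (⟨a, ha⟩ * ⟨b, hb⟩) ∈ S
    rw [fa]
    exact S.add_mem ha' hb'
  inv_mem' := by
    rintro a ⟨ha, ha'⟩
    refine ⟨X1.inv_mem ha, ?_⟩
    change f (⟨a, ha⟩⁻¹) ∈ S
    have h1 := fa 1 1
    rw [mul_one] at h1
    have h2 : f 1 = 0 := by
      have h3 : f 1 + 0 = f 1 + f 1 := by rw [add_zero]; exact h1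
      exact (add_left_cancel h3).symm
    have h4 := fa (⟨a, ha⟩⁻¹) ⟨a, ha⟩
    rw [inv_mul_cancel, h2] at h4
    rw [eq_neg_of_add_eq_zero_left h4.symm]
    exact S.neg_mem ha'

namespace Sit

variable (h : Sit p r q ρ φ y Y H Z X1 W f θ σ B ω)

/-- `XI` -/
abbrev XI : Subgroup E := pre X1 f h.fa (II θ)

theorem XI_le : h.XI ≤ X1 := fun _ ha => ha.1

theorem Z_le (S : Submodule (ZMod q) T) : Z ≤ pre X1 f h.fa S := fun z hz =>
  ⟨h.zX hz, by rw [(h.f0 _).2 hz]; exact S.zero_mem⟩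

theorem XI_nφ : Nz φ h.XI := by
  rintro a ⟨ha, ha'⟩
  refine ⟨h.ext.nφ a ha, ?_⟩
  rw [h.fσ ⟨a, ha⟩ ⟨φ * a * φ⁻¹, h.ext.nφ a ha⟩ rfl]
  exact II_map h.comm ha'

theorem XI_ny : Nz y h.XI := by
  rintro a ⟨ha, ha'⟩
  refine ⟨h.ext.ny a ha, ?_⟩
  rw [h.fθ ⟨a, ha⟩ ⟨y * a * y⁻¹, h.ext.ny a ha⟩ rfl, (mem_II.1 ha').1]
  exact ha'

include h in
theorem f_X1 (g a : ↥X1) (a' : ↥X1) (h' : (a' : E) = g * a * g⁻¹) : f a' = f a := by
  have h1 : a' = g * a * g⁻¹ := Subtype.ext h'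
  rw [h1, h.fa, h.fa, h.finv]
  abel

theorem XI_nX (S : Submodule (ZMod q) T) : NzS X1 (pre X1 f h.fa S) := by
  rintro g hg a ⟨ha, ha'⟩
  have h1 : g * a * g⁻¹ ∈ X1 := X1.mul_mem (X1.mul_mem hg ha) (X1.inv_mem hg)
  refine ⟨h1, ?_⟩
  rw [h.f_X1 ⟨g, hg⟩ ⟨a, ha⟩ ⟨_, h1⟩ rfl]
  exact ha'

theorem XI_ab : AbOn ρ h.XI W := by
  rintro a ⟨ha, ha'⟩ b ⟨hb, hb'⟩ w hw
  have h1 := h.rel ⟨a, ha⟩ ⟨b, hb⟩
  rw [B_orth h.Bθ (mem_II.1 ha').2 (mem_II.1 hb').1, ZMod.val_zero, pow_zero] at h1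
  have h2 := h1 w hw
  rwa [one_smul] at h2

theorem XI_cm : h.XI ≤ cm h.XI φ ⊔ Z := by
  have hp : Fact p.Prime := ⟨h.ext.yh.hp⟩
  intro a ha
  have hX : ¬ p ∣ Nat.card h.XI := by
    apply not_dvd_card_of_isPGroup (t := q) h.ext.yh.hpq
    exact h.ext.yh.hY.to_le (h.XI_le.trans h.ext.hXY)
  obtain ⟨d, hd, c, hc, rfl⟩ := cm_decomp (n := 1) (by rw [pow_one]; exact h.ext.yh.hφ) hX
    h.XI_nφ ha
  apply mul_mem (mem_sup_left hd) (mem_sup_right _)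
  obtain ⟨⟨hc1, hc2⟩, hc3⟩ := mem_fx.1 hc
  rw [← h.f0 ⟨c, hc1⟩]
  have : Finite T := Finite.of_surjective f h.fs
  apply II_fix h.ext.yh.hp h.ext.yh.hpq h.σp h.comm h.fix hc2
  rw [← h.fσ ⟨c, hc1⟩ ⟨c, hc1⟩]
  change c = φ * c * φ⁻¹
  rw [hc3, mul_inv_cancel_right]

theorem y_comm : ∀ x ∈ h.XI, ∀ w ∈ W, ρ x (ρ y w) = ρ y (ρ x w) := by
  let S : Subgroup E :=
    { carrier := {x | x ∈ X1 ∧ Rel ρ W 1 y x}
      one_mem' := ⟨one_mem _, fun w _ => by rw [one_smul, oneap, oneap]⟩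
      mul_mem' := by
        rintro a b ⟨ha, ha'⟩ ⟨hb, hb'⟩
        refine ⟨X1.mul_mem ha hb, ?_⟩
        have h1 := ha'.mul_right (h.iX b hb) hb'
        rwa [one_mul] at h1
      inv_mem' := by
        rintro a ⟨ha, ha'⟩
        refine ⟨X1.inv_mem ha, fun w hw => ?_⟩
        have h1 := ha' (ρ a⁻¹ w) ((h.iX a ha).inv w hw)
        rw [one_smul, rho_apply_inv] at h1
        rw [one_smul, h1, rho_inv_apply] }
  have hXI : h.XI ≤ S := by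
    refine h.XI_cm.trans (sup_le ?_ ?_)
    · apply cm_le_of' h.XI_nφ
      rintro a ⟨ha, ha'⟩
      have key : ∀ (a : E) (ha : a ∈ X1), f ⟨a, ha⟩ ∈ II θ → ∃ c, Rel ρ W c y a := by
        intro a ha ha'
        apply Rel.of_comm h.ext.iy (h.iX a ha)
        apply h.zW
        have h1 := (mem_II.1 ha').1
        rw [← h.fθ ⟨a, ha⟩ ⟨y * a * y⁻¹, h.ext.ny a ha⟩ rfl, h.feq_iff] at h1
        rw [commutatorElement_def]
        exact h1
      obtain ⟨c, hc⟩ := key a ha ha'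
      obtain ⟨c', hc'⟩ := key a⁻¹ (X1.inv_mem ha) (by
        have h1 : (⟨a⁻¹, X1.inv_mem ha⟩ : ↥X1) = ⟨a, ha⟩⁻¹ := rfl
        rw [h1, h.finv]
        exact (II θ).neg_mem ha')
      have h1 : c * c' = 1 := by
        have h2 := hc.mul_right ((h.iX a ha).inv) hc'
        rw [mul_inv_cancel] at h2
        apply Rel.unique h.ext.hW h2
        intro w _
        rw [one_smul, oneap, oneap]
      have h3 := hc'.conj h.ext.iφ
      have h4 : φ * y * φ⁻¹ = y := by rw [h.ext.yh.hc, mul_inv_cancel_right]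
      rw [h4] at h3
      have h5 : φ * a⁻¹ * φ⁻¹ ∈ X1 := h.ext.nφ _ (X1.inv_mem ha)
      have h6 := hc.mul_right (h.iX _ h5) h3
      rw [h1] at h6
      have h7 : ⁅a, φ⁆ = a * (φ * a⁻¹ * φ⁻¹) := by
        rw [commutatorElement_def]
        group
      rw [h7]
      exact ⟨X1.mul_mem ha h5, h6⟩
    · intro z hz
      exact ⟨h.zX hz, Rel.scal_right (h.zW hz) h.ext.iy⟩
  intro x hx w hw
  have h1 := (hXI hx).2 w hw
  rw [one_smul] at h1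
  exact h1.symm

/-- the weight spaces -/
abbrev Om : Set (Submodule k V) := wts ρ h.XI W

theorem XI_card : (Nat.card h.XI : k) ≠ 0 := by
  exact card_ne_zero_of_isPGroup (h.ext.yh.hY.to_le (h.XI_le.trans h.ext.hXY)) h.ext.hv

theorem Om_sup : sSup h.Om = W := by
  exact wts_sup h.XI_card (fun a ha => h.iX a ha.1) h.XI_ab

theorem Om_fix {U : Submodule k V} (hU : U ∈ h.Om) : U.map (ρ y) = U :=
  wts_fixed_of_comm h.ext.iy h.y_comm hU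

theorem Om_moved {U : Submodule k V} (hU : U ∈ h.Om) (hmov : U.map (ρ φ) ≠ U) :
    ∀ u ∈ U, ρ y u = u := by
  have hp : Fact p.Prime := ⟨h.ext.yh.hp⟩
  by_contra hcon
  push Not at hcon
  obtain ⟨n, hn⟩ := h.ext.yh.hy
  obtain ⟨v, hv, h1, h2, h3⟩ := acrit h.ext.yh.hpq h.ext.yh.hφ hn h.ext.yh.hc h.XI_card h.XI_nφ
    h.XI_ny h.ext.iφ h.ext.iy hU hmov (Or.inr hcon)
  apply h.nc
  have hkn : ∀ g : E, Inv ρ g W → Nz g (krn ρ W) := by
    intro g hg a ha w hw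
    rw [rho_mul_apply, rho_mul_apply, ha _ (hg.inv w hw), rho_apply_inv]
  refine ⟨y, mem_zpowers y, h.XI, h.XI ⊓ krn ρ W, h.XI_le.trans h.ext.hXY, inf_le_left, h.XI_nφ,
    h.XI_nφ.inf (hkn φ h.ext.iφ), h.XI_ny, h.XI_ny.inf (hkn y h.ext.iy), ?_, ?_, ?_⟩
  · intro g hg
    exact (h.XI_nX _ g hg.1).inf (hkn g (h.iX g hg.1))
  · intro a ha b hb
    refine ⟨?_, ?_⟩
    · rw [commutatorElement_def]
      exact h.XI.mul_mem (h.XI.mul_mem (h.XI.mul_mem ha hb) (h.XI.inv_mem ha)) (h.XI.inv_mem hb)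
    · exact (comm_iff (h.iX a ha.1) (h.iX b hb.1)).2 fun w hw => h.XI_ab a ha b hb w hw
  · refine ⟨v, h1, fun n hn => hn.2 v hv, h2, y, mem_zpowers y, h3⟩

/-- two `φ`-fixed weight spaces coincide -/
theorem Om_fixed {U U' : Submodule k V} (hU : U ∈ h.Om) (hU' : U' ∈ h.Om)
    (hf : U.map (ρ φ) = U) (hf' : U'.map (ρ φ) = U') : U = U' := by
  have h1 := cm_triv_of_fixed h.XI_nφ h.ext.iφ hU hf
  have h2 := cm_triv_of_fixed h.XI_nφ h.ext.iφ hU' hf'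
  have hne := hU.1
  have hne' := hU'.1
  obtain ⟨-, χ, hχ⟩ := hU
  obtain ⟨-, χ', hχ'⟩ := hU'
  rw [hχ, hχ']
  apply wsp_eq
  intro x hx
  obtain ⟨u, hu, hu0⟩ := (Submodule.ne_bot_iff _).1 hne
  obtain ⟨u', hu', hu0'⟩ := (Submodule.ne_bot_iff _).1 hne'
  have hW1 : U ≤ W := by rw [hχ]; exact wsp_le _ _ _
  have hW2 : U' ≤ W := by rw [hχ']; exact wsp_le _ _ _
  -- `x = c z`
  have hnz : NzS (cm h.XI φ) Z := by
    intro g hg z hz
    have hg1 : g ∈ X1 := h.XI_le (cm_le h.XI_nφ hg)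
    have h3 := h.f_X1 ⟨g, hg1⟩ ⟨z, h.zX hz⟩ ⟨g * z * g⁻¹,
      X1.mul_mem (X1.mul_mem hg1 (h.zX hz)) (X1.inv_mem hg1)⟩ rfl
    rw [(h.f0 ⟨z, _⟩).2 hz, h.f0] at h3
    exact h3
  obtain ⟨c, hc, z, hz, rfl⟩ : ∃ c ∈ cm h.XI φ, ∃ z ∈ Z, c * z = x := by
    have h3 := h.XI_cm hx
    rw [sup_comm] at h3
    obtain ⟨z, hz, c, hc, h5⟩ := mem_sup_of_nz hnz h3
    exact ⟨c, hc, c⁻¹ * z * c, by
      have := (hnz c hc).inv z hz
      simpa using this, by rw [h5]; group⟩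
  obtain ⟨d, hd⟩ := h.zW hz
  have e1 : ρ (c * z) u = d • u := by
    rw [rho_mul_apply, hd u (hW1 hu), map_smul, h1 c hc u hu]
  have e2 : ρ (c * z) u' = d • u' := by
    rw [rho_mul_apply, hd u' (hW2 hu'), map_smul, h2 c hc u' hu']
  have e3 : χ (c * z) = d := by
    have h6 : ρ (c * z) u = χ (c * z) • u := by
      rw [hχ] at hu
      exact hu.2 _ hx
    rw [e1] at h6
    have h7 : (d - χ (c * z)) • u = 0 := by rw [sub_smul, h6, sub_self]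
    exact (sub_eq_zero.1 ((smul_eq_zero.1 h7).resolve_right hu0)).symm
  have e4 : χ' (c * z) = d := by
    have h6 : ρ (c * z) u' = χ' (c * z) • u' := by
      rw [hχ'] at hu'
      exact hu'.2 _ hx
    rw [e2] at h6
    have h7 : (d - χ' (c * z)) • u' = 0 := by rw [sub_smul, h6, sub_self]
    exact (sub_eq_zero.1 ((smul_eq_zero.1 h7).resolve_right hu0')).symm
  rw [e3, e4]

/-- the unique weight space on which `y` is nontrivial -/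
theorem exists_U0 : ∃ U0 ∈ h.Om, ∀ U ∈ h.Om, U ≠ U0 → ∀ u ∈ U, ρ y u = u := by
  have h1 : ∃ U0 ∈ h.Om, U0.map (ρ φ) = U0 := by
    by_contra hcon
    push Not at hcon
    apply h.ne
    have h2 : ∀ w ∈ W, ρ y w = w := by
      have h3 : W ≤ LinearMap.eqLocus (ρ y) LinearMap.id := by
        rw [← h.Om_sup]
        apply sSup_le
        intro U hU u hu
        rw [LinearMap.mem_eqLocus]
        exact h.Om_moved hU (hcon U hU) u hu
      intro w hw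
      exact h3 hw
    ext t
    obtain ⟨a, rfl⟩ := h.fs t
    rw [Module.End.one_apply, ← h.fθ a ⟨y * a * y⁻¹, h.ext.ny a a.2⟩ rfl, h.feq_iff]
    apply h.memZ (X1.mul_mem (h.ext.ny a a.2) (X1.inv_mem a.2))
    refine ⟨1, fun w hw => ?_⟩
    have hyinv : ∀ w ∈ W, ρ y⁻¹ w = w := by
      intro w hw
      have h4 := rho_inv_apply (ρ := ρ) y w
      rwa [h2 w hw] at h4
    rw [rho_mul_apply, rho_mul_apply, rho_mul_apply, hyinv _ ((h.iX a a.2).inv w hw),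
      rho_apply_inv, h2 w hw, one_smul]
  obtain ⟨U0, hU0, hf⟩ := h1
  refine ⟨U0, hU0, fun U hU hne => ?_⟩
  apply h.Om_moved hU
  intro hf'
  exact hne (h.Om_fixed hU hU0 hf' hf)

end Sit

end

end QLQaux
end Pool.FH
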