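import Pool.Agent.Work.MP_4c212b_al.QLQ2

/-!
# Block QLQ, part 3: counting
-/

set_option autoImplicit false

open Subgroup
open scoped commutatorElement

namespace Pool.FH
namespace QLQaux

open DBaux QForm

section

variable {k E V T : Type} [Field k] [IsAlgClosed k] [Group E] [Finite E] [AddCommGroup V]
  [Module k V] [FiniteDimensional k V] [AddCommGroup T] {p r q : ℕ} [hq : Fact q.Prime]
  [Module (ZMod q) T] [Finite T]
  {ρ : Representation k E V}
  {φ y : E} {Y H Z X1 : Subgroup E} {W : Submodule k V} {f : ↥X1 → T}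
  {θ σ : T →ₗ[ZMod q] T} {B : T →ₗ[ZMod q] T →ₗ[ZMod q] ZMod q} {ω : k}

theorem finrank_map_rho (g : E) (U : Submodule k V) :
    Module.finrank k (U.map (ρ g)) = Module.finrank k U := by
  apply LinearEquiv.finrank_eq
  symm
  apply Submodule.equivMapOfInjective
  intro v w hvw
  have h1 := congrArg (ρ g⁻¹) hvw
  rwa [rho_inv_apply, rho_inv_apply] at h1

theorem rho_ne_zero (g : E) {u : V} (hu : u ≠ 0) : ρ g u ≠ 0 := by
  intro h
  apply hu
  rw [← rho_inv_apply (ρ := ρ) g u, h, map_zero]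

namespace Sit

variable (h : Sit p r q ρ φ y Y H Z X1 W f θ σ B ω)

include h

theorem B_zero_of {a b : ↥X1} {u : V} (hu : u ∈ W) (hu0 : u ≠ 0)
    (h1 : ρ (a : E) (ρ (b : E) u) = ρ (b : E) (ρ (a : E) u)) : B (f a) (f b) = 0 := by
  have h2 := h.rel a b u hu
  rw [h1] at h2
  have h3 : ρ (b : E) (ρ (a : E) u) ≠ 0 := rho_ne_zero _ (rho_ne_zero _ hu0)
  have h4 : (1 - ω ^ (B (f a) (f b)).val) • ρ (b : E) (ρ (a : E) u) = 0 := by
    rw [sub_smul, one_smul, ← h2, sub_self]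
  have h5 := sub_eq_zero.1 ((smul_eq_zero.1 h4).resolve_right h3)
  apply pow_val_inj h.pr
  rw [ZMod.val_zero, pow_zero, ← h5]

theorem comm_of_B {a b : ↥X1} (h0 : B (f a) (f b) = 0) {w : V} (hw : w ∈ W) :
    ρ (a : E) (ρ (b : E) w) = ρ (b : E) (ρ (a : E) w) := by
  have h1 := h.rel a b w hw
  rwa [h0, ZMod.val_zero, pow_zero, one_smul] at h1

theorem stab_iff {U : Submodule k V} (hU : U ∈ h.Om) (b : ↥X1) :
    U.map (ρ (b : E)) = U ↔ ∀ s ∈ II θ, B s (f b) = 0 := by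
  constructor
  · intro h1 s hs
    rw [map_rho_eq_iff] at h1
    obtain ⟨a, rfl⟩ := h.fs s
    obtain ⟨u, hu, hu0⟩ := (Submodule.ne_bot_iff _).1 hU.1
    obtain ⟨-, χ, rfl⟩ := hU
    have ha : (a : E) ∈ h.XI := ⟨a.2, hs⟩
    apply h.B_zero_of hu.1 hu0
    rw [(h1 u hu).2 a ha, hu.2 a ha, map_smul]
  · intro h1
    apply wts_fixed_of_comm (h.iX b b.2) _ hU
    rintro x ⟨hx, hx'⟩ w hw
    exact h.comm_of_B (a := ⟨x, hx⟩) (h1 _ hx') hw

theorem nondeg : LinearMap.BilinForm.Nondegenerate (B : LinearMap.BilinForm (ZMod q) T) := by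
  constructor
  · intro x hx
    exact h.nd x hx
  · intro x hx
    apply h.nd x
    intro t
    rw [h.skew, hx t, neg_zero]

theorem refl' : LinearMap.BilinForm.IsRefl (B : LinearMap.BilinForm (ZMod q) T) := by
  intro x t hxt
  rw [h.skew, hxt, neg_zero]

/-- many weight spaces -/
theorem exists_family {U0 : Submodule k V} (hU0 : U0 ∈ h.Om) :
    ∃ (ι : Type) (_ : Fintype ι) (A : ι → Submodule k V), Function.Injective A ∧
      (∀ i, A i ∈ h.Om) ∧ (∀ i, Module.finrank k (A i) = Module.finrank k U0) ∧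
      Fintype.card ι = q ^ Module.finrank (ZMod q) (II θ) := by
  obtain ⟨P, hP⟩ : ∃ P, P = LinearMap.BilinForm.orthogonal
    (B : LinearMap.BilinForm (ZMod q) T) (II θ) := ⟨_, rfl⟩
  obtain ⟨C, hC⟩ := Submodule.exists_isCompl P
  have := Fintype.ofFinite C
  choose sec hsec using h.fs
  refine ⟨C, inferInstance, fun c => U0.map (ρ (sec (c : T) : E)), ?_, ?_, ?_, ?_⟩
  · intro c c' hcc
    have h1 := (map_rho_eq_map_iff (ρ := ρ)).1 hcc
    rw [← map_rho_eq_iff] at h1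
    have h2 := (h.stab_iff hU0 ((sec (c' : T))⁻¹ * sec (c : T))).1 h1
    have h3 : f ((sec (c' : T))⁻¹ * sec (c : T)) ∈ P := by
      rw [hP, LinearMap.BilinForm.mem_orthogonal_iff]
      intro s hs
      exact h2 s hs
    rw [h.fa, h.finv, hsec, hsec] at h3
    have h4 : -(c' : T) + c ∈ C := C.add_mem (C.neg_mem c'.2) c.2
    have h5 := (Submodule.disjoint_def.1 hC.disjoint) _ h3 h4
    apply Subtype.ext
    rw [add_comm, ← sub_eq_add_neg, sub_eq_zero] at h5
    exact h5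
  · intro c
    exact wts_map (h.XI_nX _ _ (sec (c : T)).2) (h.iX _ (sec (c : T)).2) hU0
  · intro c
    exact finrank_map_rho _ _
  · have h1 : Module.finrank (ZMod q) C = Module.finrank (ZMod q) (II θ) := by
      have h2 := Submodule.finrank_add_eq_of_isCompl hC
      have h3 := LinearMap.BilinForm.finrank_orthogonal h.nondeg (II θ)
      rw [← hP] at h3
      have h4 := Submodule.finrank_le (II θ)
      omega
    rw [← h1, Module.card_eq_pow_finrank (K := ZMod q), ZMod.card]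

theorem m_pos : 0 < Module.finrank (ZMod q) (II θ) := by
  obtain ⟨n, hn⟩ := h.θn
  rw [Module.finrank_pos_iff, Submodule.nontrivial_iff_ne_bot]
  exact II_ne hn h.ne

theorem card_mod : q ^ Module.finrank (ZMod q) (II θ) ≡ 1 [MOD p] :=
  II_card h.ext.yh.hp h.ext.yh.hpq h.σp h.comm h.fix

theorem three_le : 3 ≤ q ^ Module.finrank (ZMod q) (II θ) := by
  have h1 := h.card_mod
  have h2 : 2 ≤ q ^ Module.finrank (ZMod q) (II θ) :=
    le_trans hq.out.two_le (Nat.le_self_pow h.m_pos.ne' q)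
  by_contra hcon
  have h3 : q ^ Module.finrank (ZMod q) (II θ) = 2 := by omega
  rw [h3] at h1
  have h4 := h.ext.yh.hp.two_le
  have h5 : p ∣ 1 := by
    have := (Nat.modEq_iff_dvd' (by norm_num : 1 ≤ 2)).1 h1.symm
    simpa using this
  rw [Nat.dvd_one] at h5
  omega

theorem third (U1 U2 : Submodule k V) : ∃ U ∈ h.Om, U ≠ U1 ∧ U ≠ U2 := by
  classical
  obtain ⟨U0, hU0, -⟩ := h.exists_U0
  obtain ⟨ι, _, A, hA, hAm, -, hc⟩ := h.exists_family hU0
  by_contra hcon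
  push Not at hcon
  have h1 : Finset.univ.image A ⊆ {U1, U2} := by
    intro U hU
    rw [Finset.mem_image] at hU
    obtain ⟨i, -, rfl⟩ := hU
    rw [Finset.mem_insert, Finset.mem_singleton]
    by_cases h2 : A i = U1
    · exact Or.inl h2
    · exact Or.inr (hcon _ (hAm i) h2)
  have h2 := Finset.card_le_card h1
  rw [Finset.card_image_of_injective _ hA, Finset.card_univ, hc] at h2
  have h3 := Finset.card_le_two (a := U1) (b := U2)
  have h4 := h.three_le
  omega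

theorem U_count {U0 : Submodule k V} (hU0 : U0 ∈ h.Om) :
    q ^ Module.finrank (ZMod q) (II θ) * Module.finrank k U0 ≤ Module.finrank k W := by
  classical
  obtain ⟨ι, _, A, hA, hAm, hAf, hc⟩ := h.exists_family hU0
  have h1 : iSupIndep A := by
    have h2 := (sSupIndep_iff (h.Om)).1 (wts_indep (ρ := ρ) h.XI W)
    exact h2.comp (f := fun i => (⟨A i, hAm i⟩ : h.Om)) (fun i j hij =>
      hA (congrArg Subtype.val hij))
  have h2 := sum_finrank_le Finset.univ A h1 W (fun i _ => wts_le (hAm i))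
  rw [Finset.sum_congr rfl (fun i _ => hAf i), Finset.sum_const, Finset.card_univ, hc,
    smul_eq_mul] at h2
  exact h2

/-- `y⁻¹ y^g` is trivial on almost all weight spaces -/
theorem triv_on {U0 : Submodule k V}
    (hU0 : ∀ U ∈ h.Om, U ≠ U0 → ∀ u ∈ U, ρ y u = u) {g : E} (hg : g ∈ X1) {U : Submodule k V}
    (hU : U ∈ h.Om) (h1 : U ≠ U0) (h2 : U ≠ U0.map (ρ g)) :
    ∀ u ∈ U, ρ (y⁻¹ * (g * y * g⁻¹)) u = u := by
  intro u hu
  have hgi : g⁻¹ ∈ X1 := X1.inv_mem hg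
  have h3 : U.map (ρ g⁻¹) ∈ h.Om := wts_map (h.XI_nX _ _ hgi) (h.iX _ hgi) hU
  have h4 : U.map (ρ g⁻¹) ≠ U0 := by
    intro h5
    apply h2
    rw [← h5, ← map_rho_mul, mul_inv_cancel, map_rho_one]
  have h5 := hU0 _ h3 h4 (ρ g⁻¹ u) ⟨u, hu, rfl⟩
  rw [rho_mul_apply, rho_mul_apply, rho_mul_apply, h5, rho_apply_inv]
  have h6 := rho_inv_apply (ρ := ρ) y u
  rwa [hU0 U hU h1 u hu] at h6

theorem range_le (s : T) : θ s - s ∈ II θ := by
  obtain ⟨U0, hU0, hU0'⟩ := h.exists_U0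
  obtain ⟨b, rfl⟩ := h.fs s
  have hg : y * b * y⁻¹ ∈ X1 := h.ext.ny b b.2
  obtain ⟨U, hU, h1, h2⟩ := h.third U0 (U0.map (ρ (y * b * y⁻¹)))
  have h3 := h.triv_on hU0' hg hU h1 h2
  have h4 : y⁻¹ * ((y * b * y⁻¹) * y * (y * b * y⁻¹)⁻¹) = b * (y * b * y⁻¹)⁻¹ := by group
  rw [h4] at h3
  have h5 : ∀ t ∈ LinearMap.BilinForm.orthogonal (B : LinearMap.BilinForm (ZMod q) T) (II θ),
      B t (f b - θ (f b)) = 0 := by
    intro t ht
    obtain ⟨c, rfl⟩ := h.fs t
    rw [LinearMap.BilinForm.mem_orthogonal_iff] at ht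
    have h6 : U.map (ρ (c : E)) = U := (h.stab_iff hU c).2 (fun s hs => ht s hs)
    rw [map_rho_eq_iff] at h6
    obtain ⟨u, hu, hu0⟩ := (Submodule.ne_bot_iff _).1 hU.1
    have h7 : f (b * (⟨y * b * y⁻¹, hg⟩ : ↥X1)⁻¹) = f b - θ (f b) := by
      rw [h.fa, h.finv, h.fθ b ⟨y * b * y⁻¹, hg⟩ rfl, sub_eq_add_neg]
    rw [← h7]
    apply h.B_zero_of (wts_le hU hu) hu0
    change ρ (c : E) (ρ ((b : E) * (y * b * y⁻¹)⁻¹) u) = ρ ((b : E) * (y * b * y⁻¹)⁻¹) (ρ (c : E) u)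
    rw [h3 u hu, h3 _ (h6 u hu)]
  have h6 : f b - θ (f b) ∈ II θ := by
    have h7 := LinearMap.BilinForm.orthogonal_orthogonal h.nondeg h.refl' (II θ)
    rw [← h7, LinearMap.BilinForm.mem_orthogonal_iff]
    exact h5
  have h7 := (II θ).neg_mem h6
  rwa [neg_sub] at h7

end Sit

end

end QLQaux
end Pool.FH
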