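import Pool.Agent.Work.MP_4c212b_al.Defs

/-!
# Representations: definitions

`ρ : Representation k E V`, `E` a finite group; invariant subspaces are submodules `W` of `V`
that are invariant under single elements or subgroups of `E`.
-/

set_option autoImplicit false

open Subgroup
open scoped commutatorElement TensorProduct

namespace Pool.FH

section

variable {k E V : Type} [Field k] [Group E] [AddCommGroup V] [Module k V]

/-- `W` is invariant under `g` -/
def Inv (ρ : Representation k E V) (g : E) (W : Submodule k V) : Prop := ∀ w ∈ W, ρ g w ∈ W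

/-- `W` is invariant under the subgroup `P` -/
def InvS (ρ : Representation k E V) (P : Subgroup E) (W : Submodule k V) : Prop :=
  ∀ g ∈ P, Inv ρ g W

/-- `P` acts trivially on `W` -/
def Triv (ρ : Representation k E V) (P : Subgroup E) (W : Submodule k V) : Prop :=
  ∀ g ∈ P, ∀ w ∈ W, ρ g w = w

/-- the operator `∑_{h ∈ H} ρ h` -/
noncomputable def sm (ρ : Representation k E V) (H : Subgroup E) : V →ₗ[k] V :=
  ∑ᶠ h : H, ρ (h : E)

/-- `P` acts on `W` through a commutative group -/
def AbOn (ρ : Representation k E V) (P : Subgroup E) (W : Submodule k V) : Prop :=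
  ∀ x ∈ P, ∀ y ∈ P, ∀ w ∈ W, ρ x (ρ y w) = ρ y (ρ x w)

/-- `x` acts on `W` as a scalar -/
def Scal (ρ : Representation k E V) (x : E) (W : Submodule k V) : Prop :=
  ∃ c : k, ∀ w ∈ W, ρ x w = c • w

/-- The weight space of the function `χ` (restricted to `X`) in `W`. -/
def wsp (ρ : Representation k E V) (X : Subgroup E) (W : Submodule k V) (χ : E → k) :
    Submodule k V where
  carrier := {v | v ∈ W ∧ ∀ x ∈ X, ρ x v = χ x • v}
  add_mem' := by
    rintro a b ⟨ha, ha'⟩ ⟨hb, hb'⟩
    exact ⟨W.add_mem ha hb, fun x hx => by rw [map_add, ha' x hx, hb' x hx, smul_add]⟩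
  zero_mem' := ⟨W.zero_mem, fun x _ => by simp⟩
  smul_mem' := by
    rintro c a ⟨ha, ha'⟩
    exact ⟨W.smul_mem c ha, fun x hx => by rw [map_smul, ha' x hx, smul_comm]⟩

/-- The set of weight spaces of `X` in `W`. -/
def wts (ρ : Representation k E V) (X : Subgroup E) (W : Submodule k V) :
    Set (Submodule k V) :=
  {U | U ≠ ⊥ ∧ ∃ χ : E → k, U = wsp ρ X W χ}

/-- `W` is a minimal nonzero subspace invariant under all elements of the set `A`. -/
def Irr (ρ : Representation k E V) (A : Set E) (W : Submodule k V) : Prop :=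
  W ≠ ⊥ ∧ (∀ g ∈ A, Inv ρ g W) ∧ ∀ U ≤ W, U ≠ ⊥ → (∀ g ∈ A, Inv ρ g U) → U = W

/-- Success of type A: a `φ`-fixed and `N`-fixed vector in `[V, [X, φ]]` moved by an element of
`D`. -/
def goodA (ρ : Representation k E V) (φ : E) (X N D : Subgroup E) : Prop :=
  ∃ v : V, ρ φ v = v ∧ (∀ n ∈ N, ρ n v = v) ∧ sm ρ (cm X φ) v = 0 ∧ ∃ d ∈ D, ρ d v ≠ v

/-- Success of type B: a nonzero `φ`-fixed and `N`-fixed vector in `[V, [Y, φ]]` and in
`[V, z]`. -/
def goodB (ρ : Representation k E V) (φ : E) (Y N : Subgroup E) (z : E) : Prop :=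
  ∃ v : V, v ≠ 0 ∧ ρ φ v = v ∧ (∀ n ∈ N, ρ n v = v) ∧ sm ρ (cm Y φ) v = 0 ∧
    sm ρ (zpowers z) v = 0

/-- base change of a representation -/
noncomputable def bc (K : Type) [Field K] [Algebra k K] (ρ : Representation k E V) :
    Representation K E (K ⊗[k] V) where
  toFun g := (ρ g).baseChange K
  map_one' := by
    ext v
    simp
  map_mul' g h := by
    ext v
    simp

end

/-- A module for the next level of a system on the layer `O_s(G)` of the Fitting subgroup. -/
structure Mod (S : Sys) (s : ℕ) [Fact s.Prime] where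
  V : Type
  [acg : AddCommGroup V]
  [mod : Module (ZMod s) V]
  [fin : Finite V]
  ρ : Representation (ZMod s) S.next.Γ V
  /-- the projection `O_s(G) → O_s(G)/Φ(O_s(G))` -/
  f : ↥(Op s S.G) → V
  f_surj : Function.Surjective f
  f_mul : ∀ x y, f (x * y) = f x + f y
  f_equiv : ∀ (g : S.Γ) (x y : ↥(Op s S.G)), (y : S.Γ) = g * x * g⁻¹ → f y = ρ (S.pr g) (f x)
  /-- a prime power group of order prime to `s` acting trivially on `V` centralises `O_s(G)` -/
  faith : ∀ t : ℕ, t.Prime → t ≠ s → ∀ X : Subgroup S.Γ, IsPGroup t X →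
    (∀ x ∈ X, ∀ v, ρ (S.pr x) v = v) → ∀ x ∈ X, ∀ y ∈ Op s S.G, x * y = y * x

attribute [instance] Mod.acg Mod.mod Mod.fin

end Pool.FH
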